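import Pool.Agent.W_7d29a1_h47q.LdB
import Pool.Agent.W_7d29a1_h47.Lim

/-!
# Almost sure limit of the point-to-point free energy
-/

namespace Pool.Agent.W_7d29a1_h47

open MeasureTheory ProbabilityTheory Finset Filter Topology

noncomputable section

variable {μ : Measure ℝ} [IsProbabilityMeasure μ]

/-- Proof. `|v| < 1` and `y n / n → v` give `|y n| ≤ n` for large `n`; `Reach_iff`. -/
lemma ev_reach {v : ℝ} (hv : |v| < 1) {y : ℕ → ℤ} (hpar : ∀ n, (y n - n) % 2 = 0)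
    (hy : Tendsto (fun n : ℕ => (y n : ℝ) / n) atTop (𝓝 v)) : ∀ᶠ n : ℕ in atTop, Reach 0 n (y n) := by
  have h1 : Tendsto (fun n : ℕ => |(y n : ℝ) / n|) atTop (𝓝 |v|) := hy.abs
  filter_upwards [h1.eventually_lt_const hv, eventually_ge_atTop 1] with n hn hn1
  have hn0 : (0 : ℝ) < n := by exact_mod_cast hn1
  rw [abs_div, abs_of_pos hn0, div_lt_one hn0] at hn
  refine Reach_iff.2 ⟨?_, ?_⟩
  · exact_mod_cast hn.le
  · have := hpar n
    omega

/-- Proof. Lower bound `ap_lower`, upper bound `ap_le` with the tilt `h`: `ap / n ≤ Λ(h) - h (y n / n)`. -/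
lemma tendsto_ap (hμ : EM μ) {h v : ℝ} (hv : |v| < 1) (hs : SubG μ h v) {y : ℕ → ℤ}
    (hpar : ∀ n, (y n - n) % 2 = 0) (hy : Tendsto (fun n : ℕ => (y n : ℝ) / n) atTop (𝓝 v)) :
    Tendsto (fun n : ℕ => ap μ n (y n) / n) atTop (𝓝 (Lam μ h - h * v)) := by
  have hup : Tendsto (fun n : ℕ => Lam μ h - h * ((y n : ℝ) / n)) atTop (𝓝 (Lam μ h - h * v)) :=
    tendsto_const_nhds.sub (hy.const_mul h)
  refine tendsto_order.2 ⟨fun b hb => ?_, fun b hb => ?_⟩
  · have hε : 0 < (Lam μ h - h * v - b) / 2 := by linarith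
    filter_upwards [ap_lower hμ hv hs hpar hy hε, eventually_ge_atTop 1] with n hn hn1
    have hn0 : (0 : ℝ) < n := by exact_mod_cast hn1
    rw [lt_div_iff₀ hn0]
    refine lt_of_lt_of_le ?_ hn
    rw [mul_comm]
    exact mul_lt_mul_of_pos_left (by linarith) hn0
  · filter_upwards [(tendsto_order.1 hup).2 b hb, ev_reach hv hpar hy, eventually_ge_atTop 1]
      with n hn hr hn1
    have hn0 : (0 : ℝ) < n := by exact_mod_cast hn1
    refine lt_of_le_of_lt ?_ hn
    rw [div_le_iff₀ hn0]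
    have h1 := ap_le hμ hr h
    have h2 : (Lam μ h - h * ((y n : ℝ) / n)) * n = n * Lam μ h - h * y n := by
      field_simp
    rw [h2]
    linarith

/-- Exponential Chebyshev bound. Proof. As `Lim_dev` (`Lim.lean`), with `conc_Zp`, `EMom_logZp`. -/
lemma dev_exp_Zp (hμ : EM μ) {n : ℕ} {y : ℤ} (hy : Reach 0 n y) {θ ε : ℝ} (hθ : 0 < θ)
    (hθ1 : θ ≤ 1) :
    (law μ).real {g | ε * n ≤ |Real.log (Zp g 0 0 n y) - ap μ n y|} ≤
      2 * Real.exp (Cc μ * θ ^ 2 * n - θ * ε * n) := by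
  set X : Env → ℝ := fun g => Real.log (Zp g 0 0 n y) - ap μ n y with hX
  have hXm : EMom (law μ) X := (EMom_logZp hμ hy 0).sub (EMom.const _)
  have h1 : ∫ g, Real.exp (θ * X g) ∂(law μ) ≤ Real.exp (Cc μ * θ ^ 2 * n) :=
    conc_Zp hμ hy 0 (θ := θ) (by rw [abs_of_pos hθ]; exact hθ1)
  have h2 : ∫ g, Real.exp (-θ * X g) ∂(law μ) ≤ Real.exp (Cc μ * θ ^ 2 * n) := by
    have := conc_Zp hμ hy 0 (θ := -θ) (by rw [abs_neg, abs_of_pos hθ]; exact hθ1)
    rwa [neg_sq] at this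
  have hi1 := hXm.integrable_exp θ
  have hi2 := hXm.integrable_exp (-θ)
  have h3 : Real.exp (θ * ε * n) * (law μ).real {g | ε * n ≤ |X g|} ≤
      2 * Real.exp (Cc μ * θ ^ 2 * n) := by
    have h4 := mul_meas_ge_le_integral_of_nonneg (μ := law μ)
      (f := fun g => Real.exp (θ * X g) + Real.exp (-θ * X g))
      (Eventually.of_forall fun g => by positivity) (hi1.add hi2) (Real.exp (θ * ε * n))
    rw [integral_add hi1 hi2] at h4
    have h5 : (law μ).real {g | ε * n ≤ |X g|} ≤ (law μ).real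
        {g | Real.exp (θ * ε * n) ≤ Real.exp (θ * X g) + Real.exp (-θ * X g)} := by
      refine measureReal_mono (fun g hg => ?_) (measure_ne_top _ _)
      simp only [Set.mem_ofPred_eq] at hg ⊢
      rcases le_abs.1 hg with h6 | h6
      · have : θ * ε * n ≤ θ * X g := by nlinarith
        linarith [Real.exp_le_exp.2 this, Real.exp_pos (-θ * X g)]
      · have : θ * ε * n ≤ -θ * X g := by nlinarith
        linarith [Real.exp_le_exp.2 this, Real.exp_pos (θ * X g)]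
    have h6 := mul_le_mul_of_nonneg_left h5 (Real.exp_pos (θ * ε * n)).le
    linarith
  have h7 : (law μ).real {g | ε * n ≤ |X g|} ≤
      Real.exp (-(θ * ε * n)) * (2 * Real.exp (Cc μ * θ ^ 2 * n)) := by
    have h8 := mul_le_mul_of_nonneg_left h3 (Real.exp_pos (-(θ * ε * n))).le
    rw [← mul_assoc, ← Real.exp_add] at h8
    simpa using h8
  refine h7.trans (le_of_eq ?_)
  rw [mul_comm, mul_assoc, ← Real.exp_add]
  ring_nf

/-- For every `ε > 0`, almost surely `|log Zp - ap| < ε n` for large `n`. -/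
lemma LdC_ev (hμ : EM μ) {y : ℕ → ℤ} (hr : ∀ᶠ n : ℕ in atTop, Reach 0 n (y n)) {ε : ℝ}
    (hε : 0 < ε) : ∀ᵐ g ∂(law μ), ∀ᶠ n : ℕ in atTop,
      |Real.log (Zp g 0 0 n (y n)) - ap μ n (y n)| < ε * n := by
  set θ : ℝ := min 1 (ε / (2 * (Cc μ + 1))) with hθ
  have hC := Cc_nonneg μ
  have hθ0 : 0 < θ := lt_min one_pos (by positivity)
  have hθ1 : θ ≤ 1 := min_le_left _ _
  have hθ2 : Cc μ * θ ^ 2 ≤ θ * ε / 2 := by
    have h1 : θ ≤ ε / (2 * (Cc μ + 1)) := min_le_right _ _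
    have h2 : θ * (2 * (Cc μ + 1)) ≤ ε := by rwa [le_div_iff₀ (by positivity)] at h1
    nlinarith
  set c : ℝ := θ * ε / 2 with hc
  have hc0 : 0 < c := by positivity
  have hb : ∀ n : ℕ, (law μ) {g | Reach 0 n (y n) ∧
      ε * n ≤ |Real.log (Zp g 0 0 n (y n)) - ap μ n (y n)|} ≤
      ENNReal.ofReal (2 * Real.exp (-c) ^ n) := by
    intro n
    by_cases hrn : Reach 0 n (y n)
    · have h1 := dev_exp_Zp hμ hrn hθ0 hθ1 (ε := ε)
      have h2 : Cc μ * θ ^ 2 * n - θ * ε * n ≤ n * (-c) := by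
        have : Cc μ * θ ^ 2 * n ≤ θ * ε / 2 * n :=
          mul_le_mul_of_nonneg_right hθ2 (Nat.cast_nonneg n)
        rw [hc]; linarith
      have h3 : (law μ).real {g | ε * n ≤ |Real.log (Zp g 0 0 n (y n)) - ap μ n (y n)|} ≤
          2 * Real.exp (-c) ^ n := by
        refine h1.trans ?_
        rw [← Real.exp_nat_mul]
        exact mul_le_mul_of_nonneg_left (Real.exp_le_exp.2 h2) (by norm_num)
      refine (measure_mono fun g hg => hg.2).trans ?_
      rw [← ofReal_measureReal]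
      exact ENNReal.ofReal_le_ofReal h3
    · have h1 : {g : Env | Reach 0 n (y n) ∧
          ε * n ≤ |Real.log (Zp g 0 0 n (y n)) - ap μ n (y n)|} = ∅ :=
        Set.eq_empty_iff_forall_notMem.2 fun g hg => hrn hg.1
      rw [h1, measure_empty]
      exact bot_le
  have hsum : (∑' n : ℕ, (law μ) {g | Reach 0 n (y n) ∧
      ε * n ≤ |Real.log (Zp g 0 0 n (y n)) - ap μ n (y n)|}) ≠ ⊤ := by
    have hr : Summable fun n : ℕ => 2 * Real.exp (-c) ^ n :=
      (summable_geometric_of_lt_one (Real.exp_pos _).le (by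
        rw [Real.exp_lt_one_iff]; linarith)).mul_left 2
    refine ne_top_of_le_ne_top ?_ (ENNReal.tsum_le_tsum hb)
    exact hr.tsum_ofReal_ne_top
  filter_upwards [ae_eventually_notMem hsum] with g hg
  filter_upwards [hg, hr] with n hn hrn
  by_contra hcon
  exact hn ⟨hrn, not_lt.1 hcon⟩

/-- **Almost sure limit.** Proof. As `Lim_ev` and `tendsto_logZ` (`Lim.lean`): Borel–Cantelli with
`dev_exp_Zp` for the `n` with `Reach 0 n (y n)` (all large `n`, `ev_reach`), and `tendsto_ap`. -/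
theorem tendsto_logZp (hμ : EM μ) {h v : ℝ} (hv : |v| < 1) (hs : SubG μ h v) {y : ℕ → ℤ}
    (hpar : ∀ n, (y n - n) % 2 = 0) (hy : Tendsto (fun n : ℕ => (y n : ℝ) / n) atTop (𝓝 v)) :
    ∀ᵐ g ∂(law μ), Tendsto (fun n : ℕ => Real.log (Zp g 0 0 n (y n)) / n) atTop
      (𝓝 (Lam μ h - h * v)) := by
  have h1 : ∀ᵐ g ∂(law μ), ∀ m : ℕ, ∀ᶠ n : ℕ in atTop,
      |Real.log (Zp g 0 0 n (y n)) - ap μ n (y n)| < 1 / ((m : ℝ) + 1) * n :=
    ae_all_iff.2 fun m => LdC_ev hμ (ev_reach hv hpar hy) (by positivity)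
  filter_upwards [h1] with g hg
  have h2 : Tendsto (fun n : ℕ => Real.log (Zp g 0 0 n (y n)) / n - ap μ n (y n) / n) atTop
      (𝓝 0) := by
    rw [Metric.tendsto_atTop]
    intro ε hε
    obtain ⟨m, hm⟩ := exists_nat_one_div_lt hε
    obtain ⟨N, hN⟩ := eventually_atTop.1 (hg m)
    refine ⟨max N 1, fun n hn => ?_⟩
    have hn1 : (0 : ℝ) < n := by
      have : 1 ≤ n := (le_max_right _ _).trans hn
      exact_mod_cast this
    rw [Real.dist_eq, sub_zero, ← sub_div, abs_div, abs_of_pos hn1, div_lt_iff₀ hn1]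
    refine (hN n ((le_max_left _ _).trans hn)).trans_le ?_
    exact mul_le_mul_of_nonneg_right hm.le hn1.le
  have h3 := h2.add (tendsto_ap hμ hv hs hpar hy)
  simpa using h3

end

end Pool.Agent.W_7d29a1_h47
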