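import Mathlib

/-!
# Legendre transform of a power-law convex function
-/

namespace Pool.Agent.W_7d29a1_h47

open Filter Topology

noncomputable section

/-- The class of functions: convex, with linear growth, power-law convex on bounded sets. -/
structure PC (L : ℝ → ℝ) (m : ℝ) : Prop where
  conv : ConvexOn ℝ Set.univ L
  grow : ∀ h : ℝ, |h| + m ≤ L h
  pow : ∀ H : ℝ, ∃ c : ℝ, 0 < c ∧ ∀ h, |h| ≤ H → ∀ u : ℝ, 0 < u → u ≤ 1 →
    c * u ^ 100 ≤ L (h + u) + L (h - u) - 2 * L h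

/-- The Legendre transform. -/
def leg (L : ℝ → ℝ) (v : ℝ) : ℝ := ⨆ h : ℝ, (h * v - L h)

variable {L : ℝ → ℝ} {m : ℝ}

/-- Proof. `h * v - L h` is continuous (a convex function on `ℝ` is continuous) and
`≤ -(1 - |v|) |h| - m`, so it tends to `-∞` at infinity and has a maximum
(`Continuous.exists_forall_ge` or a compact interval). -/
lemma exists_max (hL : PC L m) {v : ℝ} (hv : |v| < 1) :
    ∃ h : ℝ, ∀ h' : ℝ, h' * v - L h' ≤ h * v - L h := by
  have hcont : Continuous L := by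
    have h1 := hL.conv.continuousOn isOpen_univ
    exact continuousOn_univ.mp h1
  have hf : Continuous fun h : ℝ => h * v - L h := by fun_prop
  have h0 : 0 < 1 - |v| := by linarith
  have hm0 : 0 ≤ L 0 - m := by
    have := hL.grow 0
    rw [abs_zero] at this
    linarith
  set R : ℝ := (L 0 - m) / (1 - |v|) with hR
  have hR0 : 0 ≤ R := div_nonneg hm0 h0.le
  obtain ⟨x, hx, hmax⟩ := isCompact_Icc.exists_isMaxOn (s := Set.Icc (-R) R)
    ⟨0, by constructor <;> linarith⟩ hf.continuousOn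
  refine ⟨x, fun h' => ?_⟩
  by_cases hh : |h'| ≤ R
  · exact hmax (abs_le.mp hh)
  · have hh' : R < |h'| := not_le.mp hh
    have h1 : (0 : ℝ) * v - L 0 ≤ x * v - L x := hmax (show (0 : ℝ) ∈ Set.Icc (-R) R by
      constructor <;> linarith)
    have h2 : h' * v ≤ |h'| * |v| := by rw [← abs_mul]; exact le_abs_self _
    have h3 := hL.grow h'
    have h4 : (L 0 - m) < |h'| * (1 - |v|) := by
      rw [hR, div_lt_iff₀ h0] at hh'
      exact hh'
    linarith

/-- The maximiser. -/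
def lam_arg (L : ℝ → ℝ) (v : ℝ) : ℝ :=
  open Classical in
  if h : ∃ h : ℝ, ∀ h' : ℝ, h' * v - L h' ≤ h * v - L h then h.choose else 0

lemma lam_arg_max (hL : PC L m) {v : ℝ} (hv : |v| < 1) (h' : ℝ) :
    h' * v - L h' ≤ lam_arg L v * v - L (lam_arg L v) := by
  have h := exists_max hL hv
  unfold lam_arg
  rw [dif_pos h]
  exact h.choose_spec h'

/-- Proof. `ciSup` of a function with a maximum. -/
lemma leg_eq (hL : PC L m) {v : ℝ} (hv : |v| < 1) : leg L v = lam_arg L v * v - L (lam_arg L v) := by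
  unfold leg
  refine le_antisymm (ciSup_le fun h => lam_arg_max hL hv h) ?_
  exact le_ciSup (f := fun h : ℝ => h * v - L h)
    ⟨lam_arg L v * v - L (lam_arg L v), by rintro _ ⟨h, rfl⟩; exact lam_arg_max hL hv h⟩
    (lam_arg L v)

/-- Proof. `ciSup` is a least upper bound of the range (bounded above by `lam_arg_max`). -/
lemma leg_isLUB (hL : PC L m) {v : ℝ} (hv : |v| < 1) :
    IsLUB (Set.range fun h : ℝ => h * v - L h) (leg L v) := by
  unfold leg
  exact isLUB_ciSup ⟨lam_arg L v * v - L (lam_arg L v), by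
    rintro _ ⟨h, rfl⟩; exact lam_arg_max hL hv h⟩

/-- Proof. `-L 0 ≤ h v - L h ≤ -(1 - |v|) |h| - m` for the maximiser `h`. -/
lemma lam_arg_le (hL : PC L m) {a : ℝ} (ha : a < 1) {v : ℝ} (hv : |v| ≤ a) :
    |lam_arg L v| ≤ (L 0 - m) / (1 - a) := by
  have hv1 : |v| < 1 := lt_of_le_of_lt hv ha
  have h1 := lam_arg_max hL hv1 0
  have h2 : lam_arg L v * v ≤ |lam_arg L v| * |v| := by rw [← abs_mul]; exact le_abs_self _
  have h3 := hL.grow (lam_arg L v)
  have h4 : |lam_arg L v| * |v| ≤ |lam_arg L v| * a :=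
    mul_le_mul_of_nonneg_left hv (abs_nonneg _)
  rw [le_div_iff₀ (by linarith)]
  linarith

/-- Second differences of a convex function are nondecreasing in the step. -/
lemma LdD_mono (hL : PC L m) (h : ℝ) {s u : ℝ} (hs : 0 ≤ s) (hsu : s ≤ u) (hu : 0 < u) :
    L (h + s) + L (h - s) ≤ L (h + u) + L (h - u) := by
  have hα : 0 ≤ (u + s) / (2 * u) := by positivity
  have hβ : 0 ≤ (u - s) / (2 * u) := div_nonneg (by linarith) (by linarith)
  have hs1 : (u + s) / (2 * u) + (u - s) / (2 * u) = 1 := by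
    field_simp
    ring
  have h1 := hL.conv.2 (Set.mem_univ (h + u)) (Set.mem_univ (h - u)) hα hβ hs1
  have h2 := hL.conv.2 (Set.mem_univ (h + u)) (Set.mem_univ (h - u)) hβ hα (by linarith)
  simp only [smul_eq_mul] at h1 h2
  have e1 : (u + s) / (2 * u) * (h + u) + (u - s) / (2 * u) * (h - u) = h + s := by
    field_simp
    ring
  have e2 : (u - s) / (2 * u) * (h + u) + (u + s) / (2 * u) * (h - u) = h - s := by
    field_simp
    ring
  rw [e1] at h1
  rw [e2] at h2
  have h3 : ((u + s) / (2 * u) + (u - s) / (2 * u)) * (L (h + u) + L (h - u)) =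
      L (h + u) + L (h - u) := by rw [hs1, one_mul]
  linarith

/-- The second differences for all steps `u ≤ R`. Proof. Second differences of a convex function are
nondecreasing in the step (for `0 ≤ u ≤ u'`, `h ± u` are convex combinations of `h ± u'` with exchanged
coefficients). With `R' = max R 1` and `u / R' ≤ 1`:
`second difference (u) ≥ second difference (u / R') ≥ c (u / R')^100`. -/
lemma pow_all (hL : PC L m) (H R : ℝ) : ∃ c : ℝ, 0 < c ∧ ∀ h, |h| ≤ H → ∀ u : ℝ, 0 < u → u ≤ R →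
    c * u ^ 100 ≤ L (h + u) + L (h - u) - 2 * L h := by
  obtain ⟨c, hc, hp⟩ := hL.pow H
  set R' : ℝ := max R 1 with hR'
  have hR1 : 1 ≤ R' := le_max_right _ _
  have hR0 : 0 < R' := by linarith
  refine ⟨c / R' ^ 100, by positivity, fun h hh u hu huR => ?_⟩
  have hs0 : 0 < u / R' := div_pos hu hR0
  have hs1 : u / R' ≤ 1 := by
    rw [div_le_one hR0]
    exact huR.trans (le_max_left _ _)
  have hsu : u / R' ≤ u := div_le_self hu.le hR1
  have h1 := hp h hh (u / R') hs0 hs1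
  have h2 := LdD_mono hL h hs0.le hsu hu
  have h3 : c / R' ^ 100 * u ^ 100 = c * (u / R') ^ 100 := by
    rw [div_pow]; ring
  rw [h3]
  linarith

/-- The one-sided form of the estimate. -/
lemma LdD_key (hL : PC L m) {a : ℝ} (ha : a < 1) {c : ℝ} (hc : 0 < c)
    (hp : ∀ h, |h| ≤ (L 0 - m) / (1 - a) → ∀ u : ℝ, 0 < u → u ≤ (L 0 - m) / (1 - a) →
      c * u ^ 100 ≤ L (h + u) + L (h - u) - 2 * L h) {v w : ℝ} (hv : |v| ≤ a) (hw : |w| ≤ a)
    (hlt : lam_arg L v < lam_arg L w) :
    |lam_arg L v - lam_arg L w| ≤ 2 * (1 / c) ^ (1 / 99 : ℝ) * |v - w| ^ (1 / 99 : ℝ) := by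
  have hv1 : |v| < 1 := lt_of_le_of_lt hv ha
  have hw1 : |w| < 1 := lt_of_le_of_lt hw ha
  have hh := abs_le.mp (lam_arg_le hL ha hv)
  have hk := abs_le.mp (lam_arg_le hL ha hw)
  set h := lam_arg L v with hhd
  set k := lam_arg L w with hkd
  set H := (L 0 - m) / (1 - a) with hHd
  have hu0 : 0 < (k - h) / 2 := by linarith
  have huH : (k - h) / 2 ≤ H := by linarith [hh.1, hk.2]
  have hM : |(h + k) / 2| ≤ H := by
    rw [abs_le]
    constructor <;> linarith [hh.1, hh.2, hk.1, hk.2]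
  have h1 := hp ((h + k) / 2) hM ((k - h) / 2) hu0 huH
  have e1 : (h + k) / 2 + (k - h) / 2 = k := by ring
  have e2 : (h + k) / 2 - (k - h) / 2 = h := by ring
  rw [e1, e2] at h1
  have h2 := lam_arg_max hL hv1 ((h + k) / 2)
  have h3 := lam_arg_max hL hw1 ((h + k) / 2)
  rw [← hhd] at h2
  rw [← hkd] at h3
  have h4 : c * ((k - h) / 2) ^ 100 ≤ (w - v) * ((k - h) / 2) := by
    refine h1.trans ?_
    have e3 : (w - v) * ((k - h) / 2) = (h + k) / 2 * v * (-1) + h * v + (k * w - (h + k) / 2 * w) := by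
      ring
    rw [e3]
    linarith
  have h5 : c * ((k - h) / 2) ^ 99 ≤ w - v := by
    have e4 : c * ((k - h) / 2) ^ 100 = (c * ((k - h) / 2) ^ 99) * ((k - h) / 2) := by ring
    rw [e4] at h4
    exact le_of_mul_le_mul_right h4 hu0
  have h6 : ((k - h) / 2) ^ 99 ≤ 1 / c * |v - w| := by
    have h7 : w - v ≤ |v - w| := by rw [abs_sub_comm]; exact le_abs_self _
    rw [one_div, ← div_eq_inv_mul, le_div_iff₀ hc, mul_comm]
    exact h5.trans h7
  have h8 : (k - h) / 2 ≤ (1 / c * |v - w|) ^ (1 / 99 : ℝ) := by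
    have e5 : (((k - h) / 2) ^ 99) ^ (1 / 99 : ℝ) = (k - h) / 2 := by
      have := Real.pow_rpow_inv_natCast hu0.le (n := 99) (by norm_num)
      rw [one_div]
      exact_mod_cast this
    calc (k - h) / 2 = (((k - h) / 2) ^ 99) ^ (1 / 99 : ℝ) := e5.symm
      _ ≤ (1 / c * |v - w|) ^ (1 / 99 : ℝ) :=
        Real.rpow_le_rpow (by positivity) h6 (by norm_num)
  rw [Real.mul_rpow (by positivity) (abs_nonneg _)] at h8
  rw [abs_of_neg (by linarith)]
  linarith

/-- **Hölder continuity of the maximiser.** Proof. Let `|v|, |w| ≤ a < 1`, `h = lam_arg L v`,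
`k = lam_arg L w`, both in `[-H, H]` (`lam_arg_le`; if `a < 0` the statement is empty). Let `h ≠ k`,
wlog `h < k`, `u = (k - h) / 2 ≤ H`, `M = (h + k) / 2`, `|M| ≤ H`. By maximality
`L M ≥ L h + v (M - h)` and `L M ≥ L k + w (M - k)`, so `2 L M ≥ L h + L k + (v - w) u`, and with
`pow_all`: `c u^100 ≤ L k + L h - 2 L M ≤ (w - v) u`, so `u^99 ≤ |w - v| / c`,
`u ≤ (|w - v| / c)^(1/99)` (`Real.rpow`), `|h - k| = 2 u`. (`h < k` forces `v < w`; symmetric case by
exchanging the two.) -/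
lemma lam_arg_holder (hL : PC L m) {a : ℝ} (ha : a < 1) : ∃ C : ℝ, 0 ≤ C ∧ ∀ v w : ℝ, |v| ≤ a →
    |w| ≤ a → |lam_arg L v - lam_arg L w| ≤ C * |v - w| ^ (1 / 99 : ℝ) := by
  set H : ℝ := (L 0 - m) / (1 - a) with hH
  obtain ⟨c, hc, hp⟩ := pow_all hL H H
  refine ⟨2 * (1 / c) ^ (1 / 99 : ℝ), by positivity, fun v w hv hw => ?_⟩
  rcases lt_trichotomy (lam_arg L v) (lam_arg L w) with hlt | heq | hgt
  · exact LdD_key hL ha hc hp hv hw hlt
  · rw [heq, sub_self, abs_zero]
    positivity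
  · have h1 := LdD_key hL ha hc hp hw hv hgt
    rw [abs_sub_comm, abs_sub_comm v w]
    exact h1

/-- **The derivative.** Proof. For `w` near `v` (`|w| < 1`): by maximality
`lam_arg L v * (w - v) ≤ leg L w - leg L v ≤ lam_arg L w * (w - v)`, so
`|leg L w - leg L v - lam_arg L v * (w - v)| ≤ |lam_arg L w - lam_arg L v| |w - v|`, and the first factor
tends to `0` by `lam_arg_holder` (with `a = (1 + |v|) / 2`). -/
lemma hasDerivAt_leg (hL : PC L m) {v : ℝ} (hv : |v| < 1) :
    HasDerivAt (leg L) (lam_arg L v) v := by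
  set a : ℝ := (1 + |v|) / 2 with ha
  have ha1 : a < 1 := by rw [ha]; linarith
  have hva : |v| < a := by rw [ha]; linarith
  obtain ⟨C, hC0, hC⟩ := lam_arg_holder hL ha1
  rw [hasDerivAt_iff_isLittleO, Asymptotics.isLittleO_iff]
  intro e he
  have hnear : ∀ᶠ w in 𝓝 v, |w| < a := continuous_abs.continuousAt.eventually_lt
    continuousAt_const hva
  have hlim : Tendsto (fun w : ℝ => C * |v - w| ^ (1 / 99 : ℝ)) (𝓝 v) (𝓝 0) := by
    have hcont : Continuous fun w : ℝ => C * |v - w| ^ (1 / 99 : ℝ) := by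
      refine continuous_const.mul ?_
      exact (continuous_const.sub continuous_id).abs.rpow_const (fun _ => Or.inr (by norm_num))
    have := hcont.tendsto v
    simpa using this
  have hsmall : ∀ᶠ w in 𝓝 v, C * |v - w| ^ (1 / 99 : ℝ) < e := hlim.eventually_lt_const he
  filter_upwards [hnear, hsmall] with w hw1 hw2
  have hw : |w| < 1 := hw1.trans ha1
  have h1 : lam_arg L v * (w - v) ≤ leg L w - leg L v := by
    rw [leg_eq hL hw, leg_eq hL hv]
    have := lam_arg_max hL hw (lam_arg L v)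
    linarith
  have h2 : leg L w - leg L v ≤ lam_arg L w * (w - v) := by
    rw [leg_eq hL hw, leg_eq hL hv]
    have := lam_arg_max hL hv (lam_arg L w)
    linarith
  have h3 : |lam_arg L w - lam_arg L v| ≤ e := by
    rw [abs_sub_comm]
    exact (hC v w hva.le hw1.le).trans hw2.le
  rw [Real.norm_eq_abs, Real.norm_eq_abs, smul_eq_mul]
  have h4 : |leg L w - leg L v - (w - v) * lam_arg L v| ≤
      |(lam_arg L w - lam_arg L v) * (w - v)| := by
    rw [abs_of_nonneg (by linarith)]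
    refine le_trans ?_ (le_abs_self _)
    linarith
  rw [abs_mul] at h4
  exact h4.trans (mul_le_mul_of_nonneg_right h3 (abs_nonneg _))

/-- **Conclusion.** Proof. `hasDerivAt_leg` and `lam_arg_holder`. -/
theorem leg_main (hL : PC L m) : (∀ v : ℝ, |v| < 1 → DifferentiableAt ℝ (leg L) v) ∧
    ∀ a : ℝ, a < 1 → ∃ C : ℝ, ∀ v w : ℝ, |v| ≤ a → |w| ≤ a →
      |deriv (leg L) v - deriv (leg L) w| ≤ C * |v - w| ^ (1 / 99 : ℝ) := by
  refine ⟨fun v hv => (hasDerivAt_leg hL hv).differentiableAt, fun a ha => ?_⟩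
  obtain ⟨C, _, hC⟩ := lam_arg_holder hL ha
  refine ⟨C, fun v w hv hw => ?_⟩
  rw [(hasDerivAt_leg hL (lt_of_le_of_lt hv ha)).deriv,
    (hasDerivAt_leg hL (lt_of_le_of_lt hw ha)).deriv]
  exact hC v w hv hw

end

end Pool.Agent.W_7d29a1_h47
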