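import Pool.Agent.W_7d29a1_h47.Model

/-!
# The end point probability of the directed polymer
-/

namespace Pool.Agent.W_7d29a1_h47

noncomputable section

/-- The probability `P_n^{β,ω}(S_n = y)` that the polymer of length `n` ends in `y`. -/
def endP (β : ℝ) (ω : ℕ × ℤ → ℝ) (n : ℕ) (y : ℤ) : ℝ :=
  polE β ω n fun s => if walk s n = y then 1 else 0

end

end Pool.Agent.W_7d29a1_h47
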