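import Pool.Agent.W_7d29a1_h47q.ParE

/-!
# Power-law convexity, uniformly for bounded tilts
-/

namespace Pool.Agent.W_7d29a1_h47

open MeasureTheory ProbabilityTheory Finset Filter

noncomputable section

variable {μ : Measure ℝ} [IsProbabilityMeasure μ]

/-- The increments of a convex function are nondecreasing. -/
lemma ParF_incr {f : ℝ → ℝ} (hf : ConvexOn ℝ Set.univ f) {a b : ℝ} (hab : a ≤ b) :
    f (a + 1) - f a ≤ f (b + 1) - f b := by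
  have hL : 0 < b + 1 - a := by linarith
  have ht0 : 0 ≤ 1 / (b + 1 - a) := by positivity
  have ht1 : 1 / (b + 1 - a) ≤ 1 := by rw [div_le_one hL]; linarith
  have h1 := hf.2 (Set.mem_univ a) (Set.mem_univ (b + 1))
    (show 0 ≤ 1 - 1 / (b + 1 - a) by linarith) ht0 (by ring)
  have h2 := hf.2 (Set.mem_univ a) (Set.mem_univ (b + 1)) ht0
    (show 0 ≤ 1 - 1 / (b + 1 - a) by linarith) (by ring)
  simp only [smul_eq_mul] at h1 h2
  have e1 : (1 - 1 / (b + 1 - a)) * a + 1 / (b + 1 - a) * (b + 1) = a + 1 := by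
    field_simp
    ring
  have e2 : 1 / (b + 1 - a) * a + (1 - 1 / (b + 1 - a)) * (b + 1) = b := by
    field_simp
    ring
  rw [e1] at h1
  rw [e2] at h2
  linarith

/-- The slopes are bounded away from `1`, uniformly for `|h| ≤ H`. -/
lemma slopeF (hμ : EM μ) {H : ℝ} (hH : 0 ≤ H) :
    ∃ vb : ℝ, 0 ≤ vb ∧ vb < 1 ∧ ∀ h, |h| ≤ H → ∀ δ v D : ℝ, NA μ h δ v D → |v| ≤ vb := by
  have hc := Lam_convex hμ
  have u1 := slope_lt_one hμ (show H < H + 1 by linarith)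
  have hpos : 0 ≤ Lam μ (H + 1) - Lam μ H := by
    have h1 := ParF_incr hc (show -(H + 1) ≤ H by linarith)
    rw [show -(H + 1) + 1 = -H by ring, Lam_even, Lam_even] at h1
    linarith
  refine ⟨Lam μ (H + 1) - Lam μ H, hpos, by linarith, fun h hh δ v D hA => ?_⟩
  have hh' := abs_le.1 hh
  have hδ := hA.pos
  have hδ1 := hA.le1
  have hup := hA.up
  have hdn := hA.dn
  have a1 : v ≤ Lam μ (h + 1) - Lam μ h := by
    have k1 : Lam μ (h + δ) ≤ (1 - δ) * Lam μ h + δ * Lam μ (h + 1) := by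
      have := hc.2 (Set.mem_univ h) (Set.mem_univ (h + 1)) (show 0 ≤ 1 - δ by linarith) hδ.le
        (by ring)
      simp only [smul_eq_mul] at this
      rwa [show (1 - δ) * h + δ * (h + 1) = h + δ by ring] at this
    have k2 : δ * v ≤ δ * (Lam μ (h + 1) - Lam μ h) := by linarith [hA.D0]
    exact le_of_mul_le_mul_left k2 hδ
  have a2 : Lam μ h - Lam μ (h - 1) ≤ v := by
    have k1 : Lam μ (h - δ) ≤ (1 - δ) * Lam μ h + δ * Lam μ (h - 1) := by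
      have := hc.2 (Set.mem_univ h) (Set.mem_univ (h - 1)) (show 0 ≤ 1 - δ by linarith) hδ.le
        (by ring)
      simp only [smul_eq_mul] at this
      rwa [show (1 - δ) * h + δ * (h - 1) = h - δ by ring] at this
    have k2 : δ * (Lam μ h - Lam μ (h - 1)) ≤ δ * v := by linarith [hA.D0]
    exact le_of_mul_le_mul_left k2 hδ
  have b1 := ParF_incr hc (show h ≤ H by linarith)
  have b2 := ParF_incr hc (show -(H + 1) ≤ h - 1 by linarith)
  rw [show -(H + 1) + 1 = -H by ring, Lam_even, Lam_even, show h - 1 + 1 = h by ring] at b2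
  rw [abs_le]
  exact ⟨by linarith, by linarith⟩

/-- `Λ` is even and convex, hence `Λ(h) ≤ Λ(H)` for `|h| ≤ H`. -/
lemma Lam_leF (hμ : EM μ) {h H : ℝ} (hh : |h| ≤ H) : Lam μ h ≤ Lam μ H := by
  have hh' := abs_le.1 hh
  have h1 := (Lam_convex hμ).le_max_of_mem_Icc (Set.mem_univ (-H)) (Set.mem_univ H)
    (show h ∈ Set.Icc (-H) H from hh')
  rwa [Lam_even, max_self] at h1

/-- A product with a nonnegative factor that grows stays below a nonnegative bound. -/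
lemma ParF_mul {a b X B : ℝ} (ha : 0 ≤ a) (hab : a ≤ b) (hB : 0 ≤ B) (h : b * X ≤ B) :
    a * X ≤ B := by
  rcases le_total 0 X with hX | hX
  · exact (mul_le_mul_of_nonneg_right hab hX).trans h
  · exact (mul_nonpos_of_nonneg_of_nonpos ha hX).trans hB

/-- **Defect at small scales, uniformly for `|h| ≤ H`.** -/
theorem defect_smallF (hμ : EM μ) {p q : ℝ} (hpq : p < q) (hk : 0 < kmin μ p q) {H : ℝ}
    (hH : 0 ≤ H) :
    ∀ᶠ r : ℕ in atTop, ∀ h, |h| ≤ H → ∀ v D : ℝ, NA μ h ((r : ℝ) ^ 240)⁻¹ v D →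
      ((r : ℝ) ^ 24000)⁻¹ ≤ D := by
  obtain ⟨vb, hvb0, hvb, hsl⟩ := slopeF hμ hH
  have hε : 0 < (1 - vb) / 16 := by linarith
  filter_upwards [pr_ok (μ := μ) hk hvb0 hvb, bd1 (μ := μ) H hk hvb hε, bd2 (μ := μ) H hε,
    bd3 (μ := μ) hμ H hvb hε, bd4 (μ := μ) hμ hε, bd5 (kmin μ p q) vb hε, bd6 (μ := μ) hvb,
    bd7 μ H, eventually_ge_atTop 4] with r hok h1 h2 h3 h4 h5 h6 h7 hr h hh v D hA
  rw [abs_of_nonneg hH] at h1 h2 h3 h7
  by_contra hcon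
  push Not at hcon
  have hD0 := hA.D0
  have hD := hcon.le
  have hv := hsl h hh _ v D hA
  have hv' := abs_le.1 hv
  have hr1 : 1 ≤ r := by omega
  have hx : (4 : ℝ) ≤ (r : ℝ) := by exact_mod_cast hr
  have hδ : 0 < ((r : ℝ) ^ 240)⁻¹ := by positivity
  have hδε : 0 ≤ (1 - vb) / 16 * ((r : ℝ) ^ 240)⁻¹ := by positivity
  have hT : 4 ≤ (pr (kmin μ p q) vb r).T₁ := by
    change 4 ≤ r ^ 7754
    calc 4 ≤ r := hr
      _ = r ^ 1 := (pow_one r).symm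
      _ ≤ r ^ 7754 := Nat.pow_le_pow_right hr1 (by norm_num)
  have hρ : vb < (pr (kmin μ p q) vb r).ρ := by
    change vb < (1 + vb) / 2
    linarith
  have hY1 : 1 ≤ 3 * r ^ 485 := by
    have := Nat.one_le_pow 485 r hr1
    omega
  have h7' : 2 * (((r ^ 484 : ℕ) : ℝ) * (Lam μ h + |h| + (r : ℝ))) ≤ ((3 * r ^ 485 : ℕ) : ℝ) := by
    refine le_trans ?_ h7
    have := Lam_leF hμ hh
    have h0 : (0 : ℝ) ≤ ((r ^ 484 : ℕ) : ℝ) := Nat.cast_nonneg _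
    have h8 : Lam μ h + |h| + (r : ℝ) ≤ Lam μ H + H + (r : ℝ) := by linarith
    exact mul_le_mul_of_nonneg_left (mul_le_mul_of_nonneg_left h8 h0) (by norm_num)
  have key := mainQ (P := pr (kmin μ p q) vb r) hμ hpq hk hok hT hA hv hvb hρ
    (A := (r : ℝ)) (by linarith) 1212 (B := r ^ 484) (Nat.one_le_pow _ _ hr1) (h6 v D hv hD0 hD)
    (M₀ := (r : ℝ)) (K' := (r : ℝ)) (by linarith) (Yn := 3 * r ^ 485) hY1 h7'
  have hY0 : (0 : ℝ) ≤ ((3 * r ^ 485 : ℕ) : ℝ) := Nat.cast_nonneg _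
  have g1 := ParF_mul (a := 1 + (|h| + (r : ℝ)) + ((3 * r ^ 485 : ℕ) : ℝ))
    (by positivity) (by linarith) hδε (h1 D hD0 hD)
  have g2 : (1 + (|h| + (r : ℝ)) + ((3 * r ^ 485 : ℕ) : ℝ)) *
      (2 * (Mom μ 1 * Real.exp (|h| - ((3 * r ^ 485 : ℕ) : ℝ)))) ≤
      (1 - vb) / 16 * ((r : ℝ) ^ 240)⁻¹ := by
    have hM : 0 ≤ Mom μ 1 := integral_nonneg fun _ => (Real.exp_pos _).le
    refine le_trans (mul_le_mul (by linarith) ?_ (by positivity) (by positivity)) h2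
    have : Real.exp (|h| - ((3 * r ^ 485 : ℕ) : ℝ)) ≤ Real.exp (H - ((3 * r ^ 485 : ℕ) : ℝ)) :=
      Real.exp_le_exp.2 (by linarith)
    exact mul_le_mul_of_nonneg_left (mul_le_mul_of_nonneg_left this hM) (by norm_num)
  have g3 := ParF_mul (a := 3 + (|h| + (r : ℝ))) (by positivity) (by linarith) hδε (h3 v hv)
  have g5 := h5 D hD0 hD
  unfold BdQ at key
  have key2 : ((r : ℝ) ^ 240)⁻¹ * (1 - v) ≤ 5 * ((1 - vb) / 16 * ((r : ℝ) ^ 240)⁻¹) := by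
    rw [mul_add] at key
    linarith
  have key3 : ((r : ℝ) ^ 240)⁻¹ * (1 - vb) ≤ ((r : ℝ) ^ 240)⁻¹ * (1 - v) :=
    mul_le_mul_of_nonneg_left (by linarith) hδ.le
  nlinarith

/-- From the scales `r^{-240}`, `r ≥ r₀`, to all scales, with a constant that depends only on `r₀`. -/
lemma scale_allF (r₀ : ℕ) : ∃ c : ℝ, 0 < c ∧ ∀ g : ℝ → ℝ,
    (∀ u u' : ℝ, 0 ≤ u → u ≤ u' → g u ≤ g u') →
    (∀ r : ℕ, r₀ ≤ r → ((r : ℝ) ^ 24000)⁻¹ ≤ g ((r : ℝ) ^ 240)⁻¹) →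
    ∀ u : ℝ, 0 < u → u ≤ 1 → c * u ^ 100 ≤ g u := by
  refine ⟨(((r₀ : ℝ) + 2) ^ 24000)⁻¹, by positivity, fun g hg hr₀ u hu hu1 => ?_⟩
  set x : ℝ := u ^ (-(1 / 240) : ℝ) with hx
  have hx1 : 1 ≤ x := Real.one_le_rpow_of_pos_of_le_one_of_nonpos hu hu1 (by norm_num)
  have hx240 : x ^ 240 = u⁻¹ := by
    rw [hx, ← Real.rpow_natCast, ← Real.rpow_mul hu.le, ← Real.rpow_neg_one]
    congr 1
    norm_num
  have hx24 : x ^ 24000 = (u ^ 100)⁻¹ := by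
    have : x ^ 24000 = (x ^ 240) ^ 100 := by rw [← pow_mul]
    rw [this, hx240, inv_pow]
  set r : ℕ := max r₀ ⌈x⌉₊ with hr
  have hxr : x ≤ r := by
    calc x ≤ (⌈x⌉₊ : ℝ) := Nat.le_ceil x
      _ ≤ r := by exact_mod_cast le_max_right _ _
  have hrx : (r : ℝ) ≤ ((r₀ : ℝ) + 2) * x := by
    have h1 : (r : ℝ) ≤ r₀ + ⌈x⌉₊ := by
      have : r ≤ r₀ + ⌈x⌉₊ := max_le (Nat.le_add_right _ _) (Nat.le_add_left _ _)
      exact_mod_cast this
    have h2 : (⌈x⌉₊ : ℝ) < x + 1 := Nat.ceil_lt_add_one (by linarith)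
    have h3 : (0 : ℝ) ≤ r₀ := Nat.cast_nonneg _
    nlinarith
  have hr1 : (1 : ℝ) ≤ r := hx1.trans hxr
  have h1 : ((r : ℝ) ^ 240)⁻¹ ≤ u := by
    have h2 : u⁻¹ ≤ (r : ℝ) ^ 240 := by
      rw [← hx240]
      exact pow_le_pow_left₀ (by linarith) hxr 240
    have h3 : 0 < u⁻¹ := inv_pos.2 hu
    calc ((r : ℝ) ^ 240)⁻¹ ≤ (u⁻¹)⁻¹ := inv_anti₀ h3 h2
      _ = u := inv_inv u
  have h4 : g ((r : ℝ) ^ 240)⁻¹ ≤ g u := hg _ _ (by positivity) h1
  have h5 : ((r : ℝ) ^ 24000)⁻¹ ≤ g ((r : ℝ) ^ 240)⁻¹ := hr₀ r (le_max_left _ _)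
  have h6 : (r : ℝ) ^ 24000 ≤ (((r₀ : ℝ) + 2) * x) ^ 24000 :=
    pow_le_pow_left₀ (by linarith) hrx 24000
  rw [mul_pow, hx24] at h6
  have h7 : 0 < (r : ℝ) ^ 24000 := by positivity
  have h8 := inv_anti₀ h7 h6
  rw [mul_inv, inv_inv] at h8
  exact h8.trans (h5.trans h4)

/-- **Power-law convexity, uniformly for bounded tilts.** -/
theorem power_convexF (hμ : EM μ) (hnd : Nondeg μ) (H : ℝ) :
    ∃ c : ℝ, 0 < c ∧ ∀ h, |h| ≤ H → ∀ u : ℝ, 0 < u → u ≤ 1 →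
      c * u ^ 100 ≤ Lam μ (h + u) + Lam μ (h - u) - 2 * Lam μ h := by
  rcases lt_or_ge H 0 with hH | hH
  · exact ⟨1, one_pos, fun h hh => absurd (abs_nonneg h) (by linarith)⟩
  obtain ⟨p, q, hpq, hp, hq⟩ := exists_gap hnd
  have hk := close_kmin_pos hpq hp hq
  obtain ⟨r₀, hr₀⟩ := eventually_atTop.1 ((defect_smallF hμ hpq hk hH).and
    (eventually_ge_atTop 1))
  obtain ⟨c, hc, hcg⟩ := scale_allF r₀
  refine ⟨2 * c, by positivity, fun h hh u hu hu1 => ?_⟩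
  have key := hcg (fun u => (Lam μ (h + u) + Lam μ (h - u) - 2 * Lam μ h) / 2)
    (fun u u' hu huu => by
      have := second_mono (Lam_convex hμ) h hu huu
      linarith)
    (fun r hr => by
      obtain ⟨h1, h2⟩ := hr₀ r hr
      have hr1' : (1 : ℝ) ≤ r := by exact_mod_cast h2
      have h0 : (0 : ℝ) < ((r : ℝ) ^ 240)⁻¹ := by positivity
      have h3 : ((r : ℝ) ^ 240)⁻¹ ≤ 1 := inv_le_one_of_one_le₀ (one_le_pow₀ hr1')
      exact h1 h hh _ _ (NA_of hμ h h0 h3)) u hu hu1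
  linarith

end

end Pool.Agent.W_7d29a1_h47
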