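import Pool.Agent.W_7d29a1_h47.Main
import Pool.Agent.W_7d29a1_h47.FinF
import Pool.Agent.W_7d29a1_h47q.ModelQ
import Pool.Agent.W_7d29a1_h47q.ParF
import Pool.Agent.W_7d29a1_h47q.LdC
import Pool.Agent.W_7d29a1_h47q.LdD

/-!
# Power-law strict convexity and the large deviation rate function, for the objects of the problem
-/

namespace Pool.Agent.W_7d29a1_h47

open MeasureTheory ProbabilityTheory Finset Filter Topology

noncomputable section

lemma endP_eq (β : ℝ) (ω : ℕ × ℤ → ℝ) (n : ℕ) (y : ℤ) :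
    endP β ω n y = Zp (toEnv β ω) 0 0 n y / Z (toEnv β ω) 0 0 0 n := by
  classical
  unfold endP polE
  rw [den_eq]
  congr 1
  unfold Zp
  rw [sum_T_eq]
  refine Finset.sum_congr rfl fun s _ => ?_
  simp only [energy_eq, walk_eq s le_rfl]
  by_cases h : pos (ext s) n = y
  · simp [h]
  · simp [h]

lemma log_endP (β : ℝ) (ω : ℕ × ℤ → ℝ) {n : ℕ} {y : ℤ} (hy : Reach 0 n y) :
    Real.log (endP β ω n y) =
      Real.log (Zp (toEnv β ω) 0 0 n y) - Real.log (Z (toEnv β ω) 0 0 0 n) := by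
  rw [endP_eq, Real.log_div (Zp_pos _ hy _).ne' (Z_pos _ _ _ _ _).ne']

variable {μ : Measure ℝ} [IsProbabilityMeasure μ]

/-- The normalised free energy. -/
def LamN (μ : Measure ℝ) (h : ℝ) : ℝ := Lam μ h - Lam μ 0

lemma PC_LamN (hμ : EM μ) (hnd : Nondeg μ) : PC (LamN μ) (m0 μ - Lam μ 0) where
  conv := by
    refine ⟨convex_univ, fun x _ y _ a b ha hb hab => ?_⟩
    have h1 := (Lam_convex hμ).2 (Set.mem_univ x) (Set.mem_univ y) ha hb hab
    simp only [smul_eq_mul, LamN] at h1 ⊢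
    have h2 : a * (Lam μ x - Lam μ 0) + b * (Lam μ y - Lam μ 0) =
        a * Lam μ x + b * Lam μ y - (a + b) * Lam μ 0 := by ring
    rw [h2, hab]
    linarith
  grow := fun h => by
    have := lt_Lam hμ h
    simp only [LamN]
    linarith
  pow := fun H => by
    obtain ⟨c, hc, h⟩ := power_convexF hμ hnd H
    refine ⟨c, hc, fun x hx u hu hu1 => ?_⟩
    have := h x hx u hu hu1
    simp only [LamN]
    linarith

/-- The main theorem on the limit of the moment generating function of the end point and on its large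
deviations. -/
theorem main_ld {Ω : Type*} [MeasurableSpace Ω] (P : Measure Ω) [IsProbabilityMeasure P]
    (ω : ℕ × ℤ → Ω → ℝ) (hmeas : ∀ p, Measurable (ω p)) (hindep : iIndepFun ω P)
    (hident : ∀ p q, IdentDistrib (ω p) (ω q) P P) (hnc : ¬ ∃ c : ℝ, ∀ᵐ x ∂P, ω (0, 0) x = c)
    (hexp : ∀ b : ℝ, Integrable (fun x => Real.exp (b * ω (0, 0) x)) P) {β : ℝ} (hβ : 0 < β) :
    ∃ lam J : ℝ → ℝ, StrictConvexOn ℝ Set.univ lam ∧ (∀ h, lam (-h) = lam h) ∧
      (∀ h, h ≠ 0 → 0 < lam h) ∧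
      (∀ H : ℝ, ∃ c : ℝ, 0 < c ∧ ∀ h, |h| ≤ H → ∀ u : ℝ, 0 < u → u ≤ 1 →
        c * u ^ 100 ≤ lam (h + u) + lam (h - u) - 2 * lam h) ∧
      (∀ h, ∀ᵐ x ∂P, Tendsto (fun n : ℕ => Real.log (endMGF β h (fun p => ω p x) n) / n) atTop
        (𝓝 (lam h))) ∧
      (∀ h, 0 < h → ∀ c, c < lam h / h → ∀ᵐ x ∂P, Tendsto
        (fun n : ℕ => forceP β h (fun p => ω p x) n {s | c * n ≤ (walk s n : ℝ)}) atTop (𝓝 1)) ∧
      (∀ v, |v| < 1 → IsLUB (Set.range fun h => h * v - lam h) (J v)) ∧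
      (∀ v, |v| < 1 → ∀ y : ℕ → ℤ, (∀ n, (y n - n) % 2 = 0) →
        Tendsto (fun n : ℕ => (y n : ℝ) / n) atTop (𝓝 v) →
        ∀ᵐ x ∂P, Tendsto (fun n : ℕ => -Real.log (endP β (fun p => ω p x) n (y n)) / n) atTop
          (𝓝 (J v))) ∧
      (∀ v, |v| < 1 → DifferentiableAt ℝ J v) ∧
      ∀ a : ℝ, a < 1 → ∃ C : ℝ, ∀ v w : ℝ, |v| ≤ a → |w| ≤ a →
        |deriv J v - deriv J w| ≤ C * |v - w| ^ (1 / 99 : ℝ) := by
  obtain ⟨lam, h1, h2, h3, h4, h5⟩ := main_of_strict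
    (fun _ _ hμ hnd => Lam_strictConvex hμ hnd) P ω hmeas hindep hident hnc hexp hβ
  set μ : Measure ℝ := P.map fun x => β * ω (0, 0) x with hμdef
  have hm0 : Measurable fun x => β * ω (0, 0) x := (hmeas _).const_mul β
  have hprob : IsProbabilityMeasure μ := Measure.isProbabilityMeasure_map hm0.aemeasurable
  have hμ : EM μ := EM_of (hmeas _) hexp β
  have hnd : Nondeg μ := Nondeg_of (hmeas _) hnc hβ
  have hmp := map_toEnv hmeas hindep hident β
  rw [← hμdef] at hmp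
  have hid : lam = LamN μ := by
    funext h
    have g1 := hmp.quasiMeasurePreserving.ae (tendsto_logZ hμ h)
    have g2 := hmp.quasiMeasurePreserving.ae (tendsto_logZ hμ 0)
    obtain ⟨x, hx1, hx2, hx3⟩ := (g1.and (g2.and (h4 h))).exists
    refine tendsto_nhds_unique hx3 ((hx1.sub hx2).congr fun n => ?_)
    rw [log_endMGF, sub_div]
  have hPC := PC_LamN hμ hnd
  have hleg := leg_main hPC
  subst hid
  refine ⟨LamN μ, leg (LamN μ), h1, h2, h3, hPC.pow, h4, h5, fun v hv => leg_isLUB hPC hv, ?_,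
    hleg.1, hleg.2⟩
  intro v hv y hpar hy
  have hs : SubG μ (lam_arg (LamN μ) v) v := by
    intro h'
    have := lam_arg_max hPC hv h'
    simp only [LamN] at this ⊢
    linarith
  have g1 := hmp.quasiMeasurePreserving.ae (tendsto_logZp hμ hv hs hpar hy)
  have g2 := hmp.quasiMeasurePreserving.ae (tendsto_logZ hμ 0)
  filter_upwards [g1, g2] with x hx1 hx2
  have h6 := hx2.sub hx1
  have h7 : Lam μ 0 - (Lam μ (lam_arg (LamN μ) v) - lam_arg (LamN μ) v * v) =
      leg (LamN μ) v := by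
    rw [leg_eq hPC hv]
    simp only [LamN]
    ring
  rw [h7] at h6
  refine h6.congr' ?_
  filter_upwards [ev_reach hv hpar hy] with n hn
  rw [log_endP β _ hn]
  ring

end

end Pool.Agent.W_7d29a1_h47
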