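import Pool.Agent.W_7d29a1_h47.Defs

/-!
# The choice of the tube radius and of the tilt
-/

namespace Pool.Agent.W_7d29a1_h47

open MeasureTheory ProbabilityTheory Finset Filter

noncomputable section

/-- A radius of the right parity. Proof. `r = ⌈(2t)^a⌉₊` or that number plus `1`. -/
lemma exists_radius (x : ℝ) (hx : 0 ≤ x) (t : ℕ) :
    ∃ r : ℕ, r % 2 = t % 2 ∧ x ≤ r ∧ (r : ℝ) ≤ x + 2 := by
  have h1 : x ≤ (⌈x⌉₊ : ℝ) := Nat.le_ceil x
  have h2 : (⌈x⌉₊ : ℝ) < x + 1 := Nat.ceil_lt_add_one hx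
  by_cases h : ⌈x⌉₊ % 2 = t % 2
  · exact ⟨⌈x⌉₊, h, h1, by linarith⟩
  · refine ⟨⌈x⌉₊ + 1, by omega, ?_, ?_⟩
    · push_cast; linarith
    · push_cast; linarith

/-- Powers beat logarithms. Proof. `isLittleO_log_rpow_atTop` composed with `Nat.cast`; for `e < e'`
`C t^e (1 + log t) ≤ t^{e'}` eventually. -/
lemma ev_rpow (C : ℝ) {e e' : ℝ} (he : e < e') :
    ∀ᶠ t : ℕ in atTop, C * ((t : ℝ) ^ e * (1 + Real.log t)) ≤ (t : ℝ) ^ e' := by
  have hδ : 0 < e' - e := sub_pos.2 he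
  have h1 : (fun x : ℝ => Real.log x) =o[atTop] fun x : ℝ => x ^ (e' - e) :=
    isLittleO_log_rpow_atTop hδ
  have h2 : (fun _ : ℝ => (1 : ℝ)) =o[atTop] fun x : ℝ => x ^ (e' - e) :=
    Asymptotics.isLittleO_const_left.2 (Or.inr (by
      have := tendsto_rpow_atTop hδ
      exact tendsto_norm_atTop_atTop.comp this))
  have h3 : (fun x : ℝ => C * (1 + Real.log x)) =o[atTop] fun x : ℝ => x ^ (e' - e) :=
    (h2.add h1).const_mul_left C
  have h4 := (h3.bound one_pos).and (eventually_gt_atTop (0 : ℝ))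
  have h5 := tendsto_natCast_atTop_atTop (R := ℝ) |>.eventually h4
  filter_upwards [h5] with t ht
  obtain ⟨h6, h7⟩ := ht
  rw [one_mul, Real.norm_eq_abs, Real.norm_eq_abs, abs_of_pos (Real.rpow_pos_of_pos h7 _)] at h6
  have h8 : C * (1 + Real.log t) ≤ (t : ℝ) ^ (e' - e) := (le_abs_self _).trans h6
  have h9 : (t : ℝ) ^ e' = (t : ℝ) ^ e * (t : ℝ) ^ (e' - e) := by
    rw [← Real.rpow_add h7]; congr 1; ring
  rw [h9]
  calc C * ((t : ℝ) ^ e * (1 + Real.log t)) = (t : ℝ) ^ e * (C * (1 + Real.log t)) := by ring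
    _ ≤ (t : ℝ) ^ e * (t : ℝ) ^ (e' - e) :=
      mul_le_mul_of_nonneg_left h8 (Real.rpow_nonneg h7.le _)

/-- a power of a large number is large -/
lemma NuF_large (b M : ℝ) (hb : 0 < b) : ∀ᶠ t : ℕ in atTop, M ≤ (t : ℝ) ^ b :=
  (tendsto_natCast_atTop_atTop (R := ℝ)).eventually
    ((tendsto_rpow_atTop hb).eventually (eventually_ge_atTop M))

/-- **Parameters for the wandering exponent.** Proof. For large `t` let `r` be from `exists_radius` with
`x = (2t)^a`; then `1 ≤ r`, `t^a ≤ r ≤ 4 t^a`, `3r + 2 ≤ t` (`a < 1`). Put `K = κ √t / (4 √(2r+1))`,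
`h = K / (128 (2r+2))`. Then `K √(t (2r+1)) = κ t / 4`; `K ≥ κ t^{(1-a)/2} / 12 → ∞`; `K ≤ κ √t`;
`h ≤ κ √t / r^{3/2} ≤ κ t^{(1-3a)/2} → 0` because `a > 1/3`; `h ≥ κ t^{(1-3a)/2} / 15360`, so
`c t h^{100} ≥ c (κ/15360)^{100} t^{51 - 150 a}` with `51 - 150 a > 1/2`. On the other side
`h (3r+2) ≤ K / 64 ≤ κ √t`, `eps μ t = √t (log (2t+1) + Cc) ≤ C √t (1 + log t)`, and the other terms are
`≤ C √t`; `ev_rpow` with `e = 1/2`. -/
theorem nu_params (μ : Measure ℝ) {a c κ : ℝ} (ha : 1 / 3 < a) (ha' : a < 101 / 300) (hc : 0 < c)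
    (hκ : 0 < κ) (hCc : 0 ≤ Cc μ) (s : ℝ) :
    ∀ᶠ t : ℕ in atTop, ∃ (r : ℕ) (h K : ℝ), 1 ≤ t ∧ 1 ≤ r ∧ r % 2 = t % 2 ∧
      ((t + t : ℕ) : ℝ) ^ a ≤ r ∧ 3 * r + 2 ≤ t ∧ 0 < h ∧ h ≤ 1 ∧ 9 ≤ K ∧
      K * Real.sqrt (t * (2 * r + 1)) ≤ κ * t / 4 ∧ 128 * h * (2 * r + 2) ≤ K ∧
      h * (3 * r + 2) + Real.log 2 + eps μ t + 2 * s * Real.sqrt t ≤ t * (c * h ^ 100) := by
  set c' : ℝ := c * (κ / 15360) ^ 100 with hc'
  have hc'0 : 0 < c' := by positivity
  set C : ℝ := κ + 1 + (Real.log 3 + Cc μ + 1) + 2 * |s| with hC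
  have hlog3 : 0 ≤ Real.log 3 := Real.log_nonneg (by norm_num)
  have hC0 : 0 ≤ C := by positivity
  have he : (1 : ℝ) / 2 < 51 - 150 * a := by linarith
  filter_upwards [eventually_ge_atTop 1, NuF_large (1 - a) 14 (by linarith),
    NuF_large ((1 - a) / 2) (108 / κ) (by linarith), NuF_large ((3 * a - 1) / 2) κ (by linarith),
    ev_rpow (C / c') he] with t h1 h2 h3 h4 h5
  have ht1 : (1 : ℝ) ≤ t := by exact_mod_cast h1
  have ht0 : (0 : ℝ) < t := by linarith
  set P : ℝ := (t : ℝ) ^ a with hP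
  have hP0 : 0 < P := Real.rpow_pos_of_pos ht0 _
  have hP1 : 1 ≤ P := Real.one_le_rpow ht1 (by linarith)
  have hx : ((t + t : ℕ) : ℝ) ^ a = 2 ^ a * P := by
    push_cast
    rw [← two_mul, Real.mul_rpow (by norm_num) ht0.le]
  have h2a : (2 : ℝ) ^ a ≤ 2 := by
    calc (2 : ℝ) ^ a ≤ 2 ^ (1 : ℝ) := Real.rpow_le_rpow_of_exponent_le (by norm_num) (by linarith)
      _ = 2 := Real.rpow_one 2
  have h2a1 : (1 : ℝ) ≤ 2 ^ a := Real.one_le_rpow (by norm_num) (by linarith)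
  obtain ⟨r, hr1, hr2, hr3⟩ := exists_radius (((t + t : ℕ) : ℝ) ^ a) (by positivity) t
  rw [hx] at hr2 hr3
  have hrP : P ≤ r := (le_mul_of_one_le_left hP0.le h2a1).trans hr2
  have hr4 : (r : ℝ) ≤ 4 * P := by
    have := mul_le_mul_of_nonneg_right h2a hP0.le
    linarith
  have hr0 : (1 : ℝ) ≤ r := hP1.trans hrP
  have hPt : 14 * P ≤ t := by
    have e : (t : ℝ) = (t : ℝ) ^ (1 - a) * P := by
      rw [hP, ← Real.rpow_add ht0]
      simp
    calc 14 * P ≤ (t : ℝ) ^ (1 - a) * P := mul_le_mul_of_nonneg_right h2 hP0.le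
      _ = t := e.symm
  set S : ℝ := Real.sqrt (2 * r + 1) with hS
  have hS0 : 0 < S := Real.sqrt_pos.2 (by linarith)
  have hSsq : S ^ 2 = 2 * r + 1 := Real.sq_sqrt (by linarith)
  set Q : ℝ := (t : ℝ) ^ (a / 2) with hQ
  have hQ0 : 0 < Q := Real.rpow_pos_of_pos ht0 _
  have hQ2 : Q ^ 2 = P := by
    rw [hQ, hP, ← Real.rpow_natCast, ← Real.rpow_mul ht0.le]
    congr 1
    push_cast
    ring
  have hS3 : S ≤ 3 * Q := by
    rw [← abs_of_pos hS0, ← abs_of_pos (show 0 < 3 * Q by positivity)]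
    apply sq_le_sq.1
    rw [hSsq, mul_pow, hQ2]
    linarith
  have hSQ : Q ≤ S := by
    rw [← abs_of_pos hS0, ← abs_of_pos hQ0]
    apply sq_le_sq.1
    rw [hSsq, hQ2]
    linarith
  have hS1 : 1 ≤ S := Real.one_le_sqrt.2 (by linarith)
  set T : ℝ := Real.sqrt t with hT
  have hT0 : 0 < T := Real.sqrt_pos.2 ht0
  have hTsq : T * T = t := Real.mul_self_sqrt ht0.le
  have hT' : T = (t : ℝ) ^ ((1 : ℝ) / 2) := Real.sqrt_eq_rpow _
  have hT1 : 1 ≤ T := Real.one_le_sqrt.2 ht1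
  clear_value P Q S T C c'
  set K : ℝ := κ * T / (4 * S) with hK
  have hK0 : 0 < K := by positivity
  have hKT : K ≤ κ * T := by
    rw [hK]
    apply div_le_self (by positivity)
    linarith
  have hr2pos : (0 : ℝ) < 128 * (2 * r + 2) := by positivity
  set h : ℝ := K / (128 * (2 * r + 2)) with hh
  have hh0 : 0 < h := by positivity
  have hhK : 128 * h * (2 * r + 2) = K := by
    rw [hh]
    field_simp
  clear_value K h
  -- lower bound for `K`
  have hK9 : 9 ≤ K := by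
    have e1 : T = (t : ℝ) ^ ((1 - a) / 2) * Q := by
      rw [hT', hQ, ← Real.rpow_add ht0]
      congr 1
      ring
    have e2 : κ * T / (12 * Q) ≤ K := by
      rw [hK]
      apply div_le_div_of_nonneg_left (by positivity) (by positivity)
      linarith
    have e3 : κ * T / (12 * Q) = κ * (t : ℝ) ^ ((1 - a) / 2) / 12 := by
      rw [e1]
      field_simp
    have e4 : 108 ≤ κ * (t : ℝ) ^ ((1 - a) / 2) := by
      have := mul_le_mul_of_nonneg_left h3 hκ.le
      rwa [mul_div_cancel₀ _ hκ.ne'] at this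
    rw [e3] at e2
    linarith
  -- upper bound for `h`
  have hpow3 : T = (t : ℝ) ^ (-((3 * a - 1) / 2)) * (P * Q) := by
    rw [hT', hP, hQ, ← Real.rpow_add ht0, ← Real.rpow_add ht0]
    congr 1
    ring
  have hh1 : h ≤ 1 := by
    rw [hh, div_le_one hr2pos]
    have e1 : K ≤ κ * T / S := by
      rw [hK]
      apply div_le_div_of_nonneg_left (by positivity) hS0
      linarith
    have e2 : κ * T / S ≤ κ * T / Q :=
      div_le_div_of_nonneg_left (by positivity) hQ0 hSQ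
    have e3 : κ * T / Q = κ * (t : ℝ) ^ (-((3 * a - 1) / 2)) * P := by
      rw [hpow3]
      field_simp
    have e4 : κ * (t : ℝ) ^ (-((3 * a - 1) / 2)) ≤ 1 := by
      rw [Real.rpow_neg ht0.le, ← div_eq_mul_inv, div_le_one (Real.rpow_pos_of_pos ht0 _)]
      exact h4
    have e5 : κ * (t : ℝ) ^ (-((3 * a - 1) / 2)) * P ≤ 1 * P :=
      mul_le_mul_of_nonneg_right e4 hP0.le
    rw [e3] at e2
    linarith
  -- lower bound for `h`
  have hlow : κ / 15360 * (t : ℝ) ^ ((1 - 3 * a) / 2) ≤ h := by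
    have e1 : (t : ℝ) ^ ((1 - 3 * a) / 2) * (P * Q) = T := by
      rw [hT', hP, hQ, ← Real.rpow_add ht0, ← Real.rpow_add ht0]
      congr 1
      ring
    have e2 : h = κ * T / (512 * S * (2 * r + 2)) := by
      rw [hh, hK]
      field_simp
      ring
    have e3 : 512 * S * (2 * r + 2) ≤ 15360 * (P * Q) := by
      have e4 : (2 * (r : ℝ) + 2) ≤ 10 * P := by linarith
      have e5 : S * (2 * r + 2) ≤ 3 * Q * (10 * P) :=
        mul_le_mul hS3 e4 (by positivity) (by positivity)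
      calc 512 * S * (2 * r + 2) = 512 * (S * (2 * r + 2)) := by ring
        _ ≤ 512 * (3 * Q * (10 * P)) := mul_le_mul_of_nonneg_left e5 (by norm_num)
        _ = 15360 * (P * Q) := by ring
    have e6 : κ * T / (15360 * (P * Q)) ≤ h := by
      rw [e2]
      exact div_le_div_of_nonneg_left (by positivity) (by positivity) e3
    have e7 : κ * T / (15360 * (P * Q)) = κ / 15360 * (t : ℝ) ^ ((1 - 3 * a) / 2) := by
      rw [← e1]
      field_simp
    rw [← e7]
    exact e6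
  have hmain : C * ((t : ℝ) ^ ((1 : ℝ) / 2) * (1 + Real.log t)) ≤ t * (c * h ^ 100) := by
    have e1 : C / c' * ((t : ℝ) ^ ((1 : ℝ) / 2) * (1 + Real.log t)) ≤ (t : ℝ) ^ (51 - 150 * a) := h5
    have e2 : C * ((t : ℝ) ^ ((1 : ℝ) / 2) * (1 + Real.log t)) ≤ c' * (t : ℝ) ^ (51 - 150 * a) := by
      have := mul_le_mul_of_nonneg_left e1 hc'0.le
      calc C * ((t : ℝ) ^ ((1 : ℝ) / 2) * (1 + Real.log t))
          = c' * (C / c' * ((t : ℝ) ^ ((1 : ℝ) / 2) * (1 + Real.log t))) := by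
            have e0 : c' * (C / c') = C := by field_simp
            rw [← mul_assoc c', e0]
        _ ≤ _ := this
    refine e2.trans ?_
    have e3 : (κ / 15360 * (t : ℝ) ^ ((1 - 3 * a) / 2)) ^ 100 ≤ h ^ 100 :=
      pow_le_pow_left₀ (by positivity) hlow 100
    have e4 : (κ / 15360 * (t : ℝ) ^ ((1 - 3 * a) / 2)) ^ 100 =
        (κ / 15360) ^ 100 * (t : ℝ) ^ (50 - 150 * a) := by
      rw [mul_pow, ← Real.rpow_natCast ((t : ℝ) ^ ((1 - 3 * a) / 2)), ← Real.rpow_mul ht0.le]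
      congr 2
      push_cast
      ring
    have e5 : (t : ℝ) ^ (51 - 150 * a) = t * (t : ℝ) ^ (50 - 150 * a) := by
      nth_rewrite 2 [← Real.rpow_one (t : ℝ)]
      rw [← Real.rpow_add ht0]
      congr 1
      ring
    rw [e4] at e3
    calc c' * (t : ℝ) ^ (51 - 150 * a)
        = t * (c * ((κ / 15360) ^ 100 * (t : ℝ) ^ (50 - 150 * a))) := by rw [e5, hc']; ring
      _ ≤ t * (c * h ^ 100) :=
        mul_le_mul_of_nonneg_left (mul_le_mul_of_nonneg_left e3 hc.le) ht0.le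
  have hlogt : 0 ≤ Real.log t := Real.log_nonneg ht1
  refine ⟨r, h, K, h1, by exact_mod_cast hr0, hr1, by rw [hx]; exact hr2, ?_, hh0, hh1, hK9, ?_,
    hhK.le, ?_⟩
  · have : (3 * (r : ℝ) + 2) ≤ t := by linarith
    exact_mod_cast this
  · rw [Real.sqrt_mul ht0.le, hK, ← hS, ← hT]
    apply le_of_eq
    rw [← hTsq]
    field_simp
  · refine le_trans ?_ hmain
    rw [← hT']
    have e1 : h * (3 * r + 2) ≤ κ * T := by
      have : h * (3 * r + 2) ≤ h * (128 * (2 * r + 2)) :=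
        mul_le_mul_of_nonneg_left (by linarith) hh0.le
      linarith
    have e2 : Real.log 2 ≤ T := by
      have := Real.log_two_lt_d9
      linarith
    have e3 : eps μ t ≤ T * (Real.log 3 + Real.log t + Cc μ) := by
      unfold eps
      rw [← hT]
      apply mul_le_mul_of_nonneg_left _ hT0.le
      have : Real.log (2 * t + 1) ≤ Real.log 3 + Real.log t := by
        rw [← Real.log_mul (by norm_num) ht0.ne']
        exact Real.log_le_log (by positivity) (by linarith)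
      linarith
    have e4 : 2 * s * T ≤ 2 * |s| * T :=
      mul_le_mul_of_nonneg_right (by linarith [le_abs_self s]) hT0.le
    have e5 : 0 ≤ T * Real.log t := by positivity
    have e6 : 0 ≤ κ * (T * Real.log t) := by positivity
    have e7 : 0 ≤ (Real.log 3) * (T * Real.log t) := by positivity
    have e8 : 0 ≤ Cc μ * (T * Real.log t) := by positivity
    have e9 : 0 ≤ |s| * (T * Real.log t) := by positivity
    have e10 : C * (T * (1 + Real.log t)) = κ * T + κ * (T * Real.log t) + 2 * T +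
        2 * (T * Real.log t) + Real.log 3 * T + Real.log 3 * (T * Real.log t) + Cc μ * T +
        Cc μ * (T * Real.log t) + 2 * |s| * T + 2 * (|s| * (T * Real.log t)) := by
      rw [hC]; ring
    have e11 : T * (Real.log 3 + Real.log t + Cc μ) = Real.log 3 * T + T * Real.log t +
        Cc μ * T := by ring
    rw [e10]
    rw [e11] at e3
    linarith

end

end Pool.Agent.W_7d29a1_h47
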