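import Pool.Agent.W_7d29a1_h47.Main
import Pool.Agent.W_MP_7d29a1_pr.Liminf

/-!
# Confinement of the polymer of the problem file, `d = 1`
-/

namespace Pool.Agent.W_7d29a1_h47

open MeasureTheory ProbabilityTheory Finset Filter

noncomputable section

/-- The environment on `ℕ × ℤ`. -/
def flat (η : ℕ × W_MP_7d29a1_pr.Site 1 → ℝ) : ℕ × ℤ → ℝ := fun p => η (p.1, fun _ => p.2)

/-- Steps of the one-dimensional walk. -/
def stepB {n : ℕ} (s : Fin n → W_MP_7d29a1_pr.Step 1) : Fin n → Bool := fun i => (s i).2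

lemma NuG_vec (e : W_MP_7d29a1_pr.Step 1) (k : Fin 1) :
    W_MP_7d29a1_pr.vec e k = if e.2 then 1 else -1 := by
  obtain rfl : k = e.1 := Subsingleton.elim _ _
  unfold W_MP_7d29a1_pr.vec
  exact Pi.single_eq_same _ _

/-- Proof. `vec (s j)` is `Pi.single 0 (± 1)`; a function on `Fin 1` is determined by its value at `0`. -/
lemma pos_flat {n : ℕ} (s : Fin n → W_MP_7d29a1_pr.Step 1) (i : ℕ) :
    W_MP_7d29a1_pr.pos s i = fun _ => walk (stepB s) i := by
  funext k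
  unfold W_MP_7d29a1_pr.pos walk stepB
  rw [Finset.sum_apply]
  refine Finset.sum_congr rfl fun j _ => ?_
  by_cases h : (j : ℕ) < i
  · rw [if_pos h, if_pos h, NuG_vec]
  · rw [if_neg h, if_neg h]
    rfl

/-- Proof. `pos_flat`, definitions of both energies. -/
lemma energy_flat {n : ℕ} (η : ℕ × W_MP_7d29a1_pr.Site 1 → ℝ)
    (s : Fin n → W_MP_7d29a1_pr.Step 1) : W_MP_7d29a1_pr.energy η s = energy (flat η) (stepB s) := by
  unfold W_MP_7d29a1_pr.energy energy flat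
  refine Finset.sum_congr rfl fun i _ => ?_
  rw [pos_flat]

/-- Proof. `stepB` is a bijection (`Fin 1` has one element). -/
lemma sum_stepB {n : ℕ} (F : (Fin n → Bool) → ℝ) :
    ∑ s : Fin n → W_MP_7d29a1_pr.Step 1, F (stepB s) = ∑ s : Fin n → Bool, F s := by
  have hb : Function.Bijective (stepB : (Fin n → W_MP_7d29a1_pr.Step 1) → Fin n → Bool) := by
    constructor
    · intro s r h
      funext i
      exact Prod.ext (Subsingleton.elim _ _) (congrFun h i)
    · intro s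
      exact ⟨fun i => (0, s i), rfl⟩
  exact Fintype.sum_bijective _ hb _ _ fun _ => rfl

/-- **Confinement.** Proof. `nrm (fun _ => z) = |z|` on `Site 1`, so for `s ∈ inBall 1 n R` and `l ≤ n`:
`|walk (stepB s) l| ≤ R ≤ r`; `walk_eq`, `energy_eq`, `sum_T_eq`: the numerator of `Pol` is at most the one of
`Av (toEnv β (flat η)) 0 0 0 n (ind …)`, the denominators agree (`den_eq`). -/
lemma Pol_le_Av {n r : ℕ} (β : ℝ) (η : ℕ × W_MP_7d29a1_pr.Site 1 → ℝ) {R : ℝ} (hR : R ≤ r) :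
    W_MP_7d29a1_pr.Pol β η n (W_MP_7d29a1_pr.inBall 1 n R) ≤
      Av (toEnv β (flat η)) 0 0 0 n (fun s => ind (∀ l ≤ n, |pos s l| ≤ r)) := by
  classical
  have hw : ∀ s : Fin n → W_MP_7d29a1_pr.Step 1,
      Real.exp (β * W_MP_7d29a1_pr.energy η s) =
        wt (toEnv β (flat η)) 0 0 0 n (ext (stepB s)) := by
    intro s
    rw [← weight_eq, energy_flat]
    simp
  have hden : ∑ s : Fin n → W_MP_7d29a1_pr.Step 1, Real.exp (β * W_MP_7d29a1_pr.energy η s) =
      Z (toEnv β (flat η)) 0 0 0 n := by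
    rw [← den_eq, ← sum_stepB]
    refine Finset.sum_congr rfl fun s _ => ?_
    rw [energy_flat]
  have hnum : ∑ s : Fin n → W_MP_7d29a1_pr.Step 1,
      (if s ∈ W_MP_7d29a1_pr.inBall 1 n R then Real.exp (β * W_MP_7d29a1_pr.energy η s) else 0) ≤
      ∑ s ∈ T n, wt (toEnv β (flat η)) 0 0 0 n s * ind (∀ l ≤ n, |pos s l| ≤ r) := by
    rw [sum_T_eq, ← sum_stepB]
    refine Finset.sum_le_sum fun s _ => ?_
    by_cases hs : s ∈ W_MP_7d29a1_pr.inBall 1 n R
    · rw [if_pos hs, hw, ind_true, mul_one]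
      intro l hl
      have h1 := (W_MP_7d29a1_pr.abs_le_nrm (W_MP_7d29a1_pr.pos s l) 0).trans ((hs l hl).trans hR)
      rw [pos_flat, walk_eq _ hl] at h1
      exact_mod_cast h1
    · rw [if_neg hs]
      exact mul_nonneg (wt_pos _ _ _ _ _ _).le (ind_nonneg _)
  unfold W_MP_7d29a1_pr.Pol Av
  rw [hden]
  exact div_le_div_of_nonneg_right hnum (Z_pos _ _ _ _ _).le

/-- Monotonicity in the radius. Proof. Definition of `Pol`, `inBall`. -/
lemma Pol_mono {n : ℕ} (β : ℝ) (η : ℕ × W_MP_7d29a1_pr.Site 1 → ℝ) {R R' : ℝ} (hR : R ≤ R') :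
    W_MP_7d29a1_pr.Pol β η n (W_MP_7d29a1_pr.inBall 1 n R) ≤
      W_MP_7d29a1_pr.Pol β η n (W_MP_7d29a1_pr.inBall 1 n R') := by
  rw [W_MP_7d29a1_pr.Pol_eq, W_MP_7d29a1_pr.Pol_eq]
  refine div_le_div_of_nonneg_right (W_MP_7d29a1_pr.ZE_mono β η n fun s hs i hi => ?_)
    (W_MP_7d29a1_pr.ZE_nonneg _ _ _ _)
  exact (hs i hi).trans hR

variable {Ω : Type*} [MeasurableSpace Ω] {P : Measure Ω} [IsProbabilityMeasure P]
  {ω : ℕ × W_MP_7d29a1_pr.Site 1 → Ω → ℝ}

/-- **Transfer.** Proof. The family `fun p => ω (p.1, fun _ => p.2)` is i.i.d. (`iIndepFun.precomp` with an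
injective map); `map_toEnv` says that `x ↦ toEnv β (flat (ω · x))` has the law
`law (P.map fun x => β * ω (0, 0) x)`. The measurable set `{g | ¬ (1/2 ≤ Av g 0 0 0 n …)}` has the same
measure as its preimage (`MeasurePreserving.measure_preimage`), which by `Pol_le_Av` is contained in
`{x | ¬ (1/2 ≤ Pol …)}`. -/
theorem conf_transfer (hmeas : ∀ p, Measurable (ω p)) (hindep : iIndepFun ω P)
    (hident : ∀ p q, IdentDistrib (ω p) (ω q) P P) (β : ℝ) {n r : ℕ} {R δ : ℝ} (hR : R ≤ r)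
    (h : P.real {x | ¬ (1 / 2 ≤ W_MP_7d29a1_pr.Pol β (fun p => ω p x) n
      (W_MP_7d29a1_pr.inBall 1 n R))} ≤ δ) :
    (law (P.map fun x => β * ω (0, fun _ => 0) x)).real {g | ¬ (1 / 2 ≤ Av g 0 0 0 n
      (fun s => ind (∀ l ≤ n, |pos s l| ≤ r)))} ≤ δ := by
  have hinj : Function.Injective fun p : ℕ × ℤ =>
      ((p.1, fun _ => p.2) : ℕ × W_MP_7d29a1_pr.Site 1) := by
    rintro ⟨i, y⟩ ⟨j, z⟩ h
    simp only [Prod.mk.injEq] at h
    exact Prod.ext h.1 (congrFun h.2 0)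
  have hmp := map_toEnv (P := P) (ω := fun (p : ℕ × ℤ) => ω (p.1, fun _ => p.2))
    (fun p => hmeas _) (hindep.precomp (g := fun p : ℕ × ℤ =>
      ((p.1, fun _ => p.2) : ℕ × W_MP_7d29a1_pr.Site 1)) hinj) (fun p q => hident _ _) β
  have hset : MeasurableSet {g : Env | ¬ (1 / 2 ≤ Av g 0 0 0 n
      (fun s => ind (∀ l ≤ n, |pos s l| ≤ r)))} := by
    have hav : Measurable fun g : Env => Av g 0 0 0 n
        (fun s => ind (∀ l ≤ n, |pos s l| ≤ r)) :=
      measurable_Av (F := fun _ s => ind (∀ l ≤ n, |pos s l| ≤ r)) fun s _ => measurable_const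
    have h0 : MeasurableSet {g : Env | (1 / 2 : ℝ) ≤ Av g 0 0 0 n
        (fun s => ind (∀ l ≤ n, |pos s l| ≤ r))} := measurableSet_le measurable_const hav
    exact h0.compl
  refine le_trans ?_ h
  have h1 := hmp.measure_preimage hset.nullMeasurableSet
  rw [measureReal_def, ← h1, ← measureReal_def]
  refine measureReal_mono ?_ (measure_ne_top _ _)
  intro x hx hx2
  apply hx
  exact hx2.trans (Pol_le_Av β (fun p => ω p x) hR)

end

end Pool.Agent.W_7d29a1_h47
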