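import Pool.Agent.W_7d29a1_h47q.ParD

/-!
# Power-law strict convexity
-/

namespace Pool.Agent.W_7d29a1_h47

open MeasureTheory ProbabilityTheory Finset Filter

noncomputable section

variable {μ : Measure ℝ} [IsProbabilityMeasure μ]

/-- Second differences are nondecreasing. Proof. For a convex function `f` and `0 ≤ u ≤ u'`:
`f (h + u) + f (h - u) ≤ f (h + u') + f (h - u')` (both `h ± u` are convex combinations of `h ± u'` with
exchanged coefficients). -/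
lemma second_mono {f : ℝ → ℝ} (hf : ConvexOn ℝ Set.univ f) (h : ℝ) {u u' : ℝ} (hu : 0 ≤ u)
    (huu : u ≤ u') : f (h + u) + f (h - u) ≤ f (h + u') + f (h - u') := by
  rcases eq_or_lt_of_le (hu.trans huu) with h0 | h0
  · have : u = 0 := le_antisymm (h0 ▸ huu) hu
    rw [this, ← h0]
  · have ht0 : 0 ≤ (u' + u) / (2 * u') := by positivity
    have ht1 : 0 ≤ (u' - u) / (2 * u') := by
      apply div_nonneg <;> linarith
    have hts : (u' + u) / (2 * u') + (u' - u) / (2 * u') = 1 := by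
      field_simp
      ring
    have hts' : (u' - u) / (2 * u') + (u' + u) / (2 * u') = 1 := by
      field_simp
      ring
    have h1 := hf.2 (Set.mem_univ (h + u')) (Set.mem_univ (h - u')) ht0 ht1 hts
    have h2 := hf.2 (Set.mem_univ (h + u')) (Set.mem_univ (h - u')) ht1 ht0 hts'
    simp only [smul_eq_mul] at h1 h2
    have e1 : (u' + u) / (2 * u') * (h + u') + (u' - u) / (2 * u') * (h - u') = h + u := by
      field_simp
      ring
    have e2 : (u' - u) / (2 * u') * (h + u') + (u' + u) / (2 * u') * (h - u') = h - u := by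
      field_simp
      ring
    rw [e1] at h1
    rw [e2] at h2
    have e3 : ((u' + u) / (2 * u') + (u' - u) / (2 * u')) * (f (h + u') + f (h - u')) =
      f (h + u') + f (h - u') := by rw [hts, one_mul]
    linarith

/-- From the scales `r^{-240}` to all scales. Proof. Let `r₀ ≥ 1` be such that the hypothesis holds
for `r ≥ r₀`. Given `u ∈ (0, 1]` let `r = max r₀ ⌈u^{-1/240}⌉₊` (`Real.rpow`). Then `r^{240} ≥ u^{-1}`, so
`r^{-240} ≤ u` and by monotonicity `g u ≥ g (r^{-240}) ≥ r^{-24000}`; and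
`r ≤ r₀ + u^{-1/240} + 1 ≤ (r₀ + 2) u^{-1/240}`, so `r^{24000} ≤ (r₀ + 2)^{24000} u^{-100}`. Hence
`c = ((r₀ + 2)^{24000})⁻¹`. -/
lemma scale_all {g : ℝ → ℝ} (hg : ∀ u u' : ℝ, 0 ≤ u → u ≤ u' → g u ≤ g u')
    (h : ∀ᶠ r : ℕ in atTop, ((r : ℝ) ^ 24000)⁻¹ ≤ g ((r : ℝ) ^ 240)⁻¹) :
    ∃ c : ℝ, 0 < c ∧ ∀ u : ℝ, 0 < u → u ≤ 1 → c * u ^ 100 ≤ g u := by
  obtain ⟨r₀, hr₀⟩ := eventually_atTop.1 h
  refine ⟨(((r₀ : ℝ) + 2) ^ 24000)⁻¹, by positivity, fun u hu hu1 => ?_⟩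
  set x : ℝ := u ^ (-(1 / 240) : ℝ) with hx
  have hx1 : 1 ≤ x := Real.one_le_rpow_of_pos_of_le_one_of_nonpos hu hu1 (by norm_num)
  have hx240 : x ^ 240 = u⁻¹ := by
    rw [hx, ← Real.rpow_natCast, ← Real.rpow_mul hu.le, ← Real.rpow_neg_one]
    congr 1
    norm_num
  have hx24 : x ^ 24000 = (u ^ 100)⁻¹ := by
    have : x ^ 24000 = (x ^ 240) ^ 100 := by rw [← pow_mul]
    rw [this, hx240, inv_pow]
  set r : ℕ := max r₀ ⌈x⌉₊ with hr
  have hxr : x ≤ r := by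
    calc x ≤ (⌈x⌉₊ : ℝ) := Nat.le_ceil x
      _ ≤ r := by exact_mod_cast le_max_right _ _
  have hrx : (r : ℝ) ≤ ((r₀ : ℝ) + 2) * x := by
    have h1 : (r : ℝ) ≤ r₀ + ⌈x⌉₊ := by
      have : r ≤ r₀ + ⌈x⌉₊ := max_le (Nat.le_add_right _ _) (Nat.le_add_left _ _)
      exact_mod_cast this
    have h2 : (⌈x⌉₊ : ℝ) < x + 1 := Nat.ceil_lt_add_one (by linarith)
    have h3 : (0 : ℝ) ≤ r₀ := Nat.cast_nonneg _
    nlinarith
  have hr1 : (1 : ℝ) ≤ r := hx1.trans hxr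
  have h1 : ((r : ℝ) ^ 240)⁻¹ ≤ u := by
    have h2 : u⁻¹ ≤ (r : ℝ) ^ 240 := by
      rw [← hx240]
      exact pow_le_pow_left₀ (by linarith) hxr 240
    have h3 : 0 < u⁻¹ := inv_pos.2 hu
    calc ((r : ℝ) ^ 240)⁻¹ ≤ (u⁻¹)⁻¹ := inv_anti₀ h3 h2
      _ = u := inv_inv u
  have h4 : g ((r : ℝ) ^ 240)⁻¹ ≤ g u := hg _ _ (by positivity) h1
  have h5 : ((r : ℝ) ^ 24000)⁻¹ ≤ g ((r : ℝ) ^ 240)⁻¹ := hr₀ r (le_max_left _ _)
  have h6 : (r : ℝ) ^ 24000 ≤ (((r₀ : ℝ) + 2) * x) ^ 24000 :=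
    pow_le_pow_left₀ (by linarith) hrx 24000
  rw [mul_pow, hx24] at h6
  have h7 : 0 < (r : ℝ) ^ 24000 := by positivity
  have h8 := inv_anti₀ h7 h6
  rw [mul_inv, inv_inv] at h8
  exact h8.trans (h5.trans h4)

/-- **Power-law strict convexity.** Proof. `exists_gap` gives `p, q`, `close_kmin_pos` `kmin > 0`. Apply
`scale_all` to `g u = (Λ(h+u) + Λ(h-u) - 2 Λ(h))/2` (`second_mono`, `Lam_convex`), with `defect_small` and
`NA_of` (`δ = r^{-240} ∈ (0, 1]` for `r ≥ 1`). Multiply by `2`. -/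
theorem power_convex (hμ : EM μ) (hnd : Nondeg μ) (h : ℝ) :
    ∃ c : ℝ, 0 < c ∧ ∀ u : ℝ, 0 < u → u ≤ 1 →
      c * u ^ 100 ≤ Lam μ (h + u) + Lam μ (h - u) - 2 * Lam μ h := by
  obtain ⟨p, q, hpq, hp, hq⟩ := exists_gap hnd
  have hk := close_kmin_pos hpq hp hq
  obtain ⟨c, hc, hcu⟩ := scale_all
    (g := fun u => (Lam μ (h + u) + Lam μ (h - u) - 2 * Lam μ h) / 2)
    (fun u u' hu huu => by
      have := second_mono (Lam_convex hμ) h hu huu
      linarith)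
    (by
      filter_upwards [defect_small hμ hpq hk h, eventually_ge_atTop 1] with r hr hr1
      have hr1' : (1 : ℝ) ≤ r := by exact_mod_cast hr1
      have h0 : (0 : ℝ) < ((r : ℝ) ^ 240)⁻¹ := by positivity
      have h1 : ((r : ℝ) ^ 240)⁻¹ ≤ 1 := inv_le_one_of_one_le₀ (one_le_pow₀ hr1')
      exact hr _ _ (NA_of hμ h h0 h1))
  refine ⟨2 * c, by positivity, fun u hu hu1 => ?_⟩
  have := hcu u hu hu1
  linarith

end

end Pool.Agent.W_7d29a1_h47
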