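import Pool.Agent.W_7d29a1_h47q.NuD
import Pool.Agent.W_7d29a1_h47q.NuF
import Pool.Agent.W_7d29a1_h47q.NuG
import Pool.Agent.W_7d29a1_h47q.ParE

/-!
# The wandering exponent is larger than `1/3`
-/

namespace Pool.Agent.W_7d29a1_h47

open MeasureTheory ProbabilityTheory Finset Filter

noncomputable section

/-- One exponent. Proof. `exists_gap` gives `p, q` and `close_kmin_pos` gives `kmin > 0`; `power_convex` at
`h = 0` with `Lam_even`: `2 (Λ(u) - Λ(0)) ≥ c u^{100}` for `u ∈ (0, 1]`. Let `s` with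
`e^{Cc - s} ≤ 1/64`. `nu_params` with `c/2`, `κ = kmin μ p q`; for large `t` (also `t + t ≥ n₀`) `nu_core`
applies: the hypothesis `hconf` with `n = t + t` and monotonicity in the radius
(`⌈(t+t)^a⌉₊ ≤ r` because `(t+t)^a ≤ r`). -/
theorem nu_abstract {μ : Measure ℝ} [IsProbabilityMeasure μ] (hμ : EM μ) (hnd : Nondeg μ) {a : ℝ}
    (ha : 1 / 3 < a) (ha' : a < 101 / 300)
    (hconf : ∃ n₀ : ℕ, ∀ n r : ℕ, n₀ ≤ n → (n : ℝ) ^ a ≤ r →
      (law μ).real {g | ¬ (1 / 2 ≤ Av g 0 0 0 n (fun s => ind (∀ l ≤ n, |pos s l| ≤ r)))} ≤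
        1 / 16) : False := by
  obtain ⟨p, q, hpq, hp, hq⟩ := exists_gap hnd
  have hk := close_kmin_pos hpq hp hq
  obtain ⟨c, hc, hpc⟩ := power_convex hμ hnd 0
  obtain ⟨n₀, hn₀⟩ := hconf
  have hCc : 0 ≤ Cc μ := Drift_Cc_nonneg
  have hs : Real.exp (Cc μ - (Cc μ + Real.log 64)) ≤ 1 / 64 := by
    have e1 : Cc μ - (Cc μ + Real.log 64) = -Real.log 64 := by ring
    rw [e1, Real.exp_neg, Real.exp_log (by norm_num)]
    norm_num
  have hev := nu_params μ ha ha' (c := c / 2) (κ := kmin μ p q) (by positivity) hk hCc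
    (Cc μ + Real.log 64)
  obtain ⟨t, ht, htn⟩ := (hev.and (eventually_ge_atTop n₀)).exists
  obtain ⟨r, h, K, ht1, hr, hpar, hra, ht3, hh, hh1, hK, hK1, hK2, hQ⟩ := ht
  have h1 := hpc h hh hh1
  rw [zero_add, zero_sub, Lam_even] at h1
  have h2 : (t : ℝ) * (c / 2 * h ^ 100) ≤ t * (Lam μ h - Lam μ 0) :=
    mul_le_mul_of_nonneg_left (by linarith) (Nat.cast_nonneg t)
  exact nu_core hμ hpq hk ht1 hr hpar ht3 hh.le hK hK1 hK2 hs (hQ.trans h2)
    (hn₀ (t + t) r (by omega) hra)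

/-- **The wandering exponent.** Proof. `nu = sInf nuSet`, `le_csInf` with `nuSet_nonempty`. Let
`a ∈ nuSet`, and suppose `a < 101/300`. Put `a' = max a (2/3 * (101/300) + 1/3 * (1/3))`, so
`1/3 < a' < 101/300`, `a ≤ a'`. `exists_n0` with `δ = 1/16`; for `n ≥ 1` `n^a ≤ n^{a'}`, `Pol_mono`;
`conf_transfer` with `R = n^{a'} ≤ r` gives the hypothesis of `nu_abstract` for the law
`P.map (β ω(0,0))` (`EM_of`, `Nondeg_of`). -/
theorem main_nu {Ω : Type*} [MeasurableSpace Ω] (P : Measure Ω) [IsProbabilityMeasure P]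
    (ω : ℕ × W_MP_7d29a1_pr.Site 1 → Ω → ℝ) (hmeas : ∀ p, Measurable (ω p))
    (hindep : iIndepFun ω P) (hident : ∀ p q, IdentDistrib (ω p) (ω q) P P)
    (hnc : ∀ p, ¬ ∃ c : ℝ, ∀ᵐ x ∂P, ω p x = c)
    (hexp : ∀ (b : ℝ) p, Integrable (fun x => Real.exp (b * ω p x)) P) {β : ℝ} (hβ : 0 < β) :
    101 / 300 ≤ W_MP_7d29a1_pr.nu P β ω := by
  set μ : Measure ℝ := P.map fun x => β * ω (0, fun _ => 0) x with hμdef
  have hm0 : Measurable fun x => β * ω (0, fun _ => 0) x := (hmeas _).const_mul β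
  have hprob : IsProbabilityMeasure μ := Measure.isProbabilityMeasure_map hm0.aemeasurable
  have hμ : EM μ := EM_of (hmeas _) (fun b => hexp b _) β
  have hnd : Nondeg μ := Nondeg_of (hmeas _) (hnc _) hβ
  unfold W_MP_7d29a1_pr.nu
  refine le_csInf (W_MP_7d29a1_pr.nuSet_nonempty P one_pos ω β) fun a ha => ?_
  by_contra hlt
  rw [not_le] at hlt
  obtain ⟨n0, hn0⟩ := W_MP_7d29a1_pr.exists_n0 ω hmeas ha (show (0 : ℝ) < 1 / 16 by norm_num)
  refine nu_abstract hμ hnd (a := max a (67 / 200)) (lt_max_of_lt_right (by norm_num))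
    (max_lt hlt (by norm_num)) ⟨max n0 1, fun n r hn hr => ?_⟩
  refine conf_transfer hmeas hindep hident β hr ?_
  refine le_trans (measureReal_mono ?_) (hn0 n ((le_max_left _ _).trans hn))
  intro x hx
  simp only [Set.mem_setOf_eq] at hx ⊢
  intro hcon
  apply hx
  refine hcon.trans (Pol_mono β _ ?_)
  have hn1 : (1 : ℝ) ≤ n := by
    have : 1 ≤ n := (le_max_right _ _).trans hn
    exact_mod_cast this
  exact Real.rpow_le_rpow_of_exponent_le hn1 (le_max_left _ _)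

end

end Pool.Agent.W_7d29a1_h47
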