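import Pool.Agent.W_7d29a1_h47q.SwapK

/-!
# Ratios of point-to-point partition functions
-/

namespace Pool.Agent.W_7d29a1_h47

open MeasureTheory ProbabilityTheory Finset

noncomputable section

variable {μ : Measure ℝ} [IsProbabilityMeasure μ]

/-- The log ratio `log (Z(ℓ → z) / Z(0 → z))` over `t` steps. -/
def Uz (g : Env) (t ℓ : ℕ) (z : ℤ) : ℝ := Real.log (Zp g 0 ℓ t z) - Real.log (Zp g 0 0 t z)

/-- The same with end point summed with tilt `h`. -/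
def uh (g : Env) (h : ℝ) (t ℓ : ℕ) : ℝ :=
  Real.log (Z g h 0 ℓ t) - Real.log (Z g h 0 0 t) + h * ℓ

lemma LgvU_num (g : Env) (h : ℝ) (t : ℕ) (x : ℤ) {S : Finset ℤ} (hS : Icc (x - t) (x + t) ⊆ S)
    (P : ℤ → Prop) :
    ∑ s ∈ T t, wt g h 0 x t s * ind (P (x + pos s t)) =
      Real.exp (-(h * x)) * ∑ z ∈ S, Real.exp (h * z) * Zp g 0 x t z * ind (P z) := by
  have h1 : ∀ z ∈ S, Real.exp (h * z) * Zp g 0 x t z * ind (P z) =
      ∑ s ∈ T t, if x + pos s t = z then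
        Real.exp (h * z) * Real.exp (En g 0 x t s) * ind (P z) else 0 := by
    intro z _
    unfold Zp
    rw [Finset.mul_sum, Finset.sum_mul]
    refine Finset.sum_congr rfl fun s _ => ?_
    split_ifs <;> simp
  rw [Finset.sum_congr rfl h1, Finset.sum_comm, Finset.mul_sum]
  refine Finset.sum_congr rfl fun s _ => ?_
  rw [Finset.sum_ite_eq, if_pos (hS (pos_mem_Icc s t x))]
  unfold wt
  rw [← Real.exp_add, ← mul_assoc, ← Real.exp_add]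
  congr 2
  push_cast
  ring

lemma LgvU_sumA (g : Env) (h : ℝ) (t : ℕ) {S : Finset ℤ} (hS : Icc (-(t : ℤ)) t ⊆ S) :
    Z g h 0 0 t = ∑ z ∈ S, Real.exp (h * z) * Zp g 0 0 t z := by
  have h1 := LgvU_num g h t 0 (S := S) (by simpa using hS) (fun _ => True)
  simp only [ind_true trivial, mul_one, Int.cast_zero, mul_zero, neg_zero, Real.exp_zero,
    one_mul] at h1
  exact h1

lemma LgvU_sumB (g : Env) (h : ℝ) (t ℓ : ℕ) {S : Finset ℤ} (hS : Icc ((ℓ : ℤ) - t) (ℓ + t) ⊆ S) :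
    Real.exp (h * ℓ) * Z g h 0 ℓ t = ∑ z ∈ S, Real.exp (h * z) * Zp g 0 ℓ t z := by
  have h1 := LgvU_num g h t ℓ (S := S) hS (fun _ => True)
  simp only [ind_true trivial, mul_one, Int.cast_natCast] at h1
  have h2 : Z g h 0 ℓ t = ∑ s ∈ T t, wt g h 0 ℓ t s := rfl
  rw [h2, h1, ← mul_assoc, ← Real.exp_add]
  simp

lemma LgvU_uh (g : Env) (h : ℝ) (t ℓ : ℕ) :
    uh g h t ℓ = Real.log (Real.exp (h * ℓ) * Z g h 0 ℓ t) - Real.log (Z g h 0 0 t) := by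
  unfold uh
  rw [Real.log_mul (Real.exp_pos _).ne' (Z_pos _ _ _ _ _).ne', Real.log_exp]
  ring

lemma LgvU_expU (g : Env) {t ℓ : ℕ} {z₀ : ℤ} (h0 : Reach 0 t z₀) (h1 : Reach ℓ t z₀) :
    Real.exp (Uz g t ℓ z₀) * Zp g 0 0 t z₀ = Zp g 0 ℓ t z₀ := by
  unfold Uz
  rw [Real.exp_sub, Real.exp_log (Zp_pos g h0 0), Real.exp_log (Zp_pos g h1 0)]
  exact div_mul_cancel₀ _ (Zp_pos g h0 0).ne'

/-- Total positivity without tilt. Proof. `Kp_lgv` with `h = 0` (`Kp g 0 t x R y = Zp g t x R y`),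
starting points `0 < ℓ`, `ℓ` even. -/
lemma Zp_lgv (g : Env) (t : ℕ) {ℓ : ℕ} (hℓ : 0 < ℓ) (hℓ2 : ℓ % 2 = 0) {z z' : ℤ} (hz : z ≤ z') :
    Zp g 0 ℓ t z * Zp g 0 0 t z' ≤ Zp g 0 0 t z * Zp g 0 ℓ t z' := by
  rcases hz.eq_or_lt with rfl | hlt
  · exact le_of_eq (mul_comm _ _)
  · have h1 := Kp_lgv g 0 0 t (a := 0) (a' := (ℓ : ℤ)) (x := z) (x' := z') (by exact_mod_cast hℓ)
      (by omega) hlt
    unfold Kp at h1
    simp only [zero_mul, Real.exp_zero, one_mul] at h1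
    linarith [mul_comm (Zp g 0 ℓ t z) (Zp g 0 0 t z')]

/-- Proof. `Zp_lgv` and `e^{U} = Zp(ℓ → z₀) / Zp(0 → z₀)` (both positive: `Zp_pos`). -/
lemma U_le (g : Env) {t ℓ : ℕ} (hℓ : 0 < ℓ) (hℓ2 : ℓ % 2 = 0) {z z₀ : ℤ} (h0 : Reach 0 t z₀)
    (h1 : Reach ℓ t z₀) (hz : z ≤ z₀) :
    Zp g 0 ℓ t z ≤ Real.exp (Uz g t ℓ z₀) * Zp g 0 0 t z := by
  have h2 := Zp_lgv g t hℓ hℓ2 hz
  have h3 := LgvU_expU g h0 h1
  have h4 := Zp_pos g h0 0
  rw [← h3] at h2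
  have h5 : Zp g 0 ℓ t z * Zp g 0 0 t z₀ ≤
      (Real.exp (Uz g t ℓ z₀) * Zp g 0 0 t z) * Zp g 0 0 t z₀ := by
    refine h2.trans (le_of_eq ?_)
    ring
  exact le_of_mul_le_mul_right h5 h4

/-- Proof. As `U_le`. -/
lemma U_ge (g : Env) {t ℓ : ℕ} (hℓ : 0 < ℓ) (hℓ2 : ℓ % 2 = 0) {z z₀ : ℤ} (h0 : Reach 0 t z₀)
    (h1 : Reach ℓ t z₀) (hz : z₀ ≤ z) :
    Real.exp (Uz g t ℓ z₀) * Zp g 0 0 t z ≤ Zp g 0 ℓ t z := by
  have h2 := Zp_lgv g t hℓ hℓ2 hz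
  have h3 := LgvU_expU g h0 h1
  have h4 := Zp_pos g h0 0
  rw [← h3] at h2
  have h5 : (Real.exp (Uz g t ℓ z₀) * Zp g 0 0 t z) * Zp g 0 0 t z₀ ≤
      Zp g 0 ℓ t z * Zp g 0 0 t z₀ := by
    refine (le_of_eq ?_).trans (h2.trans (le_of_eq ?_)) <;> ring
  exact le_of_mul_le_mul_right h5 h4

/-- Proof. `Z g h 0 x t = ∑_z e^{h (z - x)} Zp g 0 x t z` (`Z_eq_sum_Zp`); the summation may be extended to
any larger finite set (`Zp_eq_zero`). -/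
lemma Z_sum_box (g : Env) (h : ℝ) (t : ℕ) (x : ℤ) {S : Finset ℤ} (hS : Icc (x - t) (x + t) ⊆ S) :
    Z g h 0 x t = Real.exp (-(h * x)) * ∑ z ∈ S, Real.exp (h * z) * Zp g 0 x t z := by
  have h1 := LgvU_num g h t x hS (fun _ => True)
  simp only [ind_true trivial, mul_one] at h1
  exact h1

/-- **Monotonicity in the tilt.** Proof. With `S = Icc (-t) (ℓ + t)`, `A_z = Zp g 0 0 t z`,
`B_z = Zp g 0 ℓ t z`: `e^{uh h} = ∑ e^{hz} B_z / ∑ e^{hz} A_z` (`Z_sum_box`). One has to show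
`(∑ e^{-hz} B_z)(∑ e^{hz} A_z) ≤ (∑ e^{hz} B_z)(∑ e^{-hz} A_z)`. The difference of the two sides is
`∑_{z,z'} B_z A_{z'} (e^{h(z - z')} - e^{-h(z - z')})`; twice this number is
`∑_{z,z'} (B_z A_{z'} - B_{z'} A_z)(e^{h(z-z')} - e^{-h(z-z')})` (exchange of names), and both factors have
the sign of `z - z'` (`Zp_lgv`, `h ≥ 0`). -/
theorem uh_mono (g : Env) {h : ℝ} (hh : 0 ≤ h) (t : ℕ) {ℓ : ℕ} (hℓ : 0 < ℓ) (hℓ2 : ℓ % 2 = 0) :
    uh g (-h) t ℓ ≤ uh g h t ℓ := by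
  obtain ⟨S, hSA, hSB⟩ : ∃ S : Finset ℤ, Icc (-(t : ℤ)) t ⊆ S ∧ Icc ((ℓ : ℤ) - t) (ℓ + t) ⊆ S :=
    ⟨_, Finset.subset_union_left, Finset.subset_union_right⟩
  have pA : ∀ k : ℝ, 0 < ∑ z ∈ S, Real.exp (k * z) * Zp g 0 0 t z := by
    intro k
    rw [← LgvU_sumA g k t hSA]
    exact Z_pos _ _ _ _ _
  have pB : ∀ k : ℝ, 0 < ∑ z ∈ S, Real.exp (k * z) * Zp g 0 ℓ t z := by
    intro k
    rw [← LgvU_sumB g k t ℓ hSB]
    exact mul_pos (Real.exp_pos _) (Z_pos _ _ _ _ _)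
  rw [LgvU_uh, LgvU_uh, LgvU_sumA g _ t hSA, LgvU_sumA g _ t hSA, LgvU_sumB g _ t ℓ hSB,
    LgvU_sumB g _ t ℓ hSB, sub_le_sub_iff, ← Real.log_mul (pB _).ne' (pA _).ne',
    ← Real.log_mul (pB _).ne' (pA _).ne']
  refine Real.log_le_log (mul_pos (pB _) (pA _)) ?_
  rw [Finset.sum_mul_sum, Finset.sum_mul_sum, ← sub_nonneg, ← Finset.sum_sub_distrib]
  have h1 : ∀ z ∈ S, ∑ z' ∈ S, Real.exp (h * z) * Zp g 0 ℓ t z *
        (Real.exp (-h * z') * Zp g 0 0 t z') -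
      ∑ z' ∈ S, Real.exp (-h * z) * Zp g 0 ℓ t z * (Real.exp (h * z') * Zp g 0 0 t z') =
      ∑ z' ∈ S, Zp g 0 ℓ t z * Zp g 0 0 t z' *
        (Real.exp (h * (z - z')) - Real.exp (-(h * (z - z')))) := by
    intro z _
    rw [← Finset.sum_sub_distrib]
    refine Finset.sum_congr rfl fun z' _ => ?_
    have e1 : Real.exp (h * (z - z')) = Real.exp (h * z) * Real.exp (-h * z') := by
      rw [← Real.exp_add]
      congr 1
      ring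
    have e2 : Real.exp (-(h * (z - z'))) = Real.exp (-h * z) * Real.exp (h * z') := by
      rw [← Real.exp_add]
      congr 1
      ring
    rw [e1, e2]
    ring
  rw [Finset.sum_congr rfl h1]
  set D : ℝ := ∑ z ∈ S, ∑ z' ∈ S, Zp g 0 ℓ t z * Zp g 0 0 t z' *
    (Real.exp (h * ((z : ℝ) - z')) - Real.exp (-(h * ((z : ℝ) - z')))) with hD
  have hD2 : D = ∑ z ∈ S, ∑ z' ∈ S, Zp g 0 ℓ t z' * Zp g 0 0 t z *
      (Real.exp (h * ((z' : ℝ) - z)) - Real.exp (-(h * ((z' : ℝ) - z)))) := by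
    rw [hD, Finset.sum_comm]
  have h2 : 0 ≤ D + D := by
    nth_rewrite 1 [hD]
    rw [hD2, ← Finset.sum_add_distrib]
    refine Finset.sum_nonneg fun z _ => ?_
    rw [← Finset.sum_add_distrib]
    refine Finset.sum_nonneg fun z' _ => ?_
    have e3 : h * ((z' : ℝ) - z) = -(h * ((z : ℝ) - z')) := by ring
    rw [e3, neg_neg]
    have e4 : Zp g 0 ℓ t z * Zp g 0 0 t z' *
        (Real.exp (h * ((z : ℝ) - z')) - Real.exp (-(h * ((z : ℝ) - z')))) +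
        Zp g 0 ℓ t z' * Zp g 0 0 t z *
        (Real.exp (-(h * ((z : ℝ) - z'))) - Real.exp (h * ((z : ℝ) - z'))) =
        (Zp g 0 ℓ t z * Zp g 0 0 t z' - Zp g 0 ℓ t z' * Zp g 0 0 t z) *
        (Real.exp (h * ((z : ℝ) - z')) - Real.exp (-(h * ((z : ℝ) - z')))) := by ring
    rw [e4]
    rcases le_total z z' with hz | hz
    · have l1 := Zp_lgv g t hℓ hℓ2 hz
      have hz' : (z : ℝ) ≤ z' := by exact_mod_cast hz
      have l2 : Real.exp (h * ((z : ℝ) - z')) ≤ Real.exp (-(h * ((z : ℝ) - z'))) := by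
        refine Real.exp_le_exp.2 ?_
        nlinarith [mul_nonneg hh (sub_nonneg.2 hz')]
      refine mul_nonneg_of_nonpos_of_nonpos ?_ (sub_nonpos.2 l2)
      linarith [mul_comm (Zp g 0 ℓ t z') (Zp g 0 0 t z)]
    · have l1 := Zp_lgv g t hℓ hℓ2 hz
      have hz' : (z' : ℝ) ≤ z := by exact_mod_cast hz
      have l2 : Real.exp (-(h * ((z : ℝ) - z'))) ≤ Real.exp (h * ((z : ℝ) - z')) := by
        refine Real.exp_le_exp.2 ?_
        nlinarith [mul_nonneg hh (sub_nonneg.2 hz')]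
      refine mul_nonneg ?_ (sub_nonneg.2 l2)
      linarith [mul_comm (Zp g 0 ℓ t z) (Zp g 0 0 t z')]
  linarith

/-- Proof. With the symbols of `uh_mono`: `∑ e^{hz} B_z ≥ ∑_{z ≥ z₀} e^{hz} B_z ≥
e^{U} ∑_{z ≥ z₀} e^{hz} A_z ≥ e^U (1/2) ∑ e^{hz} A_z` (`U_ge`; the Gibbs average of `ind (z₀ ≤ pos s t)` is
`∑_{z ≥ z₀} e^{hz} A_z / ∑ e^{hz} A_z`, e.g. by `sum_end`). -/
lemma uh_up (g : Env) {h : ℝ} {t ℓ : ℕ} (hℓ : 0 < ℓ) (hℓ2 : ℓ % 2 = 0) {z₀ : ℤ}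
    (h0 : Reach 0 t z₀) (h1 : Reach ℓ t z₀)
    (hp : 1 / 2 ≤ Av g h 0 0 t (fun s => ind (z₀ ≤ pos s t))) :
    Uz g t ℓ z₀ ≤ uh g h t ℓ + Real.log 2 := by
  obtain ⟨S, hSA, hSB⟩ : ∃ S : Finset ℤ, Icc (-(t : ℤ)) t ⊆ S ∧ Icc ((ℓ : ℤ) - t) (ℓ + t) ⊆ S :=
    ⟨_, Finset.subset_union_left, Finset.subset_union_right⟩
  have hZ := Z_pos g h 0 0 t
  have h2 := LgvU_num g h t 0 (S := S) (by simpa using hSA) (fun z => z₀ ≤ z)
  simp only [Int.cast_zero, mul_zero, neg_zero, Real.exp_zero, one_mul, zero_add] at h2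
  unfold Av at hp
  rw [h2, le_div_iff₀ hZ] at hp
  have h3 : Real.exp (Uz g t ℓ z₀) * ∑ z ∈ S, Real.exp (h * z) * Zp g 0 0 t z * ind (z₀ ≤ z) ≤
      Real.exp (h * ℓ) * Z g h 0 ℓ t := by
    rw [LgvU_sumB g h t ℓ hSB, Finset.mul_sum]
    refine Finset.sum_le_sum fun z _ => ?_
    by_cases hz : z₀ ≤ z
    · rw [ind_true hz, mul_one]
      have h4 := U_ge g hℓ hℓ2 h0 h1 hz
      calc Real.exp (Uz g t ℓ z₀) * (Real.exp (h * z) * Zp g 0 0 t z)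
          = Real.exp (h * z) * (Real.exp (Uz g t ℓ z₀) * Zp g 0 0 t z) := by ring
        _ ≤ Real.exp (h * z) * Zp g 0 ℓ t z := mul_le_mul_of_nonneg_left h4 (Real.exp_pos _).le
    · rw [ind_false hz, mul_zero, mul_zero]
      exact mul_nonneg (Real.exp_pos _).le (Zp_nonneg _ _ _ _ _)
  have h5 : Real.exp (Uz g t ℓ z₀) * Z g h 0 0 t ≤ 2 * (Real.exp (h * ℓ) * Z g h 0 ℓ t) := by
    have h6 := mul_le_mul_of_nonneg_left hp (Real.exp_pos (Uz g t ℓ z₀)).le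
    linarith
  have h7 := Real.log_le_log (mul_pos (Real.exp_pos _) hZ) h5
  rw [Real.log_mul (Real.exp_pos _).ne' hZ.ne', Real.log_exp, Real.log_mul two_ne_zero
    (mul_pos (Real.exp_pos _) (Z_pos _ _ _ _ _)).ne'] at h7
  rw [LgvU_uh]
  linarith

/-- Proof. `∑ e^{-hz} A_z ≥ ∑_{z ≤ z₀} e^{-hz} A_z ≥ e^{-U} ∑_{z ≤ z₀} e^{-hz} B_z ≥
e^{-U} (1/2) ∑ e^{-hz} B_z` (`U_le`; here `h` stands for `-h` in the statement). -/
lemma uh_dn (g : Env) {h : ℝ} {t ℓ : ℕ} (hℓ : 0 < ℓ) (hℓ2 : ℓ % 2 = 0) {z₀ : ℤ}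
    (h0 : Reach 0 t z₀) (h1 : Reach ℓ t z₀)
    (hp : 1 / 2 ≤ Av g h 0 ℓ t (fun s => ind ((ℓ : ℤ) + pos s t ≤ z₀))) :
    uh g h t ℓ ≤ Uz g t ℓ z₀ + Real.log 2 := by
  obtain ⟨S, hSA, hSB⟩ : ∃ S : Finset ℤ, Icc (-(t : ℤ)) t ⊆ S ∧ Icc ((ℓ : ℤ) - t) (ℓ + t) ⊆ S :=
    ⟨_, Finset.subset_union_left, Finset.subset_union_right⟩
  have hZ := Z_pos g h 0 ℓ t
  have h2 := LgvU_num g h t ℓ (S := S) hSB (fun z => z ≤ z₀)
  unfold Av at hp
  rw [h2, le_div_iff₀ hZ] at hp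
  have h3 : ∑ z ∈ S, Real.exp (h * z) * Zp g 0 ℓ t z * ind (z ≤ z₀) ≤
      Real.exp (Uz g t ℓ z₀) * Z g h 0 0 t := by
    rw [LgvU_sumA g h t hSA, Finset.mul_sum]
    refine Finset.sum_le_sum fun z _ => ?_
    by_cases hz : z ≤ z₀
    · rw [ind_true hz, mul_one]
      have h4 := U_le g hℓ hℓ2 h0 h1 hz
      calc Real.exp (h * z) * Zp g 0 ℓ t z
          ≤ Real.exp (h * z) * (Real.exp (Uz g t ℓ z₀) * Zp g 0 0 t z) :=
            mul_le_mul_of_nonneg_left h4 (Real.exp_pos _).le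
        _ = Real.exp (Uz g t ℓ z₀) * (Real.exp (h * z) * Zp g 0 0 t z) := by ring
    · rw [ind_false hz, mul_zero]
      exact mul_nonneg (Real.exp_pos _).le
        (mul_nonneg (Real.exp_pos _).le (Zp_nonneg _ _ _ _ _))
  have h5 : Real.exp (h * ℓ) * Z g h 0 ℓ t ≤ 2 * (Real.exp (Uz g t ℓ z₀) * Z g h 0 0 t) := by
    have h6 := mul_le_mul_of_nonneg_left hp (Real.exp_pos (h * ℓ)).le
    have h8 : Real.exp (h * ℓ) * (Real.exp (-(h * ((ℓ : ℤ) : ℝ))) *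
        ∑ z ∈ S, Real.exp (h * z) * Zp g 0 ℓ t z * ind (z ≤ z₀)) =
        ∑ z ∈ S, Real.exp (h * z) * Zp g 0 ℓ t z * ind (z ≤ z₀) := by
      rw [← mul_assoc, ← Real.exp_add]
      simp
    rw [h8] at h6
    linarith
  have h7 := Real.log_le_log (mul_pos (Real.exp_pos _) hZ) h5
  rw [Real.log_mul two_ne_zero (mul_pos (Real.exp_pos _) (Z_pos _ _ _ _ _)).ne',
    Real.log_mul (Real.exp_pos (Uz g t ℓ z₀)).ne' (Z_pos g h 0 0 t).ne', Real.log_exp] at h7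
  rw [LgvU_uh]
  linarith

/-- Proof. `integral_logZ` twice: both logarithms have the same mean `a μ h t`. -/
lemma integral_uh (hμ : EM μ) (h : ℝ) (t ℓ : ℕ) : ∫ g, uh g h t ℓ ∂(law μ) = h * ℓ := by
  have h1 : Integrable (fun g => Real.log (Z g h 0 ℓ t)) (law μ) :=
    (EMom_logZ hμ h 0 ℓ t).integrable
  have h2 : Integrable (fun g => Real.log (Z g h 0 0 t)) (law μ) :=
    (EMom_logZ hμ h 0 0 t).integrable
  have h3 : Integrable (fun g => Real.log (Z g h 0 ℓ t) - Real.log (Z g h 0 0 t)) (law μ) :=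
    h1.sub h2
  unfold uh
  rw [integral_add h3 (integrable_const _), integral_sub h1 h2, integral_logZ,
    integral_logZ, integral_const]
  simp

lemma integrable_uh (hμ : EM μ) (h : ℝ) (t ℓ : ℕ) : Integrable (fun g => uh g h t ℓ) (law μ) := by
  have h1 : Integrable (fun g => Real.log (Z g h 0 ℓ t)) (law μ) :=
    (EMom_logZ hμ h 0 ℓ t).integrable
  have h2 : Integrable (fun g => Real.log (Z g h 0 0 t)) (law μ) :=
    (EMom_logZ hμ h 0 0 t).integrable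
  unfold uh
  exact (h1.sub h2).add (integrable_const _)

lemma measurable_uh (h : ℝ) (t ℓ : ℕ) : Measurable (fun g : Env => uh g h t ℓ) := by
  unfold uh
  exact (((measurable_Z h 0 ℓ t).log).sub ((measurable_Z h 0 0 t).log)).add measurable_const

lemma measurable_Uz (t ℓ : ℕ) (z : ℤ) : Measurable (fun g : Env => Uz g t ℓ z) := by
  unfold Uz
  exact ((measurable_Zp 0 ℓ t z).log).sub ((measurable_Zp 0 0 t z).log)

/-- Proof. `dependsOn_Zp`. -/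
lemma dependsOn_Uz (t ℓ : ℕ) (z : ℤ) : DependsOn (fun g : Env => Uz g t ℓ z) (rows 0 t) := by
  intro g g' hg
  have hg' : ∀ i ∈ rows 0 (0 + t), g i = g' i := by
    rw [zero_add]
    exact hg
  have h1 : Zp g 0 ℓ t z = Zp g' 0 ℓ t z := dependsOn_Zp 0 ℓ t z hg'
  have h2 : Zp g 0 0 t z = Zp g' 0 0 t z := dependsOn_Zp 0 0 t z hg'
  simp only [Uz, h1, h2]

/-- **Markov's inequality.** Proof. `uh g h t ℓ - uh g (-h) t ℓ ≥ 0` (`uh_mono`) has the mean `2 h ℓ`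
(`integral_uh`). -/
theorem uh_markov (hμ : EM μ) {h : ℝ} (hh : 0 ≤ h) (t : ℕ) {ℓ : ℕ} (hℓ : 0 < ℓ) (hℓ2 : ℓ % 2 = 0)
    {M : ℝ} (hM : 0 < M) :
    (law μ).real {g | M < uh g h t ℓ - uh g (-h) t ℓ} ≤ 2 * h * ℓ / M := by
  have h1 := integrable_uh hμ h t ℓ
  have h2 := integrable_uh hμ (-h) t ℓ
  have h3 := mul_meas_ge_le_integral_of_nonneg (μ := law μ)
    (f := fun g => uh g h t ℓ - uh g (-h) t ℓ)
    (Filter.Eventually.of_forall fun g => sub_nonneg.2 (uh_mono g hh t hℓ hℓ2)) (h1.sub h2) M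
  rw [integral_sub h1 h2, integral_uh hμ, integral_uh hμ] at h3
  have h4 : (law μ).real {g | M < uh g h t ℓ - uh g (-h) t ℓ} ≤
      (law μ).real {g | M ≤ uh g h t ℓ - uh g (-h) t ℓ} :=
    measureReal_mono (fun g (hg : M < uh g h t ℓ - uh g (-h) t ℓ) => hg.le)
  rw [le_div_iff₀ hM]
  nlinarith [mul_le_mul_of_nonneg_left h4 hM.le]

end

end Pool.Agent.W_7d29a1_h47
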