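import Pool.Agent.W_7d29a1_h47.InsK
import Pool.Agent.W_7d29a1_h47.Block

/-!
# The expected point-to-point free energy
-/

namespace Pool.Agent.W_7d29a1_h47

open MeasureTheory ProbabilityTheory Finset Filter

noncomputable section

variable {μ : Measure ℝ} [IsProbabilityMeasure μ]

/-- The expected log point-to-point partition function. -/
def ap (μ : Measure ℝ) (n : ℕ) (y : ℤ) : ℝ := ∫ g, Real.log (Zp g 0 0 n y) ∂(law μ)

/-- Proof. `InsK_path` (`InsK.lean`) and `pos_abs_le`, `pos_parity`. -/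
lemma Reach_iff {n : ℕ} {y : ℤ} : Reach 0 n y ↔ |y| ≤ n ∧ y % 2 = n % 2 := by
  constructor
  · rintro ⟨s, _, hs⟩
    rw [zero_add] at hs
    rw [← hs]
    exact ⟨pos_abs_le s n, pos_parity s n⟩
  · rintro ⟨h1, h2⟩
    obtain ⟨r, hr, hr'⟩ := InsK_path h1 h2
    exact ⟨r, hr, by rw [zero_add]; exact hr'⟩

/-- Proof. `Reach_iff`, `abs_add_le`, `omega`. -/
lemma Reach_add {n m : ℕ} {y z : ℤ} (hy : Reach 0 n y) (hz : Reach 0 m z) :
    Reach 0 (n + m) (y + z) := by
  rw [Reach_iff] at hy hz ⊢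
  obtain ⟨h1, h2⟩ := hy
  obtain ⟨h3, h4⟩ := hz
  constructor
  · have := abs_add_le y z
    push_cast
    linarith
  · push_cast
    omega

/-- Translation. Proof. `Zp g t x n y = Zp (shiftEnv t x g) 0 0 n (y - x)` (`En_shiftEnv`), stationarity
(`integral_comp_shiftEnv`). -/
lemma integral_logZp (t : ℕ) (x : ℤ) (n : ℕ) (y : ℤ) :
    ∫ g, Real.log (Zp g t x n y) ∂(law μ) = ap μ n (y - x) := by
  unfold ap
  rw [← integral_comp_shiftEnv t x (F := fun g => Real.log (Zp g 0 0 n (y - x))) (by fun_prop)]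
  have h1 : ∀ g : Env, Zp (shiftEnv t x g) 0 0 n (y - x) = Zp g t x n y := by
    intro g
    unfold Zp
    refine Finset.sum_congr rfl fun s _ => ?_
    rw [En_shiftEnv]
    by_cases h : x + pos s n = y
    · rw [if_pos h, if_pos (by omega), zero_add, zero_add]
    · rw [if_neg h, if_neg (by omega)]
  simp only [h1]

/-- Superadditivity. Proof. `Zp g 0 0 (n + m) (y + z) ≥ Zp g 0 0 n y * Zp g n y m (y + z)` (`Kp_split`
with tilt `0`: `Kp g 0 t x n y = Zp g t x n y`, single term of a sum of nonnegative terms; or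
`sum_split`), all three factors are positive (`Zp_pos`, `Reach_add`), `integral_logZp`,
integrability by `EMom_logZp`. -/
lemma ap_add_le (hμ : EM μ) {n m : ℕ} {y z : ℤ} (hy : Reach 0 n y) (hz : Reach 0 m z) :
    ap μ n y + ap μ m z ≤ ap μ (n + m) (y + z) := by
  have hyz := Reach_add hy hz
  have hz' : Reach y m (y + z) := by
    obtain ⟨s, hs, h⟩ := hz
    exact ⟨s, hs, by omega⟩
  have hK : ∀ (g : Env) (t : ℕ) (x : ℤ) (k : ℕ) (w : ℤ), Kp g 0 t x k w = Zp g t x k w := by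
    intro g t x k w
    unfold Kp
    rw [zero_mul, Real.exp_zero, one_mul]
  have hy1 : y ∈ Icc ((0 : ℤ) - n) (0 + n) := by
    have h1 := abs_le.1 (Reach_iff.1 hy).1
    rw [Finset.mem_Icc]
    constructor <;> omega
  have hpt : ∀ g : Env, Real.log (Zp g 0 0 n y) + Real.log (Zp g n y m (y + z)) ≤
      Real.log (Zp g 0 0 (n + m) (y + z)) := by
    intro g
    rw [← Real.log_mul (Zp_pos g hy 0).ne' (Zp_pos g hz' n).ne']
    apply Real.log_le_log (mul_pos (Zp_pos g hy 0) (Zp_pos g hz' n))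
    have h1 := Kp_split g 0 0 0 n m (y + z)
    simp only [hK] at h1
    rw [h1, zero_add n]
    exact Finset.single_le_sum (f := fun w => Zp g 0 0 n w * Zp g n w m (y + z))
      (fun w _ => mul_nonneg (Zp_nonneg _ _ _ _ _) (Zp_nonneg _ _ _ _ _)) hy1
  have i1 := (EMom_logZp hμ hy 0).integrable
  have i2 := (EMom_logZp hμ hz' n).integrable
  have i3 := (EMom_logZp hμ hyz 0).integrable
  have h2 := integral_mono (i1.add i2) i3 hpt
  have h3 : ∫ g, (Real.log (Zp g 0 0 n y) + Real.log (Zp g n y m (y + z))) ∂(law μ) =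
      ap μ n y + ap μ m z := by
    rw [integral_add i1 i2, integral_logZp n y m (y + z), add_sub_cancel_left]
    rfl
  rw [← h3]
  exact h2

/-- Lower bound by one path. Proof. There is `s ∈ T n` with `pos s n = y`, so
`log Zp ≥ En g 0 0 n s`, whose mean is `n * m0 μ` (`FreeB_mean`). -/
lemma le_ap (hμ : EM μ) {n : ℕ} {y : ℤ} (hy : Reach 0 n y) : n * m0 μ ≤ ap μ n y := by
  obtain ⟨s, hs, h⟩ := hy
  have hpt : ∀ g : Env, En g 0 0 n s ≤ Real.log (Zp g 0 0 n y) := by
    intro g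
    rw [Real.le_log_iff_exp_le (Zp_pos g ⟨s, hs, h⟩ 0)]
    have h1 := Finset.single_le_sum
      (f := fun r => if (0 : ℤ) + pos r n = y then Real.exp (En g 0 0 n r) else 0)
      (fun r _ => by split_ifs; exact (Real.exp_pos _).le; exact le_rfl) hs
    simp only [h, if_true] at h1
    unfold Zp
    refine h1.trans (le_of_eq ?_)
    refine Finset.sum_congr rfl fun r _ => ?_
    by_cases h2 : (0 : ℤ) + pos r n = y
    · rw [if_pos h2]
    · rw [if_neg h2]
  rw [← FreeB_mean hμ 0 0 n s]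
  exact integral_mono (EMom_En hμ 0 0 n s).integrable (EMom_logZp hμ ⟨s, hs, h⟩ 0).integrable hpt

/-- Upper bound. Proof. `Zp_le`: `Zp ≤ e^{-h y} Z g h 0 0 n`, so `log Zp + h y ≤ log Z`; integrate;
`a_le_Lam`. -/
lemma ap_le (hμ : EM μ) {n : ℕ} {y : ℤ} (hy : Reach 0 n y) (h : ℝ) :
    ap μ n y + h * y ≤ n * Lam μ h := by
  have hpt : ∀ g : Env, Real.log (Zp g 0 0 n y) + h * y ≤ Real.log (Z g h 0 0 n) := by
    intro g
    have h1 := Real.log_le_log (Zp_pos g hy 0) (Zp_le g h 0 0 n y)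
    rw [Real.log_mul (Real.exp_pos _).ne' (Z_pos _ _ _ _ _).ne', Real.log_exp] at h1
    push_cast at h1
    linarith
  have i1 := (EMom_logZp hμ hy 0).integrable
  have h2 := integral_mono (i1.add (integrable_const (h * (y : ℝ))))
    (EMom_logZ hμ h 0 0 n).integrable hpt
  have h3 : ∫ g, (Real.log (Zp g 0 0 n y) + h * y) ∂(law μ) = ap μ n y + h * y := by
    rw [integral_add i1 (integrable_const _)]
    simp [ap]
  rw [← h3]
  exact (h2.trans (le_of_eq rfl)).trans (a_le_Lam hμ h n)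

/-- Proof. Induction on `k` with `ap_add_le`. -/
lemma mul_ap_le (hμ : EM μ) {n : ℕ} {y : ℤ} (hy : Reach 0 n y) (k : ℕ) :
    Reach 0 (k * n) (k * y) ∧ k * ap μ n y ≤ ap μ (k * n) (k * y) := by
  induction k with
  | zero =>
    have h0 : Reach 0 (0 * n) (((0 : ℕ) : ℤ) * y) := by
      rw [Reach_iff]
      simp
    refine ⟨h0, ?_⟩
    have h1 := le_ap hμ h0
    simpa using h1
  | succ k ih =>
    obtain ⟨h1, h2⟩ := ih
    have e1 : (k + 1) * n = k * n + n := by ring
    have e2 : ((k + 1 : ℕ) : ℤ) * y = k * y + y := by push_cast; ring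
    rw [e1, e2]
    refine ⟨Reach_add h1 hy, ?_⟩
    have h3 := ap_add_le hμ h1 hy
    push_cast
    linarith

/-- A path made of `k₁` blocks, `k₂` other blocks and a rest. Proof. `mul_ap_le` twice, `ap_add_le`
twice, `le_ap` for the rest. -/
lemma ap_comb (hμ : EM μ) {n m k₁ k₂ : ℕ} {yp ym z : ℤ} (hp : Reach 0 n yp) (hm : Reach 0 n ym)
    (hz : Reach 0 m z) :
    k₁ * ap μ n yp + k₂ * ap μ n ym + m * m0 μ ≤
      ap μ ((k₁ + k₂) * n + m) (k₁ * yp + k₂ * ym + z) := by
  obtain ⟨r1, h1⟩ := mul_ap_le hμ hp k₁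
  obtain ⟨r2, h2⟩ := mul_ap_le hμ hm k₂
  have h3 := ap_add_le hμ r1 r2
  have h4 := ap_add_le hμ (Reach_add r1 r2) hz
  have h5 := le_ap hμ hz
  have e1 : (k₁ + k₂) * n + m = k₁ * n + k₂ * n + m := by ring
  rw [e1]
  linarith

/-- **Some end point carries the tilted partition function.** Proof. `n = 0`: `y = 0`. Let `n ≥ 1`,
`θ = 1 / √n ≤ 1`, and let `M` be the maximum of `ap μ n y + h * y` over the finite set of the `y`
with `Reach 0 n y` (a subset of `Icc (-n) n`, not empty). By `Z_eq_sum_Zp` and subadditivity of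
`x ↦ x^θ` (`Block_rpow_sum`): `Z^θ ≤ ∑_y (e^{h y} Zp)^θ` (terms with `Zp = 0`, i.e. not reachable, are
`0`), so by `conc_Zp` `∫ Z^θ ≤ (2n+1) e^{θ M + Cc θ² n}`, and by Jensen
`a μ h n = θ⁻¹ ∫ log Z^θ ≤ θ⁻¹ log ∫ Z^θ ≤ M + √n (log (2n+1) + Cc) = M + eps μ n` (compare the proof of
`rate` in `Block.lean`, of `BM` and `UiA.lean`). `rate` gives the claim. -/
theorem exists_ap (hμ : EM μ) (h : ℝ) (n : ℕ) :
    ∃ y : ℤ, Reach 0 n y ∧ n * Lam μ h - 2 * eps μ n ≤ ap μ n y + h * y := by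
  classical
  rcases Nat.eq_zero_or_pos n with hn | hn
  · subst hn
    have h0 : Reach 0 0 0 := by
      rw [Reach_iff]
      simp
    refine ⟨0, h0, ?_⟩
    have h1 := le_ap hμ h0
    simp only [Nat.cast_zero, zero_mul] at h1
    simp [eps]
    exact h1
  have hn0 : (0 : ℝ) < n := by exact_mod_cast hn
  have hn1 : (1 : ℝ) ≤ n := by exact_mod_cast hn
  obtain ⟨r, hr⟩ : ∃ r : ℝ, r = Real.sqrt n := ⟨_, rfl⟩
  have hr1 : 1 ≤ r := by
    rw [hr]
    exact Real.one_le_sqrt.2 hn1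
  have hr0 : 0 < r := by linarith
  have hrr : r * r = n := by
    rw [hr]
    exact Real.mul_self_sqrt hn0.le
  obtain ⟨θ, hθdef⟩ : ∃ θ : ℝ, θ = r⁻¹ := ⟨_, rfl⟩
  have hθ : 0 < θ := by rw [hθdef]; exact inv_pos.2 hr0
  have hθ1 : θ ≤ 1 := by rw [hθdef]; exact inv_le_one_of_one_le₀ hr1
  -- the maximum
  have hSne : ((Icc (-(n : ℤ)) n).filter fun y => Reach 0 n y).Nonempty := by
    obtain ⟨s, hs⟩ := T_nonempty n
    refine ⟨pos s n, ?_⟩
    rw [Finset.mem_filter]
    refine ⟨?_, s, hs, zero_add _⟩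
    have h1 := pos_mem_Icc s n 0
    rwa [zero_add, zero_sub, zero_add] at h1
  obtain ⟨y0, hy0, hmax⟩ := Finset.exists_max_image _ (fun y : ℤ => ap μ n y + h * y) hSne
  have hy0R : Reach 0 n y0 := (Finset.mem_filter.1 hy0).2
  obtain ⟨M, hM⟩ : ∃ M : ℝ, M = ap μ n y0 + h * y0 := ⟨_, rfl⟩
  refine ⟨y0, hy0R, ?_⟩
  rw [← hM]
  have hmax' : ∀ y : ℤ, Reach 0 n y → ap μ n y + h * y ≤ M := by
    intro y hy
    rw [hM]
    refine hmax y ?_
    rw [Finset.mem_filter]
    refine ⟨?_, hy⟩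
    rw [Finset.mem_Icc]
    exact abs_le.1 (Reach_iff.1 hy).1
  -- one term
  have hterm0 : ∀ y : ℤ, ¬ Reach 0 n y → ∀ g : Env,
      (Real.exp (h * ((y : ℝ) - (0 : ℤ))) * Zp g 0 0 n y) ^ θ = 0 := by
    intro y hy g
    have h1 : Zp g 0 0 n y = 0 := by
      unfold Zp
      refine Finset.sum_eq_zero fun s hs => ?_
      rw [if_neg fun h2 => hy ⟨s, hs, h2⟩]
    rw [h1, mul_zero, Real.zero_rpow hθ.ne']
  have hterm1 : ∀ y : ℤ, Reach 0 n y → ∀ g : Env,
      (Real.exp (h * ((y : ℝ) - (0 : ℤ))) * Zp g 0 0 n y) ^ θ =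
        Real.exp (θ * (ap μ n y + h * y)) * Real.exp (θ * (Real.log (Zp g 0 0 n y) -
          ∫ g', Real.log (Zp g' 0 0 n y) ∂(law μ))) := by
    intro y hy g
    have h1 := Zp_pos g hy 0
    rw [Real.rpow_def_of_pos (mul_pos (Real.exp_pos _) h1), Real.log_mul (Real.exp_pos _).ne' h1.ne',
      Real.log_exp, ← Real.exp_add]
    congr 1
    unfold ap
    push_cast
    ring
  have hint : ∀ y : ℤ, Integrable (fun g : Env =>
      (Real.exp (h * ((y : ℝ) - (0 : ℤ))) * Zp g 0 0 n y) ^ θ) (law μ) := by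
    intro y
    by_cases hy : Reach 0 n y
    · simp only [hterm1 y hy]
      exact (((EMom_logZp hμ hy 0).sub (EMom.const _)).integrable_exp θ).const_mul _
    · simp only [hterm0 y hy]
      exact integrable_zero _ _ _
  have hone : ∀ y : ℤ, ∫ g, (Real.exp (h * ((y : ℝ) - (0 : ℤ))) * Zp g 0 0 n y) ^ θ ∂(law μ) ≤
      Real.exp (θ * M + Cc μ * θ ^ 2 * n) := by
    intro y
    by_cases hy : Reach 0 n y
    · simp only [hterm1 y hy]
      rw [integral_const_mul, Real.exp_add]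
      have h1 := conc_Zp hμ hy 0 (θ := θ) (by rw [abs_of_pos hθ]; exact hθ1)
      refine mul_le_mul ?_ h1 (integral_nonneg fun g => (Real.exp_pos _).le) (Real.exp_pos _).le
      exact Real.exp_le_exp.2 (mul_le_mul_of_nonneg_left (hmax' y hy) hθ.le)
    · simp only [hterm0 y hy]
      rw [integral_zero]
      exact (Real.exp_pos _).le
  -- the moment of order `θ`
  obtain ⟨C, hC⟩ : ∃ C : ℝ, C = Real.log (2 * n + 1) + (θ * M + Cc μ * θ ^ 2 * n) := ⟨_, rfl⟩
  have hZint := (PMom_Z_rpow hμ h 0 0 n θ).integrable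
  have hmom : ∫ g, Z g h 0 0 n ^ θ ∂(law μ) ≤ Real.exp C := by
    have h1 : ∫ g, Z g h 0 0 n ^ θ ∂(law μ) ≤ ∫ g, ∑ y ∈ Icc ((0 : ℤ) - n) (0 + n),
        (Real.exp (h * ((y : ℝ) - (0 : ℤ))) * Zp g 0 0 n y) ^ θ ∂(law μ) := by
      refine integral_mono hZint (integrable_finsetSum _ fun y _ => hint y) fun g => ?_
      show Z g h 0 0 n ^ θ ≤ _
      rw [Z_eq_sum_Zp]
      exact Block_rpow_sum _ _ (fun y _ => mul_nonneg (Real.exp_pos _).le (Zp_nonneg _ _ _ _ _))
        hθ hθ1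
    rw [integral_finsetSum _ fun y _ => hint y] at h1
    refine h1.trans ((Finset.sum_le_sum fun y _ => hone y).trans (le_of_eq ?_))
    rw [Finset.sum_const, Int.card_Icc, nsmul_eq_mul, hC, Real.exp_add (Real.log (2 * n + 1)),
      Real.exp_log (by positivity)]
    congr 1
    have h4 : ((0 : ℤ) + n + 1 - (0 - n)).toNat = 2 * n + 1 := by omega
    rw [h4]
    push_cast
    ring
  -- Jensen
  have hJ : θ * a μ h n ≤ C := by
    have h1 : ∀ g : Env, θ * Real.log (Z g h 0 0 n) ≤ C + (Z g h 0 0 n ^ θ / Real.exp C - 1) := by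
      intro g
      have h0 := Z_pos g h 0 0 n
      have h2 : 0 < Z g h 0 0 n ^ θ / Real.exp C := div_pos (Real.rpow_pos_of_pos h0 θ)
        (Real.exp_pos C)
      have h3 := Real.log_le_sub_one_of_pos h2
      rw [Real.log_div (Real.rpow_pos_of_pos h0 θ).ne' (Real.exp_pos C).ne',
        Real.log_rpow h0, Real.log_exp] at h3
      linarith
    have hi3 : Integrable (fun g : Env => Z g h 0 0 n ^ θ / Real.exp C) (law μ) :=
      hZint.div_const (Real.exp C)
    have hi2 : Integrable (fun g : Env => Z g h 0 0 n ^ θ / Real.exp C - 1) (law μ) :=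
      hi3.sub (integrable_const 1)
    have hi1 : Integrable (fun g : Env => C + (Z g h 0 0 n ^ θ / Real.exp C - 1)) (law μ) :=
      (integrable_const C).add hi2
    have h4 := integral_mono ((EMom_logZ hμ h 0 0 n).integrable.const_mul θ) hi1 h1
    rw [integral_const_mul] at h4
    refine h4.trans ?_
    rw [integral_add (integrable_const C) hi2, integral_sub hi3 (integrable_const 1),
      integral_div]
    simp only [integral_const, probReal_univ, smul_eq_mul, one_mul]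
    have h5 : (∫ g, Z g h 0 0 n ^ θ ∂(law μ)) / Real.exp C ≤ 1 := by
      rw [div_le_one (Real.exp_pos C)]
      exact hmom
    linarith
  have hθr : θ * r = 1 := by rw [hθdef]; exact inv_mul_cancel₀ hr0.ne'
  have hfin : a μ h n ≤ M + eps μ n := by
    have h1 : a μ h n = r * (θ * a μ h n) := by
      rw [← mul_assoc, mul_comm r θ, hθr, one_mul]
    have h2 : r * C = M + eps μ n := by
      have e1 : r * (θ * M) = M := by
        rw [← mul_assoc, mul_comm r θ, hθr, one_mul]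
      have e2 : r * (Cc μ * θ ^ 2 * n) = r * Cc μ := by
        rw [← hrr]
        calc r * (Cc μ * θ ^ 2 * (r * r)) = r * Cc μ * (θ * r) ^ 2 := by ring
          _ = r * Cc μ := by rw [hθr]; ring
      rw [hC]
      unfold eps
      rw [← hr, mul_add, mul_add, e1, e2]
      ring
    rw [h1, ← h2]
    exact mul_le_mul_of_nonneg_left hJ hr0.le
  have hrate := rate hμ h n
  linarith

end

end Pool.Agent.W_7d29a1_h47
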