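import Pool.Agent.W_7d29a1_h47.Drift

/-!
# Almost affine free energy: drift
-/

namespace Pool.Agent.W_7d29a1_h47

open MeasureTheory ProbabilityTheory Finset

noncomputable section

variable {μ : Measure ℝ} [IsProbabilityMeasure μ]

/-- `Λ` has the slope `v` on `[h - δ, h + δ]` up to the defect `D`. -/
structure NA (μ : Measure ℝ) (h δ v D : ℝ) : Prop where
  pos : 0 < δ
  le1 : δ ≤ 1
  D0 : 0 ≤ D
  up : Lam μ (h + δ) = Lam μ h + δ * v + D
  dn : Lam μ (h - δ) = Lam μ h - δ * v + D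

/-- Every `δ ≤ 1` gives such data. Proof. `D ≥ 0` by convexity (`Lam_convex`) at the midpoint `h` of
`h - δ` and `h + δ`; the two equations by `field_simp; ring`. -/
lemma NA_of (hμ : EM μ) (h : ℝ) {δ : ℝ} (hδ : 0 < δ) (hδ1 : δ ≤ 1) :
    NA μ h δ ((Lam μ (h + δ) - Lam μ (h - δ)) / (2 * δ))
      ((Lam μ (h + δ) + Lam μ (h - δ) - 2 * Lam μ h) / 2) := by
  have h1 := (Lam_convex hμ).slope_mono_adjacent (Set.mem_univ (h - δ)) (Set.mem_univ (h + δ))
    (show h - δ < h by linarith) (show h < h + δ by linarith)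
  have e1 : h - (h - δ) = δ := by ring
  have e2 : h + δ - h = δ := by ring
  rw [e1, e2, div_le_div_iff_of_pos_right hδ] at h1
  refine ⟨hδ, hδ1, by linarith, ?_, ?_⟩
  · field_simp
    ring
  · field_simp
    ring

/-- The slopes are bounded away from `1`. Proof. From `hA.up`, `hA.dn`:
`v = (Λ(h + δ) - Λ(h - δ)) / (2 δ)`. By convexity (monotone slopes, `ConvexOn.slope_mono_adjacent` and
relatives, or direct convex combinations) `Λ h - Λ (h - 1) ≤ v ≤ Λ (h + 1) - Λ h`, and these numbers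
are in `(-1, 1)` (`slope_lt_one`, `neg_one_lt_slope`). `vb` = maximum of their absolute values. -/
lemma slope_unif (hμ : EM μ) (h : ℝ) :
    ∃ vb : ℝ, 0 ≤ vb ∧ vb < 1 ∧ ∀ δ v D : ℝ, NA μ h δ v D → |v| ≤ vb := by
  have u1 := slope_lt_one hμ (show h < h + 1 by linarith)
  have u2 := neg_one_lt_slope hμ (show h < h + 1 by linarith)
  have l1 := slope_lt_one hμ (show h - 1 < h by linarith)
  have l2 := neg_one_lt_slope hμ (show h - 1 < h by linarith)
  refine ⟨max |Lam μ (h + 1) - Lam μ h| |Lam μ h - Lam μ (h - 1)|,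
    le_max_of_le_left (abs_nonneg _), max_lt (abs_lt.2 ⟨by linarith, by linarith⟩)
      (abs_lt.2 ⟨by linarith, by linarith⟩), fun δ v D hA => ?_⟩
  have hδ := hA.pos
  have hδ1 := hA.le1
  have hup := hA.up
  have hdn := hA.dn
  have hc := Lam_convex hμ
  -- slope on `[h, h + δ]` is at most the one on `[h, h + 1]`
  have a1 : v ≤ Lam μ (h + 1) - Lam μ h := by
    have k1 : Lam μ (h + δ) ≤ (1 - δ) * Lam μ h + δ * Lam μ (h + 1) := by
      have := hc.2 (Set.mem_univ h) (Set.mem_univ (h + 1)) (show 0 ≤ 1 - δ by linarith) hδ.le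
        (by ring)
      simp only [smul_eq_mul] at this
      rwa [show (1 - δ) * h + δ * (h + 1) = h + δ by ring] at this
    have k2 : δ * v ≤ δ * (Lam μ (h + 1) - Lam μ h) := by linarith [hA.D0]
    exact le_of_mul_le_mul_left k2 hδ
  have a2 : Lam μ h - Lam μ (h - 1) ≤ v := by
    have k1 : Lam μ (h - δ) ≤ (1 - δ) * Lam μ h + δ * Lam μ (h - 1) := by
      have := hc.2 (Set.mem_univ h) (Set.mem_univ (h - 1)) (show 0 ≤ 1 - δ by linarith) hδ.le
        (by ring)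
      simp only [smul_eq_mul] at this
      rwa [show (1 - δ) * h + δ * (h - 1) = h - δ by ring] at this
    have k2 : δ * (Lam μ h - Lam μ (h - 1)) ≤ δ * v := by linarith [hA.D0]
    exact le_of_mul_le_mul_left k2 hδ
  rw [abs_le]
  constructor
  · have := neg_abs_le (Lam μ h - Lam μ (h - 1))
    have := le_max_right |Lam μ (h + 1) - Lam μ h| |Lam μ h - Lam μ (h - 1)|
    linarith
  · have := le_abs_self (Lam μ (h + 1) - Lam μ h)
    have := le_max_left |Lam μ (h + 1) - Lam μ h| |Lam μ h - Lam μ (h - 1)|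
    linarith

/-- One block. Proof. As `Drift_block`, with the additional term `θ t D` (`hA.up`, `hA.dn`). -/
lemma Drift_blockQ (hμ : EM μ) {h δ v D : ℝ} (hA : NA μ h δ v D) {θ : ℝ} (hθ : 0 < θ) (hθ1 : θ ≤ 1)
    (t k : ℕ) (x : ℤ) :
    ∑ y ∈ Icc (x - t) (x + t),
      ∫ g, (Real.exp (δ * |(y : ℝ) - x - v * t|) * Kp g h k x t y) ^ θ ∂(law μ) ≤
        Real.exp (θ * t * Lam μ h + (Real.log (2 * t + 1) + Cc μ * θ ^ 2 * t + θ * t * D)) := by
  have h1 : ∀ y ∈ Icc (x - t) (x + t),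
      ∫ g, (Real.exp (δ * |(y : ℝ) - x - v * t|) * Kp g h k x t y) ^ θ ∂(law μ) ≤
        Real.exp (θ * t * Lam μ h + Cc μ * θ ^ 2 * t + θ * t * D) := by
    intro y _
    rcases le_or_gt 0 ((y : ℝ) - x - v * t) with hy | hy
    · refine (integral_Kp_rpow hμ h (h + δ) _ k x t y hθ hθ1).trans (le_of_eq ?_)
      rw [abs_of_nonneg hy, hA.up]
      congr 1
      ring
    · refine (integral_Kp_rpow hμ h (h - δ) _ k x t y hθ hθ1).trans (le_of_eq ?_)
      rw [abs_of_neg hy, hA.dn]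
      congr 1
      ring
  refine (Finset.sum_le_sum h1).trans (le_of_eq ?_)
  rw [Finset.sum_const, Int.card_Icc, nsmul_eq_mul]
  have h2 : (x + t + 1 - (x - t)).toNat = 2 * t + 1 := by omega
  rw [h2]
  have h3 : (((2 * t + 1 : ℕ)) : ℝ) = Real.exp (Real.log (2 * t + 1)) := by
    rw [Real.exp_log (by positivity)]
    push_cast
    rfl
  rw [h3, ← Real.exp_add]
  congr 1
  ring

/-- **Drift with defect.** Proof. As `drift` (`Drift.lean`): `BM_avg` with
`c = log (2t+1) + Cc θ² t + θ t D`, `θ = 1/√t`; the new term contributes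
`θ⁻¹ n θ t D = n t D` to the bound of `δ * (left side)`. -/
theorem driftQ (hμ : EM μ) {h δ v D : ℝ} (hA : NA μ h δ v D) {t n : ℕ} (ht : 1 ≤ t) (htn : t ≤ n) :
    ∑ k ∈ range (n - t + 1), EA μ h n (fun _ s => |(pos s (k + t) : ℝ) - pos s k - v * t|) ≤
      n * (((10 + 4 * Cc μ) * (Real.sqrt t * (1 + Real.log t)) + D * t) / δ) := by
  have hC : 0 ≤ Cc μ := Drift_Cc_nonneg
  have hδ : 0 < δ := hA.pos
  have hD : 0 ≤ D := hA.D0
  have ht0 : (0 : ℝ) < t := by exact_mod_cast ht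
  have ht1 : (1 : ℝ) ≤ t := by exact_mod_cast ht
  have htn' : (t : ℝ) ≤ n := by exact_mod_cast htn
  have hn0 : (0 : ℝ) < n := by linarith
  obtain ⟨p, hp⟩ : ∃ p : ℝ, p = Real.sqrt t := ⟨_, rfl⟩
  have hp1 : 1 ≤ p := by
    rw [hp]
    exact Real.one_le_sqrt.2 ht1
  have hp0 : 0 < p := by linarith
  have hpt : p * p = t := by rw [hp]; exact Real.mul_self_sqrt ht0.le
  obtain ⟨ℓ, hℓ⟩ : ∃ ℓ : ℝ, ℓ = Real.log (2 * t + 1) := ⟨_, rfl⟩
  have hℓ0 : 0 ≤ ℓ := by rw [hℓ]; exact Real.log_nonneg (by linarith)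
  have hℓ1 : ℓ ≤ 2 + Real.log t := by
    have h1 : (2 * (t : ℝ) + 1) ≤ 3 * t := by linarith
    have h2 := Real.log_le_log (by positivity) h1
    rw [Real.log_mul (by norm_num) ht0.ne'] at h2
    have h3 : Real.log 3 ≤ 3 - 1 := Real.log_le_sub_one_of_pos (by norm_num)
    rw [hℓ]
    linarith
  have hlog : 0 ≤ Real.log t := Real.log_nonneg ht1
  have hθ : 0 < p⁻¹ := by positivity
  have hθ1 : p⁻¹ ≤ 1 := inv_le_one_of_one_le₀ hp1
  have hθt : (p⁻¹) ^ 2 * t = 1 := by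
    rw [← hpt]
    field_simp
  have hθt' : p⁻¹ * t = p := by
    rw [← hpt]
    field_simp
  have h1 := BM_avg (n := n) hμ (h := h) hθ hθ1 ht htn
    (B := fun _ _ x y => δ * |(y : ℝ) - x - v * t|)
    (fun _ _ _ => EMom.const _) (fun _ _ _ _ _ _ => rfl)
    (c := Real.log (2 * t + 1) + Cc μ * (p⁻¹) ^ 2 * t + p⁻¹ * t * D)
    (add_nonneg (add_nonneg (Real.log_nonneg (by linarith)) (by positivity)) (by positivity))
    (fun k x => Drift_blockQ hμ hA hθ hθ1 t k x)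
  have h2 : ∑ k ∈ range (n - t + 1), EA μ h n
      (fun _ s => δ * |((pos s (k + t) : ℤ) : ℝ) - ((pos s k : ℤ) : ℝ) - v * t|) =
      δ * ∑ k ∈ range (n - t + 1), EA μ h n
        (fun _ s => |(pos s (k + t) : ℝ) - pos s k - v * t|) := by
    rw [Finset.mul_sum]
    refine Finset.sum_congr rfl fun k _ => ?_
    rw [← EA_const_mul]
  rw [h2] at h1
  have h3 := mul_eps_le (μ := μ) ht htn
  rw [← hp, ← hℓ] at h3
  have h4 : Cc μ * (p⁻¹) ^ 2 * t = Cc μ := by rw [mul_assoc, hθt, mul_one]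
  rw [inv_inv, h4, ← hℓ, hθt'] at h1
  obtain ⟨S, hS⟩ : ∃ S : ℝ, S = ∑ k ∈ range (n - t + 1), EA μ h n
        (fun _ s => |(pos s (k + t) : ℝ) - pos s k - v * t|) := ⟨_, rfl⟩
  rw [← hS] at h1 ⊢
  rw [← hp]
  have h5 : p * (n * (ℓ + Cc μ + p * D) + 2 * t * (ℓ + Cc μ)) ≤
      n * (p * (3 * (ℓ + Cc μ))) + n * (D * t) := by
    have h6 : (2 * (t : ℝ)) * (ℓ + Cc μ) ≤ 2 * n * (ℓ + Cc μ) :=
      mul_le_mul_of_nonneg_right (by linarith) (by linarith)
    have h7 : p * (n * (p * D)) = n * (D * t) := by rw [← hpt]; ring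
    have h8 := mul_le_mul_of_nonneg_left h6 hp0.le
    have h9 : p * (n * (ℓ + Cc μ + p * D) + 2 * t * (ℓ + Cc μ)) =
        p * (n * (ℓ + Cc μ)) + p * (n * (p * D)) + p * (2 * t * (ℓ + Cc μ)) := by ring
    rw [h9, h7]
    linarith
  have h7 : δ * S ≤ n * (p * (4 * (ℓ + Cc μ) + 2) + D * t) := by
    have h8 : n * (p * (4 * (ℓ + Cc μ) + 2) + D * t) =
        n * (p * (3 * (ℓ + Cc μ))) + n * (D * t) + n * (p * (ℓ + 2 + Cc μ)) := by ring
    rw [h8]
    exact h1.trans (add_le_add h5 h3)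
  have h9 : n * (p * (4 * (ℓ + Cc μ) + 2) + D * t) ≤
      n * ((10 + 4 * Cc μ) * (p * (1 + Real.log t)) + D * t) := by
    refine mul_le_mul_of_nonneg_left ?_ hn0.le
    have h11 : 4 * (ℓ + Cc μ) + 2 ≤ (10 + 4 * Cc μ) * (1 + Real.log t) := by
      nlinarith [mul_nonneg hC hlog]
    have h12 := mul_le_mul_of_nonneg_left h11 hp0.le
    linarith
  have h10 : δ * S ≤ δ * (n * (((10 + 4 * Cc μ) * (p * (1 + Real.log t)) + D * t) / δ)) := by
    refine (h7.trans h9).trans (le_of_eq ?_)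
    field_simp
  exact le_of_mul_le_mul_left h10 hδ

end

end Pool.Agent.W_7d29a1_h47
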