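import Pool.Agent.W_7d29a1_h47.CloseU

/-!
# Averages of the positive part of the tube sums
-/

namespace Pool.Agent.W_7d29a1_h47

open MeasureTheory ProbabilityTheory Finset

noncomputable section

variable {μ : Measure ℝ} [IsProbabilityMeasure μ]

/-- The constant of the averages. -/
def CU (μ : Measure ℝ) : ℝ := 21 + 5 * Cc μ

lemma AvgB_max_emom {φ : ℝ → ℝ} (hφm : Measurable φ) (hφ1 : ∀ u, |φ u| ≤ 1)
    (v : ℝ) (w : ℕ) (k : ℕ) (x : ℤ) (T : ℕ) :
    EMom (law μ) (fun g : Env => max (tubeX φ v w g k x T) 0) := by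
  have h := CloseU_tube_emom (μ := μ) hφm hφ1 v w k x T
  refine h.mono (h.measurable.max measurable_const) fun g => ?_
  rw [abs_of_nonneg (le_max_right _ _)]
  exact max_le (le_abs_self _) (abs_nonneg _)

/-- **Positive part of the tube sums.** Proof. As `closeU` (`CloseU.lean`): `BM_avg` with
`B g k x y = λ max (tubeX φ v w g k x T) 0`, `λ = 1/√w`, `θ = 1/√T` (`2θ ≤ 1`). Cauchy–Schwarz
(`CloseU_cs`): `∫ (e^B Kp)^θ ≤ (∫ e^{2θλ X⁺})^{1/2} (∫ Kp^{2θ})^{1/2}`, where
`e^{2θλ X⁺} ≤ 1 + e^{2θλ X}`, so `∫ e^{2θλX⁺} ≤ 1 + e^{4θ²λ² 5wT} = 1 + e^{20} ≤ e^{21}` (`tube_exp`), and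
`∫ Kp^{2θ} ≤ e^{2θTΛ + 4Cc}` (`integral_Kp_rpow`). So `c = log (2T+1) + 11 + 2 Cc`. By `BM_avg` and
`mul_eps_le` the sum of the `λ X⁺` is at most
`n √T (4 log (2T+1) + 13 + 5 Cc) ≤ n √T (21 + 5 Cc) (1 + log T)` (`log (2T+1) ≤ 2 + log T`). Multiply
by `√w`. The functional `max X 0` has all exponential moments and depends on the same rows as `X`. -/
theorem tubeQ (hμ : EM μ) {φ : ℝ → ℝ} (hφm : Measurable φ) (hφ1 : ∀ u, |φ u| ≤ 1)
    (hφ0 : ∫ u, φ u ∂μ = 0) (h v : ℝ) {w T n : ℕ} (hw : 1 ≤ w) (hT : 4 ≤ T) (hTn : T ≤ n) :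
    ∑ k ∈ range (n - T + 1), EA μ h n (fun g s => max (tubeX φ v w g k (pos s k) T) 0) ≤
      n * (CU μ * (Real.sqrt w * Real.sqrt T * (1 + Real.log T))) := by
  have hC0 : 0 ≤ Cc μ := by
    unfold Cc
    positivity
  have hw1 : (1 : ℝ) ≤ w := by exact_mod_cast hw
  have hT4 : (4 : ℝ) ≤ T := by exact_mod_cast hT
  have hTn' : (T : ℝ) ≤ n := by exact_mod_cast hTn
  have hsw : 0 < Real.sqrt w := Real.sqrt_pos.2 (by linarith)
  have hsT : 0 < Real.sqrt T := Real.sqrt_pos.2 (by linarith)
  have hsw2 : Real.sqrt w ^ 2 = w := Real.sq_sqrt (by linarith)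
  have hsT2 : Real.sqrt T ^ 2 = T := Real.sq_sqrt (by linarith)
  have hsT1 : 2 ≤ Real.sqrt T := by
    have : Real.sqrt 4 ≤ Real.sqrt T := Real.sqrt_le_sqrt hT4
    have h4 : Real.sqrt 4 = 2 := by
      rw [show (4 : ℝ) = 2 ^ 2 by norm_num, Real.sqrt_sq (by norm_num)]
    linarith
  set lam : ℝ := (Real.sqrt w)⁻¹ with hlam
  set θ : ℝ := (Real.sqrt T)⁻¹ with hθdef
  have hlam0 : 0 ≤ lam := (inv_pos.2 hsw).le
  have hθ : 0 < θ := inv_pos.2 hsT
  have hθ2 : 2 * θ ≤ 1 := by
    have h1 : θ * Real.sqrt T = 1 := inv_mul_cancel₀ hsT.ne'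
    nlinarith
  have hθ1 : θ ≤ 1 := by linarith
  have hθT : θ ^ 2 * T = 1 := by
    rw [hθdef, inv_pow, hsT2, inv_mul_cancel₀ (by linarith)]
  have hlw : lam ^ 2 * w = 1 := by
    rw [hlam, inv_pow, hsw2, inv_mul_cancel₀ (by linarith)]
  have hlog1 : 0 ≤ Real.log (2 * T + 1) := Real.log_nonneg (by linarith)
  have hlogT : 0 ≤ Real.log T := Real.log_nonneg (by linarith)
  have hlog2 : Real.log (2 * T + 1) ≤ 2 + Real.log T := by
    have h1 : Real.log (2 * T + 1) ≤ Real.log (Real.exp 2 * T) := by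
      refine Real.log_le_log (by linarith) ?_
      have h2 : (3 : ℝ) ≤ Real.exp 2 := by
        have := Real.add_one_le_exp (2 : ℝ)
        linarith
      nlinarith
    rwa [Real.log_mul (Real.exp_pos _).ne' (by linarith), Real.log_exp] at h1
  set c : ℝ := Real.log (2 * T + 1) + (11 + 2 * Cc μ) with hc
  have hc0 : 0 ≤ c := by rw [hc]; linarith
  have hkey := BM_avg (μ := μ) hμ (h := h) (θ := θ) hθ hθ1 (T := T) (n := n) (by omega) hTn
    (B := fun g k x _ => lam * max (tubeX φ v w g k x T) 0)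
    (fun k x _ => (AvgB_max_emom hφm hφ1 v w k x T).const_mul lam)
    (fun k x _ g g' hg => by
      have := CloseU_tube_dep φ v w k x T hg
      simp only at this ⊢
      rw [this])
    (c := c) hc0
    (by
      intro k x
      have hone : ∀ y : ℤ, ∫ g, (Real.exp (lam * max (tubeX φ v w g k x T) 0) *
          Kp g h k x T y) ^ θ ∂(law μ) ≤ Real.exp (θ * T * Lam μ h + (11 + 2 * Cc μ)) := by
        intro y
        have hsplit : ∀ g : Env, (Real.exp (lam * max (tubeX φ v w g k x T) 0) *
            Kp g h k x T y) ^ θ =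
            Real.exp (θ * lam * max (tubeX φ v w g k x T) 0) * Kp g h k x T y ^ θ := by
          intro g
          rw [Real.mul_rpow (Real.exp_pos _).le (Kp_nonneg _ _ _ _ _ _), ← Real.exp_mul]
          congr 2
          ring
        simp only [hsplit]
        have hsq1 : ∀ g : Env, Real.exp (θ * lam * max (tubeX φ v w g k x T) 0) ^ 2 ≤
            1 + Real.exp ((2 * θ * lam) * tubeX φ v w g k x T) := by
          intro g
          rw [← Real.exp_nat_mul]
          rcases le_total (tubeX φ v w g k x T) 0 with h0 | h0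
          · rw [max_eq_right h0, mul_zero, mul_zero, Real.exp_zero]
            linarith [Real.exp_pos ((2 * θ * lam) * tubeX φ v w g k x T)]
          · rw [max_eq_left h0]
            have h1 : ((2 : ℕ) : ℝ) * (θ * lam * tubeX φ v w g k x T) =
                (2 * θ * lam) * tubeX φ v w g k x T := by
              push_cast
              ring
            rw [h1]
            linarith
        have hsq2 : ∀ g : Env, (Kp g h k x T y ^ θ) ^ 2 = Kp g h k x T y ^ (2 * θ) := by
          intro g
          rw [← Real.rpow_natCast, ← Real.rpow_mul (Kp_nonneg _ _ _ _ _ _)]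
          congr 1
          push_cast
          ring
        have hE := CloseU_tube_emom (μ := μ) hφm hφ1 v w k x T
        have hE' := AvgB_max_emom (μ := μ) hφm hφ1 v w k x T
        have hP1 : PMom (law μ) (fun g : Env =>
            Real.exp (θ * lam * max (tubeX φ v w g k x T) 0)) :=
          hE'.exp_pmom _
        have hP2 : PMom (law μ) (fun g : Env => Kp g h k x T y ^ θ) :=
          CloseU_Kp_pmom hμ h k x T y hθ.le hθ1
        have hI1 : ∫ g, Real.exp (θ * lam * max (tubeX φ v w g k x T) 0) ^ 2 ∂(law μ) ≤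
            Real.exp 21 := by
          have i1 : ∫ g, Real.exp (θ * lam * max (tubeX φ v w g k x T) 0) ^ 2 ∂(law μ) ≤
              ∫ g, (1 + Real.exp ((2 * θ * lam) * tubeX φ v w g k x T)) ∂(law μ) :=
            integral_mono hP1.sq_integrable ((integrable_const _).add (hE.integrable_exp _)) hsq1
          have i2 : ∫ g, (1 + Real.exp ((2 * θ * lam) * tubeX φ v w g k x T)) ∂(law μ) =
              1 + ∫ g, Real.exp ((2 * θ * lam) * tubeX φ v w g k x T) ∂(law μ) := by
            rw [integral_add (integrable_const _) (hE.integrable_exp _), integral_const]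
            simp
          have i3 : ∫ g, Real.exp ((2 * θ * lam) * tubeX φ v w g k x T) ∂(law μ) ≤
              Real.exp 20 := by
            refine (tube_exp hφm hφ1 hφ0 v hw k x T (2 * θ * lam)).trans
              (Real.exp_le_exp.2 (le_of_eq ?_))
            calc (2 * θ * lam) ^ 2 * (5 * w * T) = 20 * (lam ^ 2 * w) * (θ ^ 2 * T) := by ring
              _ = 20 := by rw [hlw, hθT]; ring
          have i4 : 1 + Real.exp 20 ≤ Real.exp 21 := by
            have e1 : Real.exp 21 = Real.exp 1 * Real.exp 20 := by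
              rw [← Real.exp_add]
              norm_num
            have e2 : 2 ≤ Real.exp 1 := by
              have := Real.add_one_le_exp (1 : ℝ)
              linarith
            have e3 : 1 ≤ Real.exp 20 := Real.one_le_exp (by norm_num)
            rw [e1]
            nlinarith
          linarith
        have hI2 : ∫ g, (Kp g h k x T y ^ θ) ^ 2 ∂(law μ) ≤
            Real.exp (2 * (θ * T * Lam μ h) + 4 * Cc μ) := by
          simp only [hsq2]
          have h3 := integral_Kp_rpow (μ := μ) hμ h h 0 k x T y (θ := 2 * θ) (by linarith) hθ2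
          simp only [Real.exp_zero, one_mul, sub_self, zero_mul, zero_add] at h3
          refine h3.trans (Real.exp_le_exp.2 (le_of_eq ?_))
          calc 2 * θ * (T * Lam μ h) + Cc μ * (2 * θ) ^ 2 * T =
                2 * (θ * T * Lam μ h) + 4 * Cc μ * (θ ^ 2 * T) := by ring
            _ = 2 * (θ * T * Lam μ h) + 4 * Cc μ := by rw [hθT]; ring
        have h4 := CloseU_cs (P := law μ) hP1.sq_integrable hP2.sq_integrable
          (hP1.mul hP2).integrable hI1 hI2
        refine h4.trans (Real.exp_le_exp.2 ?_)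
        linarith
      refine (Finset.sum_le_sum fun y _ => hone y).trans ?_
      rw [Finset.sum_const, nsmul_eq_mul, Int.card_Icc]
      have hcard : (((x + T + 1 - (x - T)).toNat : ℕ) : ℝ) = 2 * T + 1 := by
        have h5 : (x + T + 1 - (x - T) : ℤ).toNat = 2 * T + 1 := by omega
        rw [h5]
        push_cast
        ring
      rw [hcard]
      have h6 : Real.exp (θ * T * Lam μ h + c) =
          (2 * T + 1) * Real.exp (θ * T * Lam μ h + (11 + 2 * Cc μ)) := by
        rw [hc, show θ * T * Lam μ h + (Real.log (2 * T + 1) + (11 + 2 * Cc μ)) =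
          Real.log (2 * T + 1) + (θ * T * Lam μ h + (11 + 2 * Cc μ)) by ring, Real.exp_add,
          Real.exp_log (by linarith)]
      rw [h6])
  simp only [EA_const_mul] at hkey
  rw [← Finset.mul_sum] at hkey
  have heps := mul_eps_le (μ := μ) (T := T) (n := n) (by omega) hTn
  have hθinv : θ⁻¹ = Real.sqrt T := by rw [hθdef, inv_inv]
  rw [hθinv] at hkey
  set S : ℝ := ∑ k ∈ range (n - T + 1),
    EA μ h n (fun g s => max (tubeX φ v w g k (pos s k) T) 0) with hS
  have hn0 : (0 : ℝ) ≤ n := Nat.cast_nonneg n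
  have h10 : lam * S ≤ n * (Real.sqrt T * (CU μ * (1 + Real.log T))) := by
    have h11 : Cc μ * θ ^ 2 * T = Cc μ := by
      rw [mul_assoc, hθT, mul_one]
    rw [h11] at hkey
    have h12 : 2 * (T : ℝ) * (Real.log (2 * T + 1) + Cc μ) ≤
        n * (2 * (Real.log (2 * T + 1) + Cc μ)) := by
      have h13 : 0 ≤ Real.log (2 * T + 1) + Cc μ := by linarith
      nlinarith
    have h14 : Real.sqrt T * (n * c + 2 * T * (Real.log (2 * T + 1) + Cc μ)) ≤
        Real.sqrt T * (n * c + n * (2 * (Real.log (2 * T + 1) + Cc μ))) :=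
      mul_le_mul_of_nonneg_left (by linarith) hsT.le
    have h15 : Real.sqrt T * (n * c + n * (2 * (Real.log (2 * T + 1) + Cc μ))) +
        n * (Real.sqrt T * (Real.log (2 * T + 1) + 2 + Cc μ)) =
        n * (Real.sqrt T * (4 * Real.log (2 * T + 1) + 13 + 5 * Cc μ)) := by
      rw [hc]
      ring
    have h16 : 4 * Real.log (2 * T + 1) + 13 + 5 * Cc μ ≤
        CU μ * (1 + Real.log T) := by
      unfold CU
      nlinarith [mul_nonneg hC0 hlogT]
    have h17 : n * (Real.sqrt T * (4 * Real.log (2 * T + 1) + 13 + 5 * Cc μ)) ≤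
        n * (Real.sqrt T * (CU μ * (1 + Real.log T))) :=
      mul_le_mul_of_nonneg_left (mul_le_mul_of_nonneg_left h16 hsT.le) hn0
    linarith
  have h18 : S = Real.sqrt w * (lam * S) := by
    rw [← mul_assoc, hlam, mul_inv_cancel₀ hsw.ne', one_mul]
  rw [h18]
  refine (mul_le_mul_of_nonneg_left h10 hsw.le).trans (le_of_eq ?_)
  ring

end

end Pool.Agent.W_7d29a1_h47
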