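import Pool.Agent.W_7d29a1_h47q.AvgB
import Pool.Agent.W_7d29a1_h47.UiA

/-!
# Small point-to-point partition functions are rare along the polymer
-/

namespace Pool.Agent.W_7d29a1_h47

open MeasureTheory ProbabilityTheory Finset

noncomputable section

variable {μ : Measure ℝ} [IsProbabilityMeasure μ]

/-- The bonus. -/
def AvgC_B (μ : Measure ℝ) (h : ℝ) (R : ℕ) (g : Env) (k : ℕ) (x y : ℤ) : ℝ :=
  max (R * Lam μ h - Real.log (Kp g h k x R y)) 0 / 2

lemma AvgC_pt {a K θ : ℝ} (hK : 0 ≤ K) (hθ : 0 < θ) :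
    (Real.exp (max (a - Real.log K) 0 / 2) * K) ^ θ ≤
      Real.exp (θ * a / 2) * K ^ (θ / 2) + K ^ θ := by
  rcases hK.eq_or_lt with h0 | h0
  · rw [← h0, mul_zero, Real.zero_rpow hθ.ne', Real.zero_rpow (by positivity)]
    simp
  · rcases le_total (a - Real.log K) 0 with h1 | h1
    · rw [max_eq_right h1, zero_div, Real.exp_zero, one_mul]
      have : 0 ≤ Real.exp (θ * a / 2) * K ^ (θ / 2) :=
        mul_nonneg (Real.exp_pos _).le (Real.rpow_nonneg hK _)
      linarith
    · rw [max_eq_left h1]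
      have h2 : (Real.exp ((a - Real.log K) / 2) * K) ^ θ =
          Real.exp (θ * a / 2) * K ^ (θ / 2) := by
        have h3 : Real.exp ((a - Real.log K) / 2) * K =
            Real.exp ((a - Real.log K) / 2 + Real.log K) := by
          rw [Real.exp_add, Real.exp_log h0]
        rw [h3, Real.rpow_def_of_pos h0, ← Real.exp_mul, ← Real.exp_add]
        congr 1
        ring
      rw [h2]
      have : 0 ≤ K ^ θ := Real.rpow_nonneg hK _
      linarith

/-- One block. Proof. `e^B Kp ≤ e^{RΛ/2} Kp^{1/2} + Kp` (if `Kp = 0` the left side is `0`; otherwise it is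
`max (e^{RΛ/2} Kp^{1/2}) Kp`), so `(e^B Kp)^θ ≤ e^{θRΛ/2} Kp^{θ/2} + Kp^θ` (`(a + b)^θ ≤ a^θ + b^θ`).
`integral_Kp_rpow` with `h' = h`, `b = 0` for the exponents `θ/2` and `θ`: both integrals are at most
`e^{θRΛ + Cc θ² R}`. There are `2R + 1` values of `y`. -/
lemma AvgC_block (hμ : EM μ) (h : ℝ) {θ : ℝ} (hθ : 0 < θ) (hθ1 : θ ≤ 1) (R k : ℕ) (x : ℤ) :
    ∑ y ∈ Icc (x - R) (x + R),
      ∫ g, (Real.exp (AvgC_B μ h R g k x y) * Kp g h k x R y) ^ θ ∂(law μ) ≤
        Real.exp (θ * R * Lam μ h + (Real.log (2 * R + 1) + Real.log 2 + Cc μ * θ ^ 2 * R)) := by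
  have hC : 0 ≤ Cc μ := Drift_Cc_nonneg
  have hR0 : (0 : ℝ) ≤ R := Nat.cast_nonneg R
  have h1 : ∀ y ∈ Icc (x - (R : ℤ)) (x + R),
      ∫ g, (Real.exp (AvgC_B μ h R g k x y) * Kp g h k x R y) ^ θ ∂(law μ) ≤
        2 * Real.exp (θ * R * Lam μ h + Cc μ * θ ^ 2 * R) := by
    intro y _
    have i1 : Integrable (fun g : Env => Kp g h k x R y ^ (θ / 2)) (law μ) :=
      Block_rpow_int (BlockB_Kp hμ h k x R y) (fun g => Kp_nonneg _ _ _ _ _ _) (by positivity)
        (by linarith)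
    have i2 : Integrable (fun g : Env => Kp g h k x R y ^ θ) (law μ) :=
      Block_rpow_int (BlockB_Kp hμ h k x R y) (fun g => Kp_nonneg _ _ _ _ _ _) hθ hθ1
    have i3 := (i1.const_mul (Real.exp (θ * (R * Lam μ h) / 2))).add i2
    have h2 : ∫ g, (Real.exp (AvgC_B μ h R g k x y) * Kp g h k x R y) ^ θ ∂(law μ) ≤
        ∫ g, (Real.exp (θ * (R * Lam μ h) / 2) * Kp g h k x R y ^ (θ / 2) +
          Kp g h k x R y ^ θ) ∂(law μ) := by
      refine integral_mono_of_nonneg (Filter.Eventually.of_forall fun g => ?_) i3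
        (Filter.Eventually.of_forall fun g => ?_)
      · exact Real.rpow_nonneg (mul_nonneg (Real.exp_pos _).le (Kp_nonneg _ _ _ _ _ _)) _
      · exact AvgC_pt (Kp_nonneg _ _ _ _ _ _) hθ
    rw [integral_add (i1.const_mul _) i2, integral_const_mul] at h2
    have h3 := integral_Kp_rpow (μ := μ) hμ h h 0 k x R y (θ := θ / 2) (by positivity)
      (by linarith)
    have h4 := integral_Kp_rpow (μ := μ) hμ h h 0 k x R y (θ := θ) hθ hθ1
    simp only [Real.exp_zero, one_mul, sub_self, zero_mul, zero_add] at h3 h4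
    have h5 : Real.exp (θ * (R * Lam μ h) / 2) *
        ∫ g, Kp g h k x R y ^ (θ / 2) ∂(law μ) ≤
        Real.exp (θ * R * Lam μ h + Cc μ * θ ^ 2 * R) := by
      refine (mul_le_mul_of_nonneg_left h3 (Real.exp_pos _).le).trans ?_
      rw [← Real.exp_add]
      refine Real.exp_le_exp.2 ?_
      have h6 : 0 ≤ Cc μ * θ ^ 2 * R := by positivity
      nlinarith
    have h6 : ∫ g, Kp g h k x R y ^ θ ∂(law μ) ≤
        Real.exp (θ * R * Lam μ h + Cc μ * θ ^ 2 * R) := by
      refine h4.trans (le_of_eq ?_)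
      congr 1
      ring
    linarith
  refine (Finset.sum_le_sum h1).trans (le_of_eq ?_)
  rw [Finset.sum_const, Int.card_Icc, nsmul_eq_mul]
  have h2 : (x + R + 1 - (x - R)).toNat = 2 * R + 1 := by omega
  rw [h2]
  have h3 : (((2 * R + 1 : ℕ)) : ℝ) = Real.exp (Real.log (2 * R + 1)) := by
    rw [Real.exp_log (by positivity)]
    push_cast
    rfl
  have h4 : (2 : ℝ) = Real.exp (Real.log 2) := (Real.exp_log (by norm_num)).symm
  rw [h3]
  nth_rewrite 2 [h4]
  rw [← Real.exp_add, ← Real.exp_add]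
  congr 1
  ring

/-- **Small kernels are rare.** Proof. `BM_avg` with `B = AvgC_B`, `T = R`, `θ = 1/√R`,
`c = log (2R+1) + log 2 + Cc`, and `mul_eps_le`:
`∑_k EA B ≤ n √R (4 log (2R+1) + 3 + 4 Cc) ≤ n √R (11 + 4 Cc) (1 + log R)`. Along a walk
`Kp g h k (pos s k) R (pos s (k+R)) > 0`, and `Kp < e^{RΛ - Q}` implies
`RΛ - log Kp > Q`, so the indicator is at most `2 B / Q`. (`B` has all exponential moments:
`EMom` of `log Kp` for reachable points, constant otherwise; `dependsOn_Kp`.) -/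
theorem DnQ (hμ : EM μ) (h : ℝ) {R n : ℕ} (hR : 1 ≤ R) (hRn : R ≤ n) {Q : ℝ} (hQ : 0 < Q) :
    ∑ k ∈ range (n - R + 1), EA μ h n (fun g s =>
        ind (Kp g h k (pos s k) R (pos s (k + R)) < Real.exp (R * Lam μ h - Q))) ≤
      n * (2 * CU μ * (Real.sqrt R * (1 + Real.log R)) / Q) := by
  have hC : 0 ≤ Cc μ := Drift_Cc_nonneg
  have hR0 : (0 : ℝ) < R := by exact_mod_cast hR
  have hR1 : (1 : ℝ) ≤ R := by exact_mod_cast hR
  have hRn' : (R : ℝ) ≤ n := by exact_mod_cast hRn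
  have hn0 : (0 : ℝ) < n := by linarith
  obtain ⟨p, hp⟩ : ∃ p : ℝ, p = Real.sqrt R := ⟨_, rfl⟩
  have hp1 : 1 ≤ p := by
    rw [hp]
    exact Real.one_le_sqrt.2 hR1
  have hp0 : 0 < p := by linarith
  have hpt : p * p = R := by rw [hp]; exact Real.mul_self_sqrt hR0.le
  obtain ⟨ℓ, hℓ⟩ : ∃ ℓ : ℝ, ℓ = Real.log (2 * R + 1) := ⟨_, rfl⟩
  have hℓ0 : 0 ≤ ℓ := by rw [hℓ]; exact Real.log_nonneg (by linarith)
  have hℓ1 : ℓ ≤ 2 + Real.log R := by
    have h1 : (2 * (R : ℝ) + 1) ≤ 3 * R := by linarith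
    have h2 := Real.log_le_log (by positivity) h1
    rw [Real.log_mul (by norm_num) hR0.ne'] at h2
    have h3 : Real.log 3 ≤ 3 - 1 := Real.log_le_sub_one_of_pos (by norm_num)
    rw [hℓ]
    linarith
  have hlog : 0 ≤ Real.log R := Real.log_nonneg hR1
  have hlog2 : Real.log 2 ≤ 1 := by
    have := Real.log_le_sub_one_of_pos (show (0 : ℝ) < 2 by norm_num)
    linarith
  have hlog20 : 0 ≤ Real.log 2 := Real.log_nonneg (by norm_num)
  have hθ : 0 < p⁻¹ := by positivity
  have hθ1 : p⁻¹ ≤ 1 := inv_le_one_of_one_le₀ hp1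
  have hθt : (p⁻¹) ^ 2 * R = 1 := by
    rw [← hpt]
    field_simp
  have hE : ∀ (k : ℕ) (x y : ℤ), EMom (law μ) (fun g : Env => AvgC_B μ h R g k x y) := by
    intro k x y
    have h1 : EMom (law μ) (fun g : Env => R * Lam μ h - Real.log (Kp g h k x R y)) :=
      (EMom.const _).sub (EMom_logKp hμ h k x R y)
    refine h1.mono ((h1.measurable.max measurable_const).div_const 2) fun g => ?_
    unfold AvgC_B
    rw [abs_of_nonneg (div_nonneg (le_max_right _ _) (by norm_num))]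
    have h2 : max (R * Lam μ h - Real.log (Kp g h k x R y)) 0 ≤
        |R * Lam μ h - Real.log (Kp g h k x R y)| := max_le (le_abs_self _) (abs_nonneg _)
    have h3 : 0 ≤ max (R * Lam μ h - Real.log (Kp g h k x R y)) 0 := le_max_right _ _
    linarith
  have h1 := BM_avg (n := n) hμ (h := h) hθ hθ1 hR hRn
    (B := fun g k x y => AvgC_B μ h R g k x y) hE
    (fun k x y g g' hg => by
      have := dependsOn_Kp h k x R y hg
      simp only at this
      simp only [AvgC_B, this])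
    (c := Real.log (2 * R + 1) + Real.log 2 + Cc μ * (p⁻¹) ^ 2 * R)
    (add_nonneg (add_nonneg (Real.log_nonneg (by linarith)) hlog20) (by positivity))
    (fun k x => AvgC_block hμ h hθ hθ1 R k x)
  have h3 := mul_eps_le (μ := μ) hR hRn
  rw [← hp, ← hℓ] at h3
  have h4 : Cc μ * (p⁻¹) ^ 2 * R = Cc μ := by rw [mul_assoc, hθt, mul_one]
  rw [inv_inv, h4, ← hℓ] at h1
  obtain ⟨S, hS⟩ : ∃ S : ℝ, S = ∑ k ∈ range (n - R + 1), EA μ h n
        (fun g s => AvgC_B μ h R g k (pos s k) (pos s (k + R))) := ⟨_, rfl⟩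
  rw [← hS] at h1
  rw [← hp]
  have h7 : S ≤ n * (CU μ * (p * (1 + Real.log R))) := by
    have h5 : p * (n * (ℓ + Real.log 2 + Cc μ) + 2 * R * (ℓ + Cc μ)) ≤
        p * (n * (ℓ + 1 + Cc μ) + 2 * n * (ℓ + Cc μ)) := by
      refine mul_le_mul_of_nonneg_left (add_le_add ?_ ?_) hp0.le
      · exact mul_le_mul_of_nonneg_left (by linarith) hn0.le
      · exact mul_le_mul_of_nonneg_right (by linarith) (by linarith)
    have h8 : p * (n * (ℓ + 1 + Cc μ) + 2 * n * (ℓ + Cc μ)) + n * (p * (ℓ + 2 + Cc μ)) =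
        n * (p * (4 * ℓ + 3 + 4 * Cc μ)) := by ring
    have h9 : 4 * ℓ + 3 + 4 * Cc μ ≤ CU μ * (1 + Real.log R) := by
      unfold CU
      nlinarith [mul_nonneg hC hlog]
    have h10 := mul_le_mul_of_nonneg_left (mul_le_mul_of_nonneg_left h9 hp0.le) hn0.le
    have h11 : n * (p * (CU μ * (1 + Real.log R))) = n * (CU μ * (p * (1 + Real.log R))) := by
      ring
    linarith
  have h12 : ∑ k ∈ range (n - R + 1), EA μ h n (fun g s =>
        ind (Kp g h k (pos s k) R (pos s (k + R)) < Real.exp (R * Lam μ h - Q))) ≤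
      2 / Q * S := by
    rw [hS, Finset.mul_sum]
    refine Finset.sum_le_sum fun k hk => ?_
    have hk' : k + R ≤ n := by
      have := Finset.mem_range.1 hk
      omega
    rw [← EA_const_mul]
    refine EA_mono (PF.ind fun s _ =>
      measurableSet_lt (measurable_Kp h k (pos s k) R (pos s (k + R))) measurable_const)
      (fun s _ => ((hE k _ _).const_mul _).pmom) fun g s hs => ?_
    have hB0 : 0 ≤ AvgC_B μ h R g k (pos s k) (pos s (k + R)) :=
      div_nonneg (le_max_right _ _) (by norm_num)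
    by_cases hcase : Kp g h k (pos s k) R (pos s (k + R)) < Real.exp (R * Lam μ h - Q)
    · rw [ind_true hcase]
      have hpos : 0 < Kp g h k (pos s k) R (pos s (k + R)) := by
        refine Kp_pos (s := cut R (shf k s)) (cut_mem _ _) ?_
        rw [pos_cut_le le_rfl, pos_add]
      have h13 := Real.log_lt_log hpos hcase
      rw [Real.log_exp] at h13
      have h14 : Q ≤ 2 * AvgC_B μ h R g k (pos s k) (pos s (k + R)) := by
        have h15 := le_max_left
          (R * Lam μ h - Real.log (Kp g h k (pos s k) R (pos s (k + R)))) 0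
        unfold AvgC_B
        linarith
      rw [div_mul_eq_mul_div, le_div_iff₀ hQ, one_mul]
      exact h14
    · rw [ind_false hcase]
      positivity
  refine h12.trans ?_
  have h16 : (n : ℝ) * (2 * CU μ * (p * (1 + Real.log R)) / Q) =
      2 / Q * (n * (CU μ * (p * (1 + Real.log R)))) := by ring
  rw [h16]
  exact mul_le_mul_of_nonneg_left h7 (by positivity)

end

end Pool.Agent.W_7d29a1_h47
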