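import Pool.Agent.W_7d29a1_h47q.Sys
import Pool.Agent.W_7d29a1_h47.SiteK

/-!
# The response inequality for Gibbs systems
-/

namespace Pool.Agent.W_7d29a1_h47

open MeasureTheory ProbabilityTheory Finset

noncomputable section

variable {ι : Type*} {μ : Measure ℝ} [IsProbabilityMeasure μ]

/-- Auxiliary: the weight after changing one site. -/
lemma Resp_wt (c : ι → ℝ) (A : ι → Finset (ℕ × ℤ)) (g : Env) (z : ℕ × ℤ) (u : ℝ) (i : ι) :
    c i * Real.exp (gs (Function.update g z u) (A i)) =
      c i * Real.exp (gs (Function.update g z 0) (A i)) *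
        (1 - ind (z ∈ A i) + ind (z ∈ A i) * Real.exp u) := by
  by_cases hv : z ∈ A i
  · rw [gs_update u hv, ind_true hv, Real.exp_add]
    ring
  · rw [gs_update_not u hv, gs_update_not 0 hv, ind_false hv]
    ring

lemma Resp_sum (I : Finset ι) (c : ι → ℝ) (A : ι → Finset (ℕ × ℤ)) (g : Env) (z : ℕ × ℤ) (u : ℝ)
    (F : ι → ℝ) :
    ∑ i ∈ I, c i * Real.exp (gs (Function.update g z u) (A i)) * F i =
      (∑ i ∈ I, c i * Real.exp (gs (Function.update g z 0) (A i)) *
        ((1 - ind (z ∈ A i)) * F i)) +
      (∑ i ∈ I, c i * Real.exp (gs (Function.update g z 0) (A i)) * (ind (z ∈ A i) * F i)) *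
        Real.exp u := by
  rw [Finset.sum_mul, ← Finset.sum_add_distrib]
  refine Finset.sum_congr rfl fun i _ => ?_
  rw [Resp_wt c A g z u i]
  ring

lemma Resp_ind_mul (p : Prop) : ind p * ind p = ind p := by
  by_cases hv : p
  · rw [ind_true hv, mul_one]
  · rw [ind_false hv, mul_zero]

/-- Auxiliary: the pointwise inequality in terms of Gibbs averages. -/
lemma Resp_point {p q : ℝ} (hpq : p < q) {I : Finset ι} {c : ι → ℝ} (hc : Adms I c)
    (A : ι → Finset (ℕ × ℤ)) (g : Env) (z : ℕ × ℤ) (E : ι → Prop) (u u' : ℝ) :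
    |phi p q u - phi p q u'| * (1 - Real.exp (-|u - u'|)) *
        ((SA I c A (Function.update g z u) fun i => ind (z ∈ A i)) *
          (SA I c A (Function.update g z u) fun i => ind (¬ E i))) -
      Real.exp |u - u'| *
        (SA I c A (Function.update g z u) fun i => ind (z ∈ A i) * ind (¬ E i)) ≤
    (phi p q u - phi p q u') * ((SA I c A (Function.update g z u) fun i => ind (E i)) -
      (SA I c A (Function.update g z u') fun i => ind (E i))) := by
  set w : ι → ℝ := fun i => c i * Real.exp (gs (Function.update g z 0) (A i)) with hw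
  have hw0 : ∀ i ∈ I, 0 ≤ w i := fun i hi => mul_nonneg (hc.nn i hi) (Real.exp_pos _).le
  set α : ℝ := ∑ i ∈ I, w i * ((1 - ind (z ∈ A i)) * ind (E i)) with hα
  set β : ℝ := ∑ i ∈ I, w i * (ind (z ∈ A i) * ind (E i)) with hβ
  set γ : ℝ := ∑ i ∈ I, w i * (1 - ind (z ∈ A i)) with hγ
  set ε : ℝ := ∑ i ∈ I, w i * ind (z ∈ A i) with hε
  have hα0 : 0 ≤ α := Finset.sum_nonneg fun i hi => mul_nonneg (hw0 i hi)
    (mul_nonneg (by linarith [ind_le_one (z ∈ A i)]) (ind_nonneg _))
  have hβ0 : 0 ≤ β := Finset.sum_nonneg fun i hi => mul_nonneg (hw0 i hi)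
    (mul_nonneg (ind_nonneg _) (ind_nonneg _))
  have hαγ : α ≤ γ := Finset.sum_le_sum fun i hi => mul_le_mul_of_nonneg_left
    (mul_le_of_le_one_right (by linarith [ind_le_one (z ∈ A i)]) (ind_le_one _)) (hw0 i hi)
  have hβε : β ≤ ε := Finset.sum_le_sum fun i hi => mul_le_mul_of_nonneg_left
    (mul_le_of_le_one_right (ind_nonneg _) (ind_le_one _)) (hw0 i hi)
  have hpos : 0 < γ + ε := by
    have : γ + ε = ∑ i ∈ I, w i := by
      rw [hγ, hε, ← Finset.sum_add_distrib]
      refine Finset.sum_congr rfl fun i _ => by ring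
    rw [this]
    obtain ⟨i, hi, h⟩ := hc.ex
    exact Finset.sum_pos' hw0 ⟨i, hi, mul_pos h (Real.exp_pos _)⟩
  have hZ : ∀ v : ℝ, SZ I c A (Function.update g z v) = γ + ε * Real.exp v := by
    intro v
    have := Resp_sum I c A g z v (fun _ => 1)
    simp only [mul_one] at this
    exact this
  have hP : ∀ v : ℝ, (SA I c A (Function.update g z v) fun i => ind (E i)) =
      (α + β * Real.exp v) / (γ + ε * Real.exp v) := by
    intro v
    unfold SA
    rw [hZ, Resp_sum I c A g z v (fun i => ind (E i))]
  have hR : ∀ v : ℝ, (SA I c A (Function.update g z v) fun i => ind (z ∈ A i)) =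
      ε * Real.exp v / (γ + ε * Real.exp v) := by
    intro v
    unfold SA
    rw [hZ, Resp_sum I c A g z v (fun i => ind (z ∈ A i))]
    congr 1
    have h1 : ∑ i ∈ I, c i * Real.exp (gs (Function.update g z 0) (A i)) *
        ((1 - ind (z ∈ A i)) * ind (z ∈ A i)) = 0 :=
      Finset.sum_eq_zero fun i _ => by
        have := Resp_ind_mul (z ∈ A i)
        have h2 : (1 - ind (z ∈ A i)) * ind (z ∈ A i) = 0 := by linear_combination -this
        rw [h2, mul_zero]
    rw [h1, zero_add]
    congr 1
    refine Finset.sum_congr rfl fun i _ => ?_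
    rw [Resp_ind_mul]
  have hN : ∀ v : ℝ, (SA I c A (Function.update g z v) fun i => ind (¬ E i)) =
      1 - (α + β * Real.exp v) / (γ + ε * Real.exp v) := by
    intro v
    rw [← hP v]
    have : (fun i => ind (¬ E i)) = fun i => (1 : ℝ) - ind (E i) := by
      funext i; exact ind_not _
    rw [this, SA_sub, SA_const hc]
  have hY : ∀ v : ℝ, (SA I c A (Function.update g z v) fun i => ind (z ∈ A i) * ind (¬ E i)) =
      (ε - β) * Real.exp v / (γ + ε * Real.exp v) := by
    intro v
    unfold SA
    rw [hZ, Resp_sum I c A g z v (fun i => ind (z ∈ A i) * ind (¬ E i))]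
    congr 1
    have h1 : ∑ i ∈ I, c i * Real.exp (gs (Function.update g z 0) (A i)) *
        ((1 - ind (z ∈ A i)) * (ind (z ∈ A i) * ind (¬ E i))) = 0 :=
      Finset.sum_eq_zero fun i _ => by
        have := Resp_ind_mul (z ∈ A i)
        have h2 : (1 - ind (z ∈ A i)) * (ind (z ∈ A i) * ind (¬ E i)) = 0 := by
          linear_combination -(ind (¬ E i)) * this
        rw [h2, mul_zero]
    rw [h1, zero_add]
    congr 1
    rw [hε, hβ, ← Finset.sum_sub_distrib]
    refine Finset.sum_congr rfl fun i _ => ?_
    rw [ind_not]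
    have := Resp_ind_mul (z ∈ A i)
    simp only [hw]
    linear_combination (c i * Real.exp (gs (Function.update g z 0) (A i)) * (1 - ind (E i))) * this
  rw [hP, hP, hR, hN, hY]
  exact response_pointwise hpq hα0 hβ0 hαγ hβε hpos u u'

/-- **Response inequality** for a Gibbs system: the same statement as `response` in `SiteK.lean`.
Proof. Copy the proofs of `SiteK_point` and `response` (`SiteK.lean`): with
`w i = c i * exp (gs (update g z 0) (A i))` and `vis i = ind (z ∈ A i)` one has
`c i * exp (gs (update g z u) (A i)) = w i * (1 - vis i + vis i * e^u)` (`gs_update`,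
`gs_update_not`), so the Gibbs averages of `ind E`, `ind (z ∈ A i)`, `ind ¬E`, `ind (z ∈ A i ∧ ¬ E)` are
`(α + β e^u)/(γ + ε e^u)`, … as there (`γ + ε = ∑ w i > 0` by `hc.ex`); then
`response_pointwise`, and the abstract integration lemma `SiteK_site` together with
`integral_update z`. Measurability by `measurable_SA`, bounds by `SA_abs_le`. -/
theorem resp (hμ : EM μ) {p q : ℝ} (hpq : p < q) {I : Finset ι} {c : ι → ℝ} (hc : Adms I c)
    (A : ι → Finset (ℕ × ℤ)) (z : ℕ × ℤ) (E : ι → Prop) :
    kmin μ p q * ∫ g : Env, SA I c A g (fun i => ind (z ∈ A i)) * SA I c A g (fun i => ind (¬ E i))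
          ∂(law μ) -
        Mom μ 1 * ∫ g : Env, Real.exp |g z| * SA I c A g (fun i => ind (z ∈ A i ∧ ¬ E i)) ∂(law μ) ≤
      ∫ g : Env, (phi p q (g z) - ∫ u, phi p q u ∂μ) * SA I c A g (fun i => ind (E i)) ∂(law μ) := by
  classical
  set k : ℝ := ∫ u, phi p q u ∂μ with hk
  have hvisA : ∀ i, ind (z ∈ A i ∧ ¬ E i) = ind (z ∈ A i) * ind (¬ E i) := by
    intro i
    rw [ind_and]
  simp only [hvisA]
  have mSA : ∀ F : ι → ℝ, Measurable (fun g : Env => SA I c A g F) := fun F =>
    measurable_SA I c A fun i _ => measurable_const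
  have mcoord : Measurable (fun g : Env => g z) := measurable_pi_apply z
  have hphim := SiteK_phi_meas p q
  have v1 : ∀ g : Env, |SA I c A g fun i => ind (z ∈ A i)| ≤ 1 := fun g =>
    SA_abs_le hc fun i _ => ind_abs _
  have n1 : ∀ g : Env, |SA I c A g fun i => ind (¬ E i)| ≤ 1 := fun g =>
    SA_abs_le hc fun i _ => ind_abs _
  have a1 : ∀ g : Env, |SA I c A g fun i => ind (E i)| ≤ 1 := fun g =>
    SA_abs_le hc fun i _ => ind_abs _
  have y0 : ∀ g : Env, 0 ≤ SA I c A g fun i => ind (z ∈ A i) * ind (¬ E i) := fun g =>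
    SA_nonneg hc fun i _ => mul_nonneg (ind_nonneg _) (ind_nonneg _)
  have y1 : ∀ g : Env, (SA I c A g fun i => ind (z ∈ A i) * ind (¬ E i)) ≤ 1 := fun g =>
    SA_le hc fun i _ => mul_le_one₀ (ind_le_one _) (ind_nonneg _) (ind_le_one _)
  have v0 : ∀ g : Env, 0 ≤ SA I c A g fun i => ind (z ∈ A i) := fun g =>
    SA_nonneg hc fun i _ => ind_nonneg _
  have n0 : ∀ g : Env, 0 ≤ SA I c A g fun i => ind (¬ E i) := fun g =>
    SA_nonneg hc fun i _ => ind_nonneg _
  have I1 : Integrable (fun g : Env => (SA I c A g fun i => ind (z ∈ A i)) *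
      (SA I c A g fun i => ind (¬ E i))) (law μ) := by
    refine (PMom.of_bounded (c := 1) ((mSA _).mul (mSA _)) fun g => ?_).integrable
    simp only [Pi.mul_apply]
    rw [abs_mul]
    exact mul_le_one₀ (v1 g) (abs_nonneg _) (n1 g)
  have I2 : Integrable (fun g : Env => Real.exp |g z| *
      (SA I c A g fun i => ind (z ∈ A i) * ind (¬ E i))) (law μ) := by
    refine (PMom.mul ?_ ?_).integrable
    · exact ((EMom_coord hμ z).abs).exp'
    · refine PMom.of_bounded (c := 1) (mSA _) fun g => ?_
      rw [abs_of_nonneg (y0 g)]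
      exact y1 g
  have I3 : Integrable (fun g : Env => (phi p q (g z) - k) *
      (SA I c A g fun i => ind (E i))) (law μ) := by
    refine (PMom.mul (PMom.sub ?_ (PMom.const k)) ?_).integrable
    · exact PMom.of_bounded (c := 1) (hphim.comp mcoord) fun g => SiteK_phi_abs p q _
    · exact PMom.of_bounded (c := 1) (mSA _) a1
  have hup : ∀ (g : Env), Measurable fun u : ℝ => (Function.update g z u : Env) := by
    intro g
    refine measurable_pi_iff.2 fun r => ?_
    by_cases hr : r = z
    · subst hr
      simp only [Function.update_self]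
      exact measurable_id
    · simp only [Function.update_of_ne hr]
      exact measurable_const
  -- integrability after conditioning
  have J : ∀ {F : Env → ℝ}, Integrable F (law μ) →
      Integrable (fun g => ∫ u, F (Function.update g z u) ∂μ) (law μ) := by
    intro F hF
    have h2 : Integrable (fun w : Env × ℝ => F (Function.update w.1 z w.2)) ((law μ).prod μ) :=
      (mp_update (μ := μ) z).integrable_comp_of_integrable hF
    exact h2.integral_prod_left
  rw [integral_update z I1, integral_update z I2, integral_update z I3]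
  simp only [Function.update_self]
  rw [← integral_const_mul, ← integral_const_mul, ← integral_sub ((J I1).const_mul _)]
  · refine integral_mono (((J I1).const_mul _).sub ?_) ?_ fun g => ?_
    · have := (J I2).const_mul (Mom μ 1)
      simpa only [Function.update_self] using this
    · have := J I3
      simpa only [Function.update_self] using this
    · refine SiteK_site hμ hpq (P := fun u => SA I c A (Function.update g z u) fun i => ind (E i))
        (X := fun u => (SA I c A (Function.update g z u) fun i => ind (z ∈ A i)) *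
          (SA I c A (Function.update g z u) fun i => ind (¬ E i)))
        (Y := fun u => SA I c A (Function.update g z u) fun i => ind (z ∈ A i) * ind (¬ E i))
        ((mSA _).comp (hup g)) (((mSA _).comp (hup g)).mul ((mSA _).comp (hup g)))
        ((mSA _).comp (hup g)) (fun u => a1 _) (fun u => mul_nonneg (v0 _) (n0 _))
        (fun u => mul_le_one₀ ((le_abs_self _).trans (v1 _)) (n0 _) ((le_abs_self _).trans (n1 _)))
        (fun u => y0 _) (fun u => y1 _) fun u u' => Resp_point hpq hc A g z E u u'
  · have := (J I2).const_mul (Mom μ 1)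
    simpa only [Function.update_self] using this

end

end Pool.Agent.W_7d29a1_h47
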