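import Pool.Agent.W_7d29a1_h47q.WinA
import Pool.Agent.W_7d29a1_h47q.Resp
import Pool.Agent.W_7d29a1_h47.CloseL

/-!
# Two walks of the window system are close
-/

namespace Pool.Agent.W_7d29a1_h47

open MeasureTheory ProbabilityTheory Finset

noncomputable section

variable {P : Prm} {μ : Measure ℝ} [IsProbabilityMeasure μ]

/-- Proof. Definitions of `tubeX`, `shiftEnv`; reindex `y ↦ y + x`. -/
lemma tube_shift (φ : ℝ → ℝ) (v : ℝ) (w : ℕ) (g : Env) (t : ℕ) (x : ℤ) (M : ℕ) :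
    tubeX φ v w (shiftEnv t x g) 0 0 M = tubeX φ v w g t x M := by
  unfold tubeX
  refine Finset.sum_congr rfl fun i _ => ?_
  refine Finset.sum_nbij' (fun y => y + x) (fun y => y - x) ?_ ?_ ?_ ?_ ?_
  · intro y hy
    rw [Finset.mem_Icc] at hy ⊢
    constructor <;> omega
  · intro y hy
    rw [Finset.mem_Icc] at hy ⊢
    constructor <;> omega
  · intro y _
    ring
  · intro y _
    ring
  · intro y _
    have h1 : ((y : ℝ) - ((0 : ℤ) : ℝ) - v * (i + 1)) = ((y + x : ℤ) : ℝ) - x - v * (i + 1) := by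
      push_cast; ring
    rw [h1]
    show ind _ * φ (g (0 + i + t, y + x)) = ind _ * φ (g (t + i, y + x))
    rw [show 0 + i + t = t + i by omega]

lemma Phi_nonneg {p q : ℝ} (hk : 0 ≤ kmin μ p q) (P : Prm) (v : ℝ) (g : Env) (t : ℕ) (x : ℤ)
    (r : ℕ → Bool) : 0 ≤ Phi P μ p q v g t x r := by
  unfold Phi Phi0
  have hM : 0 ≤ Mom μ 1 := integral_nonneg fun u => (Real.exp_pos _).le
  refine add_nonneg (mul_nonneg (inv_nonneg.2 (mul_nonneg hk (Nat.cast_nonneg _)))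
    (add_nonneg (le_max_right _ _) (mul_nonneg hM (Finset.sum_nonneg fun i _ => ?_))))
    (mul_nonneg (inv_nonneg.2 (Nat.cast_nonneg _)) (Finset.sum_nonneg fun i _ => ind_nonneg _))
  exact mul_nonneg (Real.exp_pos _).le (ind_nonneg _)

section Gen

variable {ι κ : Type*} {I : Finset ι} {c : ι → ℝ} {A : ι → Finset (ℕ × ℤ)}

lemma CloseW_add (hc : Adms I c) {F G : Env → ι → ℝ}
    (hF : ∀ i ∈ I, PMom (law μ) fun g => F g i) (hG : ∀ i ∈ I, PMom (law μ) fun g => G g i) :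
    ∫ g : Env, SA I c A g (fun i => F g i + G g i) ∂(law μ) =
      ∫ g : Env, SA I c A g (F g) ∂(law μ) + ∫ g : Env, SA I c A g (G g) ∂(law μ) := by
  rw [← integral_add (PMom_SA hc A hF).integrable (PMom_SA hc A hG).integrable]
  simp only [SA_add]

omit [IsProbabilityMeasure μ] in
lemma CloseW_mul (a : ℝ) (F : Env → ι → ℝ) :
    ∫ g : Env, SA I c A g (fun i => a * F g i) ∂(law μ) =
      a * ∫ g : Env, SA I c A g (F g) ∂(law μ) := by
  rw [← integral_const_mul]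
  simp only [SA_mul_left]

lemma CloseW_sum (hc : Adms I c) (J : Finset κ) {F : κ → Env → ι → ℝ}
    (hF : ∀ j ∈ J, ∀ i ∈ I, PMom (law μ) fun g => F j g i) :
    ∫ g : Env, SA I c A g (fun i => ∑ j ∈ J, F j g i) ∂(law μ) =
      ∑ j ∈ J, ∫ g : Env, SA I c A g (F j g) ∂(law μ) := by
  rw [← integral_finsetSum J fun j hj => (PMom_SA hc A (hF j hj)).integrable]
  simp only [SA_sum]

lemma CloseW_ind (hc : Adms I c) (A : ι → Finset (ℕ × ℤ)) (E : ι → Prop) :
    PMom (law μ) (fun g : Env => SA I c A g fun i => ind (E i)) :=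
  PMom_SA (F := fun _ i => ind (E i)) hc A fun i _ => PMom.const _

end Gen

/-- The set of all relevant positions. -/
def CloseW_Y (N R M : ℕ) : Finset ℤ := Icc (-((N : ℤ) + R + 3 * M)) ((N : ℤ) + R + 3 * M)

lemma CloseW_box {N R : ℕ} {i : ℤ × (ℕ → Bool)} (hi : i ∈ WI N R) : -(N : ℤ) ≤ i.1 ∧ i.1 ≤ N := by
  unfold WI at hi
  have h1 := (Finset.mem_product.1 hi).1
  unfold box at h1
  exact Finset.mem_Icc.1 h1

lemma CloseW_mem {N R : ℕ} (M : ℕ) {i : ℤ × (ℕ → Bool)} (hi : i ∈ WI N R) {j : ℕ} (hj : j ≤ R) :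
    i.1 + pos i.2 j ∈ CloseW_Y N R M := by
  have h := abs_le.1 (pos_abs_le i.2 j)
  have h2 := CloseW_box hi
  unfold CloseW_Y
  rw [Finset.mem_Icc]
  constructor <;> omega

lemma CloseW_WA {k R j l : ℕ} (hjl : j + l < R) (i : ℤ × (ℕ → Bool)) (y : ℤ) :
    (k + j + l, y) ∈ WA k R i ↔ i.1 + pos i.2 (j + l + 1) = y := by
  rw [mem_WA]
  constructor
  · rintro ⟨m, _, hm⟩
    rw [Prod.mk.injEq] at hm
    have h1 : m = j + l := by omega
    rw [hm.2, h1]
  · intro h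
    refine ⟨j + l, hjl, ?_⟩
    rw [Prod.mk.injEq]
    exact ⟨by omega, h.symm⟩

/-- The tube sum as a sum over a fixed set of positions. -/
lemma CloseW_tube (φ : ℝ → ℝ) {v : ℝ} (hv : |v| ≤ 1) {w M N R j l : ℕ} (hw : w ≤ M) (hl : l < M)
    (hj : j ≤ R) {i : ℤ × (ℕ → Bool)} (hi : i ∈ WI N R) (G : ℤ → ℝ) :
    ∑ y ∈ Icc (i.1 + pos i.2 j - 3 * M) (i.1 + pos i.2 j + 3 * M),
        ind (|(y : ℝ) - (i.1 + pos i.2 j) - v * (l + 1)| ≤ 2 * w) * φ (G y) =
      ∑ y ∈ CloseW_Y N R M,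
        ind (|(y : ℝ) - (i.1 + pos i.2 j) - v * (l + 1)| ≤ 2 * w) * φ (G y) := by
  have hpos := abs_le.1 (pos_abs_le i.2 j)
  have hb := CloseW_box hi
  refine Finset.sum_subset ?_ ?_
  · intro y hy
    rw [Finset.mem_Icc] at hy
    unfold CloseW_Y
    rw [Finset.mem_Icc]
    constructor <;> omega
  · intro y _ hy
    rw [Finset.mem_Icc, not_and_or] at hy
    rw [ind_false, zero_mul]
    intro hle
    have h1 : |v * ((l : ℝ) + 1)| ≤ M := by
      rw [abs_mul, abs_of_nonneg (by positivity : (0 : ℝ) ≤ (l : ℝ) + 1)]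
      have h2 : (l : ℝ) + 1 ≤ M := by exact_mod_cast hl
      calc |v| * ((l : ℝ) + 1) ≤ 1 * ((l : ℝ) + 1) := by gcongr
        _ ≤ M := by linarith
    have h3 : (w : ℝ) ≤ M := by exact_mod_cast hw
    rw [abs_le] at hle h1
    rcases hy with hy | hy
    · push Not at hy
      have h4 : (y : ℝ) < (i.1 + pos i.2 j : ℝ) - 3 * M := by exact_mod_cast hy
      linarith [hle.1, h1.1, h1.2]
    · push Not at hy
      have h4 : (i.1 + pos i.2 j : ℝ) + 3 * M < (y : ℝ) := by exact_mod_cast hy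
      linarith [hle.2, h1.1, h1.2]

/-- The two walks term, sorted by the position of the first. -/
lemma CloseW_two (v : ℝ) {w M N R k j l : ℕ} {c : ℤ × (ℕ → Bool) → ℝ} (hc : Adms (WI N R) c)
    (hjl : j + l < R) :
    ∫ g : Env, SA2 (WI N R) c (WA k R) g (fun i i' =>
        ind (2 * (w : ℝ) < |(i.1 + pos i.2 (j + l + 1) : ℝ) - (i'.1 + pos i'.2 j) - v * (l + 1)|))
          ∂(law μ) =
      ∑ y ∈ CloseW_Y N R M, ∫ g : Env,
        SA (WI N R) c (WA k R) g (fun i => ind ((k + j + l, y) ∈ WA k R i)) *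
        SA (WI N R) c (WA k R) g (fun i =>
          ind (¬ |(y : ℝ) - (i.1 + pos i.2 j) - v * (l + 1)| ≤ 2 * w)) ∂(law μ) := by
  rw [← integral_finsetSum]
  · unfold SA2
    congr 1
    funext g
    have h1 : ∀ i ∈ WI N R, (SA (WI N R) c (WA k R) g fun i' =>
        ind (2 * (w : ℝ) < |(i.1 + pos i.2 (j + l + 1) : ℝ) - (i'.1 + pos i'.2 j) - v * (l + 1)|)) =
        ∑ y ∈ CloseW_Y N R M, ind ((k + j + l, y) ∈ WA k R i) *
          (SA (WI N R) c (WA k R) g fun i' =>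
            ind (¬ |(y : ℝ) - (i'.1 + pos i'.2 j) - v * (l + 1)| ≤ 2 * w)) := by
      intro i hi
      have h2 := CloseL_pick (CloseW_mem M hi (show j + l + 1 ≤ R by omega))
        (fun y => SA (WI N R) c (WA k R) g fun i' =>
            ind (¬ |(y : ℝ) - (i'.1 + pos i'.2 j) - v * (l + 1)| ≤ 2 * w))
      have h3 : ∑ y ∈ CloseW_Y N R M, ind ((k + j + l, y) ∈ WA k R i) *
          (SA (WI N R) c (WA k R) g fun i' =>
            ind (¬ |(y : ℝ) - (i'.1 + pos i'.2 j) - v * (l + 1)| ≤ 2 * w)) =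
          ∑ y ∈ CloseW_Y N R M, ind (i.1 + pos i.2 (j + l + 1) = y) *
          (SA (WI N R) c (WA k R) g fun i' =>
            ind (¬ |(y : ℝ) - (i'.1 + pos i'.2 j) - v * (l + 1)| ≤ 2 * w)) :=
        Finset.sum_congr rfl fun y _ => by rw [ind_congr (CloseW_WA hjl i y)]
      rw [h3, ← h2]
      refine SA_congr fun i' _ => ind_congr ?_
      rw [not_le]
      push_cast
      rfl
    rw [SA_congr h1, SA_sum]
    refine Finset.sum_congr rfl fun y _ => ?_
    rw [SA_mul_right]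
  · intro y _
    exact ((CloseW_ind hc _ _).mul (CloseW_ind hc _ _)).integrable

/-- The error term, sorted by the position. -/
lemma CloseW_err (hμ : EM μ) (v : ℝ) {w M N R k j l : ℕ} {c : ℤ × (ℕ → Bool) → ℝ}
    (hc : Adms (WI N R) c) (hjl : j + l < R) :
    ∫ g : Env, SA (WI N R) c (WA k R) g (fun i =>
        Real.exp |g (k + j + l, i.1 + pos i.2 (j + l + 1))| *
        ind (2 * (w : ℝ) < |(i.1 + pos i.2 (j + l + 1) : ℝ) - (i.1 + pos i.2 j) - v * (l + 1)|))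
          ∂(law μ) =
      ∑ y ∈ CloseW_Y N R M, ∫ g : Env, Real.exp |g (k + j + l, y)| *
          (SA (WI N R) c (WA k R) g fun i => ind ((k + j + l, y) ∈ WA k R i ∧
            ¬ |(y : ℝ) - (i.1 + pos i.2 j) - v * (l + 1)| ≤ 2 * w)) ∂(law μ) := by
  rw [← integral_finsetSum]
  · congr 1
    funext g
    have h1 : ∀ i ∈ WI N R, Real.exp |g (k + j + l, i.1 + pos i.2 (j + l + 1))| *
        ind (2 * (w : ℝ) < |(i.1 + pos i.2 (j + l + 1) : ℝ) - (i.1 + pos i.2 j) - v * (l + 1)|) =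
        ∑ y ∈ CloseW_Y N R M, Real.exp |g (k + j + l, y)| * ind ((k + j + l, y) ∈ WA k R i ∧
            ¬ |(y : ℝ) - (i.1 + pos i.2 j) - v * (l + 1)| ≤ 2 * w) := by
      intro i hi
      have h2 := CloseL_pick (CloseW_mem M hi (show j + l + 1 ≤ R by omega))
        (fun y => Real.exp |g (k + j + l, y)| *
          ind (¬ |(y : ℝ) - (i.1 + pos i.2 j) - v * (l + 1)| ≤ 2 * w))
      have h3 : ind (2 * (w : ℝ) <
          |(i.1 + pos i.2 (j + l + 1) : ℝ) - (i.1 + pos i.2 j) - v * (l + 1)|) =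
          ind (¬ |((i.1 + pos i.2 (j + l + 1) : ℤ) : ℝ) - (i.1 + pos i.2 j) - v * (l + 1)| ≤
            2 * w) := by
        refine ind_congr ?_
        rw [not_le]
        push_cast
        rfl
      rw [h3]
      refine h2.trans ?_
      refine Finset.sum_congr rfl fun y _ => ?_
      rw [ind_and, ind_congr (CloseW_WA hjl i y)]
      ring
    rw [SA_congr h1, SA_sum]
    refine Finset.sum_congr rfl fun y _ => ?_
    rw [SA_mul_left]
  · intro y _
    exact (((EMom_coord hμ (k + j + l, y)).abs.exp').mul (CloseW_ind hc _ _)).integrable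

lemma CloseW_phc_meas (p q : ℝ) : Measurable (phc μ p q) :=
  (SiteG_phi_meas p q).sub measurable_const

lemma CloseW_phc_abs (p q u : ℝ) : |phc μ p q u| ≤ 1 + |∫ u', phi p q u' ∂μ| := by
  unfold phc
  refine (abs_sub _ _).trans ?_
  have h1 : |phi p q u| ≤ 1 := by
    rw [abs_of_nonneg (SiteG_phi_nonneg p q u)]
    exact SiteG_phi_le p q u
  linarith

lemma CloseW_phc (p q : ℝ) (x : ℕ × ℤ) : PMom (law μ) (fun g : Env => phc μ p q (g x)) :=
  PMom.of_bounded ((CloseW_phc_meas p q).comp (measurable_pi_apply x)) fun g => CloseW_phc_abs p q _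

/-- The summands of the tube term, for one `l < T₁`. All with `S j = i.1 + pos i.2 j`.
Proof. As `CloseL_two`, `CloseL_err`, and the last steps of `closeL` (`CloseL.lean`), with `resp` in the
place of `response`: for every `y` in a large finite set `Y` of integers (which contains all positions
`i.1 + pos i.2 (j+l+1)`, `i ∈ WI N R`, e.g. `box (N + R + …)`), use `resp` for the site
`z = (k + j + l, y)` and `E i = (|y - (i.1 + pos i.2 j) - v (l+1)| ≤ 2w)`; for `i ∈ WI N R`,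
`z ∈ WA k R i` iff `i.1 + pos i.2 (j + l + 1) = y` (`mem_WA`, `j + l < R`). Sum over `y ∈ Y`. `Y` must
also contain all `y` with `|y - (i.1 + pos i.2 j) - v(l+1)| ≤ 2w`, which is the case for
`Y = box (N + R + 3 T₁)` (`|v| ≤ 1`, `w ≤ T₁`, `l < T₁`). -/
lemma closeW_one (hμ : EM μ) {p q : ℝ} (hpq : p < q) {v : ℝ} (hv : |v| ≤ 1) {w M : ℕ} (hw : w ≤ M)
    {N R k : ℕ} {c : ℤ × (ℕ → Bool) → ℝ} (hc : Adms (WI N R) c) {j l : ℕ} (hl : l < M)
    (hj : j + M ≤ R) :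
    kmin μ p q * ∫ g : Env, SA2 (WI N R) c (WA k R) g (fun i i' =>
        ind (2 * (w : ℝ) < |(i.1 + pos i.2 (j + l + 1) : ℝ) - (i'.1 + pos i'.2 j) - v * (l + 1)|))
          ∂(law μ) -
      Mom μ 1 * ∫ g : Env, SA (WI N R) c (WA k R) g (fun i =>
        Real.exp |g (k + j + l, i.1 + pos i.2 (j + l + 1))| *
        ind (2 * (w : ℝ) < |(i.1 + pos i.2 (j + l + 1) : ℝ) - (i.1 + pos i.2 j) - v * (l + 1)|))
          ∂(law μ) ≤
    ∫ g : Env, SA (WI N R) c (WA k R) g (fun i =>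
      ∑ y ∈ Icc (i.1 + pos i.2 j - 3 * M) (i.1 + pos i.2 j + 3 * M),
        ind (|(y : ℝ) - (i.1 + pos i.2 j) - v * (l + 1)| ≤ 2 * w) * phc μ p q (g (k + j + l, y)))
          ∂(law μ) := by
  have hjl : j + l < R := by omega
  have h1 : ∫ g : Env, SA (WI N R) c (WA k R) g (fun i =>
      ∑ y ∈ Icc (i.1 + pos i.2 j - 3 * M) (i.1 + pos i.2 j + 3 * M),
        ind (|(y : ℝ) - (i.1 + pos i.2 j) - v * (l + 1)| ≤ 2 * w) * phc μ p q (g (k + j + l, y)))
          ∂(law μ) = ∑ y ∈ CloseW_Y N R M, ∫ g : Env, phc μ p q (g (k + j + l, y)) *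
        (SA (WI N R) c (WA k R) g fun i =>
          ind (|(y : ℝ) - (i.1 + pos i.2 j) - v * (l + 1)| ≤ 2 * w)) ∂(law μ) := by
    rw [← integral_finsetSum]
    · congr 1
      funext g
      rw [SA_congr fun i hi => CloseW_tube (phc μ p q) hv hw hl (by omega) hi
        (fun y => g (k + j + l, y)), SA_sum]
      refine Finset.sum_congr rfl fun y _ => ?_
      rw [SA_mul_right, mul_comm]
    · intro y _
      exact ((CloseW_phc p q _).mul (CloseW_ind hc _ _)).integrable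
  rw [h1, CloseW_two (M := M) v hc hjl, CloseW_err (M := M) hμ v hc hjl, Finset.mul_sum,
    Finset.mul_sum, ← Finset.sum_sub_distrib]
  refine Finset.sum_le_sum fun y _ => ?_
  exact resp hμ hpq hc (WA k R) (k + j + l, y)
    (fun i => |(y : ℝ) - (i.1 + pos i.2 j) - v * (l + 1)| ≤ 2 * w)

lemma CloseW_tubeP (p q v : ℝ) (w k : ℕ) (x : ℤ) (M : ℕ) :
    PMom (law μ) (fun g : Env => tubeX (phc μ p q) v w g k x M) := by
  unfold tubeX
  exact PMom.sum _ fun i _ => PMom.sum _ fun y _ => (PMom.const _).mul (CloseW_phc p q _)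

lemma CloseW_maxP (p q v : ℝ) (w k : ℕ) (x : ℤ) (M : ℕ) :
    PMom (law μ) (fun g : Env => max (tubeX (phc μ p q) v w g k x M) 0) := by
  refine (CloseW_tubeP (μ := μ) p q v w k x M).mono
    ((CloseW_tubeP (μ := μ) p q v w k x M).1.max measurable_const) fun g => ?_
  rw [abs_of_nonneg (le_max_right _ _)]
  exact max_le (le_abs_self _) (abs_nonneg _)

omit [IsProbabilityMeasure μ] in
/-- The functional in absolute coordinates. -/
lemma CloseW_Phi (P : Prm) (p q v : ℝ) (g : Env) (k j : ℕ) (i : ℤ × (ℕ → Bool)) :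
    Phi P μ p q v g (k + j) (i.1 + pos i.2 j) (shf j i.2) =
      (kmin μ p q * P.T₁)⁻¹ *
        (max (tubeX (phc μ p q) v P.w g (k + j) (i.1 + pos i.2 j) P.T₁) 0 +
        Mom μ 1 * ∑ l ∈ range P.T₁, Real.exp |g (k + j + l, i.1 + pos i.2 (j + l + 1))| *
          ind (2 * (P.w : ℝ) <
            |(i.1 + pos i.2 (j + l + 1) : ℝ) - (i.1 + pos i.2 j) - v * (l + 1)|)) +
      (P.T₁ : ℝ)⁻¹ * ∑ l ∈ range P.T₁, ind (2 * (P.w : ℝ) <
            |(i.1 + pos i.2 (j + l + 1) : ℝ) - (i.1 + pos i.2 j) - v * (l + 1)|) := by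
  have h1 : ∀ l : ℕ, pos i.2 (j + l + 1) = pos i.2 j + pos (shf j i.2) (l + 1) := fun l => by
    rw [add_assoc, pos_add]
  have h2 : ∀ l : ℕ, (i.1 + pos i.2 (j + l + 1) : ℝ) - (i.1 + pos i.2 j) - v * (l + 1) =
      (pos (shf j i.2) (l + 1) : ℝ) - v * (l + 1) := fun l => by
    rw [h1]
    push_cast
    ring
  have h3 : ∀ l : ℕ, shiftEnv (k + j) (i.1 + pos i.2 j) g (l, pos (shf j i.2) (l + 1)) =
      g (k + j + l, i.1 + pos i.2 (j + l + 1)) := fun l => by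
    unfold shiftEnv
    rw [h1]
    congr 1
    rw [Prod.mk.injEq]
    constructor
    · show l + (k + j) = k + j + l
      omega
    · show pos (shf j i.2) (l + 1) + (i.1 + pos i.2 j) = i.1 + (pos i.2 j + pos (shf j i.2) (l + 1))
      omega
  unfold Phi Phi0
  rw [tube_shift]
  simp only [h2, h3]

/-- **Closeness in the window.** Proof. Sum `closeW_one` over `l < T₁`: the right side is
`∫ SA (tubeX …) ≤ ∫ SA (max (tubeX …) 0)` (`tube_shift`, `k + j + l = (k + j) + l`). For every `l`: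
`ind (4w < |S j - S' j|) ≤ ind (2w < |S (j+l+1) - S' j - v(l+1)|) + ind (2w < |S (j+l+1) - S j - v(l+1)|)`
(as in `close_one`, `Close.lean`). So
`T₁ ∫ SA2 (4w < …) ≤ (1/kmin) (∫ SA (max tubeX 0) + Mom 1 ∑_l ∫ SA (e^{|g|} ind)) + ∑_l ∫ SA (ind)`;
divide by `T₁` and compare with `Phi` (`Phi0` for `shiftEnv (k+j) (S j) g` and the steps `shf j r`:
`pos (shf j r) (l+1) = pos r (j+l+1) - pos r j`). -/
theorem closeW (hμ : EM μ) {p q : ℝ} (hpq : p < q) (hk : 0 < kmin μ p q) {v : ℝ} (hv : |v| ≤ 1)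
    (hw : P.w ≤ P.T₁) (hT : 1 ≤ P.T₁) {N R k : ℕ} {c : ℤ × (ℕ → Bool) → ℝ}
    (hc : Adms (WI N R) c) {j : ℕ} (hj : j + P.T₁ ≤ R) :
    ∫ g : Env, SA2 (WI N R) c (WA k R) g (fun i i' =>
        ind (4 * (P.w : ℝ) < |(i.1 + pos i.2 j : ℝ) - (i'.1 + pos i'.2 j)|)) ∂(law μ) ≤
      ∫ g : Env, SA (WI N R) c (WA k R) g (fun i =>
        Phi P μ p q v g (k + j) (i.1 + pos i.2 j) (shf j i.2)) ∂(law μ) := by
  -- names
  set Bf : Env → ℤ × (ℕ → Bool) → ℝ := fun g i =>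
    max (tubeX (phc μ p q) v P.w g (k + j) (i.1 + pos i.2 j) P.T₁) 0 with hBf
  set Tf : ℕ → Env → ℤ × (ℕ → Bool) → ℝ := fun l g i =>
    ∑ y ∈ Icc (i.1 + pos i.2 j - 3 * P.T₁) (i.1 + pos i.2 j + 3 * P.T₁),
        ind (|(y : ℝ) - (i.1 + pos i.2 j) - v * (l + 1)| ≤ 2 * P.w) *
          phc μ p q (g (k + j + l, y)) with hTf
  set Ef : ℕ → Env → ℤ × (ℕ → Bool) → ℝ := fun l g i =>
    Real.exp |g (k + j + l, i.1 + pos i.2 (j + l + 1))| *
        ind (2 * (P.w : ℝ) <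
          |(i.1 + pos i.2 (j + l + 1) : ℝ) - (i.1 + pos i.2 j) - v * (l + 1)|) with hEf
  set Df : ℕ → ℤ × (ℕ → Bool) → ℝ := fun l i =>
    ind (2 * (P.w : ℝ) <
          |(i.1 + pos i.2 (j + l + 1) : ℝ) - (i.1 + pos i.2 j) - v * (l + 1)|) with hDf
  set Xf : ℕ → ℤ × (ℕ → Bool) → ℤ × (ℕ → Bool) → ℝ := fun l i i' =>
    ind (2 * (P.w : ℝ) <
      |(i.1 + pos i.2 (j + l + 1) : ℝ) - (i'.1 + pos i'.2 j) - v * (l + 1)|) with hXf
  have pB : ∀ i ∈ WI N R, PMom (law μ) fun g => Bf g i := fun i _ => CloseW_maxP p q v _ _ _ _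
  have pT : ∀ l ∈ range P.T₁, ∀ i ∈ WI N R, PMom (law μ) fun g => Tf l g i := fun l _ i _ =>
    PMom.sum _ fun y _ => (PMom.const _).mul (CloseW_phc p q _)
  have pE : ∀ l ∈ range P.T₁, ∀ i ∈ WI N R, PMom (law μ) fun g => Ef l g i := fun l _ i _ =>
    ((EMom_coord hμ _).abs.exp').mul (PMom.const _)
  have pD : ∀ l ∈ range P.T₁, ∀ i ∈ WI N R, PMom (law μ) fun _ : Env => Df l i := fun l _ i _ =>
    PMom.const _
  have hM : 0 ≤ Mom μ 1 := integral_nonneg fun u => (Real.exp_pos _).le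
  -- the right side
  have hR : ∫ g : Env, SA (WI N R) c (WA k R) g (fun i =>
        Phi P μ p q v g (k + j) (i.1 + pos i.2 j) (shf j i.2)) ∂(law μ) =
      (kmin μ p q * P.T₁)⁻¹ * (∫ g : Env, SA (WI N R) c (WA k R) g (Bf g) ∂(law μ) +
        Mom μ 1 * ∑ l ∈ range P.T₁, ∫ g : Env, SA (WI N R) c (WA k R) g (Ef l g) ∂(law μ)) +
      (P.T₁ : ℝ)⁻¹ * ∑ l ∈ range P.T₁, ∫ g : Env, SA (WI N R) c (WA k R) g (Df l) ∂(law μ) := by
    simp only [CloseW_Phi]
    have pS : ∀ i ∈ WI N R, PMom (law μ) fun g => ∑ l ∈ range P.T₁, Ef l g i := fun i hi =>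
      PMom.sum _ fun l hl => pE l hl i hi
    rw [CloseW_add (F := fun g i => (kmin μ p q * P.T₁)⁻¹ *
      (Bf g i + Mom μ 1 * ∑ l ∈ range P.T₁, Ef l g i))
      (G := fun _ i => (P.T₁ : ℝ)⁻¹ * ∑ l ∈ range P.T₁, Df l i) hc
      (fun i hi => ((pB i hi).add ((pS i hi).const_mul _)).const_mul _)
      (fun i hi => PMom.const _)]
    rw [CloseW_mul (F := fun g i => Bf g i + Mom μ 1 * ∑ l ∈ range P.T₁, Ef l g i),
      CloseW_mul (F := fun _ i => ∑ l ∈ range P.T₁, Df l i),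
      CloseW_add (F := Bf) (G := fun g i => Mom μ 1 * ∑ l ∈ range P.T₁, Ef l g i) hc pB
        (fun i hi => (pS i hi).const_mul _),
      CloseW_mul (F := fun g i => ∑ l ∈ range P.T₁, Ef l g i),
      CloseW_sum (F := Ef) hc _ pE, CloseW_sum (F := fun l _ i => Df l i) hc _ pD]
  -- the tube term
  have hTube : ∑ l ∈ range P.T₁, ∫ g : Env, SA (WI N R) c (WA k R) g (Tf l g) ∂(law μ) ≤
      ∫ g : Env, SA (WI N R) c (WA k R) g (Bf g) ∂(law μ) := by
    rw [← CloseW_sum (F := Tf) hc _ pT]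
    refine integral_mono (PMom_SA (F := fun g i => ∑ l ∈ range P.T₁, Tf l g i) hc _
      fun i hi => PMom.sum _ fun l hl => pT l hl i hi).integrable
      (PMom_SA (F := Bf) hc _ pB).integrable fun g => SA_mono hc fun i _ => ?_
    refine le_trans (le_of_eq ?_) (le_max_left _ _)
    unfold tubeX
    refine Finset.sum_congr rfl fun l _ => Finset.sum_congr rfl fun y _ => ?_
    push_cast
    rfl
  -- one l
  have hOne : ∀ l ∈ range P.T₁, kmin μ p q *
      ∫ g : Env, SA2 (WI N R) c (WA k R) g (Xf l) ∂(law μ) -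
      Mom μ 1 * ∫ g : Env, SA (WI N R) c (WA k R) g (Ef l g) ∂(law μ) ≤
      ∫ g : Env, SA (WI N R) c (WA k R) g (Tf l g) ∂(law μ) := fun l hl =>
    closeW_one hμ hpq hv hw hc (Finset.mem_range.1 hl) hj
  have hSum := Finset.sum_le_sum hOne
  rw [Finset.sum_sub_distrib, ← Finset.mul_sum, ← Finset.mul_sum] at hSum
  -- comparison
  have pX : ∀ l : ℕ, Integrable (fun g : Env => SA2 (WI N R) c (WA k R) g (Xf l)) (law μ) :=
    fun l => (PMom_SA2 (F := fun _ => Xf l) hc _ fun i _ i' _ => PMom.const _).integrable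
  have pDi : ∀ l : ℕ, Integrable (fun g : Env => SA (WI N R) c (WA k R) g (Df l)) (law μ) :=
    fun l => (CloseW_ind hc _ _).integrable
  have hcmp : ∀ l ∈ range P.T₁, ∫ g : Env, SA2 (WI N R) c (WA k R) g (fun i i' =>
        ind (4 * (P.w : ℝ) < |(i.1 + pos i.2 j : ℝ) - (i'.1 + pos i'.2 j)|)) ∂(law μ) ≤
      ∫ g : Env, SA2 (WI N R) c (WA k R) g (Xf l) ∂(law μ) +
        ∫ g : Env, SA (WI N R) c (WA k R) g (Df l) ∂(law μ) := by
    intro l _
    rw [← integral_add (pX l) (pDi l)]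
    refine integral_mono (PMom_SA2 (F := fun _ i i' =>
      ind (4 * (P.w : ℝ) < |(i.1 + pos i.2 j : ℝ) - (i'.1 + pos i'.2 j)|)) hc _
      fun i _ i' _ => PMom.const _).integrable ((pX l).add (pDi l)) fun g => ?_
    show SA2 (WI N R) c (WA k R) g (fun i i' =>
        ind (4 * (P.w : ℝ) < |(i.1 + pos i.2 j : ℝ) - (i'.1 + pos i'.2 j)|)) ≤
      SA2 (WI N R) c (WA k R) g (Xf l) + SA (WI N R) c (WA k R) g (Df l)
    rw [← SA2_fst hc (Df l), ← SA2_add]
    refine SA2_mono hc fun i _ i' _ => ?_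
    refine (ind_mono ?_).trans (ind_or_le _ _)
    intro h3
    by_contra h4
    push Not at h4
    obtain ⟨h5, h6⟩ := h4
    have h7 : |(i.1 + pos i.2 j : ℝ) - (i'.1 + pos i'.2 j)| ≤
        |(i.1 + pos i.2 (j + l + 1) : ℝ) - (i'.1 + pos i'.2 j) - v * (l + 1)| +
        |(i.1 + pos i.2 (j + l + 1) : ℝ) - (i.1 + pos i.2 j) - v * (l + 1)| := by
      have h8 : (i.1 + pos i.2 j : ℝ) - (i'.1 + pos i'.2 j) =
        ((i.1 + pos i.2 (j + l + 1) : ℝ) - (i'.1 + pos i'.2 j) - v * (l + 1)) -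
        ((i.1 + pos i.2 (j + l + 1) : ℝ) - (i.1 + pos i.2 j) - v * (l + 1)) := by ring
      rw [h8]
      exact abs_sub _ _
    linarith
  have hcS := Finset.sum_le_sum hcmp
  rw [Finset.sum_const, Finset.card_range, nsmul_eq_mul, Finset.sum_add_distrib] at hcS
  rw [hR]
  generalize ∫ g : Env, SA2 (WI N R) c (WA k R) g (fun i i' =>
        ind (4 * (P.w : ℝ) < |(i.1 + pos i.2 j : ℝ) - (i'.1 + pos i'.2 j)|)) ∂(law μ) = a at hcS ⊢
  generalize ∑ l ∈ range P.T₁, ∫ g : Env, SA2 (WI N R) c (WA k R) g (Xf l) ∂(law μ) = X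
    at hcS hSum
  generalize ∑ l ∈ range P.T₁, ∫ g : Env, SA (WI N R) c (WA k R) g (Ef l g) ∂(law μ) = E
    at hSum ⊢
  generalize ∑ l ∈ range P.T₁, ∫ g : Env, SA (WI N R) c (WA k R) g (Df l) ∂(law μ) = D
    at hcS ⊢
  generalize ∑ l ∈ range P.T₁, ∫ g : Env, SA (WI N R) c (WA k R) g (Tf l g) ∂(law μ) = T
    at hSum hTube
  generalize ∫ g : Env, SA (WI N R) c (WA k R) g (Bf g) ∂(law μ) = B at hTube ⊢
  have hT' : (0 : ℝ) < P.T₁ := by exact_mod_cast hT
  have e1 : (kmin μ p q * P.T₁)⁻¹ * (B + Mom μ 1 * E) + (P.T₁ : ℝ)⁻¹ * D =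
      ((B + Mom μ 1 * E) / kmin μ p q + D) / P.T₁ := by
    field_simp
  rw [e1, le_div_iff₀ hT']
  have e2 : X ≤ (B + Mom μ 1 * E) / kmin μ p q := by
    rw [le_div_iff₀ hk]
    linarith
  linarith

end

end Pool.Agent.W_7d29a1_h47
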