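import Pool.Agent.W_7d29a1_h47q.AvgA
import Pool.Agent.W_7d29a1_h47q.AvgB
import Pool.Agent.W_7d29a1_h47q.CloseW
import Pool.Agent.W_7d29a1_h47.SiteN

/-!
# Averages of the closeness functional and of the slopes
-/

namespace Pool.Agent.W_7d29a1_h47

open MeasureTheory ProbabilityTheory Finset

noncomputable section

variable {P : Prm} {μ : Measure ℝ} [IsProbabilityMeasure μ]

/-- Bound for the probability of a deviation of more than `2w` within `T₁` steps. -/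
def piQ (P : Prm) (μ : Measure ℝ) (δ D : ℝ) : ℝ :=
  ((10 + 4 * Cc μ) * (Real.sqrt P.T₁ * (1 + Real.log P.T₁)) + D * P.T₁) / δ / (2 * P.w)

/-- Bound for the average of `Phi`. -/
def psP (P : Prm) (μ : Measure ℝ) (p q δ D A : ℝ) (m : ℕ) : ℝ :=
  (kmin μ p q * P.T₁)⁻¹ * (CU μ * (Real.sqrt P.w * Real.sqrt P.T₁ * (1 + Real.log P.T₁))) +
    (kmin μ p q)⁻¹ * (Mom μ 1 * (A * piQ P μ δ D +
      CN μ (fun u => Real.exp ((m + 1) * |u|)) / A ^ m)) + piQ P μ δ D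

/-- Bound for the average of `Sl`. -/
def psS (P : Prm) (μ : Measure ℝ) (δ D vb : ℝ) : ℝ :=
  ((10 + 4 * Cc μ) * (Real.sqrt P.L * (1 + Real.log P.L)) + D * P.L) / δ / ((P.ρ - vb) * P.L)

/-- **Deviations.** Proof. `ind (2w < |X|) ≤ |X| / (2w)` (`ind_le_div`), the sum over
`k ∈ range (n - T₁ + 1)` is at most the one over `range (n - (i+1) + 1)` (nonnegative terms), `driftQ`
with `t = i + 1`, and the bound is nondecreasing in `t ≤ T₁`. -/
lemma devQ (hμ : EM μ) {h δ v D : ℝ} (hA : NA μ h δ v D) (hw : 1 ≤ P.w) {n i : ℕ}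
    (hi : i < P.T₁) (hTn : P.T₁ ≤ n) :
    ∑ k ∈ range (n - P.T₁ + 1), EA μ h n (fun _ s =>
        ind (2 * (P.w : ℝ) < |(pos s (k + i + 1) : ℝ) - pos s k - v * (i + 1)|)) ≤
      n * piQ P μ δ D := by
  have hC : 0 ≤ Cc μ := Drift_Cc_nonneg
  have hw1 : (1 : ℝ) ≤ P.w := by exact_mod_cast hw
  have hw0 : (0 : ℝ) < 2 * P.w := by linarith
  have hδ : 0 < δ := hA.pos
  have hi1 : 1 ≤ i + 1 := Nat.succ_le_succ (Nat.zero_le i)
  have hin : i + 1 ≤ n := le_trans (Nat.succ_le_of_lt hi) hTn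
  have h1 := driftQ hμ hA hi1 hin
  have h2 : ∑ k ∈ range (n - P.T₁ + 1), EA μ h n (fun _ s =>
        ind (2 * (P.w : ℝ) < |(pos s (k + i + 1) : ℝ) - pos s k - v * (i + 1)|)) ≤
      (2 * (P.w : ℝ))⁻¹ * ∑ k ∈ range (n - P.T₁ + 1), EA μ h n (fun _ s =>
        |(pos s (k + (i + 1)) : ℝ) - pos s k - v * ((i + 1 : ℕ) : ℝ)|) := by
    rw [Finset.mul_sum]
    refine Finset.sum_le_sum fun k _ => ?_
    rw [← EA_const_mul]
    refine EA_mono (PF.det _) (PF.det _) fun _ s _ => ?_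
    have h3 := ind_le_div hw0
      (abs_nonneg ((pos s (k + i + 1) : ℝ) - pos s k - v * (i + 1)))
    have h4 : ind (2 * (P.w : ℝ) < |(pos s (k + i + 1) : ℝ) - pos s k - v * (i + 1)|) ≤
        ind (2 * (P.w : ℝ) ≤ |(pos s (k + i + 1) : ℝ) - pos s k - v * (i + 1)|) :=
      ind_mono le_of_lt
    refine (h4.trans h3).trans (le_of_eq ?_)
    rw [← add_assoc, div_eq_inv_mul]
    push_cast
    rfl
  have h3 : ∑ k ∈ range (n - P.T₁ + 1), EA μ h n (fun _ s =>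
        |(pos s (k + (i + 1)) : ℝ) - pos s k - v * ((i + 1 : ℕ) : ℝ)|) ≤
      ∑ k ∈ range (n - (i + 1) + 1), EA μ h n (fun _ s =>
        |(pos s (k + (i + 1)) : ℝ) - pos s k - v * ((i + 1 : ℕ) : ℝ)|) := by
    refine Finset.sum_le_sum_of_subset_of_nonneg (Finset.range_subset_range.2 (by omega))
      fun k _ _ => EA_nonneg fun _ s _ => abs_nonneg _
  have hi0 : (1 : ℝ) ≤ ((i + 1 : ℕ) : ℝ) := by exact_mod_cast hi1
  have hiT : ((i + 1 : ℕ) : ℝ) ≤ P.T₁ := by exact_mod_cast hi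
  have h4 : (10 + 4 * Cc μ) * (Real.sqrt ((i + 1 : ℕ) : ℝ) * (1 + Real.log ((i + 1 : ℕ) : ℝ))) +
      D * ((i + 1 : ℕ) : ℝ) ≤
      (10 + 4 * Cc μ) * (Real.sqrt P.T₁ * (1 + Real.log P.T₁)) + D * P.T₁ := by
    have h5 : 0 ≤ 1 + Real.log ((i + 1 : ℕ) : ℝ) := by
      have := Real.log_nonneg hi0
      linarith
    have h6 : Real.log ((i + 1 : ℕ) : ℝ) ≤ Real.log P.T₁ :=
      Real.log_le_log (by linarith) hiT
    refine add_le_add (mul_le_mul_of_nonneg_left ?_ (by linarith))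
      (mul_le_mul_of_nonneg_left hiT hA.D0)
    exact mul_le_mul (Real.sqrt_le_sqrt hiT) (by linarith) h5 (Real.sqrt_nonneg _)
  have hn0 : (0 : ℝ) ≤ n := Nat.cast_nonneg n
  refine h2.trans ((mul_le_mul_of_nonneg_left (h3.trans h1) (inv_nonneg.2 hw0.le)).trans ?_)
  unfold piQ
  have h7 : (2 * (P.w : ℝ))⁻¹ * (n * (((10 + 4 * Cc μ) * (Real.sqrt ((i + 1 : ℕ) : ℝ) *
      (1 + Real.log ((i + 1 : ℕ) : ℝ))) + D * ((i + 1 : ℕ) : ℝ)) / δ)) =
      n * (((10 + 4 * Cc μ) * (Real.sqrt ((i + 1 : ℕ) : ℝ) *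
      (1 + Real.log ((i + 1 : ℕ) : ℝ))) + D * ((i + 1 : ℕ) : ℝ)) / δ / (2 * P.w)) := by
    rw [div_eq_mul_inv _ (2 * (P.w : ℝ))]
    ring
  rw [h7]
  refine mul_le_mul_of_nonneg_left ?_ hn0
  exact div_le_div_of_nonneg_right (div_le_div_of_nonneg_right h4 hδ.le) hw0.le

lemma AvgD_exp_le {u A : ℝ} (hA : 0 < A) (m : ℕ) {c : ℝ} (hc0 : 0 ≤ c) (hc1 : c ≤ 1) :
    Real.exp |u| * c ≤ A * c + (A ^ m)⁻¹ * Real.exp ((m + 1) * |u|) := by
  have hpos : 0 ≤ (A ^ m)⁻¹ * Real.exp ((m + 1) * |u|) := by positivity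
  rcases le_total (Real.exp |u|) A with h1 | h1
  · have := mul_le_mul_of_nonneg_right h1 hc0
    linarith
  · have h2 : Real.exp |u| ≤ (A ^ m)⁻¹ * Real.exp ((m + 1) * |u|) := by
      have h3 : Real.exp ((m + 1) * |u|) = Real.exp |u| ^ m * Real.exp |u| := by
        rw [← Real.exp_nat_mul, ← Real.exp_add]
        congr 1
        ring
      have h4 : A ^ m ≤ Real.exp |u| ^ m := pow_le_pow_left₀ hA.le h1 m
      have h5 : 0 < A ^ m := pow_pos hA m
      rw [h3, ← mul_assoc]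
      have h6 : 1 ≤ (A ^ m)⁻¹ * Real.exp |u| ^ m := by
        rw [inv_mul_eq_div, le_div_iff₀ h5, one_mul]
        exact h4
      have h7 := mul_le_mul_of_nonneg_right h6 (Real.exp_pos |u|).le
      linarith
    have h8 : Real.exp |u| * c ≤ Real.exp |u| := mul_le_of_le_one_right (Real.exp_pos _).le hc1
    have h9 : 0 ≤ A * c := mul_nonneg hA.le hc0
    linarith

/-- Proof. `e^{|u|} ind ≤ A ind + e^{(m+1)|u|} / A^m` (if `e^{|u|} > A` then `e^{|u|} ≤ e^{|u|} (e^{|u|}/A)^m`);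
`devQ` for the first part, `noise` with `Ψ u = e^{(m+1)|u|}` for each `k` for the second; there are
`n - T₁ + 1 ≤ n` values of `k`. -/
lemma devNQ (hμ : EM μ) {h δ v D : ℝ} (hA : NA μ h δ v D) (hw : 1 ≤ P.w) (hT : 1 ≤ P.T₁) {n i : ℕ}
    (hi : i < P.T₁) (hTn : P.T₁ ≤ n) {A : ℝ} (hA1 : 0 < A) (m : ℕ) :
    ∑ k ∈ range (n - P.T₁ + 1), EA μ h n (fun g s => Real.exp |g (k + i, pos s (k + i + 1))| *
        ind (2 * (P.w : ℝ) < |(pos s (k + i + 1) : ℝ) - pos s k - v * (i + 1)|)) ≤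
      n * (A * piQ P μ δ D + CN μ (fun u => Real.exp ((m + 1) * |u|)) / A ^ m) := by
  have h1 : ∀ k ∈ range (n - P.T₁ + 1),
      EA μ h n (fun g s => Real.exp |g (k + i, pos s (k + i + 1))| *
        ind (2 * (P.w : ℝ) < |(pos s (k + i + 1) : ℝ) - pos s k - v * (i + 1)|)) ≤
      A * EA μ h n (fun _ s =>
        ind (2 * (P.w : ℝ) < |(pos s (k + i + 1) : ℝ) - pos s k - v * (i + 1)|)) +
      CN μ (fun u => Real.exp ((m + 1) * |u|)) / A ^ m := by
    intro k _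
    have hPe : ∀ s ∈ T n, PMom (law μ) (fun g : Env => Real.exp |g (k + i, pos s (k + i + 1))|) :=
      fun s _ => (EMom_coord hμ _).abs.exp'
    have hPm : ∀ s ∈ T n, PMom (law μ)
        (fun g : Env => Real.exp ((m + 1) * |g (k + i, pos s (k + i + 1))|)) :=
      fun s _ => (EMom_coord hμ _).abs.exp_pmom _
    have hF : PF μ n (fun g s => Real.exp |g (k + i, pos s (k + i + 1))| *
        ind (2 * (P.w : ℝ) < |(pos s (k + i + 1) : ℝ) - pos s k - v * (i + 1)|)) :=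
      fun s hs => (hPe s hs).mul (PMom.const _)
    have hG1 : PF μ n (fun _ s => A *
        ind (2 * (P.w : ℝ) < |(pos s (k + i + 1) : ℝ) - pos s k - v * (i + 1)|)) := PF.det _
    have hG2 : PF μ n (fun g s => (A ^ m)⁻¹ *
        Real.exp ((m + 1) * |g (k + i, pos s (k + i + 1))|)) :=
      fun s hs => (hPm s hs).const_mul _
    have h2 := EA_mono (h := h) hF (hG1.add hG2) fun g s _ =>
      AvgD_exp_le hA1 m (ind_nonneg _) (ind_le_one _)
    rw [EA_add hG1 hG2, EA_const_mul, EA_const_mul] at h2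
    have h3 := noise hμ (Ψ := fun u => Real.exp ((m + 1) * |u|)) (by fun_prop)
      (fun u => (Real.exp_pos _).le) (fun p => (EMom_coord hμ p).abs.exp_pmom _)
      (by
        have h4 := hμ (m + 2)
        refine h4.congr (Filter.Eventually.of_forall fun u => ?_)
        show Real.exp _ = Real.exp _ * Real.exp _
        rw [← Real.exp_add]
        congr 1
        ring) h n (k + i) (fun s => pos s (k + i + 1))
    have h5 : 0 ≤ (A ^ m)⁻¹ := inv_nonneg.2 (pow_pos hA1 m).le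
    have h6 := mul_le_mul_of_nonneg_left h3 h5
    rw [div_eq_inv_mul]
    linarith
  refine (Finset.sum_le_sum h1).trans ?_
  rw [Finset.sum_add_distrib, ← Finset.mul_sum, Finset.sum_const, Finset.card_range,
    nsmul_eq_mul]
  have h2 := mul_le_mul_of_nonneg_left (devQ hμ hA hw hi hTn) hA1.le
  have hCN : 0 ≤ CN μ (fun u => Real.exp ((m + 1) * |u|)) :=
    div_nonneg (integral_nonneg fun u => mul_nonneg (Real.exp_pos _).le (Real.exp_pos _).le)
      (SiteN_den_pos μ).le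
  have h3 : ((n - P.T₁ + 1 : ℕ) : ℝ) ≤ n := by exact_mod_cast (by omega : n - P.T₁ + 1 ≤ n)
  have h4 := mul_le_mul_of_nonneg_right h3 (div_nonneg hCN (pow_pos hA1 m).le)
  linarith

/-- `Phi` in terms of the walk. Proof. Definitions; `tube_shift` (`tubeX … (shiftEnv t x g) 0 0 = tubeX … g t x`),
`shiftEnv t x g (i, y) = g (i + t, y + x)`, `pos (shf t s) (i+1) = pos s (t + i + 1) - pos s t`
(`pos_add`). -/
lemma Phi_walk (P : Prm) (μ : Measure ℝ) (p q v : ℝ) (g : Env) (t : ℕ) (s : ℕ → Bool) :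
    Phi P μ p q v g t (pos s t) (shf t s) =
      (kmin μ p q * P.T₁)⁻¹ * (max (tubeX (phc μ p q) v P.w g t (pos s t) P.T₁) 0 +
        Mom μ 1 * ∑ i ∈ range P.T₁, Real.exp |g (t + i, pos s (t + i + 1))| *
          ind (2 * (P.w : ℝ) < |(pos s (t + i + 1) : ℝ) - pos s t - v * (i + 1)|)) +
      (P.T₁ : ℝ)⁻¹ * ∑ i ∈ range P.T₁,
        ind (2 * (P.w : ℝ) < |(pos s (t + i + 1) : ℝ) - pos s t - v * (i + 1)|) := by
  have h1 := CloseW_Phi (μ := μ) P p q v g 0 t (0, s)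
  simp only [zero_add, Int.cast_zero] at h1
  exact h1

lemma AvgD_phi_int (p q : ℝ) : Integrable (phi p q) μ := by
  refine Integrable.mono' (integrable_const (1 : ℝ)) (SiteG_phi_meas p q).aestronglyMeasurable ?_
  refine Filter.Eventually.of_forall fun u => ?_
  rw [Real.norm_eq_abs, abs_of_nonneg (SiteG_phi_nonneg p q u)]
  exact SiteG_phi_le p q u

lemma AvgD_phc_abs (p q u : ℝ) : |phc μ p q u| ≤ 1 := by
  have h1 : 0 ≤ ∫ u, phi p q u ∂μ := integral_nonneg fun u => SiteG_phi_nonneg p q u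
  have h2 : ∫ u, phi p q u ∂μ ≤ 1 := by
    have h3 := integral_mono (AvgD_phi_int (μ := μ) p q) (integrable_const (1 : ℝ))
      fun u => SiteG_phi_le p q u
    simpa using h3
  have h3 := SiteG_phi_nonneg p q u
  have h4 := SiteG_phi_le p q u
  unfold phc
  rw [abs_le]
  constructor <;> linarith

lemma AvgD_phc_zero (p q : ℝ) : ∫ u, phc μ p q u ∂μ = 0 := by
  unfold phc
  rw [integral_sub (AvgD_phi_int p q) (integrable_const _)]
  simp

/-- **Average closeness.** Proof. `Phi_walk`, linearity (`EA_add`, `EA_sum`, `EA_const_mul`, exchange of the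
sums over `k` and `i`), `tubeQ` with `φ = phc μ p q` (`close_phi_…` lemmas), `devNQ`, `devQ`. -/
theorem PhiQ (hμ : EM μ) {p q : ℝ} (hk : 0 < kmin μ p q) {h δ v D : ℝ}
    (hA : NA μ h δ v D) (hw : 1 ≤ P.w) (hT : 4 ≤ P.T₁) {n : ℕ} (hTn : P.T₁ ≤ n) {A : ℝ}
    (hA1 : 0 < A) (m : ℕ) :
    ∑ t ∈ range (n - P.T₁ + 1), EA μ h n (fun g s => Phi P μ p q v g t (pos s t) (shf t s)) ≤
      n * psP P μ p q δ D A m := by
  have hT0 : (0 : ℝ) < P.T₁ := by exact_mod_cast (by omega : 0 < P.T₁)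
  have hMom : 0 ≤ Mom μ 1 := integral_nonneg fun u => (Real.exp_pos _).le
  have hkT : 0 ≤ (kmin μ p q * P.T₁)⁻¹ := inv_nonneg.2 (mul_pos hk hT0).le
  have h1 : ∀ t, EA μ h n (fun g s => Phi P μ p q v g t (pos s t) (shf t s)) =
      (kmin μ p q * P.T₁)⁻¹ *
        (EA μ h n (fun g s => max (tubeX (phc μ p q) v P.w g t (pos s t) P.T₁) 0) +
        Mom μ 1 * ∑ i ∈ range P.T₁, EA μ h n (fun g s =>
          Real.exp |g (t + i, pos s (t + i + 1))| *
          ind (2 * (P.w : ℝ) < |(pos s (t + i + 1) : ℝ) - pos s t - v * (i + 1)|))) +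
      (P.T₁ : ℝ)⁻¹ * ∑ i ∈ range P.T₁, EA μ h n (fun _ s =>
        ind (2 * (P.w : ℝ) < |(pos s (t + i + 1) : ℝ) - pos s t - v * (i + 1)|)) := by
    intro t
    have hF1 : PF μ n (fun g s => max (tubeX (phc μ p q) v P.w g t (pos s t) P.T₁) 0) :=
      fun s _ => CloseW_maxP p q v P.w t _ _
    have hF2 : ∀ i ∈ range P.T₁, PF μ n (fun g s =>
        Real.exp |g (t + i, pos s (t + i + 1))| *
        ind (2 * (P.w : ℝ) < |(pos s (t + i + 1) : ℝ) - pos s t - v * (i + 1)|)) :=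
      fun i _ s _ => ((EMom_coord hμ _).abs.exp').mul (PMom.const _)
    have hF3 : ∀ i ∈ range P.T₁, PF μ n (fun (_ : Env) s =>
        ind (2 * (P.w : ℝ) < |(pos s (t + i + 1) : ℝ) - pos s t - v * (i + 1)|)) :=
      fun i _ => PF.det _
    have h2 : EA μ h n (fun g s => Phi P μ p q v g t (pos s t) (shf t s)) =
        EA μ h n (fun g s => (kmin μ p q * P.T₁)⁻¹ *
        (max (tubeX (phc μ p q) v P.w g t (pos s t) P.T₁) 0 +
        Mom μ 1 * ∑ i ∈ range P.T₁, Real.exp |g (t + i, pos s (t + i + 1))| *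
          ind (2 * (P.w : ℝ) < |(pos s (t + i + 1) : ℝ) - pos s t - v * (i + 1)|)) +
      (P.T₁ : ℝ)⁻¹ * ∑ i ∈ range P.T₁,
        ind (2 * (P.w : ℝ) < |(pos s (t + i + 1) : ℝ) - pos s t - v * (i + 1)|)) :=
      EA_congr fun g s _ => Phi_walk P μ p q v g t s
    rw [h2, EA_add (((hF1.add ((PF.sum _ hF2).const_mul _))).const_mul _)
      ((PF.sum _ hF3).const_mul _), EA_const_mul, EA_const_mul,
      EA_add hF1 ((PF.sum _ hF2).const_mul _), EA_const_mul, EA_sum _ hF2, EA_sum _ hF3]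
  rw [Finset.sum_congr rfl fun t _ => h1 t, Finset.sum_add_distrib, ← Finset.mul_sum,
    ← Finset.mul_sum, Finset.sum_add_distrib, ← Finset.mul_sum, Finset.sum_comm,
    Finset.sum_comm (s := range (n - P.T₁ + 1)) (t := range P.T₁)
      (f := fun t i => EA μ h n (fun _ s =>
        ind (2 * (P.w : ℝ) < |(pos s (t + i + 1) : ℝ) - pos s t - v * (i + 1)|)))]
  have h2 := tubeQ hμ (φ := phc μ p q) (CloseW_phc_meas p q) (AvgD_phc_abs p q)
    (AvgD_phc_zero p q) h v hw hT hTn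
  have h3 : ∑ i ∈ range P.T₁, ∑ t ∈ range (n - P.T₁ + 1), EA μ h n (fun g s =>
        Real.exp |g (t + i, pos s (t + i + 1))| *
        ind (2 * (P.w : ℝ) < |(pos s (t + i + 1) : ℝ) - pos s t - v * (i + 1)|)) ≤
      P.T₁ * (n * (A * piQ P μ δ D + CN μ (fun u => Real.exp ((m + 1) * |u|)) / A ^ m)) := by
    refine (Finset.sum_le_sum fun i hi => devNQ hμ hA hw (by omega) (Finset.mem_range.1 hi)
      hTn hA1 m).trans (le_of_eq ?_)
    rw [Finset.sum_const, Finset.card_range, nsmul_eq_mul]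
  have h4 : ∑ i ∈ range P.T₁, ∑ t ∈ range (n - P.T₁ + 1), EA μ h n (fun _ s =>
        ind (2 * (P.w : ℝ) < |(pos s (t + i + 1) : ℝ) - pos s t - v * (i + 1)|)) ≤
      P.T₁ * (n * piQ P μ δ D) := by
    refine (Finset.sum_le_sum fun i hi => devQ hμ hA hw (Finset.mem_range.1 hi) hTn).trans
      (le_of_eq ?_)
    rw [Finset.sum_const, Finset.card_range, nsmul_eq_mul]
  refine (add_le_add (mul_le_mul_of_nonneg_left (add_le_add h2
    (mul_le_mul_of_nonneg_left h3 hMom)) hkT)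
    (mul_le_mul_of_nonneg_left h4 (inv_nonneg.2 hT0.le))).trans (le_of_eq ?_)
  unfold psP
  have hk' : kmin μ p q ≠ 0 := hk.ne'
  have hT' : (P.T₁ : ℝ) ≠ 0 := hT0.ne'
  rw [mul_inv]
  have e1 : (P.T₁ : ℝ)⁻¹ * P.T₁ = 1 := inv_mul_cancel₀ hT'
  generalize CU μ * (Real.sqrt P.w * Real.sqrt P.T₁ * (1 + Real.log P.T₁)) = X1
  generalize A * piQ P μ δ D + CN μ (fun u => Real.exp ((m + 1) * |u|)) / A ^ m = X2
  generalize piQ P μ δ D = X3
  generalize (P.T₁ : ℝ)⁻¹ = X4 at e1 ⊢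
  generalize (kmin μ p q)⁻¹ = X5
  calc X5 * X4 * (n * X1 + Mom μ 1 * (P.T₁ * (n * X2))) + X4 * (P.T₁ * (n * X3)) =
      n * (X5 * X4 * X1) + (X4 * P.T₁) * (n * (X5 * (Mom μ 1 * X2))) + (X4 * P.T₁) * (n * X3) := by
        ring
    _ = n * (X5 * X4 * X1 + X5 * (Mom μ 1 * X2) + X3) := by rw [e1]; ring

/-- **Average slopes.** Proof. `|pos (shf k s) L| > ρ L` implies
`|pos s (k + L) - pos s k - v L| ≥ (ρ - vb) L`; `ind_le_div` and `driftQ` with `t = L`. -/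
theorem SlQ (hμ : EM μ) {h δ v D vb : ℝ} (hA : NA μ h δ v D) (hv : |v| ≤ vb) (hρ : vb < P.ρ)
    (hL : 1 ≤ P.L) {n : ℕ} (hLn : P.L ≤ n) :
    ∑ k ∈ range (n - P.L + 1), EA μ h n (fun _ s => Sl P (shf k s)) ≤ n * psS P μ δ D vb := by
  have hL0 : (0 : ℝ) < P.L := by exact_mod_cast hL
  have hc : 0 < (P.ρ - vb) * P.L := mul_pos (by linarith) hL0
  have h1 := driftQ hμ hA hL hLn
  have h2 : ∑ k ∈ range (n - P.L + 1), EA μ h n (fun _ s => Sl P (shf k s)) ≤
      ((P.ρ - vb) * P.L)⁻¹ * ∑ k ∈ range (n - P.L + 1), EA μ h n (fun _ s =>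
        |(pos s (k + P.L) : ℝ) - pos s k - v * P.L|) := by
    rw [Finset.mul_sum]
    refine Finset.sum_le_sum fun k _ => ?_
    rw [← EA_const_mul]
    refine EA_mono (PF.det _) (PF.det _) fun _ s _ => ?_
    have h3 := ind_le_div hc (abs_nonneg ((pos s (k + P.L) : ℝ) - pos s k - v * P.L))
    rw [div_eq_inv_mul] at h3
    refine le_trans ?_ h3
    unfold Sl
    refine ind_mono fun hlt => ?_
    have h4 : (pos (shf k s) P.L : ℝ) = (pos s (k + P.L) : ℝ) - pos s k := by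
      rw [pos_add]
      push_cast
      ring
    rw [h4] at hlt
    have h5 : |v * (P.L : ℝ)| ≤ vb * P.L := by
      rw [abs_mul, abs_of_pos hL0]
      exact mul_le_mul_of_nonneg_right hv hL0.le
    have h6 := abs_sub_abs_le_abs_sub ((pos s (k + P.L) : ℝ) - pos s k) (v * P.L)
    have h7 : (P.ρ - vb) * P.L = P.ρ * P.L - vb * P.L := by ring
    linarith
  refine h2.trans ((mul_le_mul_of_nonneg_left h1 (inv_nonneg.2 hc.le)).trans (le_of_eq ?_))
  unfold psS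
  rw [div_eq_mul_inv _ ((P.ρ - vb) * P.L)]
  ring

end

end Pool.Agent.W_7d29a1_h47
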