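import Pool.Agent.W_7d29a1_h47q.NMb

/-!
# The no-meeting bound for random weights
-/

namespace Pool.Agent.W_7d29a1_h47

open MeasureTheory ProbabilityTheory Finset

noncomputable section

variable {P : Prm} {μ : Measure ℝ} [IsProbabilityMeasure μ]

omit [IsProbabilityMeasure μ] in
/-- `Phi0` only sees the rows `< T₁`. -/
lemma Lift_Phi0 (p q v : ℝ) {G₁ G₂ : Env} (hG : ∀ i < P.T₁, ∀ y : ℤ, G₁ (i, y) = G₂ (i, y))
    (r : ℕ → Bool) : Phi0 P μ p q v G₁ r = Phi0 P μ p q v G₂ r := by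
  have h1 : tubeX (phc μ p q) v P.w G₁ 0 0 P.T₁ = tubeX (phc μ p q) v P.w G₂ 0 0 P.T₁ := by
    unfold tubeX
    refine Finset.sum_congr rfl fun i hi => Finset.sum_congr rfl fun y _ => ?_
    rw [Nat.zero_add, hG i (Finset.mem_range.1 hi) y]
  have h2 : ∑ i ∈ range P.T₁, Real.exp |G₁ (i, pos r (i + 1))| *
      ind (2 * (P.w : ℝ) < |(pos r (i + 1) : ℝ) - v * (i + 1)|) =
      ∑ i ∈ range P.T₁, Real.exp |G₂ (i, pos r (i + 1))| *
      ind (2 * (P.w : ℝ) < |(pos r (i + 1) : ℝ) - v * (i + 1)|) :=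
    Finset.sum_congr rfl fun i hi => by rw [hG i (Finset.mem_range.1 hi)]
  unfold Phi0
  rw [h1, h2]

omit [IsProbabilityMeasure μ] in
/-- Translation covariance of `Phi`. -/
lemma Lift_Phi {g₁ g₂ : Env} {t₁ t₂ : ℕ} {c : ℤ}
    (hg : ∀ i < P.T₁, ∀ y : ℤ, g₁ (t₁ + i, y + c) = g₂ (t₂ + i, y)) (p q v : ℝ) (x : ℤ)
    (r : ℕ → Bool) : Phi P μ p q v g₁ t₁ (x + c) r = Phi P μ p q v g₂ t₂ x r := by
  unfold Phi
  refine Lift_Phi0 p q v (fun i hi y => ?_) r
  show g₁ (i + t₁, y + (x + c)) = g₂ (i + t₂, y + x)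
  have h1 := hg i hi (y + x)
  rw [show i + t₁ = t₁ + i by omega, show i + t₂ = t₂ + i by omega, ← h1]
  congr 2
  ring

omit [IsProbabilityMeasure μ] in
/-- Translation covariance of `Phi` along the walk. -/
lemma Lift_at {g₁ g₂ : Env} {t₁ t₂ : ℕ} {c : ℤ}
    (hg : ∀ i < P.R, ∀ y : ℤ, g₁ (t₁ + i, y + c) = g₂ (t₂ + i, y)) (p q v : ℝ) (x : ℤ)
    (r : ℕ → Bool) {j : ℕ} (hj : j + P.T₁ ≤ P.R) :
    Phi P μ p q v g₁ (t₁ + j) (x + c + pos r j) (shf j r) =
      Phi P μ p q v g₂ (t₂ + j) (x + pos r j) (shf j r) := by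
  have h1 : x + c + pos r j = x + pos r j + c := by ring
  rw [h1]
  refine Lift_Phi (fun i hi y => ?_) p q v _ _
  rw [Nat.add_assoc, Nat.add_assoc]
  exact hg (j + i) (by omega) y

omit [IsProbabilityMeasure μ] in
/-- Translation covariance (without the measure being a probability). -/
lemma Lift_Psi (hT : P.T₁ ≤ P.TB) {g₁ g₂ : Env} {t₁ t₂ : ℕ} {c : ℤ}
    (hg : ∀ i < P.R, ∀ y : ℤ, g₁ (t₁ + i, y + c) = g₂ (t₂ + i, y)) (p q h v : ℝ) (x : ℤ)
    (r : ℕ → Bool) : Psi P μ p q h v g₁ t₁ (x + c) r = Psi P μ p q h v g₂ t₂ x r := by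
  have hD : Dn P μ h g₁ t₁ (x + c) r = Dn P μ h g₂ t₂ x r := by
    unfold Dn
    rw [show x + c + pos r P.R = x + pos r P.R + c by ring, Kp_transl hg]
  have hTB : ∀ a < P.I, ∀ l, l ≤ P.TB → a * P.TB + l + P.T₁ ≤ P.R := by
    intro a ha l hl
    unfold Prm.R
    have h1 : (a + 2) * P.TB ≤ (P.I + 1) * P.TB := Nat.mul_le_mul_right _ (by omega)
    have h2 : (a + 2) * P.TB = a * P.TB + P.TB + P.TB := by ring
    omega
  have hL : P.L ≤ P.TB := by unfold Prm.TB; omega
  have hLl : P.L + P.ℓ ≤ P.TB := by unfold Prm.TB; omega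
  unfold Psi
  rw [hD]
  congr 2
  refine Finset.sum_congr rfl fun a ha => ?_
  have ha' := Finset.mem_range.1 ha
  have e1 := Lift_at (μ := μ) hg p q v x r (j := a * P.TB + P.L) (hTB a ha' _ hL)
  have e2 := Lift_at (μ := μ) hg p q v x r (j := a * P.TB + P.L + P.ℓ) (by
    have := hTB a ha' _ hLl
    omega)
  have e3 : ∑ j ∈ range P.ℓ, Phi P μ p q v g₁ (t₁ + (a * P.TB + P.L + j + 1))
      (x + c + pos r (a * P.TB + P.L + j + 1)) (shf (a * P.TB + P.L + j + 1) r) =
      ∑ j ∈ range P.ℓ, Phi P μ p q v g₂ (t₂ + (a * P.TB + P.L + j + 1))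
      (x + pos r (a * P.TB + P.L + j + 1)) (shf (a * P.TB + P.L + j + 1) r) := by
    refine Finset.sum_congr rfl fun j hj => ?_
    have hj' := Finset.mem_range.1 hj
    refine Lift_at (μ := μ) hg p q v x r (j := a * P.TB + P.L + j + 1) ?_
    have := hTB a ha' (P.L + j + 1) (by omega)
    omega
  rw [e1, e2, e3]

/-- `Psi` only sees the rows of the window. Proof. `dependsOn_Kp` for `Dn`; `Phi` at time `t = k + j`,
`j + T₁ ≤ R`, sees the rows `t, …, t + T₁ - 1` (`CloseU_tube_dep`, `tube_shift`, or the definitions of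
`Phi0`, `shiftEnv`); all times that occur satisfy this because `a < I` and `T₁ ≤ TB`. -/
lemma dependsOn_Psi (hT : P.T₁ ≤ P.TB) (p q h v : ℝ) (k : ℕ) (x : ℤ) (r : ℕ → Bool) :
    DependsOn (fun g : Env => Psi P μ p q h v g k x r) (rows k (k + P.R)) := by
  intro g g' hg
  have h1 := Lift_Psi (P := P) (μ := μ) hT (g₁ := g) (g₂ := g') (t₁ := k) (t₂ := k) (c := 0)
    (fun i hi y => by
      rw [add_zero]
      exact hg (k + i, y) ⟨Nat.le_add_right _ _, Nat.add_lt_add_left hi k⟩) p q h v x r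
  rw [add_zero] at h1
  exact h1

/-- Translation covariance. Proof. `Kp_transl` for `Dn`; for `Phi`: `shiftEnv (t₁ + j) (x + c + z) g₁` and
`shiftEnv (t₂ + j) (x + z) g₂` agree on the rows `< T₁` (`j + T₁ ≤ R`), and `Phi0` only sees these
rows (definition of `tubeX`, or `tube_shift`). -/
lemma Psi_transl (hT : P.T₁ ≤ P.TB) {g₁ g₂ : Env} {t₁ t₂ : ℕ} {c : ℤ}
    (hg : ∀ i < P.R, ∀ y : ℤ, g₁ (t₁ + i, y + c) = g₂ (t₂ + i, y)) (p q h v : ℝ) (x : ℤ)
    (r : ℕ → Bool) : Psi P μ p q h v g₁ t₁ (x + c) r = Psi P μ p q h v g₂ t₂ x r := by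
  exact Lift_Psi hT hg p q h v x r

/-- Measurability of Gibbs averages with random weights. Proof. `SA` is a quotient of finite sums;
`Wc` is a product of measurable functions; `measurable_gs`. -/
lemma measurable_SA_rand {Ω : Type*} [MeasurableSpace Ω] {h : ℝ} {N R k : ℕ} {G : Ω → Env}
    (hG : Measurable G) {α γ : Ω → ℤ → ℝ} (hα : ∀ x, Measurable fun w => α w x)
    (hγ : ∀ x, Measurable fun w => γ w x) {F : Ω → ℤ × (ℕ → Bool) → ℝ}
    (hF : ∀ i ∈ WI N R, Measurable fun w => F w i) :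
    Measurable fun w => SA (WI N R) (Wc h R (α w) (γ w)) (WA k R) (G w) (F w) := by
  have hw : ∀ i : ℤ × (ℕ → Bool), Measurable fun w =>
      Wc h R (α w) (γ w) i * Real.exp (gs (G w) (WA k R i)) := by
    intro i
    have h1 : Measurable fun w => Wc h R (α w) (γ w) i := by
      unfold Wc
      exact ((hα i.1).mul measurable_const).mul (hγ _)
    exact h1.mul (Real.measurable_exp.comp ((measurable_gs (WA k R i)).comp hG))
  unfold SA SZ
  refine Measurable.div (Finset.measurable_sum _ fun i hi => (hw i).mul (hF i hi))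
    (Finset.measurable_sum _ fun i _ => hw i)

/-- Conditioning on the environment off `A`. -/
lemma Lift_cond (A : Set (ℕ × ℤ)) {F G : Env → ℝ} (hF : Integrable F (law μ))
    (hG : Integrable G (law μ)) {e : ℝ}
    (h : ∀ g' : Env, ∫ g, F (splice A g g') ∂(law μ) ≤ e + ∫ g, G (splice A g g') ∂(law μ)) :
    ∫ g, F g ∂(law μ) ≤ e + ∫ g, G g ∂(law μ) := by
  have iF := integrable_splice A hF
  have iG := integrable_splice A hG
  have eF : ∫ g, F g ∂(law μ) = ∫ g', ∫ g, F (splice A g g') ∂(law μ) ∂(law μ) := by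
    rw [← integral_prod_symm (fun w : Env × Env => F (splice A w.1 w.2)) iF]
    exact (mp_integral (mp_splice A) hF.aestronglyMeasurable).symm
  have eG : ∫ g, G g ∂(law μ) = ∫ g', ∫ g, G (splice A g g') ∂(law μ) ∂(law μ) := by
    rw [← integral_prod_symm (fun w : Env × Env => G (splice A w.1 w.2)) iG]
    exact (mp_integral (mp_splice A) hG.aestronglyMeasurable).symm
  have jF : Integrable (fun g' => ∫ g, F (splice A g g') ∂(law μ)) (law μ) :=
    iF.integral_prod_right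
  have jG : Integrable (fun g' => ∫ g, G (splice A g g') ∂(law μ)) (law μ) :=
    iG.integral_prod_right
  have h1 : ∫ g', ∫ g, F (splice A g g') ∂(law μ) ∂(law μ) ≤
      ∫ g', (e + ∫ g, G (splice A g g') ∂(law μ)) ∂(law μ) :=
    integral_mono jF ((integrable_const e).add jG) h
  rw [eF, eG]
  refine h1.trans (le_of_eq ?_)
  rw [integral_add (integrable_const e) jG, integral_const]
  simp

lemma Lift_SA2 {P : Prm} {h : ℝ} {N k : ℕ} {Ω : Type*} [MeasurableSpace Ω] {ν : Measure Ω}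
    [IsFiniteMeasure ν] {G : Ω → Env} (hG : Measurable G) {α γ : Ω → ℤ → ℝ}
    (hα : ∀ x, Measurable fun w => α w x) (hγ : ∀ x, Measurable fun w => γ w x)
    (hc : ∀ w, Adms (WI N P.R) (Wc h P.R (α w) (γ w))) :
    Integrable (fun w => SA2 (WI N P.R) (Wc h P.R (α w) (γ w)) (WA k P.R) (G w) (nmW P.R)) ν := by
  refine Integrable.mono' (integrable_const (1 : ℝ)) (Measurable.aestronglyMeasurable ?_)
    (Filter.Eventually.of_forall fun w => ?_)
  · unfold SA2
    exact measurable_SA_rand hG hα hγ fun i _ =>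
      measurable_SA_rand (F := fun _ j => nmW P.R i j) hG hα hγ fun j _ => measurable_const
  · rw [Real.norm_eq_abs, abs_le]
    constructor
    · have := SA2_nonneg (A := WA k P.R) (g := G w) (hc w) (F := nmW P.R)
        fun i _ j _ => ind_nonneg _
      linarith
    · exact SA2_le (hc w) fun i _ j _ => ind_le_one _

lemma Lift_SA (hμ : EM μ) {P : Prm} {p q h v : ℝ} {N k : ℕ} {Ω : Type*} [MeasurableSpace Ω]
    {ν : Measure Ω} {G : Ω → Env} (hG : MeasurePreserving G ν (law μ)) {α γ : Ω → ℤ → ℝ}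
    (hα : ∀ x, Measurable fun w => α w x) (hγ : ∀ x, Measurable fun w => γ w x)
    (hc : ∀ w, Adms (WI N P.R) (Wc h P.R (α w) (γ w))) :
    Integrable (fun w => SA (WI N P.R) (Wc h P.R (α w) (γ w)) (WA k P.R) (G w)
      (fun i => Psi P μ p q h v (G w) k i.1 i.2)) ν := by
  have hP : ∀ i : ℤ × (ℕ → Bool), PMom (law μ) (fun g : Env => Psi P μ p q h v g k i.1 i.2) :=
    fun i => PMom_Psi hμ P p q h v k i.1 i.2
  refine Integrable.mono' (g := fun w => ∑ i ∈ WI N P.R, |Psi P μ p q h v (G w) k i.1 i.2|)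
    (integrable_finsetSum _ fun i _ => ?_) (Measurable.aestronglyMeasurable ?_)
    (Filter.Eventually.of_forall fun w => ?_)
  · exact (hG.integrable_comp_of_integrable (hP i).integrable).abs
  · exact measurable_SA_rand hG.measurable hα hγ fun i _ => (hP i).1.comp hG.measurable
  · rw [Real.norm_eq_abs]
    exact abs_SA_le_sum (hc w) _

/-- **No-meeting bound for random weights** which do not depend on the rows of the window. Proof.
`integral_splice` with `A = rows k (k + R)` for both sides (the left integrand is measurable and in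
`[0, 1]`, the right one is bounded by `∑ |Psi|` and has all moments: `abs_SA_le_sum`, `PMom_Psi`).
`∫ F = ∫∫ F (splice A g g') dlaw(g') dlaw(g)`; exchange the order of the integrals
(`integral_integral_swap`), so that the inner integral is over `g` for fixed `g'`:
`α (splice A g g') = α g'`, `γ (splice …) = γ g'` (`DependsOn … Aᶜ`, `splice_not_mem`),
`gs (splice …) (WA k R i) = gs g (WA k R i)` (the sites of `WA k R i` are in `A`) and
`Psi … (splice …) = Psi … g` (`dependsOn_Psi`). `nm_win` for the deterministic weights `α g'`, `γ g'`. -/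
theorem nm_rand (hμ : EM μ) {p q : ℝ} (hpq : p < q) (hk : 0 < kmin μ p q) (hP : P.Ok μ p q) (h : ℝ)
    {v : ℝ} (hv : |v| ≤ 1) {N k : ℕ} {α γ : Env → ℤ → ℝ} (hαm : ∀ x, Measurable fun g => α g x)
    (hγm : ∀ x, Measurable fun g => γ g x) (hα : ∀ g x, 0 ≤ α g x) (hγ : ∀ g x, 0 ≤ γ g x)
    (hαd : ∀ x, DependsOn (fun g => α g x) (rows k (k + P.R))ᶜ)
    (hγd : ∀ x, DependsOn (fun g => γ g x) (rows k (k + P.R))ᶜ)
    (hc : ∀ g, Adms (WI N P.R) (Wc h P.R (α g) (γ g))) {e : ℤ}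
    (he : ∀ g x, α g x ≠ 0 → (x - e) % 2 = 0) :
    ∫ g : Env, SA2 (WI N P.R) (Wc h P.R (α g) (γ g)) (WA k P.R) g (nmW P.R) ∂(law μ) ≤
      e0 P μ + ∫ g : Env, SA (WI N P.R) (Wc h P.R (α g) (γ g)) (WA k P.R) g
        (fun i => Psi P μ p q h v g k i.1 i.2) ∂(law μ) := by
  set A : Set (ℕ × ℤ) := rows k (k + P.R) with hA
  have hT : P.T₁ ≤ P.TB := hP.TT
  refine Lift_cond A
    (F := fun g => SA2 (WI N P.R) (Wc h P.R (α g) (γ g)) (WA k P.R) g (nmW P.R))
    (G := fun g => SA (WI N P.R) (Wc h P.R (α g) (γ g)) (WA k P.R) g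
        (fun i => Psi P μ p q h v g k i.1 i.2))
    (Lift_SA2 (G := fun g => g) measurable_id hαm hγm hc)
    (Lift_SA hμ (G := fun g => g) (MeasurePreserving.id _) hαm hγm hc) fun g' => ?_
  have ea : ∀ g : Env, α (splice A g g') = α g' := fun g => funext fun x =>
    hαd x fun p hp => splice_not_mem g g' hp
  have eγ : ∀ g : Env, γ (splice A g g') = γ g' := fun g => funext fun x =>
    hγd x fun p hp => splice_not_mem g g' hp
  have egs : ∀ (g : Env) (i : ℤ × (ℕ → Bool)),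
      gs (splice A g g') (WA k P.R i) = gs g (WA k P.R i) := fun g i => by
    refine Finset.sum_congr rfl fun z hz => splice_mem g g' ?_
    obtain ⟨j, hj, rfl⟩ := mem_WA.1 hz
    exact ⟨Nat.le_add_right _ _, Nat.add_lt_add_left hj k⟩
  have ePs : ∀ (g : Env) (i : ℤ × (ℕ → Bool)),
      Psi P μ p q h v (splice A g g') k i.1 i.2 = Psi P μ p q h v g k i.1 i.2 := fun g i =>
    dependsOn_Psi hT p q h v k i.1 i.2 fun z hz => splice_mem g g' hz
  have eZ : ∀ (c : ℤ × (ℕ → Bool) → ℝ) (g : Env) (F : ℤ × (ℕ → Bool) → ℝ),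
      SA (WI N P.R) c (WA k P.R) (splice A g g') F = SA (WI N P.R) c (WA k P.R) g F := by
    intro c g F
    unfold SA SZ
    simp only [egs]
  have e1 : ∀ g : Env, SA2 (WI N P.R) (Wc h P.R (α (splice A g g')) (γ (splice A g g')))
      (WA k P.R) (splice A g g') (nmW P.R) =
      SA2 (WI N P.R) (Wc h P.R (α g') (γ g')) (WA k P.R) g (nmW P.R) := by
    intro g
    unfold SA2
    simp only [ea, eγ, eZ]
  have e2 : ∀ g : Env, SA (WI N P.R) (Wc h P.R (α (splice A g g')) (γ (splice A g g')))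
      (WA k P.R) (splice A g g') (fun i => Psi P μ p q h v (splice A g g') k i.1 i.2) =
      SA (WI N P.R) (Wc h P.R (α g') (γ g')) (WA k P.R) g
        (fun i => Psi P μ p q h v g k i.1 i.2) := by
    intro g
    simp only [ea, eγ, eZ, ePs]
  simp only [e1, e2]
  exact nm_win hμ hpq hk hP h hv (hα g') (hγ g') (hc g') (he g')

/-- The same with a second, independent environment. Proof. Fubini (`integral_prod_symm`;
integrability as in `nm_rand`) and `nm_rand` for every fixed second environment. -/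
theorem nm_rand2 (hμ : EM μ) {p q : ℝ} (hpq : p < q) (hk : 0 < kmin μ p q) (hP : P.Ok μ p q) (h : ℝ)
    {v : ℝ} (hv : |v| ≤ 1) {N k : ℕ} {α γ : Env → Env → ℤ → ℝ}
    (hαm : ∀ x, Measurable fun w : Env × Env => α w.1 w.2 x)
    (hγm : ∀ x, Measurable fun w : Env × Env => γ w.1 w.2 x) (hα : ∀ g g' x, 0 ≤ α g g' x)
    (hγ : ∀ g g' x, 0 ≤ γ g g' x)
    (hαd : ∀ g' x, DependsOn (fun g => α g g' x) (rows k (k + P.R))ᶜ)
    (hγd : ∀ g' x, DependsOn (fun g => γ g g' x) (rows k (k + P.R))ᶜ)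
    (hc : ∀ g g', Adms (WI N P.R) (Wc h P.R (α g g') (γ g g'))) {e : ℤ}
    (he : ∀ g g' x, α g g' x ≠ 0 → (x - e) % 2 = 0) :
    ∫ w : Env × Env, SA2 (WI N P.R) (Wc h P.R (α w.1 w.2) (γ w.1 w.2)) (WA k P.R) w.1 (nmW P.R)
        ∂(law2 μ) ≤
      e0 P μ + ∫ w : Env × Env, SA (WI N P.R) (Wc h P.R (α w.1 w.2) (γ w.1 w.2)) (WA k P.R) w.1
        (fun i => Psi P μ p q h v w.1 k i.1 i.2) ∂(law2 μ) := by
  have iF : Integrable (fun w : Env × Env =>
      SA2 (WI N P.R) (Wc h P.R (α w.1 w.2) (γ w.1 w.2)) (WA k P.R) w.1 (nmW P.R)) (law2 μ) :=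
    Lift_SA2 (Ω := Env × Env) (G := fun w => w.1) (α := fun w => α w.1 w.2)
      (γ := fun w => γ w.1 w.2) measurable_fst hαm hγm fun w => hc w.1 w.2
  have iG : Integrable (fun w : Env × Env =>
      SA (WI N P.R) (Wc h P.R (α w.1 w.2) (γ w.1 w.2)) (WA k P.R) w.1
        (fun i => Psi P μ p q h v w.1 k i.1 i.2)) (law2 μ) :=
    Lift_SA hμ (Ω := Env × Env) (G := fun w => w.1) (α := fun w => α w.1 w.2)
      (γ := fun w => γ w.1 w.2) measurePreserving_fst hαm hγm fun w => hc w.1 w.2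
  rw [integral_prod_symm _ iF, integral_prod_symm _ iG]
  have jF := iF.integral_prod_right
  have jG := iG.integral_prod_right
  refine (integral_mono jF ((integrable_const (e0 P μ)).add jG) fun g' => ?_).trans
    (le_of_eq ?_)
  · have hm : Measurable (fun g : Env => (g, g')) := measurable_id.prodMk measurable_const
    exact nm_rand hμ hpq hk hP h hv (α := fun g => α g g') (γ := fun g => γ g g')
      (fun x => (hαm x).comp hm) (fun x => (hγm x).comp hm) (fun g x => hα g g' x)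
      (fun g x => hγ g g' x) (hαd g') (hγd g') (fun g => hc g g') (fun g x => he g g' x)
  · rw [integral_add' (integrable_const _) jG, integral_const]
    simp

end

end Pool.Agent.W_7d29a1_h47
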