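import Pool.Agent.W_7d29a1_h47q.CrossD
import Pool.Agent.W_7d29a1_h47q.Lift
import Pool.Agent.W_7d29a1_h47.InsE

/-!
# The past window
-/

namespace Pool.Agent.W_7d29a1_h47

open MeasureTheory ProbabilityTheory Finset

noncomputable section

variable {P : Prm} {μ : Measure ℝ} [IsProbabilityMeasure μ]

/-- The window functional of a walk, for the window that starts at time `t`. -/
def Psw (P : Prm) (μ : Measure ℝ) (p q h v : ℝ) (t : ℕ) (g : Env) (s : ℕ → Bool) : ℝ :=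
  Psi P μ p q h v g t (pos s t) (cut P.R (shf t s))

lemma Psw_nonneg {p q : ℝ} (hk : 0 ≤ kmin μ p q) (P : Prm) (h v : ℝ) (t : ℕ) (g : Env)
    (s : ℕ → Bool) : 0 ≤ Psw P μ p q h v t g s := Psi_nonneg hk P h v g t _ _

lemma PF_Psw (hμ : EM μ) (P : Prm) (p q h v : ℝ) (t n : ℕ) : PF μ n (Psw P μ p q h v t) :=
  fun _ _ => PMom_Psi hμ P p q h v t _ _

lemma CrossE_measα (h : ℝ) (k : ℕ) (x : ℤ) :
    Measurable fun w : Env × Env => aP w.1 h k x :=
  (measurable_Kp h 0 0 k x).comp measurable_fst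

lemma CrossE_measγ (h : ℝ) (n k : ℕ) (τ : ℝ) (x : ℤ) :
    Measurable fun w : Env × Env => gT w.1 (row 0 w.2) h n k τ x := by
  have h1 : Measurable fun w : Env × Env => (w.1, row 0 w.2) :=
    measurable_fst.prodMk ((measurable_row 0).comp measurable_snd)
  have h2 : Measurable fun w : Env × Env => Z w.1 h k x (n - k) :=
    (measurable_Z h k x (n - k)).comp measurable_fst
  have h3 : Measurable fun w : Env × Env => Z (ins k 1 w.1 (row 0 w.2)) h k x (n - k + 1) :=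
    (measurable_Z h k x (n - k + 1)).comp ((measurable_ins k 1).comp h1)
  exact h2.add (h3.const_mul _)

lemma CrossE_gT_pos (g : Env) (ξ : ℤ → ℝ) (h : ℝ) (n k : ℕ) (τ : ℝ) (x : ℤ) :
    0 < gT g ξ h n k τ x :=
  add_pos (gP_pos x) (mul_pos (Real.exp_pos _) (gQ_pos x))

lemma CrossE_depα (h : ℝ) (k R : ℕ) (x : ℤ) :
    DependsOn (fun g : Env => aP g h k x) (rows k (k + R))ᶜ := by
  intro g g' hg
  refine dependsOn_Kp h 0 0 k x fun p hp => hg p ?_
  intro h1
  have h2 := hp.2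
  have h3 := h1.1
  omega

lemma CrossE_depγ (ξ : ℤ → ℝ) (h : ℝ) (n k R : ℕ) (τ : ℝ) (x : ℤ) :
    DependsOn (fun g : Env => gT g ξ h n (k + R) τ x) (rows k (k + R))ᶜ := by
  intro g g' hg
  have h1 : Z g h (k + R) x (n - (k + R)) = Z g' h (k + R) x (n - (k + R)) := by
    refine dependsOn_Z h (k + R) x (n - (k + R)) fun p hp => hg p ?_
    intro h1
    have h2 := hp.1
    have h3 := h1.2
    omega
  have h2 : Z (ins (k + R) 1 g ξ) h (k + R) x (n - (k + R) + 1) =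
      Z (ins (k + R) 1 g' ξ) h (k + R) x (n - (k + R) + 1) := by
    refine dependsOn_Z h (k + R) x (n - (k + R) + 1) fun p hp => ?_
    have h2 := hp.1
    have h3 : ¬ p.1 < k + R := by omega
    show (if p.1 < k + R then g p else if p.1 = k + R then ξ p.2 else g (p.1 - 1, p.2 - 1)) =
      (if p.1 < k + R then g' p else if p.1 = k + R then ξ p.2 else g' (p.1 - 1, p.2 - 1))
    rw [if_neg h3, if_neg h3]
    by_cases h4 : p.1 = k + R
    · rw [if_pos h4, if_pos h4]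
    · rw [if_neg h4, if_neg h4]
      refine hg (p.1 - 1, p.2 - 1) ?_
      intro h5
      have h6 : p.1 - 1 < k + R := h5.2
      omega
  simp only [gT, gP, gQ, h1, h2]

/-- **Past window.** Proof. `QP` is the left side of `nm_rand2` with `N = n + 2`, starting time
`k - P.R`, `α g g' x = aP g h (k - P.R) x`, `γ g g' x = gT g (row 0 g') h n k τ x`, `e = k - P.R`
(as an integer `((k - P.R : ℕ) : ℤ)`). The hypotheses: measurability (`measurable_ins`, `measurable_row`,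
`measurable_Z`, …), positivity, `adms_P`, `aP_parity`; `aP g h (k - R) x` only sees rows `< k - R`
(`dependsOn_Kp`), `gP g h n k x` and `gQ g ξ h n k x` only see rows `≥ k` of `g` (`dependsOn_Z`; the rows
`≥ k` of `ins k 1 g ξ` are `ξ` and the rows `≥ k` of `g`). The right side: `SA_mix` (`Wc` is linear in `γ`),
`SA_PP` and `SA_PQ` with `t = k - P.R` and `F x r = Psi … (k - P.R) x r`; in the second average
`Psi P μ p q h v g (k - R) x r = Psi P μ p q h v (ins k 1 g ξ) (k - R) x r` (`dependsOn_Psi`; the rows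
`< k` agree). So it is at most `Av w.1 h 0 0 n (Psw … (k - R) w.1) + Av g⁺ h 0 0 (n + 1) (Psw … (k - R) g⁺)`,
`g⁺ = ins k 1 w.1 (row 0 w.2)`; integrate: first coordinate (`measurePreserving_fst`), `mp_ins`. -/
theorem QP_int (hμ : EM μ) {p q : ℝ} (hpq : p < q) (hk : 0 < kmin μ p q) (hP : P.Ok μ p q) (h : ℝ)
    {v : ℝ} (hv : |v| ≤ 1) {n k : ℕ} (hR : P.R ≤ k) (hkn : k + P.R ≤ n) (τ : ℝ) :
    ∫ w : Env × Env, QP w.1 (row 0 w.2) h n k P.R τ ∂(law2 μ) ≤
      e0 P μ + (EA μ h n (Psw P μ p q h v (k - P.R)) + EA μ h (n + 1) (Psw P μ p q h v (k - P.R))) := by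
  obtain ⟨k₀, rfl⟩ : ∃ k₀, k = k₀ + P.R := ⟨k - P.R, by omega⟩
  have hkn' : k₀ + P.R ≤ n := by omega
  have hsub : k₀ + P.R - P.R = k₀ := Nat.add_sub_cancel _ _
  unfold QP
  rw [hsub]
  have hc : ∀ g g' : Env, Adms (WI (n + 2) P.R) (Wc h P.R (aP g h k₀)
      (gT g (row 0 g') h n (k₀ + P.R) τ)) := fun g g' =>
    adms_P (by omega) (CrossE_gT_pos g (row 0 g') h n (k₀ + P.R) τ)
  have h1 := nm_rand2 (P := P) hμ hpq hk hP h hv (N := n + 2) (k := k₀)
    (α := fun g _ => aP g h k₀) (γ := fun g g' => gT g (row 0 g') h n (k₀ + P.R) τ)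
    (CrossE_measα h k₀) (CrossE_measγ h n (k₀ + P.R) τ) (fun g g' x => aP_nonneg x)
    (fun g g' x => (CrossE_gT_pos g (row 0 g') h n (k₀ + P.R) τ x).le)
    (fun g' x => CrossE_depα h k₀ P.R x) (fun g' x => CrossE_depγ (row 0 g') h n k₀ P.R τ x)
    hc (e := (k₀ : ℤ)) (fun g g' x hx => aP_parity hx)
  refine h1.trans ?_
  have iG : Integrable (fun w : Env × Env =>
      SA (WI (n + 2) P.R) (Wc h P.R (aP w.1 h k₀) (gT w.1 (row 0 w.2) h n (k₀ + P.R) τ))
        (WA k₀ P.R) w.1 (fun i => Psi P μ p q h v w.1 k₀ i.1 i.2)) (law2 μ) :=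
    Lift_SA hμ (Ω := Env × Env) (G := fun w => w.1) (α := fun w => aP w.1 h k₀)
      (γ := fun w => gT w.1 (row 0 w.2) h n (k₀ + P.R) τ) measurePreserving_fst
      (CrossE_measα h k₀) (CrossE_measγ h n (k₀ + P.R) τ) fun w => hc w.1 w.2
  have p1 : PMom (law μ) (fun g : Env => Av g h 0 0 n (Psw P μ p q h v k₀ g)) :=
    PMom_Av (PF_Psw hμ P p q h v k₀ n)
  have p2 : PMom (law μ) (fun g : Env => Av g h 0 0 (n + 1) (Psw P μ p q h v k₀ g)) :=
    PMom_Av (PF_Psw hμ P p q h v k₀ (n + 1))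
  have m2 := mp_ins (μ := μ) (k₀ + P.R) 1 0
  have j1 : Integrable (fun w : Env × Env => Av w.1 h 0 0 n (Psw P μ p q h v k₀ w.1)) (law2 μ) :=
    measurePreserving_fst.integrable_comp_of_integrable p1.integrable
  have j2 : Integrable (fun w : Env × Env => Av (ins (k₀ + P.R) 1 w.1 (row 0 w.2)) h 0 0 (n + 1)
      (Psw P μ p q h v k₀ (ins (k₀ + P.R) 1 w.1 (row 0 w.2)))) (law2 μ) :=
    m2.integrable_comp_of_integrable p2.integrable
  have e1 : ∫ w : Env × Env, Av w.1 h 0 0 n (Psw P μ p q h v k₀ w.1) ∂(law2 μ) =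
      EA μ h n (Psw P μ p q h v k₀) :=
    mp_integral (measurePreserving_fst (μ := law μ) (ν := law μ))
      p1.measurable.aestronglyMeasurable
  have e2 : ∫ w : Env × Env, Av (ins (k₀ + P.R) 1 w.1 (row 0 w.2)) h 0 0 (n + 1)
      (Psw P μ p q h v k₀ (ins (k₀ + P.R) 1 w.1 (row 0 w.2))) ∂(law2 μ) =
      EA μ h (n + 1) (Psw P μ p q h v k₀) :=
    mp_integral m2 p2.measurable.aestronglyMeasurable
  rw [← e1, ← e2, ← integral_add j1 j2]
  refine add_le_add le_rfl (integral_mono iG (j1.add j2) fun w => ?_)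
  have hPsi : ∀ (x : ℤ) (r : ℕ → Bool), Psi P μ p q h v w.1 k₀ x r =
      Psi P μ p q h v (ins (k₀ + P.R) 1 w.1 (row 0 w.2)) k₀ x r := by
    intro x r
    refine dependsOn_Psi hP.TT p q h v k₀ x r fun z hz => ?_
    unfold ins
    rw [if_pos hz.2]
  have a1 := SA_PP (g := w.1) (h := h) (t := k₀) (R := P.R) hkn' (fun x r =>
    Psi P μ p q h v w.1 k₀ x r)
  have a2 := SA_PQ (g := w.1) (ξ := row 0 w.2) (h := h) (t := k₀) (R := P.R) hkn' (fun x r =>
    Psi P μ p q h v (ins (k₀ + P.R) 1 w.1 (row 0 w.2)) k₀ x r)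
  have a3 := SA_mix (I := WI (n + 2) P.R) (c1 := Wc h P.R (aP w.1 h k₀) (gP w.1 h n (k₀ + P.R)))
    (c2 := Wc h P.R (aP w.1 h k₀) (gQ w.1 (row 0 w.2) h n (k₀ + P.R)))
    (c := Wc h P.R (aP w.1 h k₀) (gT w.1 (row 0 w.2) h n (k₀ + P.R) τ)) (A := WA k₀ P.R)
    (g := w.1) (adms_P (by omega) fun x => gP_pos x) (adms_P (by omega) fun x => gQ_pos x)
    (ε := Real.exp (-τ)) (Real.exp_pos _).le
    (fun i => by
      unfold Wc gT
      ring)
    (F := fun i => Psi P μ p q h v w.1 k₀ i.1 i.2)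
    (fun i _ => Psi_nonneg hk.le P h v w.1 k₀ i.1 i.2)
  refine a3.trans (le_of_eq ?_)
  show _ = Av w.1 h 0 0 n (Psw P μ p q h v k₀ w.1) +
    Av (ins (k₀ + P.R) 1 w.1 (row 0 w.2)) h 0 0 (n + 1)
      (Psw P μ p q h v k₀ (ins (k₀ + P.R) 1 w.1 (row 0 w.2)))
  congr 1
  rw [SA_congr (I := WI (n + 2) P.R) (fun i _ => hPsi i.1 i.2)]
  exact a2

/-- Bounded and measurable. -/
lemma measurable_QP (h : ℝ) (n k R : ℕ) (τ : ℝ) :
    Measurable (fun w : Env × Env => QP w.1 (row 0 w.2) h n k R τ) := by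
  unfold QP SA2
  exact measurable_SA_rand measurable_fst (CrossE_measα h (k - R)) (CrossE_measγ h n k τ)
    fun i _ => measurable_SA_rand (F := fun _ j => nmW R i j) measurable_fst
      (CrossE_measα h (k - R)) (CrossE_measγ h n k τ) fun j _ => measurable_const

end

end Pool.Agent.W_7d29a1_h47
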