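import Pool.Agent.W_7d29a1_h47q.AvgC
import Pool.Agent.W_7d29a1_h47q.AvgD
import Pool.Agent.W_7d29a1_h47q.CrossE

/-!
# The average of the window functional
-/

namespace Pool.Agent.W_7d29a1_h47

open MeasureTheory ProbabilityTheory Finset

noncomputable section

variable {P : Prm} {μ : Measure ℝ} [IsProbabilityMeasure μ]

/-- The total bound. -/
def psT (P : Prm) (μ : Measure ℝ) (p q δ D vb A : ℝ) (m : ℕ) : ℝ :=
  2 * (2 * CU μ * (Real.sqrt P.R * (1 + Real.log P.R)) / (P.K * P.I / 256)) +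
    64 * (4 * psP P μ p q δ D A m + 2 * psS P μ δ D vb)

omit [IsProbabilityMeasure μ] in
lemma AvgE_Phi_congr {r r' : ℕ → Bool} (hr : ∀ j ≤ P.T₁, pos r j = pos r' j) (p q v : ℝ) (g : Env)
    (t : ℕ) (x : ℤ) : Phi P μ p q v g t x r = Phi P μ p q v g t x r' := by
  unfold Phi Phi0
  have h1 : ∀ i ∈ range P.T₁, pos r (i + 1) = pos r' (i + 1) := fun i hi =>
    hr _ (Nat.succ_le_of_lt (Finset.mem_range.1 hi))
  have h2 : ∑ i ∈ range P.T₁, Real.exp |shiftEnv t x g (i, pos r (i + 1))| *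
      ind (2 * (P.w : ℝ) < |(pos r (i + 1) : ℝ) - v * (i + 1)|) =
      ∑ i ∈ range P.T₁, Real.exp |shiftEnv t x g (i, pos r' (i + 1))| *
      ind (2 * (P.w : ℝ) < |(pos r' (i + 1) : ℝ) - v * (i + 1)|) :=
    Finset.sum_congr rfl fun i hi => by rw [h1 i hi]
  have h3 : ∑ i ∈ range P.T₁, ind (2 * (P.w : ℝ) < |(pos r (i + 1) : ℝ) - v * (i + 1)|) =
      ∑ i ∈ range P.T₁, ind (2 * (P.w : ℝ) < |(pos r' (i + 1) : ℝ) - v * (i + 1)|) :=
    Finset.sum_congr rfl fun i hi => by rw [h1 i hi]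
  rw [h2, h3]

lemma AvgE_pos_shf {R c j : ℕ} (h : c + j ≤ R) (r : ℕ → Bool) :
    pos (shf c (cut R r)) j = pos (shf c r) j := by
  have h1 := pos_add (cut R r) c j
  have h2 := pos_add r c j
  rw [pos_cut_le h, pos_cut_le (show c ≤ R by omega)] at h1
  omega

lemma AvgE_shf_shf (k c : ℕ) (s : ℕ → Bool) : shf c (shf k s) = shf (k + c) s := by
  funext i
  unfold shf
  rw [add_assoc]

/-- Only the first `R` steps matter. Proof. All positions used by `Psi` are at times `≤ R`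
(`pos_cut_le`), and `pos (shf c (cut R r)) j = pos (shf c r) j` for `c + j ≤ R`; in `Phi` at the relative
time `c`, `c + T₁ ≤ R`; `Sl` at the relative time `c`, `c + L ≤ R`. -/
lemma Psi_cut (hT : P.T₁ ≤ P.TB) (p q h v : ℝ) (g : Env) (k : ℕ) (x : ℤ) (r : ℕ → Bool) :
    Psi P μ p q h v g k x (cut P.R r) = Psi P μ p q h v g k x r := by
  have hPhi : ∀ c, c + P.T₁ ≤ P.R → Phi P μ p q v g (k + c) (x + pos (cut P.R r) c)
      (shf c (cut P.R r)) = Phi P μ p q v g (k + c) (x + pos r c) (shf c r) := by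
    intro c hc
    rw [pos_cut_le (show c ≤ P.R by omega)]
    exact AvgE_Phi_congr (fun j hj => AvgE_pos_shf (by omega) r) p q v g _ _
  have hSl : ∀ c, c + P.L ≤ P.R → Sl P (shf c (cut P.R r)) = Sl P (shf c r) := by
    intro c hc
    unfold Sl
    rw [AvgE_pos_shf hc]
  have hTB : P.TB = P.L + P.ℓ + P.L := rfl
  have hbd : ∀ i ∈ range P.I, i * P.TB + P.TB + P.TB ≤ P.R := by
    intro i hi
    have hi' := Finset.mem_range.1 hi
    have h1 : (i + 2) * P.TB ≤ (P.I + 1) * P.TB := Nat.mul_le_mul_right _ (by omega)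
    have h2 : (i + 2) * P.TB = i * P.TB + P.TB + P.TB := by ring
    have h3 : P.R = (P.I + 1) * P.TB := rfl
    omega
  have hD : Dn P μ h g k x (cut P.R r) = Dn P μ h g k x r := by
    unfold Dn
    rw [pos_cut_le le_rfl]
  unfold Psi
  rw [hD]
  refine congrArg (fun z => 2 * Dn P μ h g k x r + 64 / (P.I : ℝ) * z)
    (Finset.sum_congr rfl fun i hi => ?_)
  have hb := hbd i hi
  have e1 := hPhi (i * P.TB + P.L) (by omega)
  have e2 := hPhi (i * P.TB + P.L + P.ℓ) (by omega)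
  have e3 := hSl (i * P.TB) (by omega)
  have e4 := hSl (i * P.TB + P.L + P.ℓ) (by omega)
  have e5 : ∑ j ∈ range P.ℓ, Phi P μ p q v g (k + (i * P.TB + P.L + j + 1))
      (x + pos (cut P.R r) (i * P.TB + P.L + j + 1))
      (shf (i * P.TB + P.L + j + 1) (cut P.R r)) =
      ∑ j ∈ range P.ℓ, Phi P μ p q v g (k + (i * P.TB + P.L + j + 1))
      (x + pos r (i * P.TB + P.L + j + 1)) (shf (i * P.TB + P.L + j + 1) r) := by
    refine Finset.sum_congr rfl fun j hj => ?_
    have hj' := Finset.mem_range.1 hj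
    exact hPhi (i * P.TB + P.L + j + 1) (by omega)
  rw [e1, e2, e3, e4, e5]

/-- Shifted sums. Proof. The map `k ↦ k + c` is injective from `range (n - R + 1)` into
`range (n - M + 1)` if `c + M ≤ R ≤ n`; the terms are nonnegative. -/
lemma sum_shift_le {f : ℕ → ℝ} (hf : ∀ k, 0 ≤ f k) {n R M c : ℕ} (hc : c + M ≤ R) (hR : R ≤ n) :
    ∑ k ∈ range (n - R + 1), f (k + c) ≤ ∑ k ∈ range (n - M + 1), f k := by
  have h1 : ∑ k ∈ range (n - R + 1), f (k + c) =
      ∑ k ∈ (range (n - R + 1)).map (addRightEmbedding c), f k := by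
    rw [Finset.sum_map]
    rfl
  rw [h1]
  refine Finset.sum_le_sum_of_subset_of_nonneg ?_ fun k _ _ => hf k
  intro k hk
  obtain ⟨j, hj, rfl⟩ := Finset.mem_map.1 hk
  have hj' := Finset.mem_range.1 hj
  show j + c ∈ range (n - M + 1)
  rw [Finset.mem_range]
  omega

lemma AvgE_PF (hμ : EM μ) (P : Prm) (p q v : ℝ) (n t : ℕ) :
    PF μ n (fun g s => Phi P μ p q v g t (pos s t) (shf t s)) := by
  have hF1 : PF μ n (fun g s => max (tubeX (phc μ p q) v P.w g t (pos s t) P.T₁) 0) :=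
    fun s _ => CloseW_maxP p q v P.w t _ _
  have hF2 : ∀ i ∈ range P.T₁, PF μ n (fun g s =>
      Real.exp |g (t + i, pos s (t + i + 1))| *
      ind (2 * (P.w : ℝ) < |(pos s (t + i + 1) : ℝ) - pos s t - v * (i + 1)|)) :=
    fun i _ s _ => ((EMom_coord hμ _).abs.exp').mul (PMom.const _)
  have hF3 : PF μ n (fun (_ : Env) s => ∑ i ∈ range P.T₁,
      ind (2 * (P.w : ℝ) < |(pos s (t + i + 1) : ℝ) - pos s t - v * (i + 1)|)) := PF.det _
  have h1 := (((hF1.add ((PF.sum _ hF2).const_mul (Mom μ 1))).const_mul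
    (kmin μ p q * P.T₁)⁻¹).add (hF3.const_mul (P.T₁ : ℝ)⁻¹))
  intro s hs
  have h2 := h1 s hs
  have h3 : (fun g : Env => Phi P μ p q v g t (pos s t) (shf t s)) = fun g =>
      (kmin μ p q * P.T₁)⁻¹ *
        (max (tubeX (phc μ p q) v P.w g t (pos s t) P.T₁) 0 +
        Mom μ 1 * ∑ i ∈ range P.T₁, Real.exp |g (t + i, pos s (t + i + 1))| *
          ind (2 * (P.w : ℝ) < |(pos s (t + i + 1) : ℝ) - pos s t - v * (i + 1)|)) +
      (P.T₁ : ℝ)⁻¹ * ∑ i ∈ range P.T₁,
        ind (2 * (P.w : ℝ) < |(pos s (t + i + 1) : ℝ) - pos s t - v * (i + 1)|) := by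
    funext g
    exact Phi_walk P μ p q v g t s
  rw [h3]
  exact h2

/-- **Average window functional.** Proof. `Psi_cut`, definition of `Psi` along the walk:
`pos s k + pos (shf k s) c = pos s (k + c)`, `shf c (shf k s) = shf (k + c) s`, so the `Phi` terms are
`Phi P μ p q v g (k + c) (pos s (k + c)) (shf (k + c) s)`; linearity of `EA` (`PF`: all functionals have all
moments), `sum_shift_le` with `M = T₁`, `PhiQ` (for each of the `2 + ℓ` relative times; the weight of the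
`ℓ` times is `2/ℓ`), with `M = L`, `SlQ` for the slopes; `DnQ` with `Q = K I / 256`. Sum:
`2 n (…) + 64/I * I * n (psP + psP + 2 psP + psS + psS)`. -/
theorem PsiQ (hμ : EM μ) {p q : ℝ} (hpq : p < q) (hk : 0 < kmin μ p q) (hP : P.Ok μ p q)
    (hT : 4 ≤ P.T₁) {h δ v D vb : ℝ} (hA : NA μ h δ v D) (hv : |v| ≤ vb) (hρ : vb < P.ρ) {n : ℕ}
    (hRn : P.R ≤ n) {A : ℝ} (hA1 : 0 < A) (m : ℕ) :
    ∑ k ∈ range (n - P.R + 1), EA μ h n (Psw P μ p q h v k) ≤ n * psT P μ p q δ D vb A m := by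
  obtain ⟨a, ha⟩ : ∃ a : ℕ → ℝ, a = fun t =>
      EA μ h n (fun g s => Phi P μ p q v g t (pos s t) (shf t s)) := ⟨_, rfl⟩
  obtain ⟨b, hb⟩ : ∃ b : ℕ → ℝ, b = fun t => EA μ h n (fun _ s => Sl P (shf t s)) := ⟨_, rfl⟩
  obtain ⟨d, hd⟩ : ∃ d : ℕ → ℝ, d = fun k => EA μ h n (fun g s =>
      ind (Kp g h k (pos s k) P.R (pos s (k + P.R)) <
        Real.exp (P.R * Lam μ h - P.K * P.I / 256))) := ⟨_, rfl⟩
  have ha0 : ∀ t, 0 ≤ a t := fun t => by
    rw [ha]
    exact EA_nonneg fun g s _ => Phi_nonneg hk.le P v g t _ _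
  have hb0 : ∀ t, 0 ≤ b t := fun t => by
    rw [hb]
    exact EA_nonneg fun g s _ => ind_nonneg _
  have hTB : P.TB = P.L + P.ℓ + P.L := rfl
  have hR : P.R = (P.I + 1) * P.TB := rfl
  have hL1 := hP.L1
  have hI1 := hP.I1
  have hℓ1 := hP.ℓ1
  have hTT := hP.TT
  have hTBR : P.TB ≤ P.R := by
    rw [hR]
    exact Nat.le_mul_of_pos_left _ (by omega)
  have hR1 : 1 ≤ P.R := by omega
  have hI0 : (0 : ℝ) < P.I := by exact_mod_cast hI1
  have hℓ0 : (0 : ℝ) < P.ℓ := by exact_mod_cast hℓ1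
  have hn0 : (0 : ℝ) ≤ n := Nat.cast_nonneg n
  have hbd : ∀ i ∈ range P.I, i * P.TB + P.TB + P.TB ≤ P.R := by
    intro i hi
    have hi' := Finset.mem_range.1 hi
    have h1 : (i + 2) * P.TB ≤ (P.I + 1) * P.TB := Nat.mul_le_mul_right _ (by omega)
    have h2 : (i + 2) * P.TB = i * P.TB + P.TB + P.TB := by ring
    omega
  -- the average of one window functional
  have h1 : ∀ k, EA μ h n (Psw P μ p q h v k) = 2 * d k + 64 / P.I * ∑ i ∈ range P.I,
      (a (k + (i * P.TB + P.L)) + a (k + (i * P.TB + P.L + P.ℓ)) +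
        2 / P.ℓ * ∑ j ∈ range P.ℓ, a (k + (i * P.TB + P.L + j + 1)) +
        b (k + i * P.TB) + b (k + (i * P.TB + P.L + P.ℓ))) := by
    intro k
    have e1 : EA μ h n (Psw P μ p q h v k) = EA μ h n (fun g s =>
        2 * ind (Kp g h k (pos s k) P.R (pos s (k + P.R)) <
          Real.exp (P.R * Lam μ h - P.K * P.I / 256)) + 64 / P.I * ∑ i ∈ range P.I,
        (Phi P μ p q v g (k + (i * P.TB + P.L)) (pos s (k + (i * P.TB + P.L)))
            (shf (k + (i * P.TB + P.L)) s) +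
          Phi P μ p q v g (k + (i * P.TB + P.L + P.ℓ)) (pos s (k + (i * P.TB + P.L + P.ℓ)))
            (shf (k + (i * P.TB + P.L + P.ℓ)) s) +
          2 / P.ℓ * ∑ j ∈ range P.ℓ, Phi P μ p q v g (k + (i * P.TB + P.L + j + 1))
            (pos s (k + (i * P.TB + P.L + j + 1))) (shf (k + (i * P.TB + P.L + j + 1)) s) +
          Sl P (shf (k + i * P.TB) s) + Sl P (shf (k + (i * P.TB + P.L + P.ℓ)) s))) := by
      refine EA_congr fun g s _ => ?_
      unfold Psw
      rw [Psi_cut hTT]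
      unfold Psi Dn
      simp only [← pos_add, AvgE_shf_shf]
    have f1 : PF μ n (fun g s => ind (Kp g h k (pos s k) P.R (pos s (k + P.R)) <
          Real.exp (P.R * Lam μ h - P.K * P.I / 256))) :=
      PF.ind fun s _ => measurableSet_lt (measurable_Kp h k (pos s k) P.R (pos s (k + P.R)))
        measurable_const
    have f2 : ∀ t, PF μ n (fun g s => Phi P μ p q v g t (pos s t) (shf t s)) :=
      fun t => AvgE_PF hμ P p q v n t
    have f3 : ∀ t, PF μ n (fun (_ : Env) s => Sl P (shf t s)) := fun t => PF.det _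
    have f4 : ∀ i, PF μ n (fun g s => ∑ j ∈ range P.ℓ,
        Phi P μ p q v g (k + (i * P.TB + P.L + j + 1))
            (pos s (k + (i * P.TB + P.L + j + 1))) (shf (k + (i * P.TB + P.L + j + 1)) s)) :=
      fun i => PF.sum _ fun j _ => f2 _
    have f5 : ∀ i, PF μ n (fun g s =>
        Phi P μ p q v g (k + (i * P.TB + P.L)) (pos s (k + (i * P.TB + P.L)))
            (shf (k + (i * P.TB + P.L)) s) +
          Phi P μ p q v g (k + (i * P.TB + P.L + P.ℓ)) (pos s (k + (i * P.TB + P.L + P.ℓ)))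
            (shf (k + (i * P.TB + P.L + P.ℓ)) s) +
          2 / P.ℓ * ∑ j ∈ range P.ℓ, Phi P μ p q v g (k + (i * P.TB + P.L + j + 1))
            (pos s (k + (i * P.TB + P.L + j + 1))) (shf (k + (i * P.TB + P.L + j + 1)) s) +
          Sl P (shf (k + i * P.TB) s) + Sl P (shf (k + (i * P.TB + P.L + P.ℓ)) s)) :=
      fun i => ((((f2 _).add (f2 _)).add ((f4 i).const_mul _)).add (f3 _)).add (f3 _)
    rw [e1, EA_add (f1.const_mul _) ((PF.sum _ fun i _ => f5 i).const_mul _), EA_const_mul,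
      EA_const_mul, EA_sum _ fun i _ => f5 i, hd]
    congr 2
    refine Finset.sum_congr rfl fun i _ => ?_
    rw [EA_add ((((f2 _).add (f2 _)).add ((f4 i).const_mul _)).add (f3 _)) (f3 _),
      EA_add (((f2 _).add (f2 _)).add ((f4 i).const_mul _)) (f3 _),
      EA_add ((f2 _).add (f2 _)) ((f4 i).const_mul _), EA_add (f2 _) (f2 _), EA_const_mul,
      EA_sum _ fun j _ => f2 _, ha, hb]
  -- shifted sums
  have hTn : P.T₁ ≤ n := by omega
  have hsa : ∀ c, c + P.T₁ ≤ P.R → ∑ k ∈ range (n - P.R + 1), a (k + c) ≤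
      n * psP P μ p q δ D A m := by
    intro c hc
    refine (sum_shift_le ha0 hc hRn).trans ?_
    rw [ha]
    exact PhiQ hμ hk hA hP.w1 hT hTn hA1 m
  have hsb : ∀ c, c + P.L ≤ P.R → ∑ k ∈ range (n - P.R + 1), b (k + c) ≤
      n * psS P μ δ D vb := by
    intro c hc
    refine (sum_shift_le hb0 hc hRn).trans ?_
    rw [hb]
    exact SlQ hμ hA hv hρ hL1 (by omega)
  have hsd : ∑ k ∈ range (n - P.R + 1), d k ≤
      n * (2 * CU μ * (Real.sqrt P.R * (1 + Real.log P.R)) / (P.K * P.I / 256)) := by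
    rw [hd]
    refine DnQ hμ h hR1 hRn ?_
    have := hP.K0
    have : 0 < P.K := by linarith
    positivity
  rw [Finset.sum_congr rfl fun k _ => h1 k, Finset.sum_add_distrib, ← Finset.mul_sum,
    ← Finset.mul_sum, Finset.sum_comm]
  have h2 : ∀ i ∈ range P.I, ∑ k ∈ range (n - P.R + 1),
      (a (k + (i * P.TB + P.L)) + a (k + (i * P.TB + P.L + P.ℓ)) +
        2 / P.ℓ * ∑ j ∈ range P.ℓ, a (k + (i * P.TB + P.L + j + 1)) +
        b (k + i * P.TB) + b (k + (i * P.TB + P.L + P.ℓ))) ≤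
      n * (4 * psP P μ p q δ D A m + 2 * psS P μ δ D vb) := by
    intro i hi
    have hbi := hbd i hi
    rw [Finset.sum_add_distrib, Finset.sum_add_distrib, Finset.sum_add_distrib,
      Finset.sum_add_distrib, ← Finset.mul_sum, Finset.sum_comm]
    have g1 := hsa (i * P.TB + P.L) (by omega)
    have g2 := hsa (i * P.TB + P.L + P.ℓ) (by omega)
    have g3 : ∑ j ∈ range P.ℓ, ∑ k ∈ range (n - P.R + 1), a (k + (i * P.TB + P.L + j + 1)) ≤
        P.ℓ * (n * psP P μ p q δ D A m) := by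
      refine (Finset.sum_le_sum fun j hj => ?_).trans (le_of_eq (b :=
        P.ℓ * (n * psP P μ p q δ D A m)) (a := ∑ _j ∈ range P.ℓ, n * psP P μ p q δ D A m) ?_)
      · have hj' := Finset.mem_range.1 hj
        exact hsa (i * P.TB + P.L + j + 1) (by omega)
      · rw [Finset.sum_const, Finset.card_range, nsmul_eq_mul]
    have g4 := hsb (i * P.TB) (by omega)
    have g5 := hsb (i * P.TB + P.L + P.ℓ) (by omega)
    have g6 : 2 / (P.ℓ : ℝ) * ∑ j ∈ range P.ℓ, ∑ k ∈ range (n - P.R + 1),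
        a (k + (i * P.TB + P.L + j + 1)) ≤ 2 * (n * psP P μ p q δ D A m) := by
      refine (mul_le_mul_of_nonneg_left g3 (by positivity)).trans (le_of_eq ?_)
      field_simp
    linarith
  have h3 := Finset.sum_le_sum h2
  rw [Finset.sum_const, Finset.card_range, nsmul_eq_mul] at h3
  have h4 : 64 / (P.I : ℝ) * ∑ i ∈ range P.I, ∑ k ∈ range (n - P.R + 1),
      (a (k + (i * P.TB + P.L)) + a (k + (i * P.TB + P.L + P.ℓ)) +
        2 / P.ℓ * ∑ j ∈ range P.ℓ, a (k + (i * P.TB + P.L + j + 1)) +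
        b (k + i * P.TB) + b (k + (i * P.TB + P.L + P.ℓ))) ≤
      n * (64 * (4 * psP P μ p q δ D A m + 2 * psS P μ δ D vb)) := by
    refine (mul_le_mul_of_nonneg_left h3 (by positivity)).trans (le_of_eq ?_)
    field_simp
  unfold psT
  rw [mul_add]
  refine add_le_add ?_ h4
  refine (mul_le_mul_of_nonneg_left hsd (by norm_num)).trans (le_of_eq ?_)
  ring

end

end Pool.Agent.W_7d29a1_h47
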