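import Pool.Agent.W_7d29a1_h47q.AvgA
import Pool.Agent.W_7d29a1_h47.FinD

/-!
# The chain of insertions with defect
-/

namespace Pool.Agent.W_7d29a1_h47

open MeasureTheory ProbabilityTheory Finset

noncomputable section

variable {μ : Measure ℝ} [IsProbabilityMeasure μ]

/-- One chain. Proof. As `chain_KL` (`FinD.lean`): `chain_exp` with `h' = h + δ`, `a_le_Lam` and `hA.up`:
right side `≤ (n + m)(Λ + δ v + D)`; `le_EA_pos`, `a_le_Lam`, `hA.dn`:
`δ EA (pos s n) ≥ n Λ - eps μ n - n (Λ - δ v + D)`; `rate`. -/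
lemma chain_KLQ (hμ : EM μ) {h δ v D : ℝ} (hA : NA μ h δ v D) {o R m n : ℕ}
    (hn : o + 2 * R * m ≤ n) :
    m * (a μ h (n + 1) - a μ h n - Lam μ h) + m * (δ * (1 - v)) - 2 * eps μ n -
        (2 * n + m) * D ≤
      ∑ j ∈ range m, EKL μ h n (o + 2 * R * j + R) R := by
  have h1 := chain_exp hμ h (h + δ) hn
  have h2 := a_le_Lam hμ (h + δ) (n + m)
  rw [hA.up] at h2
  have h3 := le_EA_pos hμ h δ n
  have h4 := a_le_Lam hμ (h - δ) n
  rw [hA.dn] at h4
  have h5 := rate hμ h n
  have h6 : ∑ j ∈ range m, EKL μ h n (o + 2 * R * j + R) R =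
      m * (a μ h (n + 1) - a μ h n) - ∑ j ∈ range m, EW μ h n (o + 2 * R * j + R) R := by
    unfold EKL
    rw [Finset.sum_sub_distrib, Finset.sum_const, Finset.card_range, nsmul_eq_mul]
  rw [h6]
  push_cast at h2
  have e1 : h + δ - h = δ := by ring
  rw [e1] at h1
  nlinarith [h1, h2, h3, h4, h5]

/-- **Main inequality of the chain.** Proof. As `no_aff` (`FinD.lean`), `c = δ (1 - v)`: for `N ≥ 2R`,
`o < 2R`, `m = (N - o)/(2R)` sum `chain_KLQ` over `n ∈ [N, 2N)`:
`m (N c - eps μ (2N)) - 2 N eps μ (2N) - N (4N + m) D ≤ ∑_n ∑_j EKL`. Sum over `o < 2R` (`sum_windows`,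
`∑_o m = N - 2R + 1`): `(N - 2R + 1)(N c - eps μ (2N)) - 4 R N eps μ (2N) - 8 R N² D - N (N - 2R + 1) D ≤ Bd N²`.
Divide by `N²` and let `N → ∞` (`tendsto_eps_div`; the left side tends to `c - 8 R D - D`), e.g. by
`le_of_tendsto'` or by an `ε`-argument. -/
theorem chainQ (hμ : EM μ) {h δ v D : ℝ} (hA : NA μ h δ v D) {R : ℕ} (hR : 1 ≤ R) {Bd : ℝ}
    (hB : ∃ N₀ : ℕ, ∀ N : ℕ, N₀ ≤ N →
      ∑ n ∈ Ico N (2 * N), ∑ k ∈ Icc R (N - R), EKL μ h n k R ≤ Bd * N ^ 2) :
    δ * (1 - v) ≤ (8 * R + 1) * D + Bd := by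
  set c : ℝ := δ * (1 - v) with hc
  have hD := hA.D0
  obtain ⟨N₀, hkl⟩ := hB
  have hR0 : (0 : ℝ) ≤ R := Nat.cast_nonneg R
  have hR1 : (1 : ℝ) ≤ R := by exact_mod_cast hR
  have key : ∀ N : ℕ, max (max N₀ (2 * R)) 1 ≤ N →
      (1 - (2 * (R : ℝ) - 1) / N) * (c - eps μ (2 * N) / N) - 4 * R * (eps μ (2 * N) / N) -
        8 * R * D - (1 - (2 * (R : ℝ) - 1) / N) * D ≤ Bd := by
    intro N hN
    have hNN₀ : N₀ ≤ N := (le_max_left _ _).trans ((le_max_left _ _).trans hN)
    have hN2R : 2 * R ≤ N := (le_max_right _ _).trans ((le_max_left _ _).trans hN)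
    have hN1 : 1 ≤ N := (le_max_right _ _).trans hN
    have hN0 : (0 : ℝ) < N := by exact_mod_cast hN1
    -- one offset
    have hone : ∀ o ∈ range (2 * R), ((N - o) / (2 * R) : ℕ) * (N * c - eps μ (2 * N) - N * D) -
        2 * N * eps μ (2 * N) - 4 * N ^ 2 * D ≤
        ∑ n ∈ Ico N (2 * N), ∑ j ∈ range ((N - o) / (2 * R)),
          EKL μ h n (o + 2 * R * j + R) R := by
      intro o ho
      have ho' := Finset.mem_range.1 ho
      set m : ℕ := (N - o) / (2 * R) with hm
      have hm1 : o + 2 * R * m ≤ N := by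
        have h1 : 2 * R * m ≤ N - o := Nat.mul_div_le _ _
        omega
      have h1 : ∑ n ∈ Ico N (2 * N), (m * (a μ h (n + 1) - a μ h n - Lam μ h) + (m * c -
          2 * eps μ (2 * N) - (4 * N + m) * D)) ≤
          ∑ n ∈ Ico N (2 * N), ∑ j ∈ range m, EKL μ h n (o + 2 * R * j + R) R := by
        refine Finset.sum_le_sum fun n hn => ?_
        rw [Finset.mem_Ico] at hn
        have h2 := chain_KLQ hμ hA (o := o) (R := R) (m := m) (n := n) (hm1.trans hn.1)
        have h3 : eps μ n ≤ eps μ (2 * N) := eps_mono hn.2.le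
        have h4 : (n : ℝ) ≤ 2 * N := by exact_mod_cast hn.2.le
        have h5 : (2 * (n : ℝ) + m) * D ≤ (4 * N + m) * D :=
          mul_le_mul_of_nonneg_right (by linarith) hD
        linarith
      refine le_trans ?_ h1
      have h4 : ∑ n ∈ Ico N (2 * N), (m * (a μ h (n + 1) - a μ h n - Lam μ h) + (m * c -
          2 * eps μ (2 * N) - (4 * N + m) * D)) =
          m * (a μ h (2 * N) - a μ h N - N * Lam μ h) + N * (m * c -
          2 * eps μ (2 * N) - (4 * N + m) * D) := by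
        rw [Finset.sum_add_distrib, ← Finset.mul_sum,
          Finset.sum_sub_distrib, Finset.sum_Ico_sub (a μ h) (by omega : N ≤ 2 * N)]
        simp only [Finset.sum_const, Nat.card_Ico, nsmul_eq_mul]
        have e1 : 2 * N - N = N := by omega
        rw [e1]
      rw [h4]
      have h5 := rate hμ h (2 * N)
      have h6 := a_le_Lam hμ h N
      push_cast at h5
      have h7 : -eps μ (2 * N) ≤ a μ h (2 * N) - a μ h N - N * Lam μ h := by linarith
      have h8 := mul_le_mul_of_nonneg_left h7 (Nat.cast_nonneg (α := ℝ) m)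
      have h9 : (N : ℝ) * (m * c - 2 * eps μ (2 * N) - (4 * N + m) * D) =
          m * (N * c - N * D) - 2 * N * eps μ (2 * N) - 4 * N ^ 2 * D := by ring
      rw [h9]
      linarith
    have hsum := Finset.sum_le_sum hone
    -- the right side
    have hR' : ∑ o ∈ range (2 * R), ∑ n ∈ Ico N (2 * N), ∑ j ∈ range ((N - o) / (2 * R)),
        EKL μ h n (o + 2 * R * j + R) R =
        ∑ n ∈ Ico N (2 * N), ∑ k ∈ Icc R (N - R), EKL μ h n k R := by
      rw [Finset.sum_comm]
      refine Finset.sum_congr rfl fun n _ => ?_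
      exact sum_windows hR hN2R fun k => EKL μ h n k R
    rw [hR'] at hsum
    have hkl' := hsum.trans (hkl N hNN₀)
    -- the left side
    have hcount : ∑ o ∈ range (2 * R), (((N - o) / (2 * R) : ℕ) : ℝ) = N - 2 * R + 1 := by
      have h1 := sum_windows hR hN2R fun _ => (1 : ℝ)
      simp only [Finset.sum_const, Finset.card_range, nsmul_eq_mul, mul_one, Nat.card_Icc] at h1
      rw [h1]
      have e1 : N - R + 1 - R = N - 2 * R + 1 := by omega
      rw [e1]
      push_cast [Nat.cast_sub hN2R]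
      ring
    have hL : ∑ o ∈ range (2 * R), ((((N - o) / (2 * R) : ℕ) : ℝ) *
        (N * c - eps μ (2 * N) - N * D) - 2 * N * eps μ (2 * N) - 4 * N ^ 2 * D) =
        (N - 2 * R + 1) * (N * c - eps μ (2 * N) - N * D) -
          2 * R * (2 * N * eps μ (2 * N)) - 2 * R * (4 * N ^ 2 * D) := by
      rw [Finset.sum_sub_distrib, Finset.sum_sub_distrib, ← Finset.sum_mul, hcount,
        Finset.sum_const, Finset.sum_const, Finset.card_range, nsmul_eq_mul, nsmul_eq_mul]
      push_cast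
      ring
    rw [hL] at hkl'
    have hN2 : (0 : ℝ) < N ^ 2 := by positivity
    refine le_of_mul_le_mul_right ?_ hN2
    refine le_trans (le_of_eq ?_) hkl'
    field_simp
    ring
  have T1 : Filter.Tendsto (fun N : ℕ => eps μ (2 * N) / (N : ℝ)) Filter.atTop (nhds 0) := by
    have h1 : Filter.Tendsto (fun N : ℕ => 2 * N) Filter.atTop Filter.atTop :=
      Filter.tendsto_atTop_mono (fun N => by
        change N ≤ 2 * N
        omega) Filter.tendsto_id
    have h2 := (tendsto_eps_div (μ := μ)).comp h1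
    have h3 := h2.const_mul (2 : ℝ)
    rw [mul_zero] at h3
    refine h3.congr fun N => ?_
    simp only [Function.comp]
    push_cast
    rcases Nat.eq_zero_or_pos N with h0 | h0
    · subst h0
      simp
    · have : (0 : ℝ) < N := by exact_mod_cast h0
      field_simp
  have T2 : Filter.Tendsto (fun N : ℕ => (2 * (R : ℝ) - 1) / (N : ℝ)) Filter.atTop (nhds 0) :=
    tendsto_const_div_atTop_nhds_zero_nat _
  have T3 : Filter.Tendsto (fun N : ℕ => (1 - (2 * (R : ℝ) - 1) / N) * (c - eps μ (2 * N) / N) -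
      4 * R * (eps μ (2 * N) / N) - 8 * R * D - (1 - (2 * (R : ℝ) - 1) / N) * D) Filter.atTop
      (nhds ((1 - 0) * (c - 0) - 4 * R * 0 - 8 * R * D - (1 - 0) * D)) :=
    ((((T2.const_sub 1).mul (T1.const_sub c)).sub (T1.const_mul (4 * (R : ℝ)))).sub_const
      (8 * R * D)).sub ((T2.const_sub 1).mul_const D)
  have h1 := le_of_tendsto T3 (Filter.eventually_atTop.2 ⟨_, key⟩)
  linarith

end

end Pool.Agent.W_7d29a1_h47
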