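import Pool.Agent.W_7d29a1_h47q.SurgB

/-!
# Composition of the blocks
-/

namespace Pool.Agent.W_7d29a1_h47

open MeasureTheory ProbabilityTheory Finset

noncomputable section

variable {P : Prm} {b : ℕ → ℤ} {k : ℕ}

/-- The number of bad blocks among the first `J`. -/
def nbJ (P : Prm) (b : ℕ → ℤ) (k J : ℕ) (x : ℤ) (r : ℕ → Bool) : ℝ :=
  ∑ i ∈ range J, ind (¬ goodB P b (k + i * P.TB) (x + pos r (i * P.TB)) (shf (i * P.TB) r))

lemma Compo_good_imp {t : ℕ} {x : ℤ} {r r' : ℕ → Bool} (h : ∀ j ≤ P.TB, pos r j = pos r' j)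
    (hg : goodB P b t x r) : goodB P b t x r' := by
  have hTB : P.TB = P.L + P.ℓ + P.L := rfl
  obtain ⟨h1, h2, h3, h4, h5, h6, h7⟩ := hg
  refine ⟨h1, fun j hj => ?_, ?_, ?_, ?_, ?_, ?_⟩
  · rw [← h j hj]; exact h2 j hj
  · rw [← h P.L (by omega)]; exact h3
  · rw [← h (P.L + P.ℓ) (by omega)]; exact h4
  · refine h5.trans (le_of_eq (Finset.sum_congr rfl fun j hj => ?_))
    have := Finset.mem_range.1 hj
    rw [← h (P.L + j + 1) (by omega)]
  · rw [← h P.L (by omega)]; exact h6
  · rw [← h (P.L + P.ℓ) (by omega), ← h (P.L + P.ℓ + P.L) (by omega)]; exact h7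

lemma Compo_good_iff {t : ℕ} {x : ℤ} {r r' : ℕ → Bool} (h : ∀ j ≤ P.TB, pos r j = pos r' j) :
    goodB P b t x r ↔ goodB P b t x r' :=
  ⟨Compo_good_imp h, Compo_good_imp fun j hj => (h j hj).symm⟩

lemma Compo_shf_glue {a i j : ℕ} (h : i + j ≤ a) (s r : ℕ → Bool) :
    pos (shf i (glue a s r)) j = pos (shf i s) j := by
  have h1 := pos_add (glue a s r) i j
  have h2 := pos_add s i j
  rw [pos_glue_le h, pos_glue_le (by omega)] at h1
  omega

lemma Compo_first {J : ℕ} (k : ℕ) (x : ℤ) (s r : ℕ → Bool) :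
    nbJ P b k J x (glue (J * P.TB) s r) = nbJ P b k J x s := by
  refine Finset.sum_congr rfl fun i hi => ?_
  have hi2 : i + 1 ≤ J := Finset.mem_range.1 hi
  have h1 : i * P.TB + P.TB ≤ J * P.TB := by
    have := Nat.mul_le_mul_right P.TB hi2
    rwa [Nat.add_mul, one_mul] at this
  rw [pos_glue_le (by omega : i * P.TB ≤ J * P.TB)]
  exact ind_congr (not_congr (Compo_good_iff fun j hj => Compo_shf_glue (by omega) s r))

/-- The number of bad blocks of a glued path. Proof. `Finset.sum_range_succ`; the first `J` terms only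
see the first `J * TB` steps (positions at times `≤ J * TB`: `pos_glue_le`, and for `i < J` the
steps `shf (i TB)` of the glued path agree with those of `s` up to `TB`; `goodB` only uses `pos` at
times `≤ TB`), the last term is the block of `r`. -/
lemma nbJ_glue (k J : ℕ) (x : ℤ) {s r : ℕ → Bool} (hs : s ∈ T (J * P.TB)) :
    nbJ P b k (J + 1) x (glue (J * P.TB) s r) =
      nbJ P b k J x s + ind (¬ goodB P b (k + J * P.TB) (x + pos s (J * P.TB)) r) := by
  rw [← Compo_first k x s r]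
  unfold nbJ
  rw [Finset.sum_range_succ, shf_glue, pos_glue_le le_rfl]

lemma Compo_sum_end {n : ℕ} (x : ℤ) (F : (ℕ → Bool) → ℝ) (f : ℤ → ℝ) :
    ∑ s ∈ T n, F s * f (x + pos s n) =
      ∑ z ∈ Icc (x - n) (x + n), (∑ s ∈ T n, ind (x + pos s n = z) * F s) * f z := by
  rw [sum_end x]
  refine Finset.sum_congr rfl fun z _ => ?_
  rw [Finset.sum_mul]
  refine Finset.sum_congr rfl fun s _ => ?_
  split_ifs with h
  · rw [ind_true h, one_mul, h]
  · rw [ind_false h]; ring

lemma Compo_isW {m : ℕ} (hb : IsW k b) : IsW (k + m) b := fun t ht => hb t (by omega)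

/-- **Product bound.** Proof. Induction on `J`. `J = 0`: both sides are `ind (x = y)` (`T_zero`,
`Kp_eq`). Step: `(J+1) TB = J TB + TB`, `sum_split`, `nbJ_glue`, `wt_glue`, `pos_glue_add`; for fixed `s` the inner
sum over `r` is at most `(e^{-d_J} + e^{-lam}) Kp g h (k + J TB) (x + pos s (J TB)) TB y` (`block_all`);
sort `s` by its end point `z` (`sum_end`, as in `Kp_split`), induction hypothesis for every `z`
and `Kp_split`. -/
lemma prod_bound (hb : IsW k b) (hw : 1 ≤ P.w) (hρ0 : 0 ≤ P.ρ)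
    (hρL : 8 * (P.w : ℝ) ≤ (1 - P.ρ) * P.L) (g : Env) (h lam : ℝ) (x : ℤ) (J : ℕ) (y : ℤ) :
    ∑ r ∈ T (J * P.TB), ind (x + pos r (J * P.TB) = y) *
        Real.exp (-(lam * nbJ P b k J x r)) * wt g h k x (J * P.TB) r ≤
      (∏ i ∈ range J, (Real.exp (-dB P b (k + i * P.TB) g) + Real.exp (-lam))) *
        Kp g h k x (J * P.TB) y := by
  induction J generalizing y with
  | zero =>
    rw [Finset.prod_range_zero, one_mul, Kp_eq]
    refine le_of_eq (Finset.sum_congr rfl fun s _ => ?_)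
    have h0 : nbJ P b k 0 x s = 0 := Finset.sum_range_zero _
    rw [h0, mul_zero, neg_zero, Real.exp_zero, mul_one]
  | succ J ih =>
    have e1 : (J + 1) * P.TB = J * P.TB + P.TB := by rw [Nat.add_mul, one_mul]
    rw [e1, sum_split, Kp_split, Finset.prod_range_succ]
    set c : ℝ := Real.exp (-dB P b (k + J * P.TB) g) + Real.exp (-lam) with hc
    have hc0 : 0 ≤ c := by positivity
    calc ∑ s ∈ T (J * P.TB), ∑ r ∈ T P.TB,
          ind (x + pos (glue (J * P.TB) s r) (J * P.TB + P.TB) = y) *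
            Real.exp (-(lam * nbJ P b k (J + 1) x (glue (J * P.TB) s r))) *
            wt g h k x (J * P.TB + P.TB) (glue (J * P.TB) s r)
        = ∑ s ∈ T (J * P.TB), (Real.exp (-(lam * nbJ P b k J x s)) * wt g h k x (J * P.TB) s) *
            ∑ r ∈ T P.TB, ind (x + pos s (J * P.TB) + pos r P.TB = y) *
              Real.exp (-(lam * ind (¬ goodB P b (k + J * P.TB) (x + pos s (J * P.TB)) r))) *
              wt g h (k + J * P.TB) (x + pos s (J * P.TB)) P.TB r := by
          refine Finset.sum_congr rfl fun s hs => ?_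
          rw [Finset.mul_sum]
          refine Finset.sum_congr rfl fun r _ => ?_
          rw [nbJ_glue k J x hs, wt_glue, pos_glue_add, ← add_assoc, mul_add, neg_add, Real.exp_add]
          ring
      _ ≤ ∑ s ∈ T (J * P.TB), (Real.exp (-(lam * nbJ P b k J x s)) * wt g h k x (J * P.TB) s) *
            (c * Kp g h (k + J * P.TB) (x + pos s (J * P.TB)) P.TB y) := by
          refine Finset.sum_le_sum fun s _ => mul_le_mul_of_nonneg_left ?_
            (mul_nonneg (Real.exp_pos _).le (wt_pos _ _ _ _ _ _).le)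
          exact block_all (Compo_isW hb) hw hρ0 hρL g h lam _ y
      _ = ∑ z ∈ Icc (x - (J * P.TB : ℕ)) (x + (J * P.TB : ℕ)),
            (∑ s ∈ T (J * P.TB), ind (x + pos s (J * P.TB) = z) *
              (Real.exp (-(lam * nbJ P b k J x s)) * wt g h k x (J * P.TB) s)) *
            (c * Kp g h (k + J * P.TB) z P.TB y) :=
          Compo_sum_end x _ (fun z => c * Kp g h (k + J * P.TB) z P.TB y)
      _ ≤ ∑ z ∈ Icc (x - (J * P.TB : ℕ)) (x + (J * P.TB : ℕ)),
            ((∏ i ∈ range J, (Real.exp (-dB P b (k + i * P.TB) g) + Real.exp (-lam))) *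
              Kp g h k x (J * P.TB) z) * (c * Kp g h (k + J * P.TB) z P.TB y) := by
          refine Finset.sum_le_sum fun z _ => mul_le_mul_of_nonneg_right ?_
            (mul_nonneg hc0 (Kp_nonneg _ _ _ _ _ _))
          refine le_trans (le_of_eq (Finset.sum_congr rfl fun s _ => ?_)) (ih z)
          ring
      _ = _ := by
          rw [Finset.mul_sum]
          refine Finset.sum_congr rfl fun z _ => ?_
          ring

/-- The last block is free. Proof. `prod_bound` with `J = I`, one more block: `sum_split` with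
`a = I TB`, `b = TB`; `nbad` of the glued path is `nbJ` of the first piece; `Kp_split`. -/
lemma prod_bound' (hb : IsW k b) (hw : 1 ≤ P.w) (hρ0 : 0 ≤ P.ρ)
    (hρL : 8 * (P.w : ℝ) ≤ (1 - P.ρ) * P.L) (g : Env) (h lam : ℝ) (x y : ℤ) :
    ∑ r ∈ T P.R, ind (x + pos r P.R = y) *
        Real.exp (-(lam * nbad P b k x r)) * wt g h k x P.R r ≤
      (∏ i ∈ range P.I, (Real.exp (-dB P b (k + i * P.TB) g) + Real.exp (-lam))) *
        Kp g h k x P.R y := by
  have e1 : P.R = P.I * P.TB + P.TB := by unfold Prm.R; rw [Nat.add_mul, one_mul]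
  have e2 : ∀ r, nbad P b k x r = nbJ P b k P.I x r := fun r => rfl
  rw [e1, sum_split, Kp_split]
  calc ∑ s ∈ T (P.I * P.TB), ∑ r ∈ T P.TB,
        ind (x + pos (glue (P.I * P.TB) s r) (P.I * P.TB + P.TB) = y) *
          Real.exp (-(lam * nbad P b k x (glue (P.I * P.TB) s r))) *
          wt g h k x (P.I * P.TB + P.TB) (glue (P.I * P.TB) s r)
      = ∑ s ∈ T (P.I * P.TB), (Real.exp (-(lam * nbJ P b k P.I x s)) *
          wt g h k x (P.I * P.TB) s) * Kp g h (k + P.I * P.TB) (x + pos s (P.I * P.TB)) P.TB y := by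
        refine Finset.sum_congr rfl fun s _ => ?_
        rw [Kp_eq, Finset.mul_sum]
        refine Finset.sum_congr rfl fun r _ => ?_
        rw [e2, Compo_first, wt_glue, pos_glue_add, ← add_assoc]
        ring
    _ = ∑ z ∈ Icc (x - (P.I * P.TB : ℕ)) (x + (P.I * P.TB : ℕ)),
          (∑ s ∈ T (P.I * P.TB), ind (x + pos s (P.I * P.TB) = z) *
            (Real.exp (-(lam * nbJ P b k P.I x s)) * wt g h k x (P.I * P.TB) s)) *
          Kp g h (k + P.I * P.TB) z P.TB y :=
        Compo_sum_end x _ (fun z => Kp g h (k + P.I * P.TB) z P.TB y)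
    _ ≤ ∑ z ∈ Icc (x - (P.I * P.TB : ℕ)) (x + (P.I * P.TB : ℕ)),
          ((∏ i ∈ range P.I, (Real.exp (-dB P b (k + i * P.TB) g) + Real.exp (-lam))) *
            Kp g h k x (P.I * P.TB) z) * Kp g h (k + P.I * P.TB) z P.TB y := by
        refine Finset.sum_le_sum fun z _ => mul_le_mul_of_nonneg_right ?_ (Kp_nonneg _ _ _ _ _ _)
        refine le_trans (le_of_eq (Finset.sum_congr rfl fun s _ => ?_))
          (prod_bound hb hw hρ0 hρL g h lam x P.I z)
        ring
    _ = _ := by
        rw [Finset.mul_sum]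
        refine Finset.sum_congr rfl fun z _ => ?_
        ring

/-- Few bad blocks: `1 ≤ e^{lam I / 32 - lam nbad}`. Proof. `prod_bound'` and
`ind (… ∧ nbad ≤ I/32) ≤ e^{lam I/32} e^{-lam nbad}` for `lam ≥ 0`. -/
theorem ZS_le (hb : IsW k b) (hw : 1 ≤ P.w) (hρ0 : 0 ≤ P.ρ)
    (hρL : 8 * (P.w : ℝ) ≤ (1 - P.ρ) * P.L) (g : Env) (h : ℝ) {lam : ℝ} (hl : 0 ≤ lam) (x y : ℤ) :
    ZS P h b k g x y ≤ Real.exp (lam * P.I / 32) *
      ((∏ i ∈ range P.I, (Real.exp (-dB P b (k + i * P.TB) g) + Real.exp (-lam))) *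
        Kp g h k x P.R y) := by
  refine le_trans ?_ (mul_le_mul_of_nonneg_left (prod_bound' hb hw hρ0 hρL g h lam x y)
    (Real.exp_pos _).le)
  unfold ZS
  rw [Finset.mul_sum]
  refine Finset.sum_le_sum fun r _ => ?_
  have h1 : ind ((∀ j ≤ P.R, b (k + j) < x + pos r j) ∧ nbad P b k x r ≤ (P.I : ℝ) / 32) ≤
      Real.exp (lam * P.I / 32) * Real.exp (-(lam * nbad P b k x r)) := by
    rw [← Real.exp_add]
    by_cases hp : (∀ j ≤ P.R, b (k + j) < x + pos r j) ∧ nbad P b k x r ≤ (P.I : ℝ) / 32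
    · rw [ind_true hp]
      refine Real.one_le_exp ?_
      have := mul_le_mul_of_nonneg_left hp.2 hl
      linarith
    · rw [ind_false hp]
      exact (Real.exp_pos _).le
  have h2 := mul_le_mul_of_nonneg_left h1
    (mul_nonneg (ind_nonneg (x + pos r P.R = y)) (wt_pos g h k x P.R r).le)
  linarith

lemma Compo_isW_abs (hb : IsW k b) (m : ℕ) : |b (k + m) - b k| ≤ m := by
  induction m with
  | zero => simp
  | succ m ih =>
    have h1 := hb (k + m) (by omega)
    have h2 := abs_le.1 h1.le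
    have h3 := abs_le.1 ih
    rw [← add_assoc, abs_le]
    push_cast
    constructor <;> linarith

/-- `ZS` vanishes unless the end points are close to those of `b`. Proof. A path counted in `ZS` has
fewer than `I` bad blocks (`I/32 < I`), so some block `i < I` is good, hence at time `k + i TB + L` it
is within `4w` of `b`; `|x - b k| ≤ 4 w + 2 (i TB + L) ≤ 2 R` (paths and `b` move by one unit;
`4 w ≤ L`, `(i TB + L) + L ≤ R`). `|y - x| ≤ R`. -/
lemma ZS_zero (hb : IsW k b) (hI : 1 ≤ P.I) (hL : 8 * P.w ≤ P.L) (h : ℝ) (g : Env) {x y : ℤ}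
    (hne : ZS P h b k g x y ≠ 0) : |x - b k| ≤ 2 * P.R ∧ |y - x| ≤ P.R := by
  unfold ZS at hne
  obtain ⟨r, hr, hr2⟩ := Finset.exists_ne_zero_of_sum_ne_zero hne
  have h1 : x + pos r P.R = y := by
    by_contra hc
    exact hr2 (by rw [ind_false hc]; ring)
  have h2 : (∀ j ≤ P.R, b (k + j) < x + pos r j) ∧ nbad P b k x r ≤ (P.I : ℝ) / 32 := by
    by_contra hc
    exact hr2 (by rw [ind_false hc]; ring)
  obtain ⟨h3, h4⟩ := h2
  constructor
  · have h5 : ∃ i ∈ range P.I,
        goodB P b (k + i * P.TB) (x + pos r (i * P.TB)) (shf (i * P.TB) r) := by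
      by_contra hc
      push Not at hc
      have h6 : nbad P b k x r = P.I := by
        unfold nbad
        rw [Finset.sum_congr rfl fun i hi => ind_true (hc i hi)]
        simp
      rw [h6] at h4
      have h7 : (1 : ℝ) ≤ P.I := by exact_mod_cast hI
      linarith
    obtain ⟨i, hi, hg⟩ := h5
    have hi2 : i + 1 ≤ P.I := Finset.mem_range.1 hi
    have hTB : P.TB = P.L + P.ℓ + P.L := rfl
    have hR : P.R = P.I * P.TB + P.TB := by unfold Prm.R; rw [Nat.add_mul, one_mul]
    have hm := Nat.mul_le_mul_right P.TB hi2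
    rw [Nat.add_mul, one_mul] at hm
    obtain ⟨-, g2, g3, -⟩ := hg
    have g4 := g2 P.L (by omega)
    have g5 := pos_add r (i * P.TB) P.L
    have g6 := abs_le.1 (Compo_isW_abs hb (i * P.TB + P.L))
    have g7 := abs_le.1 (pos_abs_le r (i * P.TB + P.L))
    rw [← add_assoc] at g6
    rw [g5] at g7
    generalize i * P.TB = m at *
    generalize P.I * P.TB = M at *
    push_cast at g6 g7
    rw [abs_le]
    constructor <;> omega
  · rw [← h1, add_sub_cancel_left]
    exact pos_abs_le r P.R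

end

end Pool.Agent.W_7d29a1_h47
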