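import Pool.Agent.W_7d29a1_h47.InsK

/-!
# Exchange of two walks at a meeting: kernels
-/

namespace Pool.Agent.W_7d29a1_h47

open MeasureTheory ProbabilityTheory Finset

noncomputable section

/-- Total weight of the pairs of walks `a → x`, `a' → x'` (times `t`, …, `t + R`) that never meet. -/
def NK (g : Env) (h : ℝ) (t R : ℕ) (a a' x x' : ℤ) : ℝ :=
  ∑ r ∈ T R, ∑ r' ∈ T R, ind (a + pos r R = x) * ind (a' + pos r' R = x') *
    ind (∀ l ≤ R, a + pos r l ≠ a' + pos r' l) * (wt g h t a R r * wt g h t a' R r')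

/-- The same for the pairs that meet. -/
def MK (g : Env) (h : ℝ) (t R : ℕ) (a a' x x' : ℤ) : ℝ :=
  ∑ r ∈ T R, ∑ r' ∈ T R, ind (a + pos r R = x) * ind (a' + pos r' R = x') *
    ind (¬ ∀ l ≤ R, a + pos r l ≠ a' + pos r' l) * (wt g h t a R r * wt g h t a' R r')

lemma NK_nonneg (g : Env) (h : ℝ) (t R : ℕ) (a a' x x' : ℤ) : 0 ≤ NK g h t R a a' x x' :=
  Finset.sum_nonneg fun _ _ => Finset.sum_nonneg fun _ _ => mul_nonneg
    (mul_nonneg (mul_nonneg (ind_nonneg _) (ind_nonneg _)) (ind_nonneg _))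
    (mul_nonneg (wt_pos _ _ _ _ _ _).le (wt_pos _ _ _ _ _ _).le)

/-- The two walks may be named in the other order. Proof. `Finset.sum_comm`. -/
lemma NK_symm (g : Env) (h : ℝ) (t R : ℕ) (a a' x x' : ℤ) :
    NK g h t R a a' x x' = NK g h t R a' a x' x := by
  unfold NK
  rw [Finset.sum_comm]
  refine Finset.sum_congr rfl fun r _ => Finset.sum_congr rfl fun r' _ => ?_
  have h1 : ind (∀ l ≤ R, a + pos r' l ≠ a' + pos r l) =
      ind (∀ l ≤ R, a' + pos r l ≠ a + pos r' l) :=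
    ind_congr ⟨fun H l hl => (H l hl).symm, fun H l hl => (H l hl).symm⟩
  rw [h1]
  ring

/-- Proof. `Kp_eq` twice, `ind (¬ p) = 1 - ind p` (`ind_not`). -/
lemma Kp_mul_Kp (g : Env) (h : ℝ) (t R : ℕ) (a a' x x' : ℤ) :
    Kp g h t a R x * Kp g h t a' R x' = NK g h t R a a' x x' + MK g h t R a a' x x' := by
  rw [Kp_eq, Kp_eq, Finset.sum_mul_sum]
  unfold NK MK
  rw [← Finset.sum_add_distrib]
  refine Finset.sum_congr rfl fun r _ => ?_
  rw [← Finset.sum_add_distrib]
  refine Finset.sum_congr rfl fun r' _ => ?_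
  rw [ind_not]
  ring

/-- The walk with the first `τ` steps of `r` and then the steps of `r'`. -/
def SwapK_sw (τ : ℕ) (r r' : ℕ → Bool) : ℕ → Bool := fun i => if i < τ then r i else r' i

lemma SwapK_mem {n τ : ℕ} {r r' : ℕ → Bool} (hr : r ∈ T n) (hr' : r' ∈ T n) :
    SwapK_sw τ r r' ∈ T n := by
  rw [mem_T] at hr hr' ⊢
  intro i hi
  unfold SwapK_sw
  split_ifs
  · exact hr i hi
  · exact hr' i hi

lemma SwapK_le {τ i : ℕ} (hi : i ≤ τ) (r r' : ℕ → Bool) : pos (SwapK_sw τ r r') i = pos r i := by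
  refine pos_congr fun j hj => ?_
  unfold SwapK_sw
  rw [if_pos (lt_of_lt_of_le hj hi)]

lemma SwapK_shf (τ : ℕ) (r r' : ℕ → Bool) : shf τ (SwapK_sw τ r r') = shf τ r' := by
  funext i
  unfold shf SwapK_sw
  rw [if_neg (by omega)]

lemma SwapK_ge {a a' : ℤ} {τ i : ℕ} (hi : τ ≤ i) {r r' : ℕ → Bool}
    (h : a + pos r τ = a' + pos r' τ) : a + pos (SwapK_sw τ r r') i = a' + pos r' i := by
  obtain ⟨k, rfl⟩ := Nat.exists_eq_add_of_le hi
  rw [pos_add, SwapK_shf, SwapK_le le_rfl, pos_add r' τ k]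
  omega

lemma SwapK_meet {a a' : ℤ} {τ : ℕ} {r r' : ℕ → Bool} (h : a + pos r τ = a' + pos r' τ) (i : ℕ) :
    a + pos (SwapK_sw τ r r') i = a' + pos (SwapK_sw τ r' r) i ↔ a + pos r i = a' + pos r' i := by
  rcases le_total i τ with hi | hi
  · rw [SwapK_le hi, SwapK_le hi]
  · rw [SwapK_ge hi h, SwapK_ge hi h.symm]
    exact eq_comm

lemma SwapK_invol (τ : ℕ) (r r' : ℕ → Bool) : SwapK_sw τ (SwapK_sw τ r r') (SwapK_sw τ r' r) = r := by
  funext i
  unfold SwapK_sw
  by_cases h : i < τ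
  · rw [if_pos h, if_pos h]
  · rw [if_neg h, if_neg h]

lemma SwapK_wt (g : Env) (h : ℝ) (t : ℕ) {a a' : ℤ} {n τ : ℕ} (hτ : τ ≤ n) {r r' : ℕ → Bool}
    (hp : a + pos r τ = a' + pos r' τ) :
    wt g h t a n (SwapK_sw τ r r') * wt g h t a' n (SwapK_sw τ r' r) =
      wt g h t a n r * wt g h t a' n r' := by
  obtain ⟨m, rfl⟩ := Nat.exists_eq_add_of_le hτ
  have h1 : ∀ (a a' : ℤ) (r r' : ℕ → Bool), a + pos r τ = a' + pos r' τ →
      wt g h t a (τ + m) (SwapK_sw τ r r') =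
        wt g h t a τ r * wt g h (t + τ) (a' + pos r' τ) m (shf τ r') := by
    intro a a' r r' hp
    rw [wt_add, SwapK_shf, SwapK_le le_rfl, hp]
    congr 1
    refine wt_congr fun j hj => ?_
    unfold SwapK_sw
    rw [if_pos hj]
  rw [h1 a a' r r' hp, h1 a' a r' r hp.symm, wt_add g h t a τ m r, wt_add g h t a' τ m r']
  ring

/-- The first meeting time. -/
def SwapK_tau (R : ℕ) (a a' : ℤ) (r r' : ℕ → Bool) : ℕ :=
  sInf {i | i ≤ R ∧ a + pos r i = a' + pos r' i}

lemma SwapK_tau_mem {R : ℕ} {a a' : ℤ} {r r' : ℕ → Bool}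
    (hm : ∃ i, i ≤ R ∧ a + pos r i = a' + pos r' i) :
    SwapK_tau R a a' r r' ≤ R ∧
      a + pos r (SwapK_tau R a a' r r') = a' + pos r' (SwapK_tau R a a' r r') := by
  obtain ⟨i, hi⟩ := hm
  exact Nat.sInf_mem (s := {i | i ≤ R ∧ a + pos r i = a' + pos r' i}) ⟨i, hi⟩

lemma SwapK_tau_eq {R : ℕ} {a a' : ℤ} {τ : ℕ} {r r' : ℕ → Bool}
    (h : a + pos r τ = a' + pos r' τ) :
    SwapK_tau R a a' (SwapK_sw τ r r') (SwapK_sw τ r' r) = SwapK_tau R a a' r r' := by
  unfold SwapK_tau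
  congr 1
  ext i
  simp only [Set.mem_setOf_eq]
  rw [SwapK_meet h]

open Classical in
lemma SwapK_MK (g : Env) (h : ℝ) (t R : ℕ) (a a' x x' : ℤ) :
    MK g h t R a a' x x' =
      ∑ p ∈ (T R ×ˢ T R).filter (fun p => ∃ i, i ≤ R ∧ a + pos p.1 i = a' + pos p.2 i),
        ind (a + pos p.1 R = x) * ind (a' + pos p.2 R = x') *
          (wt g h t a R p.1 * wt g h t a' R p.2) := by
  rw [Finset.sum_filter, Finset.sum_product]
  unfold MK
  refine Finset.sum_congr rfl fun r _ => Finset.sum_congr rfl fun r' _ => ?_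
  by_cases hm : ∃ i, i ≤ R ∧ a + pos r i = a' + pos r' i
  · rw [if_pos hm, ind_true (p := ¬ ∀ l ≤ R, a + pos r l ≠ a' + pos r' l), mul_one]
    obtain ⟨i, hi, hi'⟩ := hm
    exact fun H => H i hi hi'
  · rw [if_neg hm, ind_false (p := ¬ ∀ l ≤ R, a + pos r l ≠ a' + pos r' l), mul_zero, zero_mul]
    intro H
    exact H fun l hl hl' => hm ⟨l, hl, hl'⟩

/-- **Exchange of the final segments.** Proof. For a pair `(r, r')` with a meeting let `τ ≤ R` be the
first time `l` with `a + pos r l = a' + pos r' l`. The map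
`(r, r') ↦ (fun i => if i < τ then r i else r' i, fun i => if i < τ then r' i else r i)` is an
involution of the pairs in `T R × T R` that meet (the new walks are at time `l ≤ τ` at the old places
and at times `l ≥ τ` at the exchanged places, so the set of meeting times is the same), it exchanges
the end points, and the product of the weights does not change (`wt_add` at time `τ`, or `En` as a
sum over the steps `i < R`; the tilt only sees the end points `pos r R + pos r' R`, which is the same).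
Compare the proof of `swap_init`, `InsS_wt` in `InsS.lean`. -/
theorem MK_swap (g : Env) (h : ℝ) (t R : ℕ) (a a' x x' : ℤ) :
    MK g h t R a a' x x' = MK g h t R a a' x' x := by
  classical
  rw [SwapK_MK, SwapK_MK]
  have hmem : ∀ p ∈ (T R ×ˢ T R).filter (fun p => ∃ i, i ≤ R ∧ a + pos p.1 i = a' + pos p.2 i),
      (SwapK_sw (SwapK_tau R a a' p.1 p.2) p.1 p.2, SwapK_sw (SwapK_tau R a a' p.1 p.2) p.2 p.1) ∈
        (T R ×ˢ T R).filter (fun p => ∃ i, i ≤ R ∧ a + pos p.1 i = a' + pos p.2 i) := by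
    rintro ⟨r, r'⟩ hp
    rw [Finset.mem_filter, Finset.mem_product] at hp ⊢
    obtain ⟨⟨h1, h2⟩, h3⟩ := hp
    obtain ⟨h4, h5⟩ := SwapK_tau_mem h3
    exact ⟨⟨SwapK_mem h1 h2, SwapK_mem h2 h1⟩, _, h4, (SwapK_meet h5 _).2 h5⟩
  have hinv : ∀ p ∈ (T R ×ˢ T R).filter (fun p => ∃ i, i ≤ R ∧ a + pos p.1 i = a' + pos p.2 i),
      (SwapK_sw (SwapK_tau R a a' (SwapK_sw (SwapK_tau R a a' p.1 p.2) p.1 p.2)
          (SwapK_sw (SwapK_tau R a a' p.1 p.2) p.2 p.1))
          (SwapK_sw (SwapK_tau R a a' p.1 p.2) p.1 p.2)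
          (SwapK_sw (SwapK_tau R a a' p.1 p.2) p.2 p.1),
        SwapK_sw (SwapK_tau R a a' (SwapK_sw (SwapK_tau R a a' p.1 p.2) p.1 p.2)
          (SwapK_sw (SwapK_tau R a a' p.1 p.2) p.2 p.1))
          (SwapK_sw (SwapK_tau R a a' p.1 p.2) p.2 p.1)
          (SwapK_sw (SwapK_tau R a a' p.1 p.2) p.1 p.2)) = p := by
    rintro ⟨r, r'⟩ hp
    rw [Finset.mem_filter] at hp
    obtain ⟨h4, h5⟩ := SwapK_tau_mem hp.2
    simp only at h4 h5 ⊢
    rw [SwapK_tau_eq h5, SwapK_invol, SwapK_invol]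
  refine Finset.sum_bij'
    (fun p _ => (SwapK_sw (SwapK_tau R a a' p.1 p.2) p.1 p.2,
      SwapK_sw (SwapK_tau R a a' p.1 p.2) p.2 p.1))
    (fun p _ => (SwapK_sw (SwapK_tau R a a' p.1 p.2) p.1 p.2,
      SwapK_sw (SwapK_tau R a a' p.1 p.2) p.2 p.1)) hmem hmem hinv hinv ?_
  rintro ⟨r, r'⟩ hp
  rw [Finset.mem_filter] at hp
  obtain ⟨h4, h5⟩ := SwapK_tau_mem hp.2
  simp only at h4 h5 ⊢
  rw [SwapK_ge h4 h5, SwapK_ge h4 h5.symm, SwapK_wt g h t h4 h5]
  ring

/-- Proof. `Kp_mul_Kp` for `(x, x')` and for `(x', x)`, `MK_swap`. -/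
theorem Kp_cross (g : Env) (h : ℝ) (t R : ℕ) (a a' x x' : ℤ) :
    Kp g h t a R x * Kp g h t a' R x' - Kp g h t a R x' * Kp g h t a' R x =
      NK g h t R a a' x x' - NK g h t R a a' x' x := by
  rw [Kp_mul_Kp, Kp_mul_Kp, MK_swap g h t R a a' x' x]
  ring

lemma SwapK_order {R : ℕ} {a a' : ℤ} {r r' : ℕ → Bool} (ha : a < a') (hpar : (a' - a) % 2 = 0)
    (hm : ∀ l ≤ R, a + pos r l ≠ a' + pos r' l) : ∀ l ≤ R, a + pos r l < a' + pos r' l := by
  intro l
  induction l with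
  | zero =>
    intro _
    rw [pos_zero, pos_zero]
    omega
  | succ l ih =>
    intro hl
    have h1 := ih (by omega)
    have h2 := hm (l + 1) hl
    rw [pos_succ, pos_succ] at h2 ⊢
    have h3 := pos_parity r l
    have h4 := pos_parity r' l
    have h5 : stp (r l) = 1 ∨ stp (r l) = -1 := by cases r l <;> simp
    have h6 : stp (r' l) = 1 ∨ stp (r' l) = -1 := by cases r' l <;> simp
    rcases h5 with h5 | h5 <;> rcases h6 with h6 | h6 <;> rw [h5, h6] at h2 ⊢ <;> omega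

/-- **Total positivity** (Karlin–McGregor, Lindström–Gessel–Viennot): for starting points `a < a'` of the
same parity and end points `x < x'`. Proof. `Kp_cross`: `NK g h t R a a' x' x = 0` because two walks
of the same parity with `a < a'` that never meet stay ordered (the difference
`a' + pos r' l - a - pos r l` is even, changes by `0, ± 2`, and is never `0`), so they cannot end in
`x' > x`; and `NK ≥ 0`. -/
theorem Kp_lgv (g : Env) (h : ℝ) (t R : ℕ) {a a' x x' : ℤ} (ha : a < a') (hpar : (a' - a) % 2 = 0)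
    (hx : x < x') :
    Kp g h t a R x' * Kp g h t a' R x ≤ Kp g h t a R x * Kp g h t a' R x' := by
  have h1 := Kp_cross g h t R a a' x x'
  have h2 : NK g h t R a a' x' x = 0 := by
    unfold NK
    refine Finset.sum_eq_zero fun r _ => Finset.sum_eq_zero fun r' _ => ?_
    by_cases hm : ∀ l ≤ R, a + pos r l ≠ a' + pos r' l
    · have h3 := SwapK_order ha hpar hm R le_rfl
      by_cases h4 : a + pos r R = x'
      · have h5 : ¬ a' + pos r' R = x := by
          intro h5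
          omega
        rw [ind_false h5]
        ring
      · rw [ind_false h4]
        ring
    · rw [ind_false hm]
      ring
  have h3 := NK_nonneg g h t R a a' x x'
  rw [h2] at h1
  linarith

end

end Pool.Agent.W_7d29a1_h47
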