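import Pool.Agent.W_7d29a1_h47q.WinA
import Pool.Agent.W_7d29a1_h47q.SwapK

/-!
# Pairs with different weights
-/

namespace Pool.Agent.W_7d29a1_h47

open MeasureTheory ProbabilityTheory Finset

noncomputable section

/-- Total weight of the pairs of walks in the window that never meet, with the weights `α, γ` for the
first and `α', γ'` for the second walk. -/
def XN (g : Env) (h : ℝ) (k R N : ℕ) (α α' γ γ' : ℤ → ℝ) : ℝ :=
  ∑ a ∈ box N, ∑ a' ∈ box N, ∑ x ∈ box (N + R), ∑ x' ∈ box (N + R),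
    α a * α' a' * NK g h k R a a' x x' * (γ x * γ' x')

variable {g : Env} {h : ℝ} {k R N : ℕ}

lemma XN_nonneg {α α' γ γ' : ℤ → ℝ} (h1 : ∀ x, 0 ≤ α x) (h2 : ∀ x, 0 ≤ α' x) (h3 : ∀ x, 0 ≤ γ x)
    (h4 : ∀ x, 0 ≤ γ' x) : 0 ≤ XN g h k R N α α' γ γ' :=
  Finset.sum_nonneg fun _ _ => Finset.sum_nonneg fun _ _ => Finset.sum_nonneg fun _ _ =>
    Finset.sum_nonneg fun _ _ => mul_nonneg (mul_nonneg (mul_nonneg (h1 _) (h2 _))
      (NK_nonneg _ _ _ _ _ _ _ _)) (mul_nonneg (h3 _) (h4 _))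

/-- `XN` as a sum over pairs of walks. -/
lemma CrossA_XN (α α' γ γ' : ℤ → ℝ) : XN g h k R N α α' γ γ' =
    ∑ a ∈ box N, ∑ a' ∈ box N, ∑ r ∈ T R, ∑ r' ∈ T R,
      (α a * wt g h k a R r * γ (a + pos r R)) * (α' a' * wt g h k a' R r' * γ' (a' + pos r' R)) *
        ind (∀ l ≤ R, a + pos r l ≠ a' + pos r' l) := by
  unfold XN
  refine Finset.sum_congr rfl fun a ha => Finset.sum_congr rfl fun a' ha' => ?_
  have hy : ∀ r, a + pos r R ∈ box (N + R) := by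
    intro r
    rw [mem_box] at ha ⊢
    have h1 := pos_abs_le r R
    have h2 := abs_add_le a (pos r R)
    push_cast
    linarith
  have hy' : ∀ r, a' + pos r R ∈ box (N + R) := by
    intro r
    rw [mem_box] at ha' ⊢
    have h1 := pos_abs_le r R
    have h2 := abs_add_le a' (pos r R)
    push_cast
    linarith
  have e1 : ∀ x ∈ box (N + R), ∀ x' ∈ box (N + R),
      α a * α' a' * NK g h k R a a' x x' * (γ x * γ' x') =
      ∑ r ∈ T R, ∑ r' ∈ T R, ind (a + pos r R = x) * (ind (a' + pos r' R = x') *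
        (α a * α' a' * ind (∀ l ≤ R, a + pos r l ≠ a' + pos r' l) *
          (wt g h k a R r * wt g h k a' R r') * (γ x * γ' x'))) := by
    intro x _ x' _
    unfold NK
    rw [Finset.mul_sum, Finset.sum_mul]
    refine Finset.sum_congr rfl fun r _ => ?_
    rw [Finset.mul_sum, Finset.sum_mul]
    refine Finset.sum_congr rfl fun r' _ => ?_
    ring
  rw [Finset.sum_congr rfl fun x hx => Finset.sum_congr rfl fun x' hx' => e1 x hx x' hx']
  rw [Finset.sum_congr rfl fun x _ => Finset.sum_comm, Finset.sum_comm]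
  refine Finset.sum_congr rfl fun r _ => ?_
  rw [Finset.sum_congr rfl fun x _ => Finset.sum_comm, Finset.sum_comm]
  refine Finset.sum_congr rfl fun r' _ => ?_
  rw [Finset.sum_eq_single (a + pos r R)
    (fun y _ hne => Finset.sum_eq_zero fun x' _ => by
      rw [ind_false (fun e => hne e.symm)]; ring) (fun hn => absurd (hy r) hn)]
  rw [Finset.sum_eq_single (a' + pos r' R)
    (fun y _ hne => by
      have e0 : ind (a' + pos r' R = y) = 0 := ind_false fun e => hne e.symm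
      rw [e0]; ring) (fun hn => absurd (hy' r') hn)]
  have e2 : ind (a + pos r R = a + pos r R) = 1 := ind_true rfl
  have e3 : ind (a' + pos r' R = a' + pos r' R) = 1 := ind_true rfl
  rw [e2, e3]
  ring

lemma CrossA_num (α α' γ γ' : ℤ → ℝ) :
    ∑ i ∈ WI N R, ∑ j ∈ WI N R, (Wc h R α γ i * Real.exp (gs g (WA k R i))) *
      (Wc h R α' γ' j * Real.exp (gs g (WA k R j))) * nmW R i j = XN g h k R N α α' γ γ' := by
  rw [CrossA_XN]
  unfold WI
  rw [Finset.sum_product]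
  refine Finset.sum_congr rfl fun a _ => ?_
  rw [Finset.sum_congr rfl fun r _ => Finset.sum_product _ _ _, Finset.sum_comm]
  refine Finset.sum_congr rfl fun a' _ => Finset.sum_congr rfl fun r _ =>
    Finset.sum_congr rfl fun r' _ => ?_
  rw [Wc_mul, Wc_mul]
  rfl

/-- The no-meeting probability of two walks of the window system. Proof. Multiply out both Gibbs
averages (`Wc_mul`, `Finset.sum_product`); `α x wt γ(x + pos r R)` and sort by the end points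
(`|x + pos r R| ≤ N + R`), as in `SA_ends`; `nmW` is the indicator in `NK`. -/
lemma SA2_nm {α γ : ℤ → ℝ} (hc : Adms (WI N R) (Wc h R α γ)) :
    SA2 (WI N R) (Wc h R α γ) (WA k R) g (nmW R) * SZ (WI N R) (Wc h R α γ) (WA k R) g ^ 2 =
      XN g h k R N α α γ γ := by
  have hZ := (SZ_pos hc (WA k R) g).ne'
  rw [← CrossA_num]
  unfold SA2
  have h1 : ∀ i, SA (WI N R) (Wc h R α γ) (WA k R) g (fun j => nmW R i j) =
      (∑ j ∈ WI N R, Wc h R α γ j * Real.exp (gs g (WA k R j)) * nmW R i j) /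
        SZ (WI N R) (Wc h R α γ) (WA k R) g := fun i => rfl
  have h2 : SA (WI N R) (Wc h R α γ) (WA k R) g
      (fun i => SA (WI N R) (Wc h R α γ) (WA k R) g (fun j => nmW R i j)) =
      (∑ i ∈ WI N R, Wc h R α γ i * Real.exp (gs g (WA k R i)) *
        ((∑ j ∈ WI N R, Wc h R α γ j * Real.exp (gs g (WA k R j)) * nmW R i j) /
        SZ (WI N R) (Wc h R α γ) (WA k R) g)) / SZ (WI N R) (Wc h R α γ) (WA k R) g := rfl
  rw [h2]
  generalize SZ (WI N R) (Wc h R α γ) (WA k R) g = Z at hZ ⊢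
  have h3 : (∑ i ∈ WI N R, Wc h R α γ i * Real.exp (gs g (WA k R i)) *
        ((∑ j ∈ WI N R, Wc h R α γ j * Real.exp (gs g (WA k R j)) * nmW R i j) / Z)) / Z * Z ^ 2 =
      ∑ i ∈ WI N R, Wc h R α γ i * Real.exp (gs g (WA k R i)) *
        (∑ j ∈ WI N R, Wc h R α γ j * Real.exp (gs g (WA k R j)) * nmW R i j) := by
    rw [sq, ← mul_assoc, div_mul_cancel₀ _ hZ, Finset.sum_mul]
    refine Finset.sum_congr rfl fun i _ => ?_
    field_simp
  rw [h3]
  refine Finset.sum_congr rfl fun i _ => ?_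
  rw [Finset.mul_sum]
  exact Finset.sum_congr rfl fun j _ => by ring

/-- Numbers. Proof. With `u = e^{-τ} B / A ∈ [e^{-1}, e]`: `(A + e^{-τ} B)² = A² (1 + u)²` and
`(1 + u)² ≤ 6 u` because `u + 1/u ≤ e + 1/e ≤ 4` (convexity; or `(u - e)(u - 1/e) ≤ 0` and
`2.71 < e < 2.7183`). -/
lemma mix_num {A B τ : ℝ} (hA : 0 < A) (hB : 0 < B) (hτ : |τ - Real.log (B / A)| ≤ 1) :
    (A + Real.exp (-τ) * B) ^ 2 ≤ 6 * (Real.exp (-τ) * (A * B)) := by
  obtain ⟨h1, h2⟩ := abs_le.1 hτ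
  have hu : Real.exp (-τ) * B = Real.exp (Real.log (B / A) - τ) * A := by
    rw [Real.exp_sub, Real.exp_log (div_pos hB hA), Real.exp_neg]
    field_simp
  have hu1 : Real.exp (Real.log (B / A) - τ) ≤ 3 := by
    calc Real.exp (Real.log (B / A) - τ) ≤ Real.exp 1 := Real.exp_le_exp.2 (by linarith)
      _ ≤ 3 := by
        have := Real.exp_one_lt_d9
        linarith
  have hu2 : 1 / 3 ≤ Real.exp (Real.log (B / A) - τ) := by
    calc (1 : ℝ) / 3 ≤ 1 / Real.exp 1 :=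
          one_div_le_one_div_of_le (Real.exp_pos _) (by have := Real.exp_one_lt_d9; linarith)
      _ = Real.exp (-1) := by rw [Real.exp_neg, one_div]
      _ ≤ Real.exp (Real.log (B / A) - τ) := Real.exp_le_exp.2 (by linarith)
  have h3 : Real.exp (-τ) * (A * B) = Real.exp (Real.log (B / A) - τ) * A * A := by
    rw [← hu]
    ring
  rw [h3, hu]
  generalize Real.exp (Real.log (B / A) - τ) = u at hu1 hu2
  have h4 : (1 + u) ^ 2 ≤ 6 * u := by nlinarith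
  have h5 : 0 ≤ A ^ 2 := sq_nonneg A
  calc (A + u * A) ^ 2 = (1 + u) ^ 2 * A ^ 2 := by ring
    _ ≤ 6 * u * A ^ 2 := mul_le_mul_of_nonneg_right h4 h5
    _ = 6 * (u * A * A) := by ring

/-- Common part of `xn_past` and `xn_fut`. -/
lemma CrossA_fin {X Y S A B τ : ℝ} (hA : 0 < A) (hB : 0 < B) (hS : 0 ≤ S)
    (hτ : |τ - Real.log (B / A)| ≤ 1) (h1 : S * (A + Real.exp (-τ) * B) ^ 2 = Y)
    (h2 : Real.exp (-τ) * X ≤ Y) : X ≤ 6 * (A * B) * S := by
  have h3 := mix_num hA hB hτ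
  have h4 : Real.exp (-τ) * X ≤ Real.exp (-τ) * (6 * (A * B) * S) := by
    calc Real.exp (-τ) * X ≤ S * (A + Real.exp (-τ) * B) ^ 2 := by rw [h1]; exact h2
      _ ≤ S * (6 * (Real.exp (-τ) * (A * B))) := mul_le_mul_of_nonneg_left h3 hS
      _ = Real.exp (-τ) * (6 * (A * B) * S) := by ring
  exact le_of_mul_le_mul_left h4 (Real.exp_pos _)

/-- **Different terminal weights.** Proof. `SZ` is linear in `γ`: with `c = e^{-τ}`,
`SZ (γ₁ + c γ₂) = A + c B` (`SZ_win`). `XN α α (γ₁ + c γ₂) (γ₁ + c γ₂) ≥ c XN α α γ₁ γ₂` (expand, all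
terms are nonnegative). `SA2_nm` and `mix_num`:
`c XN α α γ₁ γ₂ ≤ SA2 (A + c B)² ≤ SA2 * 6 c A B`; divide by `c > 0`. -/
theorem xn_past {α γ₁ γ₂ : ℤ → ℝ} (hα : ∀ x, 0 ≤ α x) (h1 : ∀ x, 0 ≤ γ₁ x) (h2 : ∀ x, 0 ≤ γ₂ x)
    (hc1 : Adms (WI N R) (Wc h R α γ₁)) (hc2 : Adms (WI N R) (Wc h R α γ₂)) {τ : ℝ}
    (hτ : |τ - Real.log (SZ (WI N R) (Wc h R α γ₂) (WA k R) g /
      SZ (WI N R) (Wc h R α γ₁) (WA k R) g)| ≤ 1) :
    XN g h k R N α α γ₁ γ₂ ≤ 6 * (SZ (WI N R) (Wc h R α γ₁) (WA k R) g *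
      SZ (WI N R) (Wc h R α γ₂) (WA k R) g) *
      SA2 (WI N R) (Wc h R α (fun x => γ₁ x + Real.exp (-τ) * γ₂ x)) (WA k R) g (nmW R) := by
  have hcc : 0 < Real.exp (-τ) := Real.exp_pos _
  have hW : ∀ i, Wc h R α (fun x => γ₁ x + Real.exp (-τ) * γ₂ x) i =
      Wc h R α γ₁ i + Real.exp (-τ) * Wc h R α γ₂ i := by
    intro i
    unfold Wc
    ring
  have hadm : Adms (WI N R) (Wc h R α (fun x => γ₁ x + Real.exp (-τ) * γ₂ x)) := by
    refine ⟨fun i hi => ?_, ?_⟩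
    · rw [hW]
      exact add_nonneg (hc1.nn i hi) (mul_nonneg hcc.le (hc2.nn i hi))
    · obtain ⟨i, hi, h0⟩ := hc1.ex
      refine ⟨i, hi, ?_⟩
      rw [hW]
      exact add_pos_of_pos_of_nonneg h0 (mul_nonneg hcc.le (hc2.nn i hi))
  have hSZ : SZ (WI N R) (Wc h R α (fun x => γ₁ x + Real.exp (-τ) * γ₂ x)) (WA k R) g =
      SZ (WI N R) (Wc h R α γ₁) (WA k R) g +
        Real.exp (-τ) * SZ (WI N R) (Wc h R α γ₂) (WA k R) g := by
    unfold SZ
    rw [Finset.mul_sum, ← Finset.sum_add_distrib]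
    refine Finset.sum_congr rfl fun i _ => ?_
    rw [hW]
    ring
  have h3 := SA2_nm (g := g) (k := k) hadm
  rw [hSZ] at h3
  refine CrossA_fin (SZ_pos hc1 _ _) (SZ_pos hc2 _ _)
    (SA2_nonneg hadm fun i _ j _ => ind_nonneg _) hτ h3 ?_
  unfold XN
  rw [Finset.mul_sum]
  refine Finset.sum_le_sum fun a _ => ?_
  rw [Finset.mul_sum]
  refine Finset.sum_le_sum fun a' _ => ?_
  rw [Finset.mul_sum]
  refine Finset.sum_le_sum fun x _ => ?_
  rw [Finset.mul_sum]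
  refine Finset.sum_le_sum fun x' _ => ?_
  have h5 : 0 ≤ α a * α a' * NK g h k R a a' x x' :=
    mul_nonneg (mul_nonneg (hα _) (hα _)) (NK_nonneg _ _ _ _ _ _ _ _)
  have h6 : Real.exp (-τ) * (γ₁ x * γ₂ x') ≤
      (γ₁ x + Real.exp (-τ) * γ₂ x) * (γ₁ x' + Real.exp (-τ) * γ₂ x') := by
    have e1 := mul_nonneg (h1 x) (h1 x')
    have e2 := mul_nonneg hcc.le (mul_nonneg (h2 x) (h1 x'))
    have e3 := mul_nonneg (mul_nonneg hcc.le hcc.le) (mul_nonneg (h2 x) (h2 x'))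
    nlinarith
  have h7 := mul_le_mul_of_nonneg_left h6 h5
  calc Real.exp (-τ) * (α a * α a' * NK g h k R a a' x x' * (γ₁ x * γ₂ x')) =
      α a * α a' * NK g h k R a a' x x' * (Real.exp (-τ) * (γ₁ x * γ₂ x')) := by ring
    _ ≤ _ := h7

/-- **Different initial weights.** Proof. As `xn_past`. -/
theorem xn_fut {α₁ α₂ γ : ℤ → ℝ} (h1 : ∀ x, 0 ≤ α₁ x) (h2 : ∀ x, 0 ≤ α₂ x) (hγ : ∀ x, 0 ≤ γ x)
    (hc1 : Adms (WI N R) (Wc h R α₁ γ)) (hc2 : Adms (WI N R) (Wc h R α₂ γ)) {τ : ℝ}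
    (hτ : |τ - Real.log (SZ (WI N R) (Wc h R α₂ γ) (WA k R) g /
      SZ (WI N R) (Wc h R α₁ γ) (WA k R) g)| ≤ 1) :
    XN g h k R N α₁ α₂ γ γ ≤ 6 * (SZ (WI N R) (Wc h R α₁ γ) (WA k R) g *
      SZ (WI N R) (Wc h R α₂ γ) (WA k R) g) *
      SA2 (WI N R) (Wc h R (fun x => α₁ x + Real.exp (-τ) * α₂ x) γ) (WA k R) g (nmW R) := by
  have hcc : 0 < Real.exp (-τ) := Real.exp_pos _
  have hW : ∀ i, Wc h R (fun x => α₁ x + Real.exp (-τ) * α₂ x) γ i =
      Wc h R α₁ γ i + Real.exp (-τ) * Wc h R α₂ γ i := by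
    intro i
    unfold Wc
    ring
  have hadm : Adms (WI N R) (Wc h R (fun x => α₁ x + Real.exp (-τ) * α₂ x) γ) := by
    refine ⟨fun i hi => ?_, ?_⟩
    · rw [hW]
      exact add_nonneg (hc1.nn i hi) (mul_nonneg hcc.le (hc2.nn i hi))
    · obtain ⟨i, hi, h0⟩ := hc1.ex
      refine ⟨i, hi, ?_⟩
      rw [hW]
      exact add_pos_of_pos_of_nonneg h0 (mul_nonneg hcc.le (hc2.nn i hi))
  have hSZ : SZ (WI N R) (Wc h R (fun x => α₁ x + Real.exp (-τ) * α₂ x) γ) (WA k R) g =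
      SZ (WI N R) (Wc h R α₁ γ) (WA k R) g +
        Real.exp (-τ) * SZ (WI N R) (Wc h R α₂ γ) (WA k R) g := by
    unfold SZ
    rw [Finset.mul_sum, ← Finset.sum_add_distrib]
    refine Finset.sum_congr rfl fun i _ => ?_
    rw [hW]
    ring
  have h3 := SA2_nm (g := g) (k := k) hadm
  rw [hSZ] at h3
  refine CrossA_fin (SZ_pos hc1 _ _) (SZ_pos hc2 _ _)
    (SA2_nonneg hadm fun i _ j _ => ind_nonneg _) hτ h3 ?_
  unfold XN
  rw [Finset.mul_sum]
  refine Finset.sum_le_sum fun a _ => ?_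
  rw [Finset.mul_sum]
  refine Finset.sum_le_sum fun a' _ => ?_
  rw [Finset.mul_sum]
  refine Finset.sum_le_sum fun x _ => ?_
  rw [Finset.mul_sum]
  refine Finset.sum_le_sum fun x' _ => ?_
  have h5 : 0 ≤ NK g h k R a a' x x' * (γ x * γ x') :=
    mul_nonneg (NK_nonneg _ _ _ _ _ _ _ _) (mul_nonneg (hγ _) (hγ _))
  have h6 : Real.exp (-τ) * (α₁ a * α₂ a') ≤
      (α₁ a + Real.exp (-τ) * α₂ a) * (α₁ a' + Real.exp (-τ) * α₂ a') := by
    have e1 := mul_nonneg (h1 a) (h1 a')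
    have e2 := mul_nonneg hcc.le (mul_nonneg (h2 a) (h1 a'))
    have e3 := mul_nonneg (mul_nonneg hcc.le hcc.le) (mul_nonneg (h2 a) (h2 a'))
    nlinarith
  have h7 := mul_le_mul_of_nonneg_right h6 h5
  calc Real.exp (-τ) * (α₁ a * α₂ a' * NK g h k R a a' x x' * (γ x * γ x')) =
      Real.exp (-τ) * (α₁ a * α₂ a') * (NK g h k R a a' x x' * (γ x * γ x')) := by ring
    _ ≤ _ := h7
    _ = _ := by ring

/-- A mixture of two Gibbs measures. Proof. `c_i = c1_i + ε c2_i`: numerator and partition function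
are sums; `(A₁ F₁ + ε A₂ F₂)/(A₁ + ε A₂) ≤ F₁ + F₂` for `F₁, F₂ ≥ 0` the two averages. -/
lemma SA_mix {ι : Type*} {I : Finset ι} {c1 c2 c : ι → ℝ} {A : ι → Finset (ℕ × ℤ)} {g : Env}
    (hc1 : Adms I c1) (hc2 : Adms I c2) {ε : ℝ} (hε : 0 ≤ ε) (hcc : ∀ i, c i = c1 i + ε * c2 i)
    {F : ι → ℝ} (hF : ∀ i ∈ I, 0 ≤ F i) :
    SA I c A g F ≤ SA I c1 A g F + SA I c2 A g F := by
  have hZ1 := SZ_pos hc1 A g
  have hZ2 := SZ_pos hc2 A g
  have hZ : SZ I c A g = SZ I c1 A g + ε * SZ I c2 A g := by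
    unfold SZ
    rw [Finset.mul_sum, ← Finset.sum_add_distrib]
    refine Finset.sum_congr rfl fun i _ => ?_
    rw [hcc]
    ring
  have hN : ∑ i ∈ I, c i * Real.exp (gs g (A i)) * F i =
      ∑ i ∈ I, c1 i * Real.exp (gs g (A i)) * F i +
        ε * ∑ i ∈ I, c2 i * Real.exp (gs g (A i)) * F i := by
    rw [Finset.mul_sum, ← Finset.sum_add_distrib]
    refine Finset.sum_congr rfl fun i _ => ?_
    rw [hcc]
    ring
  have hN1 : 0 ≤ ∑ i ∈ I, c1 i * Real.exp (gs g (A i)) * F i :=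
    Finset.sum_nonneg fun i hi => mul_nonneg (mul_nonneg (hc1.nn i hi) (Real.exp_pos _).le) (hF i hi)
  have hN2 : 0 ≤ ∑ i ∈ I, c2 i * Real.exp (gs g (A i)) * F i :=
    Finset.sum_nonneg fun i hi => mul_nonneg (mul_nonneg (hc2.nn i hi) (Real.exp_pos _).le) (hF i hi)
  unfold SA
  rw [hZ, hN]
  generalize ∑ i ∈ I, c1 i * Real.exp (gs g (A i)) * F i = N1 at hN1 ⊢
  generalize ∑ i ∈ I, c2 i * Real.exp (gs g (A i)) * F i = N2 at hN2 ⊢
  generalize SZ I c1 A g = Z1 at hZ1 ⊢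
  generalize SZ I c2 A g = Z2 at hZ2 ⊢
  have hεZ : 0 ≤ ε * Z2 := mul_nonneg hε hZ2.le
  have hS : 0 < Z1 + ε * Z2 := by linarith
  rw [add_div]
  refine add_le_add ?_ ?_
  · exact div_le_div_of_nonneg_left hN1 hZ1 (by linarith)
  · rw [div_le_div_iff₀ hS hZ2]
    nlinarith [mul_nonneg hN2 hZ1.le]

end

end Pool.Agent.W_7d29a1_h47
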