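import Pool.Agent.W_7d29a1_h47q.CrossA
import Pool.Agent.W_7d29a1_h47.InsCB

/-!
# The polymer as a window system
-/

namespace Pool.Agent.W_7d29a1_h47

open MeasureTheory ProbabilityTheory Finset

noncomputable section

/-- Weight of the past. -/
def aP (g : Env) (h : ℝ) (k : ℕ) (x : ℤ) : ℝ := Kp g h 0 0 k x

/-- Weight of the past in the environment with an inserted row. -/
def aQ (g : Env) (ξ : ℤ → ℝ) (h : ℝ) (k : ℕ) (x : ℤ) : ℝ := Kp (ins k 1 g ξ) h 0 0 (k + 1) (x + 1)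

/-- Weight of the future. -/
def gP (g : Env) (h : ℝ) (n k : ℕ) (x : ℤ) : ℝ := Z g h k x (n - k)

/-- Weight of the future in the environment with an inserted row. -/
def gQ (g : Env) (ξ : ℤ → ℝ) (h : ℝ) (n k : ℕ) (x : ℤ) : ℝ := Z (ins k 1 g ξ) h k x (n - k + 1)

variable {g : Env} {ξ : ℤ → ℝ} {h : ℝ} {n k t R N : ℕ}

lemma aP_nonneg (x : ℤ) : 0 ≤ aP g h k x := Kp_nonneg _ _ _ _ _ _

lemma aQ_nonneg (x : ℤ) : 0 ≤ aQ g ξ h k x := Kp_nonneg _ _ _ _ _ _

lemma gP_pos (x : ℤ) : 0 < gP g h n k x := Z_pos _ _ _ _ _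

lemma gQ_pos (x : ℤ) : 0 < gQ g ξ h n k x := Z_pos _ _ _ _ _

/-- The inner sum. -/
lemma CrossB_inner (g : Env) (h : ℝ) (t : ℕ) (z : ℤ) (R m : ℕ) (F : (ℕ → Bool) → ℝ) :
    ∑ r ∈ T (R + m), wt g h t z (R + m) r * F (cut R r) =
      ∑ r ∈ T R, wt g h t z R r * Z g h (t + R) (z + pos r R) m * F r := by
  rw [sum_split]
  refine Finset.sum_congr rfl fun s hs => ?_
  unfold Z
  rw [Finset.mul_sum, Finset.sum_mul]
  refine Finset.sum_congr rfl fun r _ => ?_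
  rw [wt_glue, cut_glue hs]

/-- Decomposition of the polymer at the times `t`, `t + R`. Proof. `Z_mul_Av`; `n = t + (R + (n - t - R))`,
`sum_split` twice, `wt_glue`; for `s = glue t s₁ (glue R r s₃)`: `pos s t = pos s₁ t`,
`cut R (shf t s) = r` (`shf_glue`, `cut_glue`); the sum over `s₃` is `Z g h (t + R) … (n - t - R)`, the
sum over `s₁` is sorted by `z = pos s₁ t`, `|z| ≤ t` (`Kp_eq`, `Kp g h 0 0 t z = 0` for other `z`);
substitute `z = x + c`; `|z| ≤ t` implies `|x| ≤ N`. -/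
lemma win_gen (g : Env) (h : ℝ) (ht : t + R ≤ n) (c : ℤ) (hN : (t : ℤ) + |c| ≤ N)
    (F : ℤ → (ℕ → Bool) → ℝ) :
    Z g h 0 0 n * Av g h 0 0 n (fun s => F (pos s t - c) (cut R (shf t s))) =
      ∑ x ∈ box N, ∑ r ∈ T R, Kp g h 0 0 t (x + c) * wt g h t (x + c) R r *
        Z g h (t + R) (x + c + pos r R) (n - t - R) * F x r := by
  obtain ⟨m, rfl⟩ : ∃ m, n = t + (R + m) := ⟨n - t - R, by omega⟩
  have e1 : t + (R + m) - t - R = m := by omega
  have h1 := InsK_step g h 0 0 t (R + m) ((box N).map (addRightEmbedding c)) (fun s _ => by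
      rw [Finset.mem_map]
      refine ⟨0 + pos s t - c, ?_, by simp⟩
      rw [mem_box]
      have h2 := abs_le.1 (pos_abs_le s t)
      have h3 := abs_le.1 (le_refl |c|)
      rw [abs_le]
      constructor <;> omega) (fun z r => F (z - c) (cut R r))
  simp only [zero_add] at h1
  rw [Z_mul_Av, h1, e1, Finset.sum_map]
  refine Finset.sum_congr rfl fun x _ => ?_
  simp only [addRightEmbedding_apply, add_sub_cancel_right]
  rw [CrossB_inner, Finset.mul_sum]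
  refine Finset.sum_congr rfl fun r _ => ?_
  ring

lemma CrossB_SZ (α γ : ℤ → ℝ) (h : ℝ) (t R N : ℕ) (g : Env) (F : ℤ → (ℕ → Bool) → ℝ) :
    ∑ i ∈ WI N R, Wc h R α γ i * Real.exp (gs g (WA t R i)) * F i.1 i.2 =
      ∑ x ∈ box N, ∑ r ∈ T R, α x * wt g h t x R r * γ (x + pos r R) * F x r := by
  unfold WI
  rw [Finset.sum_product]
  refine Finset.sum_congr rfl fun x _ => Finset.sum_congr rfl fun r _ => ?_
  rw [Wc_mul]

/-- From numerators to averages. -/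
lemma CrossB_SA (α γ : ℤ → ℝ) (h : ℝ) (t R N : ℕ) (g g' : Env) (n' : ℕ)
    (G : (ℤ → (ℕ → Bool) → ℝ) → (ℕ → Bool) → ℝ) (hG : G (fun _ _ => 1) = fun _ => 1)
    (H : ∀ F : ℤ → (ℕ → Bool) → ℝ, ∑ x ∈ box N, ∑ r ∈ T R,
      α x * wt g h t x R r * γ (x + pos r R) * F x r =
        Z g' h 0 0 n' * Av g' h 0 0 n' (G F)) :
    SZ (WI N R) (Wc h R α γ) (WA t R) g = Z g' h 0 0 n' ∧
      ∀ F : ℤ → (ℕ → Bool) → ℝ, SA (WI N R) (Wc h R α γ) (WA t R) g (fun i => F i.1 i.2) =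
        Av g' h 0 0 n' (G F) := by
  have h1 : SZ (WI N R) (Wc h R α γ) (WA t R) g = Z g' h 0 0 n' := by
    have h2 := CrossB_SZ α γ h t R N g (fun _ _ => 1)
    rw [H, hG, Av_const, mul_one] at h2
    rw [← h2]
    unfold SZ
    exact Finset.sum_congr rfl fun i _ => (mul_one _).symm
  refine ⟨h1, fun F => ?_⟩
  unfold SA
  rw [h1, CrossB_SZ, H, mul_div_cancel_left₀ _ (Z_pos g' h 0 0 n').ne']

lemma CrossB_PP (ht : t + R ≤ n) (F : ℤ → (ℕ → Bool) → ℝ) :
    ∑ x ∈ box (n + 2), ∑ r ∈ T R,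
      aP g h t x * wt g h t x R r * gP g h n (t + R) (x + pos r R) * F x r =
        Z g h 0 0 n * Av g h 0 0 n (fun s => F (pos s t) (cut R (shf t s))) := by
  have h1 := win_gen g h ht 0 (N := n + 2) (by rw [abs_zero]; push_cast; omega) F
  simp only [add_zero, sub_zero] at h1
  rw [h1]
  have e1 : n - (t + R) = n - t - R := by omega
  unfold aP gP
  rw [e1]

lemma CrossB_PQ (ht : t + R ≤ n) (F : ℤ → (ℕ → Bool) → ℝ) :
    ∑ x ∈ box (n + 2), ∑ r ∈ T R,
      aP g h t x * wt g h t x R r * gQ g ξ h n (t + R) (x + pos r R) * F x r =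
        Z (ins (t + R) 1 g ξ) h 0 0 (n + 1) *
          Av (ins (t + R) 1 g ξ) h 0 0 (n + 1) (fun s => F (pos s t) (cut R (shf t s))) := by
  have h1 := win_gen (ins (t + R) 1 g ξ) h (n := n + 1) (t := t) (R := R) (by omega) 0
    (N := n + 2) (by rw [abs_zero]; push_cast; omega) F
  simp only [add_zero, sub_zero] at h1
  rw [h1]
  have e1 : n - (t + R) + 1 = n + 1 - t - R := by omega
  unfold aP gQ
  rw [e1]
  refine Finset.sum_congr rfl fun x _ => Finset.sum_congr rfl fun r _ => ?_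
  rw [Kp_ins_before 1 (by omega)]
  have h2 : wt (ins (t + R) 1 g ξ) h t x R r = wt g h t x R r :=
    dependsOn_wt h t x R r fun p hp => by
      have h3 : p.1 < t + R := hp.2
      simp [ins, h3]
  rw [h2]

lemma CrossB_QP (hk : k + R ≤ n) (F : ℤ → (ℕ → Bool) → ℝ) :
    ∑ x ∈ box (n + 2), ∑ r ∈ T R,
      aQ g ξ h k x * wt g h k x R r * gP g h n (k + R) (x + pos r R) * F x r =
        Z (ins k 1 g ξ) h 0 0 (n + 1) *
          Av (ins k 1 g ξ) h 0 0 (n + 1)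
            (fun s => F (pos s (k + 1) - 1) (cut R (shf (k + 1) s))) := by
  have h1 := win_gen (ins k 1 g ξ) h (n := n + 1) (t := k + 1) (R := R) (by omega) 1
    (N := n + 2) (by rw [abs_one]; push_cast; omega) F
  rw [h1]
  have e1 : n + 1 - (k + 1) - R = n - (k + R) := by omega
  unfold aQ gP
  refine Finset.sum_congr rfl fun x _ => Finset.sum_congr rfl fun r _ => ?_
  have h2 : wt (ins k 1 g ξ) h (k + 1) (x + 1) R r = wt g h k x R r := by
    unfold wt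
    rw [En_transl (fun i _ y => InsC_row 1 le_rfl i y)]
  have h3 : Z (ins k 1 g ξ) h (k + 1 + R) (x + 1 + pos r R) (n + 1 - (k + 1) - R) =
      Z g h (k + R) (x + pos r R) (n - (k + R)) := by
    have e2 : k + 1 + R = k + R + 1 := by omega
    have e3 : x + 1 + pos r R = x + pos r R + 1 := by ring
    rw [e1, e2, e3, Z_ins_after 1 (by omega)]
  rw [h2, h3]

/-- Proof. `SZ_win` and `win_gen` with `c = 0`, `F = 1` (`Av_const`); `n - (t + R) = n - t - R`. -/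
lemma SZ_PP (ht : t + R ≤ n) :
    SZ (WI (n + 2) R) (Wc h R (aP g h t) (gP g h n (t + R))) (WA t R) g = Z g h 0 0 n := by
  exact (CrossB_SA (aP g h t) (gP g h n (t + R)) h t R (n + 2) g g n
    (fun F s => F (pos s t) (cut R (shf t s))) rfl (fun F => CrossB_PP ht F)).1

/-- Proof. The numerator of `SA` by `Wc_mul` and `win_gen` with `c = 0`; `SZ_PP`. -/
lemma SA_PP (ht : t + R ≤ n) (F : ℤ → (ℕ → Bool) → ℝ) :
    SA (WI (n + 2) R) (Wc h R (aP g h t) (gP g h n (t + R))) (WA t R) g (fun i => F i.1 i.2) =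
      Av g h 0 0 n (fun s => F (pos s t) (cut R (shf t s))) := by
  exact (CrossB_SA (aP g h t) (gP g h n (t + R)) h t R (n + 2) g g n
    (fun F s => F (pos s t) (cut R (shf t s))) rfl (fun F => CrossB_PP ht F)).2 F

/-- Proof. `win_gen` for the environment `ins (t + R) 1 g ξ` and the length `n + 1`: the rows `< t + R` are
those of `g` (`Kp_ins_before`, `dependsOn_wt`), `n + 1 - t - R = n - (t + R) + 1`. -/
lemma SZ_PQ (ht : t + R ≤ n) :
    SZ (WI (n + 2) R) (Wc h R (aP g h t) (gQ g ξ h n (t + R))) (WA t R) g =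
      Z (ins (t + R) 1 g ξ) h 0 0 (n + 1) := by
  exact (CrossB_SA (aP g h t) (gQ g ξ h n (t + R)) h t R (n + 2) g (ins (t + R) 1 g ξ) (n + 1)
    (fun F s => F (pos s t) (cut R (shf t s))) rfl (fun F => CrossB_PQ ht F)).1

/-- Proof. As `SZ_PQ`. -/
lemma SA_PQ (ht : t + R ≤ n) (F : ℤ → (ℕ → Bool) → ℝ) :
    SA (WI (n + 2) R) (Wc h R (aP g h t) (gQ g ξ h n (t + R))) (WA t R) g (fun i => F i.1 i.2) =
      Av (ins (t + R) 1 g ξ) h 0 0 (n + 1) (fun s => F (pos s t) (cut R (shf t s))) := by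
  exact (CrossB_SA (aP g h t) (gQ g ξ h n (t + R)) h t R (n + 2) g (ins (t + R) 1 g ξ) (n + 1)
    (fun F s => F (pos s t) (cut R (shf t s))) rfl (fun F => CrossB_PQ ht F)).2 F

/-- Proof. `win_gen` for the environment `g' = ins k 1 g ξ`, the length `n + 1`, the time `k + 1` and
`c = 1`: `wt g' h (k + 1) (x + 1) R r = wt g h k x R r` (`InsC_row`; unfold `wt`, `En`),
`Z g' h (k + 1 + R) (x + 1 + pos r R) (n + 1 - (k + 1) - R) = gP g h n (k + R) (x + pos r R)`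
(`Z_ins_after`). -/
lemma SZ_QP (hk : k + R ≤ n) :
    SZ (WI (n + 2) R) (Wc h R (aQ g ξ h k) (gP g h n (k + R))) (WA k R) g =
      Z (ins k 1 g ξ) h 0 0 (n + 1) := by
  exact (CrossB_SA (aQ g ξ h k) (gP g h n (k + R)) h k R (n + 2) g (ins k 1 g ξ) (n + 1)
    (fun F s => F (pos s (k + 1) - 1) (cut R (shf (k + 1) s))) rfl (fun F => CrossB_QP hk F)).1

/-- Proof. As `SZ_QP`. -/
lemma SA_QP (hk : k + R ≤ n) (F : ℤ → (ℕ → Bool) → ℝ) :
    SA (WI (n + 2) R) (Wc h R (aQ g ξ h k) (gP g h n (k + R))) (WA k R) g (fun i => F i.1 i.2) =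
      Av (ins k 1 g ξ) h 0 0 (n + 1) (fun s => F (pos s (k + 1) - 1) (cut R (shf (k + 1) s))) := by
  exact (CrossB_SA (aQ g ξ h k) (gP g h n (k + R)) h k R (n + 2) g (ins k 1 g ξ) (n + 1)
    (fun F s => F (pos s (k + 1) - 1) (cut R (shf (k + 1) s))) rfl (fun F => CrossB_QP hk F)).2 F

lemma CrossB_down (i : ℕ) : pos (fun _ => false) i = -(i : ℤ) := by
  induction i with
  | zero => simp
  | succ i ih =>
    rw [pos_succ, ih, stp_false]
    push_cast
    ring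

lemma CrossB_adms {α γ : ℤ → ℝ} {x : ℤ} {N : ℕ} (h : ℝ) (R : ℕ) (hα : ∀ y, 0 ≤ α y)
    (hx : x ∈ box N) (hαx : 0 < α x) (hγ : ∀ x, 0 < γ x) : Adms (WI N R) (Wc h R α γ) := by
  refine ⟨fun i _ => ?_, (x, fun _ => false), ?_, ?_⟩
  · exact mul_nonneg (mul_nonneg (hα _) (Real.exp_pos _).le) (hγ _).le
  · exact Finset.mem_product.2 ⟨hx, mem_T.2 fun _ _ => rfl⟩
  · exact mul_pos (mul_pos hαx (Real.exp_pos _)) (hγ _)

/-- Proof. Nonnegativity is clear. The constant walk of down steps ends at `-t` at time `t`: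
`Kp g h 0 0 t (-t) > 0` (`Kp_pos_of_parity` or `Kp_pos`), and `-t ∈ box (n + 2)`; `γ > 0` everywhere. -/
lemma adms_P (ht : t ≤ n + 2) {γ : ℤ → ℝ} (hγ : ∀ x, 0 < γ x) :
    Adms (WI (n + 2) R) (Wc h R (aP g h t) γ) := by
  refine CrossB_adms h R (x := -(t : ℤ)) aP_nonneg ?_ ?_ hγ
  · rw [mem_box, abs_neg, abs_of_nonneg (by positivity)]
    exact_mod_cast ht
  · unfold aP
    exact Kp_pos (s := fun _ => false) (mem_T.2 fun _ _ => rfl) (by rw [CrossB_down, zero_add])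

/-- Proof. As `adms_P`: `x = -(k + 2)`, `x + 1 = -(k + 1)`. -/
lemma adms_Q (hk : k ≤ n) {γ : ℤ → ℝ} (hγ : ∀ x, 0 < γ x) :
    Adms (WI (n + 2) R) (Wc h R (aQ g ξ h k) γ) := by
  refine CrossB_adms h R (x := -(((k + 1 : ℕ) : ℤ)) - 1) aQ_nonneg ?_ ?_ hγ
  · rw [mem_box, abs_le]
    push_cast
    constructor <;> omega
  · unfold aQ
    exact Kp_pos (s := fun _ => false) (mem_T.2 fun _ _ => rfl) (by rw [CrossB_down]; ring)

/-- Parity. Proof. `exists_walk_of_Kp`, `pos_parity`. -/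
lemma aP_parity {x : ℤ} (hx : aP g h k x ≠ 0) : (x - k) % 2 = 0 := by
  obtain ⟨s, _, hs⟩ := exists_walk_of_Kp (lt_of_le_of_ne (Kp_nonneg g h 0 0 k x) (Ne.symm hx))
  have h1 := pos_parity s k
  omega

lemma aQ_parity {x : ℤ} (hx : aQ g ξ h k x ≠ 0) : (x - k) % 2 = 0 := by
  obtain ⟨s, _, hs⟩ := exists_walk_of_Kp
    (lt_of_le_of_ne (Kp_nonneg (ins k 1 g ξ) h 0 0 (k + 1) (x + 1)) (Ne.symm hx))
  have h1 := pos_parity s (k + 1)
  push_cast at h1
  omega

end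

end Pool.Agent.W_7d29a1_h47
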