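import Pool.Agent.W_7d29a1_h47.InsN

/-!
# Finite algebra: total variation by crossing pairs
-/

namespace Pool.Agent.W_7d29a1_h47.KA

open Finset

noncomputable section

variable {ι : Type*} (I : Finset ι) (α γ M : ι → ι → ℝ)

/-- The dependence of `α · x / ah x` on `x`. -/
def Ca (x x' : ι) : ℝ := ∑ a ∈ I, ∑ a' ∈ I, |α a x * α a' x' - α a x' * α a' x|

/-- The dependence of `γ x · / gh x` on `x`. -/
def Cg (x y : ι) : ℝ := ∑ b ∈ I, ∑ b' ∈ I, |γ x b * γ y b' - γ x b' * γ y b|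

variable {I α γ M}

lemma Ca_nonneg (x x' : ι) : 0 ≤ Ca I α x x' := sum_nonneg fun _ _ => sum_nonneg fun _ _ => abs_nonneg _

lemma Cg_nonneg (x y : ι) : 0 ≤ Cg I γ x y := sum_nonneg fun _ _ => sum_nonneg fun _ _ => abs_nonneg _

/-- Proof. `∑_{a'} α a' x' = ah x'` etc., triangle inequality for the inner sum. -/
lemma sum_abs_ah_le (x x' : ι) :
    ∑ a ∈ I, |α a x * ah I α x' - α a x' * ah I α x| ≤ Ca I α x x' := by
  unfold Ca
  refine Finset.sum_le_sum fun a _ => ?_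
  have h1 : α a x * ah I α x' - α a x' * ah I α x =
      ∑ a' ∈ I, (α a x * α a' x' - α a x' * α a' x) := by
    unfold ah
    rw [Finset.mul_sum, Finset.mul_sum, ← Finset.sum_sub_distrib]
  rw [h1]
  exact Finset.abs_sum_le_sum_abs _ _

/-- Proof. As `sum_abs_ah_le`. -/
lemma sum_abs_gh_le (x y : ι) :
    ∑ b ∈ I, |γ x b * gh I γ y - γ y b * gh I γ x| ≤ Cg I γ x y := by
  unfold Cg
  refine Finset.sum_le_sum fun b _ => ?_
  have h1 : γ x b * gh I γ y - γ y b * gh I γ x =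
      ∑ b' ∈ I, (γ x b * γ y b' - γ x b' * γ y b) := by
    unfold gh
    rw [Finset.mul_sum, Finset.mul_sum, ← Finset.sum_sub_distrib]
    exact Finset.sum_congr rfl fun b' _ => by ring
  rw [h1]
  exact Finset.abs_sum_le_sum_abs _ _

lemma TVx_comm3 (f : ι → ι → ι → ι → ℝ) :
    ∑ a ∈ I, ∑ x ∈ I, ∑ x' ∈ I, ∑ y ∈ I, f a x x' y =
      ∑ x ∈ I, ∑ x' ∈ I, ∑ y ∈ I, ∑ a ∈ I, f a x x' y := by
  rw [Finset.sum_comm]
  refine Finset.sum_congr rfl fun x _ => ?_
  rw [Finset.sum_comm]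
  refine Finset.sum_congr rfl fun x' _ => ?_
  rw [Finset.sum_comm]

lemma TVx_ab (m h k : ℝ) (g P al Q : ι → ℝ) :
    ∑ a ∈ I, ∑ b ∈ I, m * (g b * h * P a + al a * k * Q b) =
      m * ((∑ b ∈ I, g b) * h * (∑ a ∈ I, P a) + (∑ a ∈ I, al a) * k * ∑ b ∈ I, Q b) := by
  have h1 : ∀ a, ∑ b ∈ I, m * (g b * h * P a + al a * k * Q b) =
      m * ((∑ b ∈ I, g b) * h * P a + al a * k * ∑ b ∈ I, Q b) := by
    intro a
    rw [← Finset.mul_sum, Finset.sum_add_distrib, ← Finset.mul_sum, Finset.sum_mul, Finset.sum_mul]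
  rw [Finset.sum_congr rfl fun a _ => h1 a, ← Finset.mul_sum, Finset.sum_add_distrib,
    ← Finset.mul_sum, ← Finset.sum_mul, ← Finset.sum_mul]

lemma TVx_id (a b : ι) :
    Zm I α γ M * (∑ x ∈ I, α a x * γ x b) - Zg I α γ * (∑ x ∈ I, ∑ y ∈ I, α a x * M x y * γ y b) =
      ∑ x ∈ I, ∑ x' ∈ I, ∑ y ∈ I, M x' y *
        (γ x b * gh I γ y * (α a x * ah I α x' - α a x' * ah I α x) +
          α a x' * ah I α x * (γ x b * gh I γ y - γ y b * gh I γ x)) := by
  have h1 : Zm I α γ M * (∑ x ∈ I, α a x * γ x b) =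
      ∑ x ∈ I, ∑ x' ∈ I, ∑ y ∈ I, M x' y * (α a x * γ x b * (ah I α x' * gh I γ y)) := by
    rw [mul_comm, Finset.sum_mul]
    refine Finset.sum_congr rfl fun x _ => ?_
    unfold Zm
    rw [Finset.mul_sum]
    refine Finset.sum_congr rfl fun x' _ => ?_
    rw [Finset.mul_sum]
    refine Finset.sum_congr rfl fun y _ => ?_
    ring
  have h2 : Zg I α γ * (∑ x ∈ I, ∑ y ∈ I, α a x * M x y * γ y b) =
      ∑ x ∈ I, ∑ x' ∈ I, ∑ y ∈ I, M x' y * (α a x' * γ y b * (ah I α x * gh I γ x)) := by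
    unfold Zg
    rw [Finset.sum_mul]
    refine Finset.sum_congr rfl fun x _ => ?_
    rw [Finset.mul_sum]
    refine Finset.sum_congr rfl fun x' _ => ?_
    rw [Finset.mul_sum]
    refine Finset.sum_congr rfl fun y _ => ?_
    ring
  rw [h1, h2, ← Finset.sum_sub_distrib]
  refine Finset.sum_congr rfl fun x _ => ?_
  rw [← Finset.sum_sub_distrib]
  refine Finset.sum_congr rfl fun x' _ => ?_
  rw [← Finset.sum_sub_distrib]
  refine Finset.sum_congr rfl fun y _ => ?_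
  ring

lemma TVx_abs3 (f : ι → ι → ι → ℝ) :
    |∑ x ∈ I, ∑ x' ∈ I, ∑ y ∈ I, f x x' y| ≤ ∑ x ∈ I, ∑ x' ∈ I, ∑ y ∈ I, |f x x' y| :=
  (Finset.abs_sum_le_sum_abs _ _).trans (Finset.sum_le_sum fun _ _ =>
    (Finset.abs_sum_le_sum_abs _ _).trans (Finset.sum_le_sum fun _ _ =>
      Finset.abs_sum_le_sum_abs _ _))

/-- **Total variation by crossing pairs.** Proof.
`Zg Zm (mu a b - mu' a b) = (∑_x α a x γ x b) (∑_{x',y} ah x' M x' y gh y)
  - (∑_{x',y} α a x' M x' y γ y b) (∑_x ah x gh x)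
 = ∑_{x,x',y} M x' y (γ x b gh y (α a x ah x' - α a x' ah x) + α a x' ah x (γ x b gh y - γ y b gh x))`.
Take absolute values, sum over `a, b`: `∑_b γ x b gh y = gh x gh y`, `∑_a α a x' ah x = ah x' ah x`,
`sum_abs_ah_le`, `sum_abs_gh_le`. Then `∑_y M x' y gh y` and `∑_{x'} ah x' M x' y` are factored out. -/
theorem tv_cross (hα : ∀ a x, 0 ≤ α a x) (hγ : ∀ x b, 0 ≤ γ x b) (hM : ∀ x y, 0 ≤ M x y)
    (hZg : 0 < Zg I α γ) (hZm : 0 < Zm I α γ M) :
    Zg I α γ * Zm I α γ M * ∑ a ∈ I, ∑ b ∈ I, |mu I α γ a b - mu' I α γ M a b| ≤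
      ∑ x ∈ I, ∑ x' ∈ I, gh I γ x * (∑ y ∈ I, M x' y * gh I γ y) * Ca I α x x' +
      ∑ x ∈ I, ∑ y ∈ I, ah I α x * (∑ x' ∈ I, ah I α x' * M x' y) * Cg I γ x y := by
  have hah : ∀ x, 0 ≤ ah I α x := fun x => Finset.sum_nonneg fun a _ => hα a x
  have hgh : ∀ x, 0 ≤ gh I γ x := fun x => Finset.sum_nonneg fun b _ => hγ x b
  have h1 : ∀ a b, Zg I α γ * Zm I α γ M * |mu I α γ a b - mu' I α γ M a b| ≤
      ∑ x ∈ I, ∑ x' ∈ I, ∑ y ∈ I, M x' y *
        (γ x b * gh I γ y * |α a x * ah I α x' - α a x' * ah I α x| +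
          α a x' * ah I α x * |γ x b * gh I γ y - γ y b * gh I γ x|) := by
    intro a b
    have e1 : Zg I α γ * Zm I α γ M * |mu I α γ a b - mu' I α γ M a b| =
        |Zm I α γ M * (∑ x ∈ I, α a x * γ x b) -
          Zg I α γ * (∑ x ∈ I, ∑ y ∈ I, α a x * M x y * γ y b)| := by
      have e2 : Zm I α γ M * (∑ x ∈ I, α a x * γ x b) -
          Zg I α γ * (∑ x ∈ I, ∑ y ∈ I, α a x * M x y * γ y b) =
          Zg I α γ * Zm I α γ M * (mu I α γ a b - mu' I α γ M a b) := by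
        unfold mu mu'
        rw [mul_sub]
        have e3 : Zg I α γ * Zm I α γ M * ((∑ x ∈ I, α a x * γ x b) / Zg I α γ) =
            Zm I α γ M * (∑ x ∈ I, α a x * γ x b) := by
          rw [mul_comm (Zg I α γ), mul_assoc, mul_div_cancel₀ _ hZg.ne']
        have e4 : Zg I α γ * Zm I α γ M *
            ((∑ x ∈ I, ∑ y ∈ I, α a x * M x y * γ y b) / Zm I α γ M) =
            Zg I α γ * (∑ x ∈ I, ∑ y ∈ I, α a x * M x y * γ y b) := by
          rw [mul_assoc, mul_div_cancel₀ _ hZm.ne']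
        rw [e3, e4]
      rw [e2, abs_mul, abs_of_pos (mul_pos hZg hZm)]
    rw [e1, TVx_id]
    refine (TVx_abs3 _).trans ?_
    refine Finset.sum_le_sum fun x _ => Finset.sum_le_sum fun x' _ => Finset.sum_le_sum fun y _ => ?_
    rw [abs_mul, abs_of_nonneg (hM x' y)]
    refine mul_le_mul_of_nonneg_left ((abs_add_le _ _).trans (le_of_eq ?_)) (hM x' y)
    rw [abs_mul, abs_mul (α a x' * ah I α x), abs_of_nonneg (mul_nonneg (hγ x b) (hgh y)),
      abs_of_nonneg (mul_nonneg (hα a x') (hah x))]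
  calc Zg I α γ * Zm I α γ M * ∑ a ∈ I, ∑ b ∈ I, |mu I α γ a b - mu' I α γ M a b|
      = ∑ a ∈ I, ∑ b ∈ I, Zg I α γ * Zm I α γ M * |mu I α γ a b - mu' I α γ M a b| := by
        rw [Finset.mul_sum]
        exact Finset.sum_congr rfl fun a _ => by rw [Finset.mul_sum]
    _ ≤ ∑ a ∈ I, ∑ b ∈ I, ∑ x ∈ I, ∑ x' ∈ I, ∑ y ∈ I, M x' y *
        (γ x b * gh I γ y * |α a x * ah I α x' - α a x' * ah I α x| +
          α a x' * ah I α x * |γ x b * gh I γ y - γ y b * gh I γ x|) :=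
        Finset.sum_le_sum fun a _ => Finset.sum_le_sum fun b _ => h1 a b
    _ = ∑ x ∈ I, ∑ x' ∈ I, ∑ y ∈ I, ∑ a ∈ I, ∑ b ∈ I, M x' y *
        (γ x b * gh I γ y * |α a x * ah I α x' - α a x' * ah I α x| +
          α a x' * ah I α x * |γ x b * gh I γ y - γ y b * gh I γ x|) := by
        rw [Finset.sum_congr rfl fun a _ => TVx_comm3 (I := I) (fun b x x' y => M x' y *
          (γ x b * gh I γ y * |α a x * ah I α x' - α a x' * ah I α x| +
          α a x' * ah I α x * |γ x b * gh I γ y - γ y b * gh I γ x|))]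
        exact TVx_comm3 (I := I) (fun a x x' y => ∑ b ∈ I, M x' y *
          (γ x b * gh I γ y * |α a x * ah I α x' - α a x' * ah I α x| +
          α a x' * ah I α x * |γ x b * gh I γ y - γ y b * gh I γ x|))
    _ ≤ ∑ x ∈ I, ∑ x' ∈ I, ∑ y ∈ I, M x' y *
        (gh I γ x * gh I γ y * Ca I α x x' + ah I α x' * ah I α x * Cg I γ x y) := by
        refine Finset.sum_le_sum fun x _ => Finset.sum_le_sum fun x' _ =>
          Finset.sum_le_sum fun y _ => ?_
        rw [TVx_ab (M x' y) (gh I γ y) (ah I α x) (fun b => γ x b)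
          (fun a => |α a x * ah I α x' - α a x' * ah I α x|) (fun a => α a x')
          (fun b => |γ x b * gh I γ y - γ y b * gh I γ x|)]
        refine mul_le_mul_of_nonneg_left (add_le_add ?_ ?_) (hM x' y)
        · exact mul_le_mul_of_nonneg_left (sum_abs_ah_le x x') (mul_nonneg (hgh x) (hgh y))
        · exact mul_le_mul_of_nonneg_left (sum_abs_gh_le x y) (mul_nonneg (hah x') (hah x))
    _ = ∑ x ∈ I, ∑ x' ∈ I, gh I γ x * (∑ y ∈ I, M x' y * gh I γ y) * Ca I α x x' +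
      ∑ x ∈ I, ∑ y ∈ I, ah I α x * (∑ x' ∈ I, ah I α x' * M x' y) * Cg I γ x y := by
        rw [← Finset.sum_add_distrib]
        refine Finset.sum_congr rfl fun x _ => ?_
        have e1 : ∑ x' ∈ I, ∑ y ∈ I, M x' y *
            (gh I γ x * gh I γ y * Ca I α x x' + ah I α x' * ah I α x * Cg I γ x y) =
            ∑ x' ∈ I, ∑ y ∈ I, M x' y * (gh I γ x * gh I γ y * Ca I α x x') +
            ∑ x' ∈ I, ∑ y ∈ I, M x' y * (ah I α x' * ah I α x * Cg I γ x y) := by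
          rw [← Finset.sum_add_distrib]
          refine Finset.sum_congr rfl fun x' _ => ?_
          rw [← Finset.sum_add_distrib]
          exact Finset.sum_congr rfl fun y _ => by ring
        rw [e1]
        congr 1
        · refine Finset.sum_congr rfl fun x' _ => ?_
          rw [Finset.mul_sum, Finset.sum_mul]
          exact Finset.sum_congr rfl fun y _ => by ring
        · rw [Finset.sum_comm]
          refine Finset.sum_congr rfl fun y _ => ?_
          rw [Finset.mul_sum, Finset.sum_mul]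
          exact Finset.sum_congr rfl fun x' _ => by ring

end

end Pool.Agent.W_7d29a1_h47.KA
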