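import Pool.Agent.W_7d29a1_h47q.CrossB
import Pool.Agent.W_7d29a1_h47q.TVx
import Pool.Agent.W_7d29a1_h47.InsD

/-!
# The total variation distance is bounded by no-meeting probabilities
-/

namespace Pool.Agent.W_7d29a1_h47

open MeasureTheory ProbabilityTheory Finset

noncomputable section

variable {g : Env} {ξ : ℤ → ℝ} {h : ℝ} {n k R : ℕ}

/-- Past window: weights with parameter `τ`. -/
def gT (g : Env) (ξ : ℤ → ℝ) (h : ℝ) (n k : ℕ) (τ : ℝ) (x : ℤ) : ℝ :=
  gP g h n k x + Real.exp (-τ) * gQ g ξ h n k x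

/-- Future window: weights with parameter `τ`. -/
def aT (g : Env) (ξ : ℤ → ℝ) (h : ℝ) (k : ℕ) (τ : ℝ) (x : ℤ) : ℝ :=
  aP g h k x + Real.exp (-τ) * aQ g ξ h k x

/-- No-meeting probability in the past window. -/
def QP (g : Env) (ξ : ℤ → ℝ) (h : ℝ) (n k R : ℕ) (τ : ℝ) : ℝ :=
  SA2 (WI (n + 2) R) (Wc h R (aP g h (k - R)) (gT g ξ h n k τ)) (WA (k - R) R) g (nmW R)

/-- No-meeting probability in the future window. -/
def QF (g : Env) (ξ : ℤ → ℝ) (h : ℝ) (n k R : ℕ) (τ : ℝ) : ℝ :=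
  SA2 (WI (n + 2) R) (Wc h R (aT g ξ h k τ) (gP g h n (k + R))) (WA k R) g (nmW R)

lemma CrossC_comm4 {ι κ : Type*} (A : Finset ι) (B : Finset κ) (f : ι → ι → κ → κ → ℝ) :
    ∑ a ∈ A, ∑ a' ∈ A, ∑ x ∈ B, ∑ x' ∈ B, f a a' x x' =
      ∑ x ∈ B, ∑ x' ∈ B, ∑ a ∈ A, ∑ a' ∈ A, f a a' x x' := by
  have h1 : ∀ a ∈ A, ∑ a' ∈ A, ∑ x ∈ B, ∑ x' ∈ B, f a a' x x' =
      ∑ x ∈ B, ∑ x' ∈ B, ∑ a' ∈ A, f a a' x x' := by
    intro a _
    rw [Finset.sum_comm]
    refine Finset.sum_congr rfl fun x _ => ?_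
    rw [Finset.sum_comm]
  rw [Finset.sum_congr rfl h1, Finset.sum_comm]
  refine Finset.sum_congr rfl fun x _ => ?_
  rw [Finset.sum_comm]

lemma CrossC_sub {N R : ℕ} {z : ℤ} (hz : z ∈ box N) : z ∈ box (N + R) := by
  rw [mem_box] at hz ⊢
  have h1 : (0 : ℤ) ≤ (R : ℤ) := Int.natCast_nonneg R
  push_cast
  linarith

lemma CrossC_XN (g : Env) (h : ℝ) (t R N : ℕ) {α α' γ γ' : ℤ → ℝ} (h1 : ∀ x, 0 ≤ α x)
    (h2 : ∀ x, 0 ≤ α' x) (h3 : ∀ x, 0 ≤ γ x) (h4 : ∀ x, 0 ≤ γ' x) :
    ∑ a ∈ box N, ∑ a' ∈ box N, ∑ x ∈ box N, ∑ x' ∈ box N,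
      α a * α' a' * NK g h t R a a' x x' * (γ x * γ' x') ≤ XN g h t R N α α' γ γ' := by
  have h0 : ∀ a a' x x', 0 ≤ α a * α' a' * NK g h t R a a' x x' * (γ x * γ' x') :=
    fun a a' x x' => mul_nonneg (mul_nonneg (mul_nonneg (h1 _) (h2 _))
      (NK_nonneg _ _ _ _ _ _ _ _)) (mul_nonneg (h3 _) (h4 _))
  have hsub : box N ⊆ box (N + R) := fun z hz => CrossC_sub hz
  unfold XN
  refine Finset.sum_le_sum fun a _ => Finset.sum_le_sum fun a' _ => ?_
  calc ∑ x ∈ box N, ∑ x' ∈ box N, α a * α' a' * NK g h t R a a' x x' * (γ x * γ' x')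
      ≤ ∑ x ∈ box N, ∑ x' ∈ box (N + R),
          α a * α' a' * NK g h t R a a' x x' * (γ x * γ' x') :=
        Finset.sum_le_sum fun x _ => Finset.sum_le_sum_of_subset_of_nonneg hsub
          fun _ _ _ => h0 _ _ _ _
    _ ≤ ∑ x ∈ box (N + R), ∑ x' ∈ box (N + R),
          α a * α' a' * NK g h t R a a' x x' * (γ x * γ' x') :=
        Finset.sum_le_sum_of_subset_of_nonneg hsub
          fun _ _ _ => Finset.sum_nonneg fun _ _ => h0 _ _ _ _

lemma CrossC_abs {u v : ℝ} (hu : 0 ≤ u) (hv : 0 ≤ v) : |u - v| ≤ u + v := by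
  rw [abs_le]
  constructor <;> linarith

/-- The kernel `al` vanishes outside of the cone. -/
lemma CrossC_al (hR : R ≤ k) (hk : k + R ≤ n) {x : ℤ} (hx : ¬ |x| ≤ k) {a : ℤ}
    (ha : a ∈ box (n + 2)) : al g h k R a x = 0 := by
  have h1 := ah_al (g := g) (h := h) hR hk x
  have h2 : Kp g h 0 0 k x = 0 := by
    refine Kp_eq_zero fun hc => hx ?_
    rw [Finset.mem_Icc] at hc
    rw [abs_le]
    constructor <;> linarith [hc.1, hc.2]
  rw [h2] at h1
  unfold KA.ah at h1
  exact (Finset.sum_eq_zero_iff_of_nonneg fun b _ => al_nonneg b x).1 h1 a ha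

/-- **Past.** Proof. `al g h k R a x = K₀ a * Kp g h (k - R) a R x` with `K₀ = aP g h (k - R) ≥ 0`, so
`|al a x * al a' x' - al a x' * al a' x| = K₀ a K₀ a' |Kp(a→x) Kp(a'→x') - Kp(a→x') Kp(a'→x)|
≤ K₀ a K₀ a' (NK a a' x x' + NK a a' x' x)` (`Kp_cross`, `NK_nonneg`). If `|x| > k` or `|x'| > k` then
`KA.Ca = 0` (for `K₀ a ≠ 0` one has `|a| ≤ k - R`, so `Kp (a → x) = 0`: `Kp_eq_zero`); for `|x|, |x'| ≤ k`:
`KA.gh … x = gP g h n k x` (`gh_ga`) and `∑_y Mk x' y gh y = gQ g ξ h n k x'` (`sum_Mk_gh`). The sum with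
`NK a a' x' x` equals the one with `NK a a' x x'` (exchange `a ↔ a'`, `NK_symm`). Finally
`box (n + 2) ⊆ box (n + 2 + R)` and all terms of `XN` are nonnegative. -/
lemma past_le (hR : R ≤ k) (hk : k + R ≤ n) :
    ∑ x ∈ box (n + 2), ∑ x' ∈ box (n + 2), KA.gh (box (n + 2)) (ga g h n k R) x *
        (∑ y ∈ box (n + 2), Mk g ξ h k x' y * KA.gh (box (n + 2)) (ga g h n k R) y) *
        KA.Ca (box (n + 2)) (al g h k R) x x' ≤
      2 * XN g h (k - R) R (n + 2) (aP g h (k - R)) (aP g h (k - R)) (gP g h n k)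
        (gQ g ξ h n k) := by
  have hK : ∀ a, 0 ≤ aP g h (k - R) a := fun a => aP_nonneg a
  have hle : ∀ x ∈ box (n + 2), ∀ x' ∈ box (n + 2),
      KA.gh (box (n + 2)) (ga g h n k R) x *
        (∑ y ∈ box (n + 2), Mk g ξ h k x' y * KA.gh (box (n + 2)) (ga g h n k R) y) *
        KA.Ca (box (n + 2)) (al g h k R) x x' ≤
      ∑ a ∈ box (n + 2), ∑ a' ∈ box (n + 2),
        (aP g h (k - R) a * aP g h (k - R) a' * NK g h (k - R) R a a' x x' *
            (gP g h n k x * gQ g ξ h n k x') +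
          aP g h (k - R) a * aP g h (k - R) a' * NK g h (k - R) R a a' x' x *
            (gP g h n k x * gQ g ξ h n k x')) := by
    intro x _ x' _
    have hnn : 0 ≤ ∑ a ∈ box (n + 2), ∑ a' ∈ box (n + 2),
        (aP g h (k - R) a * aP g h (k - R) a' * NK g h (k - R) R a a' x x' *
            (gP g h n k x * gQ g ξ h n k x') +
          aP g h (k - R) a * aP g h (k - R) a' * NK g h (k - R) R a a' x' x *
            (gP g h n k x * gQ g ξ h n k x')) :=
      Finset.sum_nonneg fun a _ => Finset.sum_nonneg fun a' _ => add_nonneg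
        (mul_nonneg (mul_nonneg (mul_nonneg (hK _) (hK _)) (NK_nonneg _ _ _ _ _ _ _ _))
          (mul_nonneg (gP_pos _).le (gQ_pos _).le))
        (mul_nonneg (mul_nonneg (mul_nonneg (hK _) (hK _)) (NK_nonneg _ _ _ _ _ _ _ _))
          (mul_nonneg (gP_pos _).le (gQ_pos _).le))
    by_cases hx : |x| ≤ k
    · by_cases hx' : |x'| ≤ k
      · have e1 : KA.gh (box (n + 2)) (ga g h n k R) x = gP g h n k x := by
          refine gh_ga hk ?_
          omega
        have e2 : ∑ y ∈ box (n + 2), Mk g ξ h k x' y * KA.gh (box (n + 2)) (ga g h n k R) y =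
            gQ g ξ h n k x' := sum_Mk_gh hR hk hx'
        rw [e1, e2]
        unfold KA.Ca
        rw [Finset.mul_sum]
        refine Finset.sum_le_sum fun a _ => ?_
        rw [Finset.mul_sum]
        refine Finset.sum_le_sum fun a' _ => ?_
        have e3 : al g h k R a x * al g h k R a' x' - al g h k R a x' * al g h k R a' x =
            aP g h (k - R) a * aP g h (k - R) a' *
              (NK g h (k - R) R a a' x x' - NK g h (k - R) R a a' x' x) := by
          rw [← Kp_cross]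
          unfold al aP
          ring
        rw [e3, abs_mul, abs_of_nonneg (mul_nonneg (hK a) (hK a'))]
        have e4 := CrossC_abs (NK_nonneg g h (k - R) R a a' x x')
          (NK_nonneg g h (k - R) R a a' x' x)
        have e5 := mul_le_mul_of_nonneg_left e4 (mul_nonneg (mul_nonneg
          (gP_pos (g := g) (h := h) (n := n) (k := k) x).le
          (gQ_pos (g := g) (ξ := ξ) (h := h) (n := n) (k := k) x').le) (mul_nonneg (hK a) (hK a')))
        refine le_trans (le_of_eq ?_) (e5.trans (le_of_eq ?_)) <;> ring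
      · have e1 : KA.Ca (box (n + 2)) (al g h k R) x x' = 0 := by
          unfold KA.Ca
          refine Finset.sum_eq_zero fun a ha => Finset.sum_eq_zero fun a' ha' => ?_
          rw [CrossC_al hR hk hx' ha, CrossC_al hR hk hx' ha']
          simp
        rw [e1, mul_zero]
        exact hnn
    · have e1 : KA.Ca (box (n + 2)) (al g h k R) x x' = 0 := by
        unfold KA.Ca
        refine Finset.sum_eq_zero fun a ha => Finset.sum_eq_zero fun a' ha' => ?_
        rw [CrossC_al hR hk hx ha, CrossC_al hR hk hx ha']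
        simp
      rw [e1, mul_zero]
      exact hnn
  refine (Finset.sum_le_sum fun x hx => Finset.sum_le_sum fun x' hx' => hle x hx x' hx').trans ?_
  rw [← CrossC_comm4 (box (n + 2)) (box (n + 2)) (fun a a' x x' =>
    (aP g h (k - R) a * aP g h (k - R) a' * NK g h (k - R) R a a' x x' *
            (gP g h n k x * gQ g ξ h n k x') +
          aP g h (k - R) a * aP g h (k - R) a' * NK g h (k - R) R a a' x' x *
            (gP g h n k x * gQ g ξ h n k x')))]
  simp only [Finset.sum_add_distrib]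
  have hsymm : ∑ a ∈ box (n + 2), ∑ a' ∈ box (n + 2), ∑ x ∈ box (n + 2), ∑ x' ∈ box (n + 2),
      aP g h (k - R) a * aP g h (k - R) a' * NK g h (k - R) R a a' x' x *
            (gP g h n k x * gQ g ξ h n k x') =
      ∑ a ∈ box (n + 2), ∑ a' ∈ box (n + 2), ∑ x ∈ box (n + 2), ∑ x' ∈ box (n + 2),
      aP g h (k - R) a * aP g h (k - R) a' * NK g h (k - R) R a a' x x' *
            (gP g h n k x * gQ g ξ h n k x') := by
    rw [Finset.sum_comm]
    refine Finset.sum_congr rfl fun a _ => Finset.sum_congr rfl fun a' _ =>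
      Finset.sum_congr rfl fun x _ => Finset.sum_congr rfl fun x' _ => ?_
    rw [NK_symm g h (k - R) R a' a x' x]
    ring
  have hX := CrossC_XN g h (k - R) R (n + 2) (α := aP g h (k - R)) (α' := aP g h (k - R))
    (γ := gP g h n k) (γ' := gQ g ξ h n k) hK hK (fun x => (gP_pos x).le) (fun x => (gQ_pos x).le)
  rw [hsymm]
  linarith

/-- **Future.** Proof. `ga g h n k R x b = Kp g h k x R b * gP g h n (k + R) b`
(`n - k - R = n - (k + R)`), `KA.ah … x = aP g h k x` (`ah_al`), `∑_{x'} ah x' Mk x' y = aQ g ξ h k y`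
(`InsCB_left`), `Kp_cross` for `Kp(x→b) Kp(y→b') - Kp(x→b') Kp(y→b)`; the sum with `NK x y b' b` equals
the one with `NK x y b b'` (exchange `b ↔ b'`). `box (n + 2) ⊆ box (n + 2 + R)`. -/
lemma fut_le (hR : R ≤ k) (hk : k + R ≤ n) :
    ∑ x ∈ box (n + 2), ∑ y ∈ box (n + 2), KA.ah (box (n + 2)) (al g h k R) x *
        (∑ x' ∈ box (n + 2), KA.ah (box (n + 2)) (al g h k R) x' * Mk g ξ h k x' y) *
        KA.Cg (box (n + 2)) (ga g h n k R) x y ≤
      2 * XN g h k R (n + 2) (aP g h k) (aQ g ξ h k) (gP g h n (k + R)) (gP g h n (k + R)) := by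
  have hA : ∀ x, 0 ≤ aP g h k x := fun a => aP_nonneg a
  have hB : ∀ x, 0 ≤ aQ g ξ h k x := fun a => aQ_nonneg a
  have hG : ∀ x, 0 ≤ gP g h n (k + R) x := fun x => (gP_pos x).le
  have hle : ∀ x ∈ box (n + 2), ∀ y ∈ box (n + 2),
      KA.ah (box (n + 2)) (al g h k R) x *
        (∑ x' ∈ box (n + 2), KA.ah (box (n + 2)) (al g h k R) x' * Mk g ξ h k x' y) *
        KA.Cg (box (n + 2)) (ga g h n k R) x y ≤
      ∑ b ∈ box (n + 2), ∑ b' ∈ box (n + 2),
        (aP g h k x * aQ g ξ h k y * NK g h k R x y b b' *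
            (gP g h n (k + R) b * gP g h n (k + R) b') +
          aP g h k x * aQ g ξ h k y * NK g h k R x y b' b *
            (gP g h n (k + R) b * gP g h n (k + R) b')) := by
    intro x _ y _
    have e1 : KA.ah (box (n + 2)) (al g h k R) x = aP g h k x := ah_al hR hk x
    have e2 : ∑ x' ∈ box (n + 2), KA.ah (box (n + 2)) (al g h k R) x' * Mk g ξ h k x' y =
        aQ g ξ h k y := InsCB_left hR hk y
    rw [e1, e2]
    unfold KA.Cg
    rw [Finset.mul_sum]
    refine Finset.sum_le_sum fun b _ => ?_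
    rw [Finset.mul_sum]
    refine Finset.sum_le_sum fun b' _ => ?_
    have e3 : ga g h n k R x b * ga g h n k R y b' - ga g h n k R x b' * ga g h n k R y b =
        gP g h n (k + R) b * gP g h n (k + R) b' *
          (NK g h k R x y b b' - NK g h k R x y b' b) := by
      rw [← Kp_cross]
      unfold ga gP
      rw [Nat.sub_sub]
      ring
    rw [e3, abs_mul, abs_of_nonneg (mul_nonneg (hG b) (hG b'))]
    have e4 := CrossC_abs (NK_nonneg g h k R x y b b') (NK_nonneg g h k R x y b' b)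
    have e5 := mul_le_mul_of_nonneg_left e4 (mul_nonneg (mul_nonneg (hA x) (hB y))
      (mul_nonneg (hG b) (hG b')))
    refine le_trans (le_of_eq ?_) (e5.trans (le_of_eq ?_)) <;> ring
  refine (Finset.sum_le_sum fun x hx => Finset.sum_le_sum fun y hy => hle x hx y hy).trans ?_
  simp only [Finset.sum_add_distrib]
  have hsymm : ∑ x ∈ box (n + 2), ∑ y ∈ box (n + 2), ∑ b ∈ box (n + 2), ∑ b' ∈ box (n + 2),
      aP g h k x * aQ g ξ h k y * NK g h k R x y b' b *
            (gP g h n (k + R) b * gP g h n (k + R) b') =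
      ∑ x ∈ box (n + 2), ∑ y ∈ box (n + 2), ∑ b ∈ box (n + 2), ∑ b' ∈ box (n + 2),
      aP g h k x * aQ g ξ h k y * NK g h k R x y b b' *
            (gP g h n (k + R) b * gP g h n (k + R) b') := by
    refine Finset.sum_congr rfl fun x _ => Finset.sum_congr rfl fun y _ => ?_
    rw [Finset.sum_comm]
    refine Finset.sum_congr rfl fun b _ => Finset.sum_congr rfl fun b' _ => ?_
    ring
  have hX := CrossC_XN g h k R (n + 2) (α := aP g h k) (α' := aQ g ξ h k)
    (γ := gP g h n (k + R)) (γ' := gP g h n (k + R)) hA hB hG hG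
  rw [hsymm]
  linarith

end

end Pool.Agent.W_7d29a1_h47
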