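import Pool.Agent.W_7d29a1_h47q.CrossC

/-!
# The Kullback–Leibler distance is bounded by no-meeting probabilities
-/

namespace Pool.Agent.W_7d29a1_h47

open MeasureTheory ProbabilityTheory Finset

noncomputable section

variable {g : Env} {ξ : ℤ → ℝ} {h : ℝ} {n k R : ℕ}

lemma CrossD_gT_pos (τ : ℝ) (x : ℤ) : 0 < gT g ξ h n k τ x :=
  add_pos (gP_pos x) (mul_pos (Real.exp_pos _) (gQ_pos x))

lemma CrossD_nmW_nonneg (R : ℕ) (i j : ℤ × (ℕ → Bool)) : 0 ≤ nmW R i j := ind_nonneg _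

lemma CrossD_QP_nonneg (hR : R ≤ k) (hk : k + R ≤ n) (τ : ℝ) : 0 ≤ QP g ξ h n k R τ := by
  unfold QP
  exact SA2_nonneg (adms_P (by omega) fun x => CrossD_gT_pos τ x) fun i _ j _ =>
    CrossD_nmW_nonneg R i j

lemma CrossD_adms (hR : R ≤ k) (hk : k + R ≤ n) (τ : ℝ) :
    Adms (WI (n + 2) R) (Wc h R (aT g ξ h k τ) (gP g h n (k + R))) := by
  have h1 : Adms (WI (n + 2) R) (Wc h R (aP g h k) (gP g h n (k + R))) :=
    adms_P (by omega) fun x => gP_pos x
  have h2 : ∀ x, aP g h k x ≤ aT g ξ h k τ x := fun x =>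
    le_add_of_nonneg_right (mul_nonneg (Real.exp_pos _).le (aQ_nonneg x))
  have h3 : ∀ i, Wc h R (aP g h k) (gP g h n (k + R)) i ≤
      Wc h R (aT g ξ h k τ) (gP g h n (k + R)) i := fun i => by
    unfold Wc
    exact mul_le_mul_of_nonneg_right (mul_le_mul_of_nonneg_right (h2 _) (Real.exp_pos _).le)
      (gP_pos _).le
  refine ⟨fun i hi => (h1.nn i hi).trans (h3 i), ?_⟩
  obtain ⟨i, hi, hp⟩ := h1.ex
  exact ⟨i, hi, lt_of_lt_of_le hp (h3 i)⟩

lemma CrossD_QF_nonneg (hR : R ≤ k) (hk : k + R ≤ n) (τ : ℝ) : 0 ≤ QF g ξ h n k R τ := by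
  unfold QF
  exact SA2_nonneg (CrossD_adms hR hk τ) fun i _ j _ => CrossD_nmW_nonneg R i j

lemma CrossD_past (hR : R ≤ k) (hk : k + R ≤ n) {τ : ℝ} (hτ : |τ - lrho h n k true g ξ| ≤ 1) :
    XN g h (k - R) R (n + 2) (aP g h (k - R)) (aP g h (k - R)) (gP g h n k) (gQ g ξ h n k) ≤
      6 * (Z g h 0 0 n * Z (ins k 1 g ξ) h 0 0 (n + 1)) * QP g ξ h n k R τ := by
  have hkR : k - R + R = k := by omega
  have e1 : SZ (WI (n + 2) R) (Wc h R (aP g h (k - R)) (gP g h n k)) (WA (k - R) R) g =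
      Z g h 0 0 n := by
    have := SZ_PP (g := g) (h := h) (n := n) (t := k - R) (R := R) (by omega)
    rwa [hkR] at this
  have e2 : SZ (WI (n + 2) R) (Wc h R (aP g h (k - R)) (gQ g ξ h n k)) (WA (k - R) R) g =
      Z (ins k 1 g ξ) h 0 0 (n + 1) := by
    have := SZ_PQ (g := g) (ξ := ξ) (h := h) (n := n) (t := k - R) (R := R) (by omega)
    rwa [hkR] at this
  have hlog : Real.log (Z (ins k 1 g ξ) h 0 0 (n + 1) / Z g h 0 0 n) = lrho h n k true g ξ := by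
    rw [← InsD_log g ξ h hR hk, Zm_eq hR hk, Zg_eq hR hk]
  have h1 := xn_past (g := g) (h := h) (k := k - R) (R := R) (N := n + 2)
    (α := aP g h (k - R)) (γ₁ := gP g h n k) (γ₂ := gQ g ξ h n k) (fun x => aP_nonneg x)
    (fun x => (gP_pos x).le) (fun x => (gQ_pos x).le)
    (adms_P (by omega) fun x => gP_pos x) (adms_P (by omega) fun x => gQ_pos x) (τ := τ)
    (by rw [e1, e2, hlog]; exact hτ)
  rw [e1, e2] at h1
  exact h1

lemma CrossD_fut (hR : R ≤ k) (hk : k + R ≤ n) {τ : ℝ} (hτ : |τ - lrho h n k true g ξ| ≤ 1) :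
    XN g h k R (n + 2) (aP g h k) (aQ g ξ h k) (gP g h n (k + R)) (gP g h n (k + R)) ≤
      6 * (Z g h 0 0 n * Z (ins k 1 g ξ) h 0 0 (n + 1)) * QF g ξ h n k R τ := by
  have e1 : SZ (WI (n + 2) R) (Wc h R (aP g h k) (gP g h n (k + R))) (WA k R) g =
      Z g h 0 0 n := SZ_PP (g := g) (h := h) (n := n) (t := k) (R := R) (by omega)
  have e2 : SZ (WI (n + 2) R) (Wc h R (aQ g ξ h k) (gP g h n (k + R))) (WA k R) g =
      Z (ins k 1 g ξ) h 0 0 (n + 1) := SZ_QP (g := g) (ξ := ξ) (h := h) (n := n) (k := k) hk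
  have hlog : Real.log (Z (ins k 1 g ξ) h 0 0 (n + 1) / Z g h 0 0 n) = lrho h n k true g ξ := by
    rw [← InsD_log g ξ h hR hk, Zm_eq hR hk, Zg_eq hR hk]
  have h1 := xn_fut (g := g) (h := h) (k := k) (R := R) (N := n + 2)
    (α₁ := aP g h k) (α₂ := aQ g ξ h k) (γ := gP g h n (k + R)) (fun x => aP_nonneg x)
    (fun x => aQ_nonneg x) (fun x => (gP_pos x).le)
    (adms_P (by omega) fun x => gP_pos x) (adms_Q (by omega) fun x => gP_pos x) (τ := τ)
    (by rw [e1, e2, hlog]; exact hτ)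
  rw [e1, e2] at h1
  exact h1

/-- **Total variation distance.** Proof. `KA.tv_cross` with `Zg = Z g h 0 0 n` (`Zg_eq`) and
`Zm = Z (ins k 1 g ξ) h 0 0 (n + 1)` (`Zm_eq`), `past_le`, `fut_le`; `xn_past` (starting time `k - R`,
`k - R + R = k`; `SZ_PP`, `SZ_PQ` with `t = k - R`) and `xn_fut` (`SZ_PP`, `SZ_QP`), where
`log (SZ₂ / SZ₁) = log (Zm / Zg) = lrho h n k true g ξ` (`InsD_log`). So
`Zg Zm TV ≤ 2 * 6 Zg Zm QP + 2 * 6 Zg Zm QF`. -/
theorem tv_tau (hR : R ≤ k) (hk : k + R ≤ n) {τ : ℝ} (hτ : |τ - lrho h n k true g ξ| ≤ 1) :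
    ∑ a ∈ box (n + 2), ∑ b ∈ box (n + 2), |KA.mu (box (n + 2)) (al g h k R) (ga g h n k R) a b -
        KA.mu' (box (n + 2)) (al g h k R) (ga g h n k R) (Mk g ξ h k) a b| ≤
      12 * (QP g ξ h n k R τ + QF g ξ h n k R τ) := by
  have hZg : 0 < Z g h 0 0 n := Z_pos _ _ _ _ _
  have hZm : 0 < Z (ins k 1 g ξ) h 0 0 (n + 1) := Z_pos _ _ _ _ _
  have h1 := KA.tv_cross (I := box (n + 2)) (α := al g h k R) (γ := ga g h n k R)
    (M := Mk g ξ h k) (fun a x => al_nonneg a x) (fun x b => ga_nonneg x b)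
    (fun x y => Mk_nonneg x y) (by rw [Zg_eq hR hk]; exact hZg) (by rw [Zm_eq hR hk]; exact hZm)
  have h2 := past_le (g := g) (ξ := ξ) (h := h) hR hk
  have h3 := fut_le (g := g) (ξ := ξ) (h := h) hR hk
  have h4 := CrossD_past (g := g) (ξ := ξ) (h := h) hR hk hτ
  have h5 := CrossD_fut (g := g) (ξ := ξ) (h := h) hR hk hτ
  rw [Zg_eq hR hk, Zm_eq hR hk] at h1
  have hZ : 0 < Z g h 0 0 n * Z (ins k 1 g ξ) h 0 0 (n + 1) := mul_pos hZg hZm
  refine le_of_mul_le_mul_left ?_ hZ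
  refine h1.trans ((add_le_add h2 h3).trans ?_)
  linarith

/-- Trivial bound. Proof. `mu`, `mu'` are nonnegative and sum to `1` (`KA.sum_mu`, the definition of
`Zm`; positivity as in `InsD.lean`). -/
lemma tv_two (hR : R ≤ k) (hk : k + R ≤ n) :
    ∑ a ∈ box (n + 2), ∑ b ∈ box (n + 2), |KA.mu (box (n + 2)) (al g h k R) (ga g h n k R) a b -
        KA.mu' (box (n + 2)) (al g h k R) (ga g h n k R) (Mk g ξ h k) a b| ≤ 2 := by
  have hZg : 0 < KA.Zg (box (n + 2)) (al g h k R) (ga g h n k R) := by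
    rw [Zg_eq hR hk]; exact Z_pos _ _ _ _ _
  have hZm : 0 < KA.Zm (box (n + 2)) (al g h k R) (ga g h n k R) (Mk g ξ h k) := by
    rw [Zm_eq hR hk]; exact Z_pos _ _ _ _ _
  have h1 := KA.sum_mu hZg
  have h2 := KA.sum_mu' hZm
  have hmu0 : ∀ a b, 0 ≤ KA.mu (box (n + 2)) (al g h k R) (ga g h n k R) a b := fun a b =>
    div_nonneg (Finset.sum_nonneg fun x _ => mul_nonneg (al_nonneg a x) (ga_nonneg x b)) hZg.le
  have hmu'0 : ∀ a b, 0 ≤ KA.mu' (box (n + 2)) (al g h k R) (ga g h n k R) (Mk g ξ h k) a b :=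
    fun a b => div_nonneg (Finset.sum_nonneg fun x _ => Finset.sum_nonneg fun y _ =>
      mul_nonneg (mul_nonneg (al_nonneg a x) (Mk_nonneg x y)) (ga_nonneg y b)) hZm.le
  calc ∑ a ∈ box (n + 2), ∑ b ∈ box (n + 2),
        |KA.mu (box (n + 2)) (al g h k R) (ga g h n k R) a b -
        KA.mu' (box (n + 2)) (al g h k R) (ga g h n k R) (Mk g ξ h k) a b|
      ≤ ∑ a ∈ box (n + 2), ∑ b ∈ box (n + 2),
        (KA.mu (box (n + 2)) (al g h k R) (ga g h n k R) a b +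
        KA.mu' (box (n + 2)) (al g h k R) (ga g h n k R) (Mk g ξ h k) a b) :=
        Finset.sum_le_sum fun a _ => Finset.sum_le_sum fun b _ =>
          CrossC_abs (hmu0 a b) (hmu'0 a b)
    _ = 2 := by
        simp only [Finset.sum_add_distrib]
        rw [h1, h2]
        norm_num

/-- **The Kullback–Leibler distance, quenched.** Proof. `KA.kl_abs` exactly as in `KLf_le` (`InsD.lean`),
with `B = 12 ∑_{|τ| ≤ Yn} (QP τ + QF τ) + 2 ind (lrho < -Y)`. The hypothesis `hB`: let `lrho ≤ Y`; if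
`lrho < -Y` use `tv_two`; otherwise `τ = ⌊lrho⌋` satisfies `|τ - lrho| ≤ 1`, `|τ| ≤ Y + 1 ≤ Yn`, and
`tv_tau`, all terms of the sum being nonnegative (`SA2_nonneg`, `adms_P`, `adms_Q`; the weights `gT`, `aT`
are sums). -/
theorem KLf_cross (g : Env) (ξ : ℤ → ℝ) (h : ℝ) {n k R : ℕ} (hR : R ≤ k) (hk : k + R ≤ n)
    {M₀ Y : ℝ} (hM₀ : 0 ≤ M₀) (hY : 1 ≤ Y) {Yn : ℕ} (hYn : Y + 1 ≤ Yn) :
    KLf h n k R g ξ ≤ (1 + (|h| + M₀) + Y) *
        (12 * ∑ τ ∈ Icc (-(Yn : ℤ)) Yn, (QP g ξ h n k R τ + QF g ξ h n k R τ) +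
          2 * ind (lrho h n k true g ξ < -Y)) +
      (3 + (|h| + M₀)) * (if Y ≤ Xf h n k true g ξ then Xf h n k true g ξ else 0) +
      Av g h 0 0 n (fun s => max (|ξ (pos s k + 1)| - M₀) 0) := by
  have hZ : 0 < KA.Zg (box (n + 2)) (al g h k R) (ga g h n k R) := by
    rw [Zg_eq hR hk]
    exact Z_pos _ _ _ _ _
  have hMd : ∀ x, 0 < Mk g ξ h k x x := fun x => by
    rw [Mk_diag]
    exact Real.exp_pos _
  have hℓ : ∀ x, |Real.log (Mk g ξ h k x x)| ≤ |h| + |ξ (x + 1)| := fun x => by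
    rw [Mk_diag, Real.log_exp, add_comm |h|]
    exact abs_add_le _ _
  have hsum : ∀ τ ∈ Icc (-(Yn : ℤ)) Yn, 0 ≤ QP g ξ h n k R τ + QF g ξ h n k R τ := fun τ _ =>
    add_nonneg (CrossD_QP_nonneg hR hk _) (CrossD_QF_nonneg hR hk _)
  have hsum0 : 0 ≤ ∑ τ ∈ Icc (-(Yn : ℤ)) Yn, (QP g ξ h n k R τ + QF g ξ h n k R τ) :=
    Finset.sum_nonneg hsum
  have hind := ind_nonneg (lrho h n k true g ξ < -Y)
  have h1 := KA.kl_abs (I := box (n + 2)) (α := al g h k R) (γ := ga g h n k R) (M := Mk g ξ h k)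
    (fun a x => al_nonneg a x) (fun x b => ga_nonneg x b) (fun x y => Mk_nonneg x y) hMd hZ
    (ℓ := fun x => |h| + |ξ (x + 1)|) hℓ (L0 := |h| + M₀) (X := Xf h n k true g ξ) (Y := Y)
    (B := 12 * ∑ τ ∈ Icc (-(Yn : ℤ)) Yn, (QP g ξ h n k R τ + QF g ξ h n k R τ) +
          2 * ind (lrho h n k true g ξ < -Y)) (add_nonneg (abs_nonneg h) hM₀)
    (Xf_nonneg g ξ h (by omega) true)
    (by
      rw [InsD_log g ξ h hR hk]
      exact lrho_le_Xf g ξ h n k true)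
    hY (by linarith)
    (fun hl => by
      rw [InsD_log g ξ h hR hk] at hl
      by_cases hlo : lrho h n k true g ξ < -Y
      · rw [ind_true hlo]
        have := tv_two (g := g) (ξ := ξ) (h := h) hR hk
        linarith
      · rw [ind_false hlo]
        have hlo' : -Y ≤ lrho h n k true g ξ := not_lt.1 hlo
        have f1 := Int.floor_le (lrho h n k true g ξ)
        have f2 := Int.lt_floor_add_one (lrho h n k true g ξ)
        have hmem : ⌊lrho h n k true g ξ⌋ ∈ Icc (-(Yn : ℤ)) Yn := by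
          rw [Finset.mem_Icc]
          constructor
          · have : (-(Yn : ℤ) : ℝ) < (⌊lrho h n k true g ξ⌋ : ℝ) + 1 := by
              push_cast
              linarith
            have h5 : (-(Yn : ℤ)) < ⌊lrho h n k true g ξ⌋ + 1 := by exact_mod_cast this
            omega
          · have : (⌊lrho h n k true g ξ⌋ : ℝ) ≤ ((Yn : ℤ) : ℝ) := by
              push_cast
              linarith
            exact_mod_cast this
        have h3 := tv_tau (g := g) (ξ := ξ) (h := h) hR hk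
          (τ := (⌊lrho h n k true g ξ⌋ : ℝ)) (by
            rw [abs_le]
            constructor <;> linarith)
        have h4 := Finset.single_le_sum hsum hmem
        linarith)
  rw [InsD_log g ξ h hR hk, sum_mu_wq hR hk] at h1
  have h2 : ∑ x ∈ box (n + 2), KA.mm (box (n + 2)) (al g h k R) (ga g h n k R) x *
        max (|h| + |ξ (x + 1)| - (|h| + M₀)) 0 =
      Av g h 0 0 n (fun s => max (|ξ (pos s k + 1)| - M₀) 0) := by
    rw [← sum_mm hR hk (fun x => max (|ξ (x + 1)| - M₀) 0)]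
    refine Finset.sum_congr rfl fun x _ => ?_
    rw [add_sub_add_left_eq_sub]
  rw [h2] at h1
  exact h1

end

end Pool.Agent.W_7d29a1_h47
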