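import Pool.Agent.W_7d29a1_h47q.CrossE

/-!
# The future window
-/

namespace Pool.Agent.W_7d29a1_h47

open MeasureTheory ProbabilityTheory Finset

noncomputable section

variable {P : Prm} {μ : Measure ℝ} [IsProbabilityMeasure μ]

lemma CrossF_rowmap : Measurable (fun w : Env × Env => (w.1, row 0 w.2)) := InsE_rowmap 0

lemma CrossF_ins (k : ℕ) : Measurable (fun w : Env × Env => ins k 1 w.1 (row 0 w.2)) :=
  (measurable_ins k 1).comp CrossF_rowmap

lemma CrossF_meas_aT (h : ℝ) (k : ℕ) (τ : ℝ) (x : ℤ) :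
    Measurable fun w : Env × Env => aT w.1 (row 0 w.2) h k τ x := by
  unfold aT aP aQ
  exact ((measurable_Kp h 0 0 k x).comp measurable_fst).add
    (((measurable_Kp h 0 0 (k + 1) (x + 1)).comp (CrossF_ins k)).const_mul _)

lemma CrossF_meas_gP (h : ℝ) (n k : ℕ) (x : ℤ) :
    Measurable fun w : Env × Env => gP w.1 h n k x := by
  unfold gP
  exact (measurable_Z h k x (n - k)).comp measurable_fst

lemma CrossF_aT_nonneg (g : Env) (ξ : ℤ → ℝ) (h : ℝ) (k : ℕ) (τ : ℝ) (x : ℤ) :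
    0 ≤ aT g ξ h k τ x :=
  add_nonneg (aP_nonneg x) (mul_nonneg (Real.exp_pos _).le (aQ_nonneg x))

lemma CrossF_aT_dep (ξ : ℤ → ℝ) (h : ℝ) (k R : ℕ) (τ : ℝ) (x : ℤ) :
    DependsOn (fun g => aT g ξ h k τ x) (rows k (k + R))ᶜ := by
  intro g₁ g₂ hg
  have h0 : ∀ p : ℕ × ℤ, p.1 < k → g₁ p = g₂ p := by
    intro p hp
    refine hg p fun hp' => ?_
    exact absurd hp'.1 (not_le.2 hp)
  have h1 : Kp g₁ h 0 0 k x = Kp g₂ h 0 0 k x := by
    refine dependsOn_Kp h 0 0 k x fun p hp => h0 p ?_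
    have := hp.2
    omega
  have h2 : Kp (ins k 1 g₁ ξ) h 0 0 (k + 1) (x + 1) = Kp (ins k 1 g₂ ξ) h 0 0 (k + 1) (x + 1) := by
    refine dependsOn_Kp h 0 0 (k + 1) (x + 1) fun p hp => ?_
    have hp2 := hp.2
    unfold ins
    by_cases h3 : p.1 < k
    · rw [if_pos h3, if_pos h3, h0 p h3]
    · rw [if_neg h3, if_neg h3, if_pos (by omega), if_pos (by omega)]
  show aT g₁ ξ h k τ x = aT g₂ ξ h k τ x
  unfold aT aP aQ
  rw [h1, h2]

lemma CrossF_gP_dep (h : ℝ) (n k R : ℕ) (x : ℤ) :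
    DependsOn (fun g => gP g h n (k + R) x) (rows k (k + R))ᶜ := by
  intro g₁ g₂ hg
  have h1 : Z g₁ h (k + R) x (n - (k + R)) = Z g₂ h (k + R) x (n - (k + R)) := by
    refine dependsOn_Z h (k + R) x (n - (k + R)) fun p hp => hg p fun hp' => ?_
    exact absurd hp'.2 (not_lt.2 hp.1)
  exact h1

lemma CrossF_Wc (g : Env) (ξ : ℤ → ℝ) (h : ℝ) (k R : ℕ) (τ : ℝ) (γ : ℤ → ℝ)
    (i : ℤ × (ℕ → Bool)) :
    Wc h R (aT g ξ h k τ) γ i =
      Wc h R (aP g h k) γ i + Real.exp (-τ) * Wc h R (aQ g ξ h k) γ i := by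
  unfold Wc aT
  ring

lemma CrossF_adms (g : Env) (ξ : ℤ → ℝ) (h : ℝ) {n k : ℕ} (R : ℕ) (hk : k ≤ n) (τ : ℝ)
    {γ : ℤ → ℝ} (hγ : ∀ x, 0 < γ x) :
    Adms (WI (n + 2) R) (Wc h R (aT g ξ h k τ) γ) := by
  have hp : Adms (WI (n + 2) R) (Wc h R (aP g h k) γ) := adms_P (by omega) hγ
  have hq : Adms (WI (n + 2) R) (Wc h R (aQ g ξ h k) γ) := adms_Q hk hγ
  refine ⟨fun i hi => ?_, ?_⟩
  · rw [CrossF_Wc]
    exact add_nonneg (hp.nn i hi) (mul_nonneg (Real.exp_pos _).le (hq.nn i hi))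
  · obtain ⟨i, hi, h1⟩ := hp.ex
    refine ⟨i, hi, ?_⟩
    rw [CrossF_Wc]
    exact add_pos_of_pos_of_nonneg h1 (mul_nonneg (Real.exp_pos _).le (hq.nn i hi))

lemma CrossF_parity {g : Env} {ξ : ℤ → ℝ} {h : ℝ} {k : ℕ} {τ : ℝ} {x : ℤ}
    (hx : aT g ξ h k τ x ≠ 0) : (x - (k : ℤ)) % 2 = 0 := by
  by_cases h1 : aP g h k x = 0
  · by_cases h2 : aQ g ξ h k x = 0
    · exfalso
      apply hx
      unfold aT
      rw [h1, h2]
      ring
    · exact aQ_parity h2
  · exact aP_parity h1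

/-- The averages on the right side. -/
lemma CrossF_rhs {p q : ℝ} (hk : 0 < kmin μ p q) (hP : P.Ok μ p q) (h v : ℝ) {n k : ℕ}
    (hkn : k + P.R ≤ n) (τ : ℝ) (g : Env) (ξ : ℤ → ℝ) :
    SA (WI (n + 2) P.R) (Wc h P.R (aT g ξ h k τ) (gP g h n (k + P.R))) (WA k P.R) g
        (fun i => Psi P μ p q h v g k i.1 i.2) ≤
      Av g h 0 0 n (Psw P μ p q h v k g) +
        Av (ins k 1 g ξ) h 0 0 (n + 1) (Psw P μ p q h v (k + 1) (ins k 1 g ξ)) := by
  have hkn' : k ≤ n := by omega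
  have hγ : ∀ x, 0 < gP g h n (k + P.R) x := fun x => gP_pos x
  have h1 := SA_mix (I := WI (n + 2) P.R) (c1 := Wc h P.R (aP g h k) (gP g h n (k + P.R)))
    (c2 := Wc h P.R (aQ g ξ h k) (gP g h n (k + P.R)))
    (c := Wc h P.R (aT g ξ h k τ) (gP g h n (k + P.R))) (A := WA k P.R) (g := g)
    (adms_P (by omega) hγ) (adms_Q hkn' hγ) (ε := Real.exp (-τ)) (Real.exp_pos _).le
    (fun i => CrossF_Wc g ξ h k P.R τ _ i)
    (F := fun i => Psi P μ p q h v g k i.1 i.2)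
    (fun i _ => Psi_nonneg hk.le P h v g k i.1 i.2)
  have h2 := SA_PP (g := g) (h := h) (n := n) (t := k) (R := P.R) hkn
    (fun x r => Psi P μ p q h v g k x r)
  have h3 := SA_QP (g := g) (ξ := ξ) (h := h) (n := n) (k := k) (R := P.R) hkn
    (fun x r => Psi P μ p q h v g k x r)
  have h4 : Av (ins k 1 g ξ) h 0 0 (n + 1) (fun s => Psi P μ p q h v g k (pos s (k + 1) - 1)
      (cut P.R (shf (k + 1) s))) =
      Av (ins k 1 g ξ) h 0 0 (n + 1) (Psw P μ p q h v (k + 1) (ins k 1 g ξ)) := by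
    refine Av_congr fun s _ => ?_
    have h5 := Psi_transl (μ := μ) (P := P) hP.TT (g₁ := ins k 1 g ξ) (g₂ := g) (t₁ := k + 1)
      (t₂ := k) (c := 1) (fun i _ y => InsC_row 1 le_rfl i y) p q h v (pos s (k + 1) - 1)
      (cut P.R (shf (k + 1) s))
    rw [sub_add_cancel] at h5
    exact h5.symm
  rw [h4] at h3
  rw [h2, h3] at h1
  exact h1

/-- **Future window.** Proof. As `QP_int` with the starting time `k`, `α g g' x = aT g (row 0 g') h k τ x`,
`γ g g' x = gP g h n (k + P.R) x`, `e = k`: `aP g h k x` and `aQ g ξ h k x` only see rows `< k` of `g`. `SA_mix`,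
`SA_PP`, `SA_QP`; in the second average `Psi P μ p q h v g k (y - 1) r = Psi P μ p q h v g⁺ (k + 1) y r` by
`Psi_transl` (`c = 1`, `InsC_row`). -/
theorem QF_int (hμ : EM μ) {p q : ℝ} (hpq : p < q) (hk : 0 < kmin μ p q) (hP : P.Ok μ p q) (h : ℝ)
    {v : ℝ} (hv : |v| ≤ 1) {n k : ℕ} (hR : P.R ≤ k) (hkn : k + P.R ≤ n) (τ : ℝ) :
    ∫ w : Env × Env, QF w.1 (row 0 w.2) h n k P.R τ ∂(law2 μ) ≤
      e0 P μ + (EA μ h n (Psw P μ p q h v k) + EA μ h (n + 1) (Psw P μ p q h v (k + 1))) := by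
  have hkn' : k ≤ n := by omega
  have h1 := nm_rand2 (μ := μ) (P := P) hμ hpq hk hP h hv (N := n + 2) (k := k)
    (α := fun g g' x => aT g (row 0 g') h k τ x) (γ := fun g _ x => gP g h n (k + P.R) x)
    (fun x => CrossF_meas_aT h k τ x) (fun x => CrossF_meas_gP h n (k + P.R) x)
    (fun g g' x => CrossF_aT_nonneg g (row 0 g') h k τ x) (fun g g' x => (gP_pos x).le)
    (fun g' x => CrossF_aT_dep (row 0 g') h k P.R τ x) (fun g' x => CrossF_gP_dep h n k P.R x)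
    (fun g g' => CrossF_adms g (row 0 g') h P.R hkn' τ fun x => gP_pos x)
    (e := (k : ℤ)) (fun g g' x hx => CrossF_parity hx)
  refine h1.trans (add_le_add le_rfl ?_)
  have i1 : PMom (law μ) (fun g : Env => Av g h 0 0 n (Psw P μ p q h v k g)) :=
    PMom_Av fun s hs => PF_Psw hμ P p q h v k n s hs
  have i2 : PMom (law μ) (fun g : Env => Av g h 0 0 (n + 1) (Psw P μ p q h v (k + 1) g)) :=
    PMom_Av fun s hs => PF_Psw hμ P p q h v (k + 1) (n + 1) s hs
  have j1 : Integrable (fun w : Env × Env => Av w.1 h 0 0 n (Psw P μ p q h v k w.1)) (law2 μ) :=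
    (i1.comp measurePreserving_fst).integrable
  have j2 : Integrable (fun w : Env × Env => Av (ins k 1 w.1 (row 0 w.2)) h 0 0 (n + 1)
      (Psw P μ p q h v (k + 1) (ins k 1 w.1 (row 0 w.2)))) (law2 μ) :=
    (i2.comp (mp_ins k 1 0)).integrable
  have e1 : ∫ w : Env × Env, Av w.1 h 0 0 n (Psw P μ p q h v k w.1) ∂(law2 μ) =
      EA μ h n (Psw P μ p q h v k) :=
    mp_integral (measurePreserving_fst (μ := law μ) (ν := law μ))
      (F := fun g : Env => Av g h 0 0 n (Psw P μ p q h v k g)) i1.measurable.aestronglyMeasurable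
  have e2 : ∫ w : Env × Env, Av (ins k 1 w.1 (row 0 w.2)) h 0 0 (n + 1)
      (Psw P μ p q h v (k + 1) (ins k 1 w.1 (row 0 w.2))) ∂(law2 μ) =
      EA μ h (n + 1) (Psw P μ p q h v (k + 1)) :=
    mp_integral (mp_ins k 1 0)
      (F := fun g : Env => Av g h 0 0 (n + 1) (Psw P μ p q h v (k + 1) g))
      i2.measurable.aestronglyMeasurable
  rw [← e1, ← e2, ← integral_add j1 j2]
  refine integral_mono_of_nonneg (Filter.Eventually.of_forall fun w => ?_) (j1.add j2)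
    (Filter.Eventually.of_forall fun w => ?_)
  · exact SA_nonneg (CrossF_adms w.1 (row 0 w.2) h P.R hkn' τ fun x => gP_pos x)
      fun i _ => Psi_nonneg hk.le P h v w.1 k i.1 i.2
  · exact CrossF_rhs hk hP h v hkn τ w.1 (row 0 w.2)

/-- Bounded and measurable. -/
lemma measurable_QF (h : ℝ) (n k R : ℕ) (τ : ℝ) :
    Measurable (fun w : Env × Env => QF w.1 (row 0 w.2) h n k R τ) := by
  unfold QF SA2
  refine measurable_SA_rand measurable_fst (α := fun w : Env × Env => aT w.1 (row 0 w.2) h k τ)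
    (γ := fun w : Env × Env => gP w.1 h n (k + R)) (fun x => CrossF_meas_aT h k τ x)
    (fun x => CrossF_meas_gP h n (k + R) x) fun i _ => ?_
  exact measurable_SA_rand measurable_fst (α := fun w : Env × Env => aT w.1 (row 0 w.2) h k τ)
    (γ := fun w : Env × Env => gP w.1 h n (k + R)) (fun x => CrossF_meas_aT h k τ x)
    (fun x => CrossF_meas_gP h n (k + R) x) fun j _ => measurable_const

end

end Pool.Agent.W_7d29a1_h47
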