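import Pool.Agent.W_7d29a1_h47q.CrossF

/-!
# The expected Kullback–Leibler distance
-/

namespace Pool.Agent.W_7d29a1_h47

open MeasureTheory ProbabilityTheory Finset

noncomputable section

variable {P : Prm} {μ : Measure ℝ} [IsProbabilityMeasure μ]

lemma CrossG_QP (g : Env) (ξ : ℤ → ℝ) (h : ℝ) {n k R : ℕ} (hk : k ≤ n) (τ : ℝ) :
    0 ≤ QP g ξ h n k R τ ∧ QP g ξ h n k R τ ≤ 1 := by
  have hc : Adms (WI (n + 2) R) (Wc h R (aP g h (k - R)) (gT g ξ h n k τ)) :=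
    adms_P (by omega) fun x => add_pos (gP_pos x) (mul_pos (Real.exp_pos _) (gQ_pos x))
  exact ⟨SA2_nonneg hc fun i _ j _ => ind_nonneg _, SA2_le hc fun i _ j _ => ind_le_one _⟩

lemma CrossG_QF (g : Env) (ξ : ℤ → ℝ) (h : ℝ) {n k R : ℕ} (hk : k ≤ n) (τ : ℝ) :
    0 ≤ QF g ξ h n k R τ ∧ QF g ξ h n k R τ ≤ 1 := by
  have hc : Adms (WI (n + 2) R) (Wc h R (aT g ξ h k τ) (gP g h n (k + R))) := by
    refine ⟨fun i _ => ?_, ?_⟩
    · unfold Wc aT
      exact mul_nonneg (mul_nonneg (add_nonneg (aP_nonneg _) (mul_nonneg (Real.exp_pos _).le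
        (aQ_nonneg _))) (Real.exp_pos _).le) (gP_pos _).le
    · obtain ⟨i, hi, h1⟩ := (adms_P (g := g) (h := h) (n := n) (t := k) (R := R) (by omega)
        (γ := gP g h n (k + R)) (fun x => gP_pos x)).ex
      refine ⟨i, hi, h1.trans_le ?_⟩
      unfold Wc aT
      refine mul_le_mul_of_nonneg_right (mul_le_mul_of_nonneg_right ?_ (Real.exp_pos _).le)
        (gP_pos _).le
      have := mul_nonneg (Real.exp_pos (-τ)).le
        (aQ_nonneg (g := g) (ξ := ξ) (h := h) (k := k) i.1)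
      linarith
  exact ⟨SA2_nonneg hc fun i _ j _ => ind_nonneg _, SA2_le hc fun i _ j _ => ind_le_one _⟩

lemma CrossG_pt (g : Env) (ξ : ℤ → ℝ) (h : ℝ) {n k : ℕ} (hk : k ≤ n) (Y : ℝ) :
    ind (lrho h n k true g ξ < -Y) ≤
      Real.exp (|h| - Y) * Av g h 0 0 n (fun s => Real.exp |ξ (pos s k + 1)|) := by
  have h0 : 0 ≤ Real.exp (|h| - Y) * Av g h 0 0 n (fun s => Real.exp |ξ (pos s k + 1)|) :=
    mul_nonneg (Real.exp_pos _).le (Av_nonneg fun _ _ => (Real.exp_pos _).le)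
  by_cases hl : lrho h n k true g ξ < -Y
  · rw [ind_true hl]
    have h1 := lrho_ge g ξ h hk true
    rw [stp_true] at h1
    have h2 := abs_Av_le (g := g) (h := h) (t := 0) (x := 0) (n := n) (fun s => ξ (pos s k + 1))
    have h3 := neg_abs_le (Av g h 0 0 n (fun s => ξ (pos s k + 1)))
    have h4 := neg_abs_le h
    have h5 := exp_Av_le (g := g) (h := h) (t := 0) (x := 0) (n := n)
      (fun s => |ξ (pos s k + 1)|)
    have h6 : (1 : ℝ) ≤ Real.exp (|h| - Y) * Real.exp (Av g h 0 0 n (fun s => |ξ (pos s k + 1)|)) := by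
      rw [← Real.exp_add]
      refine Real.one_le_exp ?_
      push_cast at h1
      linarith
    exact h6.trans (mul_le_mul_of_nonneg_left h5 (Real.exp_pos _).le)
  · rw [ind_false hl]
    exact h0

lemma CrossG_int (μ : Measure ℝ) [IsProbabilityMeasure μ] (h : ℝ) (n k : ℕ) (Y : ℝ) :
    Integrable (fun w : Env × Env => ind (lrho h n k true w.1 (row 0 w.2) < -Y)) (law2 μ) := by
  have hm : Measurable (fun w : Env × Env => ind (lrho h n k true w.1 (row 0 w.2) < -Y)) := by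
    unfold ind
    have h1 := (measurable_lrho h n k true).comp (InsE_rowmap 0)
    exact Measurable.ite (measurableSet_lt h1 measurable_const) measurable_const measurable_const
  exact (PMom.of_bounded hm fun w => ind_abs _).integrable

/-- Very small ratios are unlikely. Proof. `lrho_ge` (`stp true = 1`) gives
`lrho ≥ -|h| - Av (|ξ (pos s k + 1)|)`, so `ind (lrho < -Y) ≤ e^{|h| - Y} e^{Av |ξ|} ≤ e^{|h| - Y} Av (e^{|ξ|})`
(`exp_Av_le`), and `InsE_fresh` with `f u = e^{|u|}`. -/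
lemma low_lrho (hμ : EM μ) (h : ℝ) {n k : ℕ} (hk : k ≤ n) (Y : ℝ) :
    ∫ w : Env × Env, ind (lrho h n k true w.1 (row 0 w.2) < -Y) ∂(law2 μ) ≤
      Mom μ 1 * Real.exp (|h| - Y) := by
  have hid : EMom μ (fun u : ℝ => u) := ⟨measurable_id, hμ⟩
  have hpe : PMom μ (fun u : ℝ => Real.exp |u|) := hid.abs.exp'
  obtain ⟨i1, e1⟩ := InsE_fresh (μ := μ) (f := fun u : ℝ => Real.exp |u|) (by fun_prop) hpe h n k
  have h1 := integral_mono (CrossG_int μ h n k Y) (i1.const_mul (Real.exp (|h| - Y)))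
    fun w => CrossG_pt w.1 (row 0 w.2) h hk Y
  rw [integral_const_mul, e1] at h1
  refine h1.trans (le_of_eq ?_)
  unfold Mom
  simp only [one_mul]
  ring

/-- **Expected Kullback–Leibler distance.** Proof. Integrate `KLf_cross` with `ξ = row 0 w.2` as in the
proof of `EKL_le` (`InsE.lean`): `∫ KLf = EKL`, the `tail` term, `InsE_fresh` for the last term;
`QP_int`, `QF_int` for each of the `2 Yn + 1` values of `τ`; `low_lrho`. -/
theorem EKL_cross (hμ : EM μ) {p q : ℝ} (hpq : p < q) (hk : 0 < kmin μ p q) (hP : P.Ok μ p q) (h : ℝ)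
    {v : ℝ} (hv : |v| ≤ 1) {n k : ℕ} (hR : P.R ≤ k) (hkn : k + P.R ≤ n) {M₀ Y : ℝ} (hM₀ : 0 ≤ M₀)
    (hY : 1 ≤ Y) {Yn : ℕ} (hYn : Y + 1 ≤ Yn) :
    EKL μ h n k P.R ≤ (1 + (|h| + M₀) + Y) *
        (12 * ((2 * Yn + 1) * (2 * e0 P μ +
          (EA μ h n (Psw P μ p q h v (k - P.R)) + EA μ h (n + 1) (Psw P μ p q h v (k - P.R)) +
            EA μ h n (Psw P μ p q h v k) + EA μ h (n + 1) (Psw P μ p q h v (k + 1))))) +
          2 * (Mom μ 1 * Real.exp (|h| - Y))) +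
      (3 + (|h| + M₀)) * tail μ h n k Y + ∫ u, max (|u| - M₀) 0 ∂μ := by
  have hkn' : k ≤ n := by omega
  have hmax : Measurable (fun u : ℝ => max (|u| - M₀) 0) := by fun_prop
  have hid : EMom μ (fun u : ℝ => u) := ⟨measurable_id, hμ⟩
  have hPm : PMom μ (fun u : ℝ => max (|u| - M₀) 0) := by
    refine hid.pmom.mono hmax fun u => ?_
    rw [abs_of_nonneg (le_max_right _ _)]
    exact max_le (by linarith) (abs_nonneg u)
  obtain ⟨i5, e5⟩ := InsE_fresh hmax hPm h n k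
  have i4 := integrable_tail hμ h n k Y
  have iI := CrossG_int μ h n k Y
  have eI := low_lrho hμ h hkn' Y
  have iQP : ∀ τ : ℤ, Integrable (fun w : Env × Env => QP w.1 (row 0 w.2) h n k P.R τ)
      (law2 μ) := fun τ =>
    (PMom.of_bounded (measurable_QP h n k P.R τ) (c := 1) fun w => by
      obtain ⟨h1, h2⟩ := CrossG_QP w.1 (row 0 w.2) h (R := P.R) hkn' (τ : ℝ)
      rw [abs_of_nonneg h1]
      exact h2).integrable
  have iQF : ∀ τ : ℤ, Integrable (fun w : Env × Env => QF w.1 (row 0 w.2) h n k P.R τ)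
      (law2 μ) := fun τ =>
    (PMom.of_bounded (measurable_QF h n k P.R τ) (c := 1) fun w => by
      obtain ⟨h1, h2⟩ := CrossG_QF w.1 (row 0 w.2) h (R := P.R) hkn' (τ : ℝ)
      rw [abs_of_nonneg h1]
      exact h2).integrable
  have iQ : ∀ τ : ℤ, Integrable (fun w : Env × Env =>
      QP w.1 (row 0 w.2) h n k P.R τ + QF w.1 (row 0 w.2) h n k P.R τ) (law2 μ) :=
    fun τ => (iQP τ).add (iQF τ)
  have iS : Integrable (fun w : Env × Env => ∑ τ ∈ Icc (-(Yn : ℤ)) Yn,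
      (QP w.1 (row 0 w.2) h n k P.R τ + QF w.1 (row 0 w.2) h n k P.R τ)) (law2 μ) :=
    integrable_finsetSum _ fun τ _ => iQ τ
  have eS : ∫ w, ∑ τ ∈ Icc (-(Yn : ℤ)) Yn,
      (QP w.1 (row 0 w.2) h n k P.R τ + QF w.1 (row 0 w.2) h n k P.R τ) ∂(law2 μ) ≤
      (2 * Yn + 1) * (2 * e0 P μ +
          (EA μ h n (Psw P μ p q h v (k - P.R)) + EA μ h (n + 1) (Psw P μ p q h v (k - P.R)) +
            EA μ h n (Psw P μ p q h v k) + EA μ h (n + 1) (Psw P μ p q h v (k + 1)))) := by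
    rw [integral_finsetSum _ fun τ _ => iQ τ]
    have h1 : ∀ τ ∈ Icc (-(Yn : ℤ)) Yn, ∫ w,
        (QP w.1 (row 0 w.2) h n k P.R τ + QF w.1 (row 0 w.2) h n k P.R τ) ∂(law2 μ) ≤
        2 * e0 P μ +
          (EA μ h n (Psw P μ p q h v (k - P.R)) + EA μ h (n + 1) (Psw P μ p q h v (k - P.R)) +
            EA μ h n (Psw P μ p q h v k) + EA μ h (n + 1) (Psw P μ p q h v (k + 1))) := by
      intro τ _
      rw [integral_add (iQP τ) (iQF τ)]
      have h2 := QP_int hμ hpq hk hP h hv hR hkn (τ : ℝ)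
      have h3 := QF_int hμ hpq hk hP h hv hR hkn (τ : ℝ)
      linarith
    refine (Finset.sum_le_sum h1).trans (le_of_eq ?_)
    rw [Finset.sum_const, Int.card_Icc, nsmul_eq_mul]
    congr 1
    have h4 : ((Yn : ℤ) + 1 - -(Yn : ℤ)).toNat = 2 * Yn + 1 := by omega
    rw [h4]
    push_cast
    ring
  have iL1 := (EMom_lrho hμ h n k true 0).integrable
  have iL2 := (EMom_AvW hμ h n k P.R 0).integrable
  have hL : ∫ w, KLf h n k P.R w.1 (row 0 w.2) ∂(law2 μ) = EKL μ h n k P.R := by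
    unfold KLf EKL
    rw [integral_sub iL1 iL2, integral_lrho hμ]
    rfl
  have iL : Integrable (fun w : Env × Env => KLf h n k P.R w.1 (row 0 w.2)) (law2 μ) :=
    iL1.sub iL2
  rw [← hL]
  obtain ⟨j1, f1⟩ := InsE_lin iS iI 12 2
  obtain ⟨j2, f2⟩ := InsE_lin j1 i4 (1 + (|h| + M₀) + Y) (3 + (|h| + M₀))
  obtain ⟨j3, f3⟩ := InsE_lin j2 i5 1 1
  have hpt : ∀ w : Env × Env, KLf h n k P.R w.1 (row 0 w.2) ≤
      1 * ((1 + (|h| + M₀) + Y) * (12 * ∑ τ ∈ Icc (-(Yn : ℤ)) Yn,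
        (QP w.1 (row 0 w.2) h n k P.R τ + QF w.1 (row 0 w.2) h n k P.R τ) +
          2 * ind (lrho h n k true w.1 (row 0 w.2) < -Y)) +
      (3 + (|h| + M₀)) * (if Y ≤ Xf h n k true w.1 (row 0 w.2) then
        Xf h n k true w.1 (row 0 w.2) else 0)) +
      1 * Av w.1 h 0 0 n (fun s => max (|row 0 w.2 (pos s k + 1)| - M₀) 0) := by
    intro w
    rw [one_mul, one_mul]
    exact KLf_cross w.1 (row 0 w.2) h hR hkn hM₀ hY hYn
  refine (integral_mono iL j3 hpt).trans ?_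
  rw [f3, f2, f1, e5, one_mul, one_mul]
  have hA : 0 ≤ 1 + (|h| + M₀) + Y := by
    have := abs_nonneg h
    linarith
  have h5 : 12 * (∫ w, ∑ τ ∈ Icc (-(Yn : ℤ)) Yn,
      (QP w.1 (row 0 w.2) h n k P.R τ + QF w.1 (row 0 w.2) h n k P.R τ) ∂(law2 μ)) +
      2 * (∫ w, ind (lrho h n k true w.1 (row 0 w.2) < -Y) ∂(law2 μ)) ≤
      12 * ((2 * Yn + 1) * (2 * e0 P μ +
          (EA μ h n (Psw P μ p q h v (k - P.R)) + EA μ h (n + 1) (Psw P μ p q h v (k - P.R)) +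
            EA μ h n (Psw P μ p q h v k) + EA μ h (n + 1) (Psw P μ p q h v (k + 1))))) +
          2 * (Mom μ 1 * Real.exp (|h| - Y)) := by
    linarith
  have h6 := mul_le_mul_of_nonneg_left h5 hA
  have h7 : ∫ w, (if Y ≤ Xf h n k true w.1 (row 0 w.2) then
        Xf h n k true w.1 (row 0 w.2) else 0) ∂(law2 μ) = tail μ h n k Y := rfl
  rw [h7]
  linarith

end

end Pool.Agent.W_7d29a1_h47
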