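import Pool.Agent.W_7d29a1_h47q.Win

/-!
# The noise of the connections
-/

namespace Pool.Agent.W_7d29a1_h47

open MeasureTheory ProbabilityTheory Finset

noncomputable section

variable {μ : Measure ℝ} [IsProbabilityMeasure μ]

/-- The sum in the definition of `nn`. -/
def NoiseB_X (b : ℕ → ℤ) (t L S : ℕ) (g : Env) : ℝ :=
  ∑ x ∈ Icc (b t - S) (b t + S), ∑ s ∈ T L, (Real.exp (En g t x L s) + Real.exp (-En g t x L s))

lemma NoiseB_nn (b : ℕ → ℤ) (t L S : ℕ) (g : Env) : nn b t L S g = Real.log (NoiseB_X b t L S g) :=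
  rfl

lemma NoiseB_exp_le {b : ℕ → ℤ} {t L S : ℕ} {x : ℤ} (hx : |x - b t| ≤ S) {s : ℕ → Bool}
    (hs : s ∈ T L) (g : Env) : Real.exp |En g t x L s| ≤ NoiseB_X b t L S g := by
  have hxI : x ∈ Icc (b t - S) (b t + S) := by
    rw [Finset.mem_Icc]
    have := abs_le.1 hx
    constructor <;> linarith
  have h1 : Real.exp |En g t x L s| ≤ Real.exp (En g t x L s) + Real.exp (-En g t x L s) := by
    rcases abs_cases (En g t x L s) with ⟨h, -⟩ | ⟨h, -⟩
    · rw [h]
      linarith [Real.exp_pos (-En g t x L s)]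
    · rw [h]
      linarith [Real.exp_pos (En g t x L s)]
  refine h1.trans ?_
  have h2 : Real.exp (En g t x L s) + Real.exp (-En g t x L s) ≤
      ∑ s ∈ T L, (Real.exp (En g t x L s) + Real.exp (-En g t x L s)) :=
    Finset.single_le_sum (f := fun s => Real.exp (En g t x L s) + Real.exp (-En g t x L s))
      (fun r _ => (add_pos (Real.exp_pos _) (Real.exp_pos _)).le) hs
  refine h2.trans ?_
  exact Finset.single_le_sum
    (f := fun x => ∑ s ∈ T L, (Real.exp (En g t x L s) + Real.exp (-En g t x L s)))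
    (fun y _ => Finset.sum_nonneg fun r _ => (add_pos (Real.exp_pos _) (Real.exp_pos _)).le) hxI

lemma NoiseB_one_le (b : ℕ → ℤ) (t L S : ℕ) (g : Env) : 1 ≤ NoiseB_X b t L S g := by
  obtain ⟨s, hs⟩ := T_nonempty L
  have h1 := NoiseB_exp_le (b := b) (t := t) (L := L) (S := S) (x := b t) (by simp) hs g
  exact (Real.one_le_exp (abs_nonneg _)).trans h1

@[fun_prop]
lemma NoiseB_meas (b : ℕ → ℤ) (t L S : ℕ) : Measurable (fun g : Env => NoiseB_X b t L S g) := by
  unfold NoiseB_X
  fun_prop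

/-- Every path counted in `nn` has energy at most `nn` in absolute value. Proof. `e^{|En|}` is one of the
terms of the sum (all are positive), `Real.le_log_iff_exp_le`. -/
lemma En_le_nn {b : ℕ → ℤ} {t L S : ℕ} {x : ℤ} (hx : |x - b t| ≤ S) {s : ℕ → Bool} (hs : s ∈ T L)
    (g : Env) : |En g t x L s| ≤ nn b t L S g := by
  rw [NoiseB_nn, Real.le_log_iff_exp_le (by linarith [NoiseB_one_le b t L S g])]
  exact NoiseB_exp_le hx hs g

/-- Proof. `En_le_nn` with `x = b t`. -/
lemma nn_nonneg (b : ℕ → ℤ) (t L S : ℕ) (g : Env) : 0 ≤ nn b t L S g := by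
  obtain ⟨s, hs⟩ := T_nonempty L
  exact (abs_nonneg _).trans (En_le_nn (b := b) (t := t) (L := L) (S := S) (x := b t) (by simp) hs g)

lemma measurable_nn (b : ℕ → ℤ) (t L S : ℕ) : Measurable (fun g : Env => nn b t L S g) := by
  simp only [NoiseB_nn]
  fun_prop

lemma dependsOn_nn (b : ℕ → ℤ) (t L S : ℕ) :
    DependsOn (fun g : Env => nn b t L S g) (rows t (t + L)) := by
  intro g g' h
  have h1 : NoiseB_X b t L S g = NoiseB_X b t L S g' := by
    unfold NoiseB_X
    refine Finset.sum_congr rfl fun x _ => Finset.sum_congr rfl fun s _ => ?_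
    have h2 := dependsOn_En t x L s h
    simp only at h2
    rw [h2]
  simp only [NoiseB_nn]
  rw [h1]

/-- `nn` has all exponential moments. Proof. `|nn| ≤ log (number of terms) + ∑ |En|` over the finitely
many paths (`EMom_En`), or `EMom.mono`. -/
lemma EMom_nn (hμ : EM μ) (b : ℕ → ℤ) (t L S : ℕ) : EMom (law μ) (fun g : Env => nn b t L S g) := by
  have h1 : EMom (law μ) (fun g : Env =>
      ∑ x ∈ Icc (b t - S) (b t + S), ∑ s ∈ T L, |En g t x L s|) :=
    EMom.sum _ fun x _ => EMom.sum _ fun s _ => (EMom_En hμ t x L s).abs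
  refine (h1.add (EMom.const |Real.log (∑ _x ∈ Icc (b t - S) (b t + S), ∑ _s ∈ T L, (2 : ℝ))|)).mono
    (measurable_nn b t L S) fun g => ?_
  have hA : ∀ x ∈ Icc (b t - S) (b t + S), ∀ s ∈ T L, |En g t x L s| ≤
      ∑ x ∈ Icc (b t - S) (b t + S), ∑ s ∈ T L, |En g t x L s| := by
    intro x hx s hs
    refine le_trans ?_ (Finset.single_le_sum (f := fun x => ∑ s ∈ T L, |En g t x L s|)
      (fun y _ => Finset.sum_nonneg fun r _ => abs_nonneg _) hx)
    exact Finset.single_le_sum (f := fun s => |En g t x L s|) (fun r _ => abs_nonneg _) hs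
  obtain ⟨A, hAd⟩ : ∃ A, A = ∑ x ∈ Icc (b t - S) (b t + S), ∑ s ∈ T L, |En g t x L s| := ⟨_, rfl⟩
  rw [← hAd] at hA ⊢
  have hA0 : 0 ≤ A := by
    rw [hAd]
    exact Finset.sum_nonneg fun y _ => Finset.sum_nonneg fun r _ => abs_nonneg _
  have h2 : NoiseB_X b t L S g ≤
      (∑ _x ∈ Icc (b t - S) (b t + S), ∑ _s ∈ T L, (2 : ℝ)) * Real.exp A := by
    unfold NoiseB_X
    rw [Finset.sum_mul]
    refine Finset.sum_le_sum fun x hx => ?_
    rw [Finset.sum_mul]
    refine Finset.sum_le_sum fun s hs => ?_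
    have h3 := abs_le.1 (hA x hx s hs)
    have h4 : Real.exp (En g t x L s) ≤ Real.exp A := Real.exp_le_exp.2 h3.2
    have h5 : Real.exp (-En g t x L s) ≤ Real.exp A := Real.exp_le_exp.2 (by linarith [h3.1])
    linarith
  have h6 : 0 < NoiseB_X b t L S g := by linarith [NoiseB_one_le b t L S g]
  have h7 : 0 < (∑ _x ∈ Icc (b t - S) (b t + S), ∑ _s ∈ T L, (2 : ℝ)) := by
    by_contra hcon
    have h8 := mul_nonpos_of_nonpos_of_nonneg (not_lt.1 hcon) (Real.exp_pos A).le
    linarith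
  have h8 := Real.log_le_log h6 h2
  rw [Real.log_mul h7.ne' (Real.exp_pos A).ne', Real.log_exp] at h8
  rw [abs_of_nonneg (nn_nonneg b t L S g), abs_of_nonneg (add_nonneg hA0 (abs_nonneg _)), NoiseB_nn]
  have h9 := le_abs_self (Real.log (∑ _x ∈ Icc (b t - S) (b t + S), ∑ _s ∈ T L, (2 : ℝ)))
  linarith

/-- **Mean noise.** Proof. Jensen: `∫ log X ≤ log ∫ X` (`log u ≤ log c + u/c - 1` with `c = ∫ X`), and
`∫ e^{± En} = (∫ e^{± u} dμ)^L ≤ (Mom μ 1)^L` (`FreeB_exp_En`); the number of terms is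
`(2S+1) 2^L`, so `∫ X ≤ 2 (2S+1) (2 Mom μ 1)^L`. -/
lemma integral_nn_le (hμ : EM μ) (b : ℕ → ℤ) (t L S : ℕ) :
    ∫ g, nn b t L S g ∂(law μ) ≤
      Real.log (2 * (2 * S + 1)) + L * (Real.log 2 + Real.log (Mom μ 1)) := by
  have hM1 : 1 ≤ Mom μ 1 := by
    have h1 : ∫ _u : ℝ, (1 : ℝ) ∂μ ≤ ∫ u, Real.exp (1 * |u|) ∂μ :=
      integral_mono (integrable_const _) (hμ 1) fun u => Real.one_le_exp (by positivity)
    simpa [Mom] using h1
  have hpm : ∀ x s, PMom (law μ) (fun g : Env => Real.exp (En g t x L s) +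
      Real.exp (-En g t x L s)) := fun x s =>
    (EMom_En hμ t x L s).exp'.add (EMom_En hμ t x L s).neg.exp'
  have hX : PMom (law μ) (fun g : Env => NoiseB_X b t L S g) :=
    PMom.sum _ fun x _ => PMom.sum _ fun s _ => hpm x s
  have hterm : ∀ x s, ∫ g : Env, (Real.exp (En g t x L s) + Real.exp (-En g t x L s)) ∂(law μ) ≤
      2 * Mom μ 1 ^ L := by
    intro x s
    rw [integral_add (EMom_En hμ t x L s).exp'.integrable (EMom_En hμ t x L s).neg.exp'.integrable]
    have e1 : ∀ θ : ℝ, |θ| = 1 → ∫ g : Env, Real.exp (θ * En g t x L s) ∂(law μ) ≤ Mom μ 1 ^ L := by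
      intro θ hθ
      rw [FreeB_exp_En hμ]
      have h0 : 0 ≤ ∫ u, Real.exp (θ * u) ∂μ := integral_nonneg fun u => (Real.exp_pos _).le
      refine pow_le_pow_left₀ h0 ?_ L
      unfold Mom
      have hle : ∀ u : ℝ, Real.exp (θ * u) ≤ Real.exp (1 * |u|) := by
        intro u
        refine Real.exp_le_exp.2 ?_
        calc θ * u ≤ |θ * u| := le_abs_self _
          _ = 1 * |u| := by rw [abs_mul, hθ]
      refine integral_mono ((hμ 1).mono' (by fun_prop) (Filter.Eventually.of_forall fun u => ?_))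
        (hμ 1) hle
      rw [Real.norm_eq_abs, abs_of_pos (Real.exp_pos _)]
      exact hle u
    have e2 := e1 1 (by simp)
    have e3 := e1 (-1) (by simp)
    simp only [one_mul, neg_mul] at e2 e3
    linarith
  have hc : ∫ g, NoiseB_X b t L S g ∂(law μ) ≤ (2 * (2 * S + 1)) * (2 * Mom μ 1) ^ L := by
    unfold NoiseB_X
    rw [integral_finsetSum _ fun x _ => (PMom.sum _ fun s _ => hpm x s).integrable]
    have h1 : ∀ x ∈ Icc (b t - S) (b t + S), ∫ g : Env, ∑ s ∈ T L,
        (Real.exp (En g t x L s) + Real.exp (-En g t x L s)) ∂(law μ) ≤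
          2 ^ L * (2 * Mom μ 1 ^ L) := by
      intro x _
      rw [integral_finsetSum _ fun s _ => (hpm x s).integrable]
      refine (Finset.sum_le_sum fun s _ => hterm x s).trans (le_of_eq ?_)
      rw [Finset.sum_const, card_T, nsmul_eq_mul]
      push_cast
      rfl
    refine (Finset.sum_le_sum h1).trans (le_of_eq ?_)
    rw [Finset.sum_const, Int.card_Icc, nsmul_eq_mul]
    have h2 : (b t + S + 1 - (b t - S)).toNat = 2 * S + 1 := by omega
    rw [h2, mul_pow]
    push_cast
    ring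
  have hc1 : 1 ≤ ∫ g, NoiseB_X b t L S g ∂(law μ) := by
    have h1 : ∫ _g : Env, (1 : ℝ) ∂(law μ) ≤ ∫ g, NoiseB_X b t L S g ∂(law μ) :=
      integral_mono (integrable_const _) hX.integrable fun g => NoiseB_one_le b t L S g
    simpa using h1
  obtain ⟨c, hcd⟩ : ∃ c, c = ∫ g, NoiseB_X b t L S g ∂(law μ) := ⟨_, rfl⟩
  rw [← hcd] at hc hc1
  have hc0 : 0 < c := by linarith
  have hjen : ∫ g, nn b t L S g ∂(law μ) ≤ Real.log c := by
    have h1 : ∀ g : Env, nn b t L S g ≤ NoiseB_X b t L S g * c⁻¹ + (Real.log c - 1) := by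
      intro g
      have h2 := NoiseB_one_le b t L S g
      have h3 := Real.log_le_sub_one_of_pos (show 0 < NoiseB_X b t L S g * c⁻¹ by positivity)
      rw [Real.log_mul (by linarith) (by positivity), Real.log_inv] at h3
      rw [NoiseB_nn]
      linarith
    have h2 : ∫ g, nn b t L S g ∂(law μ) ≤
        ∫ g, (NoiseB_X b t L S g * c⁻¹ + (Real.log c - 1)) ∂(law μ) :=
      integral_mono (EMom_nn hμ b t L S).integrable
        ((hX.integrable.mul_const _).add (integrable_const _)) h1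
    rw [integral_add (hX.integrable.mul_const _) (integrable_const _), integral_mul_const, ← hcd,
      mul_inv_cancel₀ hc0.ne', integral_const] at h2
    simp only [probReal_univ, smul_eq_mul, one_mul] at h2
    linarith
  have hlog := Real.log_le_log hc0 hc
  rw [Real.log_mul (by positivity) (by positivity), Real.log_pow,
    Real.log_mul (x := 2) (y := Mom μ 1) (by norm_num) (by linarith)] at hlog
  linarith

end

end Pool.Agent.W_7d29a1_h47
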