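import Pool.Agent.W_7d29a1_h47q.StripB
import Pool.Agent.W_7d29a1_h47q.NoiseB

/-!
# The gain of the blocks is large with high probability
-/

namespace Pool.Agent.W_7d29a1_h47

open MeasureTheory ProbabilityTheory Finset

noncomputable section

variable {P : Prm} {μ : Measure ℝ} [IsProbabilityMeasure μ] {p q : ℝ}

lemma dB_nonneg (P : Prm) (b : ℕ → ℤ) (t : ℕ) (g : Env) : 0 ≤ dB P b t g := le_max_left _ _

/-- Proof. `measurable_YY`, `measurable_nn`. -/
lemma measurable_dB (P : Prm) (b : ℕ → ℤ) (t : ℕ) : Measurable (fun g : Env => dB P b t g) := by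
  unfold dB
  exact measurable_const.max (((((measurable_YY b (t + P.L) P.ℓ (4 * P.w) (4 * P.w)).max
    (measurable_YY b (t + P.L) P.ℓ (4 * P.w) (-(4 * P.w)))).sub
    (measurable_YY b (t + P.L) P.ℓ (4 * P.w) 0)).sub
    (((measurable_nn b t P.L (3 * P.L)).add
      (measurable_nn b (t + P.L + P.ℓ) P.L (3 * P.L))).const_mul 2)).sub_const _)

/-- Proof. `dependsOn_YY`, `dependsOn_nn`: rows `t, …, t + TB - 1`. -/
lemma dependsOn_dB (P : Prm) (b : ℕ → ℤ) (t : ℕ) :
    DependsOn (fun g : Env => dB P b t g) (rows t (t + P.TB)) := by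
  intro g g' h
  have hTB : P.TB = P.L + P.ℓ + P.L := rfl
  have hsub : ∀ u v : ℕ, t ≤ u → v ≤ t + P.TB → ∀ p ∈ rows u v, g p = g' p := by
    intro u v hu hv p hp
    exact h p ⟨hu.trans hp.1, hp.2.trans_le hv⟩
  have h1 : ∀ o : ℤ, YY b (t + P.L) P.ℓ (4 * P.w) o g = YY b (t + P.L) P.ℓ (4 * P.w) o g' :=
    fun o => dependsOn_YY b (t + P.L) P.ℓ (4 * P.w) o (hsub _ _ (by omega) (by omega))
  have h2 : nn b t P.L (3 * P.L) g = nn b t P.L (3 * P.L) g' :=
    dependsOn_nn b t P.L (3 * P.L) (hsub _ _ le_rfl (by omega))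
  have h3 : nn b (t + P.L + P.ℓ) P.L (3 * P.L) g = nn b (t + P.L + P.ℓ) P.L (3 * P.L) g' :=
    dependsOn_nn b (t + P.L + P.ℓ) P.L (3 * P.L) (hsub _ _ (by omega) (by omega))
  simp only [dB, h1, h2, h3]

/-- **Large gain with probability `≥ 1/4`.** Proof. `strip_gap` at time `t + L` with `W = M = 4w`:
`max … - Y_0 ≥ K/2` with probability `≥ 3/8` (`IsW (t + L) b` from `IsW t b`). By Markov's inequality and `integral_nn_le`
(`S = 3 L`) `P(2 (nn + nn) + 2 L log 2 > K/4) ≤ (4 bound + 2 L log 2) * 4 / K ≤ 1/8` by `hP.noise`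
(`nn ≥ 0`). On the intersection `dB ≥ K/2 - K/4`. -/
lemma dB_large (hμ : EM μ) (hpq : p < q) (hk : 0 < kmin μ p q) (hP : P.Ok μ p q) {b : ℕ → ℤ} {t : ℕ}
    (hb : IsW t b) : 1 / 4 ≤ (law μ).real {g | P.K / 4 ≤ dB P b t g} := by
  have hb' : IsW (t + P.L) b := fun u hu => hb u (by omega)
  have hw := hP.w1
  have hK0 := hP.K0
  have s1 : 3 / 8 ≤ (law μ).real {g | P.K / 2 ≤ max (YY b (t + P.L) P.ℓ (4 * P.w) (4 * P.w) g)
      (YY b (t + P.L) P.ℓ (4 * P.w) (-(4 * P.w)) g) - YY b (t + P.L) P.ℓ (4 * P.w) 0 g} := by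
    refine strip_gap hμ hpq hk hb' hP.ℓ1 (by omega) (M := 4 * (P.w : ℤ)) (by push_cast; rfl)
      (by linarith) ?_
    have := hP.Kℓ
    push_cast
    exact this
  set N : Env → ℝ := fun g => 2 * (nn b t P.L (3 * P.L) g + nn b (t + P.L + P.ℓ) P.L (3 * P.L) g) +
    2 * P.L * Real.log 2 with hN
  have hN0 : ∀ g, 0 ≤ N g := by
    intro g
    have h1 := nn_nonneg b t P.L (3 * P.L) g
    have h2 := nn_nonneg b (t + P.L + P.ℓ) P.L (3 * P.L) g
    have h3 : 0 ≤ Real.log 2 := Real.log_nonneg (by norm_num)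
    rw [hN]
    positivity
  have i1 := (EMom_nn hμ b t P.L (3 * P.L)).integrable
  have i2 := (EMom_nn hμ b (t + P.L + P.ℓ) P.L (3 * P.L)).integrable
  have hNi : Integrable N (law μ) := ((i1.add i2).const_mul 2).add (integrable_const _)
  have hNint : ∫ g, N g ∂(law μ) ≤ P.K / 32 := by
    have e1 : ∫ g, N g ∂(law μ) = 2 * (∫ g, nn b t P.L (3 * P.L) g ∂(law μ) +
        ∫ g, nn b (t + P.L + P.ℓ) P.L (3 * P.L) g ∂(law μ)) + 2 * P.L * Real.log 2 := by
      have i3 : Integrable (fun g => 2 * (nn b t P.L (3 * P.L) g +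
          nn b (t + P.L + P.ℓ) P.L (3 * P.L) g)) (law μ) := (i1.add i2).const_mul 2
      have i4 : Integrable (fun _ : Env => 2 * (P.L : ℝ) * Real.log 2) (law μ) :=
        integrable_const _
      have i5 := integral_add i3 i4
      have i6 := integral_add i1 i2
      simp only [integral_const_mul, integral_const, probReal_univ, one_smul] at i5
      rw [i6] at i5
      exact i5
    have b1 := integral_nn_le hμ b t P.L (3 * P.L)
    have b2 := integral_nn_le hμ b (t + P.L + P.ℓ) P.L (3 * P.L)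
    have e2 : (2 * (2 * ((3 * P.L : ℕ) : ℝ) + 1)) = 2 * (6 * P.L + 1) := by
      push_cast
      ring
    rw [e2] at b1 b2
    have hn := hP.noise
    rw [e1]
    linarith
  have hM := mul_meas_ge_le_integral_of_nonneg (μ := law μ) (f := N)
    (Filter.Eventually.of_forall hN0) hNi (P.K / 4)
  have hNP : (law μ).real {g | P.K / 4 ≤ N g} ≤ 1 / 8 := by
    have h1 : P.K / 4 * (law μ).real {g | P.K / 4 ≤ N g} ≤ P.K / 4 * (1 / 8) := by
      refine (hM.trans hNint).trans (le_of_eq ?_)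
      ring
    exact le_of_mul_le_mul_left h1 (by linarith)
  have hsub : {g | P.K / 2 ≤ max (YY b (t + P.L) P.ℓ (4 * P.w) (4 * P.w) g)
      (YY b (t + P.L) P.ℓ (4 * P.w) (-(4 * P.w)) g) - YY b (t + P.L) P.ℓ (4 * P.w) 0 g} ⊆
      {g | P.K / 4 ≤ dB P b t g} ∪ {g | P.K / 4 ≤ N g} := by
    intro g hg
    by_cases h : P.K / 4 ≤ N g
    · exact Or.inr h
    · left
      have hg' : P.K / 2 ≤ max (YY b (t + P.L) P.ℓ (4 * P.w) (4 * P.w) g)
        (YY b (t + P.L) P.ℓ (4 * P.w) (-(4 * P.w)) g) - YY b (t + P.L) P.ℓ (4 * P.w) 0 g := hg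
      rw [not_le, hN] at h
      simp only at h
      show P.K / 4 ≤ dB P b t g
      unfold dB
      refine le_trans ?_ (le_max_right _ _)
      linarith
  have h1 := (measureReal_mono (μ := law μ) hsub).trans (measureReal_union_le _ _)
  linarith

/-- Numerical constants: `2^{1/K} (3/4 + e^{-1/4}/4) ≤ e^{-1/20}` for `K ≥ 1000`. Proof.
`2^{1/K} ≤ e^{0.7/1000}` (`log 2 < 0.7`), `e^{-1/4} ≤ 0.7789` (e.g. `Real.exp_bound'` or
`e^{1/4} ≥ 1 + 1/4 + 1/32 + 1/384 ≥ 1.2839`), so the bracket is `≤ 0.9448`, and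
`0.9448 * e^{0.0007} ≤ 0.9455 ≤ 0.9512 ≤ e^{-1/20}` (`e^{x} ≥ 1 + x`-type bounds:
`e^{-1/20} ≥ 1 - 1/20 = 0.95`). -/
lemma gap_num {K : ℝ} (hK : 1000 ≤ K) :
    (2 : ℝ) ^ (1 / K) * (3 / 4 + Real.exp (-(1 / 4)) / 4) ≤ Real.exp (-(1 / 20)) := by
  have hK0 : 0 < K := by linarith
  have h1 : (2 : ℝ) ^ (1 / K) ≤ Real.exp (7 / 10000) := by
    rw [Real.rpow_def_of_pos (by norm_num)]
    refine Real.exp_le_exp.2 ?_
    have hl := Real.log_two_lt_d9
    rw [mul_one_div, div_le_iff₀ hK0]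
    linarith
  have h2 : Real.exp (7 / 10000) ≤ 1 / (1 - 7 / 10000) := by
    have h3 := Real.one_sub_le_exp_neg (7 / 10000 : ℝ)
    rw [le_div_iff₀ (by norm_num)]
    calc Real.exp (7 / 10000) * (1 - 7 / 10000) ≤ Real.exp (7 / 10000) * Real.exp (-(7 / 10000)) :=
          mul_le_mul_of_nonneg_left h3 (Real.exp_pos _).le
      _ = 1 := by rw [← Real.exp_add]; simp
  have h4 : Real.exp (-(1 / 4)) ≤ 781 / 1000 := by
    have h5 := Real.quadratic_le_exp_of_nonneg (show (0 : ℝ) ≤ 1 / 4 by norm_num)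
    have h6 : Real.exp (-(1 / 4)) * Real.exp (1 / 4) = 1 := by rw [← Real.exp_add]; simp
    have h7 := Real.exp_pos (-(1 / 4) : ℝ)
    norm_num at h5
    nlinarith
  have h8 : (1 : ℝ) - 1 / 20 ≤ Real.exp (-(1 / 20)) := Real.one_sub_le_exp_neg _
  have h9 : 0 < Real.exp (-(1 / 4) : ℝ) := Real.exp_pos _
  refine le_trans ?_ h8
  calc (2 : ℝ) ^ (1 / K) * (3 / 4 + Real.exp (-(1 / 4)) / 4)
      ≤ 1 / (1 - 7 / 10000) * (3 / 4 + 781 / 1000 / 4) := by
        refine mul_le_mul (h1.trans h2) (by linarith) (by positivity) (by norm_num)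
    _ ≤ 1 - 1 / 20 := by norm_num

/-- the factor of a block -/
def Gap_f (P : Prm) (b : ℕ → ℤ) (t : ℕ) (g : Env) : ℝ :=
  (Real.exp (-dB P b t g) + Real.exp (-(P.K / 4))) ^ (1 / P.K)

lemma Gap_f_nonneg (P : Prm) (b : ℕ → ℤ) (t : ℕ) (g : Env) : 0 ≤ Gap_f P b t g :=
  Real.rpow_nonneg (add_pos (Real.exp_pos _) (Real.exp_pos _)).le _

lemma Gap_f_measurable (P : Prm) (b : ℕ → ℤ) (t : ℕ) : Measurable (Gap_f P b t) := by
  unfold Gap_f
  exact ((Real.measurable_exp.comp (measurable_dB P b t).neg).add_const _).pow_const _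

lemma Gap_f_le (hK : 0 < P.K) (b : ℕ → ℤ) (t : ℕ) (g : Env) :
    Gap_f P b t g ≤ (2 : ℝ) ^ (1 / P.K) := by
  unfold Gap_f
  refine Real.rpow_le_rpow (add_pos (Real.exp_pos _) (Real.exp_pos _)).le ?_ (by positivity)
  have h1 : Real.exp (-dB P b t g) ≤ 1 := Real.exp_le_one_iff.2 (by linarith [dB_nonneg P b t g])
  have h2 : Real.exp (-(P.K / 4)) ≤ 1 := Real.exp_le_one_iff.2 (by linarith)
  linarith

lemma Gap_f_le' (hK : 0 < P.K) {b : ℕ → ℤ} {t : ℕ} {g : Env} (h : P.K / 4 ≤ dB P b t g) :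
    Gap_f P b t g ≤ (2 : ℝ) ^ (1 / P.K) * Real.exp (-(1 / 4)) := by
  unfold Gap_f
  have e1 : (2 : ℝ) ^ (1 / P.K) * Real.exp (-(1 / 4)) =
      (2 * Real.exp (-(P.K / 4))) ^ (1 / P.K) := by
    rw [Real.mul_rpow (by norm_num) (Real.exp_pos _).le, ← Real.exp_mul]
    congr 2
    field_simp
  rw [e1]
  refine Real.rpow_le_rpow (add_pos (Real.exp_pos _) (Real.exp_pos _)).le ?_ (by positivity)
  have h1 : Real.exp (-dB P b t g) ≤ Real.exp (-(P.K / 4)) := Real.exp_le_exp.2 (by linarith)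
  linarith

/-- One block. Proof. On `{K/4 ≤ dB}`: `(e^{-d} + e^{-K/4})^{1/K} ≤ (2 e^{-K/4})^{1/K} = 2^{1/K} e^{-1/4}`;
elsewhere `≤ 2^{1/K}` (`d ≥ 0`). With the probability `a ≥ 1/4` of the event the integral is at
most `2^{1/K} (1 - a + a e^{-1/4}) ≤ 2^{1/K} (3/4 + e^{-1/4}/4)`; `gap_num`. -/
lemma gap_one (hμ : EM μ) (hpq : p < q) (hk : 0 < kmin μ p q) (hP : P.Ok μ p q) {b : ℕ → ℤ} {t : ℕ}
    (hb : IsW t b) :
    ∫ g, (Real.exp (-dB P b t g) + Real.exp (-(P.K / 4))) ^ (1 / P.K) ∂(law μ) ≤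
      Real.exp (-(1 / 20)) := by
  have hK0 := hP.K0
  have hK : 0 < P.K := by linarith
  change ∫ g, Gap_f P b t g ∂(law μ) ≤ _
  set E : Set Env := {g | P.K / 4 ≤ dB P b t g} with hE
  have hEm : MeasurableSet E := measurableSet_le measurable_const (measurable_dB P b t)
  have hPE : 1 / 4 ≤ (law μ).real E := dB_large hμ hpq hk hP hb
  set c : ℝ := (2 : ℝ) ^ (1 / P.K) with hc
  have hc0 : 0 < c := Real.rpow_pos_of_pos (by norm_num) _
  have he1 : Real.exp (-(1 / 4) : ℝ) ≤ 1 := Real.exp_le_one_iff.2 (by norm_num)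
  have hpt : ∀ g, Gap_f P b t g ≤
      c * (1 - (1 - Real.exp (-(1 / 4))) * E.indicator (1 : Env → ℝ) g) := by
    intro g
    by_cases hg : g ∈ E
    · rw [Set.indicator_of_mem hg]
      refine (Gap_f_le' hK hg).trans (le_of_eq ?_)
      simp only [Pi.one_apply]
      ring
    · rw [Set.indicator_of_notMem hg]
      refine (Gap_f_le hK b t g).trans (le_of_eq ?_)
      ring
  have hfi : Integrable (Gap_f P b t) (law μ) := by
    refine Integrable.of_bound (Gap_f_measurable P b t).aestronglyMeasurable c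
      (Filter.Eventually.of_forall fun g => ?_)
    rw [Real.norm_eq_abs, abs_of_nonneg (Gap_f_nonneg P b t g)]
    exact Gap_f_le hK b t g
  have hii : Integrable (E.indicator (1 : Env → ℝ)) (law μ) :=
    (integrable_const (1 : ℝ)).indicator hEm
  have h1 : ∫ g, Gap_f P b t g ∂(law μ) ≤
      ∫ g, c * (1 - (1 - Real.exp (-(1 / 4))) * E.indicator (1 : Env → ℝ) g) ∂(law μ) :=
    integral_mono hfi (((integrable_const _).sub (hii.const_mul _)).const_mul c) hpt
  rw [integral_const_mul, integral_sub (integrable_const _) (hii.const_mul _), integral_const_mul,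
    integral_indicator_one hEm, integral_const, probReal_univ, one_smul] at h1
  refine h1.trans ?_
  refine le_trans ?_ (gap_num hK0)
  refine mul_le_mul_of_nonneg_left ?_ hc0.le
  nlinarith

/-- Product of functions of disjoint blocks of rows. Proof. Induction on `J` with
`integral_mul_indep` (`A = rows k (k + J TB)`); the functions are bounded and measurable. -/
lemma gap_indep {F : ℕ → Env → ℝ} {k B : ℕ} {C : ℝ} (hF : ∀ i, Measurable (F i))
    (hb : ∀ i g, |F i g| ≤ C) (hd : ∀ i, DependsOn (F i) (rows (k + i * B) (k + (i + 1) * B)))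
    (J : ℕ) : ∫ g, ∏ i ∈ range J, F i g ∂(law μ) = ∏ i ∈ range J, ∫ g, F i g ∂(law μ) := by
  have _ := hb
  induction J with
  | zero => simp
  | succ J ih =>
    simp only [Finset.prod_range_succ]
    rw [integral_mul_indep (rows k (k + J * B)) (Finset.measurable_prod _ fun i _ => hF i) (hF J) ?_ ?_,
      ih]
    · intro g g' h
      refine Finset.prod_congr rfl fun i hi => ?_
      refine hd i fun p hp => h p ⟨(Nat.le_add_right _ _).trans hp.1, hp.2.trans_le ?_⟩
      have : (i + 1) * B ≤ J * B := Nat.mul_le_mul_right _ (Finset.mem_range.1 hi)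
      omega
    · refine DependsOn.mono ?_ (hd J)
      intro p hp hp'
      exact absurd hp'.2 (not_lt.2 hp.1)

/-- **The product is small with high probability.** Proof. `X = ∏_{i<I} (…)^{1/K}` has
`∫ X ≤ e^{-I/20}` (`gap_indep`, `gap_one`, `Finset.prod_le_prod`). By Markov
`P(X > e^{-I/40}) ≤ e^{-I/40}`, and `∏ (…) > e^{-K I / 40}` implies `X > e^{-I/40}`
(`Real.finsetProd_rpow`, monotonicity of `x ↦ x^{1/K}`). -/
theorem gap_prod (hμ : EM μ) (hpq : p < q) (hk : 0 < kmin μ p q) (hP : P.Ok μ p q) {b : ℕ → ℤ}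
    {k : ℕ} (hb : IsW k b) :
    (law μ).real {g | Real.exp (-(P.K * P.I / 40)) <
        ∏ i ∈ range P.I, (Real.exp (-dB P b (k + i * P.TB) g) + Real.exp (-(P.K / 4)))} ≤
      Real.exp (-(P.I : ℝ) / 40) := by
  have hK0 := hP.K0
  have hK : 0 < P.K := by linarith
  set X : Env → ℝ := fun g => ∏ i ∈ range P.I, Gap_f P b (k + i * P.TB) g with hX
  have hX0 : ∀ g, 0 ≤ X g := fun g => Finset.prod_nonneg fun i _ => Gap_f_nonneg P b _ g
  have hXm : Measurable X := Finset.measurable_prod _ fun i _ => Gap_f_measurable P b _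
  have hXi : Integrable X (law μ) := by
    refine Integrable.of_bound hXm.aestronglyMeasurable (((2 : ℝ) ^ (1 / P.K)) ^ P.I)
      (Filter.Eventually.of_forall fun g => ?_)
    rw [Real.norm_eq_abs, abs_of_nonneg (hX0 g), hX]
    refine (Finset.prod_le_prod (fun i _ => Gap_f_nonneg P b _ g)
      fun i _ => Gap_f_le hK b (k + i * P.TB) g).trans (le_of_eq ?_)
    rw [Finset.prod_const, Finset.card_range]
  have hXint : ∫ g, X g ∂(law μ) ≤ Real.exp (-(P.I : ℝ) / 20) := by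
    have h1 : ∫ g, X g ∂(law μ) = ∏ i ∈ range P.I, ∫ g, Gap_f P b (k + i * P.TB) g ∂(law μ) := by
      refine gap_indep (F := fun i => Gap_f P b (k + i * P.TB)) (k := k) (B := P.TB)
        (C := (2 : ℝ) ^ (1 / P.K)) (fun i => Gap_f_measurable P b _) (fun i g => ?_) (fun i => ?_) P.I
      · rw [abs_of_nonneg (Gap_f_nonneg P b _ g)]
        exact Gap_f_le hK b _ g
      · intro g g' h
        have h2 : dB P b (k + i * P.TB) g = dB P b (k + i * P.TB) g' := by
          refine dependsOn_dB P b (k + i * P.TB) fun p hp => h p ?_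
          have h3 : k + i * P.TB + P.TB = k + (i + 1) * P.TB := by ring
          rw [h3] at hp
          exact hp
        unfold Gap_f
        rw [h2]
    rw [h1]
    calc ∏ i ∈ range P.I, ∫ g, Gap_f P b (k + i * P.TB) g ∂(law μ)
        ≤ ∏ i ∈ range P.I, Real.exp (-(1 / 20)) := by
          refine Finset.prod_le_prod (fun i _ => integral_nonneg fun g => Gap_f_nonneg P b _ g)
            fun i _ => ?_
          exact gap_one hμ hpq hk hP (fun u hu => hb u ((Nat.le_add_right _ _).trans hu))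
      _ = Real.exp (-(P.I : ℝ) / 20) := by
          rw [Finset.prod_const, Finset.card_range, ← Real.exp_nat_mul]
          congr 1
          ring
  have hM := mul_meas_ge_le_integral_of_nonneg (μ := law μ) (f := X)
    (Filter.Eventually.of_forall hX0) hXi (Real.exp (-(P.I : ℝ) / 40))
  have hMM : (law μ).real {g | Real.exp (-(P.I : ℝ) / 40) ≤ X g} ≤ Real.exp (-(P.I : ℝ) / 40) := by
    have h1 : Real.exp (-(P.I : ℝ) / 40) * (law μ).real {g | Real.exp (-(P.I : ℝ) / 40) ≤ X g} ≤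
        Real.exp (-(P.I : ℝ) / 40) * Real.exp (-(P.I : ℝ) / 40) := by
      refine (hM.trans hXint).trans (le_of_eq ?_)
      rw [← Real.exp_add]
      congr 1
      ring
    exact le_of_mul_le_mul_left h1 (Real.exp_pos _)
  refine le_trans (measureReal_mono ?_ (measure_ne_top _ _)) hMM
  intro g hg
  have hg' : Real.exp (-(P.K * P.I / 40)) <
        ∏ i ∈ range P.I, (Real.exp (-dB P b (k + i * P.TB) g) + Real.exp (-(P.K / 4))) := hg
  show Real.exp (-(P.I : ℝ) / 40) ≤ X g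
  have h1 : X g = (∏ i ∈ range P.I, (Real.exp (-dB P b (k + i * P.TB) g) +
      Real.exp (-(P.K / 4)))) ^ (1 / P.K) := by
    rw [hX]
    simp only [Gap_f]
    exact Real.finsetProd_rpow _ _ (fun i _ => (add_pos (Real.exp_pos _) (Real.exp_pos _)).le) _
  have h2 : Real.exp (-(P.I : ℝ) / 40) = Real.exp (-(P.K * P.I / 40)) ^ (1 / P.K) := by
    rw [← Real.exp_mul]
    congr 1
    field_simp
  rw [h1, h2]
  exact Real.rpow_le_rpow (Real.exp_pos _).le hg'.le (by positivity)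

end

end Pool.Agent.W_7d29a1_h47
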