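import Pool.Agent.W_7d29a1_h47.Env

/-!
# The Harris inequality
-/

namespace Pool.Agent.W_7d29a1_h47

open MeasureTheory ProbabilityTheory Finset

noncomputable section

variable {μ : Measure ℝ} [IsProbabilityMeasure μ]

/-- bounded measurable functions are integrable -/
lemma Har_int {Ω : Type*} [MeasurableSpace Ω] {P : Measure Ω} [IsFiniteMeasure P] {F : Ω → ℝ}
    (hF : Measurable F) {a : ℝ} (ha : ∀ u, |F u| ≤ a) : Integrable F P :=
  Integrable.of_bound hF.aestronglyMeasurable a (Filter.Eventually.of_forall ha)

lemma Har_mul {Ω : Type*} {F G : Ω → ℝ} {a b : ℝ} (ha : ∀ u, |F u| ≤ a) (hb : ∀ u, |G u| ≤ b) :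
    ∀ u, |F u * G u| ≤ a * b := by
  intro u
  rw [abs_mul]
  exact mul_le_mul (ha u) (hb u) (abs_nonneg _) ((abs_nonneg _).trans (ha u))

/-- Chebyshev's correlation inequality for one variable. Proof. For all `u, u'`:
`(F u - F u') * (G u - G u') ≤ 0`; integrate over `μ ⊗ μ` (all functions are bounded and measurable):
`2 ∫ F G - 2 ∫ F ∫ G ≤ 0`. -/
lemma har_one {F G : ℝ → ℝ} (hF : Antitone F) (hG : Monotone G) {a b : ℝ} (ha : ∀ u, |F u| ≤ a)
    (hb : ∀ u, |G u| ≤ b) :
    ∫ u, F u * G u ∂μ ≤ (∫ u, F u ∂μ) * ∫ u, G u ∂μ := by
  have hFi : Integrable F μ := Har_int hF.measurable ha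
  have hGi : Integrable G μ := Har_int hG.measurable hb
  have hFGi : Integrable (fun u => F u * G u) μ :=
    Har_int (hF.measurable.mul hG.measurable) (Har_mul ha hb)
  set mF := ∫ u, F u ∂μ with hmF
  set mG := ∫ u, G u ∂μ with hmG
  set m := ∫ u, F u * G u ∂μ with hm
  have h1 : ∀ u, F u * G u - F u * mG - (mF * G u - m) ≤ 0 := by
    intro u
    have e : ∫ u', ((F u * G u - F u * G u') - (F u' * G u - F u' * G u')) ∂μ =
        F u * G u - F u * mG - (mF * G u - m) := by
      have i1 : Integrable (fun u' => F u * G u - F u * G u') μ :=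
        (integrable_const _).sub (hGi.const_mul _)
      have i2 : Integrable (fun u' => F u' * G u - F u' * G u') μ := (hFi.mul_const _).sub hFGi
      rw [integral_sub i1 i2, integral_sub (integrable_const _) (hGi.const_mul _),
        integral_sub (hFi.mul_const _) hFGi, integral_const, integral_const_mul,
        integral_mul_const]
      simp only [probReal_univ, one_smul]
      rfl
    rw [← e]
    refine integral_nonpos fun u' => ?_
    have e2 : (F u * G u - F u * G u') - (F u' * G u - F u' * G u') =
        (F u - F u') * (G u - G u') := by ring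
    change (F u * G u - F u * G u') - (F u' * G u - F u' * G u') ≤ 0
    rw [e2]
    rcases le_total u u' with h | h
    · exact mul_nonpos_of_nonneg_of_nonpos (sub_nonneg.2 (hF h)) (sub_nonpos.2 (hG h))
    · exact mul_nonpos_of_nonpos_of_nonneg (sub_nonpos.2 (hF h)) (sub_nonneg.2 (hG h))
  have h2 : ∫ u, (F u * G u - F u * mG - (mF * G u - m)) ∂μ ≤ 0 := integral_nonpos h1
  have i3 : Integrable (fun u => F u * G u - F u * mG) μ := hFGi.sub (hFi.mul_const _)
  have i4 : Integrable (fun u => mF * G u - m) μ := (hGi.const_mul _).sub (integrable_const _)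
  rw [integral_sub i3 i4,
    integral_sub hFGi (hFi.mul_const _), integral_sub (hGi.const_mul _) (integrable_const _),
    integral_const, integral_const_mul, integral_mul_const, ← hm, ← hmF, ← hmG] at h2
  simp only [probReal_univ, one_smul] at h2
  linarith

/-- averaging over one site -/
def Har_av (μ : Measure ℝ) (z : ℕ × ℤ) (F : Env → ℝ) (g : Env) : ℝ :=
  ∫ u, F (Function.update g z u) ∂μ

lemma Har_upd (z : ℕ × ℤ) :
    Measurable (fun w : Env × ℝ => Function.update w.1 z w.2) :=
  (mp_update (μ := Measure.dirac 0) z).measurable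

lemma Har_av_meas (z : ℕ × ℤ) {F : Env → ℝ} (hF : Measurable F) :
    Measurable (Har_av μ z F) := by
  have h1 : StronglyMeasurable (fun w : Env × ℝ => F (Function.update w.1 z w.2)) :=
    (hF.comp (Har_upd z)).stronglyMeasurable
  exact (h1.integral_prod_right' (ν := μ)).measurable

lemma Har_av_bd (z : ℕ × ℤ) {F : Env → ℝ} {a : ℝ} (ha : ∀ g, |F g| ≤ a) (g : Env) :
    |Har_av μ z F g| ≤ a := by
  have h := norm_integral_le_of_norm_le_const (μ := μ)
    (f := fun u => F (Function.update g z u)) (C := a)
    (Filter.Eventually.of_forall fun u => ha _)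
  rw [probReal_univ, mul_one] at h
  exact h

lemma Har_meas1 (z : ℕ × ℤ) {F : Env → ℝ} (hF : Measurable F) (g : Env) :
    Measurable (fun u : ℝ => F (Function.update g z u)) := by
  have h1 : Measurable (fun u : ℝ => Function.update g z u) :=
    (Har_upd z).comp (measurable_const.prodMk measurable_id)
  exact hF.comp h1

lemma Har_av_int (z : ℕ × ℤ) {F : Env → ℝ} (hF : Measurable F) {a : ℝ} (ha : ∀ g, |F g| ≤ a) :
    ∫ g, Har_av μ z F g ∂(law μ) = ∫ g, F g ∂(law μ) :=
  (integral_update z (Har_int hF ha)).symm

open Classical in
/-- **Harris inequality.** `G` depends only on the sites of the finite set `D` and is nondecreasing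
in each of them, `F` is nonincreasing in each site of `D` (and arbitrary in the others).
Proof. Induction on `D`, for all `F, G`. `D = ∅`: `G` is constant (`DependsOn` with the empty set). Step
`D = insert z D'`: by `integral_update z` and `har_one` (for fixed `g`, with `F (update g z u)`,
`G (update g z u)`) `∫ F G ≤ ∫ F' G'` with `F' g = ∫ F (update g z u) dμ(u)`,
`G' g = ∫ G (update g z u) dμ(u)`. `F'`, `G'` are measurable (`StronglyMeasurable.integral_prod_right` or
`Measurable.integral…` for `(g, u) ↦ update g z u`, see `mp_update`), have the same bounds, `G'`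
depends only on `D'` (if `g = g'` on `D'` then `update g z u = update g' z u` on `insert z D'`),
`G'` is nondecreasing and `F'` nonincreasing in the sites `y ∈ D'` (for `y ≠ z`:
`update (update g y s) z u = update (update g z u) y s`, `Function.update_comm`). Induction
hypothesis: `∫ F' G' ≤ ∫ F' ∫ G' = ∫ F ∫ G`. -/
theorem harris (D : Finset (ℕ × ℤ)) {F G : Env → ℝ} (hF : Measurable F) (hG : Measurable G)
    {a b : ℝ} (ha : ∀ g, |F g| ≤ a) (hb : ∀ g, |G g| ≤ b)
    (hFa : ∀ z ∈ D, ∀ g : Env, Antitone fun u : ℝ => F (Function.update g z u))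
    (hGm : ∀ z ∈ D, ∀ g : Env, Monotone fun u : ℝ => G (Function.update g z u))
    (hGd : DependsOn G (D : Set (ℕ × ℤ))) :
    ∫ g, F g * G g ∂(law μ) ≤ (∫ g, F g ∂(law μ)) * ∫ g, G g ∂(law μ) := by
  induction D using Finset.induction_on generalizing F G with
  | empty =>
    have h1 : ∀ g, G g = G 0 := fun g => hGd fun i hi => absurd hi (by simp)
    have h2 : ∫ g, F g * G g ∂(law μ) = (∫ g, F g ∂(law μ)) * G 0 := by
      rw [← integral_mul_const]
      exact integral_congr_ae (Filter.Eventually.of_forall fun g => by
        change F g * G g = F g * G 0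
        rw [h1 g])
    have h3 : ∫ g, G g ∂(law μ) = G 0 := by
      have e : (fun g => G g) = fun _ => G 0 := funext h1
      rw [e, integral_const, probReal_univ, one_smul]
    rw [h2, h3]
  | insert z D hz ih =>
    have hFG : Measurable (fun g => F g * G g) := hF.mul hG
    have h1 : ∫ g, F g * G g ∂(law μ) = ∫ g, Har_av μ z (fun g => F g * G g) g ∂(law μ) :=
      (Har_av_int z hFG (Har_mul ha hb)).symm
    have h2 : ∫ g, Har_av μ z (fun g => F g * G g) g ∂(law μ) ≤
        ∫ g, Har_av μ z F g * Har_av μ z G g ∂(law μ) := by
      refine integral_mono (Har_int (Har_av_meas z hFG) (Har_av_bd z (Har_mul ha hb)))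
        (Har_int ((Har_av_meas z hF).mul (Har_av_meas z hG))
          (Har_mul (Har_av_bd z ha) (Har_av_bd z hb))) fun g => ?_
      exact har_one (hFa z (Finset.mem_insert_self _ _) g) (hGm z (Finset.mem_insert_self _ _) g)
        (fun u => ha _) (fun u => hb _)
    have h3 := ih (Har_av_meas (μ := μ) z hF) (Har_av_meas (μ := μ) z hG) (Har_av_bd z ha)
      (Har_av_bd z hb)
      (fun y hy g s t hst => by
        have hyz : y ≠ z := fun h => hz (h ▸ hy)
        refine integral_mono (Har_int (Har_meas1 z hF _) (fun u => ha _))
          (Har_int (Har_meas1 z hF _) (fun u => ha _)) fun u => ?_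
        change F (Function.update (Function.update g y t) z u) ≤
          F (Function.update (Function.update g y s) z u)
        rw [Function.update_comm hyz, Function.update_comm hyz]
        exact hFa y (Finset.mem_insert_of_mem hy) (Function.update g z u) hst)
      (fun y hy g s t hst => by
        have hyz : y ≠ z := fun h => hz (h ▸ hy)
        refine integral_mono (Har_int (Har_meas1 z hG _) (fun u => hb _))
          (Har_int (Har_meas1 z hG _) (fun u => hb _)) fun u => ?_
        change G (Function.update (Function.update g y s) z u) ≤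
          G (Function.update (Function.update g y t) z u)
        rw [Function.update_comm hyz, Function.update_comm hyz]
        exact hGm y (Finset.mem_insert_of_mem hy) (Function.update g z u) hst)
      (fun g g' hgg => by
        refine integral_congr_ae (Filter.Eventually.of_forall fun u => ?_)
        refine hGd fun i hi => ?_
        by_cases hiz : i = z
        · rw [hiz, Function.update_self, Function.update_self]
        · rw [Function.update_of_ne hiz, Function.update_of_ne hiz]
          refine hgg i ?_
          rw [Finset.coe_insert] at hi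
          exact hi.resolve_left hiz)
    rw [Har_av_int z hF ha, Har_av_int z hG hb] at h3
    rw [h1]
    exact h2.trans h3

end

end Pool.Agent.W_7d29a1_h47
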