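import Pool.Agent.W_7d29a1_h47q.Gap
import Pool.Agent.W_7d29a1_h47q.Compo
import Pool.Agent.W_7d29a1_h47.Block

/-!
# The probability of the bad increasing event
-/

namespace Pool.Agent.W_7d29a1_h47

open MeasureTheory ProbabilityTheory Finset

noncomputable section

variable {P : Prm} {μ : Measure ℝ} [IsProbabilityMeasure μ] {p q : ℝ}

lemma IncA_kmin (p q : ℝ) : kmin μ p q ≤ 1 / 4 := by
  unfold kmin
  have h1 : 0 ≤ min (μ.real (Set.Iic p)) (μ.real (Set.Ici q)) :=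
    le_min measureReal_nonneg measureReal_nonneg
  have h2 : min (μ.real (Set.Iic p)) (μ.real (Set.Ici q)) ≤ 1 :=
    (min_le_left _ _).trans measureReal_le_one
  have h3 : 1 - Real.exp (-((q - p) / 2)) ≤ 1 := by
    have := Real.exp_pos (-((q - p) / 2))
    linarith
  have h4 := mul_le_mul_of_nonneg_right h3 h1
  linarith

lemma IncA_KI (hP : P.Ok μ p q) : P.K * P.I ≤ P.R := by
  have hℓ : (1 : ℝ) ≤ P.ℓ := by exact_mod_cast hP.ℓ1
  have hw : (1 : ℝ) ≤ P.w := by exact_mod_cast hP.w1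
  have hK0 := hP.K0
  have h1 : (1 : ℝ) ≤ Real.sqrt (P.ℓ * (4 * P.w)) := by
    rw [Real.one_le_sqrt]
    nlinarith
  have h2 : P.K ≤ P.K * Real.sqrt (P.ℓ * (4 * P.w)) :=
    le_mul_of_one_le_right (by linarith) h1
  have h3 : kmin μ p q * P.ℓ / 8 ≤ P.ℓ := by
    have := mul_le_mul_of_nonneg_right (IncA_kmin (μ := μ) p q) (by linarith : (0 : ℝ) ≤ P.ℓ)
    linarith
  have h4 : P.K ≤ P.ℓ := h2.trans (hP.Kℓ.trans h3)
  have h5 : P.K * P.I ≤ P.ℓ * P.I := mul_le_mul_of_nonneg_right h4 (Nat.cast_nonneg _)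
  have h6 : P.ℓ * P.I ≤ P.R := by
    have hR : P.R = P.I * P.TB + P.TB := by unfold Prm.R; rw [Nat.add_mul, one_mul]
    have hTB : P.ℓ ≤ P.TB := by
      have : P.TB = P.L + P.ℓ + P.L := rfl
      omega
    have h7 := Nat.mul_le_mul_left P.I hTB
    rw [hR, mul_comm]
    omega
  have h7 : (P.ℓ : ℝ) * P.I ≤ P.R := by exact_mod_cast h6
  linarith

lemma IncA_R (hP : P.Ok μ p q) : (1 : ℝ) ≤ P.R := by
  have h1 := IncA_KI hP
  have h2 : (1 : ℝ) ≤ P.I := by exact_mod_cast hP.I1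
  have h3 := hP.K0
  nlinarith

/-- Upper deviations of a point-to-point partition function. Proof. With
`θ = K I / (2^9 (Cc + 1) R)`: `0 < θ ≤ 1`, because `K √(4 w ℓ) ≤ kmin ℓ / 8 ≤ ℓ / 32` (`kmin ≤ 1/4`) gives
`K ≤ ℓ` (`4 w ℓ ≥ 1`) and so `K I ≤ ℓ I ≤ R`. Markov: `P(Kp > e^{RΛ + KI/256}) ≤
e^{-θ (RΛ + KI/256)} ∫ Kp^θ ≤ e^{Cc θ² R - θ K I/256}` (`integral_Kp_rpow` with `h' = h`, `b = 0`), and
`Cc θ² R - θ K I / 256 ≤ (Cc+1) θ² R - 2 (Cc+1) θ² R = -(K I)²/(2^18 (Cc+1) R)`. -/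
lemma full_upper (hμ : EM μ) (hP : P.Ok μ p q) (h : ℝ) (k : ℕ) (x y : ℤ) :
    (law μ).real {g | Real.exp (P.R * Lam μ h + P.K * P.I / 256) < Kp g h k x P.R y} ≤
      Real.exp (-((P.K * P.I) ^ 2 / (2 ^ 18 * (Cc μ + 1) * P.R))) := by
  have hR := IncA_R hP
  have hKI := IncA_KI hP
  have hI : (1 : ℝ) ≤ P.I := by exact_mod_cast hP.I1
  have hK0 := hP.K0
  have hC : 0 ≤ Cc μ := by unfold Cc; positivity
  have hKI0 : 0 < P.K * P.I := by positivity
  set D : ℝ := 2 ^ 9 * (Cc μ + 1) * P.R with hD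
  have hD0 : 0 < D := by positivity
  set θ : ℝ := P.K * P.I / D with hθ
  have hθ0 : 0 < θ := div_pos hKI0 hD0
  have hθ1 : θ ≤ 1 := by
    rw [hθ, div_le_one hD0, hD]
    nlinarith [mul_nonneg hC (by linarith : (0 : ℝ) ≤ P.R)]
  have hθD : θ * D = P.K * P.I := by rw [hθ]; field_simp
  set c : ℝ := P.R * Lam μ h + P.K * P.I / 256 with hc
  have hint := integral_Kp_rpow hμ h h 0 k x P.R y hθ0 hθ1
  have hpm : PMom (law μ) (fun g : Env => Real.exp 0 * Kp g h k x P.R y) :=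
    ((PMom_Zp hμ k x P.R y).const_mul _).const_mul _
  have hfi : Integrable (fun g : Env => (Real.exp 0 * Kp g h k x P.R y) ^ θ) (law μ) :=
    Block_rpow_int hpm (fun g => mul_nonneg (Real.exp_pos _).le (Kp_nonneg _ _ _ _ _ _)) hθ0 hθ1
  have hf0 : 0 ≤ᵐ[law μ] (fun g : Env => (Real.exp 0 * Kp g h k x P.R y) ^ θ) :=
    Filter.Eventually.of_forall fun g =>
      Real.rpow_nonneg (mul_nonneg (Real.exp_pos _).le (Kp_nonneg _ _ _ _ _ _)) _
  have hmk := mul_meas_ge_le_integral_of_nonneg hf0 hfi (Real.exp (θ * c))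
  have hsub : {g : Env | Real.exp c < Kp g h k x P.R y} ⊆
      {g : Env | Real.exp (θ * c) ≤ (Real.exp 0 * Kp g h k x P.R y) ^ θ} := by
    intro g hg
    have hg' : Real.exp c < Kp g h k x P.R y := hg
    show Real.exp (θ * c) ≤ (Real.exp 0 * Kp g h k x P.R y) ^ θ
    rw [Real.exp_zero, one_mul, mul_comm, Real.exp_mul]
    exact Real.rpow_le_rpow (Real.exp_pos _).le hg'.le hθ0.le
  have hle : (law μ).real {g : Env | Real.exp c < Kp g h k x P.R y} ≤
      (law μ).real {g : Env | Real.exp (θ * c) ≤ (Real.exp 0 * Kp g h k x P.R y) ^ θ} :=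
    measureReal_mono hsub
  have h1 : Real.exp (θ * c) * (law μ).real {g : Env | Real.exp c < Kp g h k x P.R y} ≤
      Real.exp (θ * (0 - (h - h) * ((y : ℝ) - x) + P.R * Lam μ h) + Cc μ * θ ^ 2 * P.R) :=
    (mul_le_mul_of_nonneg_left hle (Real.exp_pos _).le).trans (hmk.trans hint)
  have h2 : (law μ).real {g : Env | Real.exp c < Kp g h k x P.R y} ≤
      Real.exp (-(θ * c)) *
        Real.exp (θ * (0 - (h - h) * ((y : ℝ) - x) + P.R * Lam μ h) + Cc μ * θ ^ 2 * P.R) := by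
    have h3 := mul_le_mul_of_nonneg_left h1 (Real.exp_pos (-(θ * c))).le
    rwa [← mul_assoc, ← Real.exp_add, neg_add_cancel, Real.exp_zero, one_mul] at h3
  refine h2.trans ?_
  rw [← Real.exp_add]
  refine Real.exp_le_exp.2 ?_
  have h4 : (P.K * P.I) ^ 2 / (2 ^ 18 * (Cc μ + 1) * P.R) = θ ^ 2 * ((Cc μ + 1) * P.R) := by
    rw [← hθD, hD]
    have : (Cc μ + 1) ≠ 0 := by positivity
    have : (P.R : ℝ) ≠ 0 := by positivity
    field_simp
  have h5 : θ * (P.K * P.I / 256) = 2 * (θ ^ 2 * ((Cc μ + 1) * P.R)) := by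
    rw [← hθD, hD]
    ring
  have h6 : 0 ≤ θ ^ 2 * P.R := by positivity
  rw [h4, hc, mul_add, h5]
  nlinarith

/-- The event `Inc` implies one of the two rare events. Proof. If `ZS P h b k g x y > e^{RΛ - KI/128}`
then `ZS ≠ 0`, so `|x - b k| ≤ 2R`, `|y - x| ≤ R` (`ZS_zero`). If the product were
`≤ e^{-KI/40}` and `Kp ≤ e^{RΛ + KI/256}` then by `ZS_le` with `lam = K/4`:
`ZS ≤ e^{KI/128} e^{-KI/40} e^{RΛ + KI/256} ≤ e^{RΛ - KI/128}` (`1/128 + 1/256 + 1/128 ≤ 1/40`),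
contradiction. -/
lemma inc_sub (hP : P.Ok μ p q) {h : ℝ} {b : ℕ → ℤ} {k : ℕ} (hb : IsW k b) {g : Env}
    (hg : Inc P μ h b k g) :
    (Real.exp (-(P.K * P.I / 40)) <
        ∏ i ∈ range P.I, (Real.exp (-dB P b (k + i * P.TB) g) + Real.exp (-(P.K / 4)))) ∨
      ∃ x ∈ Icc (b k - 2 * P.R) (b k + 2 * P.R), ∃ y ∈ Icc (x - P.R) (x + P.R),
        Real.exp (P.R * Lam μ h + P.K * P.I / 256) < Kp g h k x P.R y := by
  obtain ⟨x, y, hxy⟩ := hg
  have hK0 := hP.K0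
  have hL0 : (0 : ℝ) ≤ P.L := Nat.cast_nonneg _
  have h8 : 8 * P.w ≤ P.L := by
    have h1 := hP.ρL
    have h2 := mul_nonneg hP.ρ0 hL0
    have h3 : 8 * (P.w : ℝ) ≤ P.L := by linarith
    exact_mod_cast h3
  have hne : ZS P h b k g x y ≠ 0 := ((Real.exp_pos _).trans hxy).ne'
  obtain ⟨hx, hy⟩ := ZS_zero hb hP.I1 h8 h g hne
  by_contra hcon
  push Not at hcon
  obtain ⟨h1, h2⟩ := hcon
  have h3 := h2 x (by rw [Finset.mem_Icc]; rw [abs_le] at hx; constructor <;> omega) y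
    (by rw [Finset.mem_Icc]; rw [abs_le] at hy; constructor <;> omega)
  have h4 := ZS_le hb hP.w1 hP.ρ0 hP.ρL g h (lam := P.K / 4) (by linarith) x y
  have h5 : (∏ i ∈ range P.I, (Real.exp (-dB P b (k + i * P.TB) g) + Real.exp (-(P.K / 4)))) *
      Kp g h k x P.R y ≤
      Real.exp (-(P.K * P.I / 40)) * Real.exp (P.R * Lam μ h + P.K * P.I / 256) :=
    mul_le_mul h1 h3 (Kp_nonneg _ _ _ _ _ _) (Real.exp_pos _).le
  have h6 := mul_le_mul_of_nonneg_left h5 (Real.exp_pos (P.K / 4 * P.I / 32)).le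
  have h7 := hxy.trans_le (h4.trans h6)
  rw [← Real.exp_add, ← Real.exp_add, Real.exp_lt_exp] at h7
  have h9 : 0 ≤ P.K * P.I := by positivity
  linarith

lemma measurable_ZS (P : Prm) (h : ℝ) (b : ℕ → ℤ) (k : ℕ) (x y : ℤ) :
    Measurable (fun g : Env => ZS P h b k g x y) := by
  unfold ZS
  exact Finset.measurable_sum _ fun r _ => (measurable_wt h k x P.R r).const_mul _

/-- Proof. Countable union over `x, y`. -/
lemma measurableSet_Inc (P : Prm) (μ : Measure ℝ) (h : ℝ) (b : ℕ → ℤ) (k : ℕ) :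
    MeasurableSet {g : Env | Inc P μ h b k g} := by
  have h1 : {g : Env | Inc P μ h b k g} = ⋃ x : ℤ, ⋃ y : ℤ,
      {g : Env | Real.exp (P.R * Lam μ h - P.K * P.I / 128) < ZS P h b k g x y} := by
    ext g
    simp only [Set.mem_iUnion]
    exact Iff.rfl
  rw [h1]
  exact MeasurableSet.iUnion fun x => MeasurableSet.iUnion fun y =>
    measurableSet_lt measurable_const (measurable_ZS P h b k x y)

/-- **`Inc` is rare.** Proof. `inc_sub`, `gap_prod`, union bound over the `(4R+1)(2R+1)` pairs with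
`full_upper` (`measureReal_union_le`, `measureReal_biUnion_finset_le`). -/
theorem inc_le (hμ : EM μ) (hpq : p < q) (hk : 0 < kmin μ p q) (hP : P.Ok μ p q) (h : ℝ) {b : ℕ → ℤ}
    {k : ℕ} (hb : IsW k b) : (law μ).real {g | Inc P μ h b k g} ≤ e1 P μ := by
  set A : Set Env := {g | Real.exp (-(P.K * P.I / 40)) <
        ∏ i ∈ range P.I, (Real.exp (-dB P b (k + i * P.TB) g) + Real.exp (-(P.K / 4)))} with hA
  set B : ℤ → ℤ → Set Env := fun x y =>
    {g | Real.exp (P.R * Lam μ h + P.K * P.I / 256) < Kp g h k x P.R y} with hB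
  set E : ℝ := Real.exp (-((P.K * P.I) ^ 2 / (2 ^ 18 * (Cc μ + 1) * P.R))) with hE
  have hsub : {g | Inc P μ h b k g} ⊆ A ∪ ⋃ x ∈ Icc (b k - 2 * P.R) (b k + 2 * P.R),
      ⋃ y ∈ Icc (x - P.R) (x + P.R), B x y := by
    intro g hg
    rcases inc_sub hP hb hg with h1 | ⟨x, hx, y, hy, h1⟩
    · exact Or.inl h1
    · refine Or.inr ?_
      rw [Set.mem_iUnion₂]
      refine ⟨x, hx, ?_⟩
      rw [Set.mem_iUnion₂]
      exact ⟨y, hy, h1⟩
  have h1 : (law μ).real A ≤ Real.exp (-(P.I : ℝ) / 40) := gap_prod hμ hpq hk hP hb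
  have h2 : (law μ).real (⋃ x ∈ Icc (b k - 2 * P.R) (b k + 2 * P.R),
      ⋃ y ∈ Icc (x - P.R) (x + P.R), B x y) ≤ (4 * P.R + 1) * ((2 * P.R + 1) * E) := by
    refine (measureReal_biUnion_finset_le _ _).trans ?_
    have h3 : ∀ x ∈ Icc (b k - 2 * P.R) (b k + 2 * P.R),
        (law μ).real (⋃ y ∈ Icc (x - P.R) (x + P.R), B x y) ≤ (2 * P.R + 1) * E := by
      intro x _
      refine (measureReal_biUnion_finset_le _ _).trans ?_
      refine (Finset.sum_le_card_nsmul _ _ E fun y _ => full_upper hμ hP h k x y).trans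
        (le_of_eq ?_)
      have hc : ((Icc (x - (P.R : ℤ)) (x + P.R)).card : ℝ) = 2 * P.R + 1 := by
        rw [Int.card_Icc]
        have : (x + (P.R : ℤ) + 1 - (x - P.R)).toNat = 2 * P.R + 1 := by omega
        rw [this]
        push_cast
        ring
      rw [nsmul_eq_mul, hc]
    refine (Finset.sum_le_card_nsmul _ _ _ h3).trans (le_of_eq ?_)
    have hc : ((Icc (b k - 2 * (P.R : ℤ)) (b k + 2 * P.R)).card : ℝ) = 4 * P.R + 1 := by
      rw [Int.card_Icc]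
      have : (b k + 2 * (P.R : ℤ) + 1 - (b k - 2 * P.R)).toNat = 4 * P.R + 1 := by omega
      rw [this]
      push_cast
      ring
    rw [nsmul_eq_mul, hc]
  have h3 : (law μ).real {g | Inc P μ h b k g} ≤ (law μ).real A +
      (law μ).real (⋃ x ∈ Icc (b k - 2 * P.R) (b k + 2 * P.R),
      ⋃ y ∈ Icc (x - P.R) (x + P.R), B x y) :=
    (measureReal_mono hsub).trans (measureReal_union_le _ _)
  unfold e1
  rw [← hE, mul_assoc]
  linarith

end

end Pool.Agent.W_7d29a1_h47
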