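import Pool.Agent.W_7d29a1_h47q.WinA
import Pool.Agent.W_7d29a1_h47q.Har
import Pool.Agent.W_7d29a1_h47q.IncA

/-!
# The Harris inequality in the window
-/

namespace Pool.Agent.W_7d29a1_h47

open MeasureTheory ProbabilityTheory Finset

noncomputable section

variable {P : Prm} {μ : Measure ℝ} [IsProbabilityMeasure μ]

lemma HarW_upd (z p : ℕ × ℤ) (g : Env) {u u' : ℝ} (h : u ≤ u') :
    Function.update g z u p ≤ Function.update g z u' p := by
  by_cases hp : p = z
  · rw [hp, Function.update_self, Function.update_self]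
    exact h
  · rw [Function.update_of_ne hp, Function.update_of_ne hp]

lemma HarW_gs (z : ℕ × ℤ) (A : Finset (ℕ × ℤ)) (g : Env) {u u' : ℝ} (h : u ≤ u') :
    gs (Function.update g z u) A ≤ gs (Function.update g z u') A := by
  unfold gs
  exact Finset.sum_le_sum fun p _ => HarW_upd z p g h

lemma HarW_wt (h : ℝ) (k : ℕ) (x : ℤ) (n : ℕ) (r : ℕ → Bool) (z : ℕ × ℤ) (g : Env) {u u' : ℝ}
    (hu : u ≤ u') : wt (Function.update g z u) h k x n r ≤ wt (Function.update g z u') h k x n r := by
  unfold wt En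
  apply Real.exp_le_exp.2
  have h1 : ∑ i ∈ range n, Function.update g z u (k + i, x + pos r (i + 1)) ≤
      ∑ i ∈ range n, Function.update g z u' (k + i, x + pos r (i + 1)) :=
    Finset.sum_le_sum fun i _ => HarW_upd z _ g hu
  linarith

/-- The Gibbs weight of an index is nonincreasing in the sites off its path. Proof. By
`gs_update`, `gs_update_not` the numerator `c i₀ exp (gs g (A i₀))` does not depend on `u` (`z ∉ A i₀`), the
denominator is nondecreasing in `u` (each term is `c i exp (gs …)` with `gs` constant or `+ u`). -/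
lemma SA_anti {ι : Type*} [DecidableEq ι] {I : Finset ι} {c : ι → ℝ} (hc : Adms I c)
    (A : ι → Finset (ℕ × ℤ)) {i₀ : ι} (hi : i₀ ∈ I) {z : ℕ × ℤ} (hz : z ∉ A i₀) (g : Env) :
    Antitone fun u : ℝ => SA I c A (Function.update g z u) (fun i => ind (i = i₀)) := by
  intro u u' hu
  have hnum : ∀ v : ℝ, ∑ i ∈ I, c i * Real.exp (gs (Function.update g z v) (A i)) *
      ind (i = i₀) = c i₀ * Real.exp (gs g (A i₀)) := by
    intro v
    rw [Finset.sum_eq_single i₀ (fun j _ hj => by rw [ind_false hj, mul_zero])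
      (fun hn => absurd hi hn), ind_true rfl, mul_one, gs_update_not v hz]
  have hden : SZ I c A (Function.update g z u) ≤ SZ I c A (Function.update g z u') := by
    unfold SZ
    exact Finset.sum_le_sum fun i hi' =>
      mul_le_mul_of_nonneg_left (Real.exp_le_exp.2 (HarW_gs z (A i) g hu)) (hc.nn i hi')
  show SA I c A (Function.update g z u') (fun i => ind (i = i₀)) ≤
    SA I c A (Function.update g z u) (fun i => ind (i = i₀))
  unfold SA
  rw [hnum u, hnum u']
  exact div_le_div_of_nonneg_left (mul_nonneg (hc.nn i₀ hi) (Real.exp_pos _).le)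
    (SZ_pos hc A _) hden

/-- `ZS` is nondecreasing in every site. Proof. Every weight `wt` is `exp` of a sum of sites. -/
lemma ZS_mono (h : ℝ) (b : ℕ → ℤ) (k : ℕ) (x y : ℤ) (z : ℕ × ℤ) (g : Env) :
    Monotone fun u : ℝ => ZS P h b k (Function.update g z u) x y := by
  intro u u' hu
  show ZS P h b k (Function.update g z u) x y ≤ ZS P h b k (Function.update g z u') x y
  unfold ZS
  exact Finset.sum_le_sum fun r _ => mul_le_mul_of_nonneg_left (HarW_wt h k x P.R r z g hu)
    (mul_nonneg (ind_nonneg _) (ind_nonneg _))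

open Classical in
/-- The sites right of `b` that matter. -/
def offD (P : Prm) (b : ℕ → ℤ) (k : ℕ) : Finset (ℕ × ℤ) :=
  (range P.R).biUnion fun j => (Icc (b (k + j + 1) + 1) (b (k + j + 1) + 6 * P.R)).image
    fun y => (k + j, y)

lemma HarW_mem {P : Prm} {b : ℕ → ℤ} {k j : ℕ} (hj : j < P.R) {y : ℤ}
    (h1 : b (k + j + 1) < y) (h2 : y ≤ b (k + j + 1) + 6 * P.R) : (k + j, y) ∈ offD P b k := by
  classical
  unfold offD
  rw [Finset.mem_biUnion]
  refine ⟨j, Finset.mem_range.2 hj, ?_⟩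
  rw [Finset.mem_image]
  exact ⟨y, Finset.mem_Icc.2 ⟨by omega, h2⟩, rfl⟩

lemma HarW_ZS (hI : 1 ≤ P.I) (hL : 8 * P.w ≤ P.L) {b : ℕ → ℤ} {k : ℕ} (hb : IsW k b)
    (h : ℝ) {g g' : Env} (hg : ∀ z ∈ offD P b k, g z = g' z) (x y : ℤ) :
    ZS P h b k g x y = ZS P h b k g' x y := by
  by_cases hx : |x - b k| ≤ 2 * P.R
  · unfold ZS
    refine Finset.sum_congr rfl fun r _ => ?_
    by_cases hr : (∀ j ≤ P.R, b (k + j) < x + pos r j) ∧ nbad P b k x r ≤ (P.I : ℝ) / 32
    · have hwt : wt g h k x P.R r = wt g' h k x P.R r := by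
        unfold wt En
        have h1 : ∑ i ∈ range P.R, g (k + i, x + pos r (i + 1)) =
            ∑ i ∈ range P.R, g' (k + i, x + pos r (i + 1)) := by
          refine Finset.sum_congr rfl fun i hi => ?_
          have hi' := Finset.mem_range.1 hi
          apply hg
          apply HarW_mem hi'
          · have := hr.1 (i + 1) (by omega)
            rw [← Nat.add_assoc] at this
            exact this
          · have h2 := pos_abs_le r (i + 1)
            have h3 := Compo_isW_abs hb (i + 1)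
            rw [← Nat.add_assoc] at h3
            rw [abs_le] at hx h2 h3
            push_cast at h2 h3
            omega
        rw [h1]
      rw [hwt]
    · rw [ind_false hr]
      ring
  · have h1 : ∀ g : Env, ZS P h b k g x y = 0 := by
      intro g
      by_contra hne
      exact hx (ZS_zero hb hI hL h g hne).1
    rw [h1 g, h1 g']

/-- `Inc` only depends on these sites. Proof. If `ZS P h b k g x y ≠ 0` then `|x - b k| ≤ 2R` (`ZS_zero`,
which holds for every `g`), and every path counted in `ZS` visits at step `j` the site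
`(k + j, x + pos r (j+1))` with `b (k+j+1) < x + pos r (j+1) ≤ b k + 2R + R ≤ b (k+j+1) + 4R`. So `wt` is
the same in two environments that agree on `offD`. -/
lemma dependsOn_Inc (hI : 1 ≤ P.I) (hL : 8 * P.w ≤ P.L) {b : ℕ → ℤ} {k : ℕ} (hb : IsW k b)
    (h : ℝ) : DependsOn (fun g : Env => ind (Inc P μ h b k g)) (offD P b k : Set (ℕ × ℤ)) := by
  intro g g' hg
  have h1 : ∀ x y : ℤ, ZS P h b k g x y = ZS P h b k g' x y := fun x y =>
    HarW_ZS hI hL hb h (fun z hz => hg z (Finset.mem_coe.2 hz)) x y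
  apply ind_congr
  unfold Inc
  simp only [h1]

/-- The sites of the path itself are not in `offD`. -/
lemma offD_disj (P : Prm) (k : ℕ) (x : ℤ) (s : ℕ → Bool) {z : ℕ × ℤ}
    (hz : z ∈ offD P (tr k x s) k) : z ∉ WA k P.R (x, s) := by
  classical
  intro hW
  unfold offD at hz
  rw [Finset.mem_biUnion] at hz
  obtain ⟨j, _, hj⟩ := hz
  rw [Finset.mem_image] at hj
  obtain ⟨y, hy, rfl⟩ := hj
  unfold WA at hW
  rw [Finset.mem_image] at hW
  obtain ⟨j', _, hj'⟩ := hW
  rw [Prod.mk.injEq] at hj'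
  obtain ⟨h1, h2⟩ := hj'
  have h3 : j' = j := by omega
  subst h3
  rw [Finset.mem_Icc, Nat.add_assoc, tr_add] at hy
  simp only at h2
  omega

lemma HarW_meas (P : Prm) (μ : Measure ℝ) (h : ℝ) (b : ℕ → ℤ) (k : ℕ) :
    Measurable (fun g : Env => ind (Inc P μ h b k g)) := by
  classical
  unfold ind
  exact Measurable.ite (measurableSet_Inc P μ h b k) measurable_const measurable_const

lemma HarW_int (P : Prm) (μ : Measure ℝ) [IsProbabilityMeasure μ] (h : ℝ) (b : ℕ → ℤ) (k : ℕ) :
    ∫ g : Env, ind (Inc P μ h b k g) ∂(law μ) = (law μ).real {g | Inc P μ h b k g} := by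
  classical
  have h1 : (fun g : Env => ind (Inc P μ h b k g)) =
      Set.indicator {g | Inc P μ h b k g} (fun _ => (1 : ℝ)) := by
    funext g
    by_cases hg : Inc P μ h b k g
    · rw [ind_true hg, Set.indicator_of_mem (show g ∈ {g | Inc P μ h b k g} from hg)]
    · rw [ind_false hg, Set.indicator_of_notMem (show g ∉ {g | Inc P μ h b k g} from hg)]
  rw [h1, integral_indicator (measurableSet_Inc P μ h b k)]
  simp

/-- **Harris in the window.** Proof. `harris` with `D = offD P (tr k x s) k`, `F = SA (ind (i = (x,s)))`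
(`SA_anti`, bounded by `1`), `G = ind (Inc …)` (`ZS_mono`: the event is increasing; bounded,
measurable by `measurableSet_Inc`, `dependsOn_Inc`), and `∫ G = P(Inc) ≤ e1` (`inc_le`). -/
theorem harW [DecidableEq (ℤ × (ℕ → Bool))] (hμ : EM μ) {p q : ℝ} (hpq : p < q)
    (hk : 0 < kmin μ p q) (hP : P.Ok μ p q)
    (h : ℝ) {N k : ℕ} {α γ : ℤ → ℝ} (hc : Adms (WI N P.R) (Wc h P.R α γ)) {i₀ : ℤ × (ℕ → Bool)}
    (hi : i₀ ∈ WI N P.R) :
    ∫ g : Env, SA (WI N P.R) (Wc h P.R α γ) (WA k P.R) g (fun i => ind (i = i₀)) *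
        ind (Inc P μ h (tr k i₀.1 i₀.2) k g) ∂(law μ) ≤
      e1 P μ * ∫ g : Env, SA (WI N P.R) (Wc h P.R α γ) (WA k P.R) g (fun i => ind (i = i₀))
        ∂(law μ) := by
  have hL : 8 * P.w ≤ P.L := by
    have h1 := hP.ρL
    have h2 := mul_nonneg hP.ρ0 (Nat.cast_nonneg P.L : (0 : ℝ) ≤ P.L)
    have h3 : 8 * (P.w : ℝ) ≤ P.L := by linarith
    exact_mod_cast h3
  have hb := isW_tr k i₀.1 i₀.2
  have hF0 : ∀ g : Env, 0 ≤ SA (WI N P.R) (Wc h P.R α γ) (WA k P.R) g (fun i => ind (i = i₀)) :=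
    fun g => SA_nonneg hc fun i _ => ind_nonneg _
  have hH := harris (μ := μ) (offD P (tr k i₀.1 i₀.2) k)
    (F := fun g : Env => SA (WI N P.R) (Wc h P.R α γ) (WA k P.R) g (fun i => ind (i = i₀)))
    (G := fun g : Env => ind (Inc P μ h (tr k i₀.1 i₀.2) k g)) (a := 1) (b := 1)
    (measurable_SA _ _ _ fun i _ => measurable_const)
    (HarW_meas P μ h (tr k i₀.1 i₀.2) k)
    (fun g => SA_abs_le hc fun i _ => ind_abs _)
    (fun g => ind_abs _)
    (fun z hz g => SA_anti hc (WA k P.R) hi (offD_disj P k i₀.1 i₀.2 hz) g)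
    (fun z _ g u u' hu => ind_mono fun hI => by
      obtain ⟨x, y, hxy⟩ := hI
      exact ⟨x, y, hxy.trans_le (ZS_mono h (tr k i₀.1 i₀.2) k x y z g hu)⟩)
    (dependsOn_Inc hP.I1 hL hb h)
  refine hH.trans ?_
  rw [HarW_int, mul_comm]
  exact mul_le_mul_of_nonneg_right (inc_le hμ hpq hk hP h hb) (integral_nonneg hF0)

end

end Pool.Agent.W_7d29a1_h47
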