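import Pool.Agent.W_7d29a1_h47q.LdA
import Pool.Agent.W_7d29a1_h47.UiD

/-!
# Lower bound for the point-to-point free energy
-/

namespace Pool.Agent.W_7d29a1_h47

open MeasureTheory ProbabilityTheory Finset Filter Topology

noncomputable section

variable {μ : Measure ℝ} [IsProbabilityMeasure μ]

/-- `v` is a slope of `Λ` at `h`. -/
def SubG (μ : Measure ℝ) (h v : ℝ) : Prop := ∀ h' : ℝ, Lam μ h + v * (h' - h) ≤ Lam μ h'

/-- Proof. `eps μ n / n → 0` (`tendsto_eps_div`), so `2 eps μ n ≤ η² n` for large `n` (say `n ≥ 1`). Let `y`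
be the end point of `exists_ap` for the tilt `h + η`. By `ap_le` with the tilt `h`:
`η y ≥ n (Λ(h + η) - Λ(h)) - 2 eps ≥ n η v - η² n`, so `y ≥ (v - η) n`. And
`ap + h y ≥ n Λ(h + η) - 2 eps - η y ≥ n (Λ(h) + v η) - η² n - η n ≥ n (Λ(h) - 3 η)` because `|y| ≤ n`,
`|v| ≤ 1`, `η ≤ 1`. -/
lemma exists_right (hμ : EM μ) {h v : ℝ} (hv : |v| ≤ 1) (hs : SubG μ h v) {η : ℝ} (hη : 0 < η)
    (hη1 : η ≤ 1) : ∀ᶠ n : ℕ in atTop, ∃ y : ℤ, Reach 0 n y ∧ (v - η) * n ≤ y ∧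
      n * (Lam μ h - 3 * η) ≤ ap μ n y + h * y := by
  have h1 := (tendsto_eps_div (μ := μ)).eventually
    (gt_mem_nhds (show (0 : ℝ) < η ^ 2 / 2 by positivity))
  filter_upwards [h1, eventually_ge_atTop 1] with n h2 h3
  have hn0 : (0 : ℝ) < n := by exact_mod_cast h3
  rw [div_lt_iff₀ hn0] at h2
  obtain ⟨y, hy, h4⟩ := exists_ap hμ (h + η) n
  have h5 := ap_le hμ hy h
  have h6 := hs (h + η)
  rw [add_sub_cancel_left] at h6
  have h7 : (n : ℝ) * (Lam μ h + v * η) ≤ n * Lam μ (h + η) :=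
    mul_le_mul_of_nonneg_left h6 hn0.le
  have h8 := (abs_le.1 (Reach_iff.1 hy).1).2
  have h8' : (y : ℝ) ≤ n := by exact_mod_cast h8
  have h9 := abs_le.1 hv
  refine ⟨y, hy, ?_, ?_⟩
  · have h10 : η * ((v - η) * n) ≤ η * y := by nlinarith
    exact le_of_mul_le_mul_left h10 hη
  · have h10 : η * y ≤ η * n := mul_le_mul_of_nonneg_left h8' hη.le
    have h11 : η ^ 2 * n ≤ η * n := by
      refine mul_le_mul_of_nonneg_right ?_ hn0.le
      nlinarith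
    have h12 : -(η * n) ≤ n * (v * η) := by
      have h13 : 0 ≤ (1 + v) * (η * n) := mul_nonneg (by linarith) (by positivity)
      linarith
    nlinarith

/-- Proof. As `exists_right`, with the tilt `h - η`. -/
lemma exists_left (hμ : EM μ) {h v : ℝ} (hv : |v| ≤ 1) (hs : SubG μ h v) {η : ℝ} (hη : 0 < η)
    (hη1 : η ≤ 1) : ∀ᶠ n : ℕ in atTop, ∃ y : ℤ, Reach 0 n y ∧ (y : ℝ) ≤ (v + η) * n ∧
      n * (Lam μ h - 3 * η) ≤ ap μ n y + h * y := by
  have h1 := (tendsto_eps_div (μ := μ)).eventually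
    (gt_mem_nhds (show (0 : ℝ) < η ^ 2 / 2 by positivity))
  filter_upwards [h1, eventually_ge_atTop 1] with n h2 h3
  have hn0 : (0 : ℝ) < n := by exact_mod_cast h3
  rw [div_lt_iff₀ hn0] at h2
  obtain ⟨y, hy, h4⟩ := exists_ap hμ (h - η) n
  have h5 := ap_le hμ hy h
  have h6 := hs (h - η)
  have e6 : h - η - h = -η := by ring
  rw [e6] at h6
  have h7 : (n : ℝ) * (Lam μ h + v * -η) ≤ n * Lam μ (h - η) :=
    mul_le_mul_of_nonneg_left h6 hn0.le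
  have h8 := (abs_le.1 (Reach_iff.1 hy).1).1
  have h8' : -(n : ℝ) ≤ y := by exact_mod_cast h8
  have h9 := abs_le.1 hv
  refine ⟨y, hy, ?_, ?_⟩
  · have h10 : η * y ≤ η * ((v + η) * n) := by nlinarith
    exact le_of_mul_le_mul_left h10 hη
  · have h10 : η * (-(n : ℝ)) ≤ η * y := mul_le_mul_of_nonneg_left h8' hη.le
    have h11 : η ^ 2 * n ≤ η * n := by
      refine mul_le_mul_of_nonneg_right ?_ hn0.le
      nlinarith
    have h12 : n * (v * η) ≤ η * n := by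
      have h13 : 0 ≤ (1 - v) * (η * n) := mul_nonneg (by linarith) (by positivity)
      linarith
    nlinarith

/-- An elementary fact. Proof. If `A ≤ v + η` (`A ≥ v - η`), take `θ = 1`; if `B ≥ v - η`
take `θ = 0`; otherwise `B < v - η < v + η < A` and `θ = (v - B) / (A - B)`. -/
lemma LdB_conv {A B v η : ℝ} (hη : 0 ≤ η) (hA : v - η ≤ A) (hB : B ≤ v + η) :
    ∃ θ : ℝ, 0 ≤ θ ∧ θ ≤ 1 ∧ |θ * A + (1 - θ) * B - v| ≤ η := by
  by_cases h1 : A ≤ v + η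
  · refine ⟨1, zero_le_one, le_rfl, ?_⟩
    rw [abs_le]
    constructor <;> linarith
  by_cases h2 : v - η ≤ B
  · refine ⟨0, le_rfl, zero_le_one, ?_⟩
    rw [abs_le]
    constructor <;> linarith
  push Not at h1 h2
  have h3 : 0 < A - B := by linarith
  refine ⟨(v - B) / (A - B), div_nonneg (by linarith) h3.le, ?_, ?_⟩
  · rw [div_le_one h3]
    linarith
  · have h4 : (v - B) / (A - B) * A + (1 - (v - B) / (A - B)) * B - v = 0 := by
      field_simp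
      ring
    rw [h4, abs_zero]
    exact hη

/-- **Deterministic lower bound.** Proof. Given `ε > 0` choose `ρ ∈ (0, 1)` and `η ∈ (0, 1]`,
`η ≤ ρ (1 - |v|) / 4`, with `3 η + ρ (|Λ(h)| + |h| + |m0|) ≤ ε / 2`. Take one `n ≥ 1` for which
`exists_right` and `exists_left` hold: `yp`, `ym`, and `θ` from `LdB_conv` for `A = yp / n`, `B = ym / n`.
For large `N` let `K = ⌊(1 - ρ) N / n⌋₊`, `k₁ = ⌊θ K⌋₊`, `k₂ = K - k₁`, `m = N - K n`,
`z = y N - k₁ yp - k₂ ym`. Then `ρ N ≤ m ≤ ρ N + n`, `z` has the parity of `m` (`Reach_iff`), and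
`|z| ≤ |y N - v N| + |v| (N - K n) + |v K n - k₁ yp - k₂ ym| ≤ o(N) + |v| (ρ N + n) + η N + 2 n ≤ ρ N ≤ m`
for large `N`, so `Reach 0 m z`. By `ap_comb`:
`ap μ N (y N) ≥ K n (Λ(h) - 3 η) - h (y N - z) - m |m0|`, `|z| ≤ m`, `K n = N - m`, hence
`≥ N Λ(h) - h v N - 3 η N - m (|Λ(h)| + |h| + |m0|) - |h| |y N - v N| ≥ N (Λ(h) - h v - ε)`. -/
theorem ap_lower (hμ : EM μ) {h v : ℝ} (hv : |v| < 1) (hs : SubG μ h v) {y : ℕ → ℤ}
    (hpar : ∀ n, (y n - n) % 2 = 0) (hy : Tendsto (fun n : ℕ => (y n : ℝ) / n) atTop (𝓝 v))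
    {ε : ℝ} (hε : 0 < ε) :
    ∀ᶠ N : ℕ in atTop, N * (Lam μ h - h * v - ε) ≤ ap μ N (y N) := by
  obtain ⟨L, hL⟩ : ∃ L : ℝ, L = Lam μ h := ⟨_, rfl⟩
  obtain ⟨M, hM⟩ : ∃ M : ℝ, M = |L| + |h| + |m0 μ| := ⟨_, rfl⟩
  have hM0 : 0 ≤ M := by rw [hM]; positivity
  have hv1 : 0 < 1 - |v| := by linarith
  obtain ⟨ρ, hρdef⟩ : ∃ ρ : ℝ, ρ = min (1 / 2) (ε / (4 * (M + 1))) := ⟨_, rfl⟩
  have hρ0 : 0 < ρ := by
    rw [hρdef]
    exact lt_min (by norm_num) (by positivity)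
  have hρ1 : ρ ≤ 1 / 2 := by rw [hρdef]; exact min_le_left _ _
  have hρM : ρ * M ≤ ε / 4 := by
    have h1 : ρ ≤ ε / (4 * (M + 1)) := by rw [hρdef]; exact min_le_right _ _
    rw [le_div_iff₀ (by positivity)] at h1
    linarith
  obtain ⟨η, hηdef⟩ : ∃ η : ℝ, η = min (min 1 (ρ * (1 - |v|) / 4)) (ε / 12) := ⟨_, rfl⟩
  have hη0 : 0 < η := by
    rw [hηdef]
    exact lt_min (lt_min zero_lt_one (by positivity)) (by positivity)
  have hη1 : η ≤ 1 := by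
    rw [hηdef]
    exact (min_le_left _ _).trans (min_le_left _ _)
  have hη2 : η ≤ ρ * (1 - |v|) / 4 := by
    rw [hηdef]
    exact (min_le_left _ _).trans (min_le_right _ _)
  have hη3 : η ≤ ε / 12 := by
    rw [hηdef]
    exact min_le_right _ _
  obtain ⟨δ, hδdef⟩ : ∃ δ : ℝ, δ = min η (ε / (8 * (|h| + 1))) := ⟨_, rfl⟩
  have hδ0 : 0 < δ := by
    rw [hδdef]
    exact lt_min hη0 (by positivity)
  have hδ1 : δ ≤ η := by rw [hδdef]; exact min_le_left _ _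
  have hδ2 : |h| * δ ≤ ε / 8 := by
    have h1 : δ ≤ ε / (8 * (|h| + 1)) := by rw [hδdef]; exact min_le_right _ _
    rw [le_div_iff₀ (by positivity)] at h1
    linarith
  obtain ⟨n, ⟨hn1, hr⟩, hl⟩ := (((eventually_ge_atTop 1).and
    (exists_right hμ hv.le hs hη0 hη1)).and (exists_left hμ hv.le hs hη0 hη1)).exists
  obtain ⟨yp, hpR, hpv, hpa⟩ := hr
  obtain ⟨ym, hmR, hmv, hma⟩ := hl
  rw [← hL] at hpa hma ⊢
  have hn0 : (0 : ℝ) < n := by exact_mod_cast hn1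
  obtain ⟨A, hA⟩ : ∃ A : ℝ, A = yp / n := ⟨_, rfl⟩
  obtain ⟨B, hB⟩ : ∃ B : ℝ, B = ym / n := ⟨_, rfl⟩
  have hAn : (yp : ℝ) = A * n := by rw [hA, div_mul_cancel₀ _ hn0.ne']
  have hBn : (ym : ℝ) = B * n := by rw [hB, div_mul_cancel₀ _ hn0.ne']
  obtain ⟨θ, hθ0, hθ1, hθ⟩ := LdB_conv (A := A) (B := B) (v := v) hη0.le
    (by rw [hA, le_div_iff₀ hn0]; exact hpv) (by rw [hB, div_le_iff₀ hn0]; exact hmv)
  have hAB : |A - B| ≤ 2 := by
    have h1 := abs_le.1 (Reach_iff.1 hpR).1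
    have h2 := abs_le.1 (Reach_iff.1 hmR).1
    have h1a : -(n : ℝ) ≤ yp := by exact_mod_cast h1.1
    have h1b : (yp : ℝ) ≤ n := by exact_mod_cast h1.2
    have h2a : -(n : ℝ) ≤ ym := by exact_mod_cast h2.1
    have h2b : (ym : ℝ) ≤ n := by exact_mod_cast h2.2
    have hA1 : A ≤ 1 := by rw [hA, div_le_one hn0]; exact h1b
    have hA2 : -1 ≤ A := by rw [hA, le_div_iff₀ hn0]; linarith
    have hB1 : B ≤ 1 := by rw [hB, div_le_one hn0]; exact h2b
    have hB2 : -1 ≤ B := by rw [hB, le_div_iff₀ hn0]; linarith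
    rw [abs_le]
    constructor <;> linarith
  have hρv : 0 < ρ * (1 - |v|) := by positivity
  filter_upwards [Metric.tendsto_nhds.1 hy δ hδ0,
    tendsto_natCast_atTop_atTop.eventually_ge_atTop (6 * n / (ρ * (1 - |v|))),
    tendsto_natCast_atTop_atTop.eventually_ge_atTop (8 * n * M / ε), eventually_ge_atTop 1]
    with N g1 g2 g3 g4
  have hN0 : (0 : ℝ) < N := by exact_mod_cast g4
  rw [div_le_iff₀ hρv] at g2
  rw [div_le_iff₀ hε] at g3
  have hyN : |(y N : ℝ) - v * N| ≤ δ * N := by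
    have h1 : (y N : ℝ) - v * N = ((y N : ℝ) / N - v) * N := by
      rw [sub_mul, div_mul_cancel₀ _ hN0.ne']
    rw [Real.dist_eq] at g1
    rw [h1, abs_mul, abs_of_pos hN0]
    exact mul_le_mul_of_nonneg_right g1.le hN0.le
  obtain ⟨K, hK⟩ : ∃ K : ℕ, K = ⌊(1 - ρ) * N / n⌋₊ := ⟨_, rfl⟩
  have hK1 : (K : ℝ) * n ≤ (1 - ρ) * N := by
    have h1 : (K : ℝ) ≤ (1 - ρ) * N / n := by
      rw [hK]
      exact Nat.floor_le (div_nonneg (mul_nonneg (by linarith) hN0.le) hn0.le)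
    rwa [le_div_iff₀ hn0] at h1
  have hK2 : (1 - ρ) * N < ((K : ℝ) + 1) * n := by
    have h1 := Nat.lt_floor_add_one ((1 - ρ) * N / (n : ℝ))
    rw [← hK, div_lt_iff₀ hn0] at h1
    exact h1
  obtain ⟨k₁, hk₁⟩ : ∃ k₁ : ℕ, k₁ = ⌊θ * K⌋₊ := ⟨_, rfl⟩
  have hK0 : (0 : ℝ) ≤ K := Nat.cast_nonneg K
  have hk1a : (k₁ : ℝ) ≤ θ * K := by
    rw [hk₁]
    exact Nat.floor_le (mul_nonneg hθ0 hK0)
  have hk1b : θ * K < k₁ + 1 := by
    rw [hk₁]
    exact Nat.lt_floor_add_one _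
  have hk1K : k₁ ≤ K := by
    have h1 : (k₁ : ℝ) ≤ K := hk1a.trans (mul_le_of_le_one_left hK0 hθ1)
    exact_mod_cast h1
  obtain ⟨k₂, hk₂⟩ := Nat.exists_eq_add_of_le hk1K
  have hKn : K * n ≤ N := by
    have h1 : (K : ℝ) * n ≤ N := hK1.trans (mul_le_of_le_one_left hN0.le (by linarith))
    exact_mod_cast h1
  obtain ⟨m, hm⟩ := Nat.exists_eq_add_of_le hKn
  have hmr : (N : ℝ) = K * n + m := by exact_mod_cast hm
  have hk2r : (K : ℝ) = k₁ + k₂ := by exact_mod_cast hk₂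
  obtain ⟨z, hz⟩ : ∃ z : ℤ, z = y N - k₁ * yp - k₂ * ym := ⟨_, rfl⟩
  have hzr : (z : ℝ) = y N - k₁ * yp - k₂ * ym := by rw [hz]; push_cast; ring
  have hm1 : ρ * N ≤ m := by linarith
  have hm2 : (m : ℝ) ≤ ρ * N + n := by linarith
  have hm0 : (0 : ℝ) ≤ m := Nat.cast_nonneg m
  have hzabs : |(z : ℝ)| ≤ m := by
    obtain ⟨P, hP⟩ : ∃ P : ℝ, P = n * K * (θ * A + (1 - θ) * B - v) := ⟨_, rfl⟩
    obtain ⟨Q, hQ⟩ : ∃ Q : ℝ, Q = n * ((θ * K - k₁) * (A - B)) := ⟨_, rfl⟩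
    have hPa : |P| ≤ n * K * η := by
      rw [hP, abs_mul, abs_of_nonneg (mul_nonneg hn0.le hK0)]
      exact mul_le_mul_of_nonneg_left hθ (mul_nonneg hn0.le hK0)
    have hQa : |Q| ≤ n * (1 * 2) := by
      rw [hQ, abs_mul, abs_of_pos hn0, abs_mul]
      refine mul_le_mul_of_nonneg_left (mul_le_mul ?_ hAB (abs_nonneg _) zero_le_one) hn0.le
      rw [abs_le]
      constructor <;> linarith
    have e1 : (z : ℝ) = (y N - v * N) + v * m - P + Q := by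
      rw [hzr, hP, hQ, hAn, hBn, hmr]
      have e2 : (k₂ : ℝ) = K - k₁ := by linarith
      rw [e2]
      ring
    have hvm : |v * m| ≤ |v| * (ρ * N + n) := by
      rw [abs_mul, abs_of_nonneg hm0]
      exact mul_le_mul_of_nonneg_left hm2 (abs_nonneg v)
    have hvn : |v| * n ≤ n := mul_le_of_le_one_left hn0.le hv.le
    have hKη : n * K * η ≤ η * N := by
      have h1 : K * n * η ≤ (N : ℝ) * η := by
        refine mul_le_mul_of_nonneg_right ?_ hη0.le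
        linarith
      linarith
    have hηN : η * N ≤ ρ * (1 - |v|) / 4 * N := mul_le_mul_of_nonneg_right hη2 hN0.le
    have hδN : δ * N ≤ η * N := mul_le_mul_of_nonneg_right hδ1 hN0.le
    have h1 := abs_le.1 hyN
    have h2 := abs_le.1 hPa
    have h3 := abs_le.1 hQa
    have h4 := abs_le.1 hvm
    rw [e1, abs_le]
    clear * - h1 h2 h3 h4 hvn hKη hηN hδN g2 hm1
    constructor <;> linarith [h1.1, h1.2, h2.1, h2.2, h3.1, h3.2, h4.1, h4.2]
  have hzR : Reach 0 m z := by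
    rw [Reach_iff]
    constructor
    · have h1 := hzabs
      rw [← Int.cast_abs] at h1
      exact_mod_cast h1
    · have h1 := (Reach_iff.1 hpR).2
      have h2 := (Reach_iff.1 hmR).2
      have h3 := hpar N
      obtain ⟨a, ha⟩ : ∃ a : ℤ, yp = n + 2 * a := ⟨(yp - n) / 2, by omega⟩
      obtain ⟨b, hb⟩ : ∃ b : ℤ, ym = n + 2 * b := ⟨(ym - n) / 2, by omega⟩
      obtain ⟨c, hc⟩ : ∃ c : ℤ, y N = N + 2 * c := ⟨(y N - N) / 2, by omega⟩
      have h4 : (N : ℤ) = ((k₁ : ℤ) + k₂) * n + m := by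
        rw [hm, hk₂]
        push_cast
        ring
      obtain ⟨t, ht⟩ : ∃ t : ℤ, z = m + 2 * t := by
        refine ⟨c - k₁ * a - k₂ * b, ?_⟩
        rw [hz, hc, ha, hb, h4]
        ring
      omega
  have hcomb := ap_comb hμ (k₁ := k₁) (k₂ := k₂) hpR hmR hzR
  have eN : (k₁ + k₂) * n + m = N := by rw [← hk₂]; exact hm.symm
  have ey : (k₁ : ℤ) * yp + k₂ * ym + z = y N := by rw [hz]; ring
  rw [eN, ey] at hcomb
  have h5 : (k₁ : ℝ) * (n * (L - 3 * η)) ≤ k₁ * (ap μ n yp + h * yp) :=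
    mul_le_mul_of_nonneg_left hpa (Nat.cast_nonneg _)
  have h6 : (k₂ : ℝ) * (n * (L - 3 * η)) ≤ k₂ * (ap μ n ym + h * ym) :=
    mul_le_mul_of_nonneg_left hma (Nat.cast_nonneg _)
  have a1 : -(|h| * m) ≤ h * z := by
    have h1 := neg_abs_le (h * (z : ℝ))
    rw [abs_mul] at h1
    have h2 := mul_le_mul_of_nonneg_left hzabs (abs_nonneg h)
    linarith
  have a2 : -(|m0 μ| * m) ≤ m * m0 μ := by
    have h1 := mul_le_mul_of_nonneg_right (neg_abs_le (m0 μ)) hm0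
    linarith
  have a3 : L * m ≤ |L| * m := mul_le_mul_of_nonneg_right (le_abs_self L) hm0
  have a4 : h * (y N - v * N) ≤ ε / 8 * N := by
    have h1 := le_abs_self (h * ((y N : ℝ) - v * N))
    rw [abs_mul] at h1
    have h2 := mul_le_mul_of_nonneg_left hyN (abs_nonneg h)
    have h3 := mul_le_mul_of_nonneg_right hδ2 hN0.le
    linarith
  have a5 : m * M ≤ (ρ * N + n) * M := mul_le_mul_of_nonneg_right hm2 hM0
  have a6 : ρ * M * N ≤ ε / 4 * N := mul_le_mul_of_nonneg_right hρM hN0.le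
  have a7 : m * M = |L| * m + |h| * m + |m0 μ| * m := by rw [hM]; ring
  have a8 : η * N ≤ ε / 12 * N := mul_le_mul_of_nonneg_right hη3 hN0.le
  have a9 : 0 ≤ η * m := mul_nonneg hη0.le hm0
  have a10 : ((k₁ : ℝ) + k₂) * (n * (L - 3 * η)) = (N - m) * (L - 3 * η) := by
    rw [← hk2r, hmr]
    ring
  have a11 : h * z = h * y N - h * (k₁ * yp) - h * (k₂ * ym) := by rw [hzr]; ring
  have a12 : (0 : ℝ) < ε * N := mul_pos hε hN0
  have a13 : (N - m) * (L - 3 * η) = N * L - 3 * (η * N) - L * m + 3 * (η * m) := by ring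
  have a14 : h * (y N - v * N) = h * y N - h * v * N := by ring
  have b1 : N * L - 3 * (η * N) - |L| * m + 3 * (η * m) - h * y N + h * z + m * m0 μ ≤
      ap μ N (y N) := by
    have b2 : (k₁ : ℝ) * (ap μ n yp + h * yp) + k₂ * (ap μ n ym + h * ym) =
      k₁ * ap μ n yp + k₂ * ap μ n ym + (h * y N - h * z) := by rw [a11]; ring
    have b3 : (k₁ : ℝ) * (n * (L - 3 * η)) + k₂ * (n * (L - 3 * η)) =
      (N - m) * (L - 3 * η) := by rw [← a10]; ring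
    linarith
  have b4 : N * (L - h * v - ε) = N * L - h * v * N - ε * N := by ring
  rw [b4]
  have b5 : (ρ * N + n) * M = ρ * M * N + n * M := by ring
  linarith

end

end Pool.Agent.W_7d29a1_h47
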