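import Pool.Agent.W_7d29a1_h47.Main
import Pool.Agent.W_7d29a1_h47.FinF
import Pool.Agent.W_7d29a1_h47q.ParE

/-!
# Power-law strict convexity for the objects of the problem
-/

namespace Pool.Agent.W_7d29a1_h47

open MeasureTheory ProbabilityTheory Finset Filter Topology

noncomputable section

/-- The main theorem on the limit of the moment generating function of the end point. -/
theorem main_power {Ω : Type*} [MeasurableSpace Ω] (P : Measure Ω) [IsProbabilityMeasure P]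
    (ω : ℕ × ℤ → Ω → ℝ) (hmeas : ∀ p, Measurable (ω p)) (hindep : iIndepFun ω P)
    (hident : ∀ p q, IdentDistrib (ω p) (ω q) P P) (hnc : ¬ ∃ c : ℝ, ∀ᵐ x ∂P, ω (0, 0) x = c)
    (hexp : ∀ b : ℝ, Integrable (fun x => Real.exp (b * ω (0, 0) x)) P) {β : ℝ} (hβ : 0 < β) :
    ∃ lam : ℝ → ℝ, StrictConvexOn ℝ Set.univ lam ∧ (∀ h, lam (-h) = lam h) ∧
      (∀ h, h ≠ 0 → 0 < lam h) ∧
      (∀ h, ∃ c : ℝ, 0 < c ∧ ∀ u : ℝ, 0 < u → u ≤ 1 →
        c * u ^ 100 ≤ lam (h + u) + lam (h - u) - 2 * lam h) ∧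
      (∀ h, ∀ᵐ x ∂P, Tendsto (fun n : ℕ => Real.log (endMGF β h (fun p => ω p x) n) / n) atTop
        (𝓝 (lam h))) ∧
      ∀ h, 0 < h → ∀ c, c < lam h / h → ∀ᵐ x ∂P, Tendsto
        (fun n : ℕ => forceP β h (fun p => ω p x) n {s | c * n ≤ (walk s n : ℝ)}) atTop (𝓝 1) := by
  obtain ⟨lam, h1, h2, h3, h4, h5⟩ := main_of_strict
    (fun _ _ hμ hnd => Lam_strictConvex hμ hnd) P ω hmeas hindep hident hnc hexp hβ
  refine ⟨lam, h1, h2, h3, ?_, h4, h5⟩
  set μ : Measure ℝ := P.map fun x => β * ω (0, 0) x with hμdef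
  have hm0 : Measurable fun x => β * ω (0, 0) x := (hmeas _).const_mul β
  have hprob : IsProbabilityMeasure μ := Measure.isProbabilityMeasure_map hm0.aemeasurable
  have hμ : EM μ := EM_of (hmeas _) hexp β
  have hnd : Nondeg μ := Nondeg_of (hmeas _) hnc hβ
  have hmp := map_toEnv hmeas hindep hident β
  rw [← hμdef] at hmp
  have hid : ∀ h, lam h = Lam μ h - Lam μ 0 := by
    intro h
    have g1 := hmp.quasiMeasurePreserving.ae (tendsto_logZ hμ h)
    have g2 := hmp.quasiMeasurePreserving.ae (tendsto_logZ hμ 0)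
    obtain ⟨x, hx1, hx2, hx3⟩ := (g1.and (g2.and (h4 h))).exists
    refine tendsto_nhds_unique hx3 ((hx1.sub hx2).congr fun n => ?_)
    rw [log_endMGF, sub_div]
  intro h
  obtain ⟨c, hc, hcu⟩ := power_convex hμ hnd h
  refine ⟨c, hc, fun u hu hu1 => ?_⟩
  have := hcu u hu hu1
  rw [hid, hid, hid]
  linarith

end

end Pool.Agent.W_7d29a1_h47
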