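import Pool.Agent.W_7d29a1_h47q.HarW

/-!
# No meeting with few bad blocks
-/

namespace Pool.Agent.W_7d29a1_h47

open MeasureTheory ProbabilityTheory Finset

noncomputable section

variable {P : Prm} {μ : Measure ℝ} [IsProbabilityMeasure μ]

/-- `i` right of the base walk `i₀` with few bad blocks. -/
def fewB (P : Prm) (k : ℕ) (i₀ i : ℤ × (ℕ → Bool)) : Prop :=
  rt P.R i₀ i ∧ nbad P (tr k i₀.1 i₀.2) k i.1 i.2 ≤ (P.I : ℝ) / 32

/-- Off the bad event. Proof. By `SA_ends_ind` the left side is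
`∑_{x,y} α x ZS(x,y) γ y / SZ` (`fewB` says exactly that the path is right of `b = tr k i₀.1 i₀.2` at the times
`k + j`, `tr_add`). For all `x, y`: `ZS ≤ Kp` and `ZS ≤ e^{RΛ - KI/128}` (not `Inc`), so
`ZS ≤ Kp (ind (Kp < e^{RΛ - KI/256}) + e^{-KI/256})`; sum and use `SA_ends` for
`F x y = ind (Kp g h k x R y < e^{…}) + e^{-KI/256}` and `SA_const`. -/
lemma few_le (h : ℝ) {N k : ℕ} {α γ : ℤ → ℝ} (hα : ∀ x, 0 ≤ α x) (hγ : ∀ y, 0 ≤ γ y)
    (hc : Adms (WI N P.R) (Wc h P.R α γ)) (i₀ : ℤ × (ℕ → Bool)) {g : Env}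
    (hg : ¬ Inc P μ h (tr k i₀.1 i₀.2) k g) :
    SA (WI N P.R) (Wc h P.R α γ) (WA k P.R) g (fun i => ind (fewB P k i₀ i)) ≤
      SA (WI N P.R) (Wc h P.R α γ) (WA k P.R) g (fun i => Dn P μ h g k i.1 i.2) +
        Real.exp (-(P.K * P.I / 256)) := by
  classical
  set b := tr k i₀.1 i₀.2 with hb
  set e : ℝ := Real.exp (-(P.K * P.I / 256)) with he
  have he0 : 0 < e := Real.exp_pos _
  set F : ℤ → ℤ → ℝ := fun x y =>
    ind (Kp g h k x P.R y < Real.exp (P.R * Lam μ h - P.K * P.I / 256)) + e with hF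
  have hSZ := SZ_pos hc (WA k P.R) g
  have h1 : SA (WI N P.R) (Wc h P.R α γ) (WA k P.R) g (fun i => ind (fewB P k i₀ i)) =
      (∑ x ∈ box N, ∑ y ∈ box (N + P.R), α x *
          (∑ r ∈ T P.R, ind (x + pos r P.R = y) * ind (fewB P k i₀ (x, r)) * wt g h k x P.R r) *
            γ y) / SZ (WI N P.R) (Wc h P.R α γ) (WA k P.R) g :=
    SA_ends_ind h k P.R N α γ g (fun x r => fewB P k i₀ (x, r))
  have h2 : SA (WI N P.R) (Wc h P.R α γ) (WA k P.R) g
        (fun i => Dn P μ h g k i.1 i.2) + e =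
      (∑ x ∈ box N, ∑ y ∈ box (N + P.R), α x * Kp g h k x P.R y * γ y * F x y) /
        SZ (WI N P.R) (Wc h P.R α γ) (WA k P.R) g := by
    rw [← SA_ends h k P.R N α γ g F]
    have h3 : (e : ℝ) = SA (WI N P.R) (Wc h P.R α γ) (WA k P.R) g (fun _ => e) :=
      (SA_const hc e).symm
    conv_lhs => rw [h3]
    rw [← SA_add]
    rfl
  rw [h1, h2]
  refine div_le_div_of_nonneg_right ?_ hSZ.le
  refine Finset.sum_le_sum fun x _ => Finset.sum_le_sum fun y _ => ?_
  have h4 : (∑ r ∈ T P.R, ind (x + pos r P.R = y) * ind (fewB P k i₀ (x, r)) * wt g h k x P.R r) =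
      ZS P h b k g x y := by
    unfold ZS
    refine Finset.sum_congr rfl fun r _ => ?_
    congr 2
    refine ind_congr ?_
    unfold fewB rt
    constructor
    · rintro ⟨h5, h6⟩
      refine ⟨fun j hj => ?_, h6⟩
      rw [hb, tr_add]
      exact h5 j hj
    · rintro ⟨h5, h6⟩
      refine ⟨fun j hj => ?_, h6⟩
      have h7 := h5 j hj
      rw [hb, tr_add] at h7
      exact h7
  rw [h4]
  have h5 : ZS P h b k g x y ≤ Kp g h k x P.R y := by
    rw [Kp_eq]
    unfold ZS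
    refine Finset.sum_le_sum fun r _ => ?_
    have h6 := ind_nonneg (x + pos r P.R = y)
    have h7 := (wt_pos g h k x P.R r).le
    have h8 := ind_le_one ((∀ j ≤ P.R, b (k + j) < x + pos r j) ∧
      nbad P b k x r ≤ (P.I : ℝ) / 32)
    nlinarith [mul_nonneg h6 h7]
  have h6 : ZS P h b k g x y ≤ Real.exp (P.R * Lam μ h - P.K * P.I / 128) := by
    by_contra hcon
    exact hg ⟨x, y, not_le.1 hcon⟩
  have hK0 := Kp_nonneg g h k x P.R y
  have h7 : ZS P h b k g x y ≤ Kp g h k x P.R y * F x y := by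
    rw [hF]
    by_cases hlt : Kp g h k x P.R y < Real.exp (P.R * Lam μ h - P.K * P.I / 256)
    · simp only [ind_true hlt]
      nlinarith [mul_nonneg hK0 he0.le]
    · simp only [ind_false hlt, zero_add]
      refine h6.trans ?_
      calc Real.exp (P.R * Lam μ h - P.K * P.I / 128)
          = Real.exp (P.R * Lam μ h - P.K * P.I / 256) * e := by
            rw [he, ← Real.exp_add]
            congr 1
            ring
        _ ≤ Kp g h k x P.R y * e := mul_le_mul_of_nonneg_right (not_lt.1 hlt) he0.le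
  calc α x * ZS P h b k g x y * γ y ≤ α x * (Kp g h k x P.R y * F x y) * γ y :=
        mul_le_mul_of_nonneg_right (mul_le_mul_of_nonneg_left h7 (hα x)) (hγ y)
    _ = α x * Kp g h k x P.R y * γ y * F x y := by ring

/-- **Few bad blocks.** Proof. `SA2 F = ∑_{i₀} SA (ind (i = i₀)) * SA (F i₀)` (`SA_eq_sum`). For every
`i₀` and `g`: `SA (ind (fewB P k i₀ ·)) ≤ ind (Inc …) + SA Dn + e^{-KI/256}` (`few_le`, or `≤ 1`). Multiply
by `SA (ind (i = i₀)) ≥ 0`, integrate, `harW`, sum over `i₀`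
(`∑_{i₀} SA (ind (i = i₀)) = 1`: `SA_eq_sum` with `F = 1`, `SA_const`). -/
theorem few_int (hμ : EM μ) {p q : ℝ} (hpq : p < q) (hk : 0 < kmin μ p q) (hP : P.Ok μ p q)
    (h : ℝ) {N k : ℕ} {α γ : ℤ → ℝ} (hα : ∀ x, 0 ≤ α x) (hγ : ∀ y, 0 ≤ γ y)
    (hc : Adms (WI N P.R) (Wc h P.R α γ)) :
    ∫ g : Env, SA2 (WI N P.R) (Wc h P.R α γ) (WA k P.R) g (fun i₀ i => ind (fewB P k i₀ i)) ∂(law μ) ≤
      e1 P μ + ∫ g : Env, SA (WI N P.R) (Wc h P.R α γ) (WA k P.R) g
        (fun i => Dn P μ h g k i.1 i.2) ∂(law μ) + Real.exp (-(P.K * P.I / 256)) := by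
  classical
  have hm1 : ∀ i₀ : ℤ × (ℕ → Bool), PMom (law μ) (fun g : Env =>
      SA (WI N P.R) (Wc h P.R α γ) (WA k P.R) g (fun i => ind (i = i₀))) := fun i₀ =>
    PMom_SA hc _ fun i _ => PMom.const _
  have hm2 : ∀ i₀ : ℤ × (ℕ → Bool), PMom (law μ) (fun g : Env =>
      ind (Inc P μ h (tr k i₀.1 i₀.2) k g)) := by
    intro i₀
    refine PMom.of_bounded (c := 1) ?_ fun g => ind_abs _
    exact Measurable.ite (measurableSet_Inc P μ h _ k) measurable_const measurable_const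
  have hm3 : ∀ i : ℤ × (ℕ → Bool), PMom (law μ) (fun g : Env => Dn P μ h g k i.1 i.2) := by
    intro i
    refine PMom.of_bounded (c := 1) ?_ fun g => ind_abs _
    exact Measurable.ite (measurableSet_lt (measurable_Kp h k i.1 P.R _) measurable_const)
      measurable_const measurable_const
  set D : Env → ℝ := fun g => SA (WI N P.R) (Wc h P.R α γ) (WA k P.R) g
        (fun i => Dn P μ h g k i.1 i.2) with hD
  have hm4 : PMom (law μ) D := PMom_SA hc _ fun i _ => hm3 i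
  set e : ℝ := Real.exp (-(P.K * P.I / 256)) with he
  have he0 : 0 < e := Real.exp_pos _
  have hD0 : ∀ g, 0 ≤ D g := fun g => SA_nonneg hc fun i _ => ind_nonneg _
  have hS0 : ∀ (g : Env) (i₀ : ℤ × (ℕ → Bool)),
      0 ≤ SA (WI N P.R) (Wc h P.R α γ) (WA k P.R) g (fun i => ind (i = i₀)) :=
    fun g i₀ => SA_nonneg hc fun i _ => ind_nonneg _
  have hone : ∀ g : Env, ∑ i₀ ∈ WI N P.R,
      SA (WI N P.R) (Wc h P.R α γ) (WA k P.R) g (fun i => ind (i = i₀)) = 1 := by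
    intro g
    have h1 := SA_eq_sum (I := WI N P.R) (c := Wc h P.R α γ) (A := WA k P.R) (g := g)
      (fun _ => (1 : ℝ))
    rw [SA_const hc] at h1
    simpa using h1.symm
  have hpt : ∀ g : Env, SA2 (WI N P.R) (Wc h P.R α γ) (WA k P.R) g
      (fun i₀ i => ind (fewB P k i₀ i)) ≤
      (∑ i₀ ∈ WI N P.R, SA (WI N P.R) (Wc h P.R α γ) (WA k P.R) g (fun i => ind (i = i₀)) *
        ind (Inc P μ h (tr k i₀.1 i₀.2) k g)) + (D g + e) := by
    intro g
    unfold SA2
    rw [SA_eq_sum]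
    have h2 : (∑ i₀ ∈ WI N P.R,
        SA (WI N P.R) (Wc h P.R α γ) (WA k P.R) g (fun i => ind (i = i₀)) *
          ind (Inc P μ h (tr k i₀.1 i₀.2) k g)) + (D g + e) =
        ∑ i₀ ∈ WI N P.R, SA (WI N P.R) (Wc h P.R α γ) (WA k P.R) g (fun i => ind (i = i₀)) *
          (ind (Inc P μ h (tr k i₀.1 i₀.2) k g) + (D g + e)) := by
      simp only [mul_add (SA _ _ _ _ _) (ind _) (D g + e)]
      rw [Finset.sum_add_distrib, ← Finset.sum_mul, hone g, one_mul]
    rw [h2]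
    refine Finset.sum_le_sum fun i₀ _ => mul_le_mul_of_nonneg_left ?_ (hS0 g i₀)
    by_cases hI : Inc P μ h (tr k i₀.1 i₀.2) k g
    · rw [ind_true hI]
      have h3 : SA (WI N P.R) (Wc h P.R α γ) (WA k P.R) g (fun j => ind (fewB P k i₀ j)) ≤ 1 :=
        SA_le hc fun i _ => ind_le_one _
      linarith [hD0 g]
    · rw [ind_false hI, zero_add]
      exact few_le h hα hγ hc i₀ hI
  have hmF : PMom (law μ) (fun g : Env => SA2 (WI N P.R) (Wc h P.R α γ) (WA k P.R) g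
      (fun i₀ i => ind (fewB P k i₀ i))) := PMom_SA2 hc _ fun i _ j _ => PMom.const _
  have hmG : PMom (law μ) (fun g : Env => ∑ i₀ ∈ WI N P.R,
      SA (WI N P.R) (Wc h P.R α γ) (WA k P.R) g (fun i => ind (i = i₀)) *
        ind (Inc P μ h (tr k i₀.1 i₀.2) k g)) :=
    PMom.sum _ fun i₀ _ => (hm1 i₀).mul (hm2 i₀)
  have hmH : PMom (law μ) (fun g : Env => D g + e) := hm4.add (PMom.const e)
  refine (integral_mono hmF.integrable (hmG.add hmH).integrable hpt).trans ?_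
  rw [integral_add hmG.integrable hmH.integrable, integral_add hm4.integrable
    (PMom.const e).integrable, integral_const, probReal_univ, one_smul]
  have h5 : ∫ g : Env, ∑ i₀ ∈ WI N P.R,
      SA (WI N P.R) (Wc h P.R α γ) (WA k P.R) g (fun i => ind (i = i₀)) *
        ind (Inc P μ h (tr k i₀.1 i₀.2) k g) ∂(law μ) ≤ e1 P μ := by
    rw [integral_finsetSum _ fun i₀ _ => ((hm1 i₀).mul (hm2 i₀)).integrable]
    calc ∑ i₀ ∈ WI N P.R, ∫ g : Env,
          SA (WI N P.R) (Wc h P.R α γ) (WA k P.R) g (fun i => ind (i = i₀)) *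
            ind (Inc P μ h (tr k i₀.1 i₀.2) k g) ∂(law μ)
        ≤ ∑ i₀ ∈ WI N P.R, e1 P μ * ∫ g : Env,
          SA (WI N P.R) (Wc h P.R α γ) (WA k P.R) g (fun i => ind (i = i₀)) ∂(law μ) :=
          Finset.sum_le_sum fun i₀ hi₀ => harW hμ hpq hk hP h hc hi₀
      _ = e1 P μ * ∫ g : Env, ∑ i₀ ∈ WI N P.R,
          SA (WI N P.R) (Wc h P.R α γ) (WA k P.R) g (fun i => ind (i = i₀)) ∂(law μ) := by
          rw [← Finset.mul_sum, integral_finsetSum _ fun i₀ _ => (hm1 i₀).integrable]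
      _ = e1 P μ := by
          simp only [hone]
          rw [integral_const, probReal_univ, one_smul, mul_one]
  linarith

end

end Pool.Agent.W_7d29a1_h47
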