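import Pool.Agent.W_7d29a1_h47q.NMa
import Pool.Agent.W_7d29a1_h47q.CloseW

/-!
# The no-meeting bound for windows with deterministic weights
-/

namespace Pool.Agent.W_7d29a1_h47

open MeasureTheory ProbabilityTheory Finset

noncomputable section

variable {P : Prm} {μ : Measure ℝ} [IsProbabilityMeasure μ]

/-- Indicator of distance `> 4 w` at the relative time `j`. -/
def farI (P : Prm) (j : ℕ) (i i' : ℤ × (ℕ → Bool)) : ℝ :=
  ind (4 * (P.w : ℝ) < |(i.1 + pos i.2 j : ℝ) - (i'.1 + pos i'.2 j)|)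

/-- The two walk functional that bounds a bad block. -/
def bdI (P : Prm) (a : ℕ) (i i' : ℤ × (ℕ → Bool)) : ℝ :=
  farI P (a * P.TB + P.L) i i' + farI P (a * P.TB + P.L + P.ℓ) i i' +
    2 / P.ℓ * ∑ j ∈ range P.ℓ, farI P (a * P.TB + P.L + j + 1) i i' +
    Sl P (shf (a * P.TB) i'.2) + Sl P (shf (a * P.TB + P.L + P.ℓ) i'.2)

lemma NMb_farI_nonneg (P : Prm) (j : ℕ) (i i' : ℤ × (ℕ → Bool)) : 0 ≤ farI P j i i' :=
  ind_nonneg _

lemma NMb_bdI_nonneg (P : Prm) (a : ℕ) (i i' : ℤ × (ℕ → Bool)) : 0 ≤ bdI P a i i' := by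
  unfold bdI Sl
  have h1 := NMb_farI_nonneg P (a * P.TB + P.L) i i'
  have h2 := NMb_farI_nonneg P (a * P.TB + P.L + P.ℓ) i i'
  have h3 : 0 ≤ 2 / (P.ℓ : ℝ) * ∑ j ∈ range P.ℓ, farI P (a * P.TB + P.L + j + 1) i i' :=
    mul_nonneg (by positivity) (Finset.sum_nonneg fun j _ => NMb_farI_nonneg P _ i i')
  have h4 := ind_nonneg (P.ρ * P.L < |(pos (shf (a * P.TB) i'.2) P.L : ℝ)|)
  have h5 := ind_nonneg (P.ρ * P.L < |(pos (shf (a * P.TB + P.L + P.ℓ) i'.2) P.L : ℝ)|)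
  linarith

lemma NMb_shf (a b : ℕ) (s : ℕ → Bool) : shf a (shf b s) = shf (b + a) s := by
  funext i
  simp only [shf]
  rw [add_assoc]

/-- The far indicator, in terms of integers, for a walk to the right. -/
lemma NMb_far {P : Prm} {i i' : ℤ × (ℕ → Bool)} {j : ℕ}
    (h : ¬ i'.1 + pos i'.2 j ≤ i.1 + pos i.2 j + 4 * P.w) : farI P j i i' = 1 := by
  refine ind_true ?_
  have h1 : i.1 + pos i.2 j + 4 * (P.w : ℤ) < i'.1 + pos i'.2 j := not_le.1 h
  have h2 : ((i.1 + pos i.2 j + 4 * (P.w : ℤ) : ℤ) : ℝ) < ((i'.1 + pos i'.2 j : ℤ) : ℝ) := by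
    exact_mod_cast h1
  push_cast at h2
  rw [lt_abs]
  right
  linarith

/-- A bad block `a < I` of a walk `i'` right of `i` with the same parity. Proof. `tr_add`; the parity
condition and the order in `goodB` hold: `i'.1 + pos i'.2 (a TB) - (i.1 + pos i.2 (a TB))` is even, and
`rt R i i'` (times `a TB + j ≤ R`). If the condition at time `L` fails, the distance at the time
`a TB + L` is `> 4w` (the difference is positive by `rt`); the same at `L + ℓ`; if fewer than `ℓ/2` of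
the middle times are close, more than `ℓ/2` are far (`ind (≤) + ind (far) ≥ 1`), so the third term is
`≥ 1`; the slope conditions are `Sl` (`pos (shf c r) L = pos r (c + L) - pos r c`, `pos_add`). -/
lemma bad_le {k : ℕ} (hℓ : 1 ≤ P.ℓ) {i i' : ℤ × (ℕ → Bool)} (hpar : (i.1 - i'.1) % 2 = 0)
    (hr : rt P.R i i') {a : ℕ} (ha : a < P.I) :
    ind (¬ goodB P (tr k i.1 i.2) (k + a * P.TB) (i'.1 + pos i'.2 (a * P.TB))
      (shf (a * P.TB) i'.2)) ≤ bdI P a i i' := by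
  have hTB : a * P.TB + P.TB ≤ P.R := by
    unfold Prm.R
    have h1 : a + 1 ≤ P.I + 1 := by omega
    have h2 := Nat.mul_le_mul_right P.TB h1
    have h3 : (a + 1) * P.TB = a * P.TB + P.TB := by ring
    omega
  have hb : ∀ j : ℕ, tr k i.1 i.2 (k + a * P.TB + j) = i.1 + pos i.2 (a * P.TB + j) := by
    intro j
    rw [add_assoc, tr_add]
  have hx : ∀ j : ℕ, i'.1 + pos i'.2 (a * P.TB) + pos (shf (a * P.TB) i'.2) j =
      i'.1 + pos i'.2 (a * P.TB + j) := by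
    intro j
    rw [pos_add]
    ring
  have f1 := NMb_farI_nonneg P (a * P.TB + P.L) i i'
  have f2 := NMb_farI_nonneg P (a * P.TB + P.L + P.ℓ) i i'
  have f3 : 0 ≤ 2 / (P.ℓ : ℝ) * ∑ j ∈ range P.ℓ, farI P (a * P.TB + P.L + j + 1) i i' :=
    mul_nonneg (by positivity) (Finset.sum_nonneg fun j _ => NMb_farI_nonneg P _ i i')
  have f4 : 0 ≤ Sl P (shf (a * P.TB) i'.2) := ind_nonneg _
  have f5 : 0 ≤ Sl P (shf (a * P.TB + P.L + P.ℓ) i'.2) := ind_nonneg _
  by_cases hg : goodB P (tr k i.1 i.2) (k + a * P.TB) (i'.1 + pos i'.2 (a * P.TB))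
      (shf (a * P.TB) i'.2)
  · rw [ind_false (not_not.2 hg)]
    exact NMb_bdI_nonneg P a i i'
  · rw [ind_true hg]
    unfold bdI
    unfold goodB at hg
    by_cases c3 : i'.1 + pos i'.2 (a * P.TB + P.L) ≤ i.1 + pos i.2 (a * P.TB + P.L) + 4 * P.w
    swap
    · rw [NMb_far c3]
      linarith
    by_cases c4 : i'.1 + pos i'.2 (a * P.TB + P.L + P.ℓ) ≤
        i.1 + pos i.2 (a * P.TB + P.L + P.ℓ) + 4 * P.w
    swap
    · rw [NMb_far c4]
      linarith
    by_cases c5 : (P.ℓ : ℝ) / 2 ≤ ∑ j ∈ range P.ℓ,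
        ind (i'.1 + pos i'.2 (a * P.TB + P.L + j + 1) ≤
          i.1 + pos i.2 (a * P.TB + P.L + j + 1) + 4 * P.w)
    swap
    · have hℓ0 : (0 : ℝ) < P.ℓ := by exact_mod_cast hℓ
      have g1 : (P.ℓ : ℝ) ≤ ∑ j ∈ range P.ℓ,
          (ind (i'.1 + pos i'.2 (a * P.TB + P.L + j + 1) ≤
            i.1 + pos i.2 (a * P.TB + P.L + j + 1) + 4 * P.w) +
            farI P (a * P.TB + P.L + j + 1) i i') := by
        have g2 : (P.ℓ : ℝ) = ∑ j ∈ range P.ℓ, (1 : ℝ) := by simp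
        conv_lhs => rw [g2]
        refine Finset.sum_le_sum fun j _ => ?_
        by_cases c : i'.1 + pos i'.2 (a * P.TB + P.L + j + 1) ≤
            i.1 + pos i.2 (a * P.TB + P.L + j + 1) + 4 * P.w
        · rw [ind_true c]
          linarith [NMb_farI_nonneg P (a * P.TB + P.L + j + 1) i i']
        · rw [NMb_far c]
          linarith [ind_nonneg (i'.1 + pos i'.2 (a * P.TB + P.L + j + 1) ≤
            i.1 + pos i.2 (a * P.TB + P.L + j + 1) + 4 * P.w)]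
      rw [Finset.sum_add_distrib] at g1
      have g3 : (P.ℓ : ℝ) / 2 ≤ ∑ j ∈ range P.ℓ, farI P (a * P.TB + P.L + j + 1) i i' := by
        linarith [not_le.1 c5]
      have g4 : 1 ≤ 2 / (P.ℓ : ℝ) * ∑ j ∈ range P.ℓ, farI P (a * P.TB + P.L + j + 1) i i' := by
        calc (1 : ℝ) = 2 / (P.ℓ : ℝ) * ((P.ℓ : ℝ) / 2) := by field_simp
          _ ≤ _ := mul_le_mul_of_nonneg_left g3 (by positivity)
      linarith
    by_cases c6 : |(pos (shf (a * P.TB) i'.2) P.L : ℝ)| ≤ P.ρ * P.L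
    swap
    · have : Sl P (shf (a * P.TB) i'.2) = 1 := ind_true (not_le.1 c6)
      rw [this]
      linarith
    by_cases c7 : |(pos (shf (a * P.TB + P.L + P.ℓ) i'.2) P.L : ℝ)| ≤ P.ρ * P.L
    swap
    · have : Sl P (shf (a * P.TB + P.L + P.ℓ) i'.2) = 1 := ind_true (not_le.1 c7)
      rw [this]
      linarith
    exfalso
    apply hg
    refine ⟨?_, ?_, ?_, ?_, ?_, c6, ?_⟩
    · have h1 := hb 0
      simp only [add_zero] at h1
      rw [h1]
      have p1 := pos_parity i.2 (a * P.TB)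
      have p2 := pos_parity i'.2 (a * P.TB)
      omega
    · intro j hj
      rw [hb, hx]
      exact hr _ (by omega)
    · rw [hb, hx]
      exact c3
    · rw [hx, add_assoc (k + a * P.TB), hb, ← add_assoc (a * P.TB)]
      exact c4
    · have e1 : ∀ j ∈ range P.ℓ, ind (i'.1 + pos i'.2 (a * P.TB) +
            pos (shf (a * P.TB) i'.2) (P.L + j + 1) ≤
            tr k i.1 i.2 (k + a * P.TB + P.L + j + 1) + 4 * P.w) =
          ind (i'.1 + pos i'.2 (a * P.TB + P.L + j + 1) ≤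
            i.1 + pos i.2 (a * P.TB + P.L + j + 1) + 4 * P.w) := by
        intro j _
        have e2 : k + a * P.TB + P.L + j + 1 = k + a * P.TB + (P.L + j + 1) := by ring
        have e3 : a * P.TB + P.L + j + 1 = a * P.TB + (P.L + j + 1) := by ring
        rw [e2, hb, hx, e3]
      rw [Finset.sum_congr rfl e1]
      exact c5
    · have e1 : (pos (shf (a * P.TB) i'.2) (P.L + P.ℓ + P.L) : ℝ) -
          pos (shf (a * P.TB) i'.2) (P.L + P.ℓ) =
          (pos (shf (a * P.TB + P.L + P.ℓ) i'.2) P.L : ℝ) := by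
        rw [pos_add (shf (a * P.TB) i'.2) (P.L + P.ℓ) P.L, NMb_shf, ← add_assoc]
        push_cast
        ring
      rw [e1]
      exact c7

/-- Pointwise. Proof. If `rt` and not `fewB` then `nbad > I/32`, so `1 ≤ (32/I) nbad ≤ (32/I) ∑ bdI`. -/
lemma rt_le {k : ℕ} (hI : 1 ≤ P.I) (hℓ : 1 ≤ P.ℓ) {i i' : ℤ × (ℕ → Bool)}
    (hpar : (i.1 - i'.1) % 2 = 0) :
    ind (rt P.R i i') ≤ ind (fewB P k i i') + 32 / P.I * ∑ a ∈ range P.I, bdI P a i i' := by
  have hI0 : (0 : ℝ) < P.I := by exact_mod_cast hI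
  have h0 : 0 ≤ 32 / (P.I : ℝ) * ∑ a ∈ range P.I, bdI P a i i' :=
    mul_nonneg (by positivity) (Finset.sum_nonneg fun a _ => NMb_bdI_nonneg P a i i')
  by_cases hr : rt P.R i i'
  · rw [ind_true hr]
    by_cases hf : fewB P k i i'
    · rw [ind_true hf]
      linarith
    · rw [ind_false hf, zero_add]
      have h1 : (P.I : ℝ) / 32 < nbad P (tr k i.1 i.2) k i'.1 i'.2 := by
        by_contra hcon
        exact hf ⟨hr, not_lt.1 hcon⟩
      have h2 : nbad P (tr k i.1 i.2) k i'.1 i'.2 ≤ ∑ a ∈ range P.I, bdI P a i i' :=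
        Finset.sum_le_sum fun a ha => bad_le hℓ hpar hr (Finset.mem_range.1 ha)
      calc (1 : ℝ) = 32 / (P.I : ℝ) * ((P.I : ℝ) / 32) := by field_simp
        _ ≤ _ := mul_le_mul_of_nonneg_left (h1.le.trans h2) (by positivity)
  · rw [ind_false hr]
    linarith [ind_nonneg (fewB P k i i')]

/-! Moments of the functionals. -/

lemma NMb_phc (p q : ℝ) (z : ℕ × ℤ) : PMom (law μ) (fun g : Env => phc μ p q (g z)) := by
  have h1 : PMom (law μ) (fun g : Env => phi p q (g z)) :=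
    PMom.of_bounded (c := 1) ((SiteK_phi_meas p q).comp (measurable_pi_apply z))
      fun g => SiteK_phi_abs p q _
  exact h1.sub (PMom.const _)

lemma NMb_Phi0 (hμ : EM μ) (P : Prm) (p q v : ℝ) (r : ℕ → Bool) :
    PMom (law μ) (fun g : Env => Phi0 P μ p q v g r) := by
  have h1 : PMom (law μ) (fun g : Env => tubeX (phc μ p q) v P.w g 0 0 P.T₁) :=
    PMom.sum _ fun i _ => PMom.sum _ fun y _ => (NMb_phc p q _).const_mul _
  have h2 : PMom (law μ) (fun g : Env => max (tubeX (phc μ p q) v P.w g 0 0 P.T₁) 0) := by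
    refine h1.mono (h1.1.max measurable_const) fun g => ?_
    rw [abs_of_nonneg (le_max_right _ _)]
    exact max_le (le_abs_self _) (abs_nonneg _)
  have h3 : PMom (law μ) (fun g : Env => ∑ i ∈ range P.T₁, Real.exp |g (i, pos r (i + 1))| *
      ind (2 * (P.w : ℝ) < |(pos r (i + 1) : ℝ) - v * (i + 1)|)) :=
    PMom.sum _ fun i _ => (EMom_coord hμ _).abs.exp'.mul (PMom.const _)
  unfold Phi0
  exact ((h2.add (h3.const_mul _)).const_mul _).add (PMom.const _)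

lemma NMb_Phi (hμ : EM μ) (P : Prm) (p q v : ℝ) (t : ℕ) (x : ℤ) (r : ℕ → Bool) :
    PMom (law μ) (fun g : Env => Phi P μ p q v g t x r) :=
  (NMb_Phi0 hμ P p q v r).comp (mp_shiftEnv t x)

/-- The contribution of one block to `Psi`. -/
def NMbG (P : Prm) (μ : Measure ℝ) (p q v : ℝ) (g : Env) (k : ℕ) (a : ℕ) (x : ℤ)
    (r : ℕ → Bool) : ℝ :=
  Phi P μ p q v g (k + (a * P.TB + P.L)) (x + pos r (a * P.TB + P.L)) (shf (a * P.TB + P.L) r) +
    Phi P μ p q v g (k + (a * P.TB + P.L + P.ℓ)) (x + pos r (a * P.TB + P.L + P.ℓ))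
      (shf (a * P.TB + P.L + P.ℓ) r) +
    2 / P.ℓ * ∑ j ∈ range P.ℓ, Phi P μ p q v g (k + (a * P.TB + P.L + j + 1))
      (x + pos r (a * P.TB + P.L + j + 1)) (shf (a * P.TB + P.L + j + 1) r) +
    Sl P (shf (a * P.TB) r) + Sl P (shf (a * P.TB + P.L + P.ℓ) r)

lemma NMb_G (hμ : EM μ) (P : Prm) (p q v : ℝ) (k a : ℕ) (x : ℤ) (r : ℕ → Bool) :
    PMom (law μ) (fun g : Env => NMbG P μ p q v g k a x r) := by
  unfold NMbG
  exact (((((NMb_Phi hμ P p q v _ _ _).add (NMb_Phi hμ P p q v _ _ _)).add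
    ((PMom.sum _ fun j _ => NMb_Phi hμ P p q v _ _ _).const_mul _)).add (PMom.const _)).add
      (PMom.const _))

omit [IsProbabilityMeasure μ] in
lemma NMb_Psi_eq (P : Prm) (p q h v : ℝ) (g : Env) (k : ℕ) (x : ℤ) (r : ℕ → Bool) :
    Psi P μ p q h v g k x r =
      2 * Dn P μ h g k x r + 64 / P.I * ∑ a ∈ range P.I, NMbG P μ p q v g k a x r := rfl

lemma NMb_Dn (P : Prm) (h : ℝ) (k : ℕ) (x : ℤ) (r : ℕ → Bool) :
    PMom (law μ) (fun g : Env => Dn P μ h g k x r) := by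
  refine PMom.of_bounded (c := 1) ?_ fun g => ind_abs _
  exact Measurable.ite (measurableSet_lt (measurable_Kp h k x P.R _) measurable_const)
    measurable_const measurable_const

lemma NMb_G_nonneg {p q : ℝ} (hk : 0 ≤ kmin μ p q) (P : Prm) (v : ℝ) (g : Env) (k a : ℕ) (x : ℤ)
    (r : ℕ → Bool) : 0 ≤ NMbG P μ p q v g k a x r := by
  unfold NMbG
  have h1 := Phi_nonneg hk P v g (k + (a * P.TB + P.L)) (x + pos r (a * P.TB + P.L))
    (shf (a * P.TB + P.L) r)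
  have h2 := Phi_nonneg hk P v g (k + (a * P.TB + P.L + P.ℓ)) (x + pos r (a * P.TB + P.L + P.ℓ))
      (shf (a * P.TB + P.L + P.ℓ) r)
  have h3 : 0 ≤ 2 / (P.ℓ : ℝ) * ∑ j ∈ range P.ℓ, Phi P μ p q v g (k + (a * P.TB + P.L + j + 1))
      (x + pos r (a * P.TB + P.L + j + 1)) (shf (a * P.TB + P.L + j + 1) r) :=
    mul_nonneg (by positivity) (Finset.sum_nonneg fun j _ => Phi_nonneg hk P v g _ _ _)
  have h4 : 0 ≤ Sl P (shf (a * P.TB) r) := ind_nonneg _
  have h5 : 0 ≤ Sl P (shf (a * P.TB + P.L + P.ℓ) r) := ind_nonneg _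
  linarith

lemma NMb_far_int (P : Prm) {N k R : ℕ} {c : ℤ × (ℕ → Bool) → ℝ} (hc : Adms (WI N R) c) (j : ℕ) :
    PMom (law μ) (fun g : Env => SA2 (WI N R) c (WA k R) g (farI P j)) :=
  PMom_SA2 hc _ fun i _ i' _ => PMom.const _

/-- The two walk functional of a block, expanded. -/
lemma NMb_SA2 {N k R : ℕ} {c : ℤ × (ℕ → Bool) → ℝ} (hc : Adms (WI N R) c) (P : Prm) (a : ℕ)
    (g : Env) : SA2 (WI N R) c (WA k R) g (bdI P a) =
      SA2 (WI N R) c (WA k R) g (farI P (a * P.TB + P.L)) +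
      SA2 (WI N R) c (WA k R) g (farI P (a * P.TB + P.L + P.ℓ)) +
      2 / P.ℓ * ∑ j ∈ range P.ℓ, SA2 (WI N R) c (WA k R) g (farI P (a * P.TB + P.L + j + 1)) +
      SA (WI N R) c (WA k R) g (fun i => Sl P (shf (a * P.TB) i.2)) +
      SA (WI N R) c (WA k R) g (fun i => Sl P (shf (a * P.TB + P.L + P.ℓ) i.2)) := by
  have e1 := SA2_snd (g := g) (A := WA k R) hc (fun i => Sl P (shf (a * P.TB) i.2))
  have e2 := SA2_snd (g := g) (A := WA k R) hc (fun i => Sl P (shf (a * P.TB + P.L + P.ℓ) i.2))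
  rw [← e1, ← e2, ← SA2_sum, ← SA2_mul_left, ← SA2_add, ← SA2_add, ← SA2_add, ← SA2_add]
  rfl

/-- The one walk functional of a block, expanded. -/
lemma NMb_SA {N k R : ℕ} {c : ℤ × (ℕ → Bool) → ℝ} (P : Prm) (p q v : ℝ) (a : ℕ)
    (g : Env) : SA (WI N R) c (WA k R) g (fun i => NMbG P μ p q v g k a i.1 i.2) =
      SA (WI N R) c (WA k R) g (fun i => Phi P μ p q v g (k + (a * P.TB + P.L))
        (i.1 + pos i.2 (a * P.TB + P.L)) (shf (a * P.TB + P.L) i.2)) +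
      SA (WI N R) c (WA k R) g (fun i => Phi P μ p q v g (k + (a * P.TB + P.L + P.ℓ))
        (i.1 + pos i.2 (a * P.TB + P.L + P.ℓ)) (shf (a * P.TB + P.L + P.ℓ) i.2)) +
      2 / P.ℓ * ∑ j ∈ range P.ℓ, SA (WI N R) c (WA k R) g (fun i =>
        Phi P μ p q v g (k + (a * P.TB + P.L + j + 1))
          (i.1 + pos i.2 (a * P.TB + P.L + j + 1)) (shf (a * P.TB + P.L + j + 1) i.2)) +
      SA (WI N R) c (WA k R) g (fun i => Sl P (shf (a * P.TB) i.2)) +
      SA (WI N R) c (WA k R) g (fun i => Sl P (shf (a * P.TB + P.L + P.ℓ) i.2)) := by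
  rw [← SA_sum, ← SA_mul_left, ← SA_add, ← SA_add, ← SA_add, ← SA_add]
  rfl

lemma NMb_int5 {f1 f2 f4 f5 : Env → ℝ} {f3 : ℕ → Env → ℝ} (c : ℝ) (n : ℕ)
    (h1 : Integrable f1 (law μ)) (h2 : Integrable f2 (law μ))
    (h3 : ∀ j, Integrable (f3 j) (law μ)) (h4 : Integrable f4 (law μ))
    (h5 : Integrable f5 (law μ)) :
    ∫ g, (f1 g + f2 g + c * ∑ j ∈ range n, f3 j g + f4 g + f5 g) ∂(law μ) =
      ∫ g, f1 g ∂(law μ) + ∫ g, f2 g ∂(law μ) + c * ∑ j ∈ range n, ∫ g, f3 j g ∂(law μ) +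
        ∫ g, f4 g ∂(law μ) + ∫ g, f5 g ∂(law μ) := by
  have i3 : Integrable (fun g => c * ∑ j ∈ range n, f3 j g) (law μ) :=
    (integrable_finset_sum _ fun j _ => h3 j).const_mul _
  have a1 : Integrable (fun g => f1 g + f2 g) (law μ) := h1.add h2
  have a2 : Integrable (fun g => f1 g + f2 g + c * ∑ j ∈ range n, f3 j g) (law μ) := a1.add i3
  have a3 : Integrable (fun g => f1 g + f2 g + c * ∑ j ∈ range n, f3 j g + f4 g) (law μ) :=
    a2.add h4
  rw [integral_add a3 h5, integral_add a2 h4, integral_add a1 i3, integral_add h1 h2,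
    integral_const_mul, integral_finsetSum _ fun j _ => h3 j]

lemma NMb_far_i (P : Prm) {N k : ℕ} {c : ℤ × (ℕ → Bool) → ℝ} (hc : Adms (WI N P.R) c) (j : ℕ) :
    Integrable (fun g : Env => SA2 (WI N P.R) c (WA k P.R) g (farI P j)) (law μ) := by
  have h : PMom (law μ) (fun g : Env => SA2 (WI N P.R) c (WA k P.R) g (farI P j)) :=
    NMb_far_int P hc j
  exact h.integrable

lemma NMb_Sl_i (P : Prm) {N k : ℕ} {c : ℤ × (ℕ → Bool) → ℝ} (hc : Adms (WI N P.R) c) (j : ℕ) :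
    Integrable (fun g : Env => SA (WI N P.R) c (WA k P.R) g
      (fun i => Sl P (shf j i.2))) (law μ) := by
  have h : PMom (law μ) (fun g : Env => SA (WI N P.R) c (WA k P.R) g
      (fun i => Sl P (shf j i.2))) :=
    PMom_SA (F := fun _ i => Sl P (shf j i.2)) hc _ fun i _ => PMom.const _
  exact h.integrable

lemma NMb_Phi_i (hμ : EM μ) (P : Prm) (p q v : ℝ) {N k : ℕ} {c : ℤ × (ℕ → Bool) → ℝ}
    (hc : Adms (WI N P.R) c) (j : ℕ) :
    Integrable (fun g : Env => SA (WI N P.R) c (WA k P.R) g (fun i =>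
        Phi P μ p q v g (k + j) (i.1 + pos i.2 j) (shf j i.2))) (law μ) := by
  have h : PMom (law μ) (fun g : Env => SA (WI N P.R) c (WA k P.R) g (fun i =>
        Phi P μ p q v g (k + j) (i.1 + pos i.2 j) (shf j i.2))) :=
    PMom_SA (F := fun g i => Phi P μ p q v g (k + j) (i.1 + pos i.2 j) (shf j i.2)) hc _
      fun i _ => NMb_Phi hμ P p q v _ _ _
  exact h.integrable

lemma NMb_eL (P : Prm) {N k : ℕ} {c : ℤ × (ℕ → Bool) → ℝ} (hc : Adms (WI N P.R) c) (a : ℕ) :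
    ∫ g : Env, SA2 (WI N P.R) c (WA k P.R) g (bdI P a) ∂(law μ) =
      ∫ g : Env, SA2 (WI N P.R) c (WA k P.R) g (farI P (a * P.TB + P.L)) ∂(law μ) +
      ∫ g : Env, SA2 (WI N P.R) c (WA k P.R) g (farI P (a * P.TB + P.L + P.ℓ)) ∂(law μ) +
      2 / P.ℓ * ∑ j ∈ range P.ℓ, ∫ g : Env,
        SA2 (WI N P.R) c (WA k P.R) g (farI P (a * P.TB + P.L + j + 1)) ∂(law μ) +
      ∫ g : Env, SA (WI N P.R) c (WA k P.R) g (fun i => Sl P (shf (a * P.TB) i.2)) ∂(law μ) +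
      ∫ g : Env, SA (WI N P.R) c (WA k P.R) g
        (fun i => Sl P (shf (a * P.TB + P.L + P.ℓ) i.2)) ∂(law μ) := by
  have hfa := fun j : ℕ => NMb_far_i (μ := μ) (k := k) P hc j
  have hSl := fun j : ℕ => NMb_Sl_i (μ := μ) (k := k) P hc j
  have e := funext fun g : Env => NMb_SA2 (k := k) hc P a g
  rw [e]
  exact NMb_int5 (f1 := fun g => SA2 (WI N P.R) c (WA k P.R) g (farI P (a * P.TB + P.L)))
    (f2 := fun g => SA2 (WI N P.R) c (WA k P.R) g (farI P (a * P.TB + P.L + P.ℓ)))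
    (f3 := fun j g => SA2 (WI N P.R) c (WA k P.R) g (farI P (a * P.TB + P.L + j + 1)))
    (f4 := fun g => SA (WI N P.R) c (WA k P.R) g (fun i => Sl P (shf (a * P.TB) i.2)))
    (f5 := fun g => SA (WI N P.R) c (WA k P.R) g
      (fun i => Sl P (shf (a * P.TB + P.L + P.ℓ) i.2)))
    (2 / P.ℓ) P.ℓ (hfa (a * P.TB + P.L)) (hfa (a * P.TB + P.L + P.ℓ))
    (fun j => hfa (a * P.TB + P.L + j + 1)) (hSl (a * P.TB)) (hSl (a * P.TB + P.L + P.ℓ))

lemma NMb_eR (hμ : EM μ) (P : Prm) (p q v : ℝ) {N k : ℕ} {c : ℤ × (ℕ → Bool) → ℝ}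
    (hc : Adms (WI N P.R) c) (a : ℕ) :
    ∫ g : Env, SA (WI N P.R) c (WA k P.R) g (fun i =>
        NMbG P μ p q v g k a i.1 i.2) ∂(law μ) =
      ∫ g : Env, SA (WI N P.R) c (WA k P.R) g (fun i => Phi P μ p q v g (k + (a * P.TB + P.L))
        (i.1 + pos i.2 (a * P.TB + P.L)) (shf (a * P.TB + P.L) i.2)) ∂(law μ) +
      ∫ g : Env, SA (WI N P.R) c (WA k P.R) g (fun i =>
        Phi P μ p q v g (k + (a * P.TB + P.L + P.ℓ))
        (i.1 + pos i.2 (a * P.TB + P.L + P.ℓ)) (shf (a * P.TB + P.L + P.ℓ) i.2)) ∂(law μ) +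
      2 / P.ℓ * ∑ j ∈ range P.ℓ, ∫ g : Env, SA (WI N P.R) c (WA k P.R) g (fun i =>
        Phi P μ p q v g (k + (a * P.TB + P.L + j + 1))
          (i.1 + pos i.2 (a * P.TB + P.L + j + 1)) (shf (a * P.TB + P.L + j + 1) i.2)) ∂(law μ) +
      ∫ g : Env, SA (WI N P.R) c (WA k P.R) g (fun i => Sl P (shf (a * P.TB) i.2)) ∂(law μ) +
      ∫ g : Env, SA (WI N P.R) c (WA k P.R) g
        (fun i => Sl P (shf (a * P.TB + P.L + P.ℓ) i.2)) ∂(law μ) := by
  have hPh := fun j : ℕ => NMb_Phi_i (k := k) hμ P p q v hc j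
  have hSl := fun j : ℕ => NMb_Sl_i (μ := μ) (k := k) P hc j
  have e := funext fun g : Env => NMb_SA (μ := μ) (N := N) (k := k) (R := P.R) (c := c) P p q v a g
  rw [e]
  exact NMb_int5 (f1 := fun g => SA (WI N P.R) c (WA k P.R) g (fun i =>
        Phi P μ p q v g (k + (a * P.TB + P.L)) (i.1 + pos i.2 (a * P.TB + P.L))
        (shf (a * P.TB + P.L) i.2)))
    (f2 := fun g => SA (WI N P.R) c (WA k P.R) g (fun i =>
        Phi P μ p q v g (k + (a * P.TB + P.L + P.ℓ))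
        (i.1 + pos i.2 (a * P.TB + P.L + P.ℓ)) (shf (a * P.TB + P.L + P.ℓ) i.2)))
    (f3 := fun j g => SA (WI N P.R) c (WA k P.R) g (fun i =>
        Phi P μ p q v g (k + (a * P.TB + P.L + j + 1))
          (i.1 + pos i.2 (a * P.TB + P.L + j + 1)) (shf (a * P.TB + P.L + j + 1) i.2)))
    (f4 := fun g => SA (WI N P.R) c (WA k P.R) g (fun i => Sl P (shf (a * P.TB) i.2)))
    (f5 := fun g => SA (WI N P.R) c (WA k P.R) g
      (fun i => Sl P (shf (a * P.TB + P.L + P.ℓ) i.2)))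
    (2 / P.ℓ) P.ℓ (hPh (a * P.TB + P.L)) (hPh (a * P.TB + P.L + P.ℓ))
    (fun j => hPh (a * P.TB + P.L + j + 1)) (hSl (a * P.TB)) (hSl (a * P.TB + P.L + P.ℓ))


/-- Proof. `closeW` for the three kinds of times (all `j` that occur satisfy `j + T₁ ≤ R` because
`a < I` and `T₁ ≤ TB`), `SA2_snd` for the slopes, linearity of `SA2`, `SA` and of the integral
(`PMom_SA2`, `PMom_SA`; the functionals `Phi` have all moments). -/
lemma bdI_int (hμ : EM μ) {p q : ℝ} (hpq : p < q) (hk : 0 < kmin μ p q) (hP : P.Ok μ p q) {v : ℝ}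
    (hv : |v| ≤ 1) {N k : ℕ} {c : ℤ × (ℕ → Bool) → ℝ} (hc : Adms (WI N P.R) c) {a : ℕ}
    (ha : a < P.I) :
    ∫ g : Env, SA2 (WI N P.R) c (WA k P.R) g (bdI P a) ∂(law μ) ≤
      ∫ g : Env, SA (WI N P.R) c (WA k P.R) g (fun i =>
        Phi P μ p q v g (k + (a * P.TB + P.L)) (i.1 + pos i.2 (a * P.TB + P.L))
          (shf (a * P.TB + P.L) i.2) +
        Phi P μ p q v g (k + (a * P.TB + P.L + P.ℓ)) (i.1 + pos i.2 (a * P.TB + P.L + P.ℓ))
          (shf (a * P.TB + P.L + P.ℓ) i.2) +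
        2 / P.ℓ * ∑ j ∈ range P.ℓ, Phi P μ p q v g (k + (a * P.TB + P.L + j + 1))
          (i.1 + pos i.2 (a * P.TB + P.L + j + 1)) (shf (a * P.TB + P.L + j + 1) i.2) +
        Sl P (shf (a * P.TB) i.2) + Sl P (shf (a * P.TB + P.L + P.ℓ) i.2)) ∂(law μ) := by
  have hTB : a * P.TB + P.TB + P.TB ≤ P.R := by
    unfold Prm.R
    have h1 : a + 2 ≤ P.I + 1 := by omega
    have h2 := Nat.mul_le_mul_right P.TB h1
    have h3 : (a + 2) * P.TB = a * P.TB + P.TB + P.TB := by ring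
    omega
  have hTBd : P.TB = P.L + P.ℓ + P.L := rfl
  have hTT := hP.TT
  have hT1 : 1 ≤ P.T₁ := hP.w1.trans hP.wT
  have hcl : ∀ j : ℕ, j + P.T₁ ≤ P.R →
      ∫ g : Env, SA2 (WI N P.R) c (WA k P.R) g (farI P j) ∂(law μ) ≤
      ∫ g : Env, SA (WI N P.R) c (WA k P.R) g (fun i =>
        Phi P μ p q v g (k + j) (i.1 + pos i.2 j) (shf j i.2)) ∂(law μ) :=
    fun j hj => closeW hμ hpq hk hv hP.wT hT1 hc hj
  have eL := NMb_eL (μ := μ) P (k := k) hc a
  have eR := NMb_eR (k := k) hμ P p q v hc a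
  refine le_trans (le_of_eq eL) (le_trans ?_ (le_of_eq eR.symm))
  have b1 := hcl (a * P.TB + P.L) (by omega)
  have b2 := hcl (a * P.TB + P.L + P.ℓ) (by omega)
  have b3 : 2 / (P.ℓ : ℝ) * ∑ j ∈ range P.ℓ, ∫ g : Env,
        SA2 (WI N P.R) c (WA k P.R) g (farI P (a * P.TB + P.L + j + 1)) ∂(law μ) ≤
      2 / P.ℓ * ∑ j ∈ range P.ℓ, ∫ g : Env, SA (WI N P.R) c (WA k P.R) g (fun i =>
        Phi P μ p q v g (k + (a * P.TB + P.L + j + 1))
          (i.1 + pos i.2 (a * P.TB + P.L + j + 1)) (shf (a * P.TB + P.L + j + 1) i.2)) ∂(law μ) := by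
    refine mul_le_mul_of_nonneg_left (Finset.sum_le_sum fun j hj => ?_) (by positivity)
    have hj' := Finset.mem_range.1 hj
    exact hcl (a * P.TB + P.L + j + 1) (by omega)
  linarith

/-- `Psi` has all moments. Proof. Finite sums of maxima of tube sums, `exp |g|` times indicators,
indicators of measurable events. -/
lemma PMom_Psi (hμ : EM μ) (P : Prm) (p q h v : ℝ) (k : ℕ) (x : ℤ) (r : ℕ → Bool) :
    PMom (law μ) (fun g : Env => Psi P μ p q h v g k x r) := by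
  simp only [NMb_Psi_eq]
  exact ((NMb_Dn P h k x r).const_mul _).add
    ((PMom.sum _ fun a _ => NMb_G hμ P p q v k a x r).const_mul _)

lemma Psi_nonneg {p q : ℝ} (hk : 0 ≤ kmin μ p q) (P : Prm) (h v : ℝ) (g : Env) (k : ℕ) (x : ℤ)
    (r : ℕ → Bool) : 0 ≤ Psi P μ p q h v g k x r := by
  rw [NMb_Psi_eq]
  have h1 : 0 ≤ Dn P μ h g k x r := ind_nonneg _
  have h2 : 0 ≤ 64 / (P.I : ℝ) * ∑ a ∈ range P.I, NMbG P μ p q v g k a x r :=
    mul_nonneg (by positivity) (Finset.sum_nonneg fun a _ => NMb_G_nonneg hk P v g k a x r)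
  linarith

/-- **No-meeting bound, deterministic weights.** `e` is the parity of the starting points. Proof.
`SA2 nmW ≤ SA2 (ind rt i i' + ind rt i' i) = 2 SA2 (ind rt)` (`SA2_mono'`, `nmW_le`; `c i ≠ 0` implies
`α i.1 ≠ 0`; `SA2_symm`), `rt_le`, `few_int`, `bdI_int`, linearity; compare with the definition of
`Psi` and `e0`. -/
theorem nm_win (hμ : EM μ) {p q : ℝ} (hpq : p < q) (hk : 0 < kmin μ p q) (hP : P.Ok μ p q) (h : ℝ)
    {v : ℝ} (hv : |v| ≤ 1) {N k : ℕ} {α γ : ℤ → ℝ} (hα : ∀ x, 0 ≤ α x) (hγ : ∀ y, 0 ≤ γ y)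
    (hc : Adms (WI N P.R) (Wc h P.R α γ)) {e : ℤ} (he : ∀ x, α x ≠ 0 → (x - e) % 2 = 0) :
    ∫ g : Env, SA2 (WI N P.R) (Wc h P.R α γ) (WA k P.R) g (nmW P.R) ∂(law μ) ≤
      e0 P μ + ∫ g : Env, SA (WI N P.R) (Wc h P.R α γ) (WA k P.R) g
        (fun i => Psi P μ p q h v g k i.1 i.2) ∂(law μ) := by
  classical
  have hα0 : ∀ i : ℤ × (ℕ → Bool), Wc h P.R α γ i ≠ 0 → α i.1 ≠ 0 := by
    intro i hi h0
    apply hi
    unfold Wc
    rw [h0]
    ring
  have hpar : ∀ i i' : ℤ × (ℕ → Bool), Wc h P.R α γ i ≠ 0 → Wc h P.R α γ i' ≠ 0 →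
      (i.1 - i'.1) % 2 = 0 := by
    intro i i' hi hi'
    have h1 := he i.1 (hα0 i hi)
    have h2 := he i'.1 (hα0 i' hi')
    omega
  -- pointwise
  have hpt : ∀ g : Env, SA2 (WI N P.R) (Wc h P.R α γ) (WA k P.R) g (nmW P.R) ≤
      2 * (SA2 (WI N P.R) (Wc h P.R α γ) (WA k P.R) g (fun i i' => ind (fewB P k i i')) +
        32 / P.I * ∑ a ∈ range P.I, SA2 (WI N P.R) (Wc h P.R α γ) (WA k P.R) g (bdI P a)) := by
    intro g
    have h1 : SA2 (WI N P.R) (Wc h P.R α γ) (WA k P.R) g (nmW P.R) ≤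
        SA2 (WI N P.R) (Wc h P.R α γ) (WA k P.R) g
          (fun i i' => ind (rt P.R i i') + ind (rt P.R i' i)) :=
      SA2_mono' hc fun i _ hi i' _ hi' => nmW_le (hpar i i' hi hi')
    have h2 : SA2 (WI N P.R) (Wc h P.R α γ) (WA k P.R) g
          (fun i i' => ind (rt P.R i i') + ind (rt P.R i' i)) =
        2 * SA2 (WI N P.R) (Wc h P.R α γ) (WA k P.R) g (fun i i' => ind (rt P.R i i')) := by
      rw [SA2_add, SA2_symm (fun i i' => ind (rt P.R i' i))]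
      ring
    have h3 : SA2 (WI N P.R) (Wc h P.R α γ) (WA k P.R) g (fun i i' => ind (rt P.R i i')) ≤
        SA2 (WI N P.R) (Wc h P.R α γ) (WA k P.R) g
          (fun i i' => ind (fewB P k i i') + 32 / P.I * ∑ a ∈ range P.I, bdI P a i i') :=
      SA2_mono' hc fun i _ hi i' _ hi' => rt_le hP.I1 hP.ℓ1 (hpar i i' hi hi')
    have h4 : SA2 (WI N P.R) (Wc h P.R α γ) (WA k P.R) g
          (fun i i' => ind (fewB P k i i') + 32 / P.I * ∑ a ∈ range P.I, bdI P a i i') =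
        SA2 (WI N P.R) (Wc h P.R α γ) (WA k P.R) g (fun i i' => ind (fewB P k i i')) +
        32 / P.I * ∑ a ∈ range P.I, SA2 (WI N P.R) (Wc h P.R α γ) (WA k P.R) g (bdI P a) := by
      rw [SA2_add, SA2_mul_left, SA2_sum]
    rw [h2] at h1
    rw [h4] at h3
    linarith
  have m1 : PMom (law μ) (fun g : Env => SA2 (WI N P.R) (Wc h P.R α γ) (WA k P.R) g
      (nmW P.R)) := PMom_SA2 hc _ fun i _ i' _ => PMom.const _
  have m2 : PMom (law μ) (fun g : Env => SA2 (WI N P.R) (Wc h P.R α γ) (WA k P.R) g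
      (fun i i' => ind (fewB P k i i'))) := PMom_SA2 hc _ fun i _ i' _ => PMom.const _
  have m3 : ∀ a : ℕ, PMom (law μ) (fun g : Env => SA2 (WI N P.R) (Wc h P.R α γ) (WA k P.R) g
      (bdI P a)) := fun a => PMom_SA2 hc _ fun i _ i' _ => PMom.const _
  have m4 : PMom (law μ) (fun g : Env => 32 / (P.I : ℝ) * ∑ a ∈ range P.I,
      SA2 (WI N P.R) (Wc h P.R α γ) (WA k P.R) g (bdI P a)) :=
    (PMom.sum _ fun a _ => m3 a).const_mul _
  have m5 : PMom (law μ) (fun g : Env => SA (WI N P.R) (Wc h P.R α γ) (WA k P.R) g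
      (fun i => Dn P μ h g k i.1 i.2)) := PMom_SA hc _ fun i _ => NMb_Dn P h k i.1 i.2
  have m6 : ∀ a : ℕ, PMom (law μ) (fun g : Env => SA (WI N P.R) (Wc h P.R α γ) (WA k P.R) g
      (fun i => NMbG P μ p q v g k a i.1 i.2)) :=
    fun a => PMom_SA hc _ fun i _ => NMb_G hμ P p q v k a i.1 i.2
  have m7 : PMom (law μ) (fun g : Env => 64 / (P.I : ℝ) * ∑ a ∈ range P.I,
      SA (WI N P.R) (Wc h P.R α γ) (WA k P.R) g (fun i => NMbG P μ p q v g k a i.1 i.2)) :=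
    (PMom.sum _ fun a _ => m6 a).const_mul _
  have i1 := integral_mono m1.integrable ((m2.add m4).const_mul 2).integrable hpt
  have i2 : ∫ g : Env, 2 * (SA2 (WI N P.R) (Wc h P.R α γ) (WA k P.R) g
        (fun i i' => ind (fewB P k i i')) +
        32 / P.I * ∑ a ∈ range P.I, SA2 (WI N P.R) (Wc h P.R α γ) (WA k P.R) g (bdI P a))
          ∂(law μ) =
      2 * (∫ g : Env, SA2 (WI N P.R) (Wc h P.R α γ) (WA k P.R) g
        (fun i i' => ind (fewB P k i i')) ∂(law μ) +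
        32 / P.I * ∑ a ∈ range P.I, ∫ g : Env,
          SA2 (WI N P.R) (Wc h P.R α γ) (WA k P.R) g (bdI P a) ∂(law μ)) := by
    rw [integral_const_mul, integral_add m2.integrable m4.integrable, integral_const_mul,
      integral_finsetSum _ fun a _ => (m3 a).integrable]
  have i3 := few_int (k := k) hμ hpq hk hP h hα hγ hc
  have i4 : ∀ a ∈ range P.I, ∫ g : Env,
      SA2 (WI N P.R) (Wc h P.R α γ) (WA k P.R) g (bdI P a) ∂(law μ) ≤
      ∫ g : Env, SA (WI N P.R) (Wc h P.R α γ) (WA k P.R) g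
        (fun i => NMbG P μ p q v g k a i.1 i.2) ∂(law μ) :=
    fun a ha => bdI_int hμ hpq hk hP hv hc (Finset.mem_range.1 ha)
  have i5 := Finset.sum_le_sum i4
  have i6 : ∫ g : Env, SA (WI N P.R) (Wc h P.R α γ) (WA k P.R) g
        (fun i => Psi P μ p q h v g k i.1 i.2) ∂(law μ) =
      2 * ∫ g : Env, SA (WI N P.R) (Wc h P.R α γ) (WA k P.R) g
        (fun i => Dn P μ h g k i.1 i.2) ∂(law μ) +
      64 / P.I * ∑ a ∈ range P.I, ∫ g : Env, SA (WI N P.R) (Wc h P.R α γ) (WA k P.R) g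
        (fun i => NMbG P μ p q v g k a i.1 i.2) ∂(law μ) := by
    have e1 : ∀ g : Env, SA (WI N P.R) (Wc h P.R α γ) (WA k P.R) g
        (fun i => Psi P μ p q h v g k i.1 i.2) =
        2 * SA (WI N P.R) (Wc h P.R α γ) (WA k P.R) g (fun i => Dn P μ h g k i.1 i.2) +
        64 / P.I * ∑ a ∈ range P.I, SA (WI N P.R) (Wc h P.R α γ) (WA k P.R) g
          (fun i => NMbG P μ p q v g k a i.1 i.2) := by
      intro g
      rw [← SA_sum, ← SA_mul_left, ← SA_mul_left, ← SA_add]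
      rfl
    simp only [e1]
    rw [integral_add (m5.const_mul 2).integrable m7.integrable, integral_const_mul,
      integral_const_mul, integral_finsetSum _ fun a _ => (m6 a).integrable]
  have hI0 : (0 : ℝ) ≤ 32 / (P.I : ℝ) := by positivity
  have i7 := mul_le_mul_of_nonneg_left i5 hI0
  rw [i2] at i1
  rw [i6]
  unfold e0
  have e2 : (64 / (P.I : ℝ)) = 2 * (32 / (P.I : ℝ)) := by ring
  rw [e2, mul_assoc]
  linarith

end

end Pool.Agent.W_7d29a1_h47
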