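import Pool.Agent.W_7d29a1_h47.Block

/-!
# A tilt moves the end point
-/

namespace Pool.Agent.W_7d29a1_h47

open MeasureTheory ProbabilityTheory Finset

noncomputable section

variable {μ : Measure ℝ} [IsProbabilityMeasure μ]

lemma NuB_tilt (g : Env) (h : ℝ) (c : ℝ) (x : ℤ) (t : ℕ) (p : (ℕ → Bool) → Prop)
    (hp : ∀ s, p s → h * (pos s t : ℝ) ≤ c) :
    Av g h 0 x t (fun s => ind (p s)) ≤ Real.exp c * Z g 0 0 x t / Z g h 0 x t := by
  have h1 := Z_mul_Av (g := g) (h := h) (t := 0) (x := x) (n := t) (fun s => ind (p s))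
  have hZ := Z_pos g h 0 x t
  rw [le_div_iff₀ hZ, mul_comm, h1]
  have h2 : Real.exp c * Z g 0 0 x t = ∑ s ∈ T t, Real.exp c * wt g 0 0 x t s := by
    unfold Z
    rw [Finset.mul_sum]
  rw [h2]
  refine Finset.sum_le_sum fun s _ => ?_
  by_cases hs : p s
  · rw [ind_true hs, mul_one]
    unfold wt
    rw [← Real.exp_add]
    refine Real.exp_le_exp.2 ?_
    have := hp s hs
    linarith
  · rw [ind_false hs, mul_zero]
    exact mul_nonneg (Real.exp_pos _).le (wt_pos _ _ _ _ _ _).le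

/-- Proof. The left side is `∑_{s : pos s t < m} wt_h / Z_h`; for `h ≥ 0` and `pos s t < m`
`wt g h 0 x t s ≤ e^{h m} wt g 0 0 x t s`. -/
lemma tilt_up (g : Env) {h : ℝ} (hh : 0 ≤ h) (x : ℤ) (t : ℕ) (m : ℤ) :
    Av g h 0 x t (fun s => ind (pos s t < m)) ≤
      Real.exp (h * m) * Z g 0 0 x t / Z g h 0 x t := by
  refine NuB_tilt g h (h * m) x t (fun s => pos s t < m) fun s hs => ?_
  refine mul_le_mul_of_nonneg_left ?_ hh
  exact_mod_cast hs.le

/-- Proof. As `tilt_up`: for `pos s t > -m`, `wt g (-h) … s ≤ e^{h m} wt g 0 … s`. -/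
lemma tilt_dn (g : Env) {h : ℝ} (hh : 0 ≤ h) (x : ℤ) (t : ℕ) (m : ℤ) :
    Av g (-h) 0 x t (fun s => ind (-m < pos s t)) ≤
      Real.exp (h * m) * Z g 0 0 x t / Z g (-h) 0 x t := by
  refine NuB_tilt g (-h) (h * m) x t (fun s => -m < pos s t) fun s hs => ?_
  have h1 : (-(m : ℝ)) ≤ (pos s t : ℝ) := by exact_mod_cast hs.le
  have h2 := mul_le_mul_of_nonneg_left h1 hh
  linarith

lemma NuB_dev (hμ : EM μ) (h : ℝ) (x : ℤ) (t : ℕ) {η : ℝ} (hη : |η| ≤ 1) (c : ℝ) :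
    (law μ).real {g | c ≤ η * Real.log (Z g h 0 x t)} ≤
      Real.exp (η * a μ h t + Cc μ * η ^ 2 * t - c) := by
  have h1 := mul_meas_ge_le_integral_of_nonneg (μ := law μ)
    (f := fun g : Env => Z g h 0 x t ^ η)
    (Filter.Eventually.of_forall fun g => Real.rpow_nonneg (Z_pos g h 0 x t).le η)
    (PMom_Z_rpow hμ h 0 x t η).integrable (Real.exp c)
  have h2 := h1.trans (conc_Z hμ h 0 x t hη)
  have h3 : {g : Env | c ≤ η * Real.log (Z g h 0 x t)} =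
      {g : Env | Real.exp c ≤ Z g h 0 x t ^ η} := by
    ext g
    simp only [Set.mem_ofPred_eq]
    rw [Real.rpow_def_of_pos (Z_pos g h 0 x t), Real.exp_le_exp, mul_comm (Real.log _) η]
  rw [h3, Real.exp_sub, le_div_iff₀ (Real.exp_pos c), mul_comm]
  exact h2

lemma NuB_sqrt {t : ℕ} (ht : 1 ≤ t) : 0 < Real.sqrt t ∧ |(Real.sqrt t)⁻¹| ≤ 1 ∧
    ((Real.sqrt t)⁻¹) ^ 2 * t = 1 := by
  have h0 : (1 : ℝ) ≤ t := by exact_mod_cast ht
  have h1 : 1 ≤ Real.sqrt t := by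
    rw [← Real.sqrt_one]
    exact Real.sqrt_le_sqrt h0
  have h2 : 0 < Real.sqrt t := by linarith
  refine ⟨h2, ?_, ?_⟩
  · rw [abs_of_pos (inv_pos.2 h2)]
    exact inv_le_one_of_one_le₀ h1
  · rw [inv_pow, Real.sq_sqrt (by linarith)]
    exact inv_mul_cancel₀ (by linarith)

/-- Upper deviations. Proof. Markov's inequality for `Z^θ`, `θ = 1/√t` (`conc_Z`):
`P(log Z > a + s √t) ≤ e^{-θ(a + s√t)} e^{θ a + Cc θ² t} = e^{Cc - s}`. -/
lemma dev_up (hμ : EM μ) (h : ℝ) (x : ℤ) {t : ℕ} (ht : 1 ≤ t) (s : ℝ) :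
    (law μ).real {g | a μ h t + s * Real.sqrt t < Real.log (Z g h 0 x t)} ≤
      Real.exp (Cc μ - s) := by
  obtain ⟨h0, h1, h2⟩ := NuB_sqrt ht
  have h3 := NuB_dev hμ h x t h1 ((Real.sqrt t)⁻¹ * (a μ h t + s * Real.sqrt t))
  refine le_trans (measureReal_mono fun g hg => ?_) (h3.trans (le_of_eq ?_))
  · exact mul_le_mul_of_nonneg_left (le_of_lt hg) (inv_pos.2 h0).le
  · congr 1
    have h4 : (Real.sqrt t)⁻¹ * (s * Real.sqrt t) = s := by
      rw [mul_comm s, ← mul_assoc, inv_mul_cancel₀ h0.ne', one_mul]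
    rw [mul_add, h4, mul_assoc (Cc μ), h2]
    ring

/-- Lower deviations. Proof. As `dev_up` with `θ = -1/√t`. -/
lemma dev_dn (hμ : EM μ) (h : ℝ) (x : ℤ) {t : ℕ} (ht : 1 ≤ t) (s : ℝ) :
    (law μ).real {g | Real.log (Z g h 0 x t) < a μ h t - s * Real.sqrt t} ≤
      Real.exp (Cc μ - s) := by
  obtain ⟨h0, h1, h2⟩ := NuB_sqrt ht
  have h1' : |-(Real.sqrt t)⁻¹| ≤ 1 := by rwa [abs_neg]
  have h3 := NuB_dev hμ h x t h1' (-(Real.sqrt t)⁻¹ * (a μ h t - s * Real.sqrt t))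
  refine le_trans (measureReal_mono fun g hg => ?_) (h3.trans (le_of_eq ?_))
  · show -(Real.sqrt t)⁻¹ * (a μ h t - s * Real.sqrt t) ≤
      -(Real.sqrt t)⁻¹ * Real.log (Z g h 0 x t)
    have h5 := mul_le_mul_of_nonneg_left (le_of_lt hg : Real.log (Z g h 0 x t) ≤
      a μ h t - s * Real.sqrt t) (inv_pos.2 h0).le
    linarith
  · congr 1
    have h4 : (Real.sqrt t)⁻¹ * (s * Real.sqrt t) = s := by
      rw [mul_comm s, ← mul_assoc, inv_mul_cancel₀ h0.ne', one_mul]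
    have h5 : (-(Real.sqrt t)⁻¹) ^ 2 * (t : ℝ) = 1 := by rw [neg_sq]; exact h2
    rw [mul_sub, neg_mul _ (s * Real.sqrt t), h4, mul_assoc (Cc μ), h5]
    ring

lemma NuB_prob (hμ : EM μ) (k h : ℝ) (x : ℤ) {t : ℕ} (ht : 1 ≤ t) {m : ℤ} {s : ℝ}
    (p q : (ℕ → Bool) → Prop) (hpq : ∀ r, p r ↔ ¬ q r)
    (hp : ∀ r, q r → k * (pos r t : ℝ) ≤ h * m)
    (hs : h * m + Real.log 2 + eps μ t + 2 * s * Real.sqrt t ≤ t * (Lam μ k - Lam μ 0)) :
    (law μ).real {g | ¬ (1 / 2 ≤ Av g k 0 x t (fun r => ind (p r)))} ≤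
      2 * Real.exp (Cc μ - s) := by
  have h1 := dev_up hμ 0 x ht s
  have h2 := dev_dn hμ k x ht s
  have hsub : {g : Env | ¬ (1 / 2 ≤ Av g k 0 x t (fun r => ind (p r)))} ⊆
      {g | a μ 0 t + s * Real.sqrt t < Real.log (Z g 0 0 x t)} ∪
      {g | Real.log (Z g k 0 x t) < a μ k t - s * Real.sqrt t} := by
    intro g hg
    by_contra hcon
    rw [Set.mem_union, not_or] at hcon
    obtain ⟨hc1, hc2⟩ := hcon
    have hc1' : Real.log (Z g 0 0 x t) ≤ a μ 0 t + s * Real.sqrt t := not_lt.1 hc1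
    have hc2' : a μ k t - s * Real.sqrt t ≤ Real.log (Z g k 0 x t) := not_lt.1 hc2
    apply hg
    have h3 := rate hμ k t
    have h4 := a_le_Lam hμ 0 t
    have h5 : h * m + Real.log 2 + Real.log (Z g 0 0 x t) ≤ Real.log (Z g k 0 x t) := by
      linarith
    have h6 : Real.exp (h * m) * 2 * Z g 0 0 x t ≤ Z g k 0 x t := by
      have h7 := Real.exp_le_exp.2 h5
      rwa [Real.exp_add, Real.exp_add, Real.exp_log (Z_pos _ _ _ _ _),
        Real.exp_log (Z_pos _ _ _ _ _), Real.exp_log (by norm_num : (0 : ℝ) < 2)] at h7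
    have h8 : Av g k 0 x t (fun r => ind (q r)) ≤ 1 / 2 := by
      refine (NuB_tilt g k (h * m) x t q hp).trans ?_
      rw [div_le_iff₀ (Z_pos _ _ _ _ _)]
      linarith
    have h9 : Av g k 0 x t (fun r => ind (p r)) = 1 - Av g k 0 x t (fun r => ind (q r)) := by
      have e1 : Av g k 0 x t (fun r => ind (p r)) = Av g k 0 x t (fun r => 1 - ind (q r)) :=
        Av_congr fun r _ => by rw [ind_congr (hpq r), ind_not]
      rw [e1, Av_sub, Av_const]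
    rw [h9]
    linarith
  refine (measureReal_mono hsub).trans ((measureReal_union_le _ _).trans ?_)
  linarith

/-- **Upward tilt.** Proof. Off the two exceptional sets of `dev_up` (tilt `0`) and `dev_dn` (tilt `h`):
`log Z_h - log Z_0 ≥ a_t(h) - a_t(0) - 2 s √t ≥ t (Λ(h) - Λ(0)) - eps μ t - 2 s √t ≥ h m + log 2`
(`rate`, `a_le_Lam`), so by `tilt_up` the Gibbs probability of `pos s t < m` is at most `1/2`
(`ind (m ≤ pos) = 1 - ind (pos < m)`). -/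
theorem tilt_prob_up (hμ : EM μ) {h : ℝ} (hh : 0 ≤ h) (x : ℤ) {t : ℕ} (ht : 1 ≤ t) {m : ℤ} {s : ℝ}
    (hs : h * m + Real.log 2 + eps μ t + 2 * s * Real.sqrt t ≤ t * (Lam μ h - Lam μ 0)) :
    (law μ).real {g | ¬ (1 / 2 ≤ Av g h 0 x t (fun r => ind (m ≤ pos r t)))} ≤
      2 * Real.exp (Cc μ - s) := by
  refine NuB_prob hμ h h x ht (fun r => m ≤ pos r t) (fun r => pos r t < m)
    (fun r => not_lt.symm) (fun r hr => ?_) hs
  refine mul_le_mul_of_nonneg_left ?_ hh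
  exact_mod_cast hr.le

/-- **Downward tilt.** Proof. As `tilt_prob_up`, with `Lam_even`. -/
theorem tilt_prob_dn (hμ : EM μ) {h : ℝ} (hh : 0 ≤ h) (x : ℤ) {t : ℕ} (ht : 1 ≤ t) {m : ℤ} {s : ℝ}
    (hs : h * m + Real.log 2 + eps μ t + 2 * s * Real.sqrt t ≤ t * (Lam μ h - Lam μ 0)) :
    (law μ).real {g | ¬ (1 / 2 ≤ Av g (-h) 0 x t (fun r => ind (pos r t ≤ -m)))} ≤
      2 * Real.exp (Cc μ - s) := by
  refine NuB_prob hμ (-h) h x ht (fun r => pos r t ≤ -m) (fun r => -m < pos r t)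
    (fun r => not_lt.symm) (fun r hr => ?_) (by rw [Lam_even]; exact hs)
  have h1 : (-(m : ℝ)) ≤ (pos r t : ℝ) := by exact_mod_cast hr.le
  have h2 := mul_le_mul_of_nonneg_left h1 hh
  linarith

end

end Pool.Agent.W_7d29a1_h47
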