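import Pool.Agent.W_7d29a1_h47q.Win

/-!
# Strips: elementary facts
-/

namespace Pool.Agent.W_7d29a1_h47

open MeasureTheory ProbabilityTheory Finset

noncomputable section

/-- Membership in a class. Proof. Definition, `mem_filter`, `mem_product`, `mem_Icc`. -/
lemma mem_cls {b : ℕ → ℤ} {t ℓ W : ℕ} {o : ℤ} {i : ℤ × (ℕ → Bool)} :
    i ∈ cls b t ℓ W o ↔ (b t + o + 1 ≤ i.1 ∧ i.1 ≤ b t + o + W) ∧ i.2 ∈ T ℓ ∧
      (i.1 - (b t + o)) % 2 = 0 ∧ (∀ j ≤ ℓ, b (t + j) + o < i.1 + pos i.2 j) ∧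
      i.1 + pos i.2 ℓ ≤ b (t + ℓ) + o + W ∧
      (ℓ : ℝ) / 2 ≤ ∑ j ∈ range ℓ, ind (i.1 + pos i.2 (j + 1) ≤ b (t + j + 1) + o + W) := by
  unfold cls
  simp only [Finset.mem_filter, Finset.mem_product, Finset.mem_Icc]
  tauto

/-- The steps of the walk parallel to `b`. -/
def StripA_s (b : ℕ → ℤ) (t ℓ : ℕ) : ℕ → Bool :=
  fun j => decide (j < ℓ ∧ b (t + (j + 1)) - b (t + j) = 1)

lemma StripA_mem (b : ℕ → ℤ) (t ℓ : ℕ) : StripA_s b t ℓ ∈ T ℓ := by
  rw [mem_T]
  intro i hi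
  unfold StripA_s
  rw [decide_eq_false_iff_not]
  rintro ⟨h, -⟩
  omega

lemma StripA_pos {b : ℕ → ℤ} {t : ℕ} (hb : IsW t b) (ℓ : ℕ) (j : ℕ) (hj : j ≤ ℓ) :
    pos (StripA_s b t ℓ) j = b (t + j) - b t := by
  induction j with
  | zero => simp
  | succ j ih =>
    rw [pos_succ, ih (by omega)]
    have h1 := hb (t + j) (by omega)
    rw [show t + j + 1 = t + (j + 1) by ring] at h1
    by_cases h2 : b (t + (j + 1)) - b (t + j) = 1
    · have h3 : StripA_s b t ℓ j = true := by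
        unfold StripA_s
        rw [decide_eq_true_iff]
        exact ⟨by omega, h2⟩
      rw [h3, stp_true]
      omega
    · have h3 : StripA_s b t ℓ j = false := by
        unfold StripA_s
        rw [decide_eq_false_iff_not]
        exact fun h => h2 h.2
      rw [h3, stp_false]
      rcases abs_eq (by norm_num : (0 : ℤ) ≤ 1) |>.1 h1 with h | h
      · exact absurd h h2
      · omega

/-- The class is not empty. Proof. Let `s j = (b (t + j + 1) - b (t + j) = 1)` for `j < ℓ`, `false`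
otherwise: `s ∈ T ℓ` and `pos s j = b (t + j) - b t` for `j ≤ ℓ` (induction, `hb`: the increments are
`± 1`). The pair `(b t + o + 2, s)` stays at distance exactly `2` of `b + o`; `W ≥ 2`; the indicators
are all `1` and `ℓ / 2 ≤ ℓ`. -/
lemma cls_nonempty {b : ℕ → ℤ} {t : ℕ} (hb : IsW t b) (ℓ : ℕ) {W : ℕ} (hW : 2 ≤ W) (o : ℤ) :
    (cls b t ℓ W o).Nonempty := by
  have hpos := StripA_pos hb ℓ
  refine ⟨(b t + o + 2, StripA_s b t ℓ), ?_⟩
  rw [mem_cls]
  have hW' : (2 : ℤ) ≤ W := by exact_mod_cast hW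
  refine ⟨⟨by simp only; omega, by simp only; omega⟩, StripA_mem b t ℓ, by simp only; omega, ?_, ?_, ?_⟩
  · intro j hj
    have := hpos j hj
    simp only
    omega
  · have := hpos ℓ le_rfl
    simp only
    omega
  · have h1 : ∀ j ∈ range ℓ, ind ((b t + o + 2, StripA_s b t ℓ).1 +
        pos (b t + o + 2, StripA_s b t ℓ).2 (j + 1) ≤ b (t + j + 1) + o + W) = 1 := by
      intro j hj
      apply ind_true
      have := hpos (j + 1) (Finset.mem_range.1 hj)
      simp only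
      rw [show t + j + 1 = t + (j + 1) by ring]
      omega
    rw [Finset.sum_congr rfl h1]
    simp only [Finset.sum_const, Finset.card_range, nsmul_eq_mul, mul_one]
    have : (0 : ℝ) ≤ ℓ := Nat.cast_nonneg _
    linarith

lemma sum_cls_pos {b : ℕ → ℤ} {t : ℕ} (hb : IsW t b) (ℓ : ℕ) {W : ℕ} (hW : 2 ≤ W) (o : ℤ) (g : Env) :
    0 < ∑ i ∈ cls b t ℓ W o, Real.exp (En g t i.1 ℓ i.2) :=
  Finset.sum_pos (fun _ _ => Real.exp_pos _) (cls_nonempty hb ℓ hW o)

lemma StripA_shift_mem {b : ℕ → ℤ} {t ℓ W : ℕ} {o M x : ℤ} {r : ℕ → Bool} :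
    (x + M, r) ∈ cls b t ℓ W (o + M) ↔ (x, r) ∈ cls b t ℓ W o := by
  have h1 : ∀ j : ℕ, ind (x + M + pos r (j + 1) ≤ b (t + j + 1) + (o + M) + W) =
      ind (x + pos r (j + 1) ≤ b (t + j + 1) + o + W) := fun j => ind_congr (by constructor <;> intro h <;> omega)
  rw [mem_cls, mem_cls]
  simp only [h1]
  refine and_congr (by constructor <;> intro h <;> omega) (and_congr Iff.rfl (and_congr
    (by rw [show x + M - (b t + (o + M)) = x - (b t + o) by ring]) (and_congr ?_ (and_congr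
      (by constructor <;> intro h <;> omega) Iff.rfl))))
  constructor
  · intro h j hj
    have := h j hj
    omega
  · intro h j hj
    have := h j hj
    omega

/-- The classes are translates of each other. Proof. The map `(x, r) ↦ (x + M, r)` is a bijection from
`cls b t ℓ W o` onto `cls b t ℓ W (o + M)` (`Finset.sum_nbij'` or `Finset.sum_bij`), and
`En g t (x + M) ℓ r = En (shiftEnv 0 M g) t x ℓ r` (`En_shiftEnv`). -/
lemma YY_shift (b : ℕ → ℤ) (t ℓ W : ℕ) (o M : ℤ) (g : Env) :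
    YY b t ℓ W (o + M) g = YY b t ℓ W o (shiftEnv 0 M g) := by
  unfold YY
  congr 1
  refine Finset.sum_nbij' (fun i => (i.1 - M, i.2)) (fun i => (i.1 + M, i.2)) ?_ ?_ ?_ ?_ ?_
  · intro i hi
    apply StripA_shift_mem.1
    rwa [sub_add_cancel]
  · intro i hi
    exact StripA_shift_mem.2 hi
  · intro i _
    simp
  · intro i _
    simp
  · intro i _
    rw [En_shiftEnv]
    simp

/-- `gs` of the sites of a path is its energy. Proof. `Finset.sum_image`: the times `k + j` are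
different. -/
lemma gs_WA (g : Env) (k R : ℕ) (i : ℤ × (ℕ → Bool)) : gs g (WA k R i) = En g k i.1 R i.2 := by
  unfold gs WA En
  rw [Finset.sum_image]
  intro j _ j' _ h
  have := (Prod.mk.inj h).1
  omega

lemma mem_WA {k R : ℕ} {i : ℤ × (ℕ → Bool)} {z : ℕ × ℤ} :
    z ∈ WA k R i ↔ ∃ j < R, z = (k + j, i.1 + pos i.2 (j + 1)) := by
  unfold WA
  simp only [Finset.mem_image, Finset.mem_range]
  constructor
  · rintro ⟨j, hj, h⟩
    exact ⟨j, hj, h.symm⟩
  · rintro ⟨j, hj, h⟩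
    exact ⟨j, hj, h.symm⟩

/-- The class as a Gibbs system. Proof. `gs_WA`. -/
lemma YY_eq (b : ℕ → ℤ) (t ℓ W : ℕ) (o : ℤ) (g : Env) :
    YY b t ℓ W o g = Real.log (SZ (cls b t ℓ W o) (fun _ => 1) (WA t ℓ) g) := by
  unfold YY SZ
  congr 1
  exact Finset.sum_congr rfl fun i _ => by rw [gs_WA, one_mul]

lemma measurable_YY (b : ℕ → ℤ) (t ℓ W : ℕ) (o : ℤ) :
    Measurable (fun g : Env => YY b t ℓ W o g) := by
  unfold YY
  fun_prop

lemma dependsOn_YY (b : ℕ → ℤ) (t ℓ W : ℕ) (o : ℤ) :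
    DependsOn (fun g : Env => YY b t ℓ W o g) (rows t (t + ℓ)) := by
  intro g g' h
  have h1 : ∀ i : ℤ × (ℕ → Bool), En g t i.1 ℓ i.2 = En g' t i.1 ℓ i.2 :=
    fun i => dependsOn_En t i.1 ℓ i.2 h
  simp only [YY, h1]

end

end Pool.Agent.W_7d29a1_h47
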