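import Pool.Agent.W_7d29a1_h47.SiteK

/-!
# Anti-concentration: calculus for one site
-/

namespace Pool.Agent.W_7d29a1_h47

open MeasureTheory ProbabilityTheory Finset

noncomputable section

variable {μ : Measure ℝ} [IsProbabilityMeasure μ]

/-- `x` clamped to `[-K, K]`. -/
def clp (K x : ℝ) : ℝ := max (-K) (min K x)

lemma clp_abs {K : ℝ} (hK : 0 ≤ K) (x : ℝ) : |clp K x| ≤ K := by
  unfold clp
  rw [abs_le]
  exact ⟨le_max_left _ _, max_le (by linarith) (min_le_left _ _)⟩

lemma clp_mono (K : ℝ) : Monotone (clp K) := fun _ _ h => max_le_max le_rfl (min_le_min le_rfl h)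

/-- Clamping preserves differences from a point of the middle, up to size `K / 2`. Proof. Cases. -/
lemma clp_diff {K x y : ℝ} (hK : 2 ≤ K) (hx : |x| ≤ K / 2) :
    min 1 |x - y| ≤ |clp K x - clp K y| := by
  have hx' := abs_le.1 hx
  have e1 : clp K x = x := by
    unfold clp
    rw [min_eq_right (by linarith), max_eq_right (by linarith)]
  rw [e1]
  by_cases h1 : K < y
  · have e2 : clp K y = K := by
      unfold clp
      rw [min_eq_left h1.le, max_eq_right (by linarith)]
    rw [e2]
    refine (min_le_left _ _).trans ?_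
    rw [abs_sub_comm, abs_of_nonneg (by linarith)]
    linarith
  · by_cases h2 : y < -K
    · have e2 : clp K y = -K := by
        unfold clp
        rw [min_eq_right (by linarith), max_eq_left h2.le]
      rw [e2]
      refine (min_le_left _ _).trans ?_
      rw [abs_of_nonneg (by linarith)]
      linarith
    · push Not at h1 h2
      have e2 : clp K y = y := by
        unfold clp
        rw [min_eq_right h1, max_eq_right h2]
      rw [e2]
      exact min_le_right _ _

/-- The increment of `log (a + b e^u)`. Proof. With `P = b e^u / (a + b e^u) ∈ [0, 1]` one has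
`log (a + b e^{u'}) - log (a + b e^u) = log (1 + P (e^{u' - u} - 1))`. If `u' ≤ u` this is
`log (1 - P (1 - e^{-|u-u'|})) ≤ - P (1 - e^{-|u-u'|})`. If `u' > u`, `d = u' - u`: by concavity of `log`
`log (1 - P + P e^d) ≥ P d ≥ P (1 - e^{-d})`. -/
lemma two_log {a b : ℝ} (ha : 0 ≤ a) (hb : 0 ≤ b) (hab : 0 < a + b) (u u' : ℝ) :
    b * Real.exp u / (a + b * Real.exp u) * (1 - Real.exp (-|u - u'|)) ≤
      |Real.log (a + b * Real.exp u) - Real.log (a + b * Real.exp u')| := by
  have hD : ∀ v, 0 < a + b * Real.exp v := by
    intro v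
    have hv := Real.exp_pos v
    rcases hb.eq_or_lt with h | h
    · rw [← h] at hab ⊢
      simpa using hab
    · have := mul_pos h hv
      linarith
  set P : ℝ := b * Real.exp u / (a + b * Real.exp u) with hP
  have hP0 : 0 ≤ P := div_nonneg (mul_nonneg hb (Real.exp_pos u).le) (hD u).le
  have hP1 : P ≤ 1 := by
    rw [hP, div_le_one (hD u)]
    linarith
  have hratio : (a + b * Real.exp u') / (a + b * Real.exp u) = 1 - P + P * Real.exp (u' - u) := by
    have h1 : Real.exp u' = Real.exp u * Real.exp (u' - u) := by
      rw [← Real.exp_add]; congr 1; ring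
    rw [hP, h1]
    field_simp [(hD u).ne']
    ring
  have hlog : Real.log (a + b * Real.exp u') - Real.log (a + b * Real.exp u) =
      Real.log (1 - P + P * Real.exp (u' - u)) := by
    rw [← hratio, Real.log_div (hD u').ne' (hD u).ne']
  have hpos : 0 < 1 - P + P * Real.exp (u' - u) := by
    rw [← hratio]
    exact div_pos (hD u') (hD u)
  rcases le_total u' u with h | h
  · have e1 : |u - u'| = u - u' := abs_of_nonneg (by linarith)
    have e2 : -(u - u') = u' - u := by ring
    rw [e1, e2]
    have h1 := Real.log_le_sub_one_of_pos hpos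
    rw [← hlog] at h1
    refine le_trans ?_ (le_abs_self _)
    nlinarith
  · have e1 : |u - u'| = u' - u := by
      rw [abs_sub_comm]; exact abs_of_nonneg (by linarith)
    rw [e1]
    have h1 : P * (u' - u) ≤ Real.log (1 - P + P * Real.exp (u' - u)) := by
      rw [Real.le_log_iff_exp_le hpos]
      have h2 := convexOn_exp.2 (Set.mem_univ (0 : ℝ)) (Set.mem_univ (u' - u))
        (by linarith : 0 ≤ 1 - P) hP0 (by ring)
      simpa using h2
    rw [← hlog] at h1
    have h3 : 1 - Real.exp (-(u' - u)) ≤ u' - u := by
      have := Real.add_one_le_exp (-(u' - u))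
      linarith
    rw [abs_sub_comm]
    refine le_trans ?_ (le_abs_self _)
    exact (mul_le_mul_of_nonneg_left h3 hP0).trans h1

/-- Pointwise inequality for the clamped log partition function. Proof. `u ↦ log (a + b e^u)`, `clp K`
and `phi p q` are nondecreasing, so both factors on the right have the same sign and the right side
is `|phi u - phi u'| * |clp (U u) - clp (U u')|`; if `|U u| ≤ K/2` use `clp_diff` and `two_log` (the
left side of `two_log` is `≤ 1`); otherwise the left side is `0`. -/
lemma two_point {p q : ℝ} (hpq : p < q) {a b : ℝ} (ha : 0 ≤ a) (hb : 0 ≤ b) (hab : 0 < a + b)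
    {K : ℝ} (hK : 2 ≤ K) (s u u' : ℝ) :
    |phi p q u - phi p q u'| * (1 - Real.exp (-|u - u'|)) *
        (b * Real.exp u / (a + b * Real.exp u) * ind (|Real.log (a + b * Real.exp u) - s| ≤ K / 2)) ≤
      (phi p q u - phi p q u') * (clp K (Real.log (a + b * Real.exp u) - s) -
        clp K (Real.log (a + b * Real.exp u') - s)) := by
  have hD : ∀ v, 0 < a + b * Real.exp v := by
    intro v
    have hv := Real.exp_pos v
    rcases hb.eq_or_lt with h | h
    · rw [← h] at hab ⊢
      simpa using hab
    · have := mul_pos h hv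
      linarith
  have hmono : ∀ {v v' : ℝ}, v ≤ v' → clp K (Real.log (a + b * Real.exp v) - s) ≤
      clp K (Real.log (a + b * Real.exp v') - s) := by
    intro v v' h
    refine clp_mono K (sub_le_sub_right (Real.log_le_log (hD v) ?_) s)
    have := mul_le_mul_of_nonneg_left (Real.exp_le_exp.2 h) hb
    linarith
  have hprod : (phi p q u - phi p q u') * (clp K (Real.log (a + b * Real.exp u) - s) -
      clp K (Real.log (a + b * Real.exp u') - s)) = |phi p q u - phi p q u'| *
      |clp K (Real.log (a + b * Real.exp u) - s) -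
      clp K (Real.log (a + b * Real.exp u') - s)| := by
    rcases le_total u u' with h | h
    · have h1 := SiteG_phi_mono hpq h
      have h2 := hmono h
      rw [abs_of_nonpos (by linarith), abs_of_nonpos (by linarith)]
      ring
    · have h1 := SiteG_phi_mono hpq h
      have h2 := hmono h
      rw [abs_of_nonneg (by linarith), abs_of_nonneg (by linarith)]
  rw [hprod]
  by_cases hU : |Real.log (a + b * Real.exp u) - s| ≤ K / 2
  · rw [ind_true hU, mul_one, mul_assoc]
    refine mul_le_mul_of_nonneg_left ?_ (abs_nonneg _)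
    refine le_trans ?_ (clp_diff hK hU)
    have h1 := two_log ha hb hab u u'
    have hP0 : 0 ≤ b * Real.exp u / (a + b * Real.exp u) :=
      div_nonneg (mul_nonneg hb (Real.exp_pos u).le) (hD u).le
    have hP1 : b * Real.exp u / (a + b * Real.exp u) ≤ 1 := by
      rw [div_le_one (hD u)]
      linarith
    have he1 : Real.exp (-|u - u'|) ≤ 1 := Real.exp_le_one_iff.2 (by simp)
    have he0 := Real.exp_pos (-|u - u'|)
    rw [mul_comm]
    refine le_min ?_ ?_
    · exact mul_le_one₀ hP1 (by linarith) (by linarith)
    · have e : Real.log (a + b * Real.exp u) - s - (Real.log (a + b * Real.exp u') - s) =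
          Real.log (a + b * Real.exp u) - Real.log (a + b * Real.exp u') := by ring
      rw [e]
      exact h1
  · rw [ind_false hU, mul_zero, mul_zero]
    exact mul_nonneg (abs_nonneg _) (abs_nonneg _)

/-- Integration over the value of the site. Proof. As `SiteK_site` with `Y = 0`, but `P` bounded by
`K` instead of `1`: symmetrise `∫ (phi u - ∫ phi) P u = (1/2) ∬ (phi u - phi u') (P u - P u')` and use
`kmin_le`. -/
lemma two_site (hμ : EM μ) {p q : ℝ} (hpq : p < q) {P X : ℝ → ℝ} {K : ℝ} (hP : Measurable P)
    (hX : Measurable X) (hPb : ∀ u, |P u| ≤ K) (hX0 : ∀ u, 0 ≤ X u) (hX1 : ∀ u, X u ≤ 1)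
    (H : ∀ u u', |phi p q u - phi p q u'| * (1 - Real.exp (-|u - u'|)) * X u ≤
      (phi p q u - phi p q u') * (P u - P u')) :
    kmin μ p q * ∫ u, X u ∂μ ≤ ∫ u, (phi p q u - ∫ v, phi p q v ∂μ) * P u ∂μ := by
  set K' : ℝ := max K 1 with hK'
  have hK1 : 1 ≤ K' := le_max_right _ _
  have hK0 : 0 < K' := by linarith
  have h := SiteK_site hμ hpq (P := fun u => P u / K') (X := fun u => X u / K') (Y := fun _ => 0)
    (hP.div_const _) (hX.div_const _) measurable_const
    (fun u => by
      rw [abs_div, abs_of_pos hK0, div_le_one hK0]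
      exact (hPb u).trans (le_max_left _ _))
    (fun u => div_nonneg (hX0 u) hK0.le)
    (fun u => by
      rw [div_le_one hK0]
      exact (hX1 u).trans hK1)
    (fun _ => le_refl _) (fun _ => zero_le_one)
    (fun u u' => by
      rw [mul_zero, sub_zero, ← sub_div, ← mul_div_assoc, ← mul_div_assoc]
      exact div_le_div_of_nonneg_right (H u u') hK0.le)
  have e1 : ∫ u, X u / K' ∂μ = (∫ u, X u ∂μ) / K' := integral_div _ _
  have e2 : ∫ u, (phi p q u - ∫ v, phi p q v ∂μ) * (P u / K') ∂μ =
      (∫ u, (phi p q u - ∫ v, phi p q v ∂μ) * P u ∂μ) / K' := by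
    rw [← integral_div]
    refine integral_congr_ae (Filter.Eventually.of_forall fun u => ?_)
    ring
  simp only [mul_zero, integral_zero, sub_zero] at h
  rw [e1, e2, ← mul_div_assoc, div_le_div_iff_of_pos_right hK0] at h
  exact h

end

end Pool.Agent.W_7d29a1_h47
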