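import Pool.Agent.W_7d29a1_h47q.Sys
import Pool.Agent.W_7d29a1_h47q.TwoA

/-!
# Anti-concentration of the difference of two log partition functions
-/

namespace Pool.Agent.W_7d29a1_h47

open MeasureTheory ProbabilityTheory Finset

noncomputable section

variable {ι κ : Type*} {μ : Measure ℝ} [IsProbabilityMeasure μ]

/-- The difference of two log partition functions and a further term. -/
def dU (I : Finset ι) (c : ι → ℝ) (A : ι → Finset (ℕ × ℤ)) (J : Finset κ) (d : κ → ℝ)
    (B : κ → Finset (ℕ × ℤ)) (b : Env → ℝ) (g : Env) : ℝ :=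
  Real.log (SZ I c A g) - Real.log (SZ J d B g) - b g

omit [IsProbabilityMeasure μ] in
lemma TwoB_SZ (I : Finset ι) (c : ι → ℝ) (A : ι → Finset (ℕ × ℤ)) (z : ℕ × ℤ) (g : Env) (u : ℝ)
    (F : ι → ℝ) : ∑ i ∈ I, c i * Real.exp (gs (Function.update g z u) (A i)) * F i =
      ∑ i ∈ I, c i * Real.exp (gs (Function.update g z 0) (A i)) * ((1 - ind (z ∈ A i)) * F i) +
      (∑ i ∈ I, c i * Real.exp (gs (Function.update g z 0) (A i)) * (ind (z ∈ A i) * F i)) *
        Real.exp u := by
  rw [Finset.sum_mul, ← Finset.sum_add_distrib]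
  refine Finset.sum_congr rfl fun i _ => ?_
  by_cases hz : z ∈ A i
  · rw [gs_update u hz, Real.exp_add, ind_true hz]
    ring
  · rw [gs_update_not u hz, gs_update_not 0 hz, ind_false hz]
    ring

omit [IsProbabilityMeasure μ] in
lemma TwoB_meas_ind {f : Env → ℝ} (hf : Measurable f) (a : ℝ) :
    Measurable fun g : Env => ind (f g ≤ a) := by
  unfold ind
  exact Measurable.ite (measurableSet_le hf measurable_const) measurable_const measurable_const

omit [IsProbabilityMeasure μ] in
lemma TwoB_dU_meas (I : Finset ι) (c : ι → ℝ) (A : ι → Finset (ℕ × ℤ)) (J : Finset κ)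
    (d : κ → ℝ) (B : κ → Finset (ℕ × ℤ)) {b : Env → ℝ} (hbm : Measurable b) :
    Measurable fun g : Env => dU I c A J d B b g := by
  unfold dU
  exact ((Real.measurable_log.comp (measurable_SZ I c A)).sub
    (Real.measurable_log.comp (measurable_SZ J d B))).sub hbm

omit [IsProbabilityMeasure μ] in
lemma TwoB_clp_meas (K : ℝ) : Measurable (clp K) := (clp_mono K).measurable

omit [IsProbabilityMeasure μ] in
lemma TwoB_up (g : Env) (z : ℕ × ℤ) : Measurable fun u : ℝ => (Function.update g z u : Env) := by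
  refine measurable_pi_iff.2 fun r => ?_
  by_cases hr : r = z
  · subst hr
    simp only [Function.update_self]
    exact measurable_id
  · simp only [Function.update_of_ne hr]
    exact measurable_const

/-- The second system and `b` do not feel the site. -/
lemma TwoB_const {J : Finset κ} {d : κ → ℝ} (B : κ → Finset (ℕ × ℤ))
    {D : Finset (ℕ × ℤ)} (hB : ∀ j ∈ J, Disjoint (B j) D) {b : Env → ℝ}
    (hb : DependsOn b (D : Set (ℕ × ℤ))ᶜ) {z : ℕ × ℤ} (hz : z ∈ D) (g : Env) (u : ℝ) :
    SZ J d B (Function.update g z u) = SZ J d B g ∧ b (Function.update g z u) = b g := by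
  constructor
  · unfold SZ
    refine Finset.sum_congr rfl fun j hj => ?_
    rw [gs_update_not u]
    intro hzj
    exact Finset.disjoint_left.1 (hB j hj) hzj hz
  · refine hb fun p hp => ?_
    rw [Function.update_of_ne]
    rintro rfl
    exact hp hz

lemma TwoB_phi_sub (p q u : ℝ) : |phi p q u - ∫ v, phi p q v ∂μ| ≤ 1 := by
  have hm := SiteK_phi_meas p q
  have hi : Integrable (phi p q) μ :=
    Integrable.of_bound hm.aestronglyMeasurable 1 (Filter.Eventually.of_forall fun u => by
      rw [Real.norm_eq_abs]; exact SiteK_phi_abs p q u)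
  have h0 : 0 ≤ ∫ v, phi p q v ∂μ := integral_nonneg fun v => SiteK_phi_nonneg p q v
  have h1 : ∫ v, phi p q v ∂μ ≤ 1 := by
    have := integral_mono hi (integrable_const (1 : ℝ)) fun v => SiteK_phi_le p q v
    simpa using this
  have h2 := SiteK_phi_nonneg p q u
  have h3 := SiteK_phi_le p q u
  rw [abs_le]
  constructor <;> linarith

lemma TwoB_phi_int (p q : ℝ) : ∫ u, (phi p q u - ∫ v, phi p q v ∂μ) ∂μ = 0 := by
  have hm := SiteK_phi_meas p q
  have hi : Integrable (phi p q) μ :=
    Integrable.of_bound hm.aestronglyMeasurable 1 (Filter.Eventually.of_forall fun u => by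
      rw [Real.norm_eq_abs]; exact SiteK_phi_abs p q u)
  rw [integral_sub hi (integrable_const _), integral_const]
  simp

omit [IsProbabilityMeasure μ] in
lemma TwoB_X_meas (p q : ℝ) (z : ℕ × ℤ) :
    Measurable fun g : Env => phi p q (g z) - ∫ u, phi p q u ∂μ :=
  ((SiteK_phi_meas p q).comp (measurable_pi_apply z)).sub measurable_const

lemma TwoB_X_mom (p q : ℝ) (z : ℕ × ℤ) :
    PMom (law μ) fun g : Env => phi p q (g z) - ∫ u, phi p q u ∂μ :=
  PMom.of_bounded (TwoB_X_meas p q z) fun g => TwoB_phi_sub p q (g z)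

/-- One site. Proof. `integral_update z` on both sides (both integrands are bounded and measurable)
and `two_site` for fixed `g`: as a function of the value `u` of the site `z ∈ D`,
`SZ I c A (update g z u) = a + b' e^u` with `a = ∑_{z ∉ A i} c i exp (gs g₀ (A i))`,
`b' = ∑_{z ∈ A i} c i exp (gs g₀ (A i))`, `g₀ = update g z 0` (`gs_update`, `gs_update_not`), and
`log SZ J d B + b` does not depend on `u` (`hB`, `hb`: `update g z u` and `g` agree off `D`); `X u` is
`SA (ind (z ∈ A i)) * ind (|dU| ≤ K/2)`, `P u = clp K (dU)`; pointwise inequality `two_point`. -/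
lemma two_p (hμ : EM μ) {p q : ℝ} (hpq : p < q) {I : Finset ι} {c : ι → ℝ} (hc : Adms I c)
    (A : ι → Finset (ℕ × ℤ)) {J : Finset κ} {d : κ → ℝ} (B : κ → Finset (ℕ × ℤ))
    {D : Finset (ℕ × ℤ)} (hB : ∀ j ∈ J, Disjoint (B j) D) {b : Env → ℝ} (hbm : Measurable b)
    (hb : DependsOn b (D : Set (ℕ × ℤ))ᶜ) {K : ℝ} (hK : 2 ≤ K) {z : ℕ × ℤ} (hz : z ∈ D) :
    kmin μ p q * ∫ g : Env, SA I c A g (fun i => ind (z ∈ A i)) *
        ind (|dU I c A J d B b g| ≤ K / 2) ∂(law μ) ≤
      ∫ g : Env, (phi p q (g z) - ∫ u, phi p q u ∂μ) * clp K (dU I c A J d B b g) ∂(law μ) := by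
  classical
  have hK0 : 0 ≤ K := by linarith
  have mU := TwoB_dU_meas I c A J d B hbm
  have mS : Measurable fun g : Env => SA I c A g (fun i => ind (z ∈ A i)) :=
    measurable_SA I c A fun i _ => measurable_const
  have mI : Measurable fun g : Env => ind (|dU I c A J d B b g| ≤ K / 2) :=
    TwoB_meas_ind (continuous_abs.measurable.comp mU) _
  have mf : Measurable fun g : Env => clp K (dU I c A J d B b g) := (TwoB_clp_meas K).comp mU
  have S0 : ∀ g : Env, 0 ≤ SA I c A g (fun i => ind (z ∈ A i)) := fun g =>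
    SA_nonneg hc fun i _ => ind_nonneg _
  have S1 : ∀ g : Env, SA I c A g (fun i => ind (z ∈ A i)) ≤ 1 := fun g =>
    SA_le hc fun i _ => ind_le_one _
  have I1 : Integrable (fun g : Env => SA I c A g (fun i => ind (z ∈ A i)) *
      ind (|dU I c A J d B b g| ≤ K / 2)) (law μ) := by
    refine (PMom.of_bounded (c := 1) (mS.mul mI) fun g => ?_).integrable
    simp only [Pi.mul_apply]
    rw [abs_mul, abs_of_nonneg (S0 g), abs_of_nonneg (ind_nonneg _)]
    exact mul_le_one₀ (S1 g) (ind_nonneg _) (ind_le_one _)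
  have I3 : Integrable (fun g : Env => (phi p q (g z) - ∫ u, phi p q u ∂μ) *
      clp K (dU I c A J d B b g)) (law μ) := by
    refine ((TwoB_X_mom p q z).mul ?_).integrable
    exact PMom.of_bounded (c := K) mf fun g => clp_abs hK0 _
  have Jt : ∀ {F : Env → ℝ}, Integrable F (law μ) →
      Integrable (fun g => ∫ u, F (Function.update g z u) ∂μ) (law μ) := by
    intro F hF
    have h2 : Integrable (fun w : Env × ℝ => F (Function.update w.1 z w.2)) ((law μ).prod μ) :=
      (mp_update (μ := μ) z).integrable_comp_of_integrable hF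
    exact h2.integral_prod_left
  rw [integral_update z I1, integral_update z I3]
  simp only [Function.update_self]
  rw [← integral_const_mul]
  refine integral_mono ((Jt I1).const_mul _) ?_ fun g => ?_
  · have := Jt I3
    simpa only [Function.update_self] using this
  set α : ℝ := ∑ i ∈ I, c i * Real.exp (gs (Function.update g z 0) (A i)) *
    ((1 - ind (z ∈ A i)) * 1) with hα
  set β : ℝ := ∑ i ∈ I, c i * Real.exp (gs (Function.update g z 0) (A i)) *
    (ind (z ∈ A i) * 1) with hβ
  set s : ℝ := Real.log (SZ J d B g) + b g with hs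
  have hα0 : 0 ≤ α := Finset.sum_nonneg fun i hi => mul_nonneg
    (mul_nonneg (hc.nn i hi) (Real.exp_pos _).le)
    (mul_nonneg (by linarith [ind_le_one (z ∈ A i)]) zero_le_one)
  have hβ0 : 0 ≤ β := Finset.sum_nonneg fun i hi => mul_nonneg
    (mul_nonneg (hc.nn i hi) (Real.exp_pos _).le) (mul_nonneg (ind_nonneg _) zero_le_one)
  have hαβ : 0 < α + β := by
    have h1 : α + β = SZ I c A (Function.update g z 0) := by
      rw [hα, hβ, ← Finset.sum_add_distrib]
      unfold SZ
      refine Finset.sum_congr rfl fun i _ => by ring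
    rw [h1]
    exact SZ_pos hc A _
  have hZ : ∀ v : ℝ, SZ I c A (Function.update g z v) = α + β * Real.exp v := by
    intro v
    have h1 := TwoB_SZ I c A z g v (fun _ => 1)
    simp only [mul_one] at h1
    unfold SZ
    rw [h1, hα, hβ]
    simp only [mul_one]
  have hR : ∀ v : ℝ, SA I c A (Function.update g z v) (fun i => ind (z ∈ A i)) =
      β * Real.exp v / (α + β * Real.exp v) := by
    intro v
    unfold SA
    rw [hZ, TwoB_SZ I c A z g v (fun i => ind (z ∈ A i))]
    congr 1
    have h1 : ∑ i ∈ I, c i * Real.exp (gs (Function.update g z 0) (A i)) *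
        ((1 - ind (z ∈ A i)) * ind (z ∈ A i)) = 0 :=
      Finset.sum_eq_zero fun i _ => by
        by_cases h : z ∈ A i
        · rw [ind_true h]; ring
        · rw [ind_false h]; ring
    rw [h1, zero_add]
    congr 1
    rw [hβ]
    refine Finset.sum_congr rfl fun i _ => ?_
    by_cases h : z ∈ A i
    · rw [ind_true h]
    · rw [ind_false h]; ring
  have hd : ∀ v : ℝ, dU I c A J d B b (Function.update g z v) =
      Real.log (α + β * Real.exp v) - s := by
    intro v
    obtain ⟨h1, h2⟩ := TwoB_const (d := d) B hB hb hz g v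
    unfold dU
    rw [hZ, h1, h2, hs]
    ring
  refine two_site hμ hpq
    (P := fun u => clp K (dU I c A J d B b (Function.update g z u)))
    (X := fun u => SA I c A (Function.update g z u) (fun i => ind (z ∈ A i)) *
      ind (|dU I c A J d B b (Function.update g z u)| ≤ K / 2)) (K := K)
    (mf.comp (TwoB_up g z)) ((mS.comp (TwoB_up g z)).mul (mI.comp (TwoB_up g z)))
    (fun u => clp_abs hK0 _) (fun u => mul_nonneg (S0 _) (ind_nonneg _))
    (fun u => mul_le_one₀ (S1 _) (ind_nonneg _) (ind_le_one _)) fun u u' => ?_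
  rw [hR, hd u, hd u']
  exact two_point hpq hα0 hβ0 hαβ hK s u u'

/-- The sum of the centred test functions over `D` has second moment at most `|D|`. Proof. The
sites are independent (`integral_mul_indep` with `A = {z}`, or `integral_update`), `|phi - ∫ phi| ≤ 1`,
mean zero. -/
lemma two_sq (p q : ℝ) (D : Finset (ℕ × ℤ)) :
    ∫ g : Env, (∑ z ∈ D, (phi p q (g z) - ∫ u, phi p q u ∂μ)) ^ 2 ∂(law μ) ≤ D.card := by
  set X : ℕ × ℤ → Env → ℝ := fun z g => phi p q (g z) - ∫ u, phi p q u ∂μ with hX
  have hXm : ∀ z, Measurable (X z) := fun z => TwoB_X_meas p q z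
  have hXp : ∀ z, PMom (law μ) (X z) := fun z => TwoB_X_mom p q z
  have hX1 : ∀ z g, |X z g| ≤ 1 := fun z g => TwoB_phi_sub p q (g z)
  have hX0 : ∀ z, ∫ g, X z g ∂(law μ) = 0 := by
    intro z
    have h1 := integral_coord (μ := μ) z (f := fun u => phi p q u - ∫ v, phi p q v ∂μ)
      ((SiteK_phi_meas p q).sub measurable_const)
    rw [TwoB_phi_int] at h1
    exact h1
  have hXX : ∀ z z', z ≠ z' → ∫ g, X z g * X z' g ∂(law μ) = 0 := by
    intro z z' hzz
    rw [integral_mul_indep {z} (hXm z) (hXm z'), hX0, zero_mul]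
    · intro g g' h
      have h1 : g z = g' z := h z rfl
      simp only [hX, h1]
    · intro g g' h
      have h1 : g z' = g' z' := h z' (fun hh => hzz hh.symm)
      simp only [hX, h1]
  have h1 : ∀ g : Env, (∑ z ∈ D, X z g) ^ 2 = ∑ z ∈ D, ∑ z' ∈ D, X z g * X z' g := by
    intro g
    rw [sq, Finset.sum_mul_sum]
  change ∫ g : Env, (∑ z ∈ D, X z g) ^ 2 ∂(law μ) ≤ D.card
  simp only [h1]
  have hint : ∀ z z', Integrable (fun g => X z g * X z' g) (law μ) := fun z z' =>
    ((hXp z).mul (hXp z')).integrable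
  rw [integral_finsetSum _ fun z _ => integrable_finsetSum _ fun z' _ => hint z z']
  calc ∑ z ∈ D, ∫ g, ∑ z' ∈ D, X z g * X z' g ∂(law μ)
      = ∑ z ∈ D, ∫ g, X z g * X z g ∂(law μ) := by
        refine Finset.sum_congr rfl fun z hz => ?_
        rw [integral_finsetSum _ fun z' _ => hint z z']
        exact Finset.sum_eq_single z (fun z' _ hne => hXX z z' hne.symm) fun h => absurd hz h
    _ ≤ ∑ z ∈ D, (1 : ℝ) := by
        refine Finset.sum_le_sum fun z _ => ?_
        have h2 := integral_mono (hint z z) (integrable_const (1 : ℝ)) fun g => by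
          have h3 := hX1 z g
          have h4 : X z g * X z g = |X z g| * |X z g| := (abs_mul_abs_self _).symm
          show X z g * X z g ≤ 1
          rw [h4]
          exact mul_le_one₀ h3 (abs_nonneg _) h3
        simpa using h2
    _ = D.card := by simp

/-- **Anti-concentration.** The paths of the first system visit `D` at least `m` times, those of the
second system never. Proof. Let `f = clp K (dU g)`, `|f| ≤ K`, `S g = ∑_{z ∈ D} (phi (g z) - ∫ phi)`.
By Cauchy–Schwarz (e.g. `2 x y ≤ t x² + y²/t`, or `integral_mul_le_Lp…`) and `two_sq`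
`∫ f S ≤ K √|D|`. Sum `two_p` over `z ∈ D`:
`∑_z SA (ind (z ∈ A i)) = SA (card (A i ∩ D)) ≥ m` (`SA_sum`, `SA_mono`, `SA_const`), so
`kmin m P(|dU| ≤ K/2) ≤ ∫ f S` (`kmin ≥ 0`). -/
theorem two_class (hμ : EM μ) {p q : ℝ} (hpq : p < q) (hk : 0 ≤ kmin μ p q) {I : Finset ι}
    {c : ι → ℝ} (hc : Adms I c) (A : ι → Finset (ℕ × ℤ)) {J : Finset κ} {d : κ → ℝ}
    (B : κ → Finset (ℕ × ℤ)) {D : Finset (ℕ × ℤ)} {m : ℝ}
    (hm : ∀ i ∈ I, m ≤ ∑ z ∈ D, ind (z ∈ A i))
    (hB : ∀ j ∈ J, Disjoint (B j) D) {b : Env → ℝ} (hbm : Measurable b)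
    (hb : DependsOn b (D : Set (ℕ × ℤ))ᶜ) {K : ℝ} (hK : 2 ≤ K) :
    kmin μ p q * m * (law μ).real {g | |dU I c A J d B b g| ≤ K / 2} ≤ K * Real.sqrt D.card := by
  classical
  have hK0 : 0 ≤ K := by linarith
  have hKp : 0 < K := by linarith
  have mU := TwoB_dU_meas I c A J d B hbm
  have mI : Measurable fun g : Env => ind (|dU I c A J d B b g| ≤ K / 2) :=
    TwoB_meas_ind (continuous_abs.measurable.comp mU) _
  have mf : Measurable fun g : Env => clp K (dU I c A J d B b g) := (TwoB_clp_meas K).comp mU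
  have mS : ∀ z, Measurable fun g : Env => SA I c A g (fun i => ind (z ∈ A i)) := fun z =>
    measurable_SA I c A fun i _ => measurable_const
  have S0 : ∀ z, ∀ g : Env, 0 ≤ SA I c A g (fun i => ind (z ∈ A i)) := fun z g =>
    SA_nonneg hc fun i _ => ind_nonneg _
  have S1 : ∀ z, ∀ g : Env, SA I c A g (fun i => ind (z ∈ A i)) ≤ 1 := fun z g =>
    SA_le hc fun i _ => ind_le_one _
  have pI : PMom (law μ) fun g : Env => ind (|dU I c A J d B b g| ≤ K / 2) :=
    PMom.of_bounded mI fun g => ind_abs _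
  have pS : ∀ z, PMom (law μ) fun g : Env => SA I c A g (fun i => ind (z ∈ A i)) := fun z =>
    PMom.of_bounded (c := 1) (mS z) fun g => by rw [abs_of_nonneg (S0 z g)]; exact S1 z g
  have pf : PMom (law μ) fun g : Env => clp K (dU I c A J d B b g) :=
    PMom.of_bounded (c := K) mf fun g => clp_abs hK0 _
  have pX := fun z => TwoB_X_mom (μ := μ) p q z
  -- left side
  have hL : m * (law μ).real {g | |dU I c A J d B b g| ≤ K / 2} ≤
      ∑ z ∈ D, ∫ g : Env, SA I c A g (fun i => ind (z ∈ A i)) *
        ind (|dU I c A J d B b g| ≤ K / 2) ∂(law μ) := by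
    have h1 : (law μ).real {g | |dU I c A J d B b g| ≤ K / 2} =
        ∫ g : Env, ind (|dU I c A J d B b g| ≤ K / 2) ∂(law μ) := by
      have h2 : (fun g : Env => ind (|dU I c A J d B b g| ≤ K / 2)) =
          Set.indicator {g | |dU I c A J d B b g| ≤ K / 2} (fun _ => (1 : ℝ)) := by
        funext g
        by_cases h : |dU I c A J d B b g| ≤ K / 2
        · rw [ind_true h, Set.indicator_of_mem (by exact h)]
        · rw [ind_false h, Set.indicator_of_notMem (by exact h)]
      have hms : MeasurableSet {g : Env | |dU I c A J d B b g| ≤ K / 2} :=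
        measurableSet_le (continuous_abs.measurable.comp mU) measurable_const
      rw [h2, integral_indicator_const _ hms]
      simp
    rw [h1, ← integral_const_mul, ← integral_finsetSum _ fun z _ => ((pS z).mul pI).integrable]
    refine integral_mono (pI.integrable.const_mul m)
      (integrable_finsetSum _ fun z _ => ((pS z).mul pI).integrable) fun g => ?_
    beta_reduce
    rw [← Finset.sum_mul]
    refine mul_le_mul_of_nonneg_right ?_ (ind_nonneg _)
    rw [← SA_sum]
    have h3 := SA_mono (A := A) (g := g) hc (F := fun _ => m) hm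
    rwa [SA_const hc] at h3
  -- right side
  have hR : ∑ z ∈ D, kmin μ p q * ∫ g : Env, SA I c A g (fun i => ind (z ∈ A i)) *
        ind (|dU I c A J d B b g| ≤ K / 2) ∂(law μ) ≤
      ∫ g : Env, (∑ z ∈ D, (phi p q (g z) - ∫ u, phi p q u ∂μ)) *
        clp K (dU I c A J d B b g) ∂(law μ) := by
    have h1 : ∀ g : Env, (∑ z ∈ D, (phi p q (g z) - ∫ u, phi p q u ∂μ)) *
        clp K (dU I c A J d B b g) = ∑ z ∈ D, (phi p q (g z) - ∫ u, phi p q u ∂μ) *
          clp K (dU I c A J d B b g) := fun g => Finset.sum_mul _ _ _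
    simp only [h1]
    rw [integral_finsetSum _ fun z _ => ((pX z).mul pf).integrable]
    exact Finset.sum_le_sum fun z hz => two_p hμ hpq hc A B hB hbm hb hK hz
  have hCS : ∫ g : Env, (∑ z ∈ D, (phi p q (g z) - ∫ u, phi p q u ∂μ)) *
        clp K (dU I c A J d B b g) ∂(law μ) ≤ K * Real.sqrt D.card := by
    rcases Finset.eq_empty_or_nonempty D with hD | hD
    · subst hD
      simp
    have hcard : (0 : ℝ) < D.card := by exact_mod_cast hD.card_pos
    set w : ℝ := Real.sqrt D.card with hw
    have hw0 : 0 < w := Real.sqrt_pos.2 hcard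
    have hww : w * w = D.card := Real.mul_self_sqrt hcard.le
    have pSum : PMom (law μ) fun g : Env => ∑ z ∈ D, (phi p q (g z) - ∫ u, phi p q u ∂μ) :=
      PMom.sum D fun z _ => pX z
    have h1 : ∀ g : Env, (∑ z ∈ D, (phi p q (g z) - ∫ u, phi p q u ∂μ)) *
        clp K (dU I c A J d B b g) ≤
        (K / (2 * w)) * (∑ z ∈ D, (phi p q (g z) - ∫ u, phi p q u ∂μ)) ^ 2 + K * w / 2 := by
      intro g
      set S := ∑ z ∈ D, (phi p q (g z) - ∫ u, phi p q u ∂μ)
      set f := clp K (dU I c A J d B b g)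
      have hf : |f| ≤ K := clp_abs hK0 _
      have h2 : S * f ≤ |S| * K := by
        calc S * f ≤ |S * f| := le_abs_self _
          _ = |S| * |f| := abs_mul _ _
          _ ≤ |S| * K := mul_le_mul_of_nonneg_left hf (abs_nonneg _)
      have h3 : |S| * K ≤ (K / (2 * w)) * S ^ 2 + K * w / 2 := by
        have h4 : (K / (2 * w)) * S ^ 2 + K * w / 2 - |S| * K =
            K / (2 * w) * (|S| - w) ^ 2 := by
          have : S ^ 2 = |S| ^ 2 := (sq_abs S).symm
          rw [this]
          field_simp
          ring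
        have h5 : 0 ≤ K / (2 * w) * (|S| - w) ^ 2 := by positivity
        linarith
      exact h2.trans h3
    have h2 := integral_mono (μ := law μ) (pSum.mul pf).integrable
      ((pSum.sq_integrable.const_mul (K / (2 * w))).add (integrable_const (K * w / 2))) h1
    have h3 : ∫ g : Env, ((K / (2 * w)) * (∑ z ∈ D, (phi p q (g z) - ∫ u, phi p q u ∂μ)) ^ 2 +
        K * w / 2) ∂(law μ) = (K / (2 * w)) *
          (∫ g : Env, (∑ z ∈ D, (phi p q (g z) - ∫ u, phi p q u ∂μ)) ^ 2 ∂(law μ)) +
          K * w / 2 := by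
      rw [integral_add (pSum.sq_integrable.const_mul (K / (2 * w))) (integrable_const _),
        integral_const_mul, integral_const]
      simp
    have h4 := two_sq (μ := μ) p q D
    have h5 : (K / (2 * w)) *
        (∫ g : Env, (∑ z ∈ D, (phi p q (g z) - ∫ u, phi p q u ∂μ)) ^ 2 ∂(law μ)) ≤
        (K / (2 * w)) * D.card := mul_le_mul_of_nonneg_left h4 (by positivity)
    have h6 : (K / (2 * w)) * D.card = K * w / 2 := by
      rw [← hww]
      field_simp
    refine h2.trans (le_trans (le_of_eq h3) ?_)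
    linarith
  have h7 : kmin μ p q * (m * (law μ).real {g | |dU I c A J d B b g| ≤ K / 2}) ≤
      kmin μ p q * ∑ z ∈ D, ∫ g : Env, SA I c A g (fun i => ind (z ∈ A i)) *
        ind (|dU I c A J d B b g| ≤ K / 2) ∂(law μ) := mul_le_mul_of_nonneg_left hL hk
  rw [Finset.mul_sum] at h7
  rw [mul_assoc]
  exact h7.trans (hR.trans hCS)

end

end Pool.Agent.W_7d29a1_h47
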