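import Pool.Agent.W_7d29a1_h47q.LgvU
import Pool.Agent.W_7d29a1_h47q.TwoB
import Pool.Agent.W_7d29a1_h47q.StripA

/-!
# Confined walks in two neighbouring tubes
-/

namespace Pool.Agent.W_7d29a1_h47

open MeasureTheory ProbabilityTheory Finset

noncomputable section

variable {μ : Measure ℝ} [IsProbabilityMeasure μ]

/-- The walks started in `x` at time `0` that stay within distance `r` of `x` up to time `n`. -/
def Cf (n r : ℕ) (x : ℤ) : Finset (ℤ × (ℕ → Bool)) := by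
  classical
  exact ({x} ×ˢ T n).filter fun i => ∀ l ≤ n, |pos i.2 l| ≤ r

lemma mem_Cf {n r : ℕ} {x : ℤ} {i : ℤ × (ℕ → Bool)} :
    i ∈ Cf n r x ↔ i.1 = x ∧ i.2 ∈ T n ∧ ∀ l ≤ n, |pos i.2 l| ≤ r := by
  unfold Cf
  simp only [Finset.mem_filter, Finset.mem_product, Finset.mem_singleton]
  tauto

/-- The log partition function of the confined walks. -/
def YC (g : Env) (n r : ℕ) (x : ℤ) : ℝ :=
  Real.log (SZ (Cf n r x) (fun _ => 1) (WA 0 n) g)

/-- The alternating walk, cut at `n`. -/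
def NuC_alt (n : ℕ) : ℕ → Bool := fun l => decide (l % 2 = 0 ∧ l < n)

lemma NuC_alt_mem (n : ℕ) : NuC_alt n ∈ T n := by
  rw [mem_T]
  intro i hi
  unfold NuC_alt
  rw [decide_eq_false_iff_not]
  rintro ⟨-, h⟩
  omega

lemma NuC_alt_pos (n l : ℕ) (hl : l ≤ n) : pos (NuC_alt n) l = (l % 2 : ℕ) := by
  induction l with
  | zero => simp
  | succ l ih =>
    rw [pos_succ, ih (by omega)]
    by_cases h2 : l % 2 = 0
    · have h3 : NuC_alt n l = true := by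
        unfold NuC_alt
        rw [decide_eq_true_iff]
        exact ⟨h2, by omega⟩
      rw [h3, stp_true]
      omega
    · have h3 : NuC_alt n l = false := by
        unfold NuC_alt
        rw [decide_eq_false_iff_not]
        exact fun h => h2 h.1
      rw [h3, stp_false]
      omega

lemma NuC_upos (u i : ℕ) : pos (fun j => decide (j < u)) i = 2 * (min i u : ℕ) - (i : ℤ) := by
  induction i with
  | zero => simp
  | succ i ih =>
    rw [pos_succ, ih]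
    by_cases h : i < u
    · have h3 : decide (i < u) = true := decide_eq_true h
      rw [h3, stp_true]
      omega
    · have h3 : decide (i < u) = false := decide_eq_false h
      rw [h3, stp_false]
      omega

lemma NuC_path {m : ℕ} {d : ℤ} (h1 : |d| ≤ m) (h2 : d % 2 = m % 2) :
    ∃ r ∈ T m, pos r m = d := by
  obtain ⟨h3, h4⟩ := abs_le.1 h1
  have h5 : 0 ≤ ((m : ℤ) + d) / 2 := by omega
  obtain ⟨u, hu⟩ := Int.eq_ofNat_of_zero_le h5
  have hum : u ≤ m := by omega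
  refine ⟨fun j => decide (j < u), ?_, ?_⟩
  · rw [mem_T]
    intro i hi
    exact decide_eq_false (by omega)
  · rw [NuC_upos, min_eq_right hum]
    omega

lemma NuC_wt (g : Env) (t : ℕ) (x : ℤ) (n : ℕ) (s : ℕ → Bool) :
    wt g 0 t x n s = Real.exp (En g t x n s) := by
  unfold wt
  rw [zero_mul, add_zero]

lemma NuC_end (g : Env) {n : ℕ} (x : ℤ) {S : Finset ℤ} (hS : Icc (x - n) (x + n) ⊆ S)
    (W : ℤ → ℝ) : ∑ s ∈ T n, Real.exp (En g 0 x n s) * W (x + pos s n) =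
      ∑ z ∈ S, Zp g 0 x n z * W z := by
  unfold Zp
  simp only [Finset.sum_mul]
  rw [Finset.sum_comm]
  refine Finset.sum_congr rfl fun s _ => ?_
  rw [Finset.sum_eq_single (x + pos s n)]
  · rw [if_pos rfl]
  · intro z _ hz
    rw [if_neg (fun h => hz h.symm), zero_mul]
  · intro h
    exact absurd (hS (pos_mem_Icc s n x)) h

lemma NuC_split (g : Env) (x : ℤ) (P : ℤ → Prop) {t : ℕ} {S : Finset ℤ}
    (hS : Icc (x - t) (x + t) ⊆ S) :
    ∑ s ∈ T (t + t), ind (P (x + pos s t)) * Real.exp (En g 0 x (t + t) s) =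
      ∑ z ∈ S, Zp g 0 x t z * (ind (P z) * Z g 0 t z t) := by
  rw [← NuC_end g x hS (fun z => ind (P z) * Z g 0 t z t), sum_split]
  refine Finset.sum_congr rfl fun s _ => ?_
  unfold Z
  rw [Finset.mul_sum, Finset.mul_sum]
  refine Finset.sum_congr rfl fun r _ => ?_
  rw [En_glue, Real.exp_add, pos_glue_le le_rfl, NuC_wt, zero_add]
  ring

lemma NuC_le_Z (g : Env) (x : ℤ) (P : ℤ → Prop) (t : ℕ) :
    ∑ s ∈ T (t + t), ind (P (x + pos s t)) * Real.exp (En g 0 x (t + t) s) ≤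
      Z g 0 0 x (t + t) := by
  unfold Z
  refine Finset.sum_le_sum fun s _ => ?_
  rw [NuC_wt]
  exact mul_le_of_le_one_left (Real.exp_pos _).le (ind_le_one _)

/-- Proof. The alternating walk (`l ↦ decide (l % 2 = 0)`, cut at `n`) stays in `{0, 1}`; `r ≥ 1`. -/
lemma Cf_adms {n r : ℕ} (hr : 1 ≤ r) (x : ℤ) : Adms (Cf n r x) (fun _ => (1 : ℝ)) := by
  refine ⟨fun _ _ => zero_le_one, ⟨(x, NuC_alt n), ?_, one_pos⟩⟩
  rw [mem_Cf]
  refine ⟨rfl, NuC_alt_mem n, fun l hl => ?_⟩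
  show |pos (NuC_alt n) l| ≤ r
  rw [NuC_alt_pos n l hl, abs_le]
  constructor <;> omega

/-- Proof. `gs_WA`; the map `s ↦ (x, s)`. -/
lemma SZ_Cf (g : Env) (n r : ℕ) (x : ℤ) :
    SZ (Cf n r x) (fun _ => 1) (WA 0 n) g =
      ∑ s ∈ T n, ind (∀ l ≤ n, |pos s l| ≤ r) * Real.exp (En g 0 x n s) := by
  unfold SZ Cf
  rw [Finset.sum_filter, Finset.sum_product, Finset.sum_singleton]
  refine Finset.sum_congr rfl fun s _ => ?_
  rw [gs_WA]
  unfold ind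
  split_ifs with h1
  · ring
  · ring

/-- Proof. `Z_mul_Av` with tilt `0`: `Z g 0 0 x n * Av = SZ`; so `SZ ≥ Z / 2`. -/
lemma YC_ge (g : Env) {n r : ℕ} (hr : 1 ≤ r) {x : ℤ}
    (h : 1 / 2 ≤ Av g 0 0 x n (fun s => ind (∀ l ≤ n, |pos s l| ≤ r))) :
    Real.log (Z g 0 0 x n) - Real.log 2 ≤ YC g n r x := by
  have h1 := Z_mul_Av (g := g) (h := 0) (t := 0) (x := x) (n := n)
    (fun s => ind (∀ l ≤ n, |pos s l| ≤ r))
  have h2 : ∑ s ∈ T n, wt g 0 0 x n s * ind (∀ l ≤ n, |pos s l| ≤ r) =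
      SZ (Cf n r x) (fun _ => 1) (WA 0 n) g := by
    rw [SZ_Cf]
    refine Finset.sum_congr rfl fun s _ => ?_
    rw [NuC_wt, mul_comm]
  have hZ := Z_pos g 0 0 x n
  have h3 : Z g 0 0 x n / 2 ≤ SZ (Cf n r x) (fun _ => 1) (WA 0 n) g := by
    rw [← h2, ← h1]
    nlinarith
  unfold YC
  rw [← Real.log_div hZ.ne' (by norm_num)]
  exact Real.log_le_log (by positivity) h3

lemma YC_le (g : Env) {n r : ℕ} (hr : 1 ≤ r) (x : ℤ) : YC g n r x ≤ Real.log (Z g 0 0 x n) := by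
  unfold YC
  refine Real.log_le_log (SZ_pos (Cf_adms hr x) _ g) ?_
  rw [SZ_Cf]
  unfold Z
  refine Finset.sum_le_sum fun s _ => ?_
  rw [NuC_wt]
  have h1 := ind_le_one (∀ l ≤ n, |pos s l| ≤ (r : ℤ))
  have h2 := Real.exp_pos (En g 0 x n s)
  nlinarith

/-- **Lower comparison.** Proof. Split at time `t` (`sum_split`, `En_glue`; `n = t + t`): with
`Z_z = Z g 0 t z t`, `Z g 0 0 ℓ (t + t) = ∑_z Zp(ℓ → z) Z_z` and the class sum over `Cf (t+t) r 0` is at most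
`∑_{z ≥ -r} Zp(0 → z) Z_z` (the position at time `t` is `≥ -r`). `U_ge` with `z₀ = -r`
(`Reach 0 t (-r)`, `Reach ℓ t (-r)`: parity and distance, cf. `exists_path` in `Surg.lean`). Then `YC_ge`. -/
lemma comp_dn (g : Env) {t r : ℕ} (hr : 1 ≤ r) (hpar : r % 2 = t % 2) (ht : 3 * r + 2 ≤ t)
    (h : 1 / 2 ≤ Av g 0 0 ((2 * r + 2 : ℕ) : ℤ) (t + t) (fun s => ind (∀ l ≤ t + t, |pos s l| ≤ r))) :
    Uz g t (2 * r + 2) (-r) - Real.log 2 ≤
      YC g (t + t) r ((2 * r + 2 : ℕ) : ℤ) - YC g (t + t) r 0 := by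
  have hY := YC_ge g hr h
  have hpos := SZ_pos (Cf_adms (n := t + t) hr 0) (WA 0 (t + t)) g
  have hZ := Z_pos g 0 0 ((2 * r + 2 : ℕ) : ℤ) (t + t)
  have h0 : Reach 0 t (-(r : ℤ)) := by
    obtain ⟨s, hs, hs2⟩ := NuC_path (m := t) (d := -(r : ℤ))
      (by rw [abs_le]; constructor <;> omega) (by omega)
    exact ⟨s, hs, by rw [hs2]; ring⟩
  have h1 : Reach ((2 * r + 2 : ℕ) : ℤ) t (-(r : ℤ)) := by
    obtain ⟨s, hs, hs2⟩ := NuC_path (m := t) (d := -(3 * (r : ℤ) + 2))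
      (by rw [abs_le]; constructor <;> omega) (by omega)
    exact ⟨s, hs, by rw [hs2]; push_cast; ring⟩
  set S : Finset ℤ := Icc (-(t : ℤ)) (((2 * r + 2 : ℕ) : ℤ) + t) with hS
  have hS0 : Icc ((0 : ℤ) - t) (0 + t) ⊆ S := by
    intro z hz
    rw [hS, Finset.mem_Icc]
    rw [Finset.mem_Icc] at hz
    push_cast
    constructor <;> omega
  have hS1 : Icc (((2 * r + 2 : ℕ) : ℤ) - t) (((2 * r + 2 : ℕ) : ℤ) + t) ⊆ S := by
    intro z hz
    rw [hS, Finset.mem_Icc]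
    rw [Finset.mem_Icc] at hz
    push_cast at hz ⊢
    constructor <;> omega
  have e1 : SZ (Cf (t + t) r 0) (fun _ => 1) (WA 0 (t + t)) g ≤
      ∑ z ∈ S, Zp g 0 0 t z * (ind (-(r : ℤ) ≤ z) * Z g 0 t z t) := by
    rw [SZ_Cf, ← NuC_split g 0 (fun z => -(r : ℤ) ≤ z) hS0]
    refine Finset.sum_le_sum fun s _ => mul_le_mul_of_nonneg_right (ind_mono fun H => ?_)
      (Real.exp_pos _).le
    have := (abs_le.1 (H t (by omega))).1
    omega
  have e2 : Real.exp (Uz g t (2 * r + 2) (-(r : ℤ))) *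
      (∑ z ∈ S, Zp g 0 0 t z * (ind (-(r : ℤ) ≤ z) * Z g 0 t z t)) ≤
      ∑ z ∈ S, Zp g 0 ((2 * r + 2 : ℕ) : ℤ) t z * (ind (-(r : ℤ) ≤ z) * Z g 0 t z t) := by
    rw [Finset.mul_sum]
    refine Finset.sum_le_sum fun z _ => ?_
    by_cases hz : -(r : ℤ) ≤ z
    · rw [← mul_assoc]
      exact mul_le_mul_of_nonneg_right (U_ge g (by omega) (by omega) h0 h1 hz)
        (mul_nonneg (ind_nonneg _) (Z_pos _ _ _ _ _).le)
    · rw [ind_false hz]
      simp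
  have e3 : ∑ z ∈ S, Zp g 0 ((2 * r + 2 : ℕ) : ℤ) t z * (ind (-(r : ℤ) ≤ z) * Z g 0 t z t) ≤
      Z g 0 0 ((2 * r + 2 : ℕ) : ℤ) (t + t) := by
    rw [← NuC_split g ((2 * r + 2 : ℕ) : ℤ) (fun z => -(r : ℤ) ≤ z) hS1]
    exact NuC_le_Z g ((2 * r + 2 : ℕ) : ℤ) (fun z => -(r : ℤ) ≤ z) t
  have e4 : Real.exp (Uz g t (2 * r + 2) (-(r : ℤ))) *
      SZ (Cf (t + t) r 0) (fun _ => 1) (WA 0 (t + t)) g ≤
      Z g 0 0 ((2 * r + 2 : ℕ) : ℤ) (t + t) :=
    (mul_le_mul_of_nonneg_left e1 (Real.exp_pos _).le).trans (e2.trans e3)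
  have e5 := Real.log_le_log (mul_pos (Real.exp_pos _) hpos) e4
  rw [Real.log_mul (Real.exp_pos _).ne' hpos.ne', Real.log_exp] at e5
  have e6 : YC g (t + t) r 0 = Real.log (SZ (Cf (t + t) r 0) (fun _ => 1) (WA 0 (t + t)) g) := rfl
  rw [e6]
  linarith

/-- **Upper comparison.** Proof. The class sum over `Cf (t+t) r ℓ`, `ℓ = 2r+2`, is at most
`∑_{z ≤ ℓ + r} Zp(ℓ → z) Z_z ≤ e^{U(ℓ + r)} ∑_z Zp(0 → z) Z_z = e^U Z g 0 0 0 (t + t)` (`U_le` with
`z₀ = ℓ + r = 3 r + 2`), and `YC_ge` for the walks from `0`. -/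
lemma comp_up (g : Env) {t r : ℕ} (hr : 1 ≤ r) (hpar : r % 2 = t % 2) (ht : 3 * r + 2 ≤ t)
    (h : 1 / 2 ≤ Av g 0 0 0 (t + t) (fun s => ind (∀ l ≤ t + t, |pos s l| ≤ r))) :
    YC g (t + t) r ((2 * r + 2 : ℕ) : ℤ) - YC g (t + t) r 0 ≤
      Uz g t (2 * r + 2) (3 * r + 2) + Real.log 2 := by
  have hY := YC_ge g hr h
  have hpos := SZ_pos (Cf_adms (n := t + t) hr ((2 * r + 2 : ℕ) : ℤ)) (WA 0 (t + t)) g
  have hZ := Z_pos g 0 0 0 (t + t)
  have h0 : Reach 0 t (3 * (r : ℤ) + 2) := by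
    obtain ⟨s, hs, hs2⟩ := NuC_path (m := t) (d := 3 * (r : ℤ) + 2)
      (by rw [abs_le]; constructor <;> omega) (by omega)
    exact ⟨s, hs, by rw [hs2]; ring⟩
  have h1 : Reach ((2 * r + 2 : ℕ) : ℤ) t (3 * (r : ℤ) + 2) := by
    obtain ⟨s, hs, hs2⟩ := NuC_path (m := t) (d := (r : ℤ))
      (by rw [abs_le]; constructor <;> omega) (by omega)
    exact ⟨s, hs, by rw [hs2]; push_cast; ring⟩
  set S : Finset ℤ := Icc (-(t : ℤ)) (((2 * r + 2 : ℕ) : ℤ) + t) with hS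
  have hS0 : Icc ((0 : ℤ) - t) (0 + t) ⊆ S := by
    intro z hz
    rw [hS, Finset.mem_Icc]
    rw [Finset.mem_Icc] at hz
    push_cast
    constructor <;> omega
  have hS1 : Icc (((2 * r + 2 : ℕ) : ℤ) - t) (((2 * r + 2 : ℕ) : ℤ) + t) ⊆ S := by
    intro z hz
    rw [hS, Finset.mem_Icc]
    rw [Finset.mem_Icc] at hz
    push_cast at hz ⊢
    constructor <;> omega
  have e1 : SZ (Cf (t + t) r ((2 * r + 2 : ℕ) : ℤ)) (fun _ => 1) (WA 0 (t + t)) g ≤
      ∑ z ∈ S, Zp g 0 ((2 * r + 2 : ℕ) : ℤ) t z * (ind (z ≤ 3 * (r : ℤ) + 2) * Z g 0 t z t) := by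
    rw [SZ_Cf, ← NuC_split g ((2 * r + 2 : ℕ) : ℤ) (fun z => z ≤ 3 * (r : ℤ) + 2) hS1]
    refine Finset.sum_le_sum fun s _ => mul_le_mul_of_nonneg_right (ind_mono fun H => ?_)
      (Real.exp_pos _).le
    have := (abs_le.1 (H t (by omega))).2
    push_cast
    omega
  have e2 : (∑ z ∈ S, Zp g 0 ((2 * r + 2 : ℕ) : ℤ) t z *
      (ind (z ≤ 3 * (r : ℤ) + 2) * Z g 0 t z t)) ≤
      Real.exp (Uz g t (2 * r + 2) (3 * (r : ℤ) + 2)) *
      (∑ z ∈ S, Zp g 0 0 t z * (ind (z ≤ 3 * (r : ℤ) + 2) * Z g 0 t z t)) := by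
    rw [Finset.mul_sum]
    refine Finset.sum_le_sum fun z _ => ?_
    by_cases hz : z ≤ 3 * (r : ℤ) + 2
    · have h5 := mul_le_mul_of_nonneg_right (U_le g (by omega) (by omega) h0 h1 hz)
        (mul_nonneg (ind_nonneg (z ≤ 3 * (r : ℤ) + 2)) (Z_pos g 0 t z t).le)
      rw [mul_assoc (Real.exp _)] at h5
      exact h5
    · rw [ind_false hz]
      simp
  have e3 : ∑ z ∈ S, Zp g 0 0 t z * (ind (z ≤ 3 * (r : ℤ) + 2) * Z g 0 t z t) ≤
      Z g 0 0 0 (t + t) := by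
    rw [← NuC_split g 0 (fun z => z ≤ 3 * (r : ℤ) + 2) hS0]
    exact NuC_le_Z g 0 (fun z => z ≤ 3 * (r : ℤ) + 2) t
  have e4 : SZ (Cf (t + t) r ((2 * r + 2 : ℕ) : ℤ)) (fun _ => 1) (WA 0 (t + t)) g ≤
      Real.exp (Uz g t (2 * r + 2) (3 * (r : ℤ) + 2)) * Z g 0 0 0 (t + t) :=
    e1.trans (e2.trans (mul_le_mul_of_nonneg_left e3 (Real.exp_pos _).le))
  have e5 := Real.log_le_log hpos e4
  rw [Real.log_mul (Real.exp_pos _).ne' hZ.ne', Real.log_exp] at e5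
  have e6 : YC g (t + t) r ((2 * r + 2 : ℕ) : ℤ) =
    Real.log (SZ (Cf (t + t) r ((2 * r + 2 : ℕ) : ℤ)) (fun _ => 1) (WA 0 (t + t)) g) := rfl
  rw [e6]
  linarith

open Classical in
/-- The sites of the tube around `0`, times `t`, …, `2t - 1`. -/
def tubD (t r : ℕ) : Finset (ℕ × ℤ) :=
  (range t).biUnion fun j => (Icc (-(r : ℤ)) r).image fun y => (t + j, y)

lemma NuC_mem_tubD {t r : ℕ} {z : ℕ × ℤ} :
    z ∈ tubD t r ↔ ∃ j < t, z.1 = t + j ∧ (-(r : ℤ) ≤ z.2 ∧ z.2 ≤ r) := by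
  unfold tubD
  simp only [Finset.mem_biUnion, Finset.mem_range, Finset.mem_image, Finset.mem_Icc]
  constructor
  · rintro ⟨j, hj, y, hy, rfl⟩
    exact ⟨j, hj, rfl, hy⟩
  · rintro ⟨j, hj, h1, h2⟩
    exact ⟨j, hj, z.2, h2, by rw [← h1]⟩

/-- **Anti-concentration.** Proof. `two_class` with `I = Cf (t+t) r 0`, `J = Cf (t+t) r ℓ`, `c = d = 1`,
`A = B = WA 0 (t+t)`, `D = tubD t r`, `m = t`, `b g = -Uz g t ℓ (-r)` (depends on the rows `< t`:
`dependsOn_Uz`). A walk of `I` visits `D` at each of the times `t + j + 1`, `j < t`: the site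
`(t + j, pos s (t+j+1))`, `|pos| ≤ r` (`mem_WA`). A walk of `J` has positions `≥ ℓ - r = r + 2 > r`.
`|D| ≤ t (2r + 1)`. -/
theorem tub_anti (hμ : EM μ) {p q : ℝ} (hpq : p < q) (hk : 0 ≤ kmin μ p q) {t r : ℕ} (hr : 1 ≤ r)
    {K : ℝ} (hK : 2 ≤ K) :
    kmin μ p q * t * (law μ).real {g | |YC g (t + t) r 0 - YC g (t + t) r ((2 * r + 2 : ℕ) : ℤ) +
        Uz g t (2 * r + 2) (-r)| ≤ K / 2} ≤ K * Real.sqrt (t * (2 * r + 1)) := by
  classical
  have hm : ∀ i ∈ Cf (t + t) r 0, (t : ℝ) ≤ ∑ z ∈ tubD t r, ind (z ∈ WA 0 (t + t) i) := by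
    intro i hi
    obtain ⟨h1, -, h3⟩ := mem_Cf.1 hi
    set f : ℕ → ℕ × ℤ := fun j => (t + j, i.1 + pos i.2 (t + j + 1)) with hf
    have hfi : Function.Injective f := by
      intro a b hab
      have := (Prod.mk.inj hab).1
      omega
    have hsub : (range t).image f ⊆ tubD t r := by
      intro z hz
      obtain ⟨j, hj, rfl⟩ := Finset.mem_image.1 hz
      have hj' := Finset.mem_range.1 hj
      rw [NuC_mem_tubD]
      refine ⟨j, hj', rfl, ?_⟩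
      have h4 := abs_le.1 (h3 (t + j + 1) (by omega))
      show -(r : ℤ) ≤ i.1 + pos i.2 (t + j + 1) ∧ i.1 + pos i.2 (t + j + 1) ≤ r
      rw [h1]
      constructor <;> omega
    have hone : ∀ z ∈ (range t).image f, ind (z ∈ WA 0 (t + t) i) = 1 := by
      intro z hz
      obtain ⟨j, hj, rfl⟩ := Finset.mem_image.1 hz
      have hj' := Finset.mem_range.1 hj
      apply ind_true
      rw [mem_WA]
      refine ⟨t + j, by omega, ?_⟩
      rw [zero_add]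
    calc (t : ℝ) = ∑ z ∈ (range t).image f, ind (z ∈ WA 0 (t + t) i) := by
          rw [Finset.sum_congr rfl hone, Finset.sum_const, Finset.card_image_of_injective _ hfi,
            Finset.card_range, nsmul_eq_mul, mul_one]
      _ ≤ _ := Finset.sum_le_sum_of_subset_of_nonneg hsub fun _ _ _ => ind_nonneg _
  have hB : ∀ j ∈ Cf (t + t) r ((2 * r + 2 : ℕ) : ℤ), Disjoint (WA 0 (t + t) j) (tubD t r) := by
    intro j hj
    obtain ⟨h1, -, h3⟩ := mem_Cf.1 hj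
    rw [Finset.disjoint_left]
    intro z hz hz'
    obtain ⟨k, hk, rfl⟩ := mem_WA.1 hz
    obtain ⟨l, _, _, hl3⟩ := NuC_mem_tubD.1 hz'
    have h4 := abs_le.1 (h3 (k + 1) (by omega))
    have h5 : j.1 + pos j.2 (k + 1) ≤ r := hl3.2
    rw [h1] at h5
    push_cast at h5
    omega
  have hb : DependsOn (fun g : Env => -Uz g t (2 * r + 2) (-(r : ℤ))) ((tubD t r : Set (ℕ × ℤ)))ᶜ := by
    intro g g' hg
    have h1 := dependsOn_Uz t (2 * r + 2) (-(r : ℤ)) (x := g) (y := g') (fun p hp => hg p (by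
      intro hp'
      obtain ⟨l, _, hl2, _⟩ := NuC_mem_tubD.1 (Finset.mem_coe.1 hp')
      have := hp.2
      omega))
    simp only at h1
    simp only [h1]
  have h := two_class hμ hpq hk (Cf_adms (n := t + t) hr 0) (WA 0 (t + t))
    (d := fun _ => (1 : ℝ)) (WA 0 (t + t)) hm hB
    (measurable_Uz t (2 * r + 2) (-(r : ℤ))).neg hb hK
  have hset : {g : Env | |dU (Cf (t + t) r 0) (fun _ => 1) (WA 0 (t + t))
      (Cf (t + t) r ((2 * r + 2 : ℕ) : ℤ)) (fun _ => 1) (WA 0 (t + t))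
      (fun g : Env => -Uz g t (2 * r + 2) (-(r : ℤ))) g| ≤ K / 2} =
      {g | |YC g (t + t) r 0 - YC g (t + t) r ((2 * r + 2 : ℕ) : ℤ) +
        Uz g t (2 * r + 2) (-r)| ≤ K / 2} := by
    ext g
    simp only [Set.mem_ofPred_eq]
    have e : dU (Cf (t + t) r 0) (fun _ => 1) (WA 0 (t + t))
      (Cf (t + t) r ((2 * r + 2 : ℕ) : ℤ)) (fun _ => 1) (WA 0 (t + t))
      (fun g : Env => -Uz g t (2 * r + 2) (-(r : ℤ))) g =
      YC g (t + t) r 0 - YC g (t + t) r ((2 * r + 2 : ℕ) : ℤ) +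
        Uz g t (2 * r + 2) (-r) := by
      unfold dU YC
      ring
    rw [e]
  have h' : kmin μ p q * t * (law μ).real {g | |dU (Cf (t + t) r 0) (fun _ => 1) (WA 0 (t + t))
      (Cf (t + t) r ((2 * r + 2 : ℕ) : ℤ)) (fun _ => 1) (WA 0 (t + t))
      (fun g : Env => -Uz g t (2 * r + 2) (-(r : ℤ))) g| ≤ K / 2} ≤
      K * Real.sqrt ((tubD t r).card) := h
  rw [hset] at h'
  refine h'.trans (mul_le_mul_of_nonneg_left (Real.sqrt_le_sqrt ?_) (by linarith))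
  have hc : (tubD t r).card ≤ t * (2 * r + 1) := by
    unfold tubD
    refine Finset.card_biUnion_le.trans ?_
    refine (Finset.sum_le_sum fun j _ => Finset.card_image_le).trans ?_
    rw [Finset.sum_const, Finset.card_range, smul_eq_mul, Int.card_Icc]
    refine Nat.mul_le_mul_left _ ?_
    omega
  exact_mod_cast hc

end

end Pool.Agent.W_7d29a1_h47
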