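import Pool.Agent.W_7d29a1_h47q.NuB
import Pool.Agent.W_7d29a1_h47q.NuC
import Pool.Agent.W_7d29a1_h47.Surg

/-!
# The contradiction for confined polymers
-/

namespace Pool.Agent.W_7d29a1_h47

open MeasureTheory ProbabilityTheory Finset

noncomputable section

variable {μ : Measure ℝ} [IsProbabilityMeasure μ]

/-- Confinement does not depend on the starting point. Proof. `Av_shiftEnv`,
`integral_comp_shiftEnv` / `mp_shiftEnv 0 x` (measure of a measurable set under a measure preserving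
map). -/
lemma conf_shift (n r : ℕ) (x : ℤ) :
    (law μ).real {g | ¬ (1 / 2 ≤ Av g 0 0 x n (fun s => ind (∀ l ≤ n, |pos s l| ≤ r)))} =
      (law μ).real {g | ¬ (1 / 2 ≤ Av g 0 0 0 n (fun s => ind (∀ l ≤ n, |pos s l| ≤ r)))} := by
  have hav : Measurable fun g : Env => Av g 0 0 0 n
      (fun s => ind (∀ l ≤ n, |pos s l| ≤ r)) :=
    measurable_Av (F := fun _ s => ind (∀ l ≤ n, |pos s l| ≤ r)) fun s _ => measurable_const
  have h0 : MeasurableSet {g : Env | ¬ ((1 / 2 : ℝ) ≤ Av g 0 0 0 n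
      (fun s => ind (∀ l ≤ n, |pos s l| ≤ r)))} := by
    have h1 : MeasurableSet {g : Env | (1 / 2 : ℝ) ≤ Av g 0 0 0 n
      (fun s => ind (∀ l ≤ n, |pos s l| ≤ r))} := measurableSet_le measurable_const hav
    exact h1.compl
  have h2 := (mp_shiftEnv (μ := μ) 0 x).measure_preimage h0.nullMeasurableSet
  have h3 : {g : Env | ¬ ((1 / 2 : ℝ) ≤ Av g 0 0 x n
      (fun s => ind (∀ l ≤ n, |pos s l| ≤ r)))} = shiftEnv 0 x ⁻¹' {g : Env |
        ¬ ((1 / 2 : ℝ) ≤ Av g 0 0 0 n (fun s => ind (∀ l ≤ n, |pos s l| ≤ r)))} := by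
    ext g
    show ¬ ((1 / 2 : ℝ) ≤ Av g 0 0 x n (fun s => ind (∀ l ≤ n, |pos s l| ≤ r))) ↔
      ¬ ((1 / 2 : ℝ) ≤ Av (shiftEnv 0 x g) 0 0 0 n (fun s => ind (∀ l ≤ n, |pos s l| ≤ r)))
    rw [Av_shiftEnv, zero_add, zero_add]
  rw [h3, measureReal_def, measureReal_def, h2]

/-- **The two tubes.** Proof. Let `ℓ = 2r + 2`, `m = 3r + 2 = r + ℓ`. Bad events: confinement fails for the
starting point `0` or `ℓ` (`≤ 1/16` each, `conf_shift`); `tilt_prob_up` with `x = 0` and `tilt_prob_dn` with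
`x = ℓ` (`≤ 2 e^{Cc - s} ≤ 1/32` each); `K/4 < uh h - uh (-h)` (`uh_markov`: `≤ 8 h ℓ / K ≤ 1/16`). Total
`≤ 1/4`. Off these events: `uh_up` with `z₀ = 3r+2` (`ind (m ≤ pos)`), `uh_dn` with `z₀ = -r` and the tilt
`-h` (`ℓ + pos ≤ -r` iff `pos ≤ -m`), so `Uz (3r+2) - Uz (-r) ≤ K/4 + 2 log 2`, and by `comp_dn`, `comp_up`
`|YC 0 - YC ℓ + Uz (-r)| ≤ K/4 + 3 log 2 ≤ K/2` (`K ≥ 9`, `log 2 < 0.7`). Hence the probability in
`tub_anti` is at least `3/4`, and `kmin t (3/4) ≤ K √(t (2r+1)) ≤ kmin t / 4`, contradiction. -/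
theorem nu_core (hμ : EM μ) {p q : ℝ} (hpq : p < q) (hk : 0 < kmin μ p q) {t r : ℕ} (ht1 : 1 ≤ t)
    (hr : 1 ≤ r) (hpar : r % 2 = t % 2) (ht : 3 * r + 2 ≤ t) {h K s : ℝ} (hh : 0 ≤ h) (hK : 9 ≤ K)
    (hK1 : K * Real.sqrt (t * (2 * r + 1)) ≤ kmin μ p q * t / 4)
    (hK2 : 128 * h * (2 * r + 2) ≤ K) (hs : Real.exp (Cc μ - s) ≤ 1 / 64)
    (hQ : h * (3 * r + 2) + Real.log 2 + eps μ t + 2 * s * Real.sqrt t ≤
      t * (Lam μ h - Lam μ 0))
    (hc : (law μ).real {g | ¬ (1 / 2 ≤ Av g 0 0 0 (t + t)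
      (fun s => ind (∀ l ≤ t + t, |pos s l| ≤ r)))} ≤ 1 / 16) : False := by
  set ℓ : ℕ := 2 * r + 2 with hℓdef
  have hℓ : 0 < ℓ := by omega
  have hℓ2 : ℓ % 2 = 0 := by omega
  have hK0 : 0 < K := by linarith
  -- reachability
  have R1 : Reach 0 t (3 * r + 2) := by
    obtain ⟨w, hw, hw'⟩ := exists_path (m := t) (d := 3 * r + 2)
      (by rw [abs_of_nonneg (by positivity)]; exact_mod_cast ht) (by omega)
    exact ⟨w, hw, by rw [hw']; ring⟩
  have R2 : Reach ℓ t (3 * r + 2) := by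
    obtain ⟨w, hw, hw'⟩ := exists_path (m := t) (d := r)
      (by rw [abs_of_nonneg (by positivity)]; omega) (by omega)
    exact ⟨w, hw, by rw [hw', hℓdef]; push_cast; ring⟩
  have R3 : Reach 0 t (-(r : ℤ)) := by
    obtain ⟨w, hw, hw'⟩ := exists_path (m := t) (d := -(r : ℤ))
      (by rw [abs_neg, abs_of_nonneg (by positivity)]; omega) (by omega)
    exact ⟨w, hw, by rw [hw']; ring⟩
  have R4 : Reach ℓ t (-(r : ℤ)) := by
    obtain ⟨w, hw, hw'⟩ := exists_path (m := t) (d := -(3 * r + 2))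
      (by rw [abs_neg, abs_of_nonneg (by positivity)]; exact_mod_cast ht) (by omega)
    exact ⟨w, hw, by rw [hw', hℓdef]; push_cast; ring⟩
  -- the bad events
  set E1 : Set Env := {g | ¬ ((1 / 2 : ℝ) ≤ Av g 0 0 0 (t + t)
      (fun s => ind (∀ l ≤ t + t, |pos s l| ≤ r)))} with hE1
  set E2 : Set Env := {g | ¬ ((1 / 2 : ℝ) ≤ Av g 0 0 (ℓ : ℤ) (t + t)
      (fun s => ind (∀ l ≤ t + t, |pos s l| ≤ r)))} with hE2
  set E3 : Set Env := {g | ¬ ((1 / 2 : ℝ) ≤ Av g h 0 0 t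
      (fun s => ind ((3 * r + 2 : ℤ) ≤ pos s t)))} with hE3
  set E4 : Set Env := {g | ¬ ((1 / 2 : ℝ) ≤ Av g (-h) 0 (ℓ : ℤ) t
      (fun s => ind (pos s t ≤ -(3 * r + 2 : ℤ))))} with hE4
  set E5 : Set Env := {g | K / 4 < uh g h t ℓ - uh g (-h) t ℓ} with hE5
  set G : Set Env := {g | |YC g (t + t) r 0 - YC g (t + t) r ((2 * r + 2 : ℕ) : ℤ) +
        Uz g t (2 * r + 2) (-r)| ≤ K / 2} with hG
  have p1 : (law μ).real E1 ≤ 1 / 16 := hc
  have p2 : (law μ).real E2 ≤ 1 / 16 := by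
    rw [hE2, conf_shift]
    exact hc
  have hQ' : h * ((3 * r + 2 : ℤ) : ℝ) + Real.log 2 + eps μ t + 2 * s * Real.sqrt t ≤
      t * (Lam μ h - Lam μ 0) := by
    push_cast
    exact hQ
  have p3 : (law μ).real E3 ≤ 1 / 32 := by
    have := tilt_prob_up hμ hh 0 ht1 hQ'
    linarith
  have p4 : (law μ).real E4 ≤ 1 / 32 := by
    have := tilt_prob_dn hμ hh (ℓ : ℤ) ht1 hQ'
    linarith
  have p5 : (law μ).real E5 ≤ 1 / 16 := by
    have h1 := uh_markov hμ hh t hℓ hℓ2 (M := K / 4) (by linarith)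
    refine h1.trans ?_
    rw [div_le_iff₀ (by linarith)]
    have h2 : (ℓ : ℝ) = 2 * r + 2 := by rw [hℓdef]; push_cast; ring
    rw [h2]
    linarith
  -- off the bad events
  have hsub : (Set.univ : Set Env) ⊆ G ∪ (E1 ∪ (E2 ∪ (E3 ∪ (E4 ∪ E5)))) := by
    intro g _
    by_cases g1 : g ∈ E1
    · exact Or.inr (Or.inl g1)
    by_cases g2 : g ∈ E2
    · exact Or.inr (Or.inr (Or.inl g2))
    by_cases g3 : g ∈ E3
    · exact Or.inr (Or.inr (Or.inr (Or.inl g3)))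
    by_cases g4 : g ∈ E4
    · exact Or.inr (Or.inr (Or.inr (Or.inr (Or.inl g4))))
    by_cases g5 : g ∈ E5
    · exact Or.inr (Or.inr (Or.inr (Or.inr (Or.inr g5))))
    refine Or.inl ?_
    have g1' : (1 / 2 : ℝ) ≤ Av g 0 0 0 (t + t)
      (fun s => ind (∀ l ≤ t + t, |pos s l| ≤ r)) := not_not.1 g1
    have g2' : (1 / 2 : ℝ) ≤ Av g 0 0 (ℓ : ℤ) (t + t)
      (fun s => ind (∀ l ≤ t + t, |pos s l| ≤ r)) := not_not.1 g2
    have g3' : (1 / 2 : ℝ) ≤ Av g h 0 0 t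
      (fun s => ind ((3 * r + 2 : ℤ) ≤ pos s t)) := not_not.1 g3
    have g4' : (1 / 2 : ℝ) ≤ Av g (-h) 0 (ℓ : ℤ) t
      (fun s => ind (pos s t ≤ -(3 * r + 2 : ℤ))) := not_not.1 g4
    have g5' : uh g h t ℓ - uh g (-h) t ℓ ≤ K / 4 := not_lt.1 g5
    have u1 := uh_up g hℓ hℓ2 R1 R2 g3'
    have g4'' : (1 / 2 : ℝ) ≤ Av g (-h) 0 (ℓ : ℤ) t
      (fun s => ind ((ℓ : ℤ) + pos s t ≤ -(r : ℤ))) := by
      refine g4'.trans (le_of_eq (Av_congr fun w _ => ind_congr ?_))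
      rw [hℓdef]
      push_cast
      constructor <;> intro h <;> linarith
    have u2 := uh_dn g hℓ hℓ2 R3 R4 g4''
    have c1 := comp_dn g hr hpar ht g2'
    have c2 := comp_up g hr hpar ht g1'
    have l2 : Real.log 2 < 0.6931471808 := Real.log_two_lt_d9
    have l0 : 0 < Real.log 2 := Real.log_pos (by norm_num)
    show |YC g (t + t) r 0 - YC g (t + t) r ((2 * r + 2 : ℕ) : ℤ) +
        Uz g t (2 * r + 2) (-r)| ≤ K / 2
    rw [← hℓdef] at c1 c2 ⊢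
    rw [abs_le]
    constructor
    · linarith
    · linarith
  have htot : (1 : ℝ) ≤ (law μ).real G + ((law μ).real E1 + ((law μ).real E2 +
      ((law μ).real E3 + ((law μ).real E4 + (law μ).real E5)))) := by
    have h1 : (law μ).real (Set.univ : Set Env) = 1 := by simp
    rw [← h1]
    refine (measureReal_mono hsub).trans ?_
    refine (measureReal_union_le _ _).trans (add_le_add le_rfl ?_)
    refine (measureReal_union_le _ _).trans (add_le_add le_rfl ?_)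
    refine (measureReal_union_le _ _).trans (add_le_add le_rfl ?_)
    refine (measureReal_union_le _ _).trans (add_le_add le_rfl ?_)
    exact measureReal_union_le _ _
  have hG34 : 3 / 4 ≤ (law μ).real G := by linarith
  have hT := tub_anti hμ hpq hk.le (t := t) (r := r) hr (K := K) (by linarith)
  rw [← hG] at hT
  have ht0 : (0 : ℝ) < t := by exact_mod_cast ht1
  have hkt : 0 < kmin μ p q * t := mul_pos hk ht0
  have h5 : kmin μ p q * t * (3 / 4) ≤ kmin μ p q * t * (law μ).real G :=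
    mul_le_mul_of_nonneg_left hG34 hkt.le
  linarith

end

end Pool.Agent.W_7d29a1_h47
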