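import Pool.Agent.W_7d29a1_h47q.Win

/-!
# The choice of the parameters
-/

namespace Pool.Agent.W_7d29a1_h47

open MeasureTheory ProbabilityTheory Finset Filter

noncomputable section

variable {μ : Measure ℝ} [IsProbabilityMeasure μ]

/-- The parameters, as functions of the large integer `r`. -/
def pr (κ vb : ℝ) (r : ℕ) : Prm where
  w := r ^ 5330
  T₁ := r ^ 7754
  L := r ^ 5331
  ℓ := r ^ 15994
  I := r ^ 7754
  ρ := (1 + vb) / 2
  K := κ * r ^ 5332 / 16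

/-- Logarithms are small. Proof. `Real.isLittleO_log_id_atTop` composed with `Nat.cast` (or `log r ≤ √r`-type
bounds), and constants are small compared with `r`. -/
lemma ev_log (C : ℝ) {ε : ℝ} (hε : 0 < ε) :
    ∀ᶠ r : ℕ in atTop, C * (1 + Real.log r) ≤ ε * r := by
  have h1 : (fun x : ℝ => C * (1 + Real.log x)) =o[atTop] (id : ℝ → ℝ) := by
    apply Asymptotics.IsLittleO.const_mul_left
    exact (Asymptotics.isLittleO_const_id_atTop (1 : ℝ)).add Real.isLittleO_log_id_atTop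
  have h2 := (h1.comp_tendsto tendsto_natCast_atTop_atTop).bound hε
  filter_upwards [h2] with r hr
  simp only [Function.comp_apply, id_eq, Real.norm_eq_abs] at hr
  calc C * (1 + Real.log r) ≤ |C * (1 + Real.log r)| := le_abs_self _
    _ ≤ ε * |(r : ℝ)| := hr
    _ = ε * r := by rw [abs_of_nonneg (Nat.cast_nonneg r)]

/-- Exponentials win against powers. Proof. `Real.tendsto_pow_mul_exp_neg_atTop_nhds_zero N` composed with
`tendsto_natCast_atTop_atTop`, multiplied by `C`. -/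
lemma ev_exp (C : ℝ) (N : ℕ) {ε : ℝ} (hε : 0 < ε) :
    ∀ᶠ r : ℕ in atTop, C * ((r : ℝ) ^ N * Real.exp (-(r : ℝ))) ≤ ε := by
  have h1 := ((Real.tendsto_pow_mul_exp_neg_atTop_nhds_zero N).comp
    (tendsto_natCast_atTop_atTop (R := ℝ))).const_mul C
  rw [mul_zero] at h1
  filter_upwards [h1.eventually (gt_mem_nhds hε)] with r hr
  exact hr.le

/-- A constant is small. -/
lemma ev_const (C : ℝ) {ε : ℝ} (hε : 0 < ε) : ∀ᶠ r : ℕ in atTop, C ≤ ε * r := by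
  have h1 := (tendsto_natCast_atTop_atTop (R := ℝ)).const_mul_atTop hε
  exact h1.eventually (eventually_ge_atTop C)

/-- Proof. `max (x - K) 0 ≤ e^{x - K} = e^{-K} e^x`; integrate with `x = |t|`. -/
lemma trunc_le (hμ : EM μ) (K : ℝ) : ∫ t, max (|t| - K) 0 ∂μ ≤ Mom μ 1 * Real.exp (-K) := by
  unfold Mom
  rw [← integral_mul_const]
  refine integral_mono_of_nonneg (Filter.Eventually.of_forall fun t => le_max_right _ _)
    ((hμ 1).mul_const _) (Filter.Eventually.of_forall fun t => ?_)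
  simp only
  rw [← Real.exp_add]
  apply max_le
  · have h := Real.add_one_le_exp (1 * |t| + -K)
    linarith
  · exact (Real.exp_pos _).le

private lemma par_pow_le {r : ℕ} (hr : 1 ≤ r) {a b : ℕ} (hab : a ≤ b) :
    (r : ℝ) ^ a ≤ (r : ℝ) ^ b :=
  pow_le_pow_right₀ (by exact_mod_cast hr) hab

/-- Window length. Proof. `R = (I + 1)(L + ℓ + L) ≤ 2 I * 3 ℓ`, `7754 + 15994 = 23748`; for `r ≥ 1` powers
are monotone in the exponent. -/
lemma pr_R_le (κ vb : ℝ) {r : ℕ} (hr : 1 ≤ r) : ((pr κ vb r).R : ℝ) ≤ 6 * (r : ℝ) ^ 23748 := by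
  have e : ((pr κ vb r).R : ℝ) =
      ((r : ℝ) ^ 7754 + 1) * ((r : ℝ) ^ 5331 + (r : ℝ) ^ 15994 + (r : ℝ) ^ 5331) := by
    simp only [Prm.R, Prm.TB, pr, Nat.cast_mul, Nat.cast_add, Nat.cast_one, Nat.cast_pow]
  rw [e]
  have h1 : (1 : ℝ) ≤ (r : ℝ) ^ 7754 := one_le_pow₀ (by exact_mod_cast hr)
  have h2 : (r : ℝ) ^ 5331 ≤ (r : ℝ) ^ 15994 := par_pow_le hr (by norm_num)
  have h3 : (0 : ℝ) ≤ (r : ℝ) ^ 15994 := by positivity
  have h4 : (r : ℝ) ^ 23748 = (r : ℝ) ^ 7754 * (r : ℝ) ^ 15994 := by rw [← pow_add]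
  rw [h4]
  calc ((r : ℝ) ^ 7754 + 1) * ((r : ℝ) ^ 5331 + (r : ℝ) ^ 15994 + (r : ℝ) ^ 5331)
      ≤ (2 * (r : ℝ) ^ 7754) * (3 * (r : ℝ) ^ 15994) := by
        apply mul_le_mul (by linarith) (by linarith) (by positivity) (by positivity)
    _ = 6 * ((r : ℝ) ^ 7754 * (r : ℝ) ^ 15994) := by
        generalize (r : ℝ) ^ 7754 = a
        generalize (r : ℝ) ^ 15994 = b
        ring

lemma le_pr_R (κ vb : ℝ) {r : ℕ} (hr : 1 ≤ r) : (r : ℝ) ^ 23748 ≤ ((pr κ vb r).R : ℝ) := by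
  have e : ((pr κ vb r).R : ℝ) =
      ((r : ℝ) ^ 7754 + 1) * ((r : ℝ) ^ 5331 + (r : ℝ) ^ 15994 + (r : ℝ) ^ 5331) := by
    simp only [Prm.R, Prm.TB, pr, Nat.cast_mul, Nat.cast_add, Nat.cast_one, Nat.cast_pow]
  rw [e]
  have h2 : (0 : ℝ) ≤ (r : ℝ) ^ 5331 := by positivity
  have h4 : (r : ℝ) ^ 23748 = (r : ℝ) ^ 7754 * (r : ℝ) ^ 15994 := by rw [← pow_add]
  rw [h4]
  apply mul_le_mul (by linarith) (by linarith) (by positivity) (by positivity)

/-- **The parameters are admissible.** Proof. All inequalities between powers of `r ≥ 1` by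
`Nat.pow_le_pow_right` / `pow_le_pow_right₀`. `ρL`: `8 w ≤ (1 - vb)/2 * L` iff `r ≥ 16/(1 - vb)`. `K0`:
`κ r^{5332} / 16 ≥ κ r / 16 ≥ 1000`. `Kℓ`: `√(ℓ * (4 w)) = 2 r^{10662}` (`15994 + 5330 = 2 * 10662`), and
`κ r^{5332}/16 * 2 r^{10662} = κ r^{15994} / 8` (equality). `noise`: `log (2(6L+1)) ≤ 12 L + 2 ≤ 14 L`, so the
left side is at most `C L` with `C = 32 (4 (14 + log 2 + |log (Mom μ 1)|) + 2 log 2)`, and
`K = κ r L / 16 ≥ C L` for `r ≥ 16 C / κ`. -/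
lemma pr_ok {p q vb : ℝ} (hk : 0 < kmin μ p q) (hvb0 : 0 ≤ vb) (hvb : vb < 1) :
    ∀ᶠ r : ℕ in atTop, (pr (kmin μ p q) vb r).Ok μ p q := by
  set κ := kmin μ p q with hκ
  filter_upwards [eventually_ge_atTop 1, ev_const 16 (show 0 < 1 - vb by linarith),
    ev_const 16000 hk,
    ev_const (32 * (4 * (14 + Real.log 2 + |Real.log (Mom μ 1)|) + 2 * Real.log 2))
      (show 0 < κ / 16 by positivity)] with r hr h16 h1000 hC
  have hr1 : (1 : ℝ) ≤ r := by exact_mod_cast hr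
  have hL1 : (1 : ℝ) ≤ (r : ℝ) ^ 5331 := one_le_pow₀ hr1
  have hL : (r : ℝ) ^ 5331 = (r : ℝ) ^ 5330 * r := by rw [← pow_succ]
  have hK : (r : ℝ) ^ 5332 = (r : ℝ) ^ 5331 * r := by rw [← pow_succ]
  refine ⟨?_, ?_, ?_, ?_, ?_, ?_, ?_, ?_, ?_, ?_, ?_⟩
  · exact Nat.one_le_pow _ _ hr
  · exact Nat.pow_le_pow_right hr (by norm_num)
  · simp only [Prm.TB, pr]
    have : r ^ 7754 ≤ r ^ 15994 := Nat.pow_le_pow_right hr (by norm_num)
    omega
  · exact Nat.one_le_pow _ _ hr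
  · exact Nat.one_le_pow _ _ hr
  · exact Nat.one_le_pow _ _ hr
  · simp only [pr]
    linarith
  · simp only [pr, Nat.cast_pow]
    rw [hL]
    have h0 : (0 : ℝ) ≤ (r : ℝ) ^ 5330 := by positivity
    nlinarith [mul_le_mul_of_nonneg_left h16 h0]
  · simp only [pr]
    have h1 : (r : ℝ) ≤ (r : ℝ) ^ 5332 := by
      rw [hK]
      nlinarith
    nlinarith [mul_le_mul_of_nonneg_left h1 hk.le]
  · simp only [pr, Nat.cast_pow]
    have hs : Real.sqrt ((r : ℝ) ^ 15994 * (4 * (r : ℝ) ^ 5330)) = 2 * (r : ℝ) ^ 10662 := by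
      rw [Real.sqrt_eq_iff_mul_self_eq (by positivity) (by positivity)]
      have e1 : (r : ℝ) ^ 15994 * (r : ℝ) ^ 5330 = (r : ℝ) ^ 10662 * (r : ℝ) ^ 10662 := by
        rw [← pow_add, ← pow_add]
      linarith
    rw [hs]
    have e2 : (r : ℝ) ^ 15994 = (r : ℝ) ^ 5332 * (r : ℝ) ^ 10662 := by rw [← pow_add]
    rw [e2]
    apply le_of_eq
    ring
  · simp only [pr, Nat.cast_pow]
    rw [hK]
    have hlog : Real.log (2 * (6 * (r : ℝ) ^ 5331 + 1)) ≤ 14 * (r : ℝ) ^ 5331 := by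
      have := Real.log_le_sub_one_of_pos (show 0 < 2 * (6 * (r : ℝ) ^ 5331 + 1) by positivity)
      linarith
    have hm : Real.log (Mom μ 1) ≤ |Real.log (Mom μ 1)| := le_abs_self _
    generalize (r : ℝ) ^ 5331 = Lr at *
    have hL0 : 0 ≤ Lr := by linarith
    have h1 := mul_le_mul_of_nonneg_left hm hL0
    have h2 := mul_le_mul_of_nonneg_left hC hL0
    nlinarith

end

end Pool.Agent.W_7d29a1_h47
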