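import Pool.Agent.W_7d29a1_h47q.ParA

/-!
# The deterministic error is negligible
-/

namespace Pool.Agent.W_7d29a1_h47

open MeasureTheory ProbabilityTheory Finset Filter

noncomputable section

variable {μ : Measure ℝ} [IsProbabilityMeasure μ]

lemma ParB_KI (κ vb : ℝ) (r : ℕ) :
    (pr κ vb r).K * (pr κ vb r).I = κ * (r : ℝ) ^ 13086 / 16 := by
  have h1 : (pr κ vb r).K = κ * (r : ℝ) ^ 5332 / 16 := rfl
  have h2 : ((pr κ vb r).I : ℝ) = (r : ℝ) ^ 7754 := by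
    have h3 : (pr κ vb r).I = r ^ 7754 := rfl
    rw [h3, Nat.cast_pow]
  rw [h1, h2]
  have h4 : (r : ℝ) ^ 13086 = (r : ℝ) ^ 5332 * (r : ℝ) ^ 7754 := by rw [← pow_add]
  rw [h4]
  ring

lemma ParB_Cc : 0 ≤ Cc μ := by
  unfold Cc
  positivity

/-- Proof. With `R ≤ 6 r^{23748}` (`pr_R_le`): `(K I)² / R ≥ κ² r^{26172} / (256 * 6 r^{23748}) =
κ² r^{2424} / 1536` (`K I = κ r^{13086} / 16`), which is `≥ 2^18 (Cc + 1) r` for large `r`. -/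
lemma pr_dev {κ : ℝ} (hκ : 0 < κ) (vb : ℝ) :
    ∀ᶠ r : ℕ in atTop, (r : ℝ) ≤ ((pr κ vb r).K * (pr κ vb r).I) ^ 2 /
      (2 ^ 18 * (Cc μ + 1) * (pr κ vb r).R) := by
  have hc : 0 ≤ Cc μ := ParB_Cc
  filter_upwards [ev_const (2 ^ 18 * 6 * 256 * (Cc μ + 1)) (show (0 : ℝ) < κ ^ 2 by positivity),
    eventually_ge_atTop 1] with r h1 hr
  have hr1 : (1 : ℝ) ≤ r := by exact_mod_cast hr
  have hR := pr_R_le κ vb hr
  have hR' := le_pr_R κ vb hr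
  have hp0 : (1 : ℝ) ≤ (r : ℝ) ^ 23748 := one_le_pow₀ hr1
  have hR0 : 0 < ((pr κ vb r).R : ℝ) := by linarith
  rw [le_div_iff₀ (by positivity), ParB_KI]
  have e1 : (κ * (r : ℝ) ^ 13086 / 16) ^ 2 = κ ^ 2 * (r : ℝ) ^ 26172 / 256 := by
    rw [div_pow, mul_pow, ← pow_mul]
    norm_num
  have e2 : (r : ℝ) ^ 26172 = (r : ℝ) ^ 23748 * (r : ℝ) ^ 2424 := by rw [← pow_add]
  have e3 : (r : ℝ) ^ 2 ≤ (r : ℝ) ^ 2424 := pow_le_pow_right₀ hr1 (by norm_num)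
  rw [e1, e2]
  set X := (r : ℝ) ^ 23748 with hX
  have e4 : X * (r : ℝ) ^ 2 ≤ X * (r : ℝ) ^ 2424 := mul_le_mul_of_nonneg_left e3 (by linarith)
  have e5 : κ ^ 2 * (X * (r : ℝ) ^ 2) ≤ κ ^ 2 * (X * (r : ℝ) ^ 2424) :=
    mul_le_mul_of_nonneg_left e4 (by positivity)
  have e6 : (2 ^ 18 * 6 * 256 * (Cc μ + 1)) * (X * r) ≤ κ ^ 2 * r * (X * r) :=
    mul_le_mul_of_nonneg_right h1 (by positivity)
  have e7 : (r : ℝ) * (2 ^ 18 * (Cc μ + 1) * (pr κ vb r).R) ≤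
      (r : ℝ) * (2 ^ 18 * (Cc μ + 1) * (6 * X)) := by
    gcongr
  calc (r : ℝ) * (2 ^ 18 * (Cc μ + 1) * (pr κ vb r).R)
      ≤ (r : ℝ) * (2 ^ 18 * (Cc μ + 1) * (6 * X)) := e7
    _ = (2 ^ 18 * 6 * 256 * (Cc μ + 1)) * (X * r) / 256 := by ring
    _ ≤ κ ^ 2 * r * (X * r) / 256 := by linarith
    _ = κ ^ 2 * (X * (r : ℝ) ^ 2) / 256 := by ring
    _ ≤ κ ^ 2 * (X * (r : ℝ) ^ 2424) / 256 := by linarith

/-- Proof. `K I / 256 = κ r^{13086} / 4096 ≥ κ r² / 4096 ≥ r`; `I / 40 = r^{7754} / 40 ≥ r² / 40 ≥ r`. -/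
lemma pr_KI {κ : ℝ} (hκ : 0 < κ) (vb : ℝ) :
    ∀ᶠ r : ℕ in atTop, (r : ℝ) ≤ (pr κ vb r).K * (pr κ vb r).I / 256 ∧
      (r : ℝ) ≤ ((pr κ vb r).I : ℝ) / 40 := by
  filter_upwards [ev_const 4096 hκ, eventually_ge_atTop 40] with r h1 hr
  have hr1 : (40 : ℝ) ≤ r := by exact_mod_cast hr
  have hr2 : (1 : ℝ) ≤ r := by linarith
  constructor
  · rw [ParB_KI]
    have e3 : (r : ℝ) ^ 2 ≤ (r : ℝ) ^ 13086 := pow_le_pow_right₀ hr2 (by norm_num)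
    have e4 : κ * (r : ℝ) ^ 2 ≤ κ * (r : ℝ) ^ 13086 := mul_le_mul_of_nonneg_left e3 hκ.le
    have e5 : 4096 * (r : ℝ) ≤ κ * r * r := mul_le_mul_of_nonneg_right h1 (by linarith)
    linarith
  · have h3 : ((pr κ vb r).I : ℝ) = (r : ℝ) ^ 7754 := by
      have h4 : (pr κ vb r).I = r ^ 7754 := rfl
      rw [h4, Nat.cast_pow]
    rw [h3]
    have e3 : (r : ℝ) ^ 2 ≤ (r : ℝ) ^ 7754 := pow_le_pow_right₀ hr2 (by norm_num)
    have e5 : 40 * (r : ℝ) ≤ r * r := mul_le_mul_of_nonneg_right hr1 (by linarith)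
    linarith

/-- **`e0` is smaller than every power.** Proof. `pr_dev`, `pr_KI`:
`e0 ≤ 2 (e^{-r} + (4R+1)(2R+1) e^{-r}) + 2 e^{-r} ≤ C r^{47496} e^{-r}` (`pr_R_le`), and `ev_exp`. -/
lemma e0_small {κ : ℝ} (hκ : 0 < κ) (vb : ℝ) (N : ℕ) {ε : ℝ} (hε : 0 < ε) :
    ∀ᶠ r : ℕ in atTop, (r : ℝ) ^ N * e0 (pr κ vb r) μ ≤ ε := by
  filter_upwards [pr_dev (μ := μ) hκ vb, pr_KI hκ vb, ev_exp 654 (N + 47496) hε,
    eventually_ge_atTop 1] with r h1 h2 h3 hr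
  have hr1 : (1 : ℝ) ≤ r := by exact_mod_cast hr
  have hR := pr_R_le κ vb hr
  have hR' := le_pr_R κ vb hr
  have hp0 : (1 : ℝ) ≤ (r : ℝ) ^ 23748 := one_le_pow₀ hr1
  obtain ⟨h2a, h2b⟩ := h2
  have f1 : Real.exp (-((pr κ vb r).I : ℝ) / 40) ≤ Real.exp (-(r : ℝ)) :=
    Real.exp_le_exp.2 (by linarith)
  have f2 : Real.exp (-(((pr κ vb r).K * (pr κ vb r).I) ^ 2 /
      (2 ^ 18 * (Cc μ + 1) * (pr κ vb r).R))) ≤ Real.exp (-(r : ℝ)) :=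
    Real.exp_le_exp.2 (by linarith)
  have f3 : Real.exp (-((pr κ vb r).K * (pr κ vb r).I / 256)) ≤ Real.exp (-(r : ℝ)) :=
    Real.exp_le_exp.2 (by linarith)
  set X := (r : ℝ) ^ 23748 with hX
  set R : ℝ := ((pr κ vb r).R : ℝ) with hRdef
  set e := Real.exp (-(r : ℝ)) with he
  have he0 : 0 < e := Real.exp_pos _
  have g1 : (4 * R + 1) * (2 * R + 1) ≤ (25 * X) * (13 * X) :=
    mul_le_mul (by linarith) (by linarith) (by linarith) (by linarith)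
  have g2 : (4 * R + 1) * (2 * R + 1) * Real.exp (-(((pr κ vb r).K * (pr κ vb r).I) ^ 2 /
      (2 ^ 18 * (Cc μ + 1) * R))) ≤ (25 * X) * (13 * X) * e :=
    mul_le_mul g1 f2 (Real.exp_pos _).le (by positivity)
  have g3 : e0 (pr κ vb r) μ ≤ 654 * (X * X * e) := by
    unfold e0 e1
    have g4 : 1 * e ≤ (X * X) * e := mul_le_mul_of_nonneg_right (by nlinarith) he0.le
    linarith
  have g5 : X * X = (r : ℝ) ^ 47496 := by rw [hX, ← pow_add]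
  rw [g5] at g3
  calc (r : ℝ) ^ N * e0 (pr κ vb r) μ ≤ (r : ℝ) ^ N * (654 * ((r : ℝ) ^ 47496 * e)) :=
        mul_le_mul_of_nonneg_left g3 (by positivity)
    _ = 654 * ((r : ℝ) ^ (N + 47496) * e) := by rw [pow_add]; ring
    _ ≤ ε := h3

end

end Pool.Agent.W_7d29a1_h47
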