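import Pool.Agent.W_7d29a1_h47q.ParA
import Pool.Agent.W_7d29a1_h47q.AvgE

/-!
# The average of the window functional is small
-/

namespace Pool.Agent.W_7d29a1_h47

open MeasureTheory ProbabilityTheory Finset Filter

noncomputable section

variable {μ : Measure ℝ} [IsProbabilityMeasure μ]

lemma ParC_log {x : ℝ} (hx : 1 ≤ x) (N : ℕ) (hN : 1 ≤ N) :
    1 + Real.log (x ^ N) ≤ N * (1 + Real.log x) := by
  rw [Real.log_pow]
  have h1 : (1 : ℝ) ≤ N := by exact_mod_cast hN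
  linarith

lemma ParC_lg {x : ℝ} (hx : 1 ≤ x) : 1 ≤ 1 + Real.log x := by
  have := Real.log_nonneg hx
  linarith

/-- `D x^a ≤ 1`. -/
lemma ParC_D {x D : ℝ} (hx : 1 ≤ x) (hD0 : 0 ≤ D) (hD : D ≤ (x ^ 24000)⁻¹) {a : ℕ}
    (ha : a ≤ 24000) : D * x ^ a ≤ 1 := by
  have h1 : x ^ a ≤ x ^ 24000 := pow_le_pow_right₀ hx ha
  have h2 : 0 < x ^ 24000 := by positivity
  calc D * x ^ a ≤ D * x ^ 24000 := mul_le_mul_of_nonneg_left h1 hD0
    _ ≤ (x ^ 24000)⁻¹ * x ^ 24000 := mul_le_mul_of_nonneg_right hD h2.le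
    _ = 1 := inv_mul_cancel₀ h2.ne'

/-- The common estimate. -/
lemma ParC_core {s A E lg c num : ℝ} (hs : 0 < s) (hA : 0 < A) (hE : 0 < E)
    (h : num ≤ c * (s * lg)) : num / A⁻¹ / (s * A * E) ≤ c * (lg / E) := by
  rw [div_inv_eq_mul, div_le_iff₀ (by positivity)]
  calc num * A ≤ c * (s * lg) * A := mul_le_mul_of_nonneg_right h hA.le
    _ = c * (lg / E) * (s * A * E) := by
      field_simp

lemma ParC_pow_le {x : ℝ} (hx : 1 ≤ x) {lg : ℝ} (hl : 0 ≤ lg) {a b : ℕ} (h : a ≤ b) :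
    lg / x ^ b ≤ lg / x ^ a :=
  div_le_div_of_nonneg_left hl (by positivity) (pow_le_pow_right₀ hx h)

/-- Proof. `√T₁ = r^{3877}`, `log T₁ = 7754 log r`, `D T₁ ≤ r^{7754 - 24000}`; division by
`δ = r^{-240}` and `2 w = 2 r^{5330}`: `3877 + 240 - 5330 = -1213`. -/
lemma piQ_small {κ vb : ℝ} : ∃ C : ℝ, 0 < C ∧ ∀ᶠ r : ℕ in atTop, ∀ D : ℝ, 0 ≤ D →
    D ≤ ((r : ℝ) ^ 24000)⁻¹ →
    piQ (pr κ vb r) μ ((r : ℝ) ^ 240)⁻¹ D ≤ C * ((1 + Real.log r) / (r : ℝ) ^ 1213) := by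
  have hC : 0 ≤ Cc μ := Drift_Cc_nonneg
  refine ⟨(10 + 4 * Cc μ) * 7754 + 1, by positivity, ?_⟩
  filter_upwards [eventually_ge_atTop 1] with r hr D hD0 hD
  have hx : (1 : ℝ) ≤ r := by exact_mod_cast hr
  unfold piQ
  simp only [pr, Nat.cast_pow]
  have hlog := ParC_log hx 7754 (by norm_num)
  have hlg := ParC_lg hx
  have hDT := ParC_D hx hD0 hD (a := 7754) (by norm_num)
  have hsq : Real.sqrt ((r : ℝ) ^ 7754) = (r : ℝ) ^ 3877 := by
    rw [Real.sqrt_eq_iff_mul_self_eq (by positivity) (by positivity), ← pow_add]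
  have hs1 : (1 : ℝ) ≤ (r : ℝ) ^ 3877 := one_le_pow₀ hx
  have hw : 2 * (r : ℝ) ^ 5330 = (2 * (r : ℝ) ^ 3877) * (r : ℝ) ^ 240 * (r : ℝ) ^ 1213 := by
    rw [mul_assoc, mul_assoc, ← pow_add, ← pow_add]
  rw [hsq, hw]
  set lg := 1 + Real.log (r : ℝ) with hlgd
  set s := (r : ℝ) ^ 3877 with hs
  have h1 : (10 + 4 * Cc μ) * (s * (1 + Real.log ((r : ℝ) ^ 7754))) + D * (r : ℝ) ^ 7754 ≤
      ((10 + 4 * Cc μ) * 7754 + 1) * (s * lg) := by
    have h2 : s * (1 + Real.log ((r : ℝ) ^ 7754)) ≤ s * (7754 * lg) := by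
      refine mul_le_mul_of_nonneg_left ?_ (by linarith)
      refine hlog.trans (le_of_eq ?_)
      norm_num
    have h3 : (10 + 4 * Cc μ) * (s * (1 + Real.log ((r : ℝ) ^ 7754))) ≤
        (10 + 4 * Cc μ) * (s * (7754 * lg)) := mul_le_mul_of_nonneg_left h2 (by positivity)
    have h4 : 1 ≤ s * lg := by nlinarith
    nlinarith
  have h5 : (10 + 4 * Cc μ) * (s * (1 + Real.log ((r : ℝ) ^ 7754))) + D * (r : ℝ) ^ 7754 ≤
      ((10 + 4 * Cc μ) * 7754 + 1) * ((2 * s) * lg) := by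
    refine h1.trans (mul_le_mul_of_nonneg_left ?_ (by positivity))
    have : 0 ≤ s * lg := by positivity
    linarith
  exact ParC_core (by positivity) (by positivity) (by positivity) h5

/-- Proof. `√w √T₁ / T₁ = r^{2665 - 3877} = r^{-1212}`; `r * piQ ≤ C (1 + log r) / r^{1212}`;
`CN / r^{1212}` with a constant `CN`. -/
lemma psP_small {p q vb : ℝ} (hk : 0 < kmin μ p q) : ∃ C : ℝ, 0 < C ∧ ∀ᶠ r : ℕ in atTop,
    ∀ D : ℝ, 0 ≤ D → D ≤ ((r : ℝ) ^ 24000)⁻¹ →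
    psP (pr (kmin μ p q) vb r) μ p q ((r : ℝ) ^ 240)⁻¹ D r 1212 ≤
      C * ((1 + Real.log r) / (r : ℝ) ^ 1212) := by
  have hC : 0 ≤ Cc μ := Drift_Cc_nonneg
  have hM : 0 ≤ Mom μ 1 := integral_nonneg fun t => (Real.exp_pos _).le
  obtain ⟨C, hC0, hev⟩ := piQ_small (μ := μ) (κ := kmin μ p q) (vb := vb)
  obtain ⟨κ, hκ⟩ : ∃ κ, κ = kmin μ p q := ⟨_, rfl⟩
  obtain ⟨cn, hcn⟩ : ∃ cn, cn = CN μ (fun u => Real.exp (((1212 : ℕ) + 1) * |u|)) := ⟨_, rfl⟩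
  rw [← hκ] at hk hev ⊢
  refine ⟨κ⁻¹ * (CU μ * 7754) + κ⁻¹ * (Mom μ 1 * (C + |cn|)) + C, ?_, ?_⟩
  · have : 0 ≤ CU μ := by
      unfold CU
      positivity
    positivity
  filter_upwards [eventually_ge_atTop 1, hev] with r hr hev' D hD0 hD
  have hx : (1 : ℝ) ≤ r := by exact_mod_cast hr
  have hpi := hev' D hD0 hD
  unfold psP
  rw [← hκ, ← hcn]
  set Q := piQ (pr κ vb r) μ ((r : ℝ) ^ 240)⁻¹ D with hQ
  simp only [pr, Nat.cast_pow]
  have hlog := ParC_log hx 7754 (by norm_num)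
  have hlg := ParC_lg hx
  set lg := 1 + Real.log (r : ℝ) with hlgd
  have hsq : Real.sqrt ((r : ℝ) ^ 7754) = (r : ℝ) ^ 3877 := by
    rw [Real.sqrt_eq_iff_mul_self_eq (by positivity) (by positivity), ← pow_add]
  have hsq2 : Real.sqrt ((r : ℝ) ^ 5330) = (r : ℝ) ^ 2665 := by
    rw [Real.sqrt_eq_iff_mul_self_eq (by positivity) (by positivity), ← pow_add]
  rw [hsq, hsq2]
  have e1 : (r : ℝ) ^ 7754 = (r : ℝ) ^ 2665 * (r : ℝ) ^ 3877 * (r : ℝ) ^ 1212 := by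
    rw [← pow_add, ← pow_add]
  have hE : 0 < (r : ℝ) ^ 1212 := by positivity
  have h1 : (κ * (r : ℝ) ^ 7754)⁻¹ * (CU μ * ((r : ℝ) ^ 2665 * (r : ℝ) ^ 3877 *
      (1 + Real.log ((r : ℝ) ^ 7754)))) ≤ κ⁻¹ * (CU μ * 7754) * (lg / (r : ℝ) ^ 1212) := by
    have hCU : 0 ≤ CU μ := by
      unfold CU
      positivity
    have h2 : 1 + Real.log ((r : ℝ) ^ 7754) ≤ 7754 * lg := by
      refine hlog.trans (le_of_eq ?_)
      norm_num
    calc (κ * (r : ℝ) ^ 7754)⁻¹ * (CU μ * ((r : ℝ) ^ 2665 * (r : ℝ) ^ 3877 *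
        (1 + Real.log ((r : ℝ) ^ 7754)))) ≤ (κ * (r : ℝ) ^ 7754)⁻¹ * (CU μ * ((r : ℝ) ^ 2665 *
          (r : ℝ) ^ 3877 * (7754 * lg))) := by gcongr
      _ = κ⁻¹ * (CU μ * 7754) * (lg / (r : ℝ) ^ 1212) := by
        rw [e1]
        have ha : (r : ℝ) ^ 2665 ≠ 0 := by positivity
        have hb : (r : ℝ) ^ 3877 ≠ 0 := by positivity
        generalize (r : ℝ) ^ 2665 = a at *
        generalize (r : ℝ) ^ 3877 = b at *
        generalize (r : ℝ) ^ 1212 = E at *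
        field_simp
  have e2 : (r : ℝ) ^ 1213 = (r : ℝ) ^ 1212 * r := by rw [← pow_succ]
  have hr0 : (0 : ℝ) < r := by linarith
  have h3 : (r : ℝ) * Q ≤ C * (lg / (r : ℝ) ^ 1212) := by
    calc (r : ℝ) * Q ≤ r * (C * (lg / (r : ℝ) ^ 1213)) := mul_le_mul_of_nonneg_left hpi hr0.le
      _ = _ := by
        rw [e2]
        generalize (r : ℝ) ^ 1212 = E at *
        field_simp
  have h4 : cn / (r : ℝ) ^ 1212 ≤ |cn| * (lg / (r : ℝ) ^ 1212) := by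
    rw [← mul_div_assoc]
    refine div_le_div_of_nonneg_right ?_ hE.le
    have := le_abs_self cn
    have := abs_nonneg cn
    nlinarith
  have h5 : Q ≤ C * (lg / (r : ℝ) ^ 1212) :=
    hpi.trans (mul_le_mul_of_nonneg_left (ParC_pow_le hx (by linarith) (by norm_num)) hC0.le)
  have h6 : κ⁻¹ * (Mom μ 1 * ((r : ℝ) * Q + cn / (r : ℝ) ^ 1212)) ≤
      κ⁻¹ * (Mom μ 1 * (C * (lg / (r : ℝ) ^ 1212) + |cn| * (lg / (r : ℝ) ^ 1212))) := by
    gcongr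
  refine (add_le_add (add_le_add h1 h6) h5).trans (le_of_eq ?_)
  ring

/-- Proof. `√L ≤ r^{2666}`, `D L ≤ 1`; `ρ - vb = (1 - vb)/2 > 0`; `2666 + 240 - 5331 = -2425 ≤ -1212`. -/
lemma psS_small {κ vb : ℝ} (hvb : vb < 1) : ∃ C : ℝ, 0 < C ∧ ∀ᶠ r : ℕ in atTop,
    ∀ D : ℝ, 0 ≤ D → D ≤ ((r : ℝ) ^ 24000)⁻¹ →
    psS (pr κ vb r) μ ((r : ℝ) ^ 240)⁻¹ D vb ≤ C * ((1 + Real.log r) / (r : ℝ) ^ 1212) := by
  have hC : 0 ≤ Cc μ := Drift_Cc_nonneg
  have hv : 0 < (1 - vb) / 2 := by linarith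
  refine ⟨((10 + 4 * Cc μ) * 5331 + 1) / ((1 - vb) / 2), by positivity, ?_⟩
  filter_upwards [eventually_ge_atTop 1] with r hr D hD0 hD
  have hx : (1 : ℝ) ≤ r := by exact_mod_cast hr
  unfold psS
  simp only [pr, Nat.cast_pow]
  have hlog := ParC_log hx 5331 (by norm_num)
  have hlg := ParC_lg hx
  have hDT := ParC_D hx hD0 hD (a := 5331) (by norm_num)
  have hsq : Real.sqrt ((r : ℝ) ^ 5331) ≤ (r : ℝ) ^ 2666 := by
    rw [Real.sqrt_le_left (by positivity), ← pow_mul]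
    exact pow_le_pow_right₀ hx (by norm_num)
  have hs1 : (1 : ℝ) ≤ (r : ℝ) ^ 2666 := one_le_pow₀ hx
  have hw : ((1 + vb) / 2 - vb) * (r : ℝ) ^ 5331 =
      (((1 - vb) / 2) * (r : ℝ) ^ 2666) * (r : ℝ) ^ 240 * (r : ℝ) ^ 2425 := by
    rw [mul_assoc, mul_assoc, ← pow_add, ← pow_add]
    ring
  rw [hw]
  set lg := 1 + Real.log (r : ℝ) with hlgd
  set s := (r : ℝ) ^ 2666 with hs
  have h1 : (10 + 4 * Cc μ) * (Real.sqrt ((r : ℝ) ^ 5331) * (1 + Real.log ((r : ℝ) ^ 5331))) +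
      D * (r : ℝ) ^ 5331 ≤ ((10 + 4 * Cc μ) * 5331 + 1) * (s * lg) := by
    have h2 : Real.sqrt ((r : ℝ) ^ 5331) * (1 + Real.log ((r : ℝ) ^ 5331)) ≤ s * (5331 * lg) := by
      refine mul_le_mul hsq ?_ ?_ (by linarith)
      · refine hlog.trans (le_of_eq ?_)
        norm_num
      · have := Real.log_nonneg (show (1 : ℝ) ≤ (r : ℝ) ^ 5331 from one_le_pow₀ hx)
        linarith
    have h3 : (10 + 4 * Cc μ) * (Real.sqrt ((r : ℝ) ^ 5331) *
        (1 + Real.log ((r : ℝ) ^ 5331))) ≤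
        (10 + 4 * Cc μ) * (s * (5331 * lg)) := mul_le_mul_of_nonneg_left h2 (by positivity)
    have h4 : 1 ≤ s * lg := by nlinarith
    nlinarith
  have h5 : (10 + 4 * Cc μ) * (Real.sqrt ((r : ℝ) ^ 5331) * (1 + Real.log ((r : ℝ) ^ 5331))) +
      D * (r : ℝ) ^ 5331 ≤
      ((10 + 4 * Cc μ) * 5331 + 1) / ((1 - vb) / 2) * ((((1 - vb) / 2) * s) * lg) := by
    refine h1.trans (le_of_eq ?_)
    generalize (1 - vb) / 2 = c at hv
    field_simp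
  refine (ParC_core (by positivity) (by positivity) (by positivity) h5).trans ?_
  exact mul_le_mul_of_nonneg_left (ParC_pow_le hx (by linarith) (by norm_num)) (by positivity)

/-- **The total bound.** Proof. `√R ≤ 3 r^{11874}`, `log R ≤ log 6 + 23748 log r` (`pr_R_le`),
`K I / 256 = κ r^{13086} / 4096`, `11874 - 13086 = -1212`; `psP_small`, `psS_small`. -/
theorem psT_small {p q vb : ℝ} (hk : 0 < kmin μ p q) (hvb : vb < 1) :
    ∃ C : ℝ, 0 < C ∧ ∀ᶠ r : ℕ in atTop, ∀ D : ℝ, 0 ≤ D → D ≤ ((r : ℝ) ^ 24000)⁻¹ →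
      psT (pr (kmin μ p q) vb r) μ p q ((r : ℝ) ^ 240)⁻¹ D vb r 1212 ≤
        C * ((1 + Real.log r) / (r : ℝ) ^ 1212) := by
  have hC : 0 ≤ Cc μ := Drift_Cc_nonneg
  have hCU : 0 ≤ CU μ := by
    unfold CU
    positivity
  obtain ⟨C₁, hC₁, hev₁⟩ := psP_small (vb := vb) hk
  obtain ⟨C₂, hC₂, hev₂⟩ := psS_small (μ := μ) (κ := kmin μ p q) hvb
  refine ⟨2 * (2 * CU μ * (3 * 23748) * (4096 / kmin μ p q)) + 64 * (4 * C₁ + 2 * C₂),
    by positivity, ?_⟩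
  filter_upwards [eventually_ge_atTop 1, hev₁, hev₂] with r hr h₁ h₂ D hD0 hD
  have hx : (1 : ℝ) ≤ r := by exact_mod_cast hr
  have hP := h₁ D hD0 hD
  have hS := h₂ D hD0 hD
  unfold psT
  set κ := kmin μ p q with hκ
  set PP := psP (pr κ vb r) μ p q ((r : ℝ) ^ 240)⁻¹ D r 1212 with hPP
  set SS := psS (pr κ vb r) μ ((r : ℝ) ^ 240)⁻¹ D vb with hSS
  have hR1 := pr_R_le κ vb hr
  have hR2 := le_pr_R κ vb hr
  set RR : ℝ := ((pr κ vb r).R : ℝ) with hRR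
  have hlg := ParC_lg hx
  set lg := 1 + Real.log (r : ℝ) with hlgd
  have hRpos : 0 < RR := lt_of_lt_of_le (by positivity) hR2
  have hsq : Real.sqrt RR ≤ 3 * (r : ℝ) ^ 11874 := by
    rw [Real.sqrt_le_left (by positivity), mul_pow, ← pow_mul]
    refine hR1.trans ?_
    have : 0 ≤ (r : ℝ) ^ 23748 := by positivity
    norm_num
    linarith
  have hlog : 1 + Real.log RR ≤ 23748 * lg := by
    have h1 := Real.log_le_log hRpos hR1
    rw [Real.log_mul (by norm_num) (by positivity), Real.log_pow] at h1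
    have h2 : Real.log 6 ≤ 6 - 1 := Real.log_le_sub_one_of_pos (by norm_num)
    have h3 := Real.log_nonneg hx
    rw [hlgd]
    push_cast at h1
    linarith
  have hlog0 : 0 ≤ 1 + Real.log RR := by
    have h1 : (1 : ℝ) ≤ RR := le_trans (one_le_pow₀ hx) hR2
    have := Real.log_nonneg h1
    linarith
  have hKI : (pr κ vb r).K * ((pr κ vb r).I : ℝ) / 256 =
      κ / 4096 * ((r : ℝ) ^ 11874 * (r : ℝ) ^ 1212) := by
    simp only [pr, Nat.cast_pow]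
    have : (r : ℝ) ^ 11874 * (r : ℝ) ^ 1212 = (r : ℝ) ^ 5332 * (r : ℝ) ^ 7754 := by
      rw [← pow_add, ← pow_add]
    rw [this]
    generalize (r : ℝ) ^ 5332 = a
    generalize (r : ℝ) ^ 7754 = b
    ring
  have h3 : 2 * (2 * CU μ * (Real.sqrt RR * (1 + Real.log RR)) /
      ((pr κ vb r).K * ((pr κ vb r).I : ℝ) / 256)) ≤
      2 * (2 * CU μ * (3 * 23748) * (4096 / κ)) * (lg / (r : ℝ) ^ 1212) := by
    rw [hKI]
    calc 2 * (2 * CU μ * (Real.sqrt RR * (1 + Real.log RR)) /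
        (κ / 4096 * ((r : ℝ) ^ 11874 * (r : ℝ) ^ 1212))) ≤
        2 * (2 * CU μ * ((3 * (r : ℝ) ^ 11874) * (23748 * lg)) /
        (κ / 4096 * ((r : ℝ) ^ 11874 * (r : ℝ) ^ 1212))) := by gcongr
      _ = _ := by
        have ha : (r : ℝ) ^ 11874 ≠ 0 := by positivity
        have hb : (r : ℝ) ^ 1212 ≠ 0 := by positivity
        generalize (r : ℝ) ^ 11874 = a at *
        generalize (r : ℝ) ^ 1212 = b at *
        field_simp
  have h4 : 64 * (4 * PP + 2 * SS) ≤ 64 * (4 * C₁ + 2 * C₂) * (lg / (r : ℝ) ^ 1212) := by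
    linarith
  refine (add_le_add h3 h4).trans (le_of_eq ?_)
  ring

end

end Pool.Agent.W_7d29a1_h47
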