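import Pool.Agent.W_7d29a1_h47q.AvgA
import Pool.Agent.W_7d29a1_h47.UiD

/-!
# Quantitative uniform integrability of the increments
-/

namespace Pool.Agent.W_7d29a1_h47

open MeasureTheory ProbabilityTheory Finset

noncomputable section

variable {μ : Measure ℝ} [IsProbabilityMeasure μ]

/-- Proof. As `logKp_le` (`UiA.lean`), with `hA.up`, `hA.dn`: `∫ log Kp ≤ B (Λ + D) ∓ δ (x - v B)`. -/
lemma logKp_leQ (hμ : EM μ) {h δ v D : ℝ} (hA : NA μ h δ v D) {B : ℕ} {x : ℤ} (hx : Reach 0 B x) :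
    ∫ g, Real.log (Kp g h 0 0 B x) ∂(law μ) + δ * |(x : ℝ) - v * B| ≤ B * (Lam μ h + D) := by
  have hK := (EMom_logKp hμ h 0 0 B x).integrable
  have key : ∀ c : ℝ, ∫ g, Real.log (Kp g h 0 0 B x) ∂(law μ) ≤
      -(c * x) + B * Lam μ (h + c) := by
    intro c
    have hZi := (EMom_logZ hμ (h + c) 0 0 B).integrable
    have h1 : ∀ g : Env, Real.log (Kp g h 0 0 B x) ≤ -(c * x) + Real.log (Z g (h + c) 0 0 B) := by
      intro g
      have h2 := Real.log_le_log (UiA_Kp_pos g h hx) (Kp_le g h (h + c) 0 0 B x)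
      rw [Real.log_mul (Real.exp_pos _).ne' (Z_pos _ _ _ _ _).ne', Real.log_exp] at h2
      refine h2.trans (le_of_eq ?_)
      push_cast
      ring
    have h2 := integral_mono hK ((integrable_const (-(c * (x : ℝ)))).add hZi) h1
    refine h2.trans ?_
    show ∫ g, (-(c * (x : ℝ)) + Real.log (Z g (h + c) 0 0 B)) ∂(law μ) ≤ _
    rw [integral_add (integrable_const _) hZi]
    have h4 : ∫ g, Real.log (Z g (h + c) 0 0 B) ∂(law μ) = a μ (h + c) B := rfl
    rw [h4]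
    simp only [integral_const, probReal_univ, one_smul]
    have := a_le_Lam hμ (h + c) B
    linarith
  have k1 := key δ
  have k2 := key (-δ)
  rw [hA.up] at k1
  rw [← sub_eq_add_neg, hA.dn] at k2
  have e1 : (B : ℝ) * (Lam μ h + δ * v + D) = B * (Lam μ h + D) + δ * (v * B) := by ring
  have e2 : (B : ℝ) * (Lam μ h - δ * v + D) = B * (Lam μ h + D) - δ * (v * B) := by ring
  rw [e1] at k1
  rw [e2] at k2
  rcases abs_cases ((x : ℝ) - v * B) with ⟨h1, _⟩ | ⟨h1, _⟩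
  · rw [h1, mul_sub]
    linarith
  · rw [h1, mul_neg, mul_sub]
    linarith

/-- **Good end point.** Proof. As `exists_xB` (`UiA.lean`): `exists_good_end`, `rate`:
`B Λ - ∫ log Kp ≤ 2 eps μ B`; `logKp_leQ`; `max (B Λ - log Kp) 0 ≤ 2 eps μ B + |log Kp - ∫ log Kp|`
(`eps_nonneg`), `dev_Zp`. -/
theorem exists_xBQ (hμ : EM μ) {h δ v D : ℝ} (hA : NA μ h δ v D) {B : ℕ} (hB : 1 ≤ B) :
    ∃ x : ℤ, Reach 0 B x ∧ δ * |(x : ℝ) - v * B| ≤ 2 * eps μ B + B * D ∧
      ∫ g, max (B * Lam μ h - Real.log (Kp g h 0 0 B x)) 0 ∂(law μ) ≤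
        2 * eps μ B + (1 + Cc μ) * Real.sqrt B := by
  obtain ⟨x, hx, h1⟩ := exists_good_end (μ := μ) hμ h hB
  refine ⟨x, hx, ?_, ?_⟩
  · have h2 := logKp_leQ hμ hA hx
    have h3 := rate hμ h B
    rw [mul_add] at h2
    linarith
  · have h3 := rate hμ h B
    have he : 0 ≤ eps μ B := eps_nonneg B
    have hK := (EMom_logKp hμ h 0 0 B x).integrable
    obtain ⟨m, hm⟩ : ∃ m : ℝ, m = ∫ g, Real.log (Kp g h 0 0 B x) ∂(law μ) := ⟨_, rfl⟩
    rw [← hm] at h1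
    have h4 : ∀ g : Env, max (B * Lam μ h - Real.log (Kp g h 0 0 B x)) 0 ≤
        2 * eps μ B + |Real.log (Kp g h 0 0 B x) - m| := by
      intro g
      have h5 := neg_abs_le (Real.log (Kp g h 0 0 B x) - m)
      have h6 := abs_nonneg (Real.log (Kp g h 0 0 B x) - m)
      exact max_le (by linarith) (by linarith)
    have hab : Integrable (fun g : Env => |Real.log (Kp g h 0 0 B x) - m|) (law μ) :=
      (hK.sub (integrable_const m)).abs
    have hmx : Integrable (fun g : Env => max (B * Lam μ h - Real.log (Kp g h 0 0 B x)) 0)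
        (law μ) := ((integrable_const (B * Lam μ h)).sub hK).pos_part
    have h5 := integral_mono hmx ((integrable_const (2 * eps μ B)).add hab) h4
    refine h5.trans ?_
    show ∫ g, (2 * eps μ B + |Real.log (Kp g h 0 0 B x) - m|) ∂(law μ) ≤ _
    rw [integral_add (integrable_const _) hab]
    simp only [integral_const, probReal_univ, one_smul]
    have h6 : ∫ g, |Real.log (Kp g h 0 0 B x) - m| ∂(law μ) ≤ (1 + Cc μ) * Real.sqrt B := by
      refine le_trans (le_of_eq ?_) (dev_Zp hμ hx 0)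
      refine integral_congr_ae (Filter.Eventually.of_forall fun g => ?_)
      simp only
      rw [hm, UiA_int hμ h hx, UiA_logKp g h hx]
      congr 1
      ring
    linarith

/-- Proof. As `exists_P` (`UiA.lean`): `x = 2P - B`, `P ≤ B`, `pos_upto`;
`P = (B + x)/2 ≥ (B + v B - (1+v)/2 * B)/2 = (1+v)/4 * B` by `hs`. -/
theorem exists_PQ (hμ : EM μ) {h δ v D : ℝ} (hA : NA μ h δ v D) {B : ℕ} (hB : 1 ≤ B)
    (hs : 2 * eps μ B + B * D ≤ δ * ((1 + v) / 2 * B)) :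
    ∃ P : ℕ, P ≤ B ∧ (1 + v) / 4 * B ≤ P ∧
      ∫ g, max (B * Lam μ h - Real.log (Kp g h 0 0 B (pos (upto P) B))) 0 ∂(law μ) ≤
        2 * eps μ B + (1 + Cc μ) * Real.sqrt B := by
  have hδ := hA.pos
  obtain ⟨x, hx, h1, h2⟩ := exists_xBQ hμ hA hB
  obtain ⟨s, hs', hsx⟩ := hx
  rw [zero_add] at hsx
  have hab := pos_abs_le s B
  have hpar := pos_parity s B
  rw [hsx] at hab hpar
  rw [abs_le] at hab
  obtain ⟨P, hP⟩ : ∃ P : ℕ, 2 * (P : ℤ) = B + x := by
    refine ⟨((B + x) / 2).toNat, ?_⟩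
    have h3 : 0 ≤ ((B : ℤ) + x) / 2 := by omega
    rw [Int.toNat_of_nonneg h3]
    omega
  have hPB : P ≤ B := by omega
  refine ⟨P, hPB, ?_, ?_⟩
  · have h3 : (2 : ℝ) * P = B + x := by exact_mod_cast hP
    have h4 : δ * (v * B - x) ≤ 2 * eps μ B + B * D := by
      refine le_trans (mul_le_mul_of_nonneg_left ?_ hδ.le) h1
      rw [abs_sub_comm]
      exact le_abs_self _
    have h7 := le_of_mul_le_mul_left (h4.trans hs) hδ
    linarith
  · rw [pos_upto hPB]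
    have h3 : 2 * (P : ℤ) - B = x := by omega
    rw [h3]
    exact h2

/-- The tail is nonincreasing in the threshold. Proof. Pointwise
`(if Y' ≤ X then X else 0) ≤ (if Y ≤ X then X else 0)` for `X ≥ 0` (`Xf_nonneg`); `integrable_tail`. -/
lemma tail_anti (hμ : EM μ) (h : ℝ) {n k : ℕ} (hk : k ≤ n) {Y Y' : ℝ} (hY : Y ≤ Y') :
    tail μ h n k Y' ≤ tail μ h n k Y := by
  unfold tail
  refine integral_mono (integrable_tail hμ h n k Y') (integrable_tail hμ h n k Y) fun w => ?_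
  simp only
  have h0 := Xf_nonneg w.1 (row 0 w.2) h hk true
  by_cases h1 : Y' ≤ Xf h n k true w.1 (row 0 w.2)
  · rw [if_pos h1, if_pos (hY.trans h1)]
  · rw [if_neg h1]
    split_ifs
    · exact h0
    · exact le_rfl

/-- The bound for the average tail. -/
def tlQ (μ : Measure ℝ) (v : ℝ) (B : ℕ) (K' : ℝ) : ℝ :=
  8 / (1 + v) * ((2 * eps μ B + (1 + Cc μ) * Real.sqrt B) / B + ∫ t, max (|t| - K') 0 ∂μ)

/-- **Quantitative uniform integrability.** Proof. As `ui` (`UiD.lean`), with `P` from `exists_PQ` and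
`Y₀ = 2 (B (Λ + |h| + K'))` (`tail_anti`): put `c = (1+v)/4`, `E = 2 eps μ B + (1+Cc) √B`,
`J = ∫ max (|t| - K') 0`. Sum `tail_sum_le` over `n ∈ [N, 2N)`, `k < N`: at most
`2 N B eps μ (N+B) + 2 N² (E + B J)` (`sum_incr_le`); `bulk_le`, `P ≥ c B`:
`∑_{bulk} ≤ (2/c) N eps μ (N+B) + (2/c) N² (E/B + J)`, and `2/c = 8/(1+v)`. `boundary_le` and
`tendsto_eps_div`: the remaining terms are at most `η N²` for large `N`. -/
theorem uiQ (hμ : EM μ) {h δ v D : ℝ} (hA : NA μ h δ v D) (hv : -1 < v) {B : ℕ} (hB : 1 ≤ B)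
    (hs : 2 * eps μ B + B * D ≤ δ * ((1 + v) / 2 * B)) {K' Y : ℝ}
    (hY : 2 * (B * (Lam μ h + |h| + K')) ≤ Y) {η : ℝ} (hη : 0 < η) :
    ∃ N₀ : ℕ, ∀ N : ℕ, N₀ ≤ N →
      ∑ n ∈ Ico N (2 * N), ∑ k ∈ range N, tail μ h n k Y ≤ (tlQ μ v B K' + η) * N ^ 2 := by
  obtain ⟨c, hc⟩ : ∃ c : ℝ, c = (1 + v) / 4 := ⟨_, rfl⟩
  have hc0 : 0 < c := by rw [hc]; linarith
  obtain ⟨P, hPB, hcP, hP⟩ := exists_PQ hμ hA hB hs
  rw [← hc] at hcP
  have hB1' : (1 : ℝ) ≤ B := by exact_mod_cast hB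
  have hB0 : (0 : ℝ) < B := by linarith
  obtain ⟨Y₀, hY₀⟩ : ∃ Y₀ : ℝ, Y₀ = 2 * (B * (Lam μ h + |h| + K')) := ⟨_, rfl⟩
  rw [← hY₀] at hY
  obtain ⟨E, hE⟩ : ∃ E : ℝ, E = 2 * eps μ B + (1 + Cc μ) * Real.sqrt B := ⟨_, rfl⟩
  rw [← hE] at hP
  obtain ⟨J, hJ⟩ : ∃ J : ℝ, J = ∫ t, max (|t| - K') 0 ∂μ := ⟨_, rfl⟩
  have htlQ : tlQ μ v B K' = 2 / c * (E / B + J) := by
    unfold tlQ
    rw [← hE, ← hJ, hc]
    congr 1
    field_simp
    norm_num
  obtain ⟨C, hC⟩ : ∃ C : ℝ, C = max (c1 μ h + |h| + ∫ u, |u| ∂μ) 0 := ⟨_, rfl⟩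
  have hC0 : 0 ≤ C := by rw [hC]; exact le_max_right _ _
  have htl : ∀ n k, k ≤ n → tail μ h n k Y₀ ≤ C := fun n k hk =>
    (tail_le hμ h hk Y₀).trans (by rw [hC]; exact le_max_left _ _)
  have htn : ∀ n k, k ≤ n → 0 ≤ tail μ h n k Y₀ := fun n k hk => tail_nonneg h hk Y₀
  have hev := (tendsto_eps_div (μ := μ)).eventually
    (gt_mem_nhds (show (0 : ℝ) < η * c / 8 by positivity))
  obtain ⟨N₁, hN₁⟩ := Filter.eventually_atTop.1 hev
  obtain ⟨N₂, hN₂⟩ := exists_nat_ge (4 * (B * C) / η)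
  refine ⟨max (max N₁ N₂) (max B 1), fun N hN => ?_⟩
  have hNN1 : N₁ ≤ N := ((le_max_left _ _).trans (le_max_left _ _)).trans hN
  have hNN2 : N₂ ≤ N := ((le_max_right _ _).trans (le_max_left _ _)).trans hN
  have hNB : B ≤ N := ((le_max_left _ _).trans (le_max_right _ _)).trans hN
  have hN1 : 1 ≤ N := ((le_max_right _ _).trans (le_max_right _ _)).trans hN
  have hN0 : (0 : ℝ) < N := by exact_mod_cast hN1
  have hanti : ∑ n ∈ Ico N (2 * N), ∑ k ∈ range N, tail μ h n k Y ≤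
      ∑ n ∈ Ico N (2 * N), ∑ k ∈ range N, tail μ h n k Y₀ := by
    refine sum_le_sum fun n hn => sum_le_sum fun k hk => ?_
    rw [mem_Ico] at hn
    rw [mem_range] at hk
    exact tail_anti hμ h (by omega) hY
  refine hanti.trans ?_
  -- summation
  have hsum : ∑ n ∈ Ico N (2 * N), ∑ k ∈ range N, ∑ i ∈ range P, tail μ h (n + i) (k + i) Y₀ ≤
      2 * N * (B * eps μ (N + B)) + N ^ 2 * (2 * (E + B * J)) := by
    have h1 : ∑ n ∈ Ico N (2 * N), ∑ k ∈ range N, ∑ i ∈ range P, tail μ h (n + i) (k + i) Y₀ ≤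
        ∑ n ∈ Ico N (2 * N), ∑ _k ∈ range N,
          (2 * (a μ h (n + B) - a μ h n - B * Lam μ h) + 2 * (E + B * J)) := by
      refine sum_le_sum fun n hn => sum_le_sum fun k hk => ?_
      rw [mem_Ico] at hn
      rw [mem_range] at hk
      have h2 := tail_sum_le hμ h (show k ≤ n by omega) hPB K'
      rw [← hY₀, ← hJ] at h2
      linarith
    refine h1.trans ?_
    simp only [sum_const, card_range, nsmul_eq_mul]
    rw [← mul_sum, sum_add_distrib, ← mul_sum]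
    simp only [sum_const, Nat.card_Ico, nsmul_eq_mul]
    rw [show 2 * N - N = N by omega]
    have h4 := sum_incr_le hμ h N B
    have h5 := mul_le_mul_of_nonneg_left h4 hN0.le
    linarith
  have hbulk := bulk_le (f := fun n k => tail μ h n k Y₀) htn (N := N) hPB
  have hbd := boundary_le hC0 htl N B
  obtain ⟨S, hS⟩ : ∃ S : ℝ, S = ∑ n ∈ Ico (N + B) (2 * N), ∑ k ∈ Ico B N, tail μ h n k Y₀ :=
    ⟨_, rfl⟩
  rw [← hS] at hbulk hbd
  have hS0 : 0 ≤ S := by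
    rw [hS]
    refine sum_nonneg fun n hn => sum_nonneg fun k hk => htn n k ?_
    rw [mem_Ico] at hn hk
    omega
  have h1 : c * B * S ≤ 2 * N * (B * eps μ (N + B)) + N ^ 2 * (2 * (E + B * J)) :=
    (mul_le_mul_of_nonneg_right hcP hS0).trans (hbulk.trans hsum)
  have h2 : eps μ (N + B) ≤ η * c / 8 * (2 * N) := by
    have h3 := (hN₁ (N + B) (by omega)).le
    have h4 : (0 : ℝ) < ((N + B : ℕ) : ℝ) := by positivity
    rw [div_le_iff₀ h4] at h3
    refine h3.trans (mul_le_mul_of_nonneg_left ?_ (by positivity))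
    push_cast
    have : (B : ℝ) ≤ N := by exact_mod_cast hNB
    linarith
  have h3 : S ≤ tlQ μ v B K' * N ^ 2 + η / 2 * N ^ 2 := by
    have h4 : c * B * S ≤ c * B * (tlQ μ v B K' * N ^ 2 + η / 2 * N ^ 2) := by
      have h5 : 2 * (N : ℝ) * (B * eps μ (N + B)) ≤ 2 * N * (B * (η * c / 8 * (2 * N))) := by
        gcongr
      refine h1.trans ?_
      have h6 : c * B * (tlQ μ v B K' * N ^ 2 + η / 2 * N ^ 2) =
          2 * N * (B * (η * c / 8 * (2 * N))) + N ^ 2 * (2 * (E + B * J)) := by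
        rw [htlQ]
        field_simp
        ring
      rw [h6]
      linarith
    exact le_of_mul_le_mul_left h4 (by positivity)
  have h6 : 2 * (B : ℝ) * N * C ≤ η / 2 * N ^ 2 := by
    have h7 : 4 * (B * C) / η ≤ N := hN₂.trans (by exact_mod_cast hNN2)
    rw [div_le_iff₀ hη] at h7
    have h8 := mul_le_mul_of_nonneg_left h7 hN0.le
    nlinarith
  have e1 : (tlQ μ v B K' + η) * (N : ℝ) ^ 2 = tlQ μ v B K' * N ^ 2 + η / 2 * N ^ 2 +
      η / 2 * N ^ 2 := by ring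
  rw [e1]
  linarith

end

end Pool.Agent.W_7d29a1_h47
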