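import Pool.Agent.W_7d29a1_h47q.CrossG
import Pool.Agent.W_7d29a1_h47q.AvgE
import Pool.Agent.W_7d29a1_h47q.UiQ
import Pool.Agent.W_7d29a1_h47q.ChainQ

/-!
# The main inequality
-/

namespace Pool.Agent.W_7d29a1_h47

open MeasureTheory ProbabilityTheory Finset

noncomputable section

variable {P : Prm} {μ : Measure ℝ} [IsProbabilityMeasure μ]

/-- The bound for the mean Kullback–Leibler distance. -/
def BdQ (P : Prm) (μ : Measure ℝ) (p q h δ v D vb A : ℝ) (m B : ℕ) (M₀ K' : ℝ) (Yn : ℕ) : ℝ :=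
  (1 + (|h| + M₀) + Yn) * (12 * ((2 * (Yn + 1) + 1) * (2 * e0 P μ + 8 * psT P μ p q δ D vb A m)) +
      2 * (Mom μ 1 * Real.exp (|h| - Yn))) +
    (3 + (|h| + M₀)) * tlQ μ v B K' + ∫ u, max (|u| - M₀) 0 ∂μ

/-- `psT` is nonnegative. Proof. `PsiQ` with `n = P.R`: the left side is `≥ 0` (`Psw_nonneg`, `EA_nonneg`)
and `P.R ≥ 1`. -/
lemma psT_nonneg (hμ : EM μ) {p q : ℝ} (hpq : p < q) (hk : 0 < kmin μ p q) (hP : P.Ok μ p q)
    (hT : 4 ≤ P.T₁) {h δ v D vb : ℝ} (hA : NA μ h δ v D) (hv : |v| ≤ vb) (hρ : vb < P.ρ) {A : ℝ}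
    (hA1 : 0 < A) (m : ℕ) : 0 ≤ psT P μ p q δ D vb A m := by
  have hR1 : 1 ≤ P.R := by
    have h1 : P.R = (P.I + 1) * P.TB := rfl
    have h2 : P.TB = P.L + P.ℓ + P.L := rfl
    have h3 := hP.L1
    rw [h1]
    exact Nat.mul_pos (Nat.succ_pos _) (by omega)
  have h1 := PsiQ hμ hpq hk hP hT hA hv hρ (le_refl P.R) hA1 m
  have h2 : 0 ≤ ∑ k ∈ range (P.R - P.R + 1), EA μ h P.R (Psw P μ p q h v k) :=
    Finset.sum_nonneg fun k _ => EA_nonneg fun g s _ => Psw_nonneg hk.le P h v k g s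
  have h3 : (0 : ℝ) < P.R := by exact_mod_cast hR1
  by_contra hcon
  push Not at hcon
  have h4 := mul_neg_of_pos_of_neg h3 hcon
  linarith

/-- The window terms for one length. Proof. `k ↦ k - R`, `k ↦ k`, `k ↦ k + 1` are injective from
`Icc R (N - R)` (for `N ≤ n`) into `range (n - R + 1)`, resp. `range (n + 1 - R + 1)`; all terms are
nonnegative; `PsiQ` for the lengths `n`, `n + 1`: `2 n ψ + 2 (n + 1) ψ ≤ 4 (n + 1) ψ` (`psT_nonneg`). -/
lemma win_sum (hμ : EM μ) {p q : ℝ} (hpq : p < q) (hk : 0 < kmin μ p q) (hP : P.Ok μ p q)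
    (hT : 4 ≤ P.T₁) {h δ v D vb : ℝ} (hA : NA μ h δ v D) (hv : |v| ≤ vb) (hρ : vb < P.ρ)
    {A : ℝ} (hA1 : 0 < A) (m : ℕ) {n N : ℕ} (hRn : P.R ≤ n) (hN : N ≤ n) :
    ∑ k ∈ Icc P.R (N - P.R), (EA μ h n (Psw P μ p q h v (k - P.R)) +
        EA μ h (n + 1) (Psw P μ p q h v (k - P.R)) + EA μ h n (Psw P μ p q h v k) +
        EA μ h (n + 1) (Psw P μ p q h v (k + 1))) ≤ 4 * (n + 1) * psT P μ p q δ D vb A m := by
  have hps := psT_nonneg hμ hpq hk hP hT hA hv hρ hA1 m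
  obtain ⟨F, hF⟩ : ∃ F : ℕ → ℕ → ℝ, ∀ l k, F l k = EA μ h l (Psw P μ p q h v k) :=
    ⟨_, fun _ _ => rfl⟩
  have hF0 : ∀ l k, 0 ≤ F l k := fun l k => by
    rw [hF]
    exact EA_nonneg fun g s _ => Psw_nonneg hk.le P h v k g s
  have hQ : ∀ l, P.R ≤ l → ∑ k ∈ range (l - P.R + 1), F l k ≤ l * psT P μ p q δ D vb A m := by
    intro l hl
    simp only [hF]
    exact PsiQ hμ hpq hk hP hT hA hv hρ hl hA1 m
  simp only [← hF]
  rw [Finset.sum_add_distrib, Finset.sum_add_distrib, Finset.sum_add_distrib]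
  -- the three types of sums
  have hinj1 : Set.InjOn (fun k => k - P.R) (Icc P.R (N - P.R) : Finset ℕ) := by
    intro a ha b hb hab
    have ha' := Finset.mem_Icc.1 (Finset.mem_coe.1 ha)
    have hb' := Finset.mem_Icc.1 (Finset.mem_coe.1 hb)
    simp only at hab
    omega
  have hinj2 : Set.InjOn (fun k => k + 1) (Icc P.R (N - P.R) : Finset ℕ) := by
    intro a ha b hb hab
    simp only at hab
    omega
  have s1 : ∀ l, n ≤ l → ∑ k ∈ Icc P.R (N - P.R), F l (k - P.R) ≤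
      ∑ k ∈ range (l - P.R + 1), F l k := by
    intro l hl
    rw [← Finset.sum_image (f := F l) (g := fun k => k - P.R) hinj1]
    refine Finset.sum_le_sum_of_subset_of_nonneg ?_ fun k _ _ => hF0 l k
    intro j hj
    obtain ⟨k, hk, rfl⟩ := Finset.mem_image.1 hj
    have hk' := Finset.mem_Icc.1 hk
    rw [Finset.mem_range]
    omega
  have s2 : ∑ k ∈ Icc P.R (N - P.R), F n k ≤ ∑ k ∈ range (n - P.R + 1), F n k := by
    refine Finset.sum_le_sum_of_subset_of_nonneg ?_ fun k _ _ => hF0 n k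
    intro k hk
    have hk' := Finset.mem_Icc.1 hk
    rw [Finset.mem_range]
    omega
  have s3 : ∑ k ∈ Icc P.R (N - P.R), F (n + 1) (k + 1) ≤
      ∑ k ∈ range (n + 1 - P.R + 1), F (n + 1) k := by
    rw [← Finset.sum_image (f := F (n + 1)) (g := fun k => k + 1) hinj2]
    refine Finset.sum_le_sum_of_subset_of_nonneg ?_ fun k _ _ => hF0 (n + 1) k
    intro j hj
    obtain ⟨k, hk, rfl⟩ := Finset.mem_image.1 hj
    have hk' := Finset.mem_Icc.1 hk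
    rw [Finset.mem_range]
    omega
  have q1 := hQ n hRn
  have q2 := hQ (n + 1) (by omega)
  have t1 := s1 n le_rfl
  have t2 := s1 (n + 1) (by omega)
  push_cast at q2
  nlinarith

/-- **Mean Kullback–Leibler distance.** Proof. As `klavg` (`FinC.lean`): sum `EKL_cross` with
`Y = Yn`, and `Yn + 1` in the place of `Yn`, over `k ∈ Icc R (N - R)` and `n ∈ [N, 2N)`; there are at most
`N` values of `k` and `N` values of `n`; `win_sum` with `n + 1 ≤ 2N`; the tail terms are nonnegative, so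
the sum over `k` may be extended to `range N`; `uiQ` with `Y = Yn` and `η / (3 + |h| + M₀)`. -/
theorem klavgQ (hμ : EM μ) {p q : ℝ} (hpq : p < q) (hk : 0 < kmin μ p q) (hP : P.Ok μ p q)
    (hT : 4 ≤ P.T₁) {h δ v D vb : ℝ} (hA : NA μ h δ v D) (hv : |v| ≤ vb) (hvb : vb < 1)
    (hρ : vb < P.ρ) {A : ℝ} (hA1 : 0 < A) (m : ℕ) {B : ℕ} (hB : 1 ≤ B)
    (hs : 2 * eps μ B + B * D ≤ δ * ((1 + v) / 2 * B)) {M₀ K' : ℝ} (hM₀ : 0 ≤ M₀) {Yn : ℕ}
    (hY1 : 1 ≤ Yn) (hY : 2 * (B * (Lam μ h + |h| + K')) ≤ Yn) {η : ℝ} (hη : 0 < η) :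
    ∃ N₀ : ℕ, ∀ N : ℕ, N₀ ≤ N →
      ∑ n ∈ Ico N (2 * N), ∑ k ∈ Icc P.R (N - P.R), EKL μ h n k P.R ≤
        (BdQ P μ p q h δ v D vb A m B M₀ K' Yn + η) * N ^ 2 := by
  have hps := psT_nonneg hμ hpq hk hP hT hA hv hρ hA1 m
  obtain ⟨ps, hpsd⟩ : ∃ ps, ps = psT P μ p q δ D vb A m := ⟨_, rfl⟩
  rw [← hpsd] at hps
  have hv1 : |v| ≤ 1 := by linarith
  have hvm : -1 < v := by
    have := (abs_le.1 hv).1
    linarith
  have hT3 : 0 < 3 + (|h| + M₀) := by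
    have := abs_nonneg h
    linarith
  obtain ⟨N₁, hN₁⟩ := uiQ hμ hA hvm hB hs hY (η := η / (3 + (|h| + M₀))) (by positivity)
  have hYr : (1 : ℝ) ≤ Yn := by exact_mod_cast hY1
  obtain ⟨G, hG⟩ : ∃ G : ℝ, G = 1 + (|h| + M₀) + Yn := ⟨_, rfl⟩
  have hG0 : 0 < G := by
    have := abs_nonneg h
    rw [hG]
    linarith
  obtain ⟨c, hc⟩ : ∃ c : ℝ, c = 2 * ((Yn : ℝ) + 1) + 1 := ⟨_, rfl⟩
  have hc0 : 0 < c := by rw [hc]; linarith
  obtain ⟨X, hX⟩ : ∃ X : ℝ, X = Mom μ 1 * Real.exp (|h| - Yn) := ⟨_, rfl⟩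
  have hX0 : 0 ≤ X := by
    rw [hX]
    exact mul_nonneg (integral_nonneg fun t => (Real.exp_pos _).le) (Real.exp_pos _).le
  obtain ⟨I, hId⟩ : ∃ I : ℝ, I = ∫ u, max (|u| - M₀) 0 ∂μ := ⟨_, rfl⟩
  have hI0 : 0 ≤ I := by rw [hId]; exact integral_nonneg fun u => le_max_right _ _
  obtain ⟨w, hw⟩ : ∃ w : ℝ, w = e0 P μ := ⟨_, rfl⟩
  have hw0 : 0 ≤ w := by
    rw [hw]
    unfold e0 e1
    positivity
  obtain ⟨tl, htl⟩ : ∃ tl : ℝ, tl = tlQ μ v B K' := ⟨_, rfl⟩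
  rw [← htl] at hN₁
  have hBd : BdQ P μ p q h δ v D vb A m B M₀ K' Yn =
      G * (12 * (c * (2 * w + 8 * ps)) + 2 * X) + (3 + (|h| + M₀)) * tl + I := by
    unfold BdQ
    rw [hG, hc, hX, hId, hw, htl, hpsd]
  rw [hBd]
  refine ⟨max (max N₁ P.R) 1, fun N hN => ?_⟩
  have hNN₁ : N₁ ≤ N := ((le_max_left _ _).trans (le_max_left _ _)).trans hN
  have hNR : P.R ≤ N := ((le_max_right _ _).trans (le_max_left _ _)).trans hN
  have hN1 : 1 ≤ N := (le_max_right _ _).trans hN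
  have hR1 : 1 ≤ P.R := by
    have h1 : P.R = (P.I + 1) * P.TB := rfl
    have h2 : P.TB = P.L + P.ℓ + P.L := rfl
    have h3 := hP.L1
    rw [h1]
    exact Nat.mul_pos (Nat.succ_pos _) (by omega)
  have hcard : ((Icc P.R (N - P.R)).card : ℝ) ≤ N := by
    rw [Nat.card_Icc]
    have : N - P.R + 1 - P.R ≤ N := by omega
    exact_mod_cast this
  -- the sum over `k`
  have hk1 : ∀ n ∈ Ico N (2 * N), ∑ k ∈ Icc P.R (N - P.R), EKL μ h n k P.R ≤
      N * (G * (12 * (c * (2 * w)) + 2 * X) + I) + G * (12 * (c * (8 * N * ps))) +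
        (3 + (|h| + M₀)) * ∑ k ∈ range N, tail μ h n k Yn := by
    intro n hn
    have hn' := Finset.mem_Ico.1 hn
    have h1 : ∀ k ∈ Icc P.R (N - P.R), EKL μ h n k P.R ≤
        (G * (12 * (c * (2 * w)) + 2 * X) + I) + G * (12 * (c *
          (EA μ h n (Psw P μ p q h v (k - P.R)) + EA μ h (n + 1) (Psw P μ p q h v (k - P.R)) +
            EA μ h n (Psw P μ p q h v k) + EA μ h (n + 1) (Psw P μ p q h v (k + 1))))) +
        (3 + (|h| + M₀)) * tail μ h n k Yn := by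
      intro k hk'
      have hk2 := Finset.mem_Icc.1 hk'
      have h2 := EKL_cross hμ hpq hk hP h hv1 (n := n) (k := k) hk2.1 (by omega) hM₀
        (Y := (Yn : ℝ)) hYr (Yn := Yn + 1) (by push_cast; exact le_rfl)
      push_cast at h2
      rw [← hG, ← hc, ← hX, ← hId, ← hw] at h2
      refine h2.trans (le_of_eq ?_)
      ring
    refine (Finset.sum_le_sum h1).trans ?_
    rw [Finset.sum_add_distrib, Finset.sum_add_distrib, ← Finset.mul_sum, ← Finset.mul_sum,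
      ← Finset.mul_sum, ← Finset.mul_sum, Finset.sum_const, nsmul_eq_mul]
    have h3 := win_sum hμ hpq hk hP hT hA hv hρ hA1 m (n := n) (N := N) (by omega) hn'.1
    rw [← hpsd] at h3
    have h4 : 4 * ((n : ℝ) + 1) * ps ≤ 8 * N * ps := by
      refine mul_le_mul_of_nonneg_right ?_ hps
      have h5 : n + 1 ≤ 2 * N := by omega
      have h6 : ((n : ℝ) + 1) ≤ 2 * N := by exact_mod_cast h5
      linarith
    have h5 := mul_le_mul_of_nonneg_left (mul_le_mul_of_nonneg_left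
        (mul_le_mul_of_nonneg_left (h3.trans h4) hc0.le) (show (0 : ℝ) ≤ 12 by norm_num)) hG0.le
    have h6 : ((Icc P.R (N - P.R)).card : ℝ) * (G * (12 * (c * (2 * w)) + 2 * X) + I) ≤
        N * (G * (12 * (c * (2 * w)) + 2 * X) + I) :=
      mul_le_mul_of_nonneg_right hcard (by positivity)
    have h7 : ∑ k ∈ Icc P.R (N - P.R), tail μ h n k Yn ≤ ∑ k ∈ range N, tail μ h n k Yn := by
      refine Finset.sum_le_sum_of_subset_of_nonneg ?_ fun k hk _ => ?_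
      · intro k hk
        have hk' := Finset.mem_Icc.1 hk
        rw [Finset.mem_range]
        omega
      · have hk' := Finset.mem_range.1 hk
        exact tail_nonneg h (by omega) Yn
    have h8 := mul_le_mul_of_nonneg_left h7 hT3.le
    linarith
  refine (Finset.sum_le_sum hk1).trans ?_
  rw [Finset.sum_add_distrib, ← Finset.mul_sum, Finset.sum_const, nsmul_eq_mul, Nat.card_Ico]
  have e1 : ((2 * N - N : ℕ) : ℝ) = N := by
    congr 1
    omega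
  rw [e1]
  have t1 := mul_le_mul_of_nonneg_left (hN₁ N hNN₁) hT3.le
  have t2 : (3 + (|h| + M₀)) * ((tl + η / (3 + (|h| + M₀))) * (N : ℝ) ^ 2) =
      ((3 + (|h| + M₀)) * tl + η) * (N : ℝ) ^ 2 := by
    field_simp
  rw [t2] at t1
  refine (add_le_add_right t1 _).trans (le_of_eq ?_)
  ring

/-- **Main inequality.** Proof. `chainQ` with `klavgQ` for every `η > 0` (`le_of_forall_pos_le_add`). -/
theorem mainQ (hμ : EM μ) {p q : ℝ} (hpq : p < q) (hk : 0 < kmin μ p q) (hP : P.Ok μ p q)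
    (hT : 4 ≤ P.T₁) {h δ v D vb : ℝ} (hA : NA μ h δ v D) (hv : |v| ≤ vb) (hvb : vb < 1)
    (hρ : vb < P.ρ) {A : ℝ} (hA1 : 0 < A) (m : ℕ) {B : ℕ} (hB : 1 ≤ B)
    (hs : 2 * eps μ B + B * D ≤ δ * ((1 + v) / 2 * B)) {M₀ K' : ℝ} (hM₀ : 0 ≤ M₀) {Yn : ℕ}
    (hY1 : 1 ≤ Yn) (hY : 2 * (B * (Lam μ h + |h| + K')) ≤ Yn) :
    δ * (1 - v) ≤ (8 * P.R + 1) * D + BdQ P μ p q h δ v D vb A m B M₀ K' Yn := by
  have hR1 : 1 ≤ P.R := by
    have h1 : P.R = (P.I + 1) * P.TB := rfl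
    have h2 : P.TB = P.L + P.ℓ + P.L := rfl
    have h3 := hP.L1
    rw [h1]
    exact Nat.mul_pos (Nat.succ_pos _) (by omega)
  refine le_of_forall_pos_le_add fun η hη => ?_
  have h1 := chainQ hμ hA hR1 (klavgQ hμ hpq hk hP hT hA hv hvb hρ hA1 m hB hs hM₀ hY1 hY hη)
  linarith

end

end Pool.Agent.W_7d29a1_h47
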