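import Pool.Agent.W_7d29a1_h47q.ParB
import Pool.Agent.W_7d29a1_h47q.ParC
import Pool.Agent.W_7d29a1_h47q.SumQ

/-!
# Lower bound for the defect at the scales `r^{-240}`
-/

namespace Pool.Agent.W_7d29a1_h47

open MeasureTheory ProbabilityTheory Finset Filter

noncomputable section

variable {μ : Measure ℝ} [IsProbabilityMeasure μ]

lemma ParD_Cc (μ : Measure ℝ) : 0 ≤ Cc μ := by
  unfold Cc
  positivity

lemma ParD_one_le : ∀ᶠ r : ℕ in atTop, (1 : ℝ) ≤ (r : ℝ) := by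
  filter_upwards [eventually_ge_atTop 1] with r hr
  exact_mod_cast hr

lemma ParD_pow_le {x : ℝ} (hx : 1 ≤ x) {m n : ℕ} (h : m ≤ n) : x ^ m ≤ x ^ n :=
  pow_le_pow_right₀ hx h

lemma ParD_fac (h : ℝ) {x : ℝ} (hx : 1 ≤ x) :
    1 + (|h| + x) + 3 * x ^ 485 ≤ (5 + |h|) * x ^ 485 := by
  have h1 : (1 : ℝ) ≤ x ^ 485 := one_le_pow₀ hx
  have h2 : x ≤ x ^ 485 := by
    calc x = x ^ 1 := (pow_one x).symm
      _ ≤ x ^ 485 := ParD_pow_le hx (by norm_num)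
  have h3 : |h| ≤ |h| * x ^ 485 := le_mul_of_one_le_right (abs_nonneg h) h1
  nlinarith

/-- Proof. The first factor is at most `(5 + |h|) r^{485}`, `2 (3 r^{485} + 1) + 1 ≤ 9 r^{485}`; `e0_small` with
`N = 970 + 240` and `psT_small`: `r^{970} (1 + log r) / r^{1212} = (1 + log r) / r² * r^{-240}`, `ev_log`. -/
lemma bd1 (h : ℝ) {p q vb : ℝ} (hk : 0 < kmin μ p q) (hvb : vb < 1) {ε : ℝ} (hε : 0 < ε) :
    ∀ᶠ r : ℕ in atTop, ∀ D : ℝ, 0 ≤ D → D ≤ ((r : ℝ) ^ 24000)⁻¹ →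
      (1 + (|h| + (r : ℝ)) + ((3 * r ^ 485 : ℕ) : ℝ)) *
        (12 * ((2 * (((3 * r ^ 485 : ℕ) : ℝ) + 1) + 1) * (2 * e0 (pr (kmin μ p q) vb r) μ +
          8 * psT (pr (kmin μ p q) vb r) μ p q ((r : ℝ) ^ 240)⁻¹ D vb r 1212))) ≤
        ε * ((r : ℝ) ^ 240)⁻¹ := by
  obtain ⟨C, hC, hps⟩ := psT_small (μ := μ) (p := p) (q := q) (vb := vb) hk hvb
  have hh : 0 < 5 + |h| := by positivity
  set c : ℝ := 108 * (5 + |h|) with hc
  have hc0 : 0 < c := by positivity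
  have hε1 : 0 < ε / (4 * c) := by positivity
  have hε2 : 0 < ε / 2 := by positivity
  filter_upwards [hps, e0_small (μ := μ) hk vb 1210 hε1, ev_log (8 * c * C) hε2, ParD_one_le]
    with r hps he hl hx D hD0 hD
  have hps' := hps D hD0 hD
  generalize e0 (pr (kmin μ p q) vb r) μ = e at *
  generalize psT (pr (kmin μ p q) vb r) μ p q ((r : ℝ) ^ 240)⁻¹ D vb r 1212 = ψ at *
  push_cast
  generalize (r : ℝ) = x at *
  have hx0 : 0 < x := by linarith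
  have hlog : 0 ≤ Real.log x := Real.log_nonneg hx
  have f1 := ParD_fac h hx
  have f1' : 0 ≤ 1 + (|h| + x) + 3 * x ^ 485 := by positivity
  have h485 : (1 : ℝ) ≤ x ^ 485 := one_le_pow₀ hx
  have f2 : 2 * (3 * x ^ 485 + 1) + 1 ≤ 9 * x ^ 485 := by linarith
  have f2' : 0 ≤ 2 * (3 * x ^ 485 + 1) + 1 := by positivity
  have hxp : 0 < x ^ 240 := by positivity
  have hx1210 : 0 < x ^ 1210 := by positivity
  have he' : e ≤ (ε / (4 * c)) / x ^ 1210 := by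
    rw [le_div_iff₀ hx1210]
    linarith [mul_comm e (x ^ 1210)]
  set S : ℝ := 2 * ((ε / (4 * c)) / x ^ 1210) + 8 * (C * ((1 + Real.log x) / x ^ 1212)) with hS
  have hS0 : 0 ≤ S := by positivity
  have hle : 2 * e + 8 * ψ ≤ S := by rw [hS]; linarith
  have k1 : (1 + (|h| + x) + 3 * x ^ 485) * (12 * ((2 * (3 * x ^ 485 + 1) + 1) * (2 * e + 8 * ψ))) ≤
      ((5 + |h|) * x ^ 485) * (12 * ((9 * x ^ 485) * S)) := by
    have a1 : (2 * (3 * x ^ 485 + 1) + 1) * (2 * e + 8 * ψ) ≤ (9 * x ^ 485) * S :=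
      (mul_le_mul_of_nonneg_left hle f2').trans (mul_le_mul_of_nonneg_right f2 hS0)
    have a2 : (1 + (|h| + x) + 3 * x ^ 485) *
        (12 * ((2 * (3 * x ^ 485 + 1) + 1) * (2 * e + 8 * ψ))) ≤
        (1 + (|h| + x) + 3 * x ^ 485) * (12 * ((9 * x ^ 485) * S)) :=
      mul_le_mul_of_nonneg_left (by linarith) f1'
    have a3 : 0 ≤ 12 * ((9 * x ^ 485) * S) := by positivity
    exact a2.trans (mul_le_mul_of_nonneg_right f1 a3)
  refine k1.trans ?_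
  rw [← div_eq_mul_inv, le_div_iff₀ hxp]
  have e1 : (5 + |h|) * x ^ 485 * (12 * (9 * x ^ 485 * S)) * x ^ 240 =
      c * (x ^ 1210 * S) := by
    rw [hc]; ring
  have e2 : x ^ 1210 * S = ε / (2 * c) + 8 * C * (1 + Real.log x) / x ^ 2 := by
    rw [hS]
    have : x ^ 1212 = x ^ 1210 * x ^ 2 := by ring
    rw [this]
    field_simp
    ring
  rw [e1, e2]
  have e3 : c * (ε / (2 * c) + 8 * C * (1 + Real.log x) / x ^ 2) =
      ε / 2 + (8 * c * C * (1 + Real.log x)) / x ^ 2 := by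
    field_simp
  rw [e3]
  have e4 : (8 * c * C * (1 + Real.log x)) / x ^ 2 ≤ ε / 2 := by
    rw [div_le_iff₀ (by positivity)]
    have : ε / 2 * x ≤ ε / 2 * x ^ 2 := mul_le_mul_of_nonneg_left (by nlinarith) hε2.le
    linarith
  linarith

omit [IsProbabilityMeasure μ] in
/-- Proof. `e^{|h| - 3 r^{485}} ≤ e^{|h|} e^{-r}`, `ev_exp` with `N = 485 + 240`. -/
lemma bd2 (h : ℝ) {ε : ℝ} (hε : 0 < ε) :
    ∀ᶠ r : ℕ in atTop, (1 + (|h| + (r : ℝ)) + ((3 * r ^ 485 : ℕ) : ℝ)) *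
      (2 * (Mom μ 1 * Real.exp (|h| - ((3 * r ^ 485 : ℕ) : ℝ)))) ≤ ε * ((r : ℝ) ^ 240)⁻¹ := by
  have hM : 0 ≤ Mom μ 1 := integral_nonneg fun _ => (Real.exp_pos _).le
  filter_upwards [ev_exp ((5 + |h|) * (2 * (Mom μ 1 * Real.exp |h|))) 725 hε, ParD_one_le]
    with r he hx
  push_cast
  generalize (r : ℝ) = x at *
  have hx0 : 0 < x := by linarith
  have f1 := ParD_fac h hx
  have h2 : x ≤ x ^ 485 := by
    calc x = x ^ 1 := (pow_one x).symm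
      _ ≤ x ^ 485 := ParD_pow_le hx (by norm_num)
  have g1 : Real.exp (|h| - 3 * x ^ 485) ≤ Real.exp |h| * Real.exp (-x) := by
    rw [← Real.exp_add]
    exact Real.exp_le_exp.2 (by nlinarith)
  have k1 : (1 + (|h| + x) + 3 * x ^ 485) * (2 * (Mom μ 1 * Real.exp (|h| - 3 * x ^ 485))) ≤
      ((5 + |h|) * x ^ 485) * (2 * (Mom μ 1 * (Real.exp |h| * Real.exp (-x)))) := by
    have a1 : Mom μ 1 * Real.exp (|h| - 3 * x ^ 485) ≤
        Mom μ 1 * (Real.exp |h| * Real.exp (-x)) := mul_le_mul_of_nonneg_left g1 hM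
    refine mul_le_mul f1 (by linarith) ?_ (by positivity)
    positivity
  refine k1.trans ?_
  have hxp : 0 < x ^ 240 := by positivity
  rw [← div_eq_mul_inv, le_div_iff₀ hxp]
  have e1 : (5 + |h|) * x ^ 485 * (2 * (Mom μ 1 * (Real.exp |h| * Real.exp (-x)))) * x ^ 240 =
      (5 + |h|) * (2 * (Mom μ 1 * Real.exp |h|)) * (x ^ 725 * Real.exp (-x)) := by ring
  rw [e1]
  exact he

lemma ParD_sqrt (r : ℕ) : Real.sqrt ((r ^ 484 : ℕ) : ℝ) = (r : ℝ) ^ 242 := by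
  have h : ((r ^ 484 : ℕ) : ℝ) = ((r : ℝ) ^ 242) ^ 2 := by
    push_cast
    ring
  rw [h, Real.sqrt_sq (by positivity)]

omit [IsProbabilityMeasure μ] in
lemma ParD_eps (r : ℕ) (hx : (1 : ℝ) ≤ (r : ℝ)) :
    eps μ (r ^ 484) ≤ (r : ℝ) ^ 242 * ((486 + Cc μ) * (1 + Real.log r)) := by
  have hC := ParD_Cc μ
  have hlog : 0 ≤ Real.log (r : ℝ) := Real.log_nonneg hx
  unfold eps
  rw [ParD_sqrt]
  refine mul_le_mul_of_nonneg_left ?_ (by positivity)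
  push_cast
  have h1 : (1 : ℝ) ≤ (r : ℝ) ^ 484 := one_le_pow₀ hx
  have h2 : Real.log (2 * (r : ℝ) ^ 484 + 1) ≤ 2 + 484 * Real.log r := by
    have a1 : Real.log (2 * (r : ℝ) ^ 484 + 1) ≤ Real.log (3 * (r : ℝ) ^ 484) :=
      Real.log_le_log (by positivity) (by linarith)
    have a2 : Real.log (3 * (r : ℝ) ^ 484) = Real.log 3 + 484 * Real.log r := by
      rw [Real.log_mul (by norm_num) (by positivity), Real.log_pow]
      norm_num
    have a3 : Real.log 3 ≤ 2 := by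
      have := Real.log_le_sub_one_of_pos (show (0 : ℝ) < 3 by norm_num)
      linarith
    linarith
  nlinarith [mul_nonneg hC hlog]

/-- Proof. `eps μ (r^{484}) / r^{484} = (log (2 r^{484} + 1) + Cc) / r^{242}`, `√(r^{484}) / r^{484} = r^{-242}`,
`8/(1+v) ≤ 8/(1-vb)`, `trunc_le`; so the left side is at most
`C r ((1 + log r) r^{-242} + e^{-r})`; `ev_log`, `ev_exp`. -/
lemma bd3 (hμ : EM μ) (h : ℝ) {vb : ℝ} (hvb : vb < 1) {ε : ℝ} (hε : 0 < ε) :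
    ∀ᶠ r : ℕ in atTop, ∀ v : ℝ, |v| ≤ vb →
      (3 + (|h| + (r : ℝ))) * tlQ μ v (r ^ 484) r ≤ ε * ((r : ℝ) ^ 240)⁻¹ := by
  have hM : 0 ≤ Mom μ 1 := integral_nonneg fun _ => (Real.exp_pos _).le
  have hC := ParD_Cc μ
  have hvb' : 0 < 1 - vb := by linarith
  set c : ℝ := (4 + |h|) * (8 / (1 - vb)) with hc
  have hc0 : 0 < c := by positivity
  set C1 : ℝ := 2 * (486 + Cc μ) + (1 + Cc μ) with hC1
  have hC10 : 0 < C1 := by positivity
  have hε2 : 0 < ε / 2 := by positivity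
  filter_upwards [ev_exp (c * Mom μ 1) 241 hε2, ev_log (c * C1) hε2, ParD_one_le]
    with r he hl hx v hv
  have hv' := abs_le.1 hv
  have hx0 : (0 : ℝ) < r := by linarith
  have hlog : 0 ≤ Real.log (r : ℝ) := Real.log_nonneg hx
  have t1 := trunc_le (μ := μ) hμ (r : ℝ)
  have t2 := ParD_eps (μ := μ) r hx
  have t3 : (2 * eps μ (r ^ 484) + (1 + Cc μ) * Real.sqrt ((r ^ 484 : ℕ) : ℝ)) /
      ((r ^ 484 : ℕ) : ℝ) ≤ C1 * (1 + Real.log r) / (r : ℝ) ^ 242 := by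
    rw [ParD_sqrt]
    push_cast
    rw [div_le_div_iff₀ (by positivity) (by positivity)]
    have b1 : 2 * eps μ (r ^ 484) + (1 + Cc μ) * (r : ℝ) ^ 242 ≤
        (r : ℝ) ^ 242 * (C1 * (1 + Real.log r)) := by
      have b2 : (1 + Cc μ) * (r : ℝ) ^ 242 ≤ (r : ℝ) ^ 242 * ((1 + Cc μ) * (1 + Real.log r)) := by
        have : (1 + Cc μ) ≤ (1 + Cc μ) * (1 + Real.log r) :=
          le_mul_of_one_le_right (by positivity) (by linarith)
        calc (1 + Cc μ) * (r : ℝ) ^ 242 = (r : ℝ) ^ 242 * (1 + Cc μ) := mul_comm _ _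
          _ ≤ _ := mul_le_mul_of_nonneg_left this (by positivity)
      rw [hC1]
      nlinarith
    calc (2 * eps μ (r ^ 484) + (1 + Cc μ) * (r : ℝ) ^ 242) * (r : ℝ) ^ 242 ≤
        ((r : ℝ) ^ 242 * (C1 * (1 + Real.log r))) * (r : ℝ) ^ 242 :=
          mul_le_mul_of_nonneg_right b1 (by positivity)
      _ = C1 * (1 + Real.log r) * (r : ℝ) ^ 484 := by ring
  have t4 : 8 / (1 + v) ≤ 8 / (1 - vb) := by
    apply div_le_div_of_nonneg_left (by norm_num) hvb'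
    linarith
  have t5 : 0 ≤ 8 / (1 + v) := by
    apply div_nonneg (by norm_num)
    linarith
  set U : ℝ := C1 * (1 + Real.log r) / (r : ℝ) ^ 242 + Mom μ 1 * Real.exp (-(r : ℝ)) with hU
  have hU0 : 0 ≤ U := by positivity
  have t6 : tlQ μ v (r ^ 484) r ≤ 8 / (1 - vb) * U := by
    unfold tlQ
    have : (2 * eps μ (r ^ 484) + (1 + Cc μ) * Real.sqrt ((r ^ 484 : ℕ) : ℝ)) /
      ((r ^ 484 : ℕ) : ℝ) + ∫ t, max (|t| - (r : ℝ)) 0 ∂μ ≤ U := by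
      rw [hU]; linarith
    exact (mul_le_mul_of_nonneg_left this t5).trans (mul_le_mul_of_nonneg_right t4 hU0)
  have t7 : 3 + (|h| + (r : ℝ)) ≤ (4 + |h|) * r := by
    nlinarith [abs_nonneg h]
  have t8 : (3 + (|h| + (r : ℝ))) * tlQ μ v (r ^ 484) r ≤ (4 + |h|) * r * (8 / (1 - vb) * U) := by
    refine (mul_le_mul_of_nonneg_left t6 (by positivity)).trans
      (mul_le_mul_of_nonneg_right t7 (by positivity))
  refine t8.trans ?_
  rw [← div_eq_mul_inv, le_div_iff₀ (by positivity)]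
  have e1 : (4 + |h|) * (r : ℝ) * (8 / (1 - vb) * U) * (r : ℝ) ^ 240 =
      (c * C1 * (1 + Real.log r)) / r + c * Mom μ 1 * ((r : ℝ) ^ 241 * Real.exp (-(r : ℝ))) := by
    rw [hU, hc]
    have : (r : ℝ) ^ 242 = (r : ℝ) ^ 241 * r := by ring
    rw [this]
    field_simp
  rw [e1]
  have e2 : (c * C1 * (1 + Real.log r)) / r ≤ ε / 2 := by
    rw [div_le_iff₀ hx0]
    linarith
  linarith

/-- Proof. `trunc_le`, `ev_exp`. -/
lemma bd4 (hμ : EM μ) {ε : ℝ} (hε : 0 < ε) :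
    ∀ᶠ r : ℕ in atTop, ∫ u, max (|u| - (r : ℝ)) 0 ∂μ ≤ ε * ((r : ℝ) ^ 240)⁻¹ := by
  filter_upwards [ev_exp (Mom μ 1) 240 hε, ParD_one_le] with r he hx
  have t1 := trunc_le (μ := μ) hμ (r : ℝ)
  have hx0 : (0 : ℝ) < r := by linarith
  refine t1.trans ?_
  rw [← div_eq_mul_inv, le_div_iff₀ (by positivity)]
  have e1 : Mom μ 1 * Real.exp (-(r : ℝ)) * (r : ℝ) ^ 240 =
      Mom μ 1 * ((r : ℝ) ^ 240 * Real.exp (-(r : ℝ))) := by ring
  rw [e1]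
  exact he

/-- Proof. `pr_R_le`: `8 R + 1 ≤ 49 r^{23748}`, `23748 - 24000 = -252`, and `49 r^{-252} ≤ ε r^{-240}`. -/
lemma bd5 (κ vb : ℝ) {ε : ℝ} (hε : 0 < ε) :
    ∀ᶠ r : ℕ in atTop, ∀ D : ℝ, 0 ≤ D → D ≤ ((r : ℝ) ^ 24000)⁻¹ →
      (8 * ((pr κ vb r).R : ℝ) + 1) * D ≤ ε * ((r : ℝ) ^ 240)⁻¹ := by
  filter_upwards [ev_const 49 hε, eventually_ge_atTop 1] with r hc hr D hD0 hD
  have hx : (1 : ℝ) ≤ (r : ℝ) := by exact_mod_cast hr
  have hR := pr_R_le κ vb hr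
  have hR0 : (0 : ℝ) ≤ ((pr κ vb r).R : ℝ) := Nat.cast_nonneg _
  generalize ((pr κ vb r).R : ℝ) = R at *
  generalize (r : ℝ) = x at *
  have hx0 : 0 < x := by linarith
  have h1 : (1 : ℝ) ≤ x ^ 23748 := one_le_pow₀ hx
  have h2 : (8 * R + 1) * D ≤ (49 * x ^ 23748) * (x ^ 24000)⁻¹ :=
    mul_le_mul (by linarith) hD hD0 (by positivity)
  refine h2.trans ?_
  rw [← div_eq_mul_inv, ← div_eq_mul_inv, div_le_div_iff₀ (by positivity) (by positivity)]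
  have e1 : 49 * x ^ 23748 * x ^ 240 = 49 * x ^ 23988 := by
    rw [mul_assoc, ← pow_add]
  have e2 : ε * x ^ 24000 = (ε * x) * x ^ 23999 := by
    rw [mul_assoc, ← pow_succ']
  rw [e1, e2]
  exact mul_le_mul hc (ParD_pow_le hx (by norm_num)) (by positivity) (by positivity)

/-- Proof. As `bd3`: `2 eps μ B ≤ C (1 + log r) r^{242}`, `B D ≤ 1`, and the right side is at least
`r^{-240} (1 - vb)/2 r^{484} = (1-vb)/2 r^{244}`. -/
lemma bd6 {vb : ℝ} (hvb : vb < 1) :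
    ∀ᶠ r : ℕ in atTop, ∀ v D : ℝ, |v| ≤ vb → 0 ≤ D → D ≤ ((r : ℝ) ^ 24000)⁻¹ →
      2 * eps μ (r ^ 484) + ((r ^ 484 : ℕ) : ℝ) * D ≤
        ((r : ℝ) ^ 240)⁻¹ * ((1 + v) / 2 * ((r ^ 484 : ℕ) : ℝ)) := by
  have hC := ParD_Cc μ
  have hvb' : 0 < (1 - vb) / 2 := by linarith
  filter_upwards [ev_log (2 * (486 + Cc μ) + 1) hvb', ParD_one_le] with r hl hx v D hv hD0 hD
  have hv' := abs_le.1 hv
  have t2 := ParD_eps (μ := μ) r hx
  push_cast
  generalize eps μ (r ^ 484) = E at *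
  generalize (r : ℝ) = x at *
  have hx0 : 0 < x := by linarith
  have hlog : 0 ≤ Real.log x := Real.log_nonneg hx
  have h242 : (1 : ℝ) ≤ x ^ 242 := one_le_pow₀ hx
  have a1 : x ^ 484 * D ≤ 1 := by
    have : x ^ 484 * D ≤ x ^ 24000 * (x ^ 24000)⁻¹ :=
      mul_le_mul (ParD_pow_le hx (by norm_num)) hD hD0 (by positivity)
    rwa [mul_inv_cancel₀ (by positivity)] at this
  have a2 : (x ^ 240)⁻¹ * ((1 + v) / 2 * x ^ 484) = (1 + v) / 2 * x ^ 244 := by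
    have : x ^ 484 = x ^ 240 * x ^ 244 := by ring
    rw [this]
    field_simp
  rw [a2]
  have a3 : (1 - vb) / 2 * x ^ 244 ≤ (1 + v) / 2 * x ^ 244 :=
    mul_le_mul_of_nonneg_right (by linarith) (by positivity)
  refine le_trans ?_ a3
  have a4 : 2 * E + x ^ 484 * D ≤ x ^ 242 * ((2 * (486 + Cc μ) + 1) * (1 + Real.log x)) := by
    have b1 : (1 : ℝ) ≤ x ^ 242 * (1 + Real.log x) := by nlinarith
    nlinarith
  refine a4.trans ?_
  have a5 : (2 * (486 + Cc μ) + 1) * (1 + Real.log x) ≤ (1 - vb) / 2 * x ^ 2 := by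
    have : (1 - vb) / 2 * x ≤ (1 - vb) / 2 * x ^ 2 :=
      mul_le_mul_of_nonneg_left (by nlinarith) hvb'.le
    linarith
  calc x ^ 242 * ((2 * (486 + Cc μ) + 1) * (1 + Real.log x)) ≤
      x ^ 242 * ((1 - vb) / 2 * x ^ 2) := mul_le_mul_of_nonneg_left a5 (by positivity)
    _ = (1 - vb) / 2 * x ^ 244 := by ring

/-- Proof. `2 (Λ + |h| + r) ≤ 3 r` for large `r`. -/
lemma bd7 (μ : Measure ℝ) (h : ℝ) :
    ∀ᶠ r : ℕ in atTop, 2 * (((r ^ 484 : ℕ) : ℝ) * (Lam μ h + |h| + (r : ℝ))) ≤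
      ((3 * r ^ 485 : ℕ) : ℝ) := by
  filter_upwards [ev_const (2 * (Lam μ h + |h|)) (show (0 : ℝ) < 1 by norm_num), ParD_one_le]
    with r hc hx
  push_cast
  generalize (r : ℝ) = x at *
  have h0 : 0 ≤ x ^ 484 := by positivity
  have e1 : 3 * x ^ 485 = x ^ 484 * (3 * x) := by ring
  rw [e1]
  nlinarith

/-- **Defect at small scales.** Proof. Choose `vb` by `slope_unif`, `ε = (1 - vb)/16`, and `r` large
(`pr_ok`, `bd1`–`bd7`, `r ≥ 2`). If `D < r^{-24000}` apply `mainQ` with `P = pr (kmin μ p q) vb r`,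
`A = r`, `m = 1212`, `B = r^{484}`, `M₀ = K' = r`, `Yn = 3 r^{485}`, `δ = r^{-240}` (`hρ`:
`vb < (1 + vb)/2`): `δ (1 - vb) ≤ δ (1 - v) ≤ 5 ε δ`, contradiction. -/
theorem defect_small (hμ : EM μ) {p q : ℝ} (hpq : p < q) (hk : 0 < kmin μ p q) (h : ℝ) :
    ∀ᶠ r : ℕ in atTop, ∀ v D : ℝ, NA μ h ((r : ℝ) ^ 240)⁻¹ v D → ((r : ℝ) ^ 24000)⁻¹ ≤ D := by
  obtain ⟨vb, hvb0, hvb, hsl⟩ := slope_unif hμ h
  have hε : 0 < (1 - vb) / 16 := by linarith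
  filter_upwards [pr_ok (μ := μ) hk hvb0 hvb, bd1 (μ := μ) h hk hvb hε, bd2 (μ := μ) h hε,
    bd3 (μ := μ) hμ h hvb hε, bd4 (μ := μ) hμ hε, bd5 (kmin μ p q) vb hε, bd6 (μ := μ) hvb,
    bd7 μ h, eventually_ge_atTop 4] with r hok h1 h2 h3 h4 h5 h6 h7 hr v D hA
  by_contra hcon
  push Not at hcon
  have hD0 := hA.D0
  have hD := hcon.le
  have hv := hsl _ v D hA
  have hv' := abs_le.1 hv
  have hr1 : 1 ≤ r := by omega
  have hx : (4 : ℝ) ≤ (r : ℝ) := by exact_mod_cast hr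
  have hT : 4 ≤ (pr (kmin μ p q) vb r).T₁ := by
    change 4 ≤ r ^ 7754
    calc 4 ≤ r := hr
      _ = r ^ 1 := (pow_one r).symm
      _ ≤ r ^ 7754 := Nat.pow_le_pow_right hr1 (by norm_num)
  have hρ : vb < (pr (kmin μ p q) vb r).ρ := by
    change vb < (1 + vb) / 2
    linarith
  have hY1 : 1 ≤ 3 * r ^ 485 := by
    have := Nat.one_le_pow 485 r hr1
    omega
  have key := mainQ (P := pr (kmin μ p q) vb r) hμ hpq hk hok hT hA hv hvb hρ
    (A := (r : ℝ)) (by linarith) 1212 (B := r ^ 484) (Nat.one_le_pow _ _ hr1) (h6 v D hv hD0 hD)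
    (M₀ := (r : ℝ)) (K' := (r : ℝ)) (by linarith) (Yn := 3 * r ^ 485) hY1 (h7)
  have g1 := h1 D hD0 hD
  have g3 := h3 v hv
  have g5 := h5 D hD0 hD
  unfold BdQ at key
  have hδ : 0 < ((r : ℝ) ^ 240)⁻¹ := by positivity
  have key2 : ((r : ℝ) ^ 240)⁻¹ * (1 - v) ≤ 5 * ((1 - vb) / 16 * ((r : ℝ) ^ 240)⁻¹) := by
    rw [mul_add] at key
    linarith
  have key3 : ((r : ℝ) ^ 240)⁻¹ * (1 - vb) ≤ ((r : ℝ) ^ 240)⁻¹ * (1 - v) :=
    mul_le_mul_of_nonneg_left (by linarith) hδ.le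
  nlinarith

end

end Pool.Agent.W_7d29a1_h47
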