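import Pool.Agent.W_7d29a1_h47q.StripA
import Pool.Agent.W_7d29a1_h47q.TwoB

/-!
# Strips: the gap between neighbouring strips
-/

namespace Pool.Agent.W_7d29a1_h47

open MeasureTheory ProbabilityTheory Finset

noncomputable section

variable {μ : Measure ℝ} [IsProbabilityMeasure μ]

open Classical in
/-- The sites of the strip of width `W` to the right of `b`. -/
def strD (b : ℕ → ℤ) (t ℓ W : ℕ) : Finset (ℕ × ℤ) :=
  (range ℓ).biUnion fun j => (Icc (b (t + j + 1) + 1) (b (t + j + 1) + W)).image fun y => (t + j, y)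

/-- Proof. The union is disjoint (different times), every set has `W` elements. Only `≤` is
needed: `Finset.card_biUnion_le`, `Finset.card_image_le`, `Int.card_Icc`. -/
lemma card_strD_le (b : ℕ → ℤ) (t ℓ W : ℕ) : (strD b t ℓ W).card ≤ ℓ * W := by
  classical
  unfold strD
  refine Finset.card_biUnion_le.trans ?_
  calc ∑ j ∈ range ℓ, ((Icc (b (t + j + 1) + 1) (b (t + j + 1) + W)).image
        fun y => ((t + j, y) : ℕ × ℤ)).card
      ≤ ∑ j ∈ range ℓ, W := Finset.sum_le_sum fun j _ => Finset.card_image_le.trans (by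
          rw [Int.card_Icc]
          omega)
    _ = ℓ * W := by rw [Finset.sum_const, Finset.card_range, smul_eq_mul]

lemma StripB_mem {b : ℕ → ℤ} {t ℓ W : ℕ} {z : ℕ × ℤ} :
    z ∈ strD b t ℓ W ↔ ∃ j < ℓ, b (t + j + 1) + 1 ≤ z.2 ∧ z.2 ≤ b (t + j + 1) + W ∧ z.1 = t + j := by
  classical
  unfold strD
  rw [Finset.mem_biUnion]
  constructor
  · rintro ⟨j, hj, hz⟩
    rw [Finset.mem_image] at hz
    obtain ⟨y, hy, rfl⟩ := hz
    rw [Finset.mem_Icc] at hy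
    exact ⟨j, Finset.mem_range.1 hj, hy.1, hy.2, rfl⟩
  · rintro ⟨j, hj, h1, h2, h3⟩
    exact ⟨j, Finset.mem_range.2 hj, Finset.mem_image.2 ⟨z.2, Finset.mem_Icc.2 ⟨h1, h2⟩,
      Prod.ext h3.symm rfl⟩⟩

/-- A path of the class `0` visits the strip at least `ℓ / 2` times. Proof. The site visited at step `j`
is `(t + j, x + pos r (j + 1))`, in the strip iff `x + pos r (j+1) ≤ b (t+j+1) + W` (the path is to
the right of `b`). So the sum over `z ∈ strD` of `ind (z ∈ WA t ℓ i)` is at least the sum over `j < ℓ` of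
these indicators (the sites for different `j` are different). -/
lemma cls_visits {b : ℕ → ℤ} {t ℓ W : ℕ} {i : ℤ × (ℕ → Bool)} (hi : i ∈ cls b t ℓ W 0) :
    (ℓ : ℝ) / 2 ≤ ∑ z ∈ strD b t ℓ W, ind (z ∈ WA t ℓ i) := by
  classical
  obtain ⟨-, -, -, hr, -, hs⟩ := mem_cls.1 hi
  refine hs.trans ?_
  set F := (range ℓ).filter fun j => i.1 + pos i.2 (j + 1) ≤ b (t + j + 1) + 0 + W with hF
  have h1 : ∑ j ∈ range ℓ, ind (i.1 + pos i.2 (j + 1) ≤ b (t + j + 1) + 0 + W) =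
      ∑ j ∈ F, (1 : ℝ) := by
    rw [hF, Finset.sum_filter]
    refine Finset.sum_congr rfl fun j _ => ?_
    by_cases h : i.1 + pos i.2 (j + 1) ≤ b (t + j + 1) + 0 + W
    · rw [ind_true h, if_pos h]
    · rw [ind_false h, if_neg h]
  have hinj : Set.InjOn (fun j : ℕ => ((t + j, i.1 + pos i.2 (j + 1)) : ℕ × ℤ)) F := by
    intro j _ j' _ h
    have := congrArg Prod.fst h
    simp only at this
    omega
  have h2 : ∑ j ∈ F, (1 : ℝ) =
      ∑ z ∈ F.image (fun j : ℕ => ((t + j, i.1 + pos i.2 (j + 1)) : ℕ × ℤ)),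
        ind (z ∈ WA t ℓ i) := by
    rw [Finset.sum_image hinj]
    refine Finset.sum_congr rfl fun j hj => ?_
    rw [ind_true]
    exact mem_WA.2 ⟨j, Finset.mem_range.1 (Finset.mem_filter.1 hj).1, rfl⟩
  rw [h1, h2]
  refine Finset.sum_le_sum_of_subset_of_nonneg ?_ fun _ _ _ => ind_nonneg _
  intro z hz
  obtain ⟨j, hj, rfl⟩ := Finset.mem_image.1 hz
  obtain ⟨hj1, hj2⟩ := Finset.mem_filter.1 hj
  have hj3 := Finset.mem_range.1 hj1
  have h3 : b (t + j + 1) + 0 < i.1 + pos i.2 (j + 1) := hr (j + 1) hj3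
  refine StripB_mem.2 ⟨j, hj3, ?_, ?_, rfl⟩
  · simp only
    omega
  · simp only
    omega

/-- A path of the class `M ≥ W` does not visit it. -/
lemma cls_disjoint {b : ℕ → ℤ} {t ℓ W : ℕ} {M : ℤ} (hM : (W : ℤ) ≤ M) {i : ℤ × (ℕ → Bool)}
    (hi : i ∈ cls b t ℓ W M) : Disjoint (WA t ℓ i) (strD b t ℓ W) := by
  classical
  obtain ⟨-, -, -, hr, -, -⟩ := mem_cls.1 hi
  rw [Finset.disjoint_left]
  intro z hz hz'
  obtain ⟨j, hj, rfl⟩ := mem_WA.1 hz
  obtain ⟨j', hj', -, h2, h3⟩ := StripB_mem.1 hz'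
  simp only at h2 h3
  have h4 : j = j' := by omega
  subst h4
  have h5 : b (t + j + 1) + M < i.1 + pos i.2 (j + 1) := hr (j + 1) hj
  omega

/-- Proof. `two_class` with `D = strD`, `c = 1`, `d = 1`, `b = 0`, `m = ℓ/2`; `YY_eq`, `cls_visits`,
`cls_disjoint`, `card_strD_le`, `cls_nonempty`; then
`kmin (ℓ/2) P ≤ K √(ℓ W) ≤ kmin ℓ / 8`, so `P ≤ 1/4`. -/
lemma strip_anti (hμ : EM μ) {p q : ℝ} (hpq : p < q) (hk : 0 < kmin μ p q) {b : ℕ → ℤ} {t ℓ W : ℕ}
    (hb : IsW t b) (hℓ : 1 ≤ ℓ) (hW : 2 ≤ W) {M : ℤ} (hM : (W : ℤ) ≤ M) {K : ℝ} (hK : 2 ≤ K)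
    (hKℓ : K * Real.sqrt (ℓ * W) ≤ kmin μ p q * ℓ / 8) :
    (law μ).real {g | |YY b t ℓ W 0 g - YY b t ℓ W M g| ≤ K / 2} ≤ 1 / 4 := by
  have hc : Adms (cls b t ℓ W 0) (fun _ => (1 : ℝ)) := by
    obtain ⟨i, hi⟩ := cls_nonempty hb ℓ hW 0
    exact ⟨fun _ _ => zero_le_one, i, hi, zero_lt_one⟩
  have h1 := two_class hμ hpq hk.le hc (WA t ℓ) (J := cls b t ℓ W M) (d := fun _ => (1 : ℝ))
    (WA t ℓ) (D := strD b t ℓ W) (m := (ℓ : ℝ) / 2) (fun i hi => cls_visits hi)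
    (fun j hj => cls_disjoint hM hj) (b := fun _ => 0) measurable_const
    (fun _ _ _ => rfl) hK
  have h2 : {g | |dU (cls b t ℓ W 0) (fun _ => (1 : ℝ)) (WA t ℓ) (cls b t ℓ W M)
      (fun _ => (1 : ℝ)) (WA t ℓ) (fun _ => 0) g| ≤ K / 2} =
      {g | |YY b t ℓ W 0 g - YY b t ℓ W M g| ≤ K / 2} := by
    ext g
    simp only [Set.mem_ofPred_eq]
    unfold dU
    rw [YY_eq, YY_eq, sub_zero]
  rw [h2] at h1
  have h3 : Real.sqrt ((strD b t ℓ W).card : ℝ) ≤ Real.sqrt (ℓ * W) := by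
    apply Real.sqrt_le_sqrt
    exact_mod_cast card_strD_le b t ℓ W
  have h4 : K * Real.sqrt ((strD b t ℓ W).card : ℝ) ≤ kmin μ p q * ℓ / 8 :=
    (mul_le_mul_of_nonneg_left h3 (by linarith)).trans hKℓ
  have hℓ0 : (0 : ℝ) < ℓ := by exact_mod_cast hℓ
  have hkl : 0 < kmin μ p q * ℓ := mul_pos hk hℓ0
  have h5 := h1.trans h4
  set P := (law μ).real {g | |YY b t ℓ W 0 g - YY b t ℓ W M g| ≤ K / 2}
  have h6 : kmin μ p q * ℓ * (P / 2) ≤ kmin μ p q * ℓ * (1 / 8) := by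
    have e1 : kmin μ p q * (ℓ / 2) * P = kmin μ p q * ℓ * (P / 2) := by ring
    have e2 : kmin μ p q * ℓ / 8 = kmin μ p q * ℓ * (1 / 8) := by ring
    rw [← e1, ← e2]
    exact h5
  have h7 := le_of_mul_le_mul_left h6 hkl
  linarith

/-- **One of the two neighbouring strips is better with probability `≥ 3/8`.** Proof. Let
`a = P(Y_M - Y_0 ≥ K/2)` and `a' = P(Y_0 - Y_M ≥ K/2)`. By `strip_anti` `a + a' ≥ 3/4`. By
`YY_shift` with `o = -M` and stationarity (`mp_shiftEnv 0 M`) `a' = P(Y_{-M} - Y_0 ≥ K/2)`: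
`(Y_0, Y_M)(g') = (Y_{-M}, Y_0)(…)`, i.e. `Y_0 g = Y_{-M} (shiftEnv 0 M g)` and
`Y_M g = Y_0 (shiftEnv 0 M g)`. The event contains both, so its probability is `≥ max a a' ≥ 3/8`. -/
theorem strip_gap (hμ : EM μ) {p q : ℝ} (hpq : p < q) (hk : 0 < kmin μ p q) {b : ℕ → ℤ} {t ℓ W : ℕ}
    (hb : IsW t b) (hℓ : 1 ≤ ℓ) (hW : 2 ≤ W) {M : ℤ} (hM : (W : ℤ) ≤ M) {K : ℝ} (hK : 2 ≤ K)
    (hKℓ : K * Real.sqrt (ℓ * W) ≤ kmin μ p q * ℓ / 8) :
    3 / 8 ≤ (law μ).real {g | K / 2 ≤ max (YY b t ℓ W M g) (YY b t ℓ W (-M) g) -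
      YY b t ℓ W 0 g} := by
  set E := {g : Env | K / 2 ≤ max (YY b t ℓ W M g) (YY b t ℓ W (-M) g) - YY b t ℓ W 0 g} with hE
  have h0 := strip_anti hμ hpq hk hb hℓ hW hM hK hKℓ
  -- the two one-sided events
  have h1 : (law μ).real {g : Env | K / 2 ≤ YY b t ℓ W M g - YY b t ℓ W 0 g} ≤ (law μ).real E := by
    apply measureReal_mono _ (measure_ne_top _ _)
    intro g hg
    rw [hE]
    simp only [Set.mem_ofPred_eq] at hg ⊢
    linarith [le_max_left (YY b t ℓ W M g) (YY b t ℓ W (-M) g)]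
  have h2 : (law μ).real {g : Env | K / 2 ≤ YY b t ℓ W (-M) g - YY b t ℓ W 0 g} ≤
      (law μ).real E := by
    apply measureReal_mono _ (measure_ne_top _ _)
    intro g hg
    rw [hE]
    simp only [Set.mem_ofPred_eq] at hg ⊢
    linarith [le_max_right (YY b t ℓ W M g) (YY b t ℓ W (-M) g)]
  have h3 : (law μ).real {g : Env | K / 2 ≤ YY b t ℓ W 0 g - YY b t ℓ W M g} =
      (law μ).real {g : Env | K / 2 ≤ YY b t ℓ W (-M) g - YY b t ℓ W 0 g} := by
    have hm : MeasurableSet {g : Env | K / 2 ≤ YY b t ℓ W (-M) g - YY b t ℓ W 0 g} :=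
      measurableSet_le measurable_const
        ((measurable_YY b t ℓ W (-M)).sub (measurable_YY b t ℓ W 0))
    have h4 := (mp_shiftEnv (μ := μ) 0 M).measure_preimage hm.nullMeasurableSet
    have h5 : shiftEnv 0 M ⁻¹' {g : Env | K / 2 ≤ YY b t ℓ W (-M) g - YY b t ℓ W 0 g} =
        {g : Env | K / 2 ≤ YY b t ℓ W 0 g - YY b t ℓ W M g} := by
      ext g
      simp only [Set.mem_preimage, Set.mem_ofPred_eq]
      rw [← YY_shift, ← YY_shift, neg_add_cancel, zero_add]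
    rw [h5] at h4
    unfold Measure.real
    rw [h4]
  have h4 : (1 : ℝ) ≤ (law μ).real {g | |YY b t ℓ W 0 g - YY b t ℓ W M g| ≤ K / 2} +
      ((law μ).real {g : Env | K / 2 ≤ YY b t ℓ W M g - YY b t ℓ W 0 g} +
        (law μ).real {g : Env | K / 2 ≤ YY b t ℓ W 0 g - YY b t ℓ W M g}) := by
    have h5 : (Set.univ : Set Env) ⊆ {g | |YY b t ℓ W 0 g - YY b t ℓ W M g| ≤ K / 2} ∪
        ({g : Env | K / 2 ≤ YY b t ℓ W M g - YY b t ℓ W 0 g} ∪
          {g : Env | K / 2 ≤ YY b t ℓ W 0 g - YY b t ℓ W M g}) := by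
      intro g _
      simp only [Set.mem_union, Set.mem_ofPred_eq]
      by_cases ha : |YY b t ℓ W 0 g - YY b t ℓ W M g| ≤ K / 2
      · exact Or.inl ha
      · right
        rw [not_le] at ha
        rcases lt_abs.1 ha with h | h
        · right
          linarith
        · left
          linarith
    have h6 := measureReal_mono (μ := law μ) h5 (measure_ne_top _ _)
    have h7 : (law μ).real (Set.univ : Set Env) = 1 := by simp
    rw [h7] at h6
    exact h6.trans ((measureReal_union_le _ _).trans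
      (add_le_add le_rfl (measureReal_union_le _ _)))
  linarith

end

end Pool.Agent.W_7d29a1_h47
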