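import Pool.Agent.W_7d29a1_h47q.StripA
import Pool.Agent.W_7d29a1_h47q.NoiseB
import Pool.Agent.W_7d29a1_h47.Surg

/-!
# Surgery in one block
-/

namespace Pool.Agent.W_7d29a1_h47

open MeasureTheory ProbabilityTheory Finset

noncomputable section

variable {P : Prm} {b : ℕ → ℤ} {t : ℕ}

/-- Three pieces. Proof. `sum_split` twice. -/
lemma sum_three (L ℓ : ℕ) (F : (ℕ → Bool) → ℝ) :
    ∑ r ∈ T (L + ℓ + L), F r =
      ∑ r₁ ∈ T L, ∑ r₂ ∈ T ℓ, ∑ r₃ ∈ T L, F (glue (L + ℓ) (glue L r₁ r₂) r₃) := by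
  rw [sum_split (L + ℓ) L F, sum_split L ℓ (fun s => ∑ r ∈ T L, F (glue (L + ℓ) s r))]

/-- Weight of a glued path in terms of the energies of the pieces. Proof. `wt` is
`exp (En + h pos)`; `En_glue` twice, `pos_glue_add`. -/
lemma wt_three (g : Env) (h : ℝ) (t : ℕ) (x : ℤ) (L ℓ : ℕ) (r₁ r₂ r₃ : ℕ → Bool) :
    wt g h t x (L + ℓ + L) (glue (L + ℓ) (glue L r₁ r₂) r₃) =
      Real.exp (h * (pos (glue (L + ℓ) (glue L r₁ r₂) r₃) (L + ℓ + L) : ℝ)) *
      (Real.exp (En g t x L r₁) * Real.exp (En g (t + L) (x + pos r₁ L) ℓ r₂) *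
        Real.exp (En g (t + L + ℓ) (x + pos r₁ L + pos r₂ ℓ) L r₃)) := by
  unfold wt
  rw [Real.exp_add, En_glue g t x (L + ℓ) L, En_glue g t x L ℓ, pos_glue_add L ℓ r₁ r₂,
    Real.exp_add, Real.exp_add, mul_comm]
  rw [← add_assoc t L ℓ, ← add_assoc x]

/-- Growth and parity of a base trajectory. -/
lemma SurgB_b (hb : IsW t b) {s : ℕ} (hs : t ≤ s) (m : ℕ) :
    |b (s + m) - b s| ≤ m ∧ (b (s + m) - b s - m) % 2 = 0 := by
  induction m with
  | zero => simp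
  | succ m ih =>
    obtain ⟨h1, h2⟩ := ih
    have h3 := hb (s + m) (by omega)
    rw [show s + m + 1 = s + (m + 1) by ring] at h3
    obtain ⟨h4, h5⟩ := abs_le.1 h1
    have h6 : b (s + (m + 1)) - b (s + m) = 1 ∨ b (s + (m + 1)) - b (s + m) = -1 :=
      (abs_eq (by norm_num : (0 : ℤ) ≤ 1)).1 h3
    rw [abs_le]
    push_cast
    rcases h6 with h6 | h6
    · refine ⟨⟨by omega, by omega⟩, by omega⟩
    · refine ⟨⟨by omega, by omega⟩, by omega⟩

lemma SurgB_p1 {L ℓ j : ℕ} (hj : j ≤ L) (r₁ r₂ r₃ : ℕ → Bool) :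
    pos (glue (L + ℓ) (glue L r₁ r₂) r₃) j = pos r₁ j := by
  rw [pos_glue_le (by omega), pos_glue_le hj]

lemma SurgB_p2 {L ℓ j : ℕ} (hj : j ≤ ℓ) (r₁ r₂ r₃ : ℕ → Bool) :
    pos (glue (L + ℓ) (glue L r₁ r₂) r₃) (L + j) = pos r₁ L + pos r₂ j := by
  rw [pos_glue_le (by omega), pos_glue_add]

lemma SurgB_p3 (L ℓ j : ℕ) (r₁ r₂ r₃ : ℕ → Bool) :
    pos (glue (L + ℓ) (glue L r₁ r₂) r₃) (L + ℓ + j) = pos r₁ L + pos r₂ ℓ + pos r₃ j := by
  rw [pos_glue_add, pos_glue_add]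

/-- The middle piece of a good block is in the class `0`. Proof. Definitions (`goodB` for the glued path,
`pos_glue_le`, `pos_glue_add`); parity: `x + pos r₁ L - b (t + L)` is even because `x - b t` is,
`pos_parity`, and `b (t + L) - b t` has the parity of `L` (`IsW`). -/
lemma good_mid (hb : IsW t b) {x : ℤ} {r₁ r₂ r₃ : ℕ → Bool} (h1 : r₁ ∈ T P.L) (h2 : r₂ ∈ T P.ℓ)
    (hg : goodB P b t x (glue (P.L + P.ℓ) (glue P.L r₁ r₂) r₃)) :
    (x + pos r₁ P.L, r₂) ∈ cls b (t + P.L) P.ℓ (4 * P.w) 0 := by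
  obtain ⟨g1, g2, g3, g4, g5, -, -⟩ := hg
  have hbL := SurgB_b hb le_rfl P.L
  have hp1 := pos_parity r₁ P.L
  rw [SurgB_p1 le_rfl] at g3
  rw [SurgB_p2 le_rfl] at g4
  rw [mem_cls]
  have g2' : ∀ j ≤ P.ℓ, b (t + P.L + j) < x + (pos r₁ P.L + pos r₂ j) := by
    intro j hj
    have h := g2 (P.L + j) (by unfold Prm.TB; omega)
    rw [SurgB_p2 hj] at h
    rwa [add_assoc t]
  have g20 := g2' 0 (Nat.zero_le _)
  rw [pos_zero, add_zero, add_zero] at g20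
  refine ⟨⟨?_, ?_⟩, h2, ?_, ?_, ?_, ?_⟩
  · show b (t + P.L) + 0 + 1 ≤ x + pos r₁ P.L
    omega
  · show x + pos r₁ P.L ≤ b (t + P.L) + 0 + ((4 * P.w : ℕ) : ℤ)
    push_cast
    omega
  · show (x + pos r₁ P.L - (b (t + P.L) + 0)) % 2 = 0
    have := hbL.2
    omega
  · intro j hj
    show b (t + P.L + j) + 0 < x + pos r₁ P.L + pos r₂ j
    have := g2' j hj
    omega
  · show x + pos r₁ P.L + pos r₂ P.ℓ ≤ b (t + P.L + P.ℓ) + 0 + ((4 * P.w : ℕ) : ℤ)
    push_cast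
    omega
  · refine g5.trans (Finset.sum_le_sum fun j hj => ?_)
    have hj' := Finset.mem_range.1 hj
    apply ind_mono
    intro h
    rw [show P.L + j + 1 = P.L + (j + 1) by ring, SurgB_p2 (by omega)] at h
    show x + pos r₁ P.L + pos r₂ (j + 1) ≤ b (t + P.L + j + 1) + 0 + ((4 * P.w : ℕ) : ℤ)
    push_cast
    omega

/-- Where a good path is. -/
lemma SurgB_loc (hb : IsW t b) (hL : 8 * P.w ≤ P.L) {x : ℤ} {r : ℕ → Bool}
    (hg : goodB P b t x r) :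
    |x - b t| ≤ ((3 * P.L : ℕ) : ℤ) ∧
      (b (t + P.L) < x + pos r P.L ∧ x + pos r P.L ≤ b (t + P.L) + 4 * P.w) ∧
      (b (t + P.L + P.ℓ) < x + pos r (P.L + P.ℓ) ∧
        x + pos r (P.L + P.ℓ) ≤ b (t + P.L + P.ℓ) + 4 * P.w) := by
  obtain ⟨g1, g2, g3, g4, g5, -, -⟩ := hg
  have h0 := g2 0 (Nat.zero_le _)
  have h1 := g2 P.L (by unfold Prm.TB; omega)
  have h2 := g2 (P.L + P.ℓ) (by unfold Prm.TB; omega)
  rw [add_zero, pos_zero, add_zero] at h0
  rw [← add_assoc] at h2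
  have hbL := (abs_le.1 (SurgB_b hb le_rfl P.L).1)
  have hp := abs_le.1 (pos_abs_le r P.L)
  refine ⟨?_, ⟨h1, g3⟩, ⟨h2, g4⟩⟩
  rw [abs_le]
  push_cast
  constructor
  · omega
  · omega

lemma SurgB_sum {L : ℕ} (C : Finset (ℤ × (ℕ → Bool))) (x' : ℤ) (f : ℤ × (ℕ → Bool) → ℝ)
    (hf : ∀ i, 0 ≤ f i) :
    ∑ r ∈ T L, ind ((x', r) ∈ C) * f (x', r) ≤ ∑ i ∈ C, f i := by
  classical
  have h1 : ∑ r ∈ T L, ind ((x', r) ∈ C) * f (x', r) =
      ∑ r ∈ (T L).filter (fun r => (x', r) ∈ C), f (x', r) := by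
    rw [Finset.sum_filter]
    refine Finset.sum_congr rfl fun r _ => ?_
    by_cases h : (x', r) ∈ C
    · rw [if_pos h, ind_true h, one_mul]
    · rw [if_neg h, ind_false h, zero_mul]
  have h2 : ∑ i ∈ ((T L).filter (fun r => (x', r) ∈ C)).image (fun r => (x', r)), f i =
      ∑ r ∈ (T L).filter (fun r => (x', r) ∈ C), f (x', r) :=
    Finset.sum_image fun a _ b _ hab => (Prod.mk.inj hab).2
  rw [h1, ← h2]
  refine Finset.sum_le_sum_of_subset_of_nonneg ?_ fun i _ _ => hf i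
  intro i hi
  obtain ⟨r, hr, rfl⟩ := Finset.mem_image.1 hi
  exact (Finset.mem_filter.1 hr).2

/-- **Upper bound.** Proof. `sum_three`, `wt_three`. For a good block `|x - b t| ≤ 3L` and
`|x + pos r₁ L + pos r₂ ℓ - b (t+L+ℓ)| ≤ 4w ≤ 3 L` (`hL`: `8 w ≤ L`; from `x + pos r₁ L` within `4w` of
`b (t + L)`, `|pos r₁ L| ≤ L`, `|b (t+L) - b t| ≤ L`), so by `En_le_nn` the first and last factor are
`≤ e^{nn}`. For fixed `r₁, r₃` the sum over `r₂` is at most `∑_{i ∈ cls} e^{En}` (`good_mid`; the map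
`r₂ ↦ (x + pos r₁ L, r₂)` is injective). There are `2^L * 2^L` pairs `(r₁, r₃)` (`card_T`). The factor
`e^{h pos}` is `e^{h (y - x)}` for paths that end in `y`. -/
lemma block_upper (hb : IsW t b) (hw : 1 ≤ P.w) (hL : 8 * P.w ≤ P.L) (g : Env) (h : ℝ) (x y : ℤ) :
    ∑ r ∈ T P.TB, ind (x + pos r P.TB = y) * ind (goodB P b t x r) * wt g h t x P.TB r ≤
      Real.exp (h * ((y : ℝ) - x)) * ((2 : ℝ) ^ P.L * 2 ^ P.L *
        Real.exp (nn b t P.L (3 * P.L) g + nn b (t + P.L + P.ℓ) P.L (3 * P.L) g) *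
        ∑ i ∈ cls b (t + P.L) P.ℓ (4 * P.w) 0, Real.exp (En g (t + P.L) i.1 P.ℓ i.2)) := by
  obtain ⟨N, hN⟩ : ∃ N : ℝ, N = nn b t P.L (3 * P.L) g +
    nn b (t + P.L + P.ℓ) P.L (3 * P.L) g := ⟨_, rfl⟩
  obtain ⟨S, hS⟩ : ∃ S : ℝ, S = ∑ i ∈ cls b (t + P.L) P.ℓ (4 * P.w) 0,
    Real.exp (En g (t + P.L) i.1 P.ℓ i.2) := ⟨_, rfl⟩
  rw [← hN, ← hS]
  unfold Prm.TB
  rw [sum_three]
  have key : ∀ r₁ ∈ T P.L, ∀ r₂ ∈ T P.ℓ, ∀ r₃ ∈ T P.L,
      ind (x + pos (glue (P.L + P.ℓ) (glue P.L r₁ r₂) r₃) (P.L + P.ℓ + P.L) = y) *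
        ind (goodB P b t x (glue (P.L + P.ℓ) (glue P.L r₁ r₂) r₃)) *
        wt g h t x (P.L + P.ℓ + P.L) (glue (P.L + P.ℓ) (glue P.L r₁ r₂) r₃) ≤
      Real.exp (h * ((y : ℝ) - x)) * Real.exp N *
        (ind ((x + pos r₁ P.L, r₂) ∈ cls b (t + P.L) P.ℓ (4 * P.w) 0) *
          Real.exp (En g (t + P.L) (x + pos r₁ P.L) P.ℓ r₂)) := by
    intro r₁ hr₁ r₂ hr₂ r₃ hr₃
    have h0 : 0 ≤ Real.exp (h * ((y : ℝ) - x)) * Real.exp N *
        (ind ((x + pos r₁ P.L, r₂) ∈ cls b (t + P.L) P.ℓ (4 * P.w) 0) *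
          Real.exp (En g (t + P.L) (x + pos r₁ P.L) P.ℓ r₂)) :=
      mul_nonneg (by positivity) (mul_nonneg (ind_nonneg _) (Real.exp_pos _).le)
    by_cases hy : x + pos (glue (P.L + P.ℓ) (glue P.L r₁ r₂) r₃) (P.L + P.ℓ + P.L) = y
    · by_cases hg : goodB P b t x (glue (P.L + P.ℓ) (glue P.L r₁ r₂) r₃)
      · rw [ind_true hy, ind_true hg, ind_true (good_mid hb hr₁ hr₂ hg), one_mul, one_mul, one_mul,
          wt_three]
        obtain ⟨l1, -, l3⟩ := SurgB_loc hb hL hg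
        rw [SurgB_p2 le_rfl] at l3
        have e1 := (abs_le.1 (En_le_nn l1 hr₁ g)).2
        have l4 : |x + pos r₁ P.L + pos r₂ P.ℓ - b (t + P.L + P.ℓ)| ≤ ((3 * P.L : ℕ) : ℤ) := by
          rw [abs_le]
          push_cast
          constructor <;> omega
        have e3 := (abs_le.1 (En_le_nn l4 hr₃ g)).2
        have hyx : (pos (glue (P.L + P.ℓ) (glue P.L r₁ r₂) r₃) (P.L + P.ℓ + P.L) : ℝ) =
            (y : ℝ) - x := by
          rw [← hy]
          push_cast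
          ring
        rw [hyx, mul_assoc (Real.exp (h * ((y : ℝ) - x)))]
        refine mul_le_mul_of_nonneg_left ?_ (Real.exp_pos _).le
        rw [← Real.exp_add, ← Real.exp_add, ← Real.exp_add]
        apply Real.exp_le_exp.2
        rw [hN]
        linarith
      · rw [ind_false hg, mul_zero, zero_mul]
        exact h0
    · rw [ind_false hy, zero_mul, zero_mul]
      exact h0
  have h1 : ∀ r₁ ∈ T P.L, ∑ r₂ ∈ T P.ℓ, ∑ r₃ ∈ T P.L,
      ind (x + pos (glue (P.L + P.ℓ) (glue P.L r₁ r₂) r₃) (P.L + P.ℓ + P.L) = y) *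
        ind (goodB P b t x (glue (P.L + P.ℓ) (glue P.L r₁ r₂) r₃)) *
        wt g h t x (P.L + P.ℓ + P.L) (glue (P.L + P.ℓ) (glue P.L r₁ r₂) r₃) ≤
      (2 : ℝ) ^ P.L * (Real.exp (h * ((y : ℝ) - x)) * Real.exp N * S) := by
    intro r₁ hr₁
    calc _ ≤ ∑ r₂ ∈ T P.ℓ, ∑ _r₃ ∈ T P.L, Real.exp (h * ((y : ℝ) - x)) * Real.exp N *
          (ind ((x + pos r₁ P.L, r₂) ∈ cls b (t + P.L) P.ℓ (4 * P.w) 0) *
            Real.exp (En g (t + P.L) (x + pos r₁ P.L) P.ℓ r₂)) :=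
          Finset.sum_le_sum fun r₂ hr₂ => Finset.sum_le_sum fun r₃ hr₃ =>
            key r₁ hr₁ r₂ hr₂ r₃ hr₃
      _ = (2 : ℝ) ^ P.L * (Real.exp (h * ((y : ℝ) - x)) * Real.exp N *
          ∑ r₂ ∈ T P.ℓ, (ind ((x + pos r₁ P.L, r₂) ∈ cls b (t + P.L) P.ℓ (4 * P.w) 0) *
            Real.exp (En g (t + P.L) (x + pos r₁ P.L) P.ℓ r₂))) := by
          rw [Finset.mul_sum, Finset.mul_sum]
          refine Finset.sum_congr rfl fun r₂ _ => ?_
          rw [Finset.sum_const, card_T, nsmul_eq_mul]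
          push_cast
          rfl
      _ ≤ (2 : ℝ) ^ P.L * (Real.exp (h * ((y : ℝ) - x)) * Real.exp N * S) := by
          refine mul_le_mul_of_nonneg_left (mul_le_mul_of_nonneg_left ?_ (by positivity))
            (by positivity)
          rw [hS]
          exact SurgB_sum (cls b (t + P.L) P.ℓ (4 * P.w) 0) (x + pos r₁ P.L)
            (fun i => Real.exp (En g (t + P.L) i.1 P.ℓ i.2)) (fun i => (Real.exp_pos _).le)
  refine (Finset.sum_le_sum h1).trans (le_of_eq ?_)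
  rw [Finset.sum_const, card_T, nsmul_eq_mul]
  push_cast
  ring

/-- **Lower bound.** If there is a good path from `x` to `y` then one can reach every path of the class
`o`, `|o| ≤ 4 w`, from `x` and `y` from its end point. Proof. Let `r` be good, `x' = x + pos r L`,
`y' = x + pos r (L + ℓ)`. For `i ∈ cls … o`: `|i.1 - x| ≤ |i.1 - x'| + |x' - x| ≤ 8w + ρ L ≤ L` with the
right parity (`pos_parity`; `i.1 ≡ b (t+L) + o`, `x' ≡ b (t+L)` mod 2, `o` even), so `exists_path` gives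
`r₁ ∈ T L` from `x` to `i.1`; similarly `r₃ ∈ T L` from `i.1 + pos i.2 ℓ` (within `8w` of `y'`) to `y`.
The energies of `r₁`, `r₃` are `≥ -nn` (`En_le_nn`: `|x - b t| ≤ 3L`, `|i.1 + pos i.2 ℓ - b| ≤ 8w ≤ 3L`).
The map `i ↦ glue (L+ℓ) (glue L r₁ i.2) r₃` is injective on the class (position at time `L` and middle
piece), so `Kp g h t x TB y = ∑_{r, x + pos r = y} wt ≥ ∑_i wt (image)` (`Kp_eq`,
`Finset.sum_le_sum_of_subset_of_nonneg`, `Finset.sum_image`). -/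
lemma block_lower (hb : IsW t b) (hw : 1 ≤ P.w) (hρ0 : 0 ≤ P.ρ)
    (hρL : 8 * (P.w : ℝ) ≤ (1 - P.ρ) * P.L) (g : Env) (h : ℝ) {x y : ℤ} {r : ℕ → Bool}
    (hr : r ∈ T P.TB) (hy : x + pos r P.TB = y) (hg : goodB P b t x r) {o : ℤ}
    (ho : o = 4 * P.w ∨ o = -(4 * P.w)) :
    Real.exp (h * ((y : ℝ) - x)) *
      (Real.exp (-(nn b t P.L (3 * P.L) g + nn b (t + P.L + P.ℓ) P.L (3 * P.L) g)) *
        ∑ i ∈ cls b (t + P.L) P.ℓ (4 * P.w) o, Real.exp (En g (t + P.L) i.1 P.ℓ i.2)) ≤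
      Kp g h t x P.TB y := by
  classical
  obtain ⟨N, hN⟩ : ∃ N : ℝ, N = nn b t P.L (3 * P.L) g +
    nn b (t + P.L + P.ℓ) P.L (3 * P.L) g := ⟨_, rfl⟩
  rw [← hN]
  have hw8 : (8 : ℝ) * P.w ≤ P.L := by
    have : (0 : ℝ) ≤ P.L := Nat.cast_nonneg _
    nlinarith
  have hL : 8 * P.w ≤ P.L := by exact_mod_cast hw8
  obtain ⟨l1, l2, l3⟩ := SurgB_loc hb hL hg
  obtain ⟨g1, g2, g3, g4, g5, g6, g7⟩ := hg
  have hbL := (SurgB_b hb le_rfl P.L).2
  have hbℓ := (SurgB_b hb (show t ≤ t + P.L by omega) P.ℓ).2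
  have hpL := pos_parity r P.L
  have hpLℓ := pos_parity r (P.L + P.ℓ)
  have hpTB := pos_parity r (P.L + P.ℓ + P.L)
  have hy' : x + pos r (P.L + P.ℓ + P.L) = y := hy
  have hex : ∀ i ∈ cls b (t + P.L) P.ℓ (4 * P.w) o, ∃ q : (ℕ → Bool) × (ℕ → Bool),
      q.1 ∈ T P.L ∧ q.2 ∈ T P.L ∧ pos q.1 P.L = i.1 - x ∧
      pos q.2 P.L = y - (i.1 + pos i.2 P.ℓ) ∧
      |i.1 + pos i.2 P.ℓ - b (t + P.L + P.ℓ)| ≤ ((3 * P.L : ℕ) : ℤ) := by
    intro i hi
    rw [mem_cls] at hi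
    obtain ⟨⟨c1, c2⟩, c3, c4, c5, c6, -⟩ := hi
    have c7 := c5 P.ℓ le_rfl
    have hpi := pos_parity i.2 P.ℓ
    push_cast at c2 c6
    -- integer bounds
    have d1 : |i.1 - (x + pos r P.L)| ≤ 8 * P.w := by
      rw [abs_le]
      rcases ho with ho | ho <;> constructor <;> omega
    have d2 : |(x + pos r (P.L + P.ℓ)) - (i.1 + pos i.2 P.ℓ)| ≤ 8 * P.w := by
      rw [abs_le]
      rcases ho with ho | ho <;> constructor <;> omega
    have d1' : |(i.1 : ℝ) - (x + pos r P.L)| ≤ 8 * P.w := by exact_mod_cast d1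
    have d2' : |((x : ℝ) + pos r (P.L + P.ℓ)) - (i.1 + pos i.2 P.ℓ)| ≤ 8 * P.w := by
      exact_mod_cast d2
    have e1 : |i.1 - x| ≤ (P.L : ℤ) := by
      have : |(i.1 : ℝ) - x| ≤ P.L := by
        obtain ⟨a1, a2⟩ := abs_le.1 d1'
        obtain ⟨a3, a4⟩ := abs_le.1 g6
        rw [abs_le]
        constructor <;> linarith
      exact_mod_cast this
    have e2 : |y - (i.1 + pos i.2 P.ℓ)| ≤ (P.L : ℤ) := by
      have hyr : (y : ℝ) = x + pos r (P.L + P.ℓ + P.L) := by exact_mod_cast hy'.symm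
      have : |(y : ℝ) - (i.1 + pos i.2 P.ℓ)| ≤ P.L := by
        obtain ⟨a1, a2⟩ := abs_le.1 d2'
        obtain ⟨a3, a4⟩ := abs_le.1 g7
        rw [abs_le]
        constructor <;> linarith
      exact_mod_cast this
    push_cast at hpLℓ hpTB
    obtain ⟨q1, hq1, hq1'⟩ := exists_path e1 (by rcases ho with ho | ho <;> omega)
    obtain ⟨q2, hq2, hq2'⟩ := exists_path e2 (by rcases ho with ho | ho <;> omega)
    refine ⟨(q1, q2), hq1, hq2, hq1', hq2', ?_⟩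
    rw [abs_le]
    push_cast
    rcases ho with ho | ho <;> constructor <;> omega
  choose! f hf using hex
  obtain ⟨Φ, hΦ⟩ : ∃ Φ : ℤ × (ℕ → Bool) → (ℕ → Bool), Φ = fun i =>
    glue (P.L + P.ℓ) (glue P.L (f i).1 i.2) (f i).2 := ⟨_, rfl⟩
  have hmem : ∀ i ∈ cls b (t + P.L) P.ℓ (4 * P.w) o, i.2 ∈ T P.ℓ := fun i hi =>
    (mem_cls.1 hi).2.1
  have hinj : ∀ i ∈ cls b (t + P.L) P.ℓ (4 * P.w) o, ∀ j ∈ cls b (t + P.L) P.ℓ (4 * P.w) o,
      Φ i = Φ j → i = j := by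
    intro i hi j hj hij
    rw [hΦ] at hij
    have h1 : glue P.L (f i).1 i.2 = glue P.L (f j).1 j.2 := by
      have := congrArg (cut (P.L + P.ℓ)) hij
      simpa only [cut_glue (glue_mem (hmem i hi)), cut_glue (glue_mem (hmem j hj))] using this
    have h2 : i.2 = j.2 := by
      have := congrArg (shf P.L) h1
      rwa [shf_glue, shf_glue] at this
    have h3 : pos (f i).1 P.L = pos (f j).1 P.L := by
      have := congrArg (fun s => pos s P.L) h1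
      simpa only [pos_glue_le le_rfl] using this
    rw [(hf i hi).2.2.1, (hf j hj).2.2.1] at h3
    exact Prod.ext (by linarith) h2
  have hsub : (cls b (t + P.L) P.ℓ (4 * P.w) o).image Φ ⊆ T P.TB := by
    intro s hs
    obtain ⟨i, hi, rfl⟩ := Finset.mem_image.1 hs
    rw [hΦ]
    exact glue_mem (hf i hi).2.1
  have h1 : ∑ i ∈ cls b (t + P.L) P.ℓ (4 * P.w) o,
      ind (x + pos (Φ i) P.TB = y) * wt g h t x P.TB (Φ i) ≤ Kp g h t x P.TB y := by
    rw [Kp_eq, ← Finset.sum_image (s := cls b (t + P.L) P.ℓ (4 * P.w) o) (g := Φ)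
      (f := fun s => ind (x + pos s P.TB = y) * wt g h t x P.TB s) hinj]
    exact Finset.sum_le_sum_of_subset_of_nonneg hsub fun s _ _ =>
      mul_nonneg (ind_nonneg _) (wt_pos _ _ _ _ _ _).le
  refine le_trans ?_ h1
  rw [← mul_assoc, Finset.mul_sum]
  refine Finset.sum_le_sum fun i hi => ?_
  obtain ⟨k1, k2, k3, k4, k5⟩ := hf i hi
  have hend : pos (Φ i) P.TB = y - x := by
    rw [hΦ]
    show pos (glue (P.L + P.ℓ) (glue P.L (f i).1 i.2) (f i).2) (P.L + P.ℓ + P.L) = y - x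
    rw [SurgB_p3, k3, k4]
    ring
  rw [ind_true (by rw [hend]; ring), one_mul]
  have hwt : wt g h t x P.TB (Φ i) = Real.exp (h * ((y : ℝ) - x)) *
      (Real.exp (En g t x P.L (f i).1) * Real.exp (En g (t + P.L) (x + pos (f i).1 P.L) P.ℓ i.2) *
        Real.exp (En g (t + P.L + P.ℓ) (x + pos (f i).1 P.L + pos i.2 P.ℓ) P.L (f i).2)) := by
    have hw3 := wt_three g h t x P.L P.ℓ (f i).1 i.2 (f i).2
    have hend' : (pos (glue (P.L + P.ℓ) (glue P.L (f i).1 i.2) (f i).2) (P.L + P.ℓ + P.L) : ℝ) =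
        (y : ℝ) - x := by
      have : pos (glue (P.L + P.ℓ) (glue P.L (f i).1 i.2) (f i).2) (P.L + P.ℓ + P.L) = y - x := by
        rw [SurgB_p3, k3, k4]
        ring
      rw [this]
      push_cast
      ring
    rw [hend'] at hw3
    rw [hΦ]
    exact hw3
  rw [hwt]
  have hx1 : x + pos (f i).1 P.L = i.1 := by rw [k3]; ring
  rw [hx1]
  have e1 := (abs_le.1 (En_le_nn l1 k1 g)).1
  have e3 := (abs_le.1 (En_le_nn k5 k2 g)).1
  rw [mul_assoc (Real.exp (h * ((y : ℝ) - x)))]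
  refine mul_le_mul_of_nonneg_left ?_ (Real.exp_pos _).le
  rw [← Real.exp_add, ← Real.exp_add, ← Real.exp_add]
  apply Real.exp_le_exp.2
  rw [hN]
  linarith

/-- **Block inequality.** Proof. If no good path leads from `x` to `y` the left side is `0` and
`Kp ≥ 0`. Otherwise: the left side is `≤ Kp` (`Kp_eq`, `ind ≤ 1`); and for `o = ± 4w` by `block_upper`,
`block_lower` it is at most `4^L e^{2 (nn + nn)} e^{Y_0 - Y_o} Kp` (`YY = log ∑`, `sum_cls_pos`,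
`Real.exp_log`). Both together: `≤ e^{-max 0 (…)} Kp`. -/
theorem block_good (hb : IsW t b) (hw : 1 ≤ P.w) (hρ0 : 0 ≤ P.ρ)
    (hρL : 8 * (P.w : ℝ) ≤ (1 - P.ρ) * P.L) (g : Env) (h : ℝ) (x y : ℤ) :
    ∑ r ∈ T P.TB, ind (x + pos r P.TB = y) * ind (goodB P b t x r) * wt g h t x P.TB r ≤
      Real.exp (-dB P b t g) * Kp g h t x P.TB y := by
  have hKp0 := Kp_nonneg g h t x P.TB y
  have hw8 : (8 : ℝ) * P.w ≤ P.L := by
    have : (0 : ℝ) ≤ P.L := Nat.cast_nonneg _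
    nlinarith
  have hL : 8 * P.w ≤ P.L := by exact_mod_cast hw8
  obtain ⟨Q, hQ⟩ : ∃ Q : ℝ, Q = ∑ r ∈ T P.TB, ind (x + pos r P.TB = y) *
    ind (goodB P b t x r) * wt g h t x P.TB r := ⟨_, rfl⟩
  rw [← hQ]
  by_cases hex : ∃ r ∈ T P.TB, x + pos r P.TB = y ∧ goodB P b t x r
  swap
  · have : Q = 0 := by
      rw [hQ]
      refine Finset.sum_eq_zero fun r hr => ?_
      by_cases h1 : x + pos r P.TB = y
      · rw [ind_false (fun h2 => hex ⟨r, hr, h1, h2⟩), mul_zero, zero_mul]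
      · rw [ind_false h1, zero_mul, zero_mul]
    rw [this]
    exact mul_nonneg (Real.exp_pos _).le hKp0
  obtain ⟨r, hr, hy, hg⟩ := hex
  have h0 : Q ≤ Real.exp (-0) * Kp g h t x P.TB y := by
    rw [neg_zero, Real.exp_zero, one_mul, hQ, Kp_eq]
    refine Finset.sum_le_sum fun s _ => ?_
    refine mul_le_mul_of_nonneg_right ?_ (wt_pos _ _ _ _ _ _).le
    exact mul_le_of_le_one_right (ind_nonneg _) (ind_le_one _)
  have h1 : ∀ o : ℤ, (o = 4 * P.w ∨ o = -(4 * P.w)) →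
      Q ≤ Real.exp (-(YY b (t + P.L) P.ℓ (4 * P.w) o g - YY b (t + P.L) P.ℓ (4 * P.w) 0 g -
        2 * (nn b t P.L (3 * P.L) g + nn b (t + P.L + P.ℓ) P.L (3 * P.L) g) -
        2 * P.L * Real.log 2)) * Kp g h t x P.TB y := by
    intro o ho
    have hup := block_upper hb hw hL g h x y
    have hlo := block_lower hb hw hρ0 hρL g h hr hy hg ho
    rw [← hQ] at hup
    have hW : 2 ≤ 4 * P.w := by omega
    have hS0 := sum_cls_pos (t := t + P.L) (fun s hs => hb s (by omega)) P.ℓ hW 0 g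
    have hSo := sum_cls_pos (t := t + P.L) (fun s hs => hb s (by omega)) P.ℓ hW o g
    unfold YY
    obtain ⟨S0, hS0'⟩ : ∃ S0 : ℝ, S0 = ∑ i ∈ cls b (t + P.L) P.ℓ (4 * P.w) 0,
      Real.exp (En g (t + P.L) i.1 P.ℓ i.2) := ⟨_, rfl⟩
    obtain ⟨So, hSo'⟩ : ∃ So : ℝ, So = ∑ i ∈ cls b (t + P.L) P.ℓ (4 * P.w) o,
      Real.exp (En g (t + P.L) i.1 P.ℓ i.2) := ⟨_, rfl⟩
    obtain ⟨N, hN⟩ : ∃ N : ℝ, N = nn b t P.L (3 * P.L) g +
      nn b (t + P.L + P.ℓ) P.L (3 * P.L) g := ⟨_, rfl⟩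
    rw [← hS0'] at hup hS0 ⊢
    rw [← hSo'] at hlo hSo ⊢
    rw [← hN] at hup hlo ⊢
    have h2L : (2 : ℝ) ^ P.L * 2 ^ P.L = Real.exp (2 * P.L * Real.log 2) := by
      rw [← pow_add, ← two_mul, mul_comm _ (Real.log 2), Real.exp_mul,
        Real.exp_log (by norm_num : (0 : ℝ) < 2)]
      rw [← Real.rpow_natCast]
      push_cast
      rfl
    have h3 : Real.exp (-(Real.log So - Real.log S0 - 2 * N - 2 * P.L * Real.log 2)) =
        Real.exp (2 * P.L * Real.log 2) * Real.exp N * Real.exp N * (S0 / So) := by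
      have e1 : S0 / So = Real.exp (Real.log S0 - Real.log So) := by
        rw [Real.exp_sub, Real.exp_log hS0, Real.exp_log hSo]
      rw [e1, ← Real.exp_add, ← Real.exp_add, ← Real.exp_add]
      congr 1
      ring
    rw [h3]
    have h4 : Real.exp (h * ((y : ℝ) - x)) * (Real.exp (-N) * So) ≤ Kp g h t x P.TB y := hlo
    have h5 : Real.exp (h * ((y : ℝ) - x)) ≤ Kp g h t x P.TB y * Real.exp N / So := by
      rw [le_div_iff₀ hSo]
      have e2 : Real.exp (-N) * Real.exp N = 1 := by rw [← Real.exp_add]; simp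
      have e3 := mul_le_mul_of_nonneg_right h4 (Real.exp_pos N).le
      calc Real.exp (h * ((y : ℝ) - x)) * So = Real.exp (h * ((y : ℝ) - x)) *
            (Real.exp (-N) * So) * Real.exp N := by
            rw [show Real.exp (h * ((y : ℝ) - x)) * (Real.exp (-N) * So) * Real.exp N =
              Real.exp (h * ((y : ℝ) - x)) * So * (Real.exp (-N) * Real.exp N) by ring, e2, mul_one]
        _ ≤ _ := e3
    refine hup.trans ?_
    rw [h2L]
    have h6 : 0 ≤ Real.exp (2 * P.L * Real.log 2) * Real.exp N * S0 := by positivity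
    refine (mul_le_mul_of_nonneg_right h5 h6).trans (le_of_eq ?_)
    field_simp
  unfold dB
  rcases max_choice (0 : ℝ) (max (YY b (t + P.L) P.ℓ (4 * P.w) (4 * P.w) g)
    (YY b (t + P.L) P.ℓ (4 * P.w) (-(4 * P.w)) g) - YY b (t + P.L) P.ℓ (4 * P.w) 0 g -
    2 * (nn b t P.L (3 * P.L) g + nn b (t + P.L + P.ℓ) P.L (3 * P.L) g) -
    2 * P.L * Real.log 2) with hm | hm
  · rw [hm]
    exact h0
  · rw [hm]
    rcases max_choice (YY b (t + P.L) P.ℓ (4 * P.w) (4 * P.w) g)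
      (YY b (t + P.L) P.ℓ (4 * P.w) (-(4 * P.w)) g) with hm' | hm'
    · rw [hm']
      exact h1 _ (Or.inl rfl)
    · rw [hm']
      exact h1 _ (Or.inr rfl)

/-- Proof. `block_good` and `ind (good) + e^{-lam} ind (¬ good)`, `Kp_eq`. -/
theorem block_all (hb : IsW t b) (hw : 1 ≤ P.w) (hρ0 : 0 ≤ P.ρ)
    (hρL : 8 * (P.w : ℝ) ≤ (1 - P.ρ) * P.L) (g : Env) (h lam : ℝ) (x y : ℤ) :
    ∑ r ∈ T P.TB, ind (x + pos r P.TB = y) *
        Real.exp (-(lam * ind (¬ goodB P b t x r))) * wt g h t x P.TB r ≤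
      (Real.exp (-dB P b t g) + Real.exp (-lam)) * Kp g h t x P.TB y := by
  have h1 := block_good hb hw hρ0 hρL g h x y
  calc ∑ r ∈ T P.TB, ind (x + pos r P.TB = y) *
        Real.exp (-(lam * ind (¬ goodB P b t x r))) * wt g h t x P.TB r
      ≤ ∑ r ∈ T P.TB, (ind (x + pos r P.TB = y) * ind (goodB P b t x r) * wt g h t x P.TB r +
          Real.exp (-lam) * (ind (x + pos r P.TB = y) * wt g h t x P.TB r)) := by
        refine Finset.sum_le_sum fun r _ => ?_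
        have hwt := (wt_pos g h t x P.TB r).le
        have hi := ind_nonneg (x + pos r P.TB = y)
        have he := (Real.exp_pos (-lam)).le
        by_cases hg : goodB P b t x r
        · rw [ind_true hg, ind_false (not_not.2 hg), mul_zero, neg_zero, Real.exp_zero]
          have : 0 ≤ Real.exp (-lam) * (ind (x + pos r P.TB = y) * wt g h t x P.TB r) :=
            mul_nonneg he (mul_nonneg hi hwt)
          linarith
        · rw [ind_false hg, ind_true hg, mul_one, mul_zero, zero_mul, zero_add]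
          exact le_of_eq (by ring)
    _ = ∑ r ∈ T P.TB, ind (x + pos r P.TB = y) * ind (goodB P b t x r) * wt g h t x P.TB r +
          Real.exp (-lam) * Kp g h t x P.TB y := by
        rw [Finset.sum_add_distrib, ← Finset.mul_sum, Kp_eq]
    _ ≤ Real.exp (-dB P b t g) * Kp g h t x P.TB y + Real.exp (-lam) * Kp g h t x P.TB y := by
        linarith
    _ = _ := by ring

end

end Pool.Agent.W_7d29a1_h47
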