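import Pool.Agent.W_7d29a1_h47.InsZ

/-!
# Finite Gibbs systems

A Gibbs system has a finite index set `I`, weights `c i ≥ 0` that do not depend on the environment
and a finite set `A i` of sites for every index; the Gibbs weight of `i` in the environment `g` is
`c i * exp (∑_{p ∈ A i} g p)`. Walks with weights at both end points are of this form.
-/

namespace Pool.Agent.W_7d29a1_h47

open MeasureTheory ProbabilityTheory Finset

noncomputable section

/-- The sum of the environment over a finite set of sites. -/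
def gs (g : Env) (A : Finset (ℕ × ℤ)) : ℝ := ∑ p ∈ A, g p

variable {ι : Type*}

/-- The partition function of the system. -/
def SZ (I : Finset ι) (c : ι → ℝ) (A : ι → Finset (ℕ × ℤ)) (g : Env) : ℝ :=
  ∑ i ∈ I, c i * Real.exp (gs g (A i))

/-- The Gibbs average of `F`. -/
def SA (I : Finset ι) (c : ι → ℝ) (A : ι → Finset (ℕ × ℤ)) (g : Env) (F : ι → ℝ) : ℝ :=
  (∑ i ∈ I, c i * Real.exp (gs g (A i)) * F i) / SZ I c A g

/-- The average over two independent indices. -/
def SA2 (I : Finset ι) (c : ι → ℝ) (A : ι → Finset (ℕ × ℤ)) (g : Env) (F : ι → ι → ℝ) : ℝ :=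
  SA I c A g fun i => SA I c A g fun j => F i j

/-- Admissible weights. -/
structure Adms (I : Finset ι) (c : ι → ℝ) : Prop where
  nn : ∀ i ∈ I, 0 ≤ c i
  ex : ∃ i ∈ I, 0 < c i

variable {I : Finset ι} {c : ι → ℝ} {A : ι → Finset (ℕ × ℤ)} {g : Env}

lemma SZ_pos (hc : Adms I c) (A : ι → Finset (ℕ × ℤ)) (g : Env) : 0 < SZ I c A g := by
  obtain ⟨i, hi, h⟩ := hc.ex
  exact Finset.sum_pos' (fun j hj => mul_nonneg (hc.nn j hj) (Real.exp_pos _).le)
    ⟨i, hi, mul_pos h (Real.exp_pos _)⟩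

lemma SA_congr {F G : ι → ℝ} (h : ∀ i ∈ I, F i = G i) : SA I c A g F = SA I c A g G := by
  unfold SA
  rw [Finset.sum_congr rfl fun i hi => by rw [h i hi]]

/-- Indices of weight `0` do not matter. -/
lemma SA_congr' {F G : ι → ℝ} (h : ∀ i ∈ I, c i ≠ 0 → F i = G i) :
    SA I c A g F = SA I c A g G := by
  unfold SA
  congr 1
  refine Finset.sum_congr rfl fun i hi => ?_
  by_cases hc : c i = 0
  · rw [hc]; ring
  · rw [h i hi hc]

lemma SA_mono (hc : Adms I c) {F G : ι → ℝ} (h : ∀ i ∈ I, F i ≤ G i) :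
    SA I c A g F ≤ SA I c A g G := by
  unfold SA
  refine div_le_div_of_nonneg_right (Finset.sum_le_sum fun i hi => ?_) (SZ_pos hc A g).le
  exact mul_le_mul_of_nonneg_left (h i hi) (mul_nonneg (hc.nn i hi) (Real.exp_pos _).le)

/-- Indices of weight `0` do not matter. -/
lemma SA_mono' (hc : Adms I c) {F G : ι → ℝ} (h : ∀ i ∈ I, c i ≠ 0 → F i ≤ G i) :
    SA I c A g F ≤ SA I c A g G := by
  unfold SA
  refine div_le_div_of_nonneg_right (Finset.sum_le_sum fun i hi => ?_) (SZ_pos hc A g).le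
  by_cases h0 : c i = 0
  · rw [h0]; simp
  · exact mul_le_mul_of_nonneg_left (h i hi h0) (mul_nonneg (hc.nn i hi) (Real.exp_pos _).le)

lemma SA_const (hc : Adms I c) (a : ℝ) : SA I c A g (fun _ => a) = a := by
  unfold SA
  rw [← Finset.sum_mul]
  exact mul_div_cancel_left₀ a (SZ_pos hc A g).ne'

lemma SA_add (F G : ι → ℝ) : SA I c A g (fun i => F i + G i) = SA I c A g F + SA I c A g G := by
  unfold SA
  rw [← add_div, ← Finset.sum_add_distrib]
  congr 1
  exact Finset.sum_congr rfl fun i _ => by ring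

lemma SA_sub (F G : ι → ℝ) : SA I c A g (fun i => F i - G i) = SA I c A g F - SA I c A g G := by
  unfold SA
  rw [← sub_div, ← Finset.sum_sub_distrib]
  congr 1
  exact Finset.sum_congr rfl fun i _ => by ring

lemma SA_mul_left (a : ℝ) (F : ι → ℝ) : SA I c A g (fun i => a * F i) = a * SA I c A g F := by
  unfold SA
  rw [← mul_div_assoc, Finset.mul_sum]
  congr 1
  exact Finset.sum_congr rfl fun i _ => by ring

lemma SA_mul_right (a : ℝ) (F : ι → ℝ) : SA I c A g (fun i => F i * a) = SA I c A g F * a := by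
  rw [mul_comm, ← SA_mul_left]
  exact SA_congr fun i _ => mul_comm _ _

lemma SA_sum {κ : Type*} (J : Finset κ) (F : κ → ι → ℝ) :
    SA I c A g (fun i => ∑ j ∈ J, F j i) = ∑ j ∈ J, SA I c A g (F j) := by
  unfold SA
  rw [← Finset.sum_div, Finset.sum_comm]
  congr 1
  exact Finset.sum_congr rfl fun i _ => by rw [Finset.mul_sum]

lemma SA_nonneg (hc : Adms I c) {F : ι → ℝ} (h : ∀ i ∈ I, 0 ≤ F i) : 0 ≤ SA I c A g F := by
  have := SA_mono (A := A) (g := g) hc h
  rwa [SA_const hc] at this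

lemma SA_le (hc : Adms I c) {F : ι → ℝ} {a : ℝ} (h : ∀ i ∈ I, F i ≤ a) : SA I c A g F ≤ a := by
  have := SA_mono (A := A) (g := g) hc h
  rwa [SA_const hc] at this

lemma SA_abs_le (hc : Adms I c) {F : ι → ℝ} {a : ℝ} (h : ∀ i ∈ I, |F i| ≤ a) :
    |SA I c A g F| ≤ a := by
  rw [abs_le]
  constructor
  · have := SA_mono (A := A) (g := g) hc (F := fun _ => -a) fun i hi => (abs_le.1 (h i hi)).1
    rwa [SA_const hc] at this
  · exact SA_le hc fun i hi => (abs_le.1 (h i hi)).2

/-- The weight of one index. -/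
lemma SA_single [DecidableEq ι] {i₀ : ι} (hi : i₀ ∈ I) (F : ι → ℝ) :
    SA I c A g (fun i => ind (i = i₀) * F i) = SA I c A g (fun i => ind (i = i₀)) * F i₀ := by
  rw [← SA_mul_right]
  refine SA_congr fun i _ => ?_
  by_cases h : i = i₀
  · rw [h]
  · rw [ind_false h]; ring

lemma SA_eq_sum [DecidableEq ι] (F : ι → ℝ) :
    SA I c A g F = ∑ i₀ ∈ I, SA I c A g (fun i => ind (i = i₀)) * F i₀ := by
  have h1 : SA I c A g F = SA I c A g (fun i => ∑ i₀ ∈ I, ind (i = i₀) * F i) := by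
    refine SA_congr fun i hi => ?_
    rw [← Finset.sum_mul, Finset.sum_eq_single i (fun j _ hj => ind_false fun h => hj h.symm)
      (fun h => absurd hi h), ind_true rfl, one_mul]
  rw [h1, SA_sum]
  exact Finset.sum_congr rfl fun i₀ hi => SA_single hi F

lemma SA2_mono (hc : Adms I c) {F G : ι → ι → ℝ} (h : ∀ i ∈ I, ∀ j ∈ I, F i j ≤ G i j) :
    SA2 I c A g F ≤ SA2 I c A g G := SA_mono hc fun i hi => SA_mono hc fun j hj => h i hi j hj

/-- Indices of weight `0` do not matter. -/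
lemma SA2_mono' (hc : Adms I c) {F G : ι → ι → ℝ}
    (h : ∀ i ∈ I, c i ≠ 0 → ∀ j ∈ I, c j ≠ 0 → F i j ≤ G i j) :
    SA2 I c A g F ≤ SA2 I c A g G :=
  SA_mono' hc fun i hi hi' => SA_mono' hc fun j hj hj' => h i hi hi' j hj hj'

lemma SA2_nonneg (hc : Adms I c) {F : ι → ι → ℝ} (h : ∀ i ∈ I, ∀ j ∈ I, 0 ≤ F i j) :
    0 ≤ SA2 I c A g F := SA_nonneg hc fun i hi => SA_nonneg hc fun j hj => h i hi j hj

lemma SA2_le (hc : Adms I c) {F : ι → ι → ℝ} {a : ℝ} (h : ∀ i ∈ I, ∀ j ∈ I, F i j ≤ a) :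
    SA2 I c A g F ≤ a := SA_le hc fun i hi => SA_le hc fun j hj => h i hi j hj

lemma SA2_add (F G : ι → ι → ℝ) :
    SA2 I c A g (fun i j => F i j + G i j) = SA2 I c A g F + SA2 I c A g G := by
  unfold SA2
  rw [← SA_add]
  exact SA_congr fun i _ => SA_add _ _

lemma SA2_mul_left (a : ℝ) (F : ι → ι → ℝ) :
    SA2 I c A g (fun i j => a * F i j) = a * SA2 I c A g F := by
  unfold SA2
  rw [← SA_mul_left]
  exact SA_congr fun i _ => SA_mul_left _ _

lemma SA2_sum {κ : Type*} (J : Finset κ) (F : κ → ι → ι → ℝ) :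
    SA2 I c A g (fun i j => ∑ k ∈ J, F k i j) = ∑ k ∈ J, SA2 I c A g (F k) := by
  unfold SA2
  rw [← SA_sum]
  exact SA_congr fun i _ => SA_sum _ _

lemma SA2_fst (hc : Adms I c) (F : ι → ℝ) : SA2 I c A g (fun i _ => F i) = SA I c A g F := by
  unfold SA2
  exact SA_congr fun i _ => SA_const hc _

lemma SA2_snd (hc : Adms I c) (F : ι → ℝ) : SA2 I c A g (fun _ j => F j) = SA I c A g F := by
  unfold SA2
  exact SA_const hc _

/-- The two indices can be exchanged. -/
lemma SA2_symm (F : ι → ι → ℝ) : SA2 I c A g F = SA2 I c A g (fun i j => F j i) := by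
  unfold SA2 SA
  simp only [← mul_div_assoc, Finset.mul_sum, ← Finset.sum_div]
  congr 2
  rw [Finset.sum_comm]
  refine Finset.sum_congr rfl fun i _ => Finset.sum_congr rfl fun j _ => ?_
  ring

/-- A product of averages. -/
lemma SA2_prod (F G : ι → ℝ) : SA2 I c A g (fun i j => F i * G j) = SA I c A g F * SA I c A g G := by
  unfold SA2
  rw [← SA_mul_right]
  exact SA_congr fun i _ => SA_mul_left _ _

/-! ### Measurability and moments -/

@[fun_prop]
lemma measurable_gs (A : Finset (ℕ × ℤ)) : Measurable (fun g : Env => gs g A) := by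
  unfold gs; fun_prop

@[fun_prop]
lemma measurable_SZ (I : Finset ι) (c : ι → ℝ) (A : ι → Finset (ℕ × ℤ)) :
    Measurable (fun g : Env => SZ I c A g) := by
  unfold SZ; fun_prop

lemma measurable_SA (I : Finset ι) (c : ι → ℝ) (A : ι → Finset (ℕ × ℤ)) {F : Env → ι → ℝ}
    (hF : ∀ i ∈ I, Measurable fun g => F g i) : Measurable (fun g : Env => SA I c A g (F g)) := by
  unfold SA
  refine Measurable.div (Finset.measurable_sum _ fun i hi => ?_) (measurable_SZ I c A)
  exact (by fun_prop : Measurable fun g : Env => c i * Real.exp (gs g (A i))).mul (hF i hi)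

lemma abs_SA_le_sum (hc : Adms I c) (F : ι → ℝ) : |SA I c A g F| ≤ ∑ i ∈ I, |F i| :=
  SA_abs_le hc fun i hi => Finset.single_le_sum (f := fun i => |F i|) (fun j _ => abs_nonneg _) hi

variable {μ : Measure ℝ} [IsProbabilityMeasure μ]

lemma PMom_SA (hc : Adms I c) (A : ι → Finset (ℕ × ℤ)) {F : Env → ι → ℝ}
    (hF : ∀ i ∈ I, PMom (law μ) fun g => F g i) : PMom (law μ) (fun g : Env => SA I c A g (F g)) :=
  (PMom.sum I fun i hi => (hF i hi).abs).mono (measurable_SA I c A fun i hi => (hF i hi).1)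
    fun g => (abs_SA_le_sum hc (F g)).trans (le_abs_self _)

lemma PMom_SA2 (hc : Adms I c) (A : ι → Finset (ℕ × ℤ)) {F : Env → ι → ι → ℝ}
    (hF : ∀ i ∈ I, ∀ j ∈ I, PMom (law μ) fun g => F g i j) :
    PMom (law μ) (fun g : Env => SA2 I c A g (F g)) :=
  PMom_SA hc A fun i hi => PMom_SA hc A fun j hj => hF i hi j hj

omit [IsProbabilityMeasure μ] in
lemma dependsOn_gs (A : Finset (ℕ × ℤ)) {S : Set (ℕ × ℤ)} (hA : ↑A ⊆ S) :
    DependsOn (fun g : Env => gs g A) S := by
  intro g g' h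
  exact Finset.sum_congr rfl fun p hp => h p (hA hp)

lemma dependsOn_SA (I : Finset ι) (c : ι → ℝ) {A : ι → Finset (ℕ × ℤ)} {S : Set (ℕ × ℤ)}
    (hA : ∀ i ∈ I, ↑(A i) ⊆ S) {F : Env → ι → ℝ} (hF : ∀ i ∈ I, DependsOn (fun g => F g i) S) :
    DependsOn (fun g : Env => SA I c A g (F g)) S := by
  intro g g' h
  have h1 : ∀ i ∈ I, gs g (A i) = gs g' (A i) := fun i hi => dependsOn_gs (A i) (hA i hi) h
  have h2 : SZ I c A g = SZ I c A g' := Finset.sum_congr rfl fun i hi => by rw [h1 i hi]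
  show SA I c A g (F g) = SA I c A g' (F g')
  unfold SA
  rw [h2]
  congr 1
  exact Finset.sum_congr rfl fun i hi => by
    have h3 : F g i = F g' i := hF i hi h
    rw [h1 i hi, h3]

lemma gs_update {z : ℕ × ℤ} (u : ℝ) {A : Finset (ℕ × ℤ)} (hz : z ∈ A) :
    gs (Function.update g z u) A = gs (Function.update g z 0) A + u := by
  classical
  unfold gs
  rw [← Finset.add_sum_erase _ _ hz, ← Finset.add_sum_erase _ _ hz]
  simp only [Function.update_self, zero_add]
  rw [add_comm]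
  congr 1
  refine Finset.sum_congr rfl fun p hp => ?_
  rw [Function.update_of_ne (Finset.ne_of_mem_erase hp), Function.update_of_ne (Finset.ne_of_mem_erase hp)]

lemma gs_update_not {z : ℕ × ℤ} (u : ℝ) {A : Finset (ℕ × ℤ)} (hz : z ∉ A) :
    gs (Function.update g z u) A = gs g A := by
  unfold gs
  refine Finset.sum_congr rfl fun p hp => ?_
  rw [Function.update_of_ne]
  rintro rfl
  exact hz hp

end

end Pool.Agent.W_7d29a1_h47
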