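import Pool.Agent.W_7d29a1_h47q.Sys
import Pool.Agent.W_7d29a1_h47.Tube
import Pool.Agent.W_7d29a1_h47.SiteK
import Pool.Agent.W_7d29a1_h47.LamA

/-!
# Windows, strips, good blocks: definitions

The window has `I + 1` blocks of length `TB = 2 L + ℓ`. Inside of a block the first and the last `L` rows
are used for connections, the `ℓ` rows in the middle carry the strip of width `4 w` to the right of a
base trajectory `b`.
-/

namespace Pool.Agent.W_7d29a1_h47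

open MeasureTheory ProbabilityTheory Finset

noncomputable section

/-- The trajectory of the walk with steps `r` started at time `k` in `x`, at the absolute time `t`
(`t ≥ k`). -/
def tr (k : ℕ) (x : ℤ) (r : ℕ → Bool) (t : ℕ) : ℤ := x + pos r (t - k)

/-- `b` moves by one unit per time step, from time `k` on. -/
def IsW (k : ℕ) (b : ℕ → ℤ) : Prop := ∀ t, k ≤ t → |b (t + 1) - b t| = 1

/-- Index set of the window system: starting point and steps. -/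
def WI (N R : ℕ) : Finset (ℤ × (ℕ → Bool)) := box N ×ˢ T R

/-- The weights: `α` at the starting point, `γ` at the end point, tilt `h`. -/
def Wc (h : ℝ) (R : ℕ) (α γ : ℤ → ℝ) (i : ℤ × (ℕ → Bool)) : ℝ :=
  α i.1 * Real.exp (h * (pos i.2 R : ℝ)) * γ (i.1 + pos i.2 R)

open Classical in
/-- The sites of the path that starts at time `k`. -/
def WA (k R : ℕ) (i : ℤ × (ℕ → Bool)) : Finset (ℕ × ℤ) :=
  (range R).image fun j => (k + j, i.1 + pos i.2 (j + 1))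

/-- `j` is strictly to the right of `i` all the time. -/
def rt (R : ℕ) (i j : ℤ × (ℕ → Bool)) : Prop := ∀ l ≤ R, i.1 + pos i.2 l < j.1 + pos j.2 l

/-- No meeting in the window. -/
def nmW (R : ℕ) (i j : ℤ × (ℕ → Bool)) : ℝ := ind (∀ l ≤ R, i.1 + pos i.2 l ≠ j.1 + pos j.2 l)

/-- The parameters. -/
structure Prm where
  w : ℕ
  T₁ : ℕ
  L : ℕ
  ℓ : ℕ
  I : ℕ
  ρ : ℝ
  K : ℝ

/-- Block length. -/
def Prm.TB (P : Prm) : ℕ := P.L + P.ℓ + P.L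

/-- Window length. -/
def Prm.R (P : Prm) : ℕ := (P.I + 1) * P.TB

/-- The paths of length `ℓ` started at time `t` that stay strictly to the right of `b + o`, are at
distance at most `W` of it at both ends and at least half of the time. -/
def cls (b : ℕ → ℤ) (t ℓ W : ℕ) (o : ℤ) : Finset (ℤ × (ℕ → Bool)) := by
  classical
  exact (Icc (b t + o + 1) (b t + o + W) ×ˢ T ℓ).filter fun i =>
    (i.1 - (b t + o)) % 2 = 0 ∧ (∀ j ≤ ℓ, b (t + j) + o < i.1 + pos i.2 j) ∧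
    i.1 + pos i.2 ℓ ≤ b (t + ℓ) + o + W ∧
    (ℓ : ℝ) / 2 ≤ ∑ j ∈ range ℓ, ind (i.1 + pos i.2 (j + 1) ≤ b (t + j + 1) + o + W)

/-- Log partition function of the class. -/
def YY (b : ℕ → ℤ) (t ℓ W : ℕ) (o : ℤ) (g : Env) : ℝ :=
  Real.log (∑ i ∈ cls b t ℓ W o, Real.exp (En g t i.1 ℓ i.2))

/-- The noise of the paths of length `L` started at time `t` at distance at most `S` of `b t`. -/
def nn (b : ℕ → ℤ) (t L S : ℕ) (g : Env) : ℝ :=
  Real.log (∑ x ∈ Icc (b t - S) (b t + S), ∑ s ∈ T L,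
    (Real.exp (En g t x L s) + Real.exp (-En g t x L s)))

/-- A good block for a path to the right of `b`. -/
def goodB (P : Prm) (b : ℕ → ℤ) (t : ℕ) (x : ℤ) (r : ℕ → Bool) : Prop :=
  (x - b t) % 2 = 0 ∧ (∀ j ≤ P.TB, b (t + j) < x + pos r j) ∧
  x + pos r P.L ≤ b (t + P.L) + 4 * P.w ∧
  x + pos r (P.L + P.ℓ) ≤ b (t + P.L + P.ℓ) + 4 * P.w ∧
  (P.ℓ : ℝ) / 2 ≤ ∑ j ∈ range P.ℓ, ind (x + pos r (P.L + j + 1) ≤ b (t + P.L + j + 1) + 4 * P.w) ∧
  |(pos r P.L : ℝ)| ≤ P.ρ * P.L ∧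
  |(pos r (P.L + P.ℓ + P.L) : ℝ) - pos r (P.L + P.ℓ)| ≤ P.ρ * P.L

/-- The gain of a block. -/
def dB (P : Prm) (b : ℕ → ℤ) (t : ℕ) (g : Env) : ℝ :=
  max 0 (max (YY b (t + P.L) P.ℓ (4 * P.w) (4 * P.w) g) (YY b (t + P.L) P.ℓ (4 * P.w) (-(4 * P.w)) g) -
    YY b (t + P.L) P.ℓ (4 * P.w) 0 g -
    2 * (nn b t P.L (3 * P.L) g + nn b (t + P.L + P.ℓ) P.L (3 * P.L) g) - 2 * P.L * Real.log 2)

/-- The number of bad blocks among the first `I`. -/
def nbad (P : Prm) (b : ℕ → ℤ) (k : ℕ) (x : ℤ) (r : ℕ → Bool) : ℝ :=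
  ∑ i ∈ range P.I, ind (¬ goodB P b (k + i * P.TB) (x + pos r (i * P.TB)) (shf (i * P.TB) r))

/-- Point-to-point partition function over the paths to the right of `b` with few bad blocks. -/
def ZS (P : Prm) (h : ℝ) (b : ℕ → ℤ) (k : ℕ) (g : Env) (x y : ℤ) : ℝ :=
  ∑ r ∈ T P.R, ind (x + pos r P.R = y) *
    ind ((∀ j ≤ P.R, b (k + j) < x + pos r j) ∧ nbad P b k x r ≤ (P.I : ℝ) / 32) * wt g h k x P.R r

/-- The bad increasing event. -/
def Inc (P : Prm) (μ : Measure ℝ) (h : ℝ) (b : ℕ → ℤ) (k : ℕ) (g : Env) : Prop :=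
  ∃ x y : ℤ, Real.exp (P.R * Lam μ h - P.K * P.I / 128) < ZS P h b k g x y

/-- Its probability bound. -/
def e1 (P : Prm) (μ : Measure ℝ) : ℝ :=
  Real.exp (-(P.I : ℝ) / 40) + (4 * P.R + 1) * (2 * P.R + 1) *
    Real.exp (-((P.K * P.I) ^ 2 / (2 ^ 18 * (Cc μ + 1) * P.R)))

/-- The constraints on the parameters. -/
structure Prm.Ok (P : Prm) (μ : Measure ℝ) (p q : ℝ) : Prop where
  w1 : 1 ≤ P.w
  wT : P.w ≤ P.T₁
  TT : P.T₁ ≤ P.TB
  ℓ1 : 1 ≤ P.ℓ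
  L1 : 1 ≤ P.L
  I1 : 1 ≤ P.I
  ρ0 : 0 ≤ P.ρ
  ρL : 8 * (P.w : ℝ) ≤ (1 - P.ρ) * P.L
  K0 : 1000 ≤ P.K
  Kℓ : P.K * Real.sqrt (P.ℓ * (4 * P.w)) ≤ kmin μ p q * P.ℓ / 8
  noise : 32 * (4 * (Real.log (2 * (6 * P.L + 1)) + P.L * (Real.log 2 + Real.log (Mom μ 1))) +
    2 * P.L * Real.log 2) ≤ P.K

/-! ### One-walk functionals -/

/-- The centred test function. -/
def phc (μ : Measure ℝ) (p q : ℝ) (u : ℝ) : ℝ := phi p q u - ∫ u', phi p q u' ∂μ

/-- The closeness functional for a walk started in `(0, 0)`. -/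
def Phi0 (P : Prm) (μ : Measure ℝ) (p q v : ℝ) (g : Env) (r : ℕ → Bool) : ℝ :=
  (kmin μ p q * P.T₁)⁻¹ * (max (tubeX (phc μ p q) v P.w g 0 0 P.T₁) 0 +
    Mom μ 1 * ∑ i ∈ range P.T₁, Real.exp |g (i, pos r (i + 1))| *
      ind (2 * (P.w : ℝ) < |(pos r (i + 1) : ℝ) - v * (i + 1)|)) +
  (P.T₁ : ℝ)⁻¹ * ∑ i ∈ range P.T₁, ind (2 * (P.w : ℝ) < |(pos r (i + 1) : ℝ) - v * (i + 1)|)

/-- The closeness functional at time `t`. -/
def Phi (P : Prm) (μ : Measure ℝ) (p q v : ℝ) (g : Env) (t : ℕ) (x : ℤ) (r : ℕ → Bool) : ℝ :=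
  Phi0 P μ p q v (shiftEnv t x g) r

/-- Large slope. -/
def Sl (P : Prm) (r : ℕ → Bool) : ℝ := ind (P.ρ * P.L < |(pos r P.L : ℝ)|)

/-- Small point-to-point partition function. -/
def Dn (P : Prm) (μ : Measure ℝ) (h : ℝ) (g : Env) (k : ℕ) (x : ℤ) (r : ℕ → Bool) : ℝ :=
  ind (Kp g h k x P.R (x + pos r P.R) < Real.exp (P.R * Lam μ h - P.K * P.I / 256))

/-- The total functional of a window that starts at time `k`. -/
def Psi (P : Prm) (μ : Measure ℝ) (p q h v : ℝ) (g : Env) (k : ℕ) (x : ℤ) (r : ℕ → Bool) : ℝ :=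
  2 * Dn P μ h g k x r + 64 / P.I * ∑ i ∈ range P.I,
    (Phi P μ p q v g (k + (i * P.TB + P.L)) (x + pos r (i * P.TB + P.L)) (shf (i * P.TB + P.L) r) +
     Phi P μ p q v g (k + (i * P.TB + P.L + P.ℓ)) (x + pos r (i * P.TB + P.L + P.ℓ))
      (shf (i * P.TB + P.L + P.ℓ) r) +
     2 / P.ℓ * ∑ j ∈ range P.ℓ, Phi P μ p q v g (k + (i * P.TB + P.L + j + 1))
      (x + pos r (i * P.TB + P.L + j + 1)) (shf (i * P.TB + P.L + j + 1) r) +
     Sl P (shf (i * P.TB) r) + Sl P (shf (i * P.TB + P.L + P.ℓ) r))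

/-- The deterministic part of the no-meeting bound. -/
def e0 (P : Prm) (μ : Measure ℝ) : ℝ := 2 * e1 P μ + 2 * Real.exp (-(P.K * P.I / 256))

end

end Pool.Agent.W_7d29a1_h47
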