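import Pool.Agent.W_7d29a1_h47q.StripA

/-!
# The window system: elementary facts
-/

namespace Pool.Agent.W_7d29a1_h47

open MeasureTheory ProbabilityTheory Finset

noncomputable section

variable {h : ℝ} {k R N : ℕ} {α γ : ℤ → ℝ} {g : Env}

/-- The Gibbs weight is `α (x) * wt * γ (end)`. Proof. `gs_WA`, definition of `wt`, `Real.exp_add`. -/
lemma Wc_mul (h : ℝ) (k R : ℕ) (α γ : ℤ → ℝ) (g : Env) (i : ℤ × (ℕ → Bool)) :
    Wc h R α γ i * Real.exp (gs g (WA k R i)) =
      α i.1 * wt g h k i.1 R i.2 * γ (i.1 + pos i.2 R) := by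
  unfold Wc wt
  rw [gs_WA, Real.exp_add]
  ring

/-- The partition function. Proof. `Wc_mul`, `Finset.sum_product`. -/
lemma SZ_win (h : ℝ) (k R N : ℕ) (α γ : ℤ → ℝ) (g : Env) :
    SZ (WI N R) (Wc h R α γ) (WA k R) g =
      ∑ x ∈ box N, ∑ r ∈ T R, α x * wt g h k x R r * γ (x + pos r R) := by
  unfold SZ WI
  rw [Finset.sum_product]
  exact Finset.sum_congr rfl fun x _ => Finset.sum_congr rfl fun r _ => Wc_mul h k R α γ g (x, r)

/-- The numerators, sorted by the end point. -/
lemma WinA_num (h : ℝ) (k R N : ℕ) (α γ : ℤ → ℝ) (g : Env) (F : ℤ × (ℕ → Bool) → ℝ) :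
    ∑ i ∈ WI N R, Wc h R α γ i * Real.exp (gs g (WA k R i)) * F i =
      ∑ x ∈ box N, ∑ y ∈ box (N + R), α x *
          (∑ r ∈ T R, ind (x + pos r R = y) * F (x, r) * wt g h k x R r) * γ y := by
  unfold WI
  rw [Finset.sum_product]
  refine Finset.sum_congr rfl fun x hx => ?_
  have e1 : ∀ y ∈ box (N + R), α x *
          (∑ r ∈ T R, ind (x + pos r R = y) * F (x, r) * wt g h k x R r) * γ y =
      ∑ r ∈ T R, α x * (ind (x + pos r R = y) * F (x, r) * wt g h k x R r) * γ y := by
    intro y _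
    rw [Finset.mul_sum, Finset.sum_mul]
  rw [Finset.sum_congr rfl e1, Finset.sum_comm]
  refine Finset.sum_congr rfl fun r _ => ?_
  have hy : x + pos r R ∈ box (N + R) := by
    rw [mem_box] at hx ⊢
    have h1 := pos_abs_le r R
    have h2 := abs_add_le x (pos r R)
    push_cast
    linarith
  rw [Finset.sum_eq_single (x + pos r R) (fun y _ hne => by
      rw [ind_false (fun e => hne e.symm)]; ring) (fun hn => absurd hy hn)]
  rw [Wc_mul, ind_true rfl]
  ring

/-- Averages of functions of the two end points. `box (N + R)` contains all end points. Proof. `Wc_mul`,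
`Finset.sum_product`, sort by the end point `y = x + pos r R` (`|y| ≤ N + R`), `Kp_eq`. -/
lemma SA_ends (h : ℝ) (k R N : ℕ) (α γ : ℤ → ℝ) (g : Env) (F : ℤ → ℤ → ℝ) :
    SA (WI N R) (Wc h R α γ) (WA k R) g (fun i => F i.1 (i.1 + pos i.2 R)) =
      (∑ x ∈ box N, ∑ y ∈ box (N + R), α x * Kp g h k x R y * γ y * F x y) /
        SZ (WI N R) (Wc h R α γ) (WA k R) g := by
  unfold SA
  congr 1
  rw [WinA_num h k R N α γ g (fun i => F i.1 (i.1 + pos i.2 R))]
  refine Finset.sum_congr rfl fun x _ => Finset.sum_congr rfl fun y _ => ?_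
  rw [Kp_eq]
  have h1 : ∑ r ∈ T R, ind (x + pos r R = y) * F x (x + pos r R) * wt g h k x R r =
      (∑ r ∈ T R, ind (x + pos r R = y) * wt g h k x R r) * F x y := by
    rw [Finset.sum_mul]
    refine Finset.sum_congr rfl fun r _ => ?_
    by_cases e : x + pos r R = y
    · rw [e]; ring
    · rw [ind_false e]; ring
  simp only []
  rw [h1]
  ring

/-- Averages of `F (end points) * ind (property of the path)`. -/
lemma SA_ends_ind (h : ℝ) (k R N : ℕ) (α γ : ℤ → ℝ) (g : Env) (E : ℤ → (ℕ → Bool) → Prop) :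
    SA (WI N R) (Wc h R α γ) (WA k R) g (fun i => ind (E i.1 i.2)) =
      (∑ x ∈ box N, ∑ y ∈ box (N + R), α x *
          (∑ r ∈ T R, ind (x + pos r R = y) * ind (E x r) * wt g h k x R r) * γ y) /
        SZ (WI N R) (Wc h R α γ) (WA k R) g := by
  unfold SA
  congr 1
  exact WinA_num h k R N α γ g (fun i => ind (E i.1 i.2))

lemma WinA_stp (b : Bool) : stp b = 1 ∨ stp b = -1 := by
  cases b <;> simp [stp]

/-- One half of the ordering. -/
lemma WinA_ord {i j : ℤ × (ℕ → Bool)} (hpar : (i.1 - j.1) % 2 = 0)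
    (hnm : ∀ l ≤ R, i.1 + pos i.2 l ≠ j.1 + pos j.2 l) (h0 : i.1 < j.1) : rt R i j := by
  intro l
  induction l with
  | zero => intro _; simpa using h0
  | succ l ih =>
    intro hl
    have h1 := ih (by omega)
    have h2 := hnm (l + 1) hl
    have p1 := pos_parity i.2 (l + 1)
    have p2 := pos_parity j.2 (l + 1)
    have p3 := pos_parity i.2 l
    have p4 := pos_parity j.2 l
    rw [pos_succ] at h2 p1
    rw [pos_succ] at h2 p2
    rw [pos_succ, pos_succ]
    have s1 := WinA_stp (i.2 l)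
    have s2 := WinA_stp (j.2 l)
    omega

/-- Two walks of the same parity that never meet stay ordered. Proof. The difference of the
positions is even, changes by `0, ± 2` per step and is never `0` (induction on `l`). -/
lemma nm_ordered {i j : ℤ × (ℕ → Bool)} (hpar : (i.1 - j.1) % 2 = 0)
    (hnm : ∀ l ≤ R, i.1 + pos i.2 l ≠ j.1 + pos j.2 l) : rt R i j ∨ rt R j i := by
  have h0 : i.1 ≠ j.1 := by
    have := hnm 0 (Nat.zero_le R)
    simpa using this
  rcases lt_or_gt_of_ne h0 with h1 | h1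
  · exact Or.inl (WinA_ord hpar hnm h1)
  · exact Or.inr (WinA_ord (by omega) (fun l hl e => hnm l hl e.symm) h1)

/-- `nmW` is at most the sum over both orders. -/
lemma nmW_le {i j : ℤ × (ℕ → Bool)} (hpar : (i.1 - j.1) % 2 = 0) :
    nmW R i j ≤ ind (rt R i j) + ind (rt R j i) := by
  unfold nmW
  by_cases hn : ∀ l ≤ R, i.1 + pos i.2 l ≠ j.1 + pos j.2 l
  · rw [ind_true hn]
    rcases nm_ordered hpar hn with h1 | h1
    · rw [ind_true h1]
      linarith [ind_nonneg (rt R j i)]
    · rw [ind_true h1]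
      linarith [ind_nonneg (rt R i j)]
  · rw [ind_false hn]
    linarith [ind_nonneg (rt R j i), ind_nonneg (rt R i j)]

/-- The trajectory of a walk moves by one unit per time step. -/
lemma isW_tr (k : ℕ) (x : ℤ) (s : ℕ → Bool) : IsW k (tr k x s) := by
  intro t ht
  obtain ⟨j, rfl⟩ := Nat.exists_eq_add_of_le ht
  unfold tr
  rw [Nat.add_assoc, Nat.add_sub_cancel_left, Nat.add_sub_cancel_left, pos_succ]
  have h1 : x + (pos s j + stp (s j)) - (x + pos s j) = stp (s j) := by ring
  rw [h1]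
  exact stp_abs _

lemma tr_add (k : ℕ) (x : ℤ) (s : ℕ → Bool) (j : ℕ) : tr k x s (k + j) = x + pos s j := by
  unfold tr
  rw [Nat.add_sub_cancel_left]

end

end Pool.Agent.W_7d29a1_h47
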